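import Pool.Agent.Lib.QE.SpecA

/-!
# Package `QE`, block A: assembly (AAs)
-/

set_option autoImplicit false

namespace Pool.Agent.A54.QE

open MeasureTheory Filter Topology Set
open scoped ContDiff ComplexConjugate UpperHalfPlane MatrixGroups ENNReal
open Pool.Agent.A54.Dyn (G fl base ze io mk4 Inv)

noncomputable section

theorem stmtAAs (hWSm : StmtWSm) (hWFi : StmtWFi) (hAEx : StmtAEx) (hASu : StmtASu) (hAHe : StmtAHe)
    (hAEq : StmtAEq) : StmtAAs := by
  intro μ hμ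
  have hfin : ∫⁻ g, ENNReal.ofReal (ch g) ∂μ < ⊤ := by
    have h1 : mX μ univ < ⊤ := (hWFi μ hμ).measure_univ_lt_top
    rw [mX, withDensity_apply _ MeasurableSet.univ, setLIntegral_univ] at h1
    exact h1
  obtain ⟨lf, hlf⟩ := hAEx μ hμ.fin ⟨ch, hWSm.2.1, hWSm.2.2.1, hfin⟩
  obtain ⟨D, mD, nD, fi, ne, gam, flo⟩ := hAEq μ lf hμ hlf
  exact ⟨lf, D, { toLS := hlf, mD := mD, nD := nD, fi := fi, ne := ne, gam := gam, flo := flo,
                  sup := hASu μ lf hlf, hec := fun d hd => hAHe μ lf hμ hlf d hd }⟩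

end

end Pool.Agent.A54.QE
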