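import Pool.Agent.Lib.QE.SpecA

/-!
# QE, ACr: the coordinates `(vc, uc)` on `SL(2, ℝ)` (author helper77)
-/

set_option autoImplicit false

namespace Pool.Agent.A54.QE

open MeasureTheory Filter Topology Set
open Pool.Agent.A54.Dyn (G fl io mk4 mul_00 mul_01 mul_10 mul_11 G_ext det_eq fl_00 fl_01 fl_10 fl_11 mk4_00 mk4_01
  mk4_10 mk4_11 continuous_entry)

noncomputable section

namespace ACrM

lemma un_00 (u : ℝ) : un u 0 0 = 1 := rfl
lemma un_01 (u : ℝ) : un u 0 1 = u := rfl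
lemma un_10 (u : ℝ) : un u 1 0 = 0 := rfl
lemma un_11 (u : ℝ) : un u 1 1 = 1 := rfl

lemma vc_1 (g : G) : (vc g).1 = g 0 0 := rfl
lemma vc_2 (g : G) : (vc g).2 = g 1 0 := rfl

lemma nz {v : ℝ × ℝ} (h : v ≠ 0) : v.1 ^ 2 + v.2 ^ 2 ≠ 0 := by
  intro h0
  apply h
  have h1 : v.1 ^ 2 = 0 := by nlinarith [sq_nonneg v.1, sq_nonneg v.2]
  have h2 : v.2 ^ 2 = 0 := by nlinarith [sq_nonneg v.1, sq_nonneg v.2]
  exact Prod.ext ((pow_eq_zero_iff two_ne_zero).1 h1) ((pow_eq_zero_iff two_ne_zero).1 h2)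

lemma vne (g : G) : vc g ≠ 0 := by
  intro h
  have h1 : g 0 0 = 0 := congrArg Prod.fst h
  have h2 : g 1 0 = 0 := congrArg Prod.snd h
  have h3 := det_eq g
  rw [h1, h2] at h3
  simp at h3

lemma rne (g : G) : g 0 0 ^ 2 + g 1 0 ^ 2 ≠ 0 := nz (vne g)

lemma sc_00 {v : ℝ × ℝ} (h : v ≠ 0) : sc v 0 0 = v.1 := by
  unfold sc; rw [dif_pos (nz h)]; rfl
lemma sc_01 {v : ℝ × ℝ} (h : v ≠ 0) : sc v 0 1 = -(v.2 / (v.1 ^ 2 + v.2 ^ 2)) := by
  unfold sc; rw [dif_pos (nz h)]; rfl
lemma sc_10 {v : ℝ × ℝ} (h : v ≠ 0) : sc v 1 0 = v.2 := by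
  unfold sc; rw [dif_pos (nz h)]; rfl
lemma sc_11 {v : ℝ × ℝ} (h : v ≠ 0) : sc v 1 1 = v.1 / (v.1 ^ 2 + v.2 ^ 2) := by
  unfold sc; rw [dif_pos (nz h)]; rfl

lemma cont_mk4 {X : Type*} [TopologicalSpace X] {a b c d : X → ℝ} (ha : Continuous a) (hb : Continuous b)
    (hc : Continuous c) (hd : Continuous d) (h : ∀ x, a x * d x - b x * c x = 1) :
    Continuous fun x => mk4 (a x) (b x) (c x) (d x) (h x) := by
  apply continuous_induced_rng.mpr
  apply continuous_matrix
  intro i j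
  fin_cases i <;> fin_cases j
  · exact ha
  · exact hb
  · exact hc
  · exact hd

lemma eq' (g : G) : sc (vc g) * un (uc g) = g := by
  have hr := rne g
  have hd := det_eq g
  apply G_ext
  · rw [mul_00, sc_00 (vne g), un_00, un_10, vc_1]; ring
  · rw [mul_01, sc_00 (vne g), sc_01 (vne g), un_01, un_11, vc_1, vc_2, uc]
    field_simp
    linear_combination (g 1 0) * hd
  · rw [mul_10, sc_10 (vne g), un_00, un_10, vc_2]; ring
  · rw [mul_11, sc_10 (vne g), sc_11 (vne g), un_01, un_11, vc_1, vc_2, uc]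
    field_simp
    linear_combination (-g 0 0) * hd

lemma add' (u u' : ℝ) : un (u + u') = un u * un u' := by
  apply G_ext
  · rw [mul_00, un_00, un_00, un_00, un_10]; ring
  · rw [mul_01, un_01, un_00, un_01, un_01, un_11]; ring
  · rw [mul_10, un_10, un_10, un_11, un_10]; ring
  · rw [mul_11, un_11, un_10, un_01, un_11, un_11]; ring

lemma cont_vc : Continuous vc := (continuous_entry 0 0).prodMk (continuous_entry 1 0)

lemma cont_uc : Continuous uc := by
  unfold uc
  refine Continuous.div ?_ ?_ rne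
  · exact ((continuous_entry 0 1).mul (continuous_entry 0 0)).add
      ((continuous_entry 1 1).mul (continuous_entry 1 0))
  · exact ((continuous_entry 0 0).pow 2).add ((continuous_entry 1 0).pow 2)

lemma cont_un : Continuous un := by
  unfold un
  exact cont_mk4 continuous_const continuous_id continuous_const continuous_const _

lemma meas_sc : Measurable sc := by
  apply measurable_of_measurable_on_compl_singleton (0 : ℝ × ℝ)
  apply Continuous.measurable
  have h1 : ∀ x : {x : ℝ × ℝ | x ≠ 0}, x.1.1 ^ 2 + x.1.2 ^ 2 ≠ 0 := fun x => nz x.2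
  have c1 : Continuous fun x : {x : ℝ × ℝ | x ≠ 0} => x.1.1 := continuous_fst.comp continuous_subtype_val
  have c2 : Continuous fun x : {x : ℝ × ℝ | x ≠ 0} => x.1.2 := continuous_snd.comp continuous_subtype_val
  have c3 : Continuous fun x : {x : ℝ × ℝ | x ≠ 0} => x.1.1 ^ 2 + x.1.2 ^ 2 := (c1.pow 2).add (c2.pow 2)
  have h2 : ∀ x : {x : ℝ × ℝ | x ≠ 0}, x.1.1 * (x.1.1 / (x.1.1 ^ 2 + x.1.2 ^ 2)) -
      -(x.1.2 / (x.1.1 ^ 2 + x.1.2 ^ 2)) * x.1.2 = 1 := fun x => by
    have h := h1 x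
    field_simp
    ring
  have c4 := cont_mk4 c1 (c2.div c3 h1).neg c2 (c1.div c3 h1) h2
  refine c4.congr (fun x => ?_)
  apply G_ext
  · exact (sc_00 x.2).symm
  · exact (sc_01 x.2).symm
  · exact (sc_10 x.2).symm
  · exact (sc_11 x.2).symm

end ACrM

open ACrM in
theorem stmtACr : StmtACr where
  vne := vne
  eq := eq'
  vsc v hv := Prod.ext (sc_00 hv) (sc_10 hv)
  usc v hv := by
    unfold uc
    rw [sc_00 hv, sc_01 hv, sc_10 hv, sc_11 hv]
    ring
  vun g u := by
    apply Prod.ext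
    · rw [vc_1, vc_1, mul_00, un_00, un_10]; ring
    · rw [vc_2, vc_2, mul_10, un_00, un_10]; ring
  uun g u := by
    have hr := rne g
    unfold uc
    rw [mul_00, mul_01, mul_10, mul_11, un_00, un_10, un_01, un_11]
    have h1 : (g 0 0 * 1 + g 0 1 * 0) ^ 2 + (g 1 0 * 1 + g 1 1 * 0) ^ 2 = g 0 0 ^ 2 + g 1 0 ^ 2 := by ring
    rw [h1]
    field_simp
    ring
  mvc := cont_vc.measurable
  muc := cont_uc.measurable
  msc := meas_sc
  cun := cont_un
  add := add'
  zero := by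
    apply G_ext
    · rw [un_00]; simp
    · rw [un_01]; simp
    · rw [un_10]; simp
    · rw [un_11]; simp
  unfl u t := by
    have h1 : Real.exp (-t / 2) = Real.exp (t / 2) * Real.exp (-t) := by
      rw [← Real.exp_add]; congr 1; ring
    apply G_ext
    · rw [mul_00, mul_00, un_00, un_01, fl_00, fl_10, fl_01, un_00, un_10]; ring
    · rw [mul_01, mul_01, un_00, un_01, fl_01, fl_11, fl_00, un_01, un_11, h1]; ring
    · rw [mul_10, mul_10, un_10, un_11, fl_00, fl_10, fl_11, un_00, un_10]; ring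
    · rw [mul_11, mul_11, un_10, un_11, fl_01, fl_11, fl_10, un_01, un_11]; ring
  vfl g t := by
    apply Prod.ext
    · rw [vc_1, mul_00, fl_00, fl_10, Prod.smul_fst, vc_1, smul_eq_mul]; ring
    · rw [vc_2, mul_10, fl_00, fl_10, Prod.smul_snd, vc_2, smul_eq_mul]; ring
  vmul h g := by
    apply Prod.ext
    · rw [vc_1, mul_00]; rfl
    · rw [vc_2, mul_10]; rfl
  meas := (meas_sc.comp measurable_fst).mul (cont_un.measurable.comp measurable_snd)
  leaf g g' h := by
    have h1 := eq' g'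
    have h2 := eq' g
    have h3 : uc g' = uc g + (uc g' - uc g) := by ring
    calc g' = sc (vc g') * un (uc g') := h1.symm
      _ = sc (vc g) * un (uc g + (uc g' - uc g)) := by rw [← h, ← h3]
      _ = sc (vc g) * un (uc g) * un (uc g' - uc g) := by rw [add', mul_assoc]
      _ = g * un (uc g' - uc g) := by rw [h2]

end

end Pool.Agent.A54.QE
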