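import Pool.Agent.Lib.QE.SpecA

/-!
# QE, block A: densities constant on the leaves (helper57)
-/

set_option autoImplicit false

namespace Pool.Agent.A54.QE

open MeasureTheory Filter Topology Set
open scoped ENNReal
open Pool.Agent.A54.Dyn (G)

noncomputable section

theorem stmtADe (hACr : StmtACr) (hASf : StmtASf) : StmtADe := by
  intro M lf hLS F hF hinv htop
  have hC : Crd := hACr
  obtain ⟨θ, hσ, h0, hdis⟩ := hLS.dis
  have hFs : Measurable fun v : ℝ × ℝ => F (sc v) := hF.comp hC.msc
  refine ⟨hLS.meas, hLS.fin, hLS.tr, θ.withDensity fun v => F (sc v), ?_, ?_, ?_⟩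
  · exact SigmaFinite.withDensity_of_ne_top' fun v => htop _
  · exact withDensity_absolutelyContinuous θ _ h0
  · intro H hH
    have h1 := (hASf (ℝ × ℝ) inferInstance (fun v => lf (sc v)) (hLS.meas.comp hC.msc)
      (fun v => hLS.fin _)).2.2 (fun p => H (sc p.1 * un p.2)) (hH.comp hC.meas)
    rw [lintegral_withDensity_eq_lintegral_mul _ hF hH, hdis _ (hF.mul hH),
      lintegral_withDensity_eq_lintegral_mul _ hFs h1]
    refine lintegral_congr fun v => ?_
    have h2 : ∀ x : ℝ, (F * H) (sc v * un x) = F (sc v) * H (sc v * un x) := by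
      intro x
      rw [Pi.mul_apply, hinv]
    simp only [h2]
    rw [lintegral_const_mul']
    · rfl
    · exact htop _

end

end Pool.Agent.A54.QE
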