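import Pool.Agent.Lib.QE.SpecA

/-!
# Equivariance of the leaf measures on an invariant conull set
-/

set_option autoImplicit false

namespace Pool.Agent.A54.QE

open MeasureTheory Filter Topology Set
open scoped ContDiff ComplexConjugate UpperHalfPlane MatrixGroups ENNReal
open Pool.Agent.A54.Dyn (G fl base ze io mk4 Inv)
open Pool.Agent.A54.Hp (nm Om xi Tb)
open Pool.Agent.A54.Av (Mat)

noncomputable section

namespace AEqM

instance instCountSL : Countable SL(2, ℤ) :=
  Function.Injective.countable (f := fun γ : SL(2, ℤ) => (fun i j => γ.1 i j : Fin 2 → Fin 2 → ℤ))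
    fun _ _ h => Subtype.ext (funext fun i => funext fun j => congrFun (congrFun h i) j)

theorem mt (u : ℝ) : Measurable fun x : ℝ => x - u := measurable_id.sub_const u

theorem me (c : ℝ) : Measurable fun x : ℝ => c * x := measurable_id.const_mul c

/-! ### Proportional measures -/

theorem pr_map {m m' : Measure ℝ} (f : ℝ → ℝ) (h : Pr m m') : Pr (m.map f) (m'.map f) := by
  obtain ⟨c, hc, hc', rfl⟩ := h
  exact ⟨c, hc, hc', Measure.map_smul _ _ _⟩

/-- translation -/
theorem map_tr (m : Measure ℝ) (u : ℝ) : (m.map fun x => x - u).map (fun x => x - -u) = m := by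
  rw [Measure.map_map (mt _) (mt _)]
  have : ((fun x : ℝ => x - -u) ∘ fun x : ℝ => x - u) = id := by
    funext x
    simp
  rw [this, Measure.map_id]

theorem pr_tr {m m' : Measure ℝ} (u : ℝ) : Pr (m.map fun x => x - u) (m'.map fun x => x - u) ↔ Pr m m' := by
  constructor
  · intro h
    have h2 := pr_map (fun x => x - -u) h
    rwa [map_tr, map_tr] at h2
  · exact pr_map _

theorem ne_tr {m : Measure ℝ} (u : ℝ) : (m.map fun x => x - u) ≠ 0 ↔ m ≠ 0 := by
  have h1 : (m.map fun x => x - u) = 0 ↔ m = 0 := by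
    constructor
    · intro h
      rw [← map_tr m u, h, Measure.map_zero]
    · rintro rfl
      rw [Measure.map_zero]
  exact not_congr h1

/-- the map `E` and the translations -/
theorem map_E (m : Measure ℝ) (u : ℝ) : (m.map fun x => x - u).map (fun x => Real.exp (-1) * x) =
    (m.map fun x => Real.exp (-1) * x).map fun x => x - Real.exp (-1) * u := by
  rw [Measure.map_map (me _) (mt _), Measure.map_map (mt _) (me _)]
  congr 1
  funext x
  simp only [Function.comp]
  ring

/-- the good points -/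
def P (lf : G → Measure ℝ) (g : G) : Prop :=
  lf g ≠ 0 ∧ (∀ γ : SL(2, ℤ), Pr (lf (io γ * g)) (lf g)) ∧ Pr (lf (g * fl 1)) ((lf g).map fun x => Real.exp (-1) * x)

variable {μ : Measure G} {lf : G → Measure ℝ}

theorem meas_l (h : G) : Measurable fun g : G => h * g := (continuous_const_mul h).measurable

theorem meas_r (h : G) : Measurable fun g : G => g * h := (continuous_mul_const h).measurable

theorem measP (hAPr : StmtAPr) (hl : LS μ lf) : MeasurableSet {g | P lf g} := by
  have h1 : MeasurableSet {g | lf g ≠ 0} := by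
    have h2 : {g | lf g ≠ 0} = (fun g => lf g univ) ⁻¹' {0}ᶜ := by
      ext g
      simp
    rw [h2]
    exact (Measure.measurable_coe MeasurableSet.univ).comp hl.meas (measurableSet_singleton _).compl
  have h3 : ∀ γ : SL(2, ℤ), MeasurableSet {g | Pr (lf (io γ * g)) (lf g)} := fun γ =>
    hAPr (fun g => lf (io γ * g)) lf (hl.meas.comp (meas_l _)) hl.meas (fun g => hl.fin _) hl.fin
  have h4 : MeasurableSet {g | Pr (lf (g * fl 1)) ((lf g).map fun x => Real.exp (-1) * x)} :=
    hAPr (fun g => lf (g * fl 1)) (fun g => (lf g).map fun x => Real.exp (-1) * x) (hl.meas.comp (meas_r _))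
      ((Measure.measurable_map _ (me _)).comp hl.meas) (fun g => hl.fin _) (fun g => by
        have := hl.fin g
        exact Measure.IsFiniteMeasureOnCompacts.map (lf g) (Homeomorph.mulLeft₀ (Real.exp (-1)) (Real.exp_pos _).ne'))
  have h5 : {g | P lf g} = {g | lf g ≠ 0} ∩ ((⋂ γ : SL(2, ℤ), {g | Pr (lf (io γ * g)) (lf g)}) ∩
      {g | Pr (lf (g * fl 1)) ((lf g).map fun x => Real.exp (-1) * x)}) := by
    ext g
    simp only [P, mem_ofPred_eq, mem_inter_iff, mem_iInter]
  rw [h5]
  exact h1.inter ((MeasurableSet.iInter h3).inter h4)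

theorem null0 (hl : LS μ lf) : ∀ᵐ g ∂μ, lf g ≠ 0 := by
  obtain ⟨θ, _, _, h⟩ := hl.dis
  have hm : MeasurableSet {g | lf g = 0} := by
    have h2 : {g | lf g = 0} = (fun g => lf g univ) ⁻¹' {0} := by
      ext g
      simp
    rw [h2]
    exact (Measure.measurable_coe MeasurableSet.univ).comp hl.meas (measurableSet_singleton _)
  have h1 := h ({g | lf g = 0}.indicator 1) (measurable_one.indicator hm)
  rw [lintegral_indicator_one hm] at h1
  have h3 : ∀ v, ∫⁻ x, {g | lf g = 0}.indicator 1 (sc v * un x) ∂(lf (sc v)) = 0 := fun v => by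
    by_cases h4 : lf (sc v) = 0
    · rw [h4, lintegral_zero_measure]
    · have h5 : ∀ x : ℝ, {g | lf g = 0}.indicator (1 : G → ℝ≥0∞) (sc v * un x) = 0 := fun x => by
        refine indicator_of_notMem ?_ _
        intro h6
        have h7 : lf (sc v * un x) = 0 := h6
        rw [hl.tr] at h7
        exact (ne_tr x).2 h4 h7
      simp only [h5, lintegral_zero]
  simp only [h3, lintegral_zero] at h1
  rw [ae_iff]
  simpa using h1

theorem aeP (hAUn : StmtAUn) (hAMp : StmtAMp) (hμ : Inv μ) (hl : LS μ lf) : ∀ᵐ g ∂μ, P lf g := by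
  have hfin := hμ.fin
  have hs : SigmaFinite μ := inferInstance
  have h1 : ∀ γ : SL(2, ℤ), ∀ᵐ g ∂μ, Pr (lf (io γ * g)) (lf g) := fun γ => by
    have h2 := (hAMp μ lf hl).1 (io γ⁻¹)
    rw [hμ.left γ⁻¹] at h2
    have h3 : (io γ⁻¹)⁻¹ = io γ := by
      unfold io
      rw [map_inv, inv_inv]
    rw [h3] at h2
    exact hAUn μ _ lf hs h2 hl
  have h4 : ∀ᵐ g ∂μ, Pr (lf (g * fl 1)) ((lf g).map fun x => Real.exp (-1) * x) := by
    have h5 := (hAMp μ lf hl).2 (-1)
    rw [hμ.right (-1)] at h5
    have h6 := hAUn μ _ lf hs h5 hl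
    filter_upwards [h6] with g hg
    have h7 := pr_map (fun x => Real.exp (-1) * x) hg
    rw [Measure.map_map (me _) (me _)] at h7
    have h8 : ((fun x : ℝ => Real.exp (-1) * x) ∘ fun x : ℝ => Real.exp (- -1) * x) = id := by
      funext x
      simp only [Function.comp, id]
      rw [← mul_assoc, ← Real.exp_add]
      simp
    rw [h8, Measure.map_id, neg_neg] at h7
    exact h7
  filter_upwards [null0 hl, ae_all_iff.2 h1, h4] with g hg1 hg2 hg3
  exact ⟨hg1, hg2, hg3⟩

theorem P_un (hACr : StmtACr) (hl : LS μ lf) (g : G) (u : ℝ) : P lf (g * un u) ↔ P lf g := by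
  have h1 : lf (g * un u * fl 1) = (lf (g * fl 1)).map fun x => x - Real.exp (-1) * u := by
    rw [mul_assoc, hACr.unfl, ← mul_assoc, hl.tr]
  unfold P
  rw [h1, hl.tr, map_E, pr_tr, ne_tr]
  have h2 : ∀ γ : SL(2, ℤ), lf (io γ * (g * un u)) = (lf (io γ * g)).map fun x => x - u := fun γ => by
    rw [← mul_assoc, hl.tr]
  simp only [h2, pr_tr]

end AEqM

open AEqM in
theorem stmtAEq (hACr : StmtACr) (hAUn : StmtAUn) (hAMp : StmtAMp) (hAPr : StmtAPr) : StmtAEq := by
  intro μ lf hμ hl
  have hm : ∀ (γ : SL(2, ℤ)) (n : ℤ), Measurable fun g : G => io γ * g * fl n := fun γ n =>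
    (meas_r _).comp (meas_l _)
  have hmul : ∀ γ γ' : SL(2, ℤ), io (γ * γ') = io γ * io γ' := fun γ γ' => by
    unfold io
    rw [map_mul]
  have hone : io 1 = 1 := by
    unfold io
    rw [map_one]
  have hP : ∀ g ∈ {g : G | ∀ (γ : SL(2, ℤ)) (n : ℤ), P lf (io γ * g * fl n)}, P lf g := fun g hg => by
    have h1 := hg 1 0
    rw [hone, Int.cast_zero, Dyn.fl_zero, one_mul, mul_one] at h1
    exact h1
  refine ⟨{g | ∀ (γ : SL(2, ℤ)) (n : ℤ), P lf (io γ * g * fl n)}, ?_, ?_, ⟨?_, ?_, ?_⟩, fun g hg => (hP g hg).1,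
    fun g hg => (hP g hg).2.1, fun g hg => (hP g hg).2.2⟩
  · have h1 : {g | ∀ (γ : SL(2, ℤ)) (n : ℤ), P lf (io γ * g * fl n)} =
        ⋂ (γ : SL(2, ℤ)) (n : ℤ), (fun g : G => io γ * g * fl n) ⁻¹' {g | P lf g} := by
      ext g
      simp only [mem_ofPred_eq, mem_iInter, mem_preimage]
    rw [h1]
    exact MeasurableSet.iInter fun γ => MeasurableSet.iInter fun n => hm γ n (measP hAPr hl)
  · have h1 : ∀ (γ : SL(2, ℤ)) (n : ℤ), ∀ᵐ g ∂μ, P lf (io γ * g * fl n) := fun γ n => by
      have h2 : μ.map (fun g : G => io γ * g * fl n) = μ := by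
        have h3 : (fun g : G => io γ * g * fl n) = (fun g => g * fl n) ∘ fun g => io γ * g := rfl
        rw [h3, ← Measure.map_map (meas_r _) (meas_l _), hμ.left, hμ.right]
      have h4 := aeP hAUn hAMp hμ hl
      rw [← h2] at h4
      exact ae_of_ae_map (hm γ n).aemeasurable h4
    have h5 : ∀ᵐ g ∂μ, ∀ (γ : SL(2, ℤ)) (n : ℤ), P lf (io γ * g * fl n) :=
      ae_all_iff.2 fun γ => ae_all_iff.2 fun n => h1 γ n
    exact h5
  · intro γ₀ g
    simp only [mem_ofPred_eq]
    constructor
    · intro h γ n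
      have h1 := h (γ * γ₀⁻¹) n
      rw [← mul_assoc, ← hmul, inv_mul_cancel_right] at h1
      exact h1
    · intro h γ n
      rw [← mul_assoc, ← hmul]
      exact h (γ * γ₀) n
  · intro g u
    simp only [mem_ofPred_eq]
    refine forall_congr' fun γ => forall_congr' fun n => ?_
    have h1 : io γ * (g * un u) * fl n = io γ * g * fl n * un (Real.exp (-(n : ℝ)) * u) := by
      rw [mul_assoc, mul_assoc, hACr.unfl]
      simp only [mul_assoc]
    rw [h1, P_un hACr hl]
  · intro g
    simp only [mem_ofPred_eq]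
    constructor
    · intro h γ n
      have h1 := h γ (n - 1)
      have h2 : io γ * (g * fl 1) * fl ((n - 1 : ℤ) : ℝ) = io γ * g * fl n := by
        rw [mul_assoc, mul_assoc, ← Dyn.fl_add, ← mul_assoc]
        congr 2
        push_cast
        ring
      rw [h2] at h1
      exact h1
    · intro h γ n
      have h1 := h γ (n + 1)
      have h2 : io γ * (g * fl 1) * fl (n : ℝ) = io γ * g * fl ((n + 1 : ℤ) : ℝ) := by
        rw [mul_assoc, mul_assoc, ← Dyn.fl_add, ← mul_assoc]
        congr 2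
        push_cast
        ring
      rw [h2]
      exact h1

end

end Pool.Agent.A54.QE
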