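import Pool.Agent.Lib.QE.SpecA

/-!
# Package `QE`, module `AEx`: existence of leaf measures
-/

set_option autoImplicit false

namespace Pool.Agent.A54.QE

open MeasureTheory Filter Topology Set
open scoped ContDiff ComplexConjugate UpperHalfPlane MatrixGroups ENNReal ProbabilityTheory
open Pool.Agent.A54.Dyn (G fl base ze io mk4 Inv)
open Pool.Agent.A54.Hp (nm Om xi Tb)
open Pool.Agent.A54.Av (Mat)

noncomputable section

namespace AExM

/-- densities bounded on compact sets -/
private lemma fin_wd (κ : Measure ℝ) [IsFiniteMeasureOnCompacts κ] (h : ℝ → ℝ) (hc : Continuous h) (hp : ∀ x, 0 < h x) :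
    IsFiniteMeasureOnCompacts (κ.withDensity fun x => (ENNReal.ofReal (h x))⁻¹) := by
  refine ⟨fun K hK => ?_⟩
  rw [withDensity_apply _ hK.measurableSet]
  rcases K.eq_empty_or_nonempty with hE | hne
  · rw [hE]; simp
  obtain ⟨x₀, -, hx₀⟩ := hK.exists_isMinOn hne hc.continuousOn
  have h1 : ∫⁻ x in K, (ENNReal.ofReal (h x))⁻¹ ∂κ ≤ ∫⁻ _ in K, (ENNReal.ofReal (h x₀))⁻¹ ∂κ := by
    refine setLIntegral_mono measurable_const fun x hx => ?_
    exact ENNReal.inv_le_inv.2 (ENNReal.ofReal_le_ofReal (hx₀ hx))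
  refine lt_of_le_of_lt h1 ?_
  rw [setLIntegral_const]
  refine ENNReal.mul_lt_top ?_ hK.measure_lt_top
  exact ENNReal.inv_lt_top.2 (ENNReal.ofReal_pos.2 (hp x₀))

private lemma lwd {α : Type} [MeasurableSpace α] (ν : Measure α) (f H : α → ℝ≥0∞) (hf : Measurable f) (hH : Measurable H) :
    ∫⁻ x, H x ∂(ν.withDensity f) = ∫⁻ x, f x * H x ∂ν := lintegral_withDensity_eq_lintegral_mul ν hf hH

private lemma msub (c : ℝ) : Measurable fun x : ℝ => x - c := measurable_id.sub_const c

private lemma fin_sub (m : Measure ℝ) [IsFiniteMeasureOnCompacts m] (c : ℝ) :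
    IsFiniteMeasureOnCompacts (m.map fun x => x - c) := by
  have h1 : (fun x : ℝ => x - c) = Homeomorph.subRight c := rfl
  rw [h1]
  refine ⟨fun K hK => ?_⟩
  rw [Measure.map_apply (Homeomorph.subRight c).continuous.measurable hK.measurableSet]
  exact ((Homeomorph.subRight c).isCompact_preimage.2 hK).measure_lt_top

end AExM

open AExM

theorem stmtAEx (hACr : StmtACr) (hASf : StmtASf) : StmtAEx := by
  rintro μ hμ ⟨w, hw, hwp, hwi⟩
  have hC : Crd := hACr
  have hmw : Measurable fun g => ENNReal.ofReal (w g) := hw.measurable.ennreal_ofReal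
  set ρ : Measure G := μ.withDensity fun g => ENNReal.ofReal (w g) with hρ
  haveI hρf : IsFiniteMeasure ρ := isFiniteMeasure_withDensity hwi.ne
  have hΨ : Measurable fun g : G => (vc g, uc g) := hC.mvc.prodMk hC.muc
  set π : Measure ((ℝ × ℝ) × ℝ) := ρ.map fun g => (vc g, uc g) with hπ
  haveI hπf : IsFiniteMeasure π := Measure.isFiniteMeasure_map ρ _
  obtain ⟨θ, κ, hθ, hκM, hdis⟩ : ∃ (θ : Measure (ℝ × ℝ)) (κ : ProbabilityTheory.Kernel (ℝ × ℝ) ℝ), θ = π.fst ∧
      ProbabilityTheory.IsMarkovKernel κ ∧ θ ⊗ₘ κ = π :=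
    ⟨π.fst, π.condKernel, rfl, inferInstance, π.disintegrate π.condKernel⟩
  haveI := hκM
  haveI hθf : IsFiniteMeasure θ := by rw [hθ]; infer_instance
  -- the density
  have hf : Measurable fun p : (ℝ × ℝ) × ℝ => (ENNReal.ofReal (w (sc p.1 * un p.2)))⁻¹ :=
    ((hw.measurable.comp hC.meas).ennreal_ofReal).inv
  have hcl : ∀ v : ℝ × ℝ, Continuous fun x : ℝ => w (sc v * un x) := fun v =>
    hw.comp (continuous_const.mul hC.cun)
  set m : ℝ × ℝ → Measure ℝ := fun v => (κ v).withDensity fun x => (ENNReal.ofReal (w (sc v * un x)))⁻¹ with hm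
  have hmm : Measurable m := by
    have h1 : m = fun v => ProbabilityTheory.Kernel.withDensity κ
        (fun (v : ℝ × ℝ) (x : ℝ) => (ENNReal.ofReal (w (sc v * un x)))⁻¹) v := by
      funext v
      rw [ProbabilityTheory.Kernel.withDensity_apply κ
        (show Measurable (Function.uncurry fun (v : ℝ × ℝ) (x : ℝ) => (ENNReal.ofReal (w (sc v * un x)))⁻¹) from hf)]
    rw [h1]
    exact (ProbabilityTheory.Kernel.withDensity κ _).measurable
  have hmf : ∀ v, IsFiniteMeasureOnCompacts (m v) := fun v =>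
    fin_wd (κ v) _ (hcl v) fun x => hwp _
  set lf : G → Measure ℝ := fun g => (m (vc g)).map fun x => x - uc g with hlf
  have hlfm : Measurable lf := by
    refine Measure.measurable_of_measurable_coe _ fun S hS => ?_
    have h1 := (hASf G inferInstance (fun g => m (vc g)) (hmm.comp hC.mvc) (fun g => hmf _)).2.1
      {p : G × ℝ | p.2 - uc p.1 ∈ S} ((measurable_snd.sub (hC.muc.comp measurable_fst)) hS)
    have h2 : (fun g => lf g S) = fun g => m (vc g) {x | (g, x) ∈ {p : G × ℝ | p.2 - uc p.1 ∈ S}} := by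
      funext g
      rw [hlf]
      dsimp only
      rw [Measure.map_apply (msub _) hS]
      rfl
    rw [h2]
    exact h1
  refine ⟨lf, hlfm, fun g => ?_, fun g u => ?_, θ, inferInstance, ?_, fun F hF => ?_⟩
  · haveI := hmf (vc g)
    exact fin_sub (m (vc g)) (uc g)
  · change (m (vc (g * un u))).map (fun x => x - uc (g * un u)) = ((m (vc g)).map fun x => x - uc g).map fun x => x - u
    rw [Measure.map_map (msub _) (msub _), hC.vun, hC.uun]
    congr 1
    funext x
    change x - (uc g + u) = x - uc g - u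
    ring
  · rw [hθ, Measure.fst_apply (measurableSet_singleton _), hπ,
      Measure.map_apply hΨ (measurable_fst (measurableSet_singleton _))]
    have h1 : (fun g : G => (vc g, uc g)) ⁻¹' (Prod.fst ⁻¹' {(0 : ℝ × ℝ)}) = ∅ := by
      ext g
      simp only [mem_preimage, mem_singleton_iff, mem_empty_iff_false, iff_false]
      exact hC.vne g
    rw [h1, measure_empty]
  · have hθ0 : θ {0} = 0 := by
      rw [hθ, Measure.fst_apply (measurableSet_singleton _), hπ,
        Measure.map_apply hΨ (measurable_fst (measurableSet_singleton _))]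
      have h1 : (fun g : G => (vc g, uc g)) ⁻¹' (Prod.fst ⁻¹' {(0 : ℝ × ℝ)}) = ∅ := by
        ext g
        simp only [mem_preimage, mem_singleton_iff, mem_empty_iff_false, iff_false]
        exact hC.vne g
      rw [h1, measure_empty]
    have hH : Measurable fun p : (ℝ × ℝ) × ℝ => (ENNReal.ofReal (w (sc p.1 * un p.2)))⁻¹ * F (sc p.1 * un p.2) :=
      hf.mul (hF.comp hC.meas)
    have h0 : ∀ᵐ v ∂θ, v ≠ 0 := by
      rw [ae_iff]
      simpa using hθ0
    have h5 : ∀ v : ℝ × ℝ, v ≠ 0 → ∫⁻ x, (ENNReal.ofReal (w (sc v * un x)))⁻¹ * F (sc v * un x) ∂(κ v) =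
        ∫⁻ x, F (sc v * un x) ∂(lf (sc v)) := by
      intro v hv
      have h1 : lf (sc v) = m v := by
        change (m (vc (sc v))).map (fun x => x - uc (sc v)) = m v
        rw [hC.vsc v hv, hC.usc v hv]
        have h2 : (fun x : ℝ => x - 0) = id := by funext x; simp
        rw [h2, Measure.map_id]
      have h6 : Measurable fun x : ℝ => (ENNReal.ofReal (w (sc v * un x)))⁻¹ :=
        ((hcl v).measurable.ennreal_ofReal).inv
      have h8 : Measurable fun x : ℝ => sc v * un x := (continuous_const.mul hC.cun).measurable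
      have h7 : Measurable fun x : ℝ => F (sc v * un x) := hF.comp h8
      rw [h1]
      exact (lwd (κ v) _ _ h6 h7).symm
    calc ∫⁻ g, F g ∂μ = ∫⁻ g, (ENNReal.ofReal (w g))⁻¹ * F g ∂ρ := by
          rw [hρ, lwd μ _ (fun g => (ENNReal.ofReal (w g))⁻¹ * F g) hmw (hmw.inv.mul hF)]
          refine lintegral_congr fun g => ?_
          rw [← mul_assoc, ENNReal.mul_inv_cancel (ENNReal.ofReal_pos.2 (hwp g)).ne' ENNReal.ofReal_ne_top, one_mul]
      _ = ∫⁻ g, (fun p : (ℝ × ℝ) × ℝ => (ENNReal.ofReal (w (sc p.1 * un p.2)))⁻¹ * F (sc p.1 * un p.2)) (vc g, uc g) ∂ρ := by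
          refine lintegral_congr fun g => ?_
          dsimp only
          rw [hC.eq g]
      _ = ∫⁻ p, (ENNReal.ofReal (w (sc p.1 * un p.2)))⁻¹ * F (sc p.1 * un p.2) ∂π := by
          rw [hπ, lintegral_map hH hΨ]
      _ = ∫⁻ v, ∫⁻ x, (ENNReal.ofReal (w (sc v * un x)))⁻¹ * F (sc v * un x) ∂(κ v) ∂θ := by
          have h4 := Measure.lintegral_compProd (μ := θ) (κ := κ) hH
          rw [hdis] at h4
          exact h4
      _ = ∫⁻ v, ∫⁻ x, F (sc v * un x) ∂(lf (sc v)) ∂θ := lintegral_congr_ae (h0.mono fun v hv => h5 v hv)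

end

end Pool.Agent.A54.QE
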