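import Pool.Agent.Lib.QE.SpecA

/-!
# Package `QE`, block A, `AG1`: conjugation of congruence subgroups by Hecke elements (helper72)
-/

set_option autoImplicit false

namespace Pool.Agent.A54.QE

open MeasureTheory Filter Topology Set
open scoped MatrixGroups
open Pool.Agent.A54.Dyn (G fl base ze io mk4 Inv)
open Pool.Agent.A54.Hp (nm Om xi Tb)
open Pool.Agent.A54.Av (Mat)

namespace AG1M

/-- the element of `SL(2, ℤ)` with given entries -/
def mz (a b c d : ℤ) (h : a * d - b * c = 1) : SL(2, ℤ) := ⟨!![a, b; c, d], by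
  rw [Matrix.det_fin_two_of]; exact h⟩

private lemma io_apply (γ : SL(2, ℤ)) (i j : Fin 2) : io γ i j = ((γ i j : ℤ) : ℝ) := by
  simp [io]

private lemma mem_dvd {m : ℕ} {γ : SL(2, ℤ)} (h : γ ∈ CongruenceSubgroup.Gamma m) :
    (∃ a : ℤ, γ 0 0 = 1 + m * a) ∧ (∃ b : ℤ, γ 0 1 = m * b) ∧ (∃ c : ℤ, γ 1 0 = m * c) ∧
      ∃ e : ℤ, γ 1 1 = 1 + m * e := by
  rw [CongruenceSubgroup.Gamma_mem] at h
  obtain ⟨h1, h2, h3, h4⟩ := h
  refine ⟨?_, ?_, ?_, ?_⟩
  · have : ((γ 0 0 - 1 : ℤ) : ZMod m) = 0 := by push_cast; rw [h1]; ring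
    obtain ⟨a, ha⟩ := (ZMod.intCast_zmod_eq_zero_iff_dvd _ m).mp this
    exact ⟨a, by linarith⟩
  · obtain ⟨a, ha⟩ := (ZMod.intCast_zmod_eq_zero_iff_dvd _ m).mp h2
    exact ⟨a, ha⟩
  · obtain ⟨a, ha⟩ := (ZMod.intCast_zmod_eq_zero_iff_dvd _ m).mp h3
    exact ⟨a, ha⟩
  · have : ((γ 1 1 - 1 : ℤ) : ZMod m) = 0 := by push_cast; rw [h4]; ring
    obtain ⟨a, ha⟩ := (ZMod.intCast_zmod_eq_zero_iff_dvd _ m).mp this
    exact ⟨a, by linarith⟩

private lemma det_sl (γ : SL(2, ℤ)) : γ 0 0 * γ 1 1 - γ 0 1 * γ 1 0 = 1 := by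
  have := γ.det_coe
  rw [Matrix.det_fin_two] at this
  exact this

/-- conjugation by `nm s` from an integral identity -/
private lemma conj_eq (s : Mat) (hs : 0 < s.det) (γ γ' : SL(2, ℤ))
    (h00 : s 0 0 * γ 0 0 + s 0 1 * γ 1 0 = γ' 0 0 * s 0 0 + γ' 0 1 * s 1 0)
    (h01 : s 0 0 * γ 0 1 + s 0 1 * γ 1 1 = γ' 0 0 * s 0 1 + γ' 0 1 * s 1 1)
    (h10 : s 1 0 * γ 0 0 + s 1 1 * γ 1 0 = γ' 1 0 * s 0 0 + γ' 1 1 * s 1 0)
    (h11 : s 1 0 * γ 0 1 + s 1 1 * γ 1 1 = γ' 1 0 * s 0 1 + γ' 1 1 * s 1 1) :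
    nm s * io γ * (nm s)⁻¹ = io γ' := by
  have hs' : (0 : ℝ) < ((s.det : ℤ) : ℝ) := by exact_mod_cast hs
  rw [mul_inv_eq_iff_eq_mul]
  have e00 : nm s 0 0 = ((s 0 0 : ℤ) : ℝ) / √((s.det : ℤ) : ℝ) := by rw [nm, dif_pos hs']; rfl
  have e01 : nm s 0 1 = ((s 0 1 : ℤ) : ℝ) / √((s.det : ℤ) : ℝ) := by rw [nm, dif_pos hs']; rfl
  have e10 : nm s 1 0 = ((s 1 0 : ℤ) : ℝ) / √((s.det : ℤ) : ℝ) := by rw [nm, dif_pos hs']; rfl
  have e11 : nm s 1 1 = ((s 1 1 : ℤ) : ℝ) / √((s.det : ℤ) : ℝ) := by rw [nm, dif_pos hs']; rfl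
  have r00 : ((s 0 0 : ℤ) : ℝ) * γ 0 0 + s 0 1 * γ 1 0 = γ' 0 0 * s 0 0 + γ' 0 1 * s 1 0 := by
    exact_mod_cast h00
  have r01 : ((s 0 0 : ℤ) : ℝ) * γ 0 1 + s 0 1 * γ 1 1 = γ' 0 0 * s 0 1 + γ' 0 1 * s 1 1 := by
    exact_mod_cast h01
  have r10 : ((s 1 0 : ℤ) : ℝ) * γ 0 0 + s 1 1 * γ 1 0 = γ' 1 0 * s 0 0 + γ' 1 1 * s 1 0 := by
    exact_mod_cast h10
  have r11 : ((s 1 0 : ℤ) : ℝ) * γ 0 1 + s 1 1 * γ 1 1 = γ' 1 0 * s 0 1 + γ' 1 1 * s 1 1 := by
    exact_mod_cast h11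
  apply Dyn.G_ext
  · rw [Dyn.mul_00, Dyn.mul_00]
    simp only [io_apply, e00, e01, e10, e11]
    linear_combination (1 / √((s.det : ℤ) : ℝ)) * r00
  · rw [Dyn.mul_01, Dyn.mul_01]
    simp only [io_apply, e00, e01, e10, e11]
    linear_combination (1 / √((s.det : ℤ) : ℝ)) * r01
  · rw [Dyn.mul_10, Dyn.mul_10]
    simp only [io_apply, e00, e01, e10, e11]
    linear_combination (1 / √((s.det : ℤ) : ℝ)) * r10
  · rw [Dyn.mul_11, Dyn.mul_11]
    simp only [io_apply, e00, e01, e10, e11]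
    linear_combination (1 / √((s.det : ℤ) : ℝ)) * r11

end AG1M

open AG1M in
theorem stmtAG1 : StmtAG1 := by
  rintro d ⟨s, hs, rfl⟩
  obtain ⟨n, hn⟩ := Int.eq_ofNat_of_zero_le hs.le
  have hdet : (n : ℤ) = s 0 0 * s 1 1 - s 0 1 * s 1 0 := by
    rw [← Matrix.det_fin_two, hn]
  refine ⟨n, ?_, ?_, ?_⟩
  · by_contra h
    have : n = 0 := by omega
    rw [hn, this] at hs
    simp at hs
  · intro γ hγ
    obtain ⟨⟨a, ha⟩, ⟨b, hb⟩, ⟨c, hc⟩, ⟨e, he⟩⟩ := mem_dvd hγ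
    have hd := det_sl γ
    rw [ha, hb, hc, he, hdet] at hd
    rw [hdet] at ha hb hc he
    generalize hp : s 0 0 = p at *
    generalize hq : s 0 1 = q at *
    generalize hr : s 1 0 = r at *
    generalize ht : s 1 1 = t at *
    refine ⟨mz (1 + ((p * a + q * c) * t - (p * b + q * e) * r)) (-(p * a + q * c) * q + (p * b + q * e) * p)
      ((r * a + t * c) * t - (r * b + t * e) * r) (1 + (-(r * a + t * c) * q + (r * b + t * e) * p)) ?_, ?_⟩
    · linear_combination hd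
    · apply conj_eq s hs
      · change s 0 0 * γ 0 0 + s 0 1 * γ 1 0 = (1 + ((p * a + q * c) * t - (p * b + q * e) * r)) * s 0 0 +
          (-(p * a + q * c) * q + (p * b + q * e) * p) * s 1 0
        rw [hp, hq, hr, ha, hc]; ring
      · change s 0 0 * γ 0 1 + s 0 1 * γ 1 1 = (1 + ((p * a + q * c) * t - (p * b + q * e) * r)) * s 0 1 +
          (-(p * a + q * c) * q + (p * b + q * e) * p) * s 1 1
        rw [hp, hq, ht, hb, he]; ring
      · change s 1 0 * γ 0 0 + s 1 1 * γ 1 0 = ((r * a + t * c) * t - (r * b + t * e) * r) * s 0 0 +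
          (1 + (-(r * a + t * c) * q + (r * b + t * e) * p)) * s 1 0
        rw [hp, hr, ht, ha, hc]; ring
      · change s 1 0 * γ 0 1 + s 1 1 * γ 1 1 = ((r * a + t * c) * t - (r * b + t * e) * r) * s 0 1 +
          (1 + (-(r * a + t * c) * q + (r * b + t * e) * p)) * s 1 1
        rw [hq, hr, ht, hb, he]; ring
  · intro γ hγ
    obtain ⟨⟨a, ha⟩, ⟨b, hb⟩, ⟨c, hc⟩, ⟨e, he⟩⟩ := mem_dvd hγ
    have hd := det_sl γ
    push_cast at ha hb hc he
    rw [ha, hb, hc, he, hdet] at hd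
    have hnz : ((n : ℤ) : ZMod n) = 0 := by simp
    rw [hdet] at ha hb hc he hnz
    generalize hp : s 0 0 = p at *
    generalize hq : s 0 1 = q at *
    generalize hr : s 1 0 = r at *
    generalize ht : s 1 1 = t at *
    push_cast at hnz
    refine ⟨mz (1 + (p * t - q * r) * ((t * a - q * c) * p + (t * b - q * e) * r))
      ((p * t - q * r) * ((t * a - q * c) * q + (t * b - q * e) * t))
      ((p * t - q * r) * ((-r * a + p * c) * p + (-r * b + p * e) * r))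
      (1 + (p * t - q * r) * ((-r * a + p * c) * q + (-r * b + p * e) * t)) ?_, ?_, ?_⟩
    · linear_combination hd
    · rw [CongruenceSubgroup.Gamma_mem]
      refine ⟨?_, ?_, ?_, ?_⟩
      · change (((1 + (p * t - q * r) * ((t * a - q * c) * p + (t * b - q * e) * r) : ℤ)) : ZMod n) = 1
        push_cast
        rw [hnz]; ring
      · change ((((p * t - q * r) * ((t * a - q * c) * q + (t * b - q * e) * t) : ℤ)) : ZMod n) = 0
        push_cast
        rw [hnz]; ring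
      · change ((((p * t - q * r) * ((-r * a + p * c) * p + (-r * b + p * e) * r) : ℤ)) : ZMod n) = 0
        push_cast
        rw [hnz]; ring
      · change (((1 + (p * t - q * r) * ((-r * a + p * c) * q + (-r * b + p * e) * t) : ℤ)) : ZMod n) = 1
        push_cast
        rw [hnz]; ring
    · apply conj_eq s hs
      · change s 0 0 * (1 + (p * t - q * r) * ((t * a - q * c) * p + (t * b - q * e) * r)) +
          s 0 1 * ((p * t - q * r) * ((-r * a + p * c) * p + (-r * b + p * e) * r)) = γ 0 0 * s 0 0 + γ 0 1 * s 1 0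
        rw [hp, hq, hr, ha, hb]; ring
      · change s 0 0 * ((p * t - q * r) * ((t * a - q * c) * q + (t * b - q * e) * t)) +
          s 0 1 * (1 + (p * t - q * r) * ((-r * a + p * c) * q + (-r * b + p * e) * t)) = γ 0 0 * s 0 1 + γ 0 1 * s 1 1
        rw [hp, hq, ht, ha, hb]; ring
      · change s 1 0 * (1 + (p * t - q * r) * ((t * a - q * c) * p + (t * b - q * e) * r)) +
          s 1 1 * ((p * t - q * r) * ((-r * a + p * c) * p + (-r * b + p * e) * r)) = γ 1 0 * s 0 0 + γ 1 1 * s 1 0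
        rw [hp, hr, ht, hc, he]; ring
      · change s 1 0 * ((p * t - q * r) * ((t * a - q * c) * q + (t * b - q * e) * t)) +
          s 1 1 * (1 + (p * t - q * r) * ((-r * a + p * c) * q + (-r * b + p * e) * t)) = γ 1 0 * s 0 1 + γ 1 1 * s 1 1
        rw [hq, hr, ht, hc, he]; ring

end Pool.Agent.A54.QE
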