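import Pool.Agent.Lib.QE.SpecA

/-!
# Package `QE`, block A, `AG2`: comparison of the sums over `SL(2, ℤ)` and `Γ(n)` (helper99)
-/

set_option autoImplicit false

namespace Pool.Agent.A54.QE

open MeasureTheory Filter Topology Set
open scoped MatrixGroups
open Pool.Agent.A54.Dyn (G fl base ze io mk4 Inv)

namespace AG2M

/-- a group as the product of the set of cosets and the subgroup -/
noncomputable def eqv {K : Type*} [Group K] (H : Subgroup K) : (K ⧸ H) × H ≃ K :=
  Equiv.ofBijective (fun p => p.1.out * (p.2 : K)) (by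
    constructor
    · rintro ⟨q, h⟩ ⟨q', h'⟩ he
      simp only at he
      have key : ∀ (q : K ⧸ H) (h : H), ((q.out * (h : K) : K) : K ⧸ H) = q := by
        intro q h
        rw [QuotientGroup.mk_mul_of_mem _ h.2]
        exact QuotientGroup.out_eq' q
      have hq : q = q' := by
        rw [← key q h, ← key q' h', he]
      subst hq
      have : (h : K) = h' := mul_left_cancel he
      rw [Subtype.ext this]
    · intro g
      refine ⟨((g : K ⧸ H), ⟨(g : K ⧸ H).out⁻¹ * g, ?_⟩), ?_⟩
      · exact QuotientGroup.eq.mp (QuotientGroup.out_eq' _)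
      · simp)

theorem eqv_apply {K : Type*} [Group K] (H : Subgroup K) (p : (K ⧸ H) × H) :
    eqv H p = p.1.out * (p.2 : K) := rfl

theorem io_mul (γ γ' : SL(2, ℤ)) : io (γ * γ') = io γ * io γ' := by
  unfold io
  exact map_mul _ _ _

end AG2M

open AG2M in
theorem stmtAG2 (hWDi : StmtWDi) (hWSm : StmtWSm) : StmtAG2 := by
  intro n hn
  have : NeZero n := ⟨by omega⟩
  have : Fintype (SL(2, ℤ) ⧸ CongruenceSubgroup.Gamma n) := Subgroup.fintypeQuotientOfFiniteIndex
  obtain ⟨h2, _, _, _, _, _, _, hqq, _⟩ := hWDi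
  refine ⟨∑ q : SL(2, ℤ) ⧸ CongruenceSubgroup.Gamma n, nsq (io q.out) ^ 4,
    Finset.sum_pos (fun q _ => by have := h2 (io q.out); positivity) Finset.univ_nonempty, ?_⟩
  intro g
  have hs := hWSm.1 g
  have hsH : Summable fun γ : CongruenceSubgroup.Gamma n => qq (io (γ : SL(2, ℤ)) * g) :=
    hs.comp_injective (i := fun γ : CongruenceSubgroup.Gamma n => (γ : SL(2, ℤ)))
      Subtype.val_injective
  have hs' : Summable fun p : (SL(2, ℤ) ⧸ CongruenceSubgroup.Gamma n) × CongruenceSubgroup.Gamma n =>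
      qq (io (eqv _ p) * g) :=
    hs.comp_injective (i := fun p => eqv (CongruenceSubgroup.Gamma n) p) (eqv _).injective
  rw [← (eqv (CongruenceSubgroup.Gamma n)).tsum_eq (fun γ => qq (io γ * g)), hs'.tsum_prod,
    tsum_fintype, Finset.sum_mul]
  refine Finset.sum_le_sum fun q _ => ?_
  rw [← tsum_mul_left]
  refine Summable.tsum_le_tsum (fun γ => ?_) (hs'.prod_factor q) (hsH.mul_left _)
  rw [eqv_apply, io_mul, mul_assoc]
  exact hqq _ _

end Pool.Agent.A54.QE
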