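import Pool.Agent.Lib.QE.SpecA

/-!
# Package `QE`, block A: weights for congruence subgroups (helper70)
-/

set_option autoImplicit false

namespace Pool.Agent.A54.QE

open MeasureTheory Filter Topology Set
open scoped ContDiff ComplexConjugate UpperHalfPlane MatrixGroups ENNReal
open Pool.Agent.A54.Dyn (G fl base ze io mk4 Inv)
open Pool.Agent.A54.Hp (nm Om xi Tb)
open Pool.Agent.A54.Av (Mat)

noncomputable section

namespace AGmM

instance instCount : Countable SL(2, ℤ) := by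
  unfold Matrix.SpecialLinearGroup Matrix
  infer_instance

lemma meas_left (h : G) : Measurable fun g : G => h * g :=
  (continuous_const.mul continuous_id).measurable

lemma io_mul (a b : SL(2, ℤ)) : io (a * b) = io a * io b := by
  unfold Dyn.io
  rw [map_mul]

lemma io_one : io (1 : SL(2, ℤ)) = 1 := by
  unfold Dyn.io
  rw [map_one]

/-- the sum over the subgroup `H` -/
def SH (H : Subgroup SL(2, ℤ)) (g : G) : ℝ := ∑' γ : H, qq (io (γ : SL(2, ℤ)) * g)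

variable {H : Subgroup SL(2, ℤ)}

lemma summ (hs : ∀ g : G, Summable fun γ : SL(2, ℤ) => qq (io γ * g)) (g : G) :
    Summable fun γ : H => qq (io (γ : SL(2, ℤ)) * g) :=
  (hs g).comp_injective Subtype.val_injective

lemma SH_pos (hs : ∀ g : G, Summable fun γ : SL(2, ℤ) => qq (io γ * g)) (hq : ∀ g : G, 0 < qq g) (g : G) :
    0 < SH H g :=
  (summ hs g).tsum_pos (fun _ => (hq _).le) 1 (hq _)

lemma SH_inv (g : G) {γ₀ : SL(2, ℤ)} (hγ : γ₀ ∈ H) : SH H (io γ₀ * g) = SH H g := by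
  unfold SH
  rw [← (Equiv.mulRight (⟨γ₀, hγ⟩ : H)).tsum_eq (fun γ : H => qq (io (γ : SL(2, ℤ)) * g))]
  refine tsum_congr fun γ => ?_
  show qq (io (γ : SL(2, ℤ)) * (io γ₀ * g)) = qq (io ((γ : SL(2, ℤ)) * γ₀) * g)
  rw [io_mul, mul_assoc]

lemma SH_meas (hs : ∀ g : G, Summable fun γ : SL(2, ℤ) => qq (io γ * g)) (hq : ∀ g : G, 0 < qq g)
    (hc : Continuous qq) : Measurable (SH H) := by
  have h1 : SH H = fun g => (∑' γ : H, ENNReal.ofReal (qq (io (γ : SL(2, ℤ)) * g))).toReal := by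
    funext g
    rw [← ENNReal.ofReal_tsum_of_nonneg (fun γ => (hq _).le) (summ hs g), ENNReal.toReal_ofReal
      (tsum_nonneg fun γ => (hq _).le)]
    rfl
  rw [h1]
  exact (Measurable.ennreal_tsum fun γ => (hc.measurable.comp (meas_left _)).ennreal_ofReal).ennreal_toReal

/-- the weight -/
def wt (H : Subgroup SL(2, ℤ)) (g : G) : ℝ≥0∞ := ENNReal.ofReal (qq g / SH H g)

lemma wt_sum (hs : ∀ g : G, Summable fun γ : SL(2, ℤ) => qq (io γ * g)) (hq : ∀ g : G, 0 < qq g) (g : G) :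
    ∑' γ : H, wt H (io (γ : SL(2, ℤ)) * g) = 1 := by
  have h1 : ∀ γ : H, wt H (io (γ : SL(2, ℤ)) * g) =
      ENNReal.ofReal (qq (io (γ : SL(2, ℤ)) * g) / SH H g) := by
    intro γ
    unfold wt
    rw [SH_inv g γ.2]
  rw [tsum_congr h1, ← ENNReal.ofReal_tsum_of_nonneg
    (fun γ => div_nonneg (hq _).le (SH_pos hs hq g).le) ((summ hs g).div_const _), tsum_div_const]
  have h2 : (∑' γ : H, qq (io (γ : SL(2, ℤ)) * g)) / SH H g = 1 := div_self (SH_pos hs hq g).ne'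
  rw [h2, ENNReal.ofReal_one]

/-- a bound by a multiple of `ch` -/
lemma fin_of_le {μ : Measure G} (hμ : IsFiniteMeasure (mX μ)) (C : ℝ) (hC : 0 ≤ C) (f : G → ℝ)
    (hf : ∀ g, f g ≤ C * ch g) : ∫⁻ g, ENNReal.ofReal (f g) ∂μ < ⊤ := by
  have h1 : ∫⁻ g, ENNReal.ofReal (ch g) ∂μ < ⊤ := by
    have h2 := measure_lt_top (mX μ) univ
    unfold mX at h2
    rwa [withDensity_apply _ MeasurableSet.univ, Measure.restrict_univ] at h2
  calc ∫⁻ g, ENNReal.ofReal (f g) ∂μ ≤ ∫⁻ g, ENNReal.ofReal C * ENNReal.ofReal (ch g) ∂μ :=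
        lintegral_mono fun g => by
          rw [← ENNReal.ofReal_mul hC]
          exact ENNReal.ofReal_le_ofReal (hf g)
    _ = ENNReal.ofReal C * ∫⁻ g, ENNReal.ofReal (ch g) ∂μ :=
        lintegral_const_mul' _ _ ENNReal.ofReal_ne_top
    _ < ⊤ := ENNReal.mul_lt_top ENNReal.ofReal_lt_top h1

lemma nsq_pos (h2 : ∀ g : G, 2 ≤ nsq g) (g : G) : 0 < nsq g := by linarith [h2 g]

/-- comparison of the denominators -/
lemma cmp (hs : ∀ g : G, Summable fun γ : SL(2, ℤ) => qq (io γ * g)) (hq : ∀ g : G, 0 < qq g)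
    (hd : ∀ g h : G, qq (h * g) ≤ nsq h ^ 4 * qq g) (d : G) (n : ℕ)
    (hA : ∀ γ ∈ CongruenceSubgroup.Gamma n, ∃ γ' : SL(2, ℤ), d * io γ * d⁻¹ = io γ')
    (hB : ∀ γ ∈ CongruenceSubgroup.Gamma (n ^ 2), ∃ γ' ∈ CongruenceSubgroup.Gamma n, d * io γ' * d⁻¹ = io γ)
    (g : G) :
    SH (CongruenceSubgroup.Gamma (n ^ 2)) g ≤ nsq d ^ 4 * SH (CongruenceSubgroup.Gamma n) (d⁻¹ * g) := by
  have hio : Function.Injective (fun γ : SL(2, ℤ) => io γ) := by
    intro a b hab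
    ext i j
    have h1 : (io a : G) i j = (io b : G) i j := by
      have h2 : io a = io b := hab
      rw [h2]
    have h3 : ∀ c : SL(2, ℤ), (io c : G) i j = ((c i j : ℤ) : ℝ) := fun c => rfl
    rw [h3, h3] at h1
    exact_mod_cast h1
  choose φ hφ1 hφ2 using hB
  choose ψ hψ using hA
  let Φ : CongruenceSubgroup.Gamma (n ^ 2) → CongruenceSubgroup.Gamma n := fun γ => ⟨φ γ.1 γ.2, hφ1 γ.1 γ.2⟩
  have hΦ : Function.Injective Φ := by
    intro a b hab
    have h1 : φ a.1 a.2 = φ b.1 b.2 := congrArg Subtype.val hab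
    have h2 : io a.1 = io b.1 := by rw [← hφ2 a.1 a.2, ← hφ2 b.1 b.2, h1]
    exact Subtype.ext (hio h2)
  have hψi : Function.Injective fun γ : CongruenceSubgroup.Gamma n => ψ γ.1 γ.2 := by
    intro a b hab
    have h1 : d * io a.1 * d⁻¹ = d * io b.1 * d⁻¹ := by
      rw [hψ a.1 a.2, hψ b.1 b.2]
      exact congrArg io hab
    have h2 : io a.1 = io b.1 := by
      have h3 := mul_right_cancel h1
      exact mul_left_cancel h3
    exact Subtype.ext (hio h2)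
  have hsum : Summable fun γ : CongruenceSubgroup.Gamma n => qq (d * io (γ : SL(2, ℤ)) * d⁻¹ * g) := by
    have h1 := (hs g).comp_injective hψi
    refine h1.congr fun γ => ?_
    show qq (io (ψ γ.1 γ.2) * g) = _
    rw [← hψ γ.1 γ.2]
  have hle1 : SH (CongruenceSubgroup.Gamma (n ^ 2)) g ≤
      ∑' γ : CongruenceSubgroup.Gamma n, qq (d * io (γ : SL(2, ℤ)) * d⁻¹ * g) := by
    unfold SH
    refine Summable.tsum_le_tsum_of_inj Φ hΦ (fun c _ => (hq _).le) (fun γ => ?_) (summ hs g) hsum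
    show qq (io (γ : SL(2, ℤ)) * g) ≤ qq (d * io (φ γ.1 γ.2) * d⁻¹ * g)
    rw [hφ2 γ.1 γ.2]
  have hle2 : ∑' γ : CongruenceSubgroup.Gamma n, qq (d * io (γ : SL(2, ℤ)) * d⁻¹ * g) ≤
      ∑' γ : CongruenceSubgroup.Gamma n, nsq d ^ 4 * qq (io (γ : SL(2, ℤ)) * (d⁻¹ * g)) := by
    refine Summable.tsum_le_tsum (fun γ => ?_) hsum ((summ hs (d⁻¹ * g)).mul_left _)
    have h1 := hd (io (γ : SL(2, ℤ)) * (d⁻¹ * g)) d
    rwa [show d * (io (γ : SL(2, ℤ)) * (d⁻¹ * g)) = d * io (γ : SL(2, ℤ)) * d⁻¹ * g by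
      simp only [mul_assoc]] at h1
  rw [tsum_mul_left] at hle2
  exact hle1.trans hle2

end AGmM

open AGmM in
theorem stmtAGm (hWDi : StmtWDi) (hWSm : StmtWSm) (hWFi : StmtWFi) (hAG1 : StmtAG1) (hAG2 : StmtAG2) :
    StmtAGm := by
  intro d hdH
  obtain ⟨h2, -, -, -, -, hqc, hq, hd, -⟩ := hWDi
  obtain ⟨hs, hch, hchp, -, -, -⟩ := hWSm
  obtain ⟨n, hn, hA, hB⟩ := hAG1 d hdH
  obtain ⟨C, hC, hCg⟩ := hAG2 n hn
  obtain ⟨C', hC', hCg'⟩ := hAG2 (n ^ 2) (Nat.one_le_pow _ _ hn)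
  have hwm : Measurable (wt (CongruenceSubgroup.Gamma n)) :=
    (hqc.measurable.div (SH_meas hs hq hqc)).ennreal_ofReal
  refine ⟨CongruenceSubgroup.Gamma n, wt (CongruenceSubgroup.Gamma n), hA, hwm, ?_, wt_sum hs hq, ?_⟩
  · intro g
    exact ENNReal.ofReal_pos.mpr (div_pos (hq g) (SH_pos hs hq g))
  · intro μ hμ
    have hfin := hWFi μ hμ
    have hT : ∀ g : G, 0 < ∑' γ : SL(2, ℤ), qq (io γ * g) := fun g =>
      (hs g).tsum_pos (fun γ => (hq _).le) 1 (hq _)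
    constructor
    · refine fin_of_le hfin C hC.le _ fun g => ?_
      unfold ch
      have h3 : ∑' γ : SL(2, ℤ), qq (io γ * g) ≤ C * SH (CongruenceSubgroup.Gamma n) g := hCg g
      rw [mul_div_assoc', div_le_div_iff₀ (SH_pos hs hq g) (hT g)]
      calc qq g * ∑' γ : SL(2, ℤ), qq (io γ * g) ≤ qq g * (C * SH (CongruenceSubgroup.Gamma n) g) :=
            mul_le_mul_of_nonneg_left h3 (hq g).le
        _ = C * qq g * SH (CongruenceSubgroup.Gamma n) g := by ring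
    · rw [lintegral_map hwm (meas_left _)]
      have hnd : 0 < nsq d ^ 4 := pow_pos (nsq_pos h2 d) 4
      have hnd' : 0 < nsq d⁻¹ ^ 4 := pow_pos (nsq_pos h2 d⁻¹) 4
      refine fin_of_le hfin (nsq d⁻¹ ^ 4 * (C' * nsq d ^ 4)) (by positivity) _ fun g => ?_
      unfold ch
      have h3 : ∑' γ : SL(2, ℤ), qq (io γ * g) ≤
          C' * (nsq d ^ 4 * SH (CongruenceSubgroup.Gamma n) (d⁻¹ * g)) :=
        (hCg' g).trans (mul_le_mul_of_nonneg_left (cmp hs hq hd d n hA hB g) hC'.le)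
      have h4 : qq (d⁻¹ * g) ≤ nsq d⁻¹ ^ 4 * qq g := hd g d⁻¹
      have hS := SH_pos (H := CongruenceSubgroup.Gamma n) hs hq (d⁻¹ * g)
      rw [mul_div_assoc', div_le_div_iff₀ hS (hT g)]
      calc qq (d⁻¹ * g) * ∑' γ : SL(2, ℤ), qq (io γ * g)
          ≤ (nsq d⁻¹ ^ 4 * qq g) * (C' * (nsq d ^ 4 * SH (CongruenceSubgroup.Gamma n) (d⁻¹ * g))) :=
            mul_le_mul h4 h3 (hT g).le (mul_nonneg hnd'.le (hq g).le)
        _ = nsq d⁻¹ ^ 4 * (C' * nsq d ^ 4) * qq g * SH (CongruenceSubgroup.Gamma n) (d⁻¹ * g) := by ring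

end

end Pool.Agent.A54.QE
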