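import Pool.Agent.Lib.QE.SpecA

/-!
# Package `QE`, block A: counting (AH1)

For a compact set `K` the number of `γ ∈ SL(2, ℤ)` with `io γ * g ∈ K` is bounded independently of `g`.
-/

set_option autoImplicit false

namespace Pool.Agent.A54.QE

open MeasureTheory Filter Topology Set
open scoped MatrixGroups
open Pool.Agent.A54.Dyn (G io)

namespace AH1M

/-- integral matrices with bounded entries -/
def SS (M : ℤ) : Set SL(2, ℤ) := {γ | ∀ i j, |γ i j| ≤ M}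

lemma SS_fin (M : ℤ) : (SS M).Finite := by
  have h1 : Set.Finite {f : Fin 2 → Fin 2 → ℤ | ∀ i, f i ∈ {r : Fin 2 → ℤ | ∀ j, r j ∈ Set.Icc (-M) M}} :=
    Set.Finite.pi' fun _ => Set.Finite.pi' fun _ => Set.finite_Icc _ _
  refine Set.Finite.of_finite_image (f := fun γ : SL(2, ℤ) => fun i j => γ i j) (h1.subset ?_) ?_
  · rintro f ⟨γ, hγ, rfl⟩
    intro i j
    exact abs_le.1 (hγ i j)
  · intro γ _ γ' _ h
    apply Subtype.ext
    ext i j
    exact congrFun (congrFun h i) j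

lemma bound {K : Set G} (hK : IsCompact K) : ∃ M : ℝ, 0 ≤ M ∧ ∀ g ∈ K, ∀ i j, |g i j| ≤ M := by
  have h : ∀ i j : Fin 2, ∃ M : ℝ, ∀ g ∈ K, |g i j| ≤ M := by
    intro i j
    obtain ⟨M, hM⟩ := hK.exists_bound_of_continuousOn (f := fun g : G => g i j)
      (Dyn.continuous_entry i j).continuousOn
    exact ⟨M, fun g hg => hM g hg⟩
  choose M hM using h
  refine ⟨max 0 (max (max (M 0 0) (M 0 1)) (max (M 1 0) (M 1 1))), le_max_left _ _, fun g hg i j => ?_⟩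
  refine (hM i j g hg).trans ?_
  fin_cases i <;> fin_cases j <;> simp

lemma io_apply (γ : SL(2, ℤ)) (i j : Fin 2) : (io γ) i j = ((γ i j : ℤ) : ℝ) := rfl

lemma io_mul (γ γ' : SL(2, ℤ)) : io (γ * γ') = io γ * io γ' := map_mul _ _ _

lemma io_inv (γ : SL(2, ℤ)) : io γ⁻¹ = (io γ)⁻¹ := map_inv _ _

lemma ab {a b c d M : ℝ} (ha : |a| ≤ M) (hb : |b| ≤ M) (hc : |c| ≤ M) (hd : |d| ≤ M) : |a * b + c * d| ≤ 2 * M ^ 2 := by
  have hM : 0 ≤ M := (abs_nonneg a).trans ha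
  calc |a * b + c * d| ≤ |a * b| + |c * d| := abs_add_le _ _
    _ = |a| * |b| + |c| * |d| := by rw [abs_mul, abs_mul]
    _ ≤ M * M + M * M := add_le_add (mul_le_mul ha hb (abs_nonneg _) hM) (mul_le_mul hc hd (abs_nonneg _) hM)
    _ = 2 * M ^ 2 := by ring

lemma ent {a b : G} {M : ℝ} (ha : ∀ i j, |a i j| ≤ M) (hb : ∀ i j, |b i j| ≤ M) (i j : Fin 2) :
    |(a * b⁻¹) i j| ≤ 2 * M ^ 2 := by
  have h : ∀ i j, |b⁻¹ i j| ≤ M := by
    intro i j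
    fin_cases i <;> fin_cases j
    · change |b⁻¹ 0 0| ≤ M
      rw [Dyn.inv_00]; exact hb 1 1
    · change |b⁻¹ 0 1| ≤ M
      rw [Dyn.inv_01, abs_neg]; exact hb 0 1
    · change |b⁻¹ 1 0| ≤ M
      rw [Dyn.inv_10, abs_neg]; exact hb 1 0
    · change |b⁻¹ 1 1| ≤ M
      rw [Dyn.inv_11]; exact hb 0 0
  fin_cases i <;> fin_cases j
  · change |(a * b⁻¹) 0 0| ≤ _
    rw [Dyn.mul_00]; exact ab (ha _ _) (h _ _) (ha _ _) (h _ _)
  · change |(a * b⁻¹) 0 1| ≤ _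
    rw [Dyn.mul_01]; exact ab (ha _ _) (h _ _) (ha _ _) (h _ _)
  · change |(a * b⁻¹) 1 0| ≤ _
    rw [Dyn.mul_10]; exact ab (ha _ _) (h _ _) (ha _ _) (h _ _)
  · change |(a * b⁻¹) 1 1| ≤ _
    rw [Dyn.mul_11]; exact ab (ha _ _) (h _ _) (ha _ _) (h _ _)

end AH1M

/-- (AH1) counting -/
theorem stmtAH1 : StmtAH1 := by
  intro K hK
  obtain ⟨M, -, hM⟩ := AH1M.bound hK
  set S := AH1M.SS ⌊2 * M ^ 2⌋ with hS
  have hfin : S.Finite := AH1M.SS_fin _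
  refine ⟨S.ncard, fun g => ?_⟩
  rcases Set.eq_empty_or_nonempty {γ : SL(2, ℤ) | io γ * g ∈ K} with h0 | ⟨γ₀, hγ₀⟩
  · rw [h0]; simp
  · have hsub : {γ : SL(2, ℤ) | io γ * g ∈ K} ⊆ (fun γ => γ * γ₀) '' S := by
      intro γ hγ
      refine ⟨γ * γ₀⁻¹, ?_, by simp⟩
      intro i j
      have e : io (γ * γ₀⁻¹) = (io γ * g) * (io γ₀ * g)⁻¹ := by
        rw [AH1M.io_mul, AH1M.io_inv]; group
      have h1 := AH1M.ent (hM _ hγ) (hM _ hγ₀) i j
      rw [← e, AH1M.io_apply] at h1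
      apply Int.le_floor.2
      push_cast
      exact h1
    calc {γ : SL(2, ℤ) | io γ * g ∈ K}.encard ≤ ((fun γ => γ * γ₀) '' S).encard := Set.encard_le_encard hsub
      _ ≤ S.encard := Set.encard_image_le _ _
      _ = (S.ncard : ℕ∞) := hfin.cast_ncard_eq.symm

end Pool.Agent.A54.QE
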