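import Pool.Agent.Lib.QE.SpecA

/-!
# QE/AH2: sums over a subgroup of a function with compact support
-/

set_option autoImplicit false

namespace Pool.Agent.A54.QE

open MeasureTheory Filter Topology Set
open scoped ContDiff ComplexConjugate UpperHalfPlane MatrixGroups ENNReal
open Pool.Agent.A54.Dyn (G fl base ze io mk4 Inv)

noncomputable section

namespace AH2M

theorem io_mul (a b : SL(2, ℤ)) : io (a * b) = io a * io b := by
  unfold io
  rw [map_mul]

theorem countSL : Countable SL(2, ℤ) :=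
  Function.Injective.countable (f := fun γ : SL(2, ℤ) => fun i j : Fin 2 => γ i j) (by
    intro a b h
    ext i j
    exact congrFun (congrFun h i) j)

theorem un_add (s t : ℝ) : un (s + t) = un s * un t := by
  apply Dyn.G_ext
  · rw [Dyn.mul_00]
    simp [un, Dyn.mk4_00, Dyn.mk4_01, Dyn.mk4_10]
  · rw [Dyn.mul_01]
    simp [un, Dyn.mk4_00, Dyn.mk4_01, Dyn.mk4_11]
    ring
  · rw [Dyn.mul_10]
    simp [un, Dyn.mk4_00, Dyn.mk4_10, Dyn.mk4_11]
  · rw [Dyn.mul_11]
    simp [un, Dyn.mk4_01, Dyn.mk4_10, Dyn.mk4_11]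

theorem un_zero : un 0 = 1 := by
  apply Dyn.G_ext
  · simp [un, Dyn.mk4_00]
  · simp [un, Dyn.mk4_01]
  · simp [un, Dyn.mk4_10]
  · simp [un, Dyn.mk4_11]

theorem continuous_un : Continuous un := by
  apply continuous_induced_rng.mpr
  apply continuous_matrix
  intro i j
  fin_cases i <;> fin_cases j
  · exact continuous_const
  · exact continuous_id
  · exact continuous_const
  · exact continuous_const

/-- the finite set of the elements of `H` which move `g` into `K` -/
theorem finK (hAH1 : StmtAH1) (H : Subgroup SL(2, ℤ)) (K : Set G) (hK : IsCompact K) :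
    ∃ N : ℕ, ∀ g : G, ∃ S : Finset H, S.card ≤ N ∧ ∀ γ : H, io (γ : SL(2, ℤ)) * g ∈ K → γ ∈ S := by
  obtain ⟨N, hN⟩ := hAH1 K hK
  refine ⟨N, fun g => ?_⟩
  have h1 : {γ : H | io (γ : SL(2, ℤ)) * g ∈ K}.encard ≤ N := by
    have h2 : ((fun γ : H => (γ : SL(2, ℤ))) '' {γ : H | io (γ : SL(2, ℤ)) * g ∈ K}).encard =
        {γ : H | io (γ : SL(2, ℤ)) * g ∈ K}.encard :=
      Subtype.val_injective.encard_image _
    rw [← h2]
    refine le_trans (Set.encard_le_encard ?_) (hN g)
    rintro _ ⟨γ, hγ, rfl⟩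
    exact hγ
  have hfin : {γ : H | io (γ : SL(2, ℤ)) * g ∈ K}.Finite :=
    Set.finite_of_encard_le_coe h1
  refine ⟨hfin.toFinset, ?_, fun γ hγ => ?_⟩
  · rw [hfin.encard_eq_coe_toFinset_card] at h1
    exact_mod_cast h1
  · rw [Set.Finite.mem_toFinset]
    exact hγ

theorem summ (hAH1 : StmtAH1) (H : Subgroup SL(2, ℤ)) (k : G → ℝ) (hc : HasCompactSupport k)
    (g : G) : Summable fun γ : H => k (io (γ : SL(2, ℤ)) * g) := by
  obtain ⟨N, hN⟩ := finK hAH1 H (tsupport k) hc
  obtain ⟨S, -, hS⟩ := hN g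
  apply summable_of_ne_finset_zero (s := S)
  intro γ hγ
  by_contra hne
  exact hγ (hS γ (subset_tsupport k hne))

end AH2M

open AH2M in
theorem stmtAH2 (hAH1 : StmtAH1) : StmtAH2 := by
  intro H k hk hc
  have : Countable SL(2, ℤ) := countSL
  have hsum := summ hAH1 H k hc
  refine ⟨?_, hsum, ?_, ?_⟩
  · have hlim : Tendsto (fun (s : Finset H) (g : G) => ∑ γ ∈ s, k (io (γ : SL(2, ℤ)) * g)) atTop
        (𝓝 (Pk H k)) := by
      rw [tendsto_pi_nhds]
      intro g
      exact (hsum g).hasSum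
    refine measurable_of_tendsto_metrizable' atTop (fun s => ?_) hlim
    have : Continuous fun g : G => ∑ γ ∈ s, k (io (γ : SL(2, ℤ)) * g) :=
      continuous_finsetSum _ fun γ _ => hk.comp (continuous_const.mul continuous_id)
    exact this.measurable
  · intro γ hγ g
    unfold Pk
    have h1 : ∀ γ' : H, k (io (γ' : SL(2, ℤ)) * (io γ * g)) =
        (fun x : H => k (io (x : SL(2, ℤ)) * g)) (Equiv.mulRight (⟨γ, hγ⟩ : H) γ') := by
      intro γ'
      simp only [Equiv.coe_mulRight, Subgroup.coe_mul]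
      rw [io_mul, mul_assoc]
    rw [tsum_congr h1]
    exact Equiv.tsum_eq (Equiv.mulRight (⟨γ, hγ⟩ : H)) (fun x : H => k (io (x : SL(2, ℤ)) * g))
  · intro ε hε
    obtain ⟨K', hK'⟩ : ∃ K' : Set G,
        K' = (fun p : G × ℝ => p.1 * un p.2) '' (tsupport k ×ˢ Icc (-1 : ℝ) 1) := ⟨_, rfl⟩
    have hcK' : IsCompact K' := by
      rw [hK']
      exact IsCompact.image (hc.isCompact.prod isCompact_Icc)
        (continuous_fst.mul (continuous_un.comp continuous_snd))
    obtain ⟨N, hN⟩ := finK hAH1 H K' hcK'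
    have hN1 : (0 : ℝ) < (N : ℝ) + 1 := by positivity
    have hε' : 0 < ε / (N + 1) := div_pos hε hN1
    -- outside of K' both values vanish
    have hout : ∀ (x : G) (s : ℝ), |s| ≤ 1 → x ∉ K' → k x = 0 ∧ k (x * un s) = 0 := by
      intro x s hs hx
      constructor
      · by_contra hne
        apply hx
        rw [hK']
        refine ⟨(x, 0), ⟨subset_tsupport k hne, by constructor <;> norm_num⟩, ?_⟩
        simp only [un_zero, mul_one]
      · by_contra hne
        apply hx
        rw [hK']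
        refine ⟨(x * un s, -s), ⟨subset_tsupport k hne, ?_⟩, ?_⟩
        · have := abs_le.mp hs
          constructor
          · simp only; linarith
          · simp only; linarith
        · simp only
          rw [mul_assoc, ← un_add, add_neg_cancel, un_zero, mul_one]
    -- tube lemma
    have hφ : Continuous fun p : G × ℝ => k (p.1 * un p.2) - k p.1 :=
      (hk.comp (continuous_fst.mul (continuous_un.comp continuous_snd))).sub (hk.comp continuous_fst)
    have hopen : IsOpen {p : G × ℝ | |k (p.1 * un p.2) - k p.1| < ε / (N + 1)} :=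
      isOpen_lt hφ.abs continuous_const
    have hsub : K' ×ˢ ({0} : Set ℝ) ⊆ {p : G × ℝ | |k (p.1 * un p.2) - k p.1| < ε / (N + 1)} := by
      rintro ⟨x, s⟩ ⟨-, hs⟩
      simp only [Set.mem_singleton_iff] at hs
      subst hs
      simp only [Set.mem_ofPred_eq, un_zero, mul_one, sub_self, abs_zero]
      exact hε'
    obtain ⟨u, v, -, hv, hKu, h0v, huv⟩ := generalized_tube_lemma hcK' isCompact_singleton hopen hsub
    have h0 : (0 : ℝ) ∈ v := h0v rfl
    obtain ⟨r, hr, hball⟩ := Metric.isOpen_iff.mp hv 0 h0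
    refine ⟨min (r / 2) 1, lt_min (by linarith) one_pos, ?_⟩
    intro g s hs
    have hs1 : |s| ≤ 1 := le_trans hs (min_le_right _ _)
    have hs2 : |s| < r := lt_of_le_of_lt (le_trans hs (min_le_left _ _)) (by linarith)
    have hsv : s ∈ v := hball (by rw [Metric.mem_ball, Real.dist_eq, sub_zero]; exact hs2)
    have hun : ∀ x : G, |k (x * un s) - k x| ≤ ε / (N + 1) := by
      intro x
      by_cases hx : x ∈ K'
      · exact le_of_lt (huv (Set.mk_mem_prod (hKu hx) hsv))
      · obtain ⟨h1, h2⟩ := hout x s hs1 hx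
        rw [h1, h2, sub_zero, abs_zero]
        exact hε'.le
    obtain ⟨S, hSc, hS⟩ := hN g
    have hsum1 := hsum (g * un s)
    have hsum2 := hsum g
    unfold Pk
    rw [← hsum1.tsum_sub hsum2]
    rw [tsum_eq_sum (s := S)]
    · refine le_trans (Finset.abs_sum_le_sum_abs _ _) ?_
      have h3 : ∑ γ ∈ S, |k (io (γ : SL(2, ℤ)) * (g * un s)) - k (io (γ : SL(2, ℤ)) * g)| ≤
          S.card • (ε / (N + 1)) := by
        apply Finset.sum_le_card_nsmul
        intro γ _
        rw [← mul_assoc]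
        exact hun _
      refine le_trans h3 ?_
      rw [nsmul_eq_mul]
      have h4 : ((S.card : ℕ) : ℝ) ≤ N := by exact_mod_cast hSc
      calc (S.card : ℝ) * (ε / (N + 1)) ≤ (N + 1) * (ε / (N + 1)) := by
            apply mul_le_mul_of_nonneg_right _ hε'.le
            linarith
        _ = ε := by field_simp
    · intro γ hγ
      have hx : io (γ : SL(2, ℤ)) * g ∉ K' := fun h => hγ (hS γ h)
      obtain ⟨h1, h2⟩ := hout _ s hs1 hx
      rw [← mul_assoc, h2, h1, sub_zero]

end

end Pool.Agent.A54.QE
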