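import Pool.Agent.Lib.QE.SpecA

/-!
# Package `QE`, module `AH3`: Hopf's argument, approximation (helper37)
-/

set_option autoImplicit false

namespace Pool.Agent.A54.QE

open MeasureTheory Filter Topology Set
open scoped ContDiff ComplexConjugate UpperHalfPlane MatrixGroups ENNReal
open Pool.Agent.A54.Dyn (G fl base ze io mk4 Inv)
open Pool.Agent.A54.Hp (nm Om xi Tb)
open Pool.Agent.A54.Av (Mat)

noncomputable section

namespace AH3M

theorem countSL : Countable SL(2, ℤ) := by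
  have h : Countable (Matrix (Fin 2) (Fin 2) ℤ) := inferInstanceAs (Countable (Fin 2 → Fin 2 → ℤ))
  exact Function.Injective.countable (f := fun γ : SL(2, ℤ) => (γ : Matrix (Fin 2) (Fin 2) ℤ))
    Subtype.val_injective

theorem io_inv (γ : SL(2, ℤ)) : io γ⁻¹ = (io γ)⁻¹ := by
  unfold io
  rw [map_inv]

theorem io_one : io 1 = 1 := by
  unfold io
  rw [map_one]

theorem un_fl (s t : ℝ) : un s * fl t = fl t * un (Real.exp (-t) * s) := by
  unfold un
  apply Dyn.G_ext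
  · simp only [Dyn.mul_00, Dyn.mk4_00, Dyn.mk4_01, Dyn.mk4_10, Dyn.fl_00, Dyn.fl_10, Dyn.fl_01]; ring
  · simp only [Dyn.mul_01, Dyn.mk4_00, Dyn.mk4_01, Dyn.mk4_11, Dyn.fl_00, Dyn.fl_11, Dyn.fl_01]
    have h : Real.exp (t / 2) * Real.exp (-t) = Real.exp (-t / 2) := by
      rw [← Real.exp_add]
      congr 1
      ring
    rw [← h]
    ring
  · simp only [Dyn.mul_10, Dyn.mk4_10, Dyn.mk4_00, Dyn.mk4_11, Dyn.fl_00, Dyn.fl_10, Dyn.fl_11]; ring
  · simp only [Dyn.mul_11, Dyn.mk4_10, Dyn.mk4_01, Dyn.mk4_11, Dyn.fl_11, Dyn.fl_10]; ring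

/-- truncation -/
def cl (x : ℝ) : ℝ := max 0 (min 1 x)

theorem cl_bd (x : ℝ) : 0 ≤ cl x ∧ cl x ≤ 1 :=
  ⟨le_max_left _ _, max_le (by norm_num) (min_le_left _ _)⟩

theorem cl_lip (x y : ℝ) : |cl x - cl y| ≤ |x - y| := by
  unfold cl
  calc |max 0 (min 1 x) - max 0 (min 1 y)| ≤ |min 1 x - min 1 y| := by
        have := abs_max_sub_max_le_abs (min 1 x) (min 1 y) 0
        rw [max_comm (min 1 x) 0, max_comm (min 1 y) 0] at this
        exact this
    _ ≤ |x - y| := by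
        have := abs_min_sub_min_le_max 1 x 1 y
        simpa using this

theorem cl_id {x : ℝ} (h : 0 ≤ x ∧ x ≤ 1) : cl x = x := by
  unfold cl
  rw [min_eq_right h.2, max_eq_right h.1]

variable {H : Subgroup SL(2, ℤ)} {M : Measure G} {w : G → ℝ≥0∞} {F : G → ℝ}

theorem w_le (hp : HpH H M w F) (g : G) : w g ≤ 1 := by
  have h := ENNReal.le_tsum (f := fun γ : H => w (io (γ : SL(2, ℤ)) * g)) 1
  rw [hp.wsum g] at h
  simpa [io_one] using h

theorem w_ne (hp : HpH H M w F) (g : G) : w g ≠ ⊤ := ((w_le hp g).trans_lt ENNReal.one_lt_top).ne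

/-- `w F` as a real function -/
def ph (w : G → ℝ≥0∞) (F : G → ℝ) (g : G) : ℝ := (w g).toReal * F g

theorem ph_meas (hp : HpH H M w F) : Measurable (ph w F) := hp.mw.ennreal_toReal.mul hp.mF

theorem ph_int (hp : HpH H M w F) : Integrable (ph w F) M := by
  refine ⟨(ph_meas hp).aestronglyMeasurable, ?_⟩
  refine lt_of_le_of_lt (lintegral_mono fun g => ?_) hp.wint
  have h1 : ‖ph w F g‖ ≤ (w g).toReal := by
    unfold ph
    rw [Real.norm_eq_abs, abs_mul, abs_of_nonneg ENNReal.toReal_nonneg, abs_of_nonneg (hp.bd g).1]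
    exact mul_le_of_le_one_right ENNReal.toReal_nonneg (hp.bd g).2
  calc ‖ph w F g‖ₑ = ENNReal.ofReal ‖ph w F g‖ := (ofReal_norm _).symm
    _ ≤ ENNReal.ofReal (w g).toReal := ENNReal.ofReal_le_ofReal h1
    _ = w g := ENNReal.ofReal_toReal (w_ne hp g)

/-- pointwise estimate -/
theorem pw (hp : HpH H M w F) (k : G → ℝ) (hs : ∀ g, Summable fun γ : H => k (io (γ : SL(2, ℤ)) * g)) (x : G)
    (hx : ∀ γ : H, F (io (γ : SL(2, ℤ)) * x) = F x) :
    ENNReal.ofReal |Pk H k x - F x| ≤ ∑' γ : H, ‖ph w F (io (γ : SL(2, ℤ)) * x) - k (io (γ : SL(2, ℤ)) * x)‖ₑ := by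
  have h1 : HasSum (fun γ : H => (w (io (γ : SL(2, ℤ)) * x)).toReal) 1 := by
    have h2 := hp.wsum x
    have h3 : (∑' γ : H, (w (io (γ : SL(2, ℤ)) * x)).toReal) = 1 := by
      rw [← ENNReal.tsum_toReal_eq (fun γ => w_ne hp _), h2]
      rfl
    have h4 : Summable (fun γ : H => (w (io (γ : SL(2, ℤ)) * x)).toReal) :=
      ENNReal.summable_toReal (by rw [h2]; exact ENNReal.one_ne_top)
    rw [← h3]
    exact h4.hasSum
  have h5 : HasSum (fun γ : H => ph w F (io (γ : SL(2, ℤ)) * x)) (F x) := by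
    have h6 := h1.mul_right (F x)
    rw [one_mul] at h6
    refine h6.congr_fun ?_ |> fun h => h
    intro γ
    unfold ph
    rw [hx γ]
  have h7 := h5.sub (hs x).hasSum
  have h8 : Pk H k x = ∑' γ : H, k (io (γ : SL(2, ℤ)) * x) := rfl
  rw [← h8] at h7
  rw [abs_sub_comm, ← h7.tsum_eq, ← Real.norm_eq_abs, ofReal_norm]
  exact enorm_tsum_le_tsum_enorm

/-- the measure is invariant under `g ↦ io γ * g * fl t` -/
theorem inv2 (hp : HpH H M w F) (γ : SL(2, ℤ)) (hγ : γ ∈ H) (t : ℝ) :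
    M.map (fun g => io γ * (g * fl t)) = M := by
  have h1 : Measurable (fun g : G => io γ * g) := (continuous_const.mul continuous_id).measurable
  have h2 : Measurable (fun g : G => g * fl t) := (continuous_id.mul continuous_const).measurable
  have h3 : (fun g : G => io γ * (g * fl t)) = (fun g => io γ * g) ∘ (fun g => g * fl t) := rfl
  rw [h3, ← Measure.map_map h1 h2, hp.right t, hp.left γ hγ]

/-- unfolding -/
theorem unf (hp : HpH H M w F) (D : G → ℝ≥0∞) (hD : Measurable D) (t : ℝ) :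
    ∫⁻ g, (∑' γ : H, D (io (γ : SL(2, ℤ)) * (g * fl t))) * w g ∂M = ∫⁻ g, D g ∂M := by
  have := countSL
  have hm1 : ∀ (γ : SL(2, ℤ)) (s : ℝ), Measurable (fun g : G => io γ * (g * fl s)) := fun γ s =>
    (continuous_const.mul (continuous_id.mul continuous_const)).measurable
  have h1 : ∀ γ : H, ∫⁻ g, D (io (γ : SL(2, ℤ)) * (g * fl t)) * w g ∂M =
      ∫⁻ g, D g * w (io ((γ⁻¹ : H) : SL(2, ℤ)) * (g * fl (-t))) ∂M := by
    intro γ
    have h2 : ∀ g : G, w g = w (io ((γ⁻¹ : H) : SL(2, ℤ)) * ((io (γ : SL(2, ℤ)) * (g * fl t)) * fl (-t))) := by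
      intro g
      congr 1
      rw [Subgroup.coe_inv, io_inv, Dyn.fl_neg]
      group
    have h3 : (∫⁻ g, D g * w (io ((γ⁻¹ : H) : SL(2, ℤ)) * (g * fl (-t))) ∂M) =
        ∫⁻ g, D g * w (io ((γ⁻¹ : H) : SL(2, ℤ)) * (g * fl (-t)))
          ∂(M.map (fun g => io (γ : SL(2, ℤ)) * (g * fl t))) := by
      rw [inv2 hp _ γ.2]
    have h6 : Measurable fun g : G => D g * w (io ((γ⁻¹ : H) : SL(2, ℤ)) * (g * fl (-t))) :=
      hD.mul (hp.mw.comp (hm1 _ _))
    rw [h3, lintegral_map h6 (hm1 _ _)]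
    refine lintegral_congr fun g => ?_
    rw [← h2 g]
  have h4 : ∀ g : G, (∑' γ : H, D (io (γ : SL(2, ℤ)) * (g * fl t))) * w g =
      ∑' γ : H, D (io (γ : SL(2, ℤ)) * (g * fl t)) * w g := fun g => ENNReal.tsum_mul_right.symm
  have h7 : ∀ γ : H, AEMeasurable (fun g : G => D (io (γ : SL(2, ℤ)) * (g * fl t)) * w g) M :=
    fun γ => ((hD.comp (hm1 _ _)).mul hp.mw).aemeasurable
  have h8 : ∀ γ : H, AEMeasurable (fun g : G => D g * w (io ((γ⁻¹ : H) : SL(2, ℤ)) * (g * fl (-t)))) M :=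
    fun γ => (hD.mul (hp.mw.comp (hm1 _ _))).aemeasurable
  rw [lintegral_congr h4, lintegral_tsum h7, tsum_congr h1, ← lintegral_tsum h8]
  refine lintegral_congr fun g => ?_
  rw [ENNReal.tsum_mul_left]
  have h5 : ∑' γ : H, w (io ((γ⁻¹ : H) : SL(2, ℤ)) * (g * fl (-t))) = 1 := by
    rw [← hp.wsum (g * fl (-t))]
    exact (Equiv.inv H).tsum_eq (fun γ : H => w (io (γ : SL(2, ℤ)) * (g * fl (-t))))
  rw [h5, mul_one]

/-- right translations preserve null sets -/
theorem ae_right (hp : HpH H M w F) {p : G → Prop} (h : ∀ᵐ g ∂M, p g) (t : ℝ) : ∀ᵐ g ∂M, p (g * fl t) := by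
  have h2 : Measurable (fun g : G => g * fl t) := (continuous_id.mul continuous_const).measurable
  rw [← hp.right t] at h
  exact ae_of_ae_map h2.aemeasurable h

theorem ae_nat (hp : HpH H M w F) (n : ℕ) : ∀ᵐ g ∂M, F (g * fl n) = F g := by
  induction n with
  | zero =>
    refine Eventually.of_forall fun g => ?_
    rw [Nat.cast_zero, Dyn.fl_zero, mul_one]
  | succ n ih =>
    have h1 := ae_right hp ih 1
    filter_upwards [h1, hp.Fr] with g h2 h3
    rw [Nat.cast_add, Nat.cast_one, add_comm (n : ℝ) 1, Dyn.fl_add, ← mul_assoc, h2, h3]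

theorem est (hp : HpH H M w F) (k : G → ℝ) (hk : Measurable k) (hs : ∀ g, Summable fun γ : H => k (io (γ : SL(2, ℤ)) * g))
    (n : ℕ) : ∫⁻ g, ENNReal.ofReal |Pk H k (g * fl n) - F g| * w g ∂M ≤ ∫⁻ g, ‖ph w F g - k g‖ₑ ∂M := by
  have := countSL
  have hD : Measurable fun g => ‖ph w F g - k g‖ₑ := ((ph_meas hp).sub hk).enorm
  rw [← unf hp _ hD n]
  have h1 : ∀ᵐ g ∂M, ∀ γ : H, F (io (γ : SL(2, ℤ)) * g) = F g := by
    rw [ae_all_iff]
    exact fun γ => hp.Fl γ γ.2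
  have h2 := ae_right hp h1 n
  refine lintegral_mono_ae ?_
  filter_upwards [h2, ae_nat hp n] with g h3 h4
  refine mul_le_mul_left ?_ _
  rw [← h4]
  exact pw hp k hs _ h3

end AH3M

open AH3M in
theorem stmtAH3 (hAH2 : StmtAH2) : StmtAH3 := by
  intro H M w F hp ε δ L hε hδ
  have := hp.fin
  obtain ⟨k, hk1, hk2, hk3, -⟩ := (ph_int hp).exists_hasCompactSupport_lintegral_sub_le
    (ε := ENNReal.ofReal ε) (by rw [Ne, ENNReal.ofReal_eq_zero]; exact not_le.mpr hε)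
  obtain ⟨hm, hs, -, hu⟩ := hAH2 H k hk3 hk1
  obtain ⟨η, hη, hu⟩ := hu δ hδ
  obtain ⟨n, hn⟩ : ∃ n : ℕ, Real.exp (-(n : ℝ)) * |L| ≤ η := by
    have h1 : Tendsto (fun n : ℕ => Real.exp (-(n : ℝ)) * |L|) atTop (𝓝 (0 * |L|)) :=
      ((Real.tendsto_exp_neg_atTop_nhds_zero.comp tendsto_natCast_atTop_atTop)).mul_const _
    rw [zero_mul] at h1
    obtain ⟨n, hn⟩ := (h1.eventually (ge_mem_nhds hη)).exists
    exact ⟨n, hn⟩
  have hr : Measurable (fun g : G => g * fl n) := (continuous_id.mul continuous_const).measurable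
  refine ⟨fun g => cl (Pk H k (g * fl n)), ?_, fun g => cl_bd _, ?_, ?_⟩
  · exact measurable_const.max (measurable_const.min (hm.comp hr))
  · refine le_trans (lintegral_mono fun g => ?_) ((est hp k hk3.measurable hs n).trans hk2)
    refine mul_le_mul_left (ENNReal.ofReal_le_ofReal ?_) _
    have h1 := cl_lip (Pk H k (g * fl n)) (F g)
    rwa [cl_id (hp.bd g)] at h1
  · intro g s hs'
    refine (cl_lip _ _).trans ?_
    rw [mul_assoc, un_fl, ← mul_assoc]
    refine hu _ _ ?_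
    rw [abs_mul, abs_of_pos (Real.exp_pos _)]
    refine le_trans (mul_le_mul_of_nonneg_left ?_ (Real.exp_pos _).le) hn
    exact hs'.trans (le_abs_self L)

end

end Pool.Agent.A54.QE
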