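import Pool.Agent.Lib.QE.SpecA

/-!
# `StmtAHe`: Hecke equality of leaf measures
-/

set_option autoImplicit false

namespace Pool.Agent.A54.QE

open MeasureTheory Filter Topology Set
open scoped ContDiff ComplexConjugate UpperHalfPlane MatrixGroups ENNReal
open Pool.Agent.A54.Dyn (G fl base ze io mk4 Inv)

noncomputable section

namespace AHeM

lemma meas_left (h : G) : Measurable fun g : G => h * g :=
  (continuous_const.mul continuous_id).measurable

lemma pr_symm {m m' : Measure ℝ} (h : Pr m m') : Pr m' m := by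
  obtain ⟨c, hc0, hct, rfl⟩ := h
  refine ⟨c⁻¹, ENNReal.inv_ne_zero.2 hct, ENNReal.inv_ne_top.2 hc0, ?_⟩
  rw [smul_smul, ENNReal.inv_mul_cancel hc0 hct, one_smul]

lemma pr_trans {m m' m'' : Measure ℝ} (h : Pr m m') (h' : Pr m' m'') : Pr m m'' := by
  obtain ⟨c, hc0, hct, rfl⟩ := h
  obtain ⟨c', hc0', hct', rfl⟩ := h'
  exact ⟨c * c', mul_ne_zero hc0 hc0', ENNReal.mul_ne_top hct hct', by rw [smul_smul]⟩

/-- The integral of the weight is finite. -/
lemma int_ch (hWFi : StmtWFi) {μ : Measure G} (hμ : Inv μ) :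
    ∫⁻ g, ENNReal.ofReal (ch g) ∂μ < ⊤ := by
  have h1 : IsFiniteMeasure (mX μ) := hWFi μ hμ
  have h2 : mX μ univ < ⊤ := measure_lt_top _ _
  unfold mX at h2
  rw [withDensity_apply _ MeasurableSet.univ, Measure.restrict_univ] at h2
  exact h2

end AHeM

open AHeM in
theorem stmtAHe (hWSm : StmtWSm) (hWFi : StmtWFi) (hAEx : StmtAEx) (hAUn : StmtAUn)
    (hAMp : StmtAMp) (hADe : StmtADe) (hAHd : StmtAHd) : StmtAHe := by
  intro μ lf hμ hlf d hd
  have hf : IsFiniteMeasureOnCompacts μ := hμ.fin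
  obtain ⟨F', hF'm, hF'b, hF'u, e1, e2⟩ := hAHd μ hμ d hd
  set ν : Measure G := μ.map fun g => d⁻¹ * g with hν
  have hfν : IsFiniteMeasureOnCompacts ν :=
    Measure.IsFiniteMeasureOnCompacts.map μ (Homeomorph.mulLeft d⁻¹)
  have hlμ : IsLocallyFiniteMeasure μ := isLocallyFiniteMeasure_of_isFiniteMeasureOnCompacts
  have hlν : IsLocallyFiniteMeasure ν := isLocallyFiniteMeasure_of_isFiniteMeasureOnCompacts
  set M : Measure G := μ + ν with hM
  have hfM : IsFiniteMeasureOnCompacts M := by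
    refine ⟨fun K hK => ?_⟩
    rw [hM, Measure.add_apply]
    exact ENNReal.add_lt_top.2 ⟨hK.measure_lt_top, hK.measure_lt_top⟩
  obtain ⟨hc, hpos⟩ : Continuous ch ∧ ∀ g, 0 < ch g := ⟨hWSm.2.1, hWSm.2.2.1⟩
  obtain ⟨lM, hlM⟩ : ∃ lM : G → Measure ℝ, LS M lM := by
    refine hAEx M hfM ⟨fun g => min (ch g) (ch (d * g)), ?_, ?_, ?_⟩
    · exact hc.min (hc.comp (continuous_const.mul continuous_id))
    · intro g
      exact lt_min (hpos _) (hpos _)
    · rw [hM, lintegral_add_measure]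
      refine ENNReal.add_lt_top.2 ⟨?_, ?_⟩
      · refine lt_of_le_of_lt (lintegral_mono fun g => ?_) (int_ch hWFi hμ)
        exact ENNReal.ofReal_le_ofReal (min_le_left _ _)
      · have h1 : ∫⁻ g, ENNReal.ofReal (ch (d * g)) ∂ν = ∫⁻ g, ENNReal.ofReal (ch g) ∂μ := by
          have hm : Measurable fun g : G => ENNReal.ofReal (ch (d * g)) :=
            (hc.measurable.ennreal_ofReal).comp (meas_left d)
          rw [hν, lintegral_map hm (meas_left _)]
          refine lintegral_congr fun g => ?_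
          rw [mul_inv_cancel_left]
        refine lt_of_le_of_lt (lintegral_mono fun g => ?_)
          (h1.trans_lt (int_ch hWFi hμ))
        exact ENNReal.ofReal_le_ofReal (min_le_right _ _)
  have hμM : LS μ lM := by
    rw [e1]
    exact hADe M lM hlM _ hF'm.ennreal_ofReal (fun g u => by rw [hF'u g u])
      fun g => ENNReal.ofReal_ne_top
  have hνM : LS ν lM := by
    rw [e2]
    exact hADe M lM hlM _ (measurable_const.sub hF'm).ennreal_ofReal
      (fun g u => by rw [hF'u g u]) fun g => ENNReal.ofReal_ne_top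
  have hνl : LS ν fun g => lf (d * g) := by
    have h1 := (hAMp μ lf hlf).1 d⁻¹
    rw [inv_inv] at h1
    exact h1
  have a1 : ∀ᵐ g ∂μ, Pr (lf g) (lM g) := hAUn μ lf lM inferInstance hlf hμM
  have a2 : ∀ᵐ g ∂ν, Pr (lf (d * g)) (lM g) :=
    hAUn ν (fun g => lf (d * g)) lM inferInstance hνl hνM
  obtain ⟨N₁, hs1, hm1, hz1⟩ := exists_measurable_superset_of_null (ae_iff.1 a1)
  obtain ⟨N₂, hs2, hm2, hz2⟩ := exists_measurable_superset_of_null (ae_iff.1 a2)
  refine ⟨N₁ ∪ (fun g => d⁻¹ * g) ⁻¹' N₂, hm1.union (meas_left _ hm2), ?_, ?_⟩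
  · refine measure_union_null hz1 ?_
    rw [← Measure.map_apply (meas_left _) hm2]
    exact hz2
  · intro g h1 h2
    have h3 : Pr (lf g) (lM g) := by
      by_contra h4
      exact h1 (Or.inl (hs1 h4))
    have h5 : Pr (lf (d * g)) (lM g) := by
      by_contra h4
      refine h2 (Or.inr ?_)
      rw [mem_preimage, inv_mul_cancel_left]
      exact hs2 h4
    exact pr_trans h5 (pr_symm h3)

end

end Pool.Agent.A54.QE
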