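import Pool.Agent.Lib.QE.SpecA

/-!
# Package `QE`, block A: Hopf's argument (AHo)

If a bounded function is invariant under the flow and a discrete group, it is a.e. equal to a function which is
constant on the leaves.
-/

set_option autoImplicit false

namespace Pool.Agent.A54.QE

open MeasureTheory Filter Topology Set
open scoped ContDiff ComplexConjugate UpperHalfPlane MatrixGroups ENNReal
open Pool.Agent.A54.Dyn (G fl base ze io mk4 Inv)

noncomputable section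

namespace AHoM

lemma bddA {a : ℕ → ℝ} (h : ∀ j, 0 ≤ a j ∧ a j ≤ 1) : IsBoundedUnder (· ≤ ·) atTop a :=
  isBoundedUnder_of ⟨1, fun j => (h j).2⟩

lemma bddB {a : ℕ → ℝ} (h : ∀ j, 0 ≤ a j ∧ a j ≤ 1) : IsBoundedUnder (· ≥ ·) atTop a :=
  isBoundedUnder_of ⟨0, fun j => (h j).1⟩

lemma cobA {a : ℕ → ℝ} (h : ∀ j, 0 ≤ a j ∧ a j ≤ 1) : IsCoboundedUnder (· ≤ ·) atTop a :=
  (bddB h).isCoboundedUnder_le

lemma lim_nonneg {a : ℕ → ℝ} (h : ∀ j, 0 ≤ a j ∧ a j ≤ 1) : 0 ≤ limsup a atTop :=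
  le_limsup_of_frequently_le (Frequently.of_forall fun j => (h j).1) (bddA h)

lemma lim_le_one {a : ℕ → ℝ} (h : ∀ j, 0 ≤ a j ∧ a j ≤ 1) : limsup a atTop ≤ 1 :=
  limsup_le_of_le (cobA h) (Eventually.of_forall fun j => (h j).2)

lemma lim_le {a b : ℕ → ℝ} (ha : ∀ j, 0 ≤ a j ∧ a j ≤ 1) (hb : ∀ j, 0 ≤ b j ∧ b j ≤ 1)
    (hab : ∀ ε : ℝ, 0 < ε → ∀ᶠ j in atTop, a j ≤ b j + ε) : limsup a atTop ≤ limsup b atTop := by
  refine le_of_forall_pos_le_add fun ε hε => ?_
  have h2 : limsup b atTop < limsup b atTop + ε / 2 := by linarith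
  have h3 := eventually_lt_of_limsup_lt h2 (bddA hb)
  refine limsup_le_of_le (cobA ha) ?_
  filter_upwards [h3, hab (ε / 2) (by linarith)] with j h4 h5
  linarith

lemma lim_eq {a b : ℕ → ℝ} (ha : ∀ j, 0 ≤ a j ∧ a j ≤ 1) (hb : ∀ j, 0 ≤ b j ∧ b j ≤ 1)
    (hab : ∀ ε : ℝ, 0 < ε → ∀ᶠ j in atTop, |a j - b j| ≤ ε) : limsup a atTop = limsup b atTop := by
  refine le_antisymm (lim_le ha hb fun ε hε => ?_) (lim_le hb ha fun ε hε => ?_)
  · filter_upwards [hab ε hε] with j hj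
    have := abs_le.mp hj
    linarith
  · filter_upwards [hab ε hε] with j hj
    have := abs_le.mp hj
    linarith

lemma half_ev (ε : ℝ) (hε : 0 < ε) : ∀ᶠ j : ℕ in atTop, ((1 : ℝ) / 2) ^ j ≤ ε := by
  have h := tendsto_pow_atTop_nhds_zero_of_lt_one (r := (1 : ℝ) / 2) (by norm_num) (by norm_num)
  exact (h.eventually (gt_mem_nhds hε)).mono fun j hj => hj.le

lemma tsum_half : (∑' j : ℕ, ENNReal.ofReal (((1 : ℝ) / 2) ^ j)) ≠ ⊤ := by
  rw [← ENNReal.ofReal_tsum_of_nonneg (fun n => by positivity) summable_geometric_two]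
  exact ENNReal.ofReal_ne_top

/-- convergence almost everywhere -/
lemma conv {M : Measure G} {w : G → ℝ≥0∞} {F : G → ℝ} {f : ℕ → G → ℝ} (mw : Measurable w) (wpos : ∀ g, 0 < w g)
    (mF : Measurable F) (mf : ∀ j, Measurable (f j))
    (hf : ∀ j, ∫⁻ g, ENNReal.ofReal |f j g - F g| * w g ∂M ≤ ENNReal.ofReal (((1 : ℝ) / 2) ^ j)) :
    ∀ᵐ g ∂M, Tendsto (fun j => f j g) atTop (𝓝 (F g)) := by
  have hm : ∀ j, Measurable fun g => ENNReal.ofReal |f j g - F g| * w g := fun j =>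
    (ENNReal.measurable_ofReal.comp (_root_.continuous_abs.measurable.comp ((mf j).sub mF))).mul mw
  have h1 : ∫⁻ g, ∑' j, ENNReal.ofReal |f j g - F g| * w g ∂M ≠ ⊤ := by
    rw [lintegral_tsum fun j => (hm j).aemeasurable]
    exact ne_top_of_le_ne_top tsum_half (ENNReal.tsum_le_tsum hf)
  have h2 := ae_lt_top' (Measurable.ennreal_tsum hm).aemeasurable h1
  filter_upwards [h2] with g hg
  rw [ENNReal.tsum_mul_right] at hg
  have h3 : (∑' j, ENNReal.ofReal |f j g - F g|) ≠ ⊤ := by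
    intro h
    rw [h, ENNReal.top_mul (wpos g).ne'] at hg
    exact lt_irrefl _ hg
  have h4 := ENNReal.tendsto_atTop_zero_of_tsum_ne_top h3
  have h5 : Tendsto (fun j => |f j g - F g|) atTop (𝓝 0) := by
    have h6 := (ENNReal.tendsto_toReal ENNReal.zero_ne_top).comp h4
    refine (h6.congr fun j => ?_)
    simp only [Function.comp]
    exact ENNReal.toReal_ofReal (abs_nonneg _)
  exact tendsto_iff_norm_sub_tendsto_zero.mpr h5

end AHoM

open AHoM in
theorem stmtAHo (hAH3 : StmtAH3) : StmtAHo := by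
  intro H M w F hp
  have h0 := fun j : ℕ => hAH3 H M w F hp (((1 : ℝ) / 2) ^ j) (((1 : ℝ) / 2) ^ j) j (by positivity) (by positivity)
  choose f mf bf hf uf using h0
  refine ⟨fun g => limsup (fun j => f j g) atTop, ?_, fun g => ?_, fun g u => ?_, ?_⟩
  · exact Measurable.limsup mf
  · exact ⟨lim_nonneg fun j => bf j g, lim_le_one fun j => bf j g⟩
  · refine lim_eq (fun j => bf j _) (fun j => bf j _) fun ε hε => ?_
    filter_upwards [half_ev ε hε, eventually_ge_atTop ⌈|u|⌉₊] with j hj hu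
    exact (uf j g u ((Nat.le_ceil _).trans (by exact_mod_cast hu))).trans hj
  · filter_upwards [conv hp.mw hp.wpos hp.mF mf hf] with g hg
    exact hg.limsup_eq

end

end Pool.Agent.A54.QE
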