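import Pool.Agent.Lib.QE.SpecA

/-!
# Package `QE`, block A: images of leaf systems under left multiplication and under the flow
-/

set_option autoImplicit false

namespace Pool.Agent.A54.QE

open MeasureTheory Filter Topology Set
open scoped ENNReal MatrixGroups
open Pool.Agent.A54.Dyn (G fl io Inv)

noncomputable section

namespace AMpM

/-- general form -/
theorem main {μ : Measure G} {lf : G → Measure ℝ} (hC : Crd) (hL : LS μ lf) (T : G → G) (hT : Measurable T)
    (A : (ℝ × ℝ) ≃ᵐ (ℝ × ℝ)) (hA0 : A 0 = 0) (c : ℝ × ℝ → ℝ) (l : ℝ) (lf' : G → Measure ℝ) (hm : Measurable lf')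
    (hf : ∀ g, IsFiniteMeasureOnCompacts (lf' g))
    (htr : ∀ (g : G) (u : ℝ), lf' (g * un u) = (lf' g).map fun x => x - u)
    (hTs : ∀ v : ℝ × ℝ, v ≠ 0 → ∀ x : ℝ, T (sc v * un x) = sc (A v) * un (c v + l * x))
    (hlf : ∀ v : ℝ × ℝ, v ≠ 0 → lf' (sc (A v)) = (lf (sc v)).map fun x => c v + l * x) : LS (μ.map T) lf' := by
  refine ⟨hm, hf, htr, ?_⟩
  obtain ⟨θ, hσ, h0, hd⟩ := hL.dis
  refine ⟨θ.map A, A.sigmaFinite_map, ?_, ?_⟩
  · rw [A.map_apply]
    have : (A ⁻¹' {0} : Set (ℝ × ℝ)) = {0} := by
      ext v
      simp only [mem_preimage, mem_singleton_iff]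
      constructor
      · intro hv
        exact A.injective (hv.trans hA0.symm)
      · intro hv
        rw [hv, hA0]
    rw [this, h0]
  · intro F hF
    rw [lintegral_map hF hT, hd (fun g => F (T g)) (hF.comp hT), lintegral_map_equiv]
    have hae : ∀ᵐ v ∂θ, v ≠ 0 := by
      rw [ae_iff]
      simpa using h0
    refine lintegral_congr_ae ?_
    filter_upwards [hae] with v hv
    have hF1 : Measurable fun x : ℝ => F (sc (A v) * un x) :=
      hF.comp (continuous_const.mul hC.cun).measurable
    have hl1 : Measurable fun x : ℝ => c v + l * x := (measurable_id.const_mul l).const_add (c v)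
    rw [hlf v hv, lintegral_map hF1 hl1]
    refine lintegral_congr fun x => ?_
    rw [hTs v hv x]

/-- the action on first columns -/
def Ah (h : G) : (ℝ × ℝ) ≃ᵐ (ℝ × ℝ) where
  toFun v := (h 0 0 * v.1 + h 0 1 * v.2, h 1 0 * v.1 + h 1 1 * v.2)
  invFun v := (h 1 1 * v.1 - h 0 1 * v.2, -h 1 0 * v.1 + h 0 0 * v.2)
  left_inv v := by
    have := Dyn.det_eq h
    refine Prod.ext ?_ ?_
    · simp only; linear_combination v.1 * this
    · simp only; linear_combination v.2 * this
  right_inv v := by
    have := Dyn.det_eq h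
    refine Prod.ext ?_ ?_
    · simp only; linear_combination v.1 * this
    · simp only; linear_combination v.2 * this
  measurable_toFun := by
    simp only [Equiv.coe_fn_mk]
    fun_prop
  measurable_invFun := by
    simp only [Equiv.coe_fn_symm_mk]
    fun_prop

/-- scaling -/
def As (t : ℝ) : (ℝ × ℝ) ≃ᵐ (ℝ × ℝ) where
  toFun v := Real.exp (t / 2) • v
  invFun v := Real.exp (-t / 2) • v
  left_inv v := by
    simp only
    rw [smul_smul, ← Real.exp_add, show -t / 2 + t / 2 = 0 by ring, Real.exp_zero, one_smul]
  right_inv v := by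
    simp only
    rw [smul_smul, ← Real.exp_add, show t / 2 + -t / 2 = 0 by ring, Real.exp_zero, one_smul]
  measurable_toFun := by
    simp only [Equiv.coe_fn_mk]
    fun_prop
  measurable_invFun := by
    simp only [Equiv.coe_fn_symm_mk]
    fun_prop

theorem un_neg (hC : Crd) (c : ℝ) : un c * un (-c) = 1 := by
  rw [← hC.add, add_neg_cancel, hC.zero]

end AMpM

open AMpM in
theorem stmtAMp (hC : StmtACr) (_hS : StmtASf) : StmtAMp := by
  intro μ lf hL
  have hC' : Crd := hC
  refine ⟨fun h => ?_, fun t => ?_⟩
  · have key : ∀ v : ℝ × ℝ, v ≠ 0 → h * sc v = sc (Ah h v) * un (uc (h * sc v)) := by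
      intro v hv
      have h1 : vc (h * sc v) = Ah h v := by
        rw [hC'.vmul, hC'.vsc v hv]
        rfl
      rw [← h1]
      exact (hC'.eq _).symm
    refine main hC' hL (fun g => h * g) (continuous_const.mul continuous_id).measurable (Ah h) ?_
      (fun v => uc (h * sc v)) 1 (fun g => lf (h⁻¹ * g))
      (hL.meas.comp (continuous_const.mul continuous_id).measurable) (fun g => hL.fin _) ?_ ?_ ?_
    · simp [Ah]
    · intro g u
      rw [← mul_assoc, hL.tr]
    · intro v hv x
      rw [← mul_assoc, key v hv, mul_assoc, ← hC'.add, one_mul]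
      rw [← key v hv]
    · intro v hv
      have h2 : h⁻¹ * sc (Ah h v) = sc v * un (-(uc (h * sc v))) := by
        rw [inv_mul_eq_iff_eq_mul, ← mul_assoc]
        have k := key v hv
        generalize uc (h * sc v) = c at k ⊢
        rw [k, mul_assoc, un_neg hC', mul_one]
      rw [h2, hL.tr]
      congr 1
      funext x
      ring
  · have key : ∀ v : ℝ × ℝ, v ≠ 0 → sc v * fl t = sc (As t v) * un (uc (sc v * fl t)) := by
      intro v hv
      have h1 : vc (sc v * fl t) = As t v := by
        rw [hC'.vfl, hC'.vsc v hv]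
        rfl
      rw [← h1]
      exact (hC'.eq _).symm
    have hmul : Measurable fun x : ℝ => Real.exp (-t) * x := measurable_id.const_mul _
    have hsub : ∀ u : ℝ, Measurable fun x : ℝ => x - u := fun u => measurable_id.sub_const u
    have hee : Real.exp (-t) * Real.exp t = 1 := by rw [← Real.exp_add]; simp
    refine main hC' hL (fun g => g * fl t) (continuous_id.mul continuous_const).measurable (As t) ?_
      (fun v => uc (sc v * fl t)) (Real.exp (-t)) (fun g => (lf (g * fl (-t))).map fun x => Real.exp (-t) * x)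
      ((Measure.measurable_map _ hmul).comp (hL.meas.comp (continuous_id.mul continuous_const).measurable)) ?_ ?_ ?_ ?_
    · simp [As]
    · intro g
      have := hL.fin (g * fl (-t))
      exact Measure.IsFiniteMeasureOnCompacts.map (lf (g * fl (-t))) (Homeomorph.mulLeft₀ (Real.exp (-t)) (Real.exp_pos _).ne')
    · intro g u
      have h2 : g * un u * fl (-t) = g * fl (-t) * un (Real.exp t * u) := by
        rw [mul_assoc, hC'.unfl, neg_neg, mul_assoc]
      rw [h2, hL.tr, Measure.map_map hmul (hsub _), Measure.map_map (hsub _) hmul]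
      congr 1
      funext x
      simp only [Function.comp]
      linear_combination -u * hee
    · intro v hv x
      rw [mul_assoc, hC'.unfl, ← mul_assoc, key v hv, mul_assoc, ← hC'.add]
      rw [← key v hv]
    · intro v hv
      have h2 : sc (As t v) * fl (-t) = sc v * un (-(Real.exp t * uc (sc v * fl t))) := by
        have h3 : sc (As t v) = sc v * fl t * un (-(uc (sc v * fl t))) := by
          have k := key v hv
          generalize uc (sc v * fl t) = c at k ⊢
          rw [k, mul_assoc, un_neg hC', mul_one]
        rw [h3, mul_assoc, hC'.unfl, mul_assoc, ← mul_assoc (fl t), ← Dyn.fl_add]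
        rw [add_neg_cancel, Dyn.fl_zero, one_mul, neg_neg, mul_neg]
      rw [h2, hL.tr, Measure.map_map hmul (hsub _)]
      congr 1
      funext x
      simp only [Function.comp]
      linear_combination (uc (sc v * fl t)) * hee

end

end Pool.Agent.A54.QE
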