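import Pool.Agent.Lib.QE.SpecA

/-!
# `StmtAPr`: measurability of proportionality
-/

set_option autoImplicit false

namespace Pool.Agent.A54.QE

open MeasureTheory Filter Topology Set
open scoped ENNReal
open Pool.Agent.A54.Dyn (G)

noncomputable section

namespace APrM

/-- A measure vanishing on the rational intervals is zero. -/
lemma eq_zero (m : Measure ℝ) (hf : IsFiniteMeasureOnCompacts m)
    (h : ∀ a b : ℚ, m (Ioo (a : ℝ) (b : ℝ)) = 0) : m = 0 := by
  have : IsLocallyFiniteMeasure m := isLocallyFiniteMeasure_of_isFiniteMeasureOnCompacts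
  refine Real.measure_ext_Ioo_rat fun a b => ?_
  rw [h a b]
  simp

/-- Proportionality in terms of rational intervals. -/
lemma pr_iff (m m' : Measure ℝ) (hf : IsFiniteMeasureOnCompacts m)
    (hf' : IsFiniteMeasureOnCompacts m') : Pr m m' ↔ (m univ = 0 ∧ m' univ = 0) ∨
      (m univ ≠ 0 ∧ m' univ ≠ 0 ∧ ∀ a b c d : ℚ,
        m (Ioo (a : ℝ) (b : ℝ)) * m' (Ioo (c : ℝ) (d : ℝ)) =
          m (Ioo (c : ℝ) (d : ℝ)) * m' (Ioo (a : ℝ) (b : ℝ))) := by
  constructor
  · rintro ⟨k, hk0, -, rfl⟩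
    by_cases h0 : m' univ = 0
    · exact Or.inl ⟨by rw [Measure.smul_apply, h0, smul_zero], h0⟩
    · refine Or.inr ⟨?_, h0, fun a b c d => ?_⟩
      · rw [Measure.smul_apply, smul_eq_mul]
        exact mul_ne_zero hk0 h0
      · rw [Measure.smul_apply, Measure.smul_apply, smul_eq_mul, smul_eq_mul]
        ring
  · rintro (⟨h1, h2⟩ | ⟨h1, h2, h3⟩)
    · rw [Measure.measure_univ_eq_zero] at h1 h2
      exact ⟨1, one_ne_zero, ENNReal.one_ne_top, by rw [h1, h2, smul_zero]⟩
    · have hl : IsLocallyFiniteMeasure m := isLocallyFiniteMeasure_of_isFiniteMeasureOnCompacts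
      have hl' : IsLocallyFiniteMeasure m' := isLocallyFiniteMeasure_of_isFiniteMeasureOnCompacts
      obtain ⟨c, d, hcd⟩ : ∃ c d : ℚ, m' (Ioo (c : ℝ) (d : ℝ)) ≠ 0 := by
        by_contra hcon
        push Not at hcon
        apply h2
        rw [eq_zero m' hf' hcon]
        simp
      have hmJ : m (Ioo (c : ℝ) (d : ℝ)) ≠ 0 := by
        intro h0
        apply h1
        rw [eq_zero m hf fun a b => ?_]
        · simp
        · have h4 := h3 a b c d
          rw [h0, zero_mul] at h4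
          exact (mul_eq_zero.1 h4).resolve_right hcd
      have ht : m (Ioo (c : ℝ) (d : ℝ)) ≠ ⊤ := measure_Ioo_lt_top.ne
      have ht' : m' (Ioo (c : ℝ) (d : ℝ)) ≠ ⊤ := measure_Ioo_lt_top.ne
      refine ⟨m (Ioo (c : ℝ) (d : ℝ)) / m' (Ioo (c : ℝ) (d : ℝ)),
        (ENNReal.div_pos hmJ ht').ne', ENNReal.div_ne_top ht hcd,
        Real.measure_ext_Ioo_rat fun a b => ?_⟩
      have h4 := h3 a b c d
      rw [Measure.smul_apply, smul_eq_mul, ← ENNReal.mul_div_right_comm,
        ENNReal.eq_div_iff hcd ht', mul_comm, h4]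

end APrM

theorem stmtAPr : StmtAPr := by
  intro κ κ' hκ hκ' hf hf'
  have e : {g | Pr (κ g) (κ' g)} =
      ({g | κ g univ = 0} ∩ {g | κ' g univ = 0}) ∪
      ({g | κ g univ = 0}ᶜ ∩ ({g | κ' g univ = 0}ᶜ ∩ ⋂ a : ℚ, ⋂ b : ℚ, ⋂ c : ℚ, ⋂ d : ℚ,
        {g | κ g (Ioo (a : ℝ) (b : ℝ)) * κ' g (Ioo (c : ℝ) (d : ℝ)) =
          κ g (Ioo (c : ℝ) (d : ℝ)) * κ' g (Ioo (a : ℝ) (b : ℝ))})) := by
    ext g
    have := APrM.pr_iff (κ g) (κ' g) (hf g) (hf' g)
    simp only [mem_ofPred_eq, mem_union, mem_inter_iff, mem_compl_iff, mem_iInter]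
    exact this
  have hm : ∀ s : Set ℝ, MeasurableSet s → Measurable fun g => κ g s := fun s hs =>
    (Measure.measurable_coe hs).comp hκ
  have hm' : ∀ s : Set ℝ, MeasurableSet s → Measurable fun g => κ' g s := fun s hs =>
    (Measure.measurable_coe hs).comp hκ'
  have h1 : MeasurableSet {g | κ g univ = 0} := hm univ MeasurableSet.univ (measurableSet_singleton 0)
  have h2 : MeasurableSet {g | κ' g univ = 0} :=
    hm' univ MeasurableSet.univ (measurableSet_singleton 0)
  rw [e]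
  refine (h1.inter h2).union (h1.compl.inter (h2.compl.inter ?_))
  refine MeasurableSet.iInter fun a => MeasurableSet.iInter fun b => MeasurableSet.iInter fun c =>
    MeasurableSet.iInter fun d => ?_
  exact measurableSet_eq_fun ((hm _ measurableSet_Ioo).mul (hm' _ measurableSet_Ioo))
    ((hm _ measurableSet_Ioo).mul (hm' _ measurableSet_Ioo))

end

end Pool.Agent.A54.QE
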