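import Pool.Agent.Lib.QE.SpecA

/-!
# Package `QE`, module `ASf`: the families of leaf measures are s-finite kernels (helper97)
-/

set_option autoImplicit false

namespace Pool.Agent.A54.QE

open MeasureTheory Filter Topology Set ProbabilityTheory
open scoped ContDiff ComplexConjugate UpperHalfPlane MatrixGroups ENNReal

noncomputable section

namespace ASfM

/-- a kernel all of whose values are finite measures is s-finite -/
theorem sfin_of_fin {α β : Type} [MeasurableSpace α] [MeasurableSpace β] (η : Kernel α β)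
    (h : ∀ a, η a univ < ⊤) : IsSFiniteKernel η := by
  classical
  have hmeas : Measurable fun a => η a univ := η.measurable_coe MeasurableSet.univ
  let S : ℕ → Set α := fun k => {a | (k : ℝ≥0∞) ≤ η a univ ∧ η a univ < k + 1}
  have hS : ∀ k, MeasurableSet (S k) := fun k =>
    (measurableSet_le measurable_const hmeas).inter (measurableSet_lt hmeas measurable_const)
  have huniq : ∀ a k k', a ∈ S k → a ∈ S k' → k = k' := by
    intro a k k' hk hk'
    have h1 : (k : ℝ≥0∞) < k' + 1 := lt_of_le_of_lt hk.1 hk'.2
    have h2 : (k' : ℝ≥0∞) < k + 1 := lt_of_le_of_lt hk'.1 hk.2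
    have h3 : k < k' + 1 := by exact_mod_cast h1
    have h4 : k' < k + 1 := by exact_mod_cast h2
    omega
  have hex : ∀ a, ∃ k, a ∈ S k := by
    intro a
    have h1 : η a univ = ENNReal.ofReal (η a univ).toReal := (ENNReal.ofReal_toReal (h a).ne).symm
    have h0 : 0 ≤ (η a univ).toReal := ENNReal.toReal_nonneg
    refine ⟨⌊(η a univ).toReal⌋₊, ?_, ?_⟩
    · rw [h1, ← ENNReal.ofReal_natCast, ENNReal.toReal_ofReal h0]
      exact ENNReal.ofReal_le_ofReal (Nat.floor_le h0)
    · have h2 : ((⌊(η a univ).toReal⌋₊ : ℝ≥0∞)) + 1 = ENNReal.ofReal ((⌊(η a univ).toReal⌋₊ : ℝ) + 1) := by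
        rw [ENNReal.ofReal_add (by positivity) zero_le_one, ENNReal.ofReal_natCast, ENNReal.ofReal_one]
      rw [h2]
      conv_lhs => rw [h1]
      exact (ENNReal.ofReal_lt_ofReal_iff (by positivity)).2 (Nat.lt_floor_add_one _)
  let κs : ℕ → Kernel α β := fun k => Kernel.piecewise (hS k) η 0
  have hfin : ∀ k, IsFiniteKernel (κs k) := by
    intro k
    refine ⟨⟨(k : ℝ≥0∞) + 1, by simp, fun a => ?_⟩⟩
    by_cases ha : a ∈ S k
    · have h1 : κs k a = η a := by
        simp only [κs, Kernel.piecewise_apply, if_pos ha]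
      rw [h1]
      exact ha.2.le
    · have h1 : κs k a = 0 := by
        simp only [κs, Kernel.piecewise_apply, if_neg ha]
        rfl
      rw [h1]
      simp
  have hsum : η = Kernel.sum κs := by
    ext1 a
    obtain ⟨k, hk⟩ := hex a
    ext s hs
    rw [Kernel.sum_apply, Measure.sum_apply _ hs, tsum_eq_single k]
    · simp only [κs, Kernel.piecewise_apply, if_pos hk]
    · intro k' hk'
      have h1 : a ∉ S k' := fun h2 => hk' (huniq a k' k h2 hk)
      simp only [κs, Kernel.piecewise_apply, if_neg h1]
      simp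
  rw [hsum]
  have hfin' : ∀ k, IsSFiniteKernel (κs k) := fun k => by
    have := hfin k
    infer_instance
  exact Kernel.isSFiniteKernel_sum

/-- a kernel on the line with values finite on compact sets is s-finite -/
theorem sfin {α : Type} [MeasurableSpace α] (η : Kernel α ℝ) (h : ∀ a, IsFiniteMeasureOnCompacts (η a)) :
    IsSFiniteKernel η := by
  have hsum : η = Kernel.sum fun j : ℤ => η.restrict (measurableSet_Ico (a := (j : ℝ)) (b := (j : ℝ) + 1)) := by
    ext1 a
    rw [Kernel.sum_apply]
    simp only [Kernel.restrict_apply]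
    rw [← Measure.restrict_iUnion (pairwise_disjoint_Ico_intCast ℝ) fun _ => measurableSet_Ico,
      iUnion_Ico_intCast, Measure.restrict_univ]
  rw [hsum]
  have hfin' : ∀ j : ℤ, IsSFiniteKernel
      (η.restrict (measurableSet_Ico (a := (j : ℝ)) (b := (j : ℝ) + 1))) := by
    intro j
    refine sfin_of_fin _ fun a => ?_
    rw [Kernel.restrict_apply, Measure.restrict_apply MeasurableSet.univ, univ_inter]
    have := h a
    exact lt_of_le_of_lt (measure_mono Ico_subset_Icc_self) isCompact_Icc.measure_lt_top
  exact Kernel.isSFiniteKernel_sum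

end ASfM

theorem stmtASf : StmtASf := by
  intro α _ κ hκ hfin
  let K : Kernel α ℝ := ⟨κ, hκ⟩
  have hK : ∀ a, K a = κ a := fun a => rfl
  have : IsSFiniteKernel K := ASfM.sfin K fun a => by rw [hK]; exact hfin a
  refine ⟨⟨K, inferInstance, hK⟩, fun E hE => ?_, fun F hF => ?_⟩
  · exact Kernel.measurable_kernel_prodMk_left (κ := K) hE
  · exact Measurable.lintegral_kernel_prod_right' (κ := K) hF

end

end Pool.Agent.A54.QE
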