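import Pool.Agent.Lib.QE.SpecA

/-!
# Package `QE`, module ASu: support of the leaf measures (helper33)
-/

set_option autoImplicit false

namespace Pool.Agent.A54.QE

open MeasureTheory Filter Topology Set
open scoped ContDiff ComplexConjugate UpperHalfPlane MatrixGroups ENNReal
open Pool.Agent.A54.Dyn (G fl base ze io mk4 Inv)

noncomputable section

namespace ASuM

/-- The complement of the support is a null set. -/
theorem supp_null (m : Measure ℝ) (r : ℝ) (hr : 0 < r) :
    m {x | m (Ioo (x - r) (x + r)) = 0} = 0 := by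
  refine measure_null_of_locally_null _ fun x hx => ?_
  refine ⟨Ioo (x - r) (x + r), mem_nhdsWithin_of_mem_nhds ?_, hx⟩
  exact Ioo_mem_nhds (by linarith) (by linarith)

theorem tr_Ioo {μ : Measure G} {lf : G → Measure ℝ} (h : LS μ lf) (g : G) (x r : ℝ) :
    lf (g * un x) (Ioo (-r) r) = lf g (Ioo (x - r) (x + r)) := by
  have hm : Measurable fun y : ℝ => y - x := measurable_id.sub_const x
  rw [h.tr g x, Measure.map_apply hm measurableSet_Ioo]
  congr 1
  ext y
  simp only [mem_preimage, mem_Ioo]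
  constructor
  · rintro ⟨h1, h2⟩
    exact ⟨by linarith, by linarith⟩
  · rintro ⟨h1, h2⟩
    exact ⟨by linarith, by linarith⟩

theorem null_r {μ : Measure G} {lf : G → Measure ℝ} (h : LS μ lf) (r : ℝ) (hr : 0 < r) :
    μ {g | lf g (Ioo (-r) r) = 0} = 0 := by
  have hm : Measurable fun g => lf g (Ioo (-r) r) :=
    (Measure.measurable_coe measurableSet_Ioo).comp h.meas
  have hE : MeasurableSet {g | lf g (Ioo (-r) r) = 0} := hm (measurableSet_singleton 0)
  obtain ⟨θ, _, _, hd⟩ := h.dis
  have h1 := hd ({g | lf g (Ioo (-r) r) = 0}.indicator 1) (measurable_one.indicator hE)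
  rw [lintegral_indicator_one hE] at h1
  rw [h1]
  have h2 : ∀ v : ℝ × ℝ, ∫⁻ x, ({g | lf g (Ioo (-r) r) = 0}.indicator (1 : G → ℝ≥0∞))
      (sc v * un x) ∂(lf (sc v)) = 0 := by
    intro v
    have h3 : ∀ᵐ x ∂(lf (sc v)), ({g | lf g (Ioo (-r) r) = 0}.indicator (1 : G → ℝ≥0∞))
        (sc v * un x) = 0 := by
      have h4 := supp_null (lf (sc v)) r hr
      have h5 : ∀ᵐ x ∂(lf (sc v)), ¬ (lf (sc v) (Ioo (x - r) (x + r)) = 0) := by
        rw [ae_iff]
        simpa using h4
      filter_upwards [h5] with x hx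
      refine indicator_of_notMem ?_ _
      intro hx'
      apply hx
      rw [← tr_Ioo h]
      exact hx'
    rw [lintegral_congr_ae h3]
    exact lintegral_zero
  rw [lintegral_congr h2]
  exact lintegral_zero

end ASuM

open ASuM in
/-- SUPPORT. -/
theorem stmtASu (_hACr : StmtACr) (_hASf : StmtASf) : StmtASu := by
  intro μ lf h
  have h1 : ∀ n : ℕ, ∀ᵐ g ∂μ, lf g (Ioo (-(1 / ((n : ℝ) + 1))) (1 / ((n : ℝ) + 1))) ≠ 0 := by
    intro n
    have h2 := null_r h (1 / ((n : ℝ) + 1)) (by positivity)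
    rw [ae_iff]
    simpa using h2
  rw [← ae_all_iff] at h1
  filter_upwards [h1] with g hg
  intro r hr
  obtain ⟨n, hn⟩ := exists_nat_one_div_lt hr
  refine lt_of_lt_of_le (pos_iff_ne_zero.2 (hg n)) (measure_mono ?_)
  exact Ioo_subset_Ioo (by linarith) hn.le

end

end Pool.Agent.A54.QE
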