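import Pool.Agent.Lib.QE.SpecA

/-!
# Module `AUn`: uniqueness of leaf measures
-/

set_option autoImplicit false

namespace Pool.Agent.A54.QE

open MeasureTheory Filter Topology Set
open scoped ENNReal NNReal
open Pool.Agent.A54.Dyn (G fl base ze io mk4 Inv)

noncomputable section

namespace AUnM

/-- mass of the weighted leaf measure -/
def Am (w : G → ℝ≥0) (lf : G → Measure ℝ) (T : Set ℝ) (v : ℝ × ℝ) : ℝ≥0∞ :=
  ∫⁻ x in T, (w (sc v * un x) : ℝ≥0∞) ∂(lf (sc v))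

lemma mleaf (hC : Crd) {w : G → ℝ≥0} (hw : Measurable w) (v : ℝ × ℝ) :
    Measurable fun x : ℝ => (w (sc v * un x) : ℝ≥0∞) := by
  have h0 : Measurable fun x : ℝ => (v, x) := measurable_prodMk_left
  have h1 := hC.meas.comp h0
  have h2 := measurable_coe_nnreal_ennreal.comp (hw.comp h1)
  exact h2

lemma mAm (hC : Crd) (hS : StmtASf) {w : G → ℝ≥0} (hw : Measurable w) {lf : G → Measure ℝ}
    (hm : Measurable lf) (hf : ∀ g, IsFiniteMeasureOnCompacts (lf g)) {T : Set ℝ}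
    (hT : MeasurableSet T) : Measurable (Am w lf T) := by
  have h := (hS (ℝ × ℝ) inferInstance (fun v => lf (sc v)) (hm.comp hC.msc)
    (fun v => hf (sc v))).2.2
    (fun p => (Prod.snd ⁻¹' T).indicator (fun p : (ℝ × ℝ) × ℝ => (w (sc p.1 * un p.2) : ℝ≥0∞)) p)
    ((measurable_coe_nnreal_ennreal.comp (hw.comp hC.meas)).indicator (measurable_snd hT))
  have h2 : Am w lf T = fun v => ∫⁻ x, (Prod.snd ⁻¹' T).indicator
      (fun p : (ℝ × ℝ) × ℝ => (w (sc p.1 * un p.2) : ℝ≥0∞)) (v, x) ∂(lf (sc v)) := by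
    funext v
    unfold Am
    rw [← lintegral_indicator hT]
    refine lintegral_congr fun x => ?_
    by_cases hx : x ∈ T
    · rw [indicator_of_mem hx, indicator_of_mem (by exact hx)]
    · rw [indicator_of_notMem hx, indicator_of_notMem (by exact hx)]
  rw [h2]
  exact h

/-- the formula of the disintegration -/
def Dis (μ : Measure G) (lf : G → Measure ℝ) (θ : Measure (ℝ × ℝ)) : Prop :=
  θ {0} = 0 ∧ ∀ F : G → ℝ≥0∞, Measurable F →
    ∫⁻ g, F g ∂μ = ∫⁻ v, ∫⁻ x, F (sc v * un x) ∂(lf (sc v)) ∂θ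

lemma ne0 {θ : Measure (ℝ × ℝ)} (h : θ {0} = 0) : ∀ᵐ v ∂θ, v ≠ 0 := by
  rw [ae_iff]
  have h2 : {a : ℝ × ℝ | ¬a ≠ 0} = {0} := by
    ext a; simp
  rw [h2]
  exact h

lemma dis_set (hC : Crd) {μ : Measure G} {lf : G → Measure ℝ} {θ : Measure (ℝ × ℝ)}
    (hD : Dis μ lf θ) {w : G → ℝ≥0} (hw : Measurable w) {S : Set (ℝ × ℝ)}
    (hS : MeasurableSet S) {T : Set ℝ} (hT : MeasurableSet T) :
    ∫⁻ g in vc ⁻¹' S ∩ uc ⁻¹' T, (w g : ℝ≥0∞) ∂μ = ∫⁻ v in S, Am w lf T v ∂θ := by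
  have hST : MeasurableSet (vc ⁻¹' S ∩ uc ⁻¹' T) := (hC.mvc hS).inter (hC.muc hT)
  have hwm : Measurable fun g => (w g : ℝ≥0∞) := measurable_coe_nnreal_ennreal.comp hw
  rw [← lintegral_indicator hST, ← lintegral_indicator hS, hD.2 _ (hwm.indicator hST)]
  refine lintegral_congr_ae ?_
  filter_upwards [ne0 hD.1] with v hv
  have e1 : ∀ x : ℝ, vc (sc v * un x) = v := fun x => by rw [hC.vun, hC.vsc v hv]
  have e2 : ∀ x : ℝ, uc (sc v * un x) = x := fun x => by rw [hC.uun, hC.usc v hv, zero_add]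
  by_cases hvS : v ∈ S
  · rw [indicator_of_mem hvS]
    unfold Am
    rw [← lintegral_indicator hT]
    refine lintegral_congr fun x => ?_
    by_cases hx : x ∈ T
    · have h3 : sc v * un x ∈ vc ⁻¹' S ∩ uc ⁻¹' T := by
        refine ⟨?_, ?_⟩
        · show vc (sc v * un x) ∈ S
          rw [e1]; exact hvS
        · show uc (sc v * un x) ∈ T
          rw [e2]; exact hx
      rw [indicator_of_mem hx, indicator_of_mem h3]
    · have h3 : sc v * un x ∉ vc ⁻¹' S ∩ uc ⁻¹' T := by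
        rintro ⟨_, h4⟩
        have h5 : uc (sc v * un x) ∈ T := h4
        rw [e2] at h5
        exact hx h5
      rw [indicator_of_notMem hx, indicator_of_notMem h3]
  · rw [indicator_of_notMem hvS]
    rw [lintegral_congr (g := fun _ => 0)]
    · simp
    · intro x
      have h3 : sc v * un x ∉ vc ⁻¹' S ∩ uc ⁻¹' T := by
        rintro ⟨h4, _⟩
        have h5 : vc (sc v * un x) ∈ S := h4
        rw [e1] at h5
        exact hvS h5
      rw [indicator_of_notMem h3]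

lemma push0 (hC : Crd) {μ : Measure G} {lf : G → Measure ℝ} {θ : Measure (ℝ × ℝ)}
    (hD : Dis μ lf θ) {Z : Set (ℝ × ℝ)} (hZ : MeasurableSet Z)
    (h : ∀ᵐ v ∂θ, v ∈ Z → lf (sc v) = 0) : μ (vc ⁻¹' Z) = 0 := by
  have hV : MeasurableSet (vc ⁻¹' Z) := hC.mvc hZ
  rw [← lintegral_indicator_one hV, hD.2 _ (measurable_one.indicator hV)]
  rw [lintegral_congr_ae (g := fun _ => 0)]
  · simp
  · filter_upwards [ne0 hD.1, h] with v hv hv2
    by_cases hz : v ∈ Z
    · rw [hv2 hz]; simp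
    · rw [lintegral_congr (g := fun _ => 0)]
      · simp
      · intro x
        have h3 : sc v * un x ∉ vc ⁻¹' Z := by
          intro h4
          have h5 : vc (sc v * un x) ∈ Z := h4
          rw [hC.vun, hC.vsc v hv] at h5
          exact hz h5
        rw [indicator_of_notMem h3]

lemma push (hC : Crd) {μ : Measure G} {lf : G → Measure ℝ} {θ : Measure (ℝ × ℝ)}
    (hD : Dis μ lf θ) {P : ℝ × ℝ → Prop} (h : ∀ᵐ v ∂θ, P v) : ∀ᵐ g ∂μ, P (vc g) := by
  rw [ae_iff] at h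
  obtain ⟨Z, hZ1, hZ2, hZ3⟩ := exists_measurable_superset_of_null h
  have h1 : μ (vc ⁻¹' Z) = 0 := by
    refine push0 hC hD hZ2 ?_
    have h2 : ∀ᵐ v ∂θ, v ∉ Z := measure_eq_zero_iff_ae_notMem.1 hZ3
    filter_upwards [h2] with v hv hv2
    exact absurd hv2 hv
  rw [ae_iff]
  refine measure_mono_null (fun g hg => ?_) h1
  exact hZ1 hg

lemma nonz (hC : Crd) {μ : Measure G} {lf : G → Measure ℝ} {θ : Measure (ℝ × ℝ)}
    (hD : Dis μ lf θ) (hm : Measurable lf) : ∀ᵐ g ∂μ, lf (sc (vc g)) ≠ 0 := by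
  have hZ : MeasurableSet {v : ℝ × ℝ | lf (sc v) univ = 0} :=
    (((Measure.measurable_coe MeasurableSet.univ).comp (hm.comp hC.msc))
      (measurableSet_singleton 0))
  have h1 := push0 hC hD hZ (Eventually.of_forall fun v hv => by
    exact Measure.measure_univ_eq_zero.1 hv)
  rw [ae_iff]
  refine measure_mono_null (fun g hg => ?_) h1
  show lf (sc (vc g)) univ = 0
  have h2 : lf (sc (vc g)) = 0 := by
    by_contra h3
    exact hg h3
  rw [h2]; simp

lemma pos_of {m : Measure ℝ} {f : ℝ → ℝ≥0∞} (hf : Measurable f) (hf0 : ∀ x, f x ≠ 0)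
    (hm : m ≠ 0) : ∫⁻ x, f x ∂m ≠ 0 := by
  intro h
  rw [lintegral_eq_zero_iff hf] at h
  apply hm
  rw [← ae_eq_bot, ← eventually_false_iff_eq_bot]
  filter_upwards [h] with x hx
  exact hf0 x hx

lemma point {m m' : Measure ℝ} {f : ℝ → ℝ≥0∞} (hf : Measurable f) (hf0 : ∀ x, f x ≠ 0)
    (hft : ∀ x, f x ≠ ⊤) (ha : ∫⁻ x, f x ∂m ≠ ⊤) (ha' : ∫⁻ x, f x ∂m' ≠ ⊤) (hm : m ≠ 0)
    (hm' : m' ≠ 0) (h : ∀ a b : ℚ, (∫⁻ x, f x ∂m') * ∫⁻ x in Ioo (a : ℝ) b, f x ∂m
      = (∫⁻ x, f x ∂m) * ∫⁻ x in Ioo (a : ℝ) b, f x ∂m') : Pr m m' := by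
  set A := ∫⁻ x, f x ∂m with hA
  set A' := ∫⁻ x, f x ∂m' with hA'
  have hA0 : A ≠ 0 := pos_of hf hf0 hm
  have hA0' : A' ≠ 0 := pos_of hf hf0 hm'
  have e1 : A' • m.withDensity f = A • m'.withDensity f := by
    have : IsFiniteMeasure (A' • m.withDensity f) := by
      refine ⟨?_⟩
      rw [Measure.smul_apply, withDensity_apply _ MeasurableSet.univ, Measure.restrict_univ,
        smul_eq_mul]
      exact ENNReal.mul_lt_top (lt_top_iff_ne_top.2 ha') (lt_top_iff_ne_top.2 ha)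
    apply Real.measure_ext_Ioo_rat
    intro a b
    rw [Measure.smul_apply, Measure.smul_apply, withDensity_apply _ measurableSet_Ioo,
      withDensity_apply _ measurableSet_Ioo, smul_eq_mul, smul_eq_mul]
    exact h a b
  have e2 : m.withDensity f = (A'⁻¹ * A) • m'.withDensity f := by
    rw [← smul_smul, ← e1, smul_smul, ENNReal.inv_mul_cancel hA0' ha', one_smul]
  refine ⟨A'⁻¹ * A, mul_ne_zero (ENNReal.inv_ne_zero.2 ha') hA0,
    ENNReal.mul_ne_top (ENNReal.inv_ne_top.2 hA0') ha, ?_⟩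
  have e3 : (m.withDensity f).withDensity (fun x => (f x)⁻¹) = m :=
    withDensity_inv_same hf (Eventually.of_forall hf0) (Eventually.of_forall hft)
  have e4 : (m'.withDensity f).withDensity (fun x => (f x)⁻¹) = m' :=
    withDensity_inv_same hf (Eventually.of_forall hf0) (Eventually.of_forall hft)
  calc m = (m.withDensity f).withDensity (fun x => (f x)⁻¹) := e3.symm
    _ = ((A'⁻¹ * A) • m'.withDensity f).withDensity (fun x => (f x)⁻¹) := by rw [e2]
    _ = (A'⁻¹ * A) • (m'.withDensity f).withDensity (fun x => (f x)⁻¹) := by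
        rw [withDensity_smul_measure]
    _ = (A'⁻¹ * A) • m' := by rw [e4]

lemma wd_eq (hC : Crd) {μ : Measure G} {lf lf' : G → Measure ℝ}
    {θ θ' : Measure (ℝ × ℝ)} (hD : Dis μ lf θ) (hD' : Dis μ lf' θ') {w : G → ℝ≥0}
    (hw : Measurable w) {T : Set ℝ} (hT : MeasurableSet T) :
    θ.withDensity (Am w lf T) = θ'.withDensity (Am w lf' T) := by
  ext S hS
  rw [withDensity_apply _ hS, withDensity_apply _ hS, ← dis_set hC hD hw hS hT,
    ← dis_set hC hD' hw hS hT]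

lemma prop_ae (hC : Crd) (hSf : StmtASf) {μ : Measure G} {lf lf' : G → Measure ℝ}
    {θ θ' : Measure (ℝ × ℝ)} [SigmaFinite θ] (hD : Dis μ lf θ) (hD' : Dis μ lf' θ')
    {w : G → ℝ≥0} (hw : Measurable w) (hm : Measurable lf)
    (hf : ∀ g, IsFiniteMeasureOnCompacts (lf g)) (hm' : Measurable lf')
    (hf' : ∀ g, IsFiniteMeasureOnCompacts (lf' g)) {T : Set ℝ} (hT : MeasurableSet T) :
    ∀ᵐ v ∂θ, Am w lf' univ v * Am w lf T v = Am w lf univ v * Am w lf' T v := by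
  have m1 := mAm hC hSf hw hm hf hT
  have m2 := mAm hC hSf hw hm' hf' hT
  have m3 := mAm hC hSf hw hm hf MeasurableSet.univ
  have m4 := mAm hC hSf hw hm' hf' MeasurableSet.univ
  refine ae_eq_of_forall_setLIntegral_eq_of_sigmaFinite (m4.mul m1) (m3.mul m2)
    (fun S hS _ => ?_)
  have k1 : ∫⁻ v in S, Am w lf' univ v * Am w lf T v ∂θ
      = ∫⁻ v in S, Am w lf' univ v ∂(θ.withDensity (Am w lf T)) := by
    rw [setLIntegral_withDensity_eq_setLIntegral_mul _ m1 m4 hS]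
    refine lintegral_congr fun v => ?_
    rw [Pi.mul_apply, mul_comm]
  have k2 : ∫⁻ v in S, Am w lf' univ v ∂(θ'.withDensity (Am w lf' T))
      = ∫⁻ v in S, Am w lf' T v ∂(θ'.withDensity (Am w lf' univ)) := by
    rw [setLIntegral_withDensity_eq_setLIntegral_mul _ m2 m4 hS,
      setLIntegral_withDensity_eq_setLIntegral_mul _ m4 m2 hS]
    refine lintegral_congr fun v => ?_
    rw [Pi.mul_apply, Pi.mul_apply, mul_comm]
  have k3 : ∫⁻ v in S, Am w lf univ v * Am w lf' T v ∂θ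
      = ∫⁻ v in S, Am w lf' T v ∂(θ.withDensity (Am w lf univ)) := by
    rw [setLIntegral_withDensity_eq_setLIntegral_mul _ m3 m2 hS]
    refine lintegral_congr fun v => ?_
    rw [Pi.mul_apply]
  rw [k1, k3, wd_eq hC hD hD' hw hT, wd_eq hC hD hD' hw MeasurableSet.univ, k2]

lemma fin_ae (hC : Crd) {μ : Measure G} {lf : G → Measure ℝ} {θ : Measure (ℝ × ℝ)}
    (hSf : StmtASf) (hD : Dis μ lf θ) {w : G → ℝ≥0} (hw : Measurable w) (hm : Measurable lf)
    (hf : ∀ g, IsFiniteMeasureOnCompacts (lf g)) (h : ∫⁻ g, (w g : ℝ≥0∞) ∂μ ≠ ⊤) :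
    ∀ᵐ v ∂θ, Am w lf univ v ≠ ⊤ := by
  have h1 := dis_set hC hD hw MeasurableSet.univ (T := univ) MeasurableSet.univ
  simp only [preimage_univ, inter_univ, Measure.restrict_univ] at h1
  have h2 : ∫⁻ v, Am w lf univ v ∂θ ≠ ⊤ := by rw [← h1]; exact h
  filter_upwards [ae_lt_top (mAm hC hSf hw hm hf MeasurableSet.univ) h2] with v hv
  exact hv.ne

end AUnM

open AUnM in
/-- (AUn) uniqueness of leaf measures -/
theorem stmtAUn (hACr : StmtACr) (hASf : StmtASf) : StmtAUn := by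
  intro μ lf lf' hμ hL hL'
  have hC : Crd := hACr
  obtain ⟨θ, hθ, h0, hd⟩ := hL.dis
  obtain ⟨θ', hθ', h0', hd'⟩ := hL'.dis
  have hD : Dis μ lf θ := ⟨h0, hd⟩
  have hD' : Dis μ lf' θ' := ⟨h0', hd'⟩
  obtain ⟨w, hw0, hw, hwi⟩ := exists_pos_lintegral_lt_of_sigmaFinite μ one_ne_zero
  have hwt : ∫⁻ g, (w g : ℝ≥0∞) ∂μ ≠ ⊤ := (hwi.trans ENNReal.one_lt_top).ne
  have a1 := push hC hD (fin_ae hC hASf hD hw hL.meas hL.fin hwt)
  have a2 := push hC hD' (fin_ae hC hASf hD' hw hL'.meas hL'.fin hwt)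
  have a3 := push hC hD (ae_all_iff.2 fun a : ℚ => ae_all_iff.2 fun b : ℚ =>
    prop_ae hC hASf hD hD' hw hL.meas hL.fin hL'.meas hL'.fin
      (measurableSet_Ioo (a := (a : ℝ)) (b := (b : ℝ))))
  filter_upwards [a1, a2, a3, nonz hC hD hL.meas, nonz hC hD' hL'.meas] with g g1 g2 g3 g4 g5
  have hP : Pr (lf (sc (vc g))) (lf' (sc (vc g))) := by
    refine point (f := fun x => (w (sc (vc g) * un x) : ℝ≥0∞)) ?_ ?_ ?_ ?_ ?_ g4 g5 ?_
    · exact mleaf hC hw (vc g)
    · intro x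
      exact ENNReal.coe_ne_zero.2 (hw0 _).ne'
    · intro x
      exact ENNReal.coe_ne_top
    · have := g1
      unfold Am at this
      rwa [Measure.restrict_univ] at this
    · have := g2
      unfold Am at this
      rwa [Measure.restrict_univ] at this
    · intro a b
      have := g3 a b
      unfold Am at this
      rwa [Measure.restrict_univ, Measure.restrict_univ] at this
  obtain ⟨c, c0, ct, hc⟩ := hP
  refine ⟨c, c0, ct, ?_⟩
  have e := hC.eq g
  have t1 := hL.tr (sc (vc g)) (uc g)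
  have t2 := hL'.tr (sc (vc g)) (uc g)
  rw [e] at t1 t2
  rw [t1, t2, hc, Measure.map_smul]

end

end Pool.Agent.A54.QE
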