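import Pool.Agent.Lib.QE.SpecW

/-!
Package `QE`, module `WDi`: distortion of the norm.
-/

set_option autoImplicit false

namespace Pool.Agent.A54.QE

open MeasureTheory Filter Topology Set
open scoped ContDiff ComplexConjugate UpperHalfPlane MatrixGroups ENNReal
open Pool.Agent.A54.Dyn (G fl base ze io mk4 Inv)

namespace WDiM

lemma two_le (g : G) : 2 ≤ nsq g := by
  have h := Dyn.det_eq g
  unfold nsq
  nlinarith [sq_nonneg (g 0 0 - g 1 1), sq_nonneg (g 0 1 + g 1 0)]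

lemma pos (g : G) : 0 < nsq g := lt_of_lt_of_le two_pos (two_le g)

lemma mul_le (g h : G) : nsq (g * h) ≤ nsq g * nsq h := by
  unfold nsq
  rw [Dyn.mul_00, Dyn.mul_01, Dyn.mul_10, Dyn.mul_11]
  nlinarith [sq_nonneg (g 0 0 * h 1 0 - g 0 1 * h 0 0), sq_nonneg (g 0 0 * h 1 1 - g 0 1 * h 0 1),
    sq_nonneg (g 1 0 * h 1 0 - g 1 1 * h 0 0), sq_nonneg (g 1 0 * h 1 1 - g 1 1 * h 0 1)]

lemma inv (g : G) : nsq g⁻¹ = nsq g := by
  unfold nsq
  rw [Dyn.inv_00, Dyn.inv_01, Dyn.inv_10, Dyn.inv_11]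
  ring

lemma un_le (g : G) (u : ℝ) : nsq (g * un u) ≤ (1 + |u|) ^ 2 * nsq g := by
  unfold nsq
  rw [Dyn.mul_00, Dyn.mul_01, Dyn.mul_10, Dyn.mul_11]
  have e00 : un u 0 0 = 1 := rfl
  have e01 : un u 0 1 = u := rfl
  have e10 : un u 1 0 = 0 := rfl
  have e11 : un u 1 1 = 1 := rfl
  rw [e00, e01, e10, e11]
  generalize g 0 0 = a
  generalize g 0 1 = b
  generalize g 1 0 = c
  generalize g 1 1 = d
  have h1 : |a * b + c * d| ≤ (a ^ 2 + b ^ 2 + c ^ 2 + d ^ 2) / 2 := by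
    rw [abs_le]
    constructor
    · nlinarith [sq_nonneg (a + b), sq_nonneg (c + d)]
    · nlinarith [sq_nonneg (a - b), sq_nonneg (c - d)]
  have h2 : u * (a * b + c * d) ≤ |u| * ((a ^ 2 + b ^ 2 + c ^ 2 + d ^ 2) / 2) := by
    calc u * (a * b + c * d) ≤ |u * (a * b + c * d)| := le_abs_self _
      _ = |u| * |a * b + c * d| := abs_mul _ _
      _ ≤ _ := mul_le_mul_of_nonneg_left h1 (abs_nonneg _)
  have h3 : u ^ 2 = |u| ^ 2 := (sq_abs u).symm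
  have h4 : 0 ≤ |u| * (a ^ 2 + b ^ 2 + c ^ 2 + d ^ 2) := by positivity
  have h5 : 0 ≤ |u| ^ 2 * (b ^ 2 + d ^ 2) := by positivity
  have h6 : (a * 1 + b * 0) ^ 2 + (a * u + b * 1) ^ 2 + (c * 1 + d * 0) ^ 2 + (c * u + d * 1) ^ 2 =
      (a ^ 2 + b ^ 2 + c ^ 2 + d ^ 2) + u ^ 2 * (a ^ 2 + c ^ 2) + 2 * (u * (a * b + c * d)) := by
    ring
  rw [h6, h3]
  nlinarith

lemma un_neg (g : G) (u : ℝ) : g * un u * un (-u) = g := by
  rw [mul_assoc]
  have : un u * un (-u) = 1 := by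
    apply Dyn.G_ext
    · rw [Dyn.mul_00]; simp [un, Dyn.mk4_00, Dyn.mk4_01, Dyn.mk4_10]
    · rw [Dyn.mul_01]; simp [un, Dyn.mk4_00, Dyn.mk4_01, Dyn.mk4_11]
    · rw [Dyn.mul_10]; simp [un, Dyn.mk4_00, Dyn.mk4_10, Dyn.mk4_11]
    · rw [Dyn.mul_11]; simp [un, Dyn.mk4_01, Dyn.mk4_10, Dyn.mk4_11]
  rw [this, mul_one]

lemma cont : Continuous nsq := by
  unfold nsq
  exact ((((Dyn.continuous_entry 0 0).pow 2).add ((Dyn.continuous_entry 0 1).pow 2)).add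
    ((Dyn.continuous_entry 1 0).pow 2)).add ((Dyn.continuous_entry 1 1).pow 2)

lemma contq : Continuous qq := by
  unfold qq
  exact (cont.pow 4).inv₀ fun g => (pow_pos (pos g) 4).ne'

lemma posq (g : G) : 0 < qq g := inv_pos.mpr (pow_pos (pos g) 4)

lemma qq_le {g h : G} {C : ℝ} (hC : 0 ≤ C) (H : nsq g ≤ C * nsq h) : qq h ≤ C ^ 4 * qq g := by
  unfold qq
  have h1 : nsq g ^ 4 ≤ C ^ 4 * nsq h ^ 4 := by
    rw [← mul_pow]
    exact pow_le_pow_left₀ (pos g).le H 4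
  have p1 : 0 < nsq g ^ 4 := pow_pos (pos g) 4
  have p2 : 0 < nsq h ^ 4 := pow_pos (pos h) 4
  rw [inv_eq_one_div, div_le_iff₀ p2, mul_assoc, mul_comm ((nsq g ^ 4)⁻¹), ← mul_assoc,
    ← div_eq_mul_inv, le_div_iff₀ p1, one_mul]
  exact h1

end WDiM

theorem stmtWDi : StmtWDi := by
  refine ⟨WDiM.two_le, WDiM.mul_le, WDiM.inv, WDiM.un_le, WDiM.cont, WDiM.contq, WDiM.posq, ?_, ?_⟩
  · intro g h
    refine WDiM.qq_le (WDiM.pos h).le ?_
    have h1 := WDiM.mul_le h⁻¹ (h * g)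
    rwa [inv_mul_cancel_left, WDiM.inv] at h1
  · intro g u
    have h1 := WDiM.un_le (g * un u) (-u)
    rw [WDiM.un_neg, abs_neg] at h1
    have h2 := WDiM.qq_le (by positivity) h1
    rwa [← pow_mul] at h2

end Pool.Agent.A54.QE
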