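import Pool.Agent.Lib.QE.SpecW

/-!
# Package `QE`, block W: finiteness of the weighted measure
-/

set_option autoImplicit false

namespace Pool.Agent.A54.QE

open MeasureTheory Filter Topology Set
open scoped ContDiff ComplexConjugate UpperHalfPlane MatrixGroups ENNReal
open Pool.Agent.A54.Dyn (G fl base ze io mk4 Inv)

noncomputable section

namespace WFiM

lemma base_io_mul (γ : SL(2, ℤ)) (v : G) : base (io γ * v) = γ • base v := by
  rw [Dyn.base_mul]
  rfl

lemma meas_left (h : G) : Measurable fun g : G => h * g :=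
  (continuous_const.mul continuous_id).measurable

lemma io_inv_mul (γ : SL(2, ℤ)) (g : G) : io γ⁻¹ * (io γ * g) = g := by
  have h : io γ⁻¹ * io γ = 1 := by
    unfold Dyn.io
    rw [← map_mul, inv_mul_cancel, map_one]
  rw [← mul_assoc, h, one_mul]

lemma lint_left {μ : Measure G} (hμ : Inv μ) (γ : SL(2, ℤ)) {F : G → ℝ≥0∞} (hF : Measurable F) :
    ∫⁻ g, F (io γ * g) ∂μ = ∫⁻ g, F g ∂μ := by
  conv_rhs => rw [← hμ.left γ]
  rw [lintegral_map hF (meas_left _)]

instance instCount : Countable SL(2, ℤ) := by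
  unfold Matrix.SpecialLinearGroup Matrix
  infer_instance

lemma meas_fd : MeasurableSet (ModularGroup.fd : Set ℍ) := by
  have h1 : IsClosed {z : ℍ | 1 ≤ Complex.normSq (z : ℂ)} :=
    isClosed_le continuous_const (Complex.continuous_normSq.comp UpperHalfPlane.continuous_coe)
  have h2 : IsClosed {z : ℍ | |z.re| ≤ (1 : ℝ) / 2} :=
    isClosed_le (UpperHalfPlane.continuous_re.abs) continuous_const
  exact (h1.inter h2).measurableSet

end WFiM

open WFiM in
theorem stmtWFi (hWSm : StmtWSm) : StmtWFi := by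
  intro μ hμ
  obtain ⟨-, hc, -, -, hsum, -⟩ := hWSm
  have hw : Measurable fun g : G => ENNReal.ofReal (ch g) := hc.measurable.ennreal_ofReal
  have hB : MeasurableSet (base ⁻¹' (ModularGroup.fd : Set ℍ)) := Dyn.measurable_base meas_fd
  set B : Set G := base ⁻¹' (ModularGroup.fd : Set ℍ) with hBdef
  have hi : Measurable (B.indicator (1 : G → ℝ≥0∞)) := measurable_one.indicator hB
  have h1 : ∀ g : G, ENNReal.ofReal (ch g) ≤
      ∑' γ : SL(2, ℤ), ENNReal.ofReal (ch g) * B.indicator (1 : G → ℝ≥0∞) (io γ * g) := by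
    intro g
    obtain ⟨γ, hγ⟩ := ModularGroup.exists_smul_mem_fd (base g)
    refine le_trans ?_ (ENNReal.le_tsum γ)
    have h2 : io γ * g ∈ B := by
      rw [hBdef, mem_preimage, base_io_mul]
      exact hγ
    rw [indicator_of_mem h2, Pi.one_apply, mul_one]
  have h3 : ∀ γ : SL(2, ℤ),
      ∫⁻ g, ENNReal.ofReal (ch g) * B.indicator (1 : G → ℝ≥0∞) (io γ * g) ∂μ =
      ∫⁻ g, ENNReal.ofReal (ch (io γ⁻¹ * g)) * B.indicator (1 : G → ℝ≥0∞) g ∂μ := by
    intro γ
    have h4 : Measurable fun g : G =>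
        ENNReal.ofReal (ch (io γ⁻¹ * g)) * B.indicator (1 : G → ℝ≥0∞) g :=
      (hw.comp (meas_left _)).mul hi
    rw [← lint_left hμ γ h4]
    refine lintegral_congr fun g => ?_
    rw [io_inv_mul]
  have h5 : ∀ g : G, ∑' γ : SL(2, ℤ), ENNReal.ofReal (ch (io γ⁻¹ * g)) = 1 := by
    intro g
    rw [← hsum g]
    exact (Equiv.inv SL(2, ℤ)).tsum_eq fun γ => ENNReal.ofReal (ch (io γ * g))
  have h6 : ∫⁻ g, ENNReal.ofReal (ch g) ∂μ ≤ μ B := by
    calc ∫⁻ g, ENNReal.ofReal (ch g) ∂μ ≤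
        ∫⁻ g, ∑' γ : SL(2, ℤ), ENNReal.ofReal (ch g) *
          B.indicator (1 : G → ℝ≥0∞) (io γ * g) ∂μ := lintegral_mono h1
      _ = ∑' γ : SL(2, ℤ), ∫⁻ g, ENNReal.ofReal (ch g) *
          B.indicator (1 : G → ℝ≥0∞) (io γ * g) ∂μ :=
        lintegral_tsum fun γ => (hw.mul (hi.comp (meas_left _))).aemeasurable
      _ = ∑' γ : SL(2, ℤ), ∫⁻ g, ENNReal.ofReal (ch (io γ⁻¹ * g)) *
          B.indicator (1 : G → ℝ≥0∞) g ∂μ := tsum_congr h3
      _ = ∫⁻ g, ∑' γ : SL(2, ℤ), ENNReal.ofReal (ch (io γ⁻¹ * g)) *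
          B.indicator (1 : G → ℝ≥0∞) g ∂μ :=
        (lintegral_tsum fun γ => ((hw.comp (meas_left _)).mul hi).aemeasurable).symm
      _ = ∫⁻ g, B.indicator (1 : G → ℝ≥0∞) g ∂μ := by
        refine lintegral_congr fun g => ?_
        rw [ENNReal.tsum_mul_right, h5, one_mul]
      _ = μ B := by rw [lintegral_indicator_one hB]
  refine ⟨?_⟩
  unfold mX
  rw [withDensity_apply _ MeasurableSet.univ, Measure.restrict_univ]
  exact lt_of_le_of_lt h6 hμ.mass

end

end Pool.Agent.A54.QE
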