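import Pool.Agent.Lib.QE.SpecW

/-!
# Package `QE`, block W: all properties of the weights (structure `Wt`)
-/

set_option autoImplicit false

namespace Pool.Agent.A54.QE

open MeasureTheory Filter Topology Set
open scoped ContDiff ComplexConjugate UpperHalfPlane MatrixGroups ENNReal
open Pool.Agent.A54.Dyn (G fl base ze io mk4 Inv)

noncomputable section

namespace WFnM

lemma meas_right (t : ℝ) : Measurable fun g : G => g * fl t :=
  (continuous_id.mul continuous_const).measurable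

lemma meas_ch (hc : Continuous ch) : Measurable fun g : G => ENNReal.ofReal (ch g) :=
  hc.measurable.ennreal_ofReal

lemma lint_mX (hc : Continuous ch) (μ : Measure G) {F : G → ℝ≥0∞} (hF : Measurable F) :
    ∫⁻ g, F g ∂(mX μ) = ∫⁻ g, F g * ENNReal.ofReal (ch g) ∂μ := by
  unfold mX
  rw [lintegral_withDensity_eq_lintegral_mul μ (meas_ch hc) hF]
  refine lintegral_congr fun g => ?_
  rw [Pi.mul_apply, mul_comm]

lemma lint_right {μ : Measure G} (hμ : Inv μ) (t : ℝ) {F : G → ℝ≥0∞} (hF : Measurable F) :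
    ∫⁻ g, F (g * fl t) ∂μ = ∫⁻ g, F g ∂μ := by
  conv_rhs => rw [← hμ.right t]
  rw [lintegral_map hF (meas_right t)]

lemma mul_fl_cancel (g : G) (t : ℝ) : g * fl t * fl (-t) = g := by
  rw [mul_assoc, ← Dyn.fl_add, add_neg_cancel, Dyn.fl_zero, mul_one]

lemma unf (hWSm : StmtWSm) (hWUn : StmtWUn) (μ : Measure G) (hμ : Inv μ) (w : G → ℝ≥0∞)
    (hw : Measurable w) (hs : ∀ g, ∑' γ : SL(2, ℤ), w (io γ * g) = 1) (F : G → ℝ≥0∞)
    (hF : Measurable F) (hi : ∀ (γ : SL(2, ℤ)) (g : G), F (io γ * g) = F g) :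
    ∫⁻ g, F g * w g ∂μ = ∫⁻ g, F g ∂(mX μ) := by
  obtain ⟨-, hc, -, -, hsum, -⟩ := hWSm
  rw [lint_mX hc μ hF]
  exact hWUn μ hμ w (fun g => ENNReal.ofReal (ch g)) hw (meas_ch hc) hs hsum F hF hi

lemma flo (hWSm : StmtWSm) (hWUn : StmtWUn) (μ : Measure G) (hμ : Inv μ) (F : G → ℝ≥0∞)
    (hF : Measurable F) (hi : ∀ (γ : SL(2, ℤ)) (g : G), F (io γ * g) = F g) (t : ℝ) :
    ∫⁻ g, F (g * fl t) ∂(mX μ) = ∫⁻ g, F g ∂(mX μ) := by
  have hc : Continuous ch := hWSm.2.1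
  have hsum := hWSm.2.2.2.2.1
  have hw : Measurable fun g : G => ENNReal.ofReal (ch (g * fl (-t))) :=
    (meas_ch hc).comp (meas_right (-t))
  have hs : ∀ g, ∑' γ : SL(2, ℤ), ENNReal.ofReal (ch (io γ * g * fl (-t))) = 1 := by
    intro g
    rw [← hsum (g * fl (-t))]
    refine tsum_congr fun γ => ?_
    rw [mul_assoc]
  have hFt : Measurable fun g : G => F (g * fl t) := hF.comp (meas_right t)
  rw [lint_mX hc μ hF, lint_mX hc μ hFt]
  have h1 : ∫⁻ g, F (g * fl t) * ENNReal.ofReal (ch g) ∂μ =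
      ∫⁻ g, F g * ENNReal.ofReal (ch (g * fl (-t))) ∂μ := by
    have hm : Measurable fun g : G => F g * ENNReal.ofReal (ch (g * fl (-t))) := hF.mul hw
    rw [← lint_right hμ t hm]
    refine lintegral_congr fun g => ?_
    rw [mul_fl_cancel]
  rw [h1, ← lint_mX hc μ hF]
  exact unf hWSm hWUn μ hμ (fun g => ENNReal.ofReal (ch (g * fl (-t)))) hw hs F hF hi

lemma null (hc : Continuous ch) (hp : ∀ g, 0 < ch g) (μ : Measure G) (B : Set G) :
    mX μ B = 0 ↔ μ B = 0 := by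
  unfold mX
  rw [withDensity_apply_eq_zero (meas_ch hc)]
  have h : {x : G | ENNReal.ofReal (ch x) ≠ 0} ∩ B = B := by
    apply inter_eq_right.mpr
    intro x _
    exact (ENNReal.ofReal_pos.mpr (hp x)).ne'
  rw [h]

end WFnM

open WFnM in
theorem stmtWFn (hWSm : StmtWSm) (hWUn : StmtWUn) (hWFi : StmtWFi) : StmtWFn :=
  { cont := hWSm.2.1
    pos := hWSm.2.2.1
    le_one := hWSm.2.2.2.1
    sum := hWSm.2.2.2.2.1
    un := hWSm.2.2.2.2.2
    unf := fun μ hμ w hw hs F hF hi => unf hWSm hWUn μ hμ w hw hs F hF hi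
    fin := hWFi
    flo := fun μ hμ F hF hi t => flo hWSm hWUn μ hμ F hF hi t
    null := fun μ B _ => null hWSm.2.1 hWSm.2.2.1 μ B }

end

end Pool.Agent.A54.QE
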