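import Pool.Agent.Lib.QE.SpecW

/-!
# Package `QE`, block W: summability over `SL(2, ℤ)` and the weight (`StmtWSm`)
-/

set_option autoImplicit false

namespace Pool.Agent.A54.QE

open MeasureTheory Filter Topology Set
open scoped ContDiff ComplexConjugate UpperHalfPlane MatrixGroups ENNReal
open Pool.Agent.A54.Dyn (G fl base ze io mk4 Inv)

noncomputable section

namespace WSmM

lemma io_mul (γ δ : SL(2, ℤ)) : io (γ * δ) = io γ * io δ := map_mul _ _ _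

lemma io_one : io 1 = 1 := map_one _

lemma sum1 : Summable fun x : ℤ => (1 + (x : ℝ) ^ 2)⁻¹ := by
  have h1 : Summable fun x : ℤ => 1 / (x : ℝ) ^ 2 := Real.summable_one_div_int_pow.2 (by norm_num)
  have h2 : Summable fun x : ℤ => (Pi.single (0 : ℤ) (1 : ℝ) : ℤ → ℝ) x :=
    (hasSum_single (0 : ℤ) fun b hb => Pi.single_eq_of_ne hb _).summable
  refine Summable.of_nonneg_of_le (fun x => by positivity) (fun x => ?_) (h1.add h2)
  by_cases hx : x = 0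
  · subst hx
    simp
  · rw [Pi.single_eq_of_ne hx, add_zero, one_div]
    have h3 : 0 < (x : ℝ) ^ 2 := by positivity
    exact inv_anti₀ h3 (by linarith)

/-- the entries -/
def en (γ : SL(2, ℤ)) : (ℤ × ℤ) × (ℤ × ℤ) := ((γ 0 0, γ 0 1), (γ 1 0, γ 1 1))

lemma en_inj : Function.Injective en := by
  intro γ δ h
  simp only [en, Prod.mk.injEq] at h
  obtain ⟨⟨h1, h2⟩, h3, h4⟩ := h
  ext i j
  fin_cases i <;> fin_cases j
  · exact h1
  · exact h2
  · exact h3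
  · exact h4

lemma sum4 : Summable fun p : (ℤ × ℤ) × (ℤ × ℤ) =>
    ((1 + (p.1.1 : ℝ) ^ 2)⁻¹ * (1 + (p.1.2 : ℝ) ^ 2)⁻¹) * ((1 + (p.2.1 : ℝ) ^ 2)⁻¹ * (1 + (p.2.2 : ℝ) ^ 2)⁻¹) := by
  have h2 := sum1.mul_of_nonneg sum1 (fun x => by positivity) (fun x => by positivity)
  exact h2.mul_of_nonneg h2 (fun x => by positivity) (fun x => by positivity)

lemma nsq_io (γ : SL(2, ℤ)) :
    nsq (io γ) = (γ 0 0 : ℝ) ^ 2 + (γ 0 1 : ℝ) ^ 2 + (γ 1 0 : ℝ) ^ 2 + (γ 1 1 : ℝ) ^ 2 := rfl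

lemma base_sum (h2 : ∀ g : G, 2 ≤ nsq g) : Summable fun γ : SL(2, ℤ) => qq (io γ) := by
  refine Summable.of_nonneg_of_le (fun γ => ?_) (fun γ => ?_)
    ((sum4.comp_injective en_inj).mul_left ((3 / 2 : ℝ) ^ 4))
  · have := h2 (io γ)
    exact inv_nonneg.2 (by positivity)
  · have hN := h2 (io γ)
    have e := nsq_io γ
    set N := nsq (io γ) with hNd
    show (N ^ 4)⁻¹ ≤ (3 / 2 : ℝ) ^ 4 * (((1 + (γ 0 0 : ℝ) ^ 2)⁻¹ * (1 + (γ 0 1 : ℝ) ^ 2)⁻¹) *
      ((1 + (γ 1 0 : ℝ) ^ 2)⁻¹ * (1 + (γ 1 1 : ℝ) ^ 2)⁻¹))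
    have s0 := sq_nonneg (γ 0 0 : ℝ)
    have s1 := sq_nonneg (γ 0 1 : ℝ)
    have s2 := sq_nonneg (γ 1 0 : ℝ)
    have s3 := sq_nonneg (γ 1 1 : ℝ)
    have b0 : 1 + (γ 0 0 : ℝ) ^ 2 ≤ 3 / 2 * N := by linarith
    have b1 : 1 + (γ 0 1 : ℝ) ^ 2 ≤ 3 / 2 * N := by linarith
    have b2 : 1 + (γ 1 0 : ℝ) ^ 2 ≤ 3 / 2 * N := by linarith
    have b3 : 1 + (γ 1 1 : ℝ) ^ 2 ≤ 3 / 2 * N := by linarith
    have hp : (1 + (γ 0 0 : ℝ) ^ 2) * (1 + (γ 0 1 : ℝ) ^ 2) * ((1 + (γ 1 0 : ℝ) ^ 2) * (1 + (γ 1 1 : ℝ) ^ 2)) ≤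
        (3 / 2 * N) * (3 / 2 * N) * ((3 / 2 * N) * (3 / 2 * N)) := by
      have hN' : 0 ≤ 3 / 2 * N := by linarith
      refine mul_le_mul (mul_le_mul b0 b1 (by linarith) hN') (mul_le_mul b2 b3 (by linarith) hN') (by positivity)
        (by positivity)
    rw [← mul_inv, ← mul_inv, ← mul_inv, ← div_eq_mul_inv, inv_eq_one_div,
      div_le_div_iff₀ (by positivity) (by positivity), one_mul]
    refine hp.trans (le_of_eq ?_)
    ring

end WSmM

open WSmM in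
theorem stmtWSm (hWDi : StmtWDi) : StmtWSm := by
  obtain ⟨h2, hmul, hinv, -, hcn, hcq, hpos, -, hun⟩ := hWDi
  have hb := base_sum h2
  -- the majorant
  have hmaj : ∀ (γ : SL(2, ℤ)) (g : G), qq (io γ * g) ≤ nsq g ^ 4 * qq (io γ) := by
    intro γ g
    have h3 : nsq (io γ) ≤ nsq (io γ * g) * nsq g := by
      have h4 := hmul (io γ * g) g⁻¹
      rwa [mul_inv_cancel_right, hinv] at h4
    have p1 : 0 < nsq (io γ) := by linarith [h2 (io γ)]
    have p2 : 0 < nsq (io γ * g) := by linarith [h2 (io γ * g)]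
    have p3 : 0 < nsq g := by linarith [h2 g]
    show (nsq (io γ * g) ^ 4)⁻¹ ≤ nsq g ^ 4 * (nsq (io γ) ^ 4)⁻¹
    rw [← div_eq_mul_inv, inv_eq_one_div, div_le_div_iff₀ (by positivity) (by positivity), one_mul, ← mul_pow]
    exact pow_le_pow_left₀ p1.le (by linarith [mul_comm (nsq g) (nsq (io γ * g))]) 4
  have hs : ∀ g : G, Summable fun γ : SL(2, ℤ) => qq (io γ * g) := fun g =>
    Summable.of_nonneg_of_le (fun γ => (hpos _).le) (fun γ => hmaj γ g) (hb.mul_left _)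
  have hcS : Continuous fun g : G => ∑' γ : SL(2, ℤ), qq (io γ * g) := by
    rw [continuous_iff_continuousAt]
    intro g
    have hU : IsOpen {x : G | nsq x < nsq g + 1} := isOpen_lt hcn continuous_const
    have h3 : ContinuousOn (fun g : G => ∑' γ : SL(2, ℤ), qq (io γ * g)) {x : G | nsq x < nsq g + 1} := by
      refine continuousOn_tsum (u := fun γ => (nsq g + 1) ^ 4 * qq (io γ))
        (fun γ => (hcq.comp (continuous_const.mul continuous_id)).continuousOn) (hb.mul_left _) fun γ x hx => ?_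
      have hx' : nsq x < nsq g + 1 := hx
      rw [Real.norm_of_nonneg (hpos _).le]
      refine (hmaj γ x).trans (mul_le_mul_of_nonneg_right ?_ (hpos _).le)
      exact pow_le_pow_left₀ (by linarith [h2 x]) hx'.le 4
    exact h3.continuousAt (hU.mem_nhds (by show nsq g < nsq g + 1; linarith))
  have hSp : ∀ g : G, 0 < ∑' γ : SL(2, ℤ), qq (io γ * g) := fun g =>
    (hs g).tsum_pos (fun γ => (hpos _).le) 1 (hpos _)
  have hinvS : ∀ (γ₀ : SL(2, ℤ)) (g : G), ∑' γ : SL(2, ℤ), qq (io γ * (io γ₀ * g)) =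
      ∑' γ : SL(2, ℤ), qq (io γ * g) := by
    intro γ₀ g
    rw [← (Equiv.mulRight γ₀).tsum_eq fun γ => qq (io γ * g)]
    refine tsum_congr fun γ => ?_
    rw [Equiv.coe_mulRight, io_mul, mul_assoc]
  refine ⟨hs, hcq.div hcS fun g => (hSp g).ne', fun g => div_pos (hpos g) (hSp g), fun g => ?_, fun g => ?_,
    fun g u => ?_⟩
  · refine (div_le_one (hSp g)).2 ?_
    have h3 := (hs g).le_tsum 1 fun γ _ => (hpos _).le
    rwa [io_one, one_mul] at h3
  · have e : ∀ γ : SL(2, ℤ), ch (io γ * g) = qq (io γ * g) / ∑' δ : SL(2, ℤ), qq (io δ * g) := fun γ => by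
      unfold ch
      rw [hinvS]
    have h3 : ∑' γ : SL(2, ℤ), ENNReal.ofReal (ch (io γ * g)) =
        ENNReal.ofReal (∑' γ : SL(2, ℤ), qq (io γ * g) / ∑' δ : SL(2, ℤ), qq (io δ * g)) := by
      rw [ENNReal.ofReal_tsum_of_nonneg (fun γ => (div_pos (hpos _) (hSp g)).le) ((hs g).div_const _)]
      exact tsum_congr fun γ => by rw [e]
    rw [h3, tsum_div_const, div_self (hSp g).ne', ENNReal.ofReal_one]
  · have hu : un u * un (-u) = 1 := by
      refine Dyn.G_ext ?_ ?_ ?_ ?_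
      · rw [Dyn.mul_00]
        show (1 : ℝ) * 1 + u * 0 = 1
        ring
      · rw [Dyn.mul_01]
        show (1 : ℝ) * (-u) + u * 1 = 0
        ring
      · rw [Dyn.mul_10]
        show (0 : ℝ) * 1 + 1 * 0 = 0
        ring
      · rw [Dyn.mul_11]
        show (0 : ℝ) * (-u) + 1 * 1 = 1
        ring
    have hA : 0 < (1 + |u|) ^ 8 := by positivity
    have h3 : ∑' γ : SL(2, ℤ), qq (io γ * g) ≤ (1 + |u|) ^ 8 * ∑' γ : SL(2, ℤ), qq (io γ * (g * un u)) := by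
      rw [← tsum_mul_left]
      refine (hs g).tsum_le_tsum (fun γ => ?_) ((hs _).mul_left _)
      have h4 := hun (io γ * (g * un u)) (-u)
      rwa [mul_assoc, mul_assoc, hu, mul_one, abs_neg] at h4
    show qq (g * un u) / (∑' γ : SL(2, ℤ), qq (io γ * (g * un u))) ≤
      (1 + |u|) ^ 16 * (qq g / ∑' γ : SL(2, ℤ), qq (io γ * g))
    rw [← mul_div_assoc, div_le_div_iff₀ (hSp _) (hSp _)]
    calc qq (g * un u) * ∑' γ : SL(2, ℤ), qq (io γ * g)
        ≤ ((1 + |u|) ^ 8 * qq g) * ((1 + |u|) ^ 8 * ∑' γ : SL(2, ℤ), qq (io γ * (g * un u))) :=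
          mul_le_mul (hun g u) h3 (hSp g).le (mul_pos hA (hpos g)).le
      _ = (1 + |u|) ^ 16 * qq g * ∑' γ : SL(2, ℤ), qq (io γ * (g * un u)) := by ring

end

end Pool.Agent.A54.QE
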