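import Pool.Agent.Lib.QE.SpecW

/-!
# Package `QE`, block W: unfolding (helper40)
-/

set_option autoImplicit false

namespace Pool.Agent.A54.QE

open MeasureTheory Filter Topology Set
open scoped ContDiff ComplexConjugate UpperHalfPlane MatrixGroups ENNReal
open Pool.Agent.A54.Dyn (G fl base ze io mk4 Inv)

noncomputable section

namespace WUnM

private theorem countable_SL : Countable SL(2, ℤ) := by
  have h : Function.Injective fun γ : SL(2, ℤ) => (fun i j => γ.1 i j : Fin 2 → Fin 2 → ℤ) := by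
    intro γ γ' h
    apply Subtype.ext
    ext i j
    exact congrFun (congrFun h i) j
  exact h.countable

private theorem io_inv_mul (γ : SL(2, ℤ)) (g : G) : io γ⁻¹ * (io γ * g) = g := by
  rw [← mul_assoc]
  have h : io γ⁻¹ * io γ = 1 := by
    show Matrix.SpecialLinearGroup.map (Int.castRingHom ℝ) γ⁻¹ *
      Matrix.SpecialLinearGroup.map (Int.castRingHom ℝ) γ = 1
    rw [← map_mul, inv_mul_cancel, map_one]
  rw [h, one_mul]

private theorem meas_left (h : G) : Measurable fun g : G => h * g :=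
  (continuous_const.mul continuous_id).measurable

private theorem expand (μ : Measure G) (w w' : G → ℝ≥0∞) (hw : Measurable w) (hw' : Measurable w')
    (h1 : ∀ g, ∑' γ : SL(2, ℤ), w' (io γ * g) = 1) (F : G → ℝ≥0∞) (hF : Measurable F) :
    ∫⁻ g, F g * w g ∂μ = ∑' γ : SL(2, ℤ), ∫⁻ g, F g * w g * w' (io γ * g) ∂μ := by
  have := countable_SL
  have hm : ∀ γ : SL(2, ℤ), AEMeasurable (fun g : G => F g * w g * w' (io γ * g)) μ := fun γ =>
    ((hF.mul hw).mul (hw'.comp (meas_left (io γ)))).aemeasurable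
  rw [← lintegral_tsum hm]
  refine lintegral_congr fun g => ?_
  rw [ENNReal.tsum_mul_left, h1, mul_one]

private theorem term (μ : Measure G) (hμ : Inv μ) (w w' : G → ℝ≥0∞) (hw : Measurable w)
    (hw' : Measurable w') (F : G → ℝ≥0∞) (hF : Measurable F)
    (hFi : ∀ (γ : SL(2, ℤ)) (g : G), F (io γ * g) = F g) (γ : SL(2, ℤ)) :
    ∫⁻ g, F g * w' g * w (io γ⁻¹ * g) ∂μ = ∫⁻ g, F g * w g * w' (io γ * g) ∂μ := by
  have hm : Measurable fun g : G => F g * w' g * w (io γ⁻¹ * g) :=
    (hF.mul hw').mul (hw.comp (meas_left _))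
  have h1 : ∫⁻ g, F g * w' g * w (io γ⁻¹ * g) ∂(μ.map fun g => io γ * g) =
      ∫⁻ g, F (io γ * g) * w' (io γ * g) * w (io γ⁻¹ * (io γ * g)) ∂μ :=
    lintegral_map hm (meas_left (io γ))
  rw [hμ.left γ] at h1
  rw [h1]
  refine lintegral_congr fun g => ?_
  rw [hFi, io_inv_mul]
  ring

end WUnM

open WUnM in
/-- (WUn) Unfolding. -/
theorem stmtWUn : StmtWUn := by
  intro μ hμ w w' hw hw' h1 h2 F hF hFi
  rw [expand μ w w' hw hw' h2 F hF, expand μ w' w hw' hw h1 F hF,
    ← (Equiv.inv SL(2, ℤ)).tsum_eq fun γ => ∫⁻ g, F g * w' g * w (io γ * g) ∂μ]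
  exact tsum_congr fun γ => (term μ hμ w w' hw hw' F hF hFi γ).symm

end

end Pool.Agent.A54.QE
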