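import Pool.Agent.Lib.QE.ACr
import Pool.Agent.Lib.QE.AEx
import Pool.Agent.Lib.QE.AUn
import Pool.Agent.Lib.QE.AMp
import Pool.Agent.Lib.QE.ADe
import Pool.Agent.Lib.QE.ASu
import Pool.Agent.Lib.QE.ASf
import Pool.Agent.Lib.QE.APr
import Pool.Agent.Lib.QE.AH1
import Pool.Agent.Lib.QE.AH2
import Pool.Agent.Lib.QE.AH3
import Pool.Agent.Lib.QE.AHo
import Pool.Agent.Lib.QE.AG1
import Pool.Agent.Lib.QE.AG2
import Pool.Agent.Lib.QE.AGm
import Pool.Agent.Lib.QE.AHd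
import Pool.Agent.Lib.QE.AHe
import Pool.Agent.Lib.QE.AEq
import Pool.Agent.Lib.QE.AAs
import Pool.Agent.Lib.QE.WDi
import Pool.Agent.Lib.QE.WSm
import Pool.Agent.Lib.QE.WUn
import Pool.Agent.Lib.QE.WFi
import Pool.Agent.Lib.QE.WFn

/-!
# Package `QE`: blocks W and A closed

helper83. `pWt : Wt` and `stmtA : StmtA`.
-/

set_option autoImplicit false

namespace Pool.Agent.A54.QE

theorem pWSm : StmtWSm := stmtWSm stmtWDi
theorem pWFi : StmtWFi := stmtWFi pWSm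
/-- the weights -/
theorem pWt : Wt := stmtWFn pWSm stmtWUn pWFi

theorem pAEx : StmtAEx := stmtAEx stmtACr stmtASf
theorem pAUn : StmtAUn := stmtAUn stmtACr stmtASf
theorem pAMp : StmtAMp := stmtAMp stmtACr stmtASf
theorem pADe : StmtADe := stmtADe stmtACr stmtASf
theorem pASu : StmtASu := stmtASu stmtACr stmtASf
theorem pAHo : StmtAHo := stmtAHo (stmtAH3 (stmtAH2 stmtAH1))
theorem pAGm : StmtAGm := stmtAGm stmtWDi pWSm pWFi stmtAG1 (stmtAG2 stmtWDi pWSm)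
theorem pAHd : StmtAHd := stmtAHd pAGm pAHo
theorem pAHe : StmtAHe := stmtAHe pWSm pWFi pAEx pAUn pAMp pADe pAHd
theorem pAEq : StmtAEq := stmtAEq stmtACr pAUn pAMp stmtAPr

/-- **block A** -/
theorem stmtA : StmtA := stmtAAs pWSm pWFi pAEx pASu pAHe pAEq

end Pool.Agent.A54.QE
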