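import Pool.Agent.Lib.QE.SpecA

/-!
# `StmtAHd`: the density of `μ` with respect to `μ + μ^d` is constant on the leaves
-/

set_option autoImplicit false

namespace Pool.Agent.A54.QE

open MeasureTheory Filter Topology Set
open scoped ContDiff ComplexConjugate UpperHalfPlane MatrixGroups ENNReal
open Pool.Agent.A54.Dyn (G fl base ze io mk4 Inv)

noncomputable section

namespace AHdM

lemma meas_left (h : G) : Measurable fun g : G => h * g :=
  (continuous_const.mul continuous_id).measurable

lemma meas_right (h : G) : Measurable fun g : G => g * h :=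
  (continuous_id.mul continuous_const).measurable

/-- Left translations preserve local finiteness. -/
lemma fin_left (μ : Measure G) [IsFiniteMeasureOnCompacts μ] (h : G) :
    IsFiniteMeasureOnCompacts (μ.map fun g => h * g) :=
  Measure.IsFiniteMeasureOnCompacts.map μ (Homeomorph.mulLeft h)

lemma emb_left (h : G) : MeasurableEmbedding fun g : G => h * g :=
  (Homeomorph.mulLeft h).measurableEmbedding

lemma emb_right (h : G) : MeasurableEmbedding fun g : G => g * h :=
  (Homeomorph.mulRight h).measurableEmbedding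

/-- The density is invariant under a transformation preserving both measures. -/
lemma rn_inv (μ M : Measure G) [SigmaFinite μ] [SigmaFinite M] (T : G → G)
    (hT : MeasurableEmbedding T) (h1 : μ.map T = μ) (h2 : M.map T = M) :
    ∀ᵐ g ∂M, μ.rnDeriv M (T g) = μ.rnDeriv M g := by
  have h := hT.rnDeriv_map μ M
  rw [h1, h2] at h
  exact h

/-- The image measure is invariant under the subgroup. -/
lemma nu_left {μ : Measure G} (hμ : Inv μ) (d : G) (γ γ' : SL(2, ℤ))
    (h : d * io γ * d⁻¹ = io γ') :
    (μ.map fun g => d⁻¹ * g).map (fun g => io γ * g) = μ.map fun g => d⁻¹ * g := by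
  rw [Measure.map_map (meas_left _) (meas_left _)]
  have h1 : ((fun g : G => io γ * g) ∘ fun g : G => d⁻¹ * g) =
      (fun g : G => d⁻¹ * g) ∘ fun g : G => io γ' * g := by
    funext g
    simp only [Function.comp_apply]
    rw [← h]
    group
  rw [h1, ← Measure.map_map (meas_left _) (meas_left _), hμ.left γ']

lemma nu_right {μ : Measure G} (hμ : Inv μ) (d : G) (t : ℝ) :
    (μ.map fun g => d⁻¹ * g).map (fun g => g * fl t) = μ.map fun g => d⁻¹ * g := by
  rw [Measure.map_map (meas_right _) (meas_left _)]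
  have h1 : ((fun g : G => g * fl t) ∘ fun g : G => d⁻¹ * g) =
      (fun g : G => d⁻¹ * g) ∘ fun g : G => g * fl t := by
    funext g
    simp only [Function.comp_apply]
    rw [mul_assoc]
  rw [h1, ← Measure.map_map (meas_left _) (meas_right _), hμ.right t]

end AHdM

open AHdM in
theorem stmtAHd (hAGm : StmtAGm) (hAHo : StmtAHo) : StmtAHd := by
  intro μ hμ d hd
  obtain ⟨H, w, hH, hw, hw0, hws, hwi⟩ := hAGm d hd
  obtain ⟨hwi1, hwi2⟩ := hwi μ hμ
  have hf : IsFiniteMeasureOnCompacts μ := hμ.fin
  set ν : Measure G := μ.map fun g => d⁻¹ * g with hν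
  have hfν : IsFiniteMeasureOnCompacts ν := fin_left μ d⁻¹
  have hlμ : IsLocallyFiniteMeasure μ := isLocallyFiniteMeasure_of_isFiniteMeasureOnCompacts
  have hlν : IsLocallyFiniteMeasure ν := isLocallyFiniteMeasure_of_isFiniteMeasureOnCompacts
  set M : Measure G := μ + ν with hM
  have hleM : μ ≤ M := Measure.le_add_right le_rfl
  have hfM : IsFiniteMeasureOnCompacts M := by
    refine ⟨fun K hK => ?_⟩
    rw [hM, Measure.add_apply]
    exact ENNReal.add_lt_top.2 ⟨hK.measure_lt_top, hK.measure_lt_top⟩
  have hMl : ∀ γ ∈ H, M.map (fun g => io γ * g) = M := by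
    intro γ hγ
    obtain ⟨γ', h⟩ := hH γ hγ
    rw [hM, Measure.map_add _ _ (meas_left _), hμ.left γ, hν, nu_left hμ d γ γ' h]
  have hMr : ∀ t : ℝ, M.map (fun g => g * fl t) = M := by
    intro t
    rw [hM, Measure.map_add _ _ (meas_right _), hμ.right t, hν, nu_right hμ d t]
  set r : G → ℝ≥0∞ := μ.rnDeriv M with hr
  have hrm : Measurable r := Measure.measurable_rnDeriv μ M
  have hr1 : r ≤ᵐ[M] 1 := Measure.rnDeriv_le_one_of_le hleM
  set F : G → ℝ := fun g => min 1 (r g).toReal with hF
  have hFm : Measurable F := measurable_const.min hrm.ennreal_toReal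
  have hHp : HpH H M w F := by
    refine ⟨hfM, hMl, hMr, hw, hw0, hws, ?_, hFm, ?_, ?_, ?_⟩
    · rw [hM, lintegral_add_measure]
      exact ENNReal.add_lt_top.2 ⟨hwi1, hwi2⟩
    · intro g
      exact ⟨le_min zero_le_one ENNReal.toReal_nonneg, min_le_left _ _⟩
    · intro γ hγ
      filter_upwards [rn_inv μ M _ (emb_left (io γ)) (hμ.left γ) (hMl γ hγ)] with g hg
      simp only [hF, hr, hg]
    · filter_upwards [rn_inv μ M _ (emb_right (fl 1)) (hμ.right 1) (hMr 1)] with g hg
      simp only [hF, hr, hg]
  obtain ⟨F', hF'm, hF'b, hF'u, hF'e⟩ := hAHo H M w F hHp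
  have h1 : M.withDensity (fun g => ENNReal.ofReal (F' g)) = μ := by
    have h2 : (fun g => ENNReal.ofReal (F' g)) =ᵐ[M] r := by
      filter_upwards [hF'e, hr1] with g hg hg1
      have h3 : r g ≠ ⊤ := ne_top_of_le_ne_top ENNReal.one_ne_top hg1
      have h4 : (r g).toReal ≤ 1 := by
        have h5 := ENNReal.toReal_mono ENNReal.one_ne_top hg1
        simpa using h5
      rw [hg]
      simp only [hF]
      rw [min_eq_right h4, ENNReal.ofReal_toReal h3]
    rw [withDensity_congr_ae h2]
    exact Measure.withDensity_rnDeriv_eq μ M (Measure.absolutelyContinuous_of_le hleM)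
  have h2 : M = M.withDensity (fun g => ENNReal.ofReal (F' g)) +
      M.withDensity (fun g => ENNReal.ofReal (1 - F' g)) := by
    rw [← withDensity_add_left hF'm.ennreal_ofReal]
    have h3 : ((fun g => ENNReal.ofReal (F' g)) + fun g => ENNReal.ofReal (1 - F' g)) =
        (1 : G → ℝ≥0∞) := by
      funext g
      rw [Pi.add_apply, Pi.one_apply,
        ← ENNReal.ofReal_add (hF'b g).1 (sub_nonneg.2 (hF'b g).2)]
      simp
    rw [h3, withDensity_one]
  refine ⟨F', hF'm, hF'b, hF'u, h1.symm, ?_⟩
  have h3 : μ + ν = μ + M.withDensity (fun g => ENNReal.ofReal (1 - F' g)) := by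
    rw [h1] at h2
    exact h2
  exact (Measure.add_right_inj μ _ _).1 h3

end

end Pool.Agent.A54.QE
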