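import Pool.Agent.Lib.QE.SpecBH

/-!
# Package `QE`, module `BAr`: arithmetic of the recursion (helper97)
-/

set_option autoImplicit false

namespace Pool.Agent.A54.QE

open MeasureTheory Filter Topology Set
open scoped ContDiff ComplexConjugate UpperHalfPlane MatrixGroups ENNReal

noncomputable section

namespace BArM

/-- first case: `lam² ≤ 8` -/
theorem small (lam : ℝ) (c : ℕ → ℝ) (h1 : c 1 = lam) (h2 : c 2 = lam ^ 2 - 3)
    (hr : ∀ m, c (m + 3) = lam * c (m + 2) - 2 * c (m + 1)) (hl : lam ^ 2 ≤ 8) (m : ℕ) :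
    (2 : ℝ) ^ (m + 1) ≤ 4 * (2 * c (m + 1) ^ 2 + c (m + 2) ^ 2) := by
  have hQ : ∀ m : ℕ, c (m + 2) ^ 2 - lam * c (m + 1) * c (m + 2) + 2 * c (m + 1) ^ 2 =
      2 ^ m * (9 - lam ^ 2) := by
    intro m
    induction m with
    | zero =>
      simp only [zero_add, pow_zero, one_mul]
      rw [h1, h2]
      ring
    | succ k ih =>
      rw [show k + 1 + 2 = k + 3 by rfl, show k + 1 + 1 = k + 2 by rfl, hr k, pow_succ]
      linear_combination 2 * ih
  have h3 := hQ m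
  have h4 : (lam * c (m + 1) * c (m + 2)) ^ 2 ≤ (2 * c (m + 1) ^ 2 + c (m + 2) ^ 2) ^ 2 := by
    have h5 : (lam * c (m + 1) * c (m + 2)) ^ 2 = lam ^ 2 * (c (m + 1) ^ 2 * c (m + 2) ^ 2) := by ring
    have h6 : lam ^ 2 * (c (m + 1) ^ 2 * c (m + 2) ^ 2) ≤ 8 * (c (m + 1) ^ 2 * c (m + 2) ^ 2) :=
      mul_le_mul_of_nonneg_right hl (by positivity)
    have h7 : 0 ≤ (2 * c (m + 1) ^ 2 - c (m + 2) ^ 2) ^ 2 := sq_nonneg _
    rw [h5]
    nlinarith
  have h8 : |lam * c (m + 1) * c (m + 2)| ≤ 2 * c (m + 1) ^ 2 + c (m + 2) ^ 2 :=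
    abs_le_of_sq_le_sq h4 (by positivity)
  have h9 := (abs_le.1 h8).1
  have h10 : (2 : ℝ) ^ m ≤ 2 ^ m * (9 - lam ^ 2) := by
    have : (0 : ℝ) < 2 ^ m := by positivity
    nlinarith
  rw [pow_succ]
  linarith

/-- second case: `8 < lam²` -/
theorem large (lam : ℝ) (c : ℕ → ℝ) (h1 : c 1 = lam) (h2 : c 2 = lam ^ 2 - 3)
    (hr : ∀ m, c (m + 3) = lam * c (m + 2) - 2 * c (m + 1)) (hl : 8 < lam ^ 2) (m : ℕ) :
    (2 : ℝ) ^ (m + 1) ≤ 4 * (2 * c (m + 1) ^ 2 + c (m + 2) ^ 2) := by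
  have hs : (0 : ℝ) < √2 := by positivity
  have hs2 : √2 * √2 = 2 := Real.mul_self_sqrt (by norm_num)
  have hlam : 2 * √2 ≤ |lam| := by
    refine abs_le_of_sq_le_sq' ?_ (abs_nonneg _) |>.2
    rw [sq_abs]
    nlinarith
  have hA : ∀ m : ℕ, √2 * |c (m + 1)| ≤ |c (m + 2)| := by
    intro m
    induction m with
    | zero =>
      simp only [zero_add]
      rw [h1, h2, abs_of_pos (by linarith : (0 : ℝ) < lam ^ 2 - 3), ← sq_abs lam]
      nlinarith
    | succ k ih =>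
      rw [show k + 1 + 2 = k + 3 by rfl, show k + 1 + 1 = k + 2 by rfl, hr k]
      have h3 : |lam * c (k + 2)| - |2 * c (k + 1)| ≤ |lam * c (k + 2) - 2 * c (k + 1)| :=
        abs_sub_abs_le_abs_sub _ _
      rw [abs_mul, abs_mul, abs_of_pos (by norm_num : (0 : ℝ) < 2)] at h3
      have h4 : 2 * |c (k + 1)| ≤ √2 * |c (k + 2)| := by
        calc 2 * |c (k + 1)| = √2 * (√2 * |c (k + 1)|) := by rw [← mul_assoc, hs2]
          _ ≤ √2 * |c (k + 2)| := mul_le_mul_of_nonneg_left ih hs.le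
      have h5 : 2 * √2 * |c (k + 2)| ≤ |lam| * |c (k + 2)| :=
        mul_le_mul_of_nonneg_right hlam (abs_nonneg _)
      linarith
  have hB : ∀ m : ℕ, 2 * c (m + 1) ^ 2 ≤ c (m + 2) ^ 2 := by
    intro m
    have h3 := hA m
    have h4 : (√2 * |c (m + 1)|) ^ 2 ≤ |c (m + 2)| ^ 2 := pow_le_pow_left₀ (by positivity) h3 2
    rw [mul_pow, sq_abs, sq_abs, sq (√2), hs2] at h4
    exact h4
  have hC : ∀ m : ℕ, (2 : ℝ) ^ (m + 1) ≤ c (m + 1) ^ 2 := by
    intro m
    induction m with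
    | zero =>
      simp only [zero_add, pow_one]
      rw [h1]
      linarith
    | succ k ih =>
      have h3 := hB k
      rw [pow_succ, show k + 1 + 1 = k + 2 by rfl]
      linarith
  have h3 := hC m
  have h4 : 0 ≤ c (m + 2) ^ 2 := sq_nonneg _
  have h5 : 0 ≤ c (m + 1) ^ 2 := sq_nonneg _
  linarith

end BArM

theorem stmtBAr : StmtBAr := by
  intro lam t c t0 t1 ht c1 hc n hn
  have t2 : t 2 = lam * t 1 - 2 * t 0 := ht 1 le_rfl
  have t3 : t 3 = lam * t 2 - 2 * t 1 := ht 2 (by norm_num)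
  have h1 : c 1 = lam := by rw [c1, t1]
  have h2 : c 2 = lam ^ 2 - 3 := by
    have h := hc 2 le_rfl
    simp only [Nat.sub_self] at h
    rw [h, t2, t1, t0]
    ring
  have hr : ∀ m, c (m + 3) = lam * c (m + 2) - 2 * c (m + 1) := by
    intro m
    cases m with
    | zero =>
      have h := hc 3 (by norm_num)
      simp only [zero_add]
      rw [h1, h2, h, show 3 - 2 = 1 by rfl, t3, t2, t1, t0]
      ring
    | succ k =>
      have h4 := hc (k + 4) (by omega)
      have h3 := hc (k + 3) (by omega)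
      have h2' := hc (k + 2) (by omega)
      have r4 := ht (k + 3) (by omega)
      have r2 := ht (k + 1) (by omega)
      rw [show k + 4 - 2 = k + 2 by omega] at h4
      rw [show k + 3 - 2 = k + 1 by omega] at h3
      rw [show k + 2 - 2 = k by omega] at h2'
      rw [show k + 3 + 1 = k + 4 by rfl, show k + 3 - 1 = k + 2 by omega] at r4
      rw [show k + 1 + 1 = k + 2 by rfl, show k + 1 - 1 = k by omega] at r2
      rw [show k + 1 + 3 = k + 4 by rfl, show k + 1 + 2 = k + 3 by rfl, show k + 1 + 1 = k + 2 by rfl,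
        h4, h3, h2']
      linear_combination r4 - r2
  obtain ⟨m, rfl⟩ : ∃ m, n = m + 1 := ⟨n - 1, by omega⟩
  rcases le_or_gt (lam ^ 2) 8 with hl | hl
  · exact BArM.small lam c h1 h2 hr hl m
  · exact BArM.large lam c h1 h2 hr hl m

end

end Pool.Agent.A54.QE
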