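import Pool.Agent.Lib.QE.SpecBH
import Pool.Agent.Lib.MP_a54f13_nt.Hp.Nm

/-!
Package `QE`, module `BCs`: the cosets of the points of the spheres are different.
-/

set_option autoImplicit false

namespace Pool.Agent.A54.QE

open MeasureTheory Filter Topology Set
open scoped ContDiff ComplexConjugate UpperHalfPlane MatrixGroups ENNReal
open Pool.Agent.A54.Dyn (G fl base ze io mk4 Inv HM)
open Pool.Agent.A54.Hp (nm nu HE StmtNm StmtNuL)
open Pool.Agent.A54.Av (Mat)

noncomputable section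

namespace BCsM

lemma um00 (j b k : ℕ) : um j b k 0 0 = (2 : ℤ) ^ j := rfl

lemma um01 (j b k : ℕ) : um j b k 0 1 = (b : ℤ) := rfl

lemma um10 (j b k : ℕ) : um j b k 1 0 = 0 := rfl

lemma um11 (j b k : ℕ) : um j b k 1 1 = (2 : ℤ) ^ k := rfl

lemma det_um (j b k : ℕ) : (um j b k).det = (2 : ℤ) ^ (j + k) := by
  rw [Matrix.det_fin_two, um00, um01, um10, um11, mul_zero, sub_zero, ← pow_add]

lemma mem_Sn {n : ℕ} {x : ℕ × ℕ} (hx : x ∈ Sn n) :
    x.1 ≤ n ∧ x.2 < 2 ^ (n - x.1) ∧ (x.1 = 0 ∨ x.1 = n ∨ Odd x.2) := by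
  unfold Sn at hx
  rw [Finset.mem_filter, Finset.mem_product, Finset.mem_range] at hx
  exact ⟨by omega, hx.2.1, hx.2.2⟩

/-- The matrices of the sphere are primitive. -/
lemma prim {n : ℕ} {x : ℕ × ℕ} (hx : x ∈ Sn n) : ¬ ∀ i j, Even (um x.1 x.2 (n - x.1) i j) := by
  intro h
  obtain ⟨-, -, h1 | h1 | h1⟩ := mem_Sn hx
  · have h2 := h 0 0
    rw [um00, h1, pow_zero] at h2
    exact absurd h2 (by decide)
  · have h2 := h 1 1
    rw [um11, h1, Nat.sub_self, pow_zero] at h2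
    exact absurd h2 (by decide)
  · have h2 := h 0 1
    rw [um01, Int.even_coe_nat] at h2
    exact (Nat.not_even_iff_odd.2 h1) h2

/-- Equal normalised matrices. -/
lemma nm_sq {s t : Mat} {n m : ℕ} (hs : s.det = 2 ^ n) (ht : t.det = 2 ^ m) (h : nm s = nm t)
    (i j : Fin 2) : s i j ^ 2 * 2 ^ m = t i j ^ 2 * 2 ^ n := by
  have hs' : 0 < s.det := by rw [hs]; positivity
  have ht' : 0 < t.det := by rw [ht]; positivity
  have h1 : nm s i j = nm t i j := by rw [h]
  rw [Hp.NmM.nm_of hs', Hp.NmM.nm_of ht', hs, ht] at h1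
  have h2 := congrArg (fun r : ℝ => r ^ 2) h1
  simp only [div_pow] at h2
  have e1 : (0 : ℝ) ≤ (((2 : ℤ) ^ n : ℤ) : ℝ) := by positivity
  have e2 : (0 : ℝ) ≤ (((2 : ℤ) ^ m : ℤ) : ℝ) := by positivity
  rw [Real.sq_sqrt e1, Real.sq_sqrt e2, div_eq_div_iff (by positivity) (by positivity)] at h2
  exact_mod_cast h2

lemma nm_inj {s t : Mat} {n : ℕ} (hs : s.det = 2 ^ n) (ht : t.det = 2 ^ n) (h : nm s = nm t) :
    s = t := by
  have hs' : 0 < s.det := by rw [hs]; positivity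
  have ht' : 0 < t.det := by rw [ht]; positivity
  ext i j
  have h1 : nm s i j = nm t i j := by rw [h]
  rw [Hp.NmM.nm_of hs', Hp.NmM.nm_of ht', hs, ht] at h1
  have e0 : (0 : ℝ) < (((2 : ℤ) ^ n : ℤ) : ℝ) := by positivity
  have e1 : √(((2 : ℤ) ^ n : ℤ) : ℝ) ≠ 0 := (Real.sqrt_pos.mpr e0).ne'
  have h2 := (div_left_inj' e1).1 h1
  exact_mod_cast h2

/-- Parity. -/
lemma even_of {a b : ℤ} {n m : ℕ} (hnm : m < n) (h : a ^ 2 * 2 ^ m = b ^ 2 * 2 ^ n) : Even a := by
  obtain ⟨k, rfl⟩ : ∃ k, n = m + (k + 1) := ⟨n - m - 1, by omega⟩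
  have h1 : a ^ 2 = b ^ 2 * 2 ^ (k + 1) := by
    have h2 : (2 : ℤ) ^ m ≠ 0 := by positivity
    refine mul_right_cancel₀ h2 ?_
    rw [h, pow_add]
    ring
  have h3 : Even (a ^ 2) := by
    rw [h1, pow_succ]
    exact ⟨b ^ 2 * 2 ^ k, by ring⟩
  exact (Int.even_pow.1 h3).1

lemma even_mul {A B : Mat} (h : ∀ i j, Even (B i j)) (i j : Fin 2) : Even ((A * B) i j) := by
  rw [Matrix.mul_apply, Fin.sum_univ_two]
  exact ((h 0 j).mul_left _).add ((h 1 j).mul_left _)

end BCsM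

open BCsM

/-- **BCs** the cosets are different. -/
theorem stmtBCs : StmtBCs := by
  intro n m x y hx hy δ h
  obtain ⟨hx1, hx2, -⟩ := mem_Sn hx
  obtain ⟨hy1, hy2, -⟩ := mem_Sn hy
  set s : Mat := um x.1 x.2 (n - x.1) with hs
  set s' : Mat := um y.1 y.2 (m - y.1) with hs'
  have hds : s.det = 2 ^ n := by
    rw [hs, det_um, Nat.add_sub_cancel' hx1]
  have hds' : s'.det = 2 ^ m := by
    rw [hs', det_um, Nat.add_sub_cancel' hy1]
  have hdδ : (δ : Mat).det = 1 := δ.det_coe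
  have hdt : ((δ : Mat) * s').det = 2 ^ m := by
    rw [Matrix.det_mul, hdδ, one_mul, hds']
  have hnm : nm s = nm ((δ : Mat) * s') := by
    rw [Hp.NmM.p1 _ _ (by rw [hdδ]; norm_num) (by rw [hds']; positivity), Hp.NmM.p2]
    exact h
  rcases lt_trichotomy n m with hlt | heq | hgt
  · exfalso
    have h1 : ∀ i j, Even (((δ : Mat) * s') i j) := fun i j =>
      even_of hlt (nm_sq hds hdt hnm i j).symm
    refine prim hy ?_
    have h2 : (δ : Mat).adjugate * ((δ : Mat) * s') = s' := by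
      rw [← Matrix.mul_assoc, Matrix.adjugate_mul, hdδ, one_smul, Matrix.one_mul]
    rw [← hs', ← h2]
    exact even_mul h1
  · subst heq
    refine ⟨rfl, ?_⟩
    have hst : s = (δ : Mat) * s' := nm_inj hds hdt hnm
    have e00 := congrFun (congrFun hst 0) 0
    have e01 := congrFun (congrFun hst 0) 1
    have e10 := congrFun (congrFun hst 1) 0
    have e11 := congrFun (congrFun hst 1) 1
    rw [Matrix.mul_apply, Fin.sum_univ_two, hs, hs', um00, um00, um10, mul_zero, add_zero] at e00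
    rw [Matrix.mul_apply, Fin.sum_univ_two, hs, hs', um01, um01, um11] at e01
    rw [Matrix.mul_apply, Fin.sum_univ_two, hs, hs', um10, um00, um10, mul_zero, add_zero] at e10
    have hd0 : (δ : Mat) 1 0 = 0 := (mul_eq_zero.1 e10.symm).resolve_right (by positivity)
    have hdet : (δ : Mat) 0 0 * (δ : Mat) 1 1 = 1 := by
      have h1 := hdδ
      rw [Matrix.det_fin_two, hd0, mul_zero, sub_zero] at h1
      exact h1
    have hpos : 0 < (δ : Mat) 0 0 := by
      have h1 : (0 : ℤ) < (δ : Mat) 0 0 * 2 ^ y.1 := by rw [← e00]; positivity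
      exact (pos_iff_pos_of_mul_pos h1).2 (by positivity)
    have h00 : (δ : Mat) 0 0 = 1 := by
      rcases Int.isUnit_iff.1 (IsUnit.of_mul_eq_one _ hdet) with h1 | h1
      · exact h1
      · omega
    rw [h00, one_mul] at e00
    have hx1y1 : x.1 = y.1 := Nat.pow_right_injective (le_refl 2) (by exact_mod_cast e00)
    rw [h00, one_mul, ← hx1y1] at e01
    rw [← hx1y1] at hy2
    have hx2' : (x.2 : ℤ) < 2 ^ (n - x.1) := by exact_mod_cast hx2
    have hy2' : (y.2 : ℤ) < 2 ^ (n - x.1) := by exact_mod_cast hy2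
    have hx0 : (0 : ℤ) ≤ x.2 := Int.natCast_nonneg _
    have hy0 : (0 : ℤ) ≤ y.2 := Int.natCast_nonneg _
    have h01 : (δ : Mat) 0 1 = 0 := by
      by_contra hne
      rcases lt_or_gt_of_ne hne with h1 | h1
      · have h2 : (δ : Mat) 0 1 * 2 ^ (n - x.1) ≤ (-1) * 2 ^ (n - x.1) :=
          mul_le_mul_of_nonneg_right (by omega) (by positivity)
        omega
      · have h2 : 1 * 2 ^ (n - x.1) ≤ (δ : Mat) 0 1 * 2 ^ (n - x.1) :=
          mul_le_mul_of_nonneg_right (by omega) (by positivity)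
        omega
    rw [h01, zero_mul, add_zero] at e01
    exact Prod.ext hx1y1 (by exact_mod_cast e01)
  · exfalso
    exact prim hx fun i j => even_of hgt (nm_sq hds hdt hnm i j)

end

end Pool.Agent.A54.QE
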