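import Pool.Agent.Lib.QE.SpecBH
import Pool.Agent.Lib.MP_a54f13_nt.Hp.Core
import Pool.Agent.Lib.MP_a54f13_nt.Hp.Lev

/-!
# Package `QE`, block B: the counting bound passes to the vague limit (helper83)
-/

set_option autoImplicit false

namespace Pool.Agent.A54.QE

open MeasureTheory Filter Topology Set
open scoped ContDiff ComplexConjugate UpperHalfPlane MatrixGroups ENNReal
open Pool.Agent.A54.Dyn (G fl base ze io mk4 Inv)
open Pool.Agent.A54.Hp (nm nu HE Om xi Tb ms Cw CoreC StmtNuL)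

noncomputable section

/-- **BCw** the counting bound for the limit measure -/
def StmtBCw : Prop := ∀ (c : ℝ) (L : Filter ℕ) (l : ℕ → ℕ → ℝ) (Φ : ℕ → G → ℂ) (μ : Measure G), 0 < c → L.NeBot →
  IsFiniteMeasureOnCompacts μ → (∀ i, HE (l i) (Φ i)) →
  (∀ (i : ℕ) (g : G), ∫ x in (0 : ℝ)..1, Φ i (mk4 1 x 0 1 (by norm_num) * g) = 0) →
  CoreC c (fun _ _ => True) → VL L Φ μ → Cwm (c / 2) μ

namespace BCwM

/-- plateau function -/
def ps (x : ℝ) : ℝ := max 0 (min 1 (3 - |x|))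

lemma ps_nonneg (x : ℝ) : 0 ≤ ps x := le_max_left _ _
lemma ps_le (x : ℝ) : ps x ≤ 1 := max_le zero_le_one (min_le_left _ _)
lemma ps_one {x : ℝ} (h : |x| ≤ 2) : ps x = 1 := by
  unfold ps
  rw [min_eq_left (by linarith), max_eq_right zero_le_one]
lemma ps_zero {x : ℝ} (h : ps x ≠ 0) : |x| ≤ 3 := by
  by_contra h'
  rw [not_le] at h'
  apply h
  unfold ps
  exact max_eq_left ((min_le_right _ _).trans (by linarith))
lemma ps_cont : Continuous ps := by unfold ps; fun_prop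

/-- cutoff -/
def cu (R : ℝ) (g : G) : ℝ := ∏ i : Fin 2, ∏ j : Fin 2, max 0 (min 1 (2 - |g i j| / R))

lemma cu_nonneg (R : ℝ) (g : G) : 0 ≤ cu R g :=
  Finset.prod_nonneg fun _ _ => Finset.prod_nonneg fun _ _ => le_max_left _ _

lemma cu_le (R : ℝ) (g : G) : cu R g ≤ 1 :=
  Finset.prod_le_one (fun _ _ => Finset.prod_nonneg fun _ _ => le_max_left _ _) fun _ _ =>
    Finset.prod_le_one (fun _ _ => le_max_left _ _) fun _ _ => max_le zero_le_one (min_le_left _ _)

lemma cu_one {R : ℝ} (hR : 0 < R) {g : G} (hg : g ∈ Om R) : cu R g = 1 := by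
  unfold cu
  refine Finset.prod_eq_one fun i _ => Finset.prod_eq_one fun j _ => ?_
  have : |g i j| / R ≤ 1 := (div_le_one hR).2 (hg i j)
  rw [min_eq_left (by linarith), max_eq_right zero_le_one]

lemma cu_zero {R : ℝ} (hR : 0 < R) {g : G} (h : cu R g ≠ 0) : g ∈ Om (2 * R) := by
  intro i j
  by_contra h'
  rw [not_le] at h'
  apply h
  unfold cu
  refine Finset.prod_eq_zero (Finset.mem_univ i) (Finset.prod_eq_zero (Finset.mem_univ j) ?_)
  have : 2 < |g i j| / R := (lt_div_iff₀ hR).2 h'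
  exact max_eq_left ((min_le_right _ _).trans (by linarith))

lemma cu_cont (R : ℝ) : Continuous (cu R) := by
  unfold cu
  refine continuous_finsetProd _ fun i _ => continuous_finsetProd _ fun j _ => ?_
  have := Dyn.continuous_entry i j
  fun_prop

/-- the bump functions -/
def Fk (R w : ℝ) (k : Fin 3 → ℤ) (g : G) : ℝ := cu R g * ∏ j : Fin 3, ps (xi g j / w - k j)

lemma Fk_nonneg (R w : ℝ) (k : Fin 3 → ℤ) (g : G) : 0 ≤ Fk R w k g :=
  mul_nonneg (cu_nonneg R g) (Finset.prod_nonneg fun _ _ => ps_nonneg _)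

lemma Fk_le (R w : ℝ) (k : Fin 3 → ℤ) (g : G) : Fk R w k g ≤ 1 :=
  mul_le_one₀ (cu_le R g) (Finset.prod_nonneg fun _ _ => ps_nonneg _)
    (Finset.prod_le_one (fun _ _ => ps_nonneg _) fun _ _ => ps_le _)

lemma Fk_cont (R w : ℝ) (k : Fin 3 → ℤ) : Continuous (Fk R w k) := by
  unfold Fk
  refine (cu_cont R).mul (continuous_finsetProd _ fun j _ => ps_cont.comp ?_)
  exact ((Hp.LevM.continuous_xi j).div_const w).sub continuous_const

/-- the sets -/
def Pk' (R w : ℝ) (k : Fin 3 → ℤ) : Set G := {g | g ∈ Om R ∧ ∀ j, |xi g j / w - k j| ≤ 2}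
def Ok (R w : ℝ) (k : Fin 3 → ℤ) : Set G := {g | g ∈ Om (2 * R) ∧ ∀ j, |xi g j / w - k j| ≤ 3}

lemma isClosed_Ok (R w : ℝ) (k : Fin 3 → ℤ) : IsClosed (Ok R w k) := by
  have e : Ok R w k = Om (2 * R) ∩ ⋂ j : Fin 3, {g : G | |xi g j / w - k j| ≤ 3} := by
    ext p; simp [Ok]
  rw [e]
  exact (Hp.LevM.isClosed_Om _).inter (isClosed_iInter fun j =>
    isClosed_le (((Hp.LevM.continuous_xi j).div_const w).sub continuous_const).abs continuous_const)

lemma isClosed_Pk (R w : ℝ) (k : Fin 3 → ℤ) : IsClosed (Pk' R w k) := by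
  have e : Pk' R w k = Om R ∩ ⋂ j : Fin 3, {g : G | |xi g j / w - k j| ≤ 2} := by
    ext p; simp [Pk']
  rw [e]
  exact (Hp.LevM.isClosed_Om _).inter (isClosed_iInter fun j =>
    isClosed_le (((Hp.LevM.continuous_xi j).div_const w).sub continuous_const).abs continuous_const)

lemma Fk_one {R w : ℝ} (hR : 0 < R) {k : Fin 3 → ℤ} {g : G} (hg : g ∈ Pk' R w k) : Fk R w k g = 1 := by
  unfold Fk
  rw [cu_one hR hg.1, one_mul]
  exact Finset.prod_eq_one fun j _ => ps_one (hg.2 j)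

lemma Fk_zero {R w : ℝ} (hR : 0 < R) {k : Fin 3 → ℤ} {g : G} (h : Fk R w k g ≠ 0) : g ∈ Ok R w k := by
  unfold Fk at h
  refine ⟨cu_zero hR (left_ne_zero_of_mul h), fun j => ps_zero ?_⟩
  exact (Finset.prod_ne_zero_iff.1 (right_ne_zero_of_mul h)) j (Finset.mem_univ j)

lemma isCompact_Om (R : ℝ) : IsCompact (Om R) := by
  have h1 : IsCompact (Set.pi univ fun _ : Fin 2 => Set.pi univ fun _ : Fin 2 => Set.Icc (-R) R :
      Set (Fin 2 → Fin 2 → ℝ)) :=
    isCompact_univ_pi fun _ => isCompact_univ_pi fun _ => isCompact_Icc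
  have h2 : Om R = (fun g : G => (g.1 : Fin 2 → Fin 2 → ℝ)) ⁻¹'
      (Set.pi univ fun _ : Fin 2 => Set.pi univ fun _ : Fin 2 => Set.Icc (-R) R) := by
    ext g
    constructor
    · intro hg i _ j _
      exact abs_le.1 (hg i j)
    · intro hg i j
      exact abs_le.2 (hg i (mem_univ i) j (mem_univ j))
  rw [h2]
  exact (Matrix.SpecialLinearGroup.isClosedEmbedding_val (n := Fin 2) (R := ℝ)).isCompact_preimage h1

lemma Fk_supp {R w : ℝ} (hR : 0 < R) (k : Fin 3 → ℤ) : HasCompactSupport (Fk R w k) :=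
  HasCompactSupport.intro (isCompact_Om (2 * R)) fun g hg => by
    by_contra h
    exact hg (Fk_zero hR h).1

/-- number of cells near a point -/
lemma card_le (I : Finset (Fin 3 → ℤ)) (x : Fin 3 → ℝ) :
    (I.filter fun k : Fin 3 → ℤ => ∀ j, |x j - k j| ≤ 3).card ≤ 343 := by
  have h1 : (I.filter fun k : Fin 3 → ℤ => ∀ j, |x j - k j| ≤ 3) ⊆
      Fintype.piFinset fun j => Finset.Icc ⌈x j - 3⌉ ⌊x j + 3⌋ := by
    intro k hk
    rw [Finset.mem_filter] at hk
    rw [Fintype.mem_piFinset]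
    intro j
    have h := abs_le.1 (hk.2 j)
    rw [Finset.mem_Icc]
    exact ⟨Int.ceil_le.2 (by linarith), Int.le_floor.2 (by linarith)⟩
  refine (Finset.card_le_card h1).trans ?_
  rw [Fintype.card_piFinset]
  have h2 : ∀ j : Fin 3, (Finset.Icc ⌈x j - 3⌉ ⌊x j + 3⌋).card ≤ 7 := by
    intro j
    rw [Int.card_Icc]
    have a : ((⌊x j + 3⌋ : ℤ) : ℝ) ≤ x j + 3 := Int.floor_le _
    have b : x j - 3 ≤ ((⌈x j - 3⌉ : ℤ) : ℝ) := Int.le_ceil _
    have c : ((⌊x j + 3⌋ : ℤ) : ℝ) ≤ ((⌈x j - 3⌉ + 6 : ℤ) : ℝ) := by push_cast; linarith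
    have d : ⌊x j + 3⌋ ≤ ⌈x j - 3⌉ + 6 := by exact_mod_cast c
    omega
  calc ∏ j : Fin 3, (Finset.Icc ⌈x j - 3⌉ ⌊x j + 3⌋).card ≤ ∏ _j : Fin 3, 7 :=
        Finset.prod_le_prod' fun j _ => h2 j
    _ = 343 := by simp

/-- the bound for one function -/
lemma one_fn (hN : StmtNuL) {Φ : G → ℂ} (hΦ : Continuous Φ) {R w : ℝ} (hR : 0 < R) (hw : 0 < w)
    (I : Finset (Fin 3 → ℤ)) :
    ∑ k ∈ I, ENNReal.ofReal (∫ g, Fk R w k g * ‖Φ g‖ ^ 2 ∂nu) ^ 2 ≤ 343 * Cw Φ (2 * R) (6 * w) := by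
  have h0 : ∀ k, ENNReal.ofReal (∫ g, Fk R w k g * ‖Φ g‖ ^ 2 ∂nu) ≤ ms Φ (Ok R w k) := by
    intro k
    have hn : ∀ g, 0 ≤ Fk R w k g * ‖Φ g‖ ^ 2 := fun g => mul_nonneg (Fk_nonneg R w k g) (by positivity)
    by_cases hi : Integrable (fun g => Fk R w k g * ‖Φ g‖ ^ 2) nu
    · rw [ofReal_integral_eq_lintegral_ofReal hi (Eventually.of_forall hn)]
      unfold ms
      rw [← lintegral_indicator (isClosed_Ok R w k).measurableSet]
      refine lintegral_mono fun g => ?_
      by_cases hg : g ∈ Ok R w k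
      · rw [indicator_of_mem hg, ← ofReal_norm, ← ENNReal.ofReal_pow (norm_nonneg _)]
        exact ENNReal.ofReal_le_ofReal (mul_le_of_le_one_left (by positivity) (Fk_le R w k g))
      · rw [indicator_of_notMem hg]
        have : Fk R w k g = 0 := by
          by_contra h
          exact hg (Fk_zero hR h)
        simp [this]
    · rw [integral_undef hi]
      simp
  have hmT : Measurable fun g => ms Φ (Tb (2 * R) (xi g) (6 * w)) := Hp.LevM.meas_m hN Φ hΦ _ _
  have hmΦ : Measurable fun g => ‖Φ g‖ₑ ^ 2 := (hΦ.enorm.measurable).pow_const 2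
  have h1 : ∀ k, ENNReal.ofReal (∫ g, Fk R w k g * ‖Φ g‖ ^ 2 ∂nu) ^ 2 ≤
      ∫⁻ g, (Ok R w k).indicator (fun g => ‖Φ g‖ₑ ^ 2 * ms Φ (Tb (2 * R) (xi g) (6 * w))) g ∂nu := by
    intro k
    calc ENNReal.ofReal (∫ g, Fk R w k g * ‖Φ g‖ ^ 2 ∂nu) ^ 2 ≤ ms Φ (Ok R w k) ^ 2 := by
          gcongr; exact h0 k
      _ = (∫⁻ g in Ok R w k, ‖Φ g‖ₑ ^ 2 ∂nu) * ms Φ (Ok R w k) := by rw [pow_two]; rfl
      _ = ∫⁻ g in Ok R w k, ‖Φ g‖ₑ ^ 2 * ms Φ (Ok R w k) ∂nu := by
          rw [lintegral_mul_const _ hmΦ]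
      _ ≤ ∫⁻ g in Ok R w k, ‖Φ g‖ₑ ^ 2 * ms Φ (Tb (2 * R) (xi g) (6 * w)) ∂nu := by
          refine setLIntegral_mono (hmΦ.mul hmT) fun g hg => ?_
          gcongr
          refine lintegral_mono_set ?_
          intro y hy
          refine ⟨hy.1, fun j => ?_⟩
          have a := abs_le.1 (hg.2 j)
          have b := abs_le.1 (hy.2 j)
          have e1 : xi y j = w * (xi y j / w) := by field_simp
          have e2 : xi g j = w * (xi g j / w) := by field_simp
          rw [e1, e2, ← mul_sub, abs_mul, abs_of_pos hw, mul_comm (6 : ℝ)]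
          refine mul_le_mul_of_nonneg_left (abs_le.2 ⟨by linarith, by linarith⟩) hw.le
      _ = _ := (lintegral_indicator (isClosed_Ok R w k).measurableSet _).symm
  refine (Finset.sum_le_sum fun k _ => h1 k).trans ?_
  have hmm : Measurable fun g => ‖Φ g‖ₑ ^ 2 * ms Φ (Tb (2 * R) (xi g) (6 * w)) := hmΦ.mul hmT
  rw [← lintegral_finsetSum _ fun k _ => hmm.indicator (isClosed_Ok R w k).measurableSet]
  unfold Cw
  rw [← lintegral_indicator (Hp.LevM.isClosed_Om _).measurableSet,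
    ← lintegral_const_mul _ (hmm.indicator (Hp.LevM.isClosed_Om _).measurableSet)]
  refine lintegral_mono fun g => ?_
  have e : ∀ k ∈ I, (Ok R w k).indicator (fun g => ‖Φ g‖ₑ ^ 2 * ms Φ (Tb (2 * R) (xi g) (6 * w))) g ≤
      if (∀ j, |xi g j / w - k j| ≤ 3) then
        (Om (2 * R)).indicator (fun g => ‖Φ g‖ₑ ^ 2 * ms Φ (Tb (2 * R) (xi g) (6 * w))) g else 0 := by
    intro k _
    by_cases hg : g ∈ Ok R w k
    · rw [if_pos hg.2, indicator_of_mem hg, indicator_of_mem hg.1]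
    · rw [indicator_of_notMem hg]
      exact zero_le
  refine (Finset.sum_le_sum e).trans ?_
  rw [← Finset.sum_filter, Finset.sum_const, nsmul_eq_mul]
  gcongr
  exact_mod_cast card_le I fun j => xi g j / w

end BCwM

open BCwM in
theorem stmtBCw (hN : StmtNuL) : StmtBCw := by
  intro c L l Φ μ hc hL hμ hE hcu hC hV R hR
  have hR0 : 0 < R := by linarith
  obtain ⟨w₀, hw₀, h0⟩ := hC (2 * R) (by linarith)
  -- the constant
  have hlim : Tendsto (fun w : ℝ => 343 * (6 : ℝ) ^ (1 + c) * w ^ (c / 2)) (𝓝[>] 0) (𝓝 (343 * (6 : ℝ) ^ (1 + c) * 0)) := by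
    refine Tendsto.const_mul _ ?_
    have := (Real.continuousAt_rpow_const 0 (c / 2) (Or.inr (by linarith))).tendsto
    rw [Real.zero_rpow (by linarith)] at this
    exact this.mono_left nhdsWithin_le_nhds
  rw [mul_zero] at hlim
  have hev := (hlim.eventually (gt_mem_nhds (zero_lt_one' ℝ)))
  obtain ⟨w₂, hw₂, h2⟩ := (mem_nhdsGT_iff_exists_Ioc_subset).1 hev
  have hw₂' : (0 : ℝ) < w₂ := hw₂
  refine ⟨min w₂ (w₀ / 6), lt_min hw₂' (by linarith), fun w hw hww => ?_⟩
  have hwa : w ≤ w₂ := hww.trans (min_le_left _ _)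
  have hwb : 6 * w ≤ w₀ := by
    have := hww.trans (min_le_right _ _)
    linarith
  have h3 : 343 * (6 : ℝ) ^ (1 + c) * w ^ (c / 2) < 1 := h2 ⟨hw, hwa⟩
  -- the cells
  obtain ⟨n, hn⟩ : ∃ n : ℕ, 2 * R ^ 2 / w + 1 ≤ n := exists_nat_ge _
  set I : Finset (Fin 3 → ℤ) := Fintype.piFinset fun _ => Finset.Icc (-(n : ℤ)) n with hI
  have hxi : ∀ g ∈ Om R, ∀ j, |xi g j| ≤ 2 * R ^ 2 := by
    intro g hg j
    have hb : ∀ a b a' b' : Fin 2, |g a b * g a' b'| ≤ R ^ 2 := by
      intro a b a' b'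
      rw [abs_mul, pow_two]
      exact mul_le_mul (hg a b) (hg a' b') (abs_nonneg _) hR0.le
    fin_cases j
    · refine (abs_add_le _ _).trans ?_
      have := hb 0 0 1 1
      have := hb 0 1 1 0
      linarith
    · change |-(g 0 0 * g 0 1)| ≤ _
      rw [abs_neg]
      have := hb 0 0 0 1
      nlinarith
    · change |g 1 0 * g 1 1| ≤ _
      have := hb 1 0 1 1
      nlinarith
  have hk : ∀ g ∈ Om R, (fun j => ⌊xi g j / w⌋) ∈ I := by
    intro g hg
    rw [hI, Fintype.mem_piFinset]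
    intro j
    have h5 := abs_le.1 (hxi g hg j)
    have h6 : xi g j / w ≤ 2 * R ^ 2 / w := by gcongr; exact h5.2
    have h7 : -(2 * R ^ 2 / w) ≤ xi g j / w := by
      rw [← neg_div]; gcongr; exact h5.1
    rw [Finset.mem_Icc]
    constructor
    · rw [Int.le_floor]
      push_cast
      linarith
    · have h8 : ((⌊xi g j / w⌋ : ℤ) : ℝ) ≤ ((n : ℤ) : ℝ) := by
        refine (Int.floor_le _).trans ?_
        push_cast
        linarith
      exact_mod_cast h8
  -- the left side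
  have hA : ∫⁻ g in Om R, μ (Tb R (xi g) w) ∂μ ≤ ∑ k ∈ I, μ (Pk' R w k) ^ 2 := by
    rw [← lintegral_indicator (Hp.LevM.isClosed_Om _).measurableSet]
    calc ∫⁻ g, (Om R).indicator (fun g => μ (Tb R (xi g) w)) g ∂μ
        ≤ ∫⁻ g, ∑ k ∈ I, (Pk' R w k).indicator (fun _ => μ (Pk' R w k)) g ∂μ := by
          refine lintegral_mono fun g => ?_
          by_cases hg : g ∈ Om R
          · rw [indicator_of_mem hg]
            set k : Fin 3 → ℤ := fun j => ⌊xi g j / w⌋ with hk'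
            have hkI : k ∈ I := hk g hg
            have hgk : ∀ j, 0 ≤ xi g j / w - k j ∧ xi g j / w - k j < 1 := fun j =>
              ⟨by have := Int.floor_le (xi g j / w); simp only [hk']; linarith,
               by have := Int.lt_floor_add_one (xi g j / w); simp only [hk']; linarith⟩
            have hgP : g ∈ Pk' R w k := ⟨hg, fun j => abs_le.2 ⟨by linarith [(hgk j).1], by linarith [(hgk j).2]⟩⟩
            refine le_trans ?_ (Finset.single_le_sum
              (f := fun k => (Pk' R w k).indicator (fun _ => μ (Pk' R w k)) g) (fun _ _ => zero_le) hkI)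
            simp only [indicator_of_mem hgP]
            refine measure_mono ?_
            intro y hy
            refine ⟨hy.1, fun j => ?_⟩
            have a := hgk j
            have b := hy.2 j
            have e1 : xi y j / w - k j = (xi y j - xi g j) / w + (xi g j / w - k j) := by ring
            have e2 : |(xi y j - xi g j) / w| ≤ 1 := by
              rw [abs_div, abs_of_pos hw, div_le_one hw]; exact b
            have e3 := abs_le.1 e2
            rw [e1]
            exact abs_le.2 ⟨by linarith, by linarith⟩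
          · rw [indicator_of_notMem hg]
            exact zero_le
      _ = ∑ k ∈ I, μ (Pk' R w k) ^ 2 := by
          rw [lintegral_finsetSum _ fun k _ => measurable_const.indicator (isClosed_Pk R w k).measurableSet]
          refine Finset.sum_congr rfl fun k _ => ?_
          rw [lintegral_indicator_const (isClosed_Pk R w k).measurableSet, pow_two]
  have hB : ∀ k, μ (Pk' R w k) ≤ ENNReal.ofReal (∫ g, Fk R w k g ∂μ) := by
    intro k
    have hi : Integrable (Fk R w k) μ := (Fk_cont R w k).integrable_of_hasCompactSupport (Fk_supp hR0 k)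
    rw [ofReal_integral_eq_lintegral_ofReal hi (Eventually.of_forall fun g => Fk_nonneg R w k g)]
    rw [← lintegral_indicator_one (isClosed_Pk R w k).measurableSet]
    refine lintegral_mono fun g => ?_
    by_cases hg : g ∈ Pk' R w k
    · rw [indicator_of_mem hg, Fk_one hR0 hg]
      simp
    · rw [indicator_of_notMem hg]
      exact zero_le
  -- the limit
  have hlim2 : Tendsto (fun i => ∑ k ∈ I, ENNReal.ofReal (∫ g, Fk R w k g * ‖Φ i g‖ ^ 2 ∂nu) ^ 2) L
      (𝓝 (∑ k ∈ I, ENNReal.ofReal (∫ g, Fk R w k g ∂μ) ^ 2)) := by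
    refine tendsto_finsetSum _ fun k _ => ?_
    have h8 := hV (Fk R w k) (Fk_cont R w k) (Fk_supp hR0 k)
    exact ((ENNReal.continuous_pow 2).tendsto _).comp (ENNReal.tendsto_ofReal h8)
  have hb : ∑ k ∈ I, ENNReal.ofReal (∫ g, Fk R w k g ∂μ) ^ 2 ≤ ENNReal.ofReal (343 * (6 * w) ^ (1 + c)) := by
    refine le_of_tendsto hlim2 (Eventually.of_forall fun i => ?_)
    refine (one_fn hN (hE i).cont hR0 hw I).trans ?_
    rw [ENNReal.ofReal_mul (by norm_num)]
    have h9 := h0 (l i) (Φ i) (hE i) (hcu i) (6 * w) (by linarith) hwb trivial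
    have e : ENNReal.ofReal 343 = 343 := by norm_num
    rw [e]
    gcongr
  refine hA.trans ((Finset.sum_le_sum fun k _ => ?_).trans (hb.trans (ENNReal.ofReal_le_ofReal ?_)))
  · gcongr
    exact hB k
  · rw [Real.mul_rpow (by norm_num) hw.le]
    have e1 : w ^ (1 + c) = w ^ (c / 2) * w ^ (1 + c / 2) := by
      rw [← Real.rpow_add hw]; congr 1; ring
    rw [e1]
    have h10 : 0 ≤ w ^ (1 + c / 2) := Real.rpow_nonneg hw.le _
    calc 343 * ((6 : ℝ) ^ (1 + c) * (w ^ (c / 2) * w ^ (1 + c / 2)))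
        = (343 * (6 : ℝ) ^ (1 + c) * w ^ (c / 2)) * w ^ (1 + c / 2) := by ring
      _ ≤ 1 * w ^ (1 + c / 2) := mul_le_mul_of_nonneg_right h3.le h10
      _ = _ := one_mul _

end

end Pool.Agent.A54.QE
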