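import Pool.Agent.Lib.QE.SpecBL
import Pool.Agent.Lib.QE.BCw

/-!
# Package `QE`: block B, assembly
-/

set_option autoImplicit false

namespace Pool.Agent.A54.QE

open MeasureTheory Filter Topology Set
open scoped ContDiff ComplexConjugate UpperHalfPlane MatrixGroups ENNReal
open Pool.Agent.A54.Dyn (G fl base ze io mk4 Inv HM)
open Pool.Agent.A54.Hp

/-- **block B**: the limit measure with all its properties, from the counting bound `CoreC` -/
theorem stmtBFin (hW : Wt) (h1 : StmtBLm) (h2 : StmtBCw) (h3 : StmtBHm) (h4 : StmtBRec)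
    (hC : ∃ c : ℝ, 0 < c ∧ CoreC c (fun _ _ => True)) : StmtB := by
  intro f t hf
  obtain ⟨c, hc, hC⟩ := hC
  obtain ⟨μ, l, Φ, he, hcu, hV, hi, hm⟩ := h1 f t hf
  have hfin : IsFiniteMeasureOnCompacts μ := hi.fin
  have hH := h3 (hyperfilter ℕ) l Φ μ inferInstance hfin he hV
  exact ⟨μ, c / 2, by linarith, hi, h4 hW μ hi hH,
    h2 c (hyperfilter ℕ) l Φ μ hc inferInstance hfin he hcu hC hV, hm⟩

end Pool.Agent.A54.QE
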