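import Pool.Agent.Lib.QE.SpecBL
import Pool.Agent.Lib.MP_a54f13_nt.Dyn.FlowLeft

/-!
# Package `QE`, module `BFl`: flow invariance of the limit
-/

set_option autoImplicit false

namespace Pool.Agent.A54.QE

open MeasureTheory Filter Topology Set
open scoped ContDiff ComplexConjugate UpperHalfPlane MatrixGroups ENNReal
open Pool.Agent.A54.Dyn (G fl base ze io mk4 Inv HM)
open Pool.Agent.A54.Hp
open Pool.Agent.A54.Half (H0)

noncomputable section

namespace BFlM

lemma cont_Pb (h4 : StmtTwG) {f : ℍ → ℝ} {t : ℝ} (hf : IsHeckeMaass f t) (N : ℕ) (b : ℤ → ℝ) :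
    Continuous (Pb f t N b) := by
  unfold Pb Ph
  refine continuous_finsetSum _ fun n _ => continuous_const.mul ?_
  obtain ⟨-, -, -, -, -, -, -, -, h⟩ := h4 f t hf n
  exact h

lemma hcs_Xf {φ : ℂ → ℂ} (hφ : Test H0 φ) (n : ℤ) : HasCompactSupport (Dyn.Xf φ n) := by
  have hK : IsCompact ((fun z : ℍ => (z : ℂ)) ⁻¹' tsupport φ) :=
    Half2.isCompact_pre hφ.cpt hφ.sub
  refine HasCompactSupport.intro (Dyn.isCompact_base hK) fun g hg =>
    Dyn.FlowLeftM.Xf_zero hK (fun z hz => image_eq_zero_of_notMem_tsupport hz) n hg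

end BFlM

theorem stmtBFl (h1 : StmtBXf) (h2 : Dyn.StmtFlow) (h3 : StmtNuL) (h4 : StmtTwG) : StmtBFl := by
  intro f t C₀ N b μ hf hp hμ hn hV
  refine h2 μ hμ hn fun n φ hφ => ?_
  obtain ⟨C, hC, hB⟩ := h1 C₀ hp.nonneg φ hφ n
  have i1 : IsFiniteMeasureOnCompacts nu := h3.2.1
  have hAc : Continuous (Dyn.Xf φ n) := Dyn.FlowLeftM.continuous_Xf hφ n
  have hAs : HasCompactSupport (Dyn.Xf φ n) := BFlM.hcs_Xf hφ n
  set A : G → ℂ := Dyn.Xf φ n with hA
  set Φ : ℕ → G → ℂ := fun i => Pb (f i) (t i) (N i) (b i) with hΦ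
  have hΦc : ∀ i, Continuous (Φ i) := fun i => BFlM.cont_Pb h4 (hf.form i) _ _
  have hI : ∀ i, Integrable (fun g => A g * ((‖Φ i g‖ ^ 2 : ℝ) : ℂ)) nu := fun i =>
    (hAc.mul (Complex.continuous_ofReal.comp ((hΦc i).norm.pow 2))).integrable_of_hasCompactSupport
      hAs.mul_right
  have h0 : Tendsto (fun i => ∫ g, A g * ((‖Φ i g‖ ^ 2 : ℝ) : ℂ) ∂nu) (hyperfilter ℕ : Filter ℕ)
      (𝓝 0) := by
    refine Tendsto.mono_left ?_ Nat.hyperfilter_le_atTop
    have hl : Tendsto (fun i => C * t i ^ (-(1 / 8) : ℝ)) atTop (𝓝 0) := by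
      have h := ((tendsto_rpow_neg_atTop (by norm_num : (0 : ℝ) < 1 / 8)).comp hf.lim).const_mul C
      rw [mul_zero] at h
      exact h
    refine squeeze_zero_norm' ?_ hl
    filter_upwards [hp.pack, hf.lim.eventually_ge_atTop 1] with i hi ht
    exact hB (f i) (t i) (hf.form i) ht 1 (N i) (b i) hi
  have hIμ : Integrable A μ := hAc.integrable_of_hasCompactSupport hAs
  have hre : ∫ g, (A g).re ∂μ = 0 := by
    have a1 := hV (fun g => (A g).re) (Complex.continuous_re.comp hAc)
      (hAs.comp_left Complex.zero_re)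
    have a2 : Tendsto (fun i => ∫ g, (A g).re * ‖Φ i g‖ ^ 2 ∂nu) (hyperfilter ℕ : Filter ℕ)
        (𝓝 0) := by
      have a3 := (Complex.continuous_re.tendsto 0).comp h0
      rw [Complex.zero_re] at a3
      refine a3.congr fun i => ?_
      have a4 := integral_re (hI i)
      simp only [Function.comp_apply]
      rw [← RCLike.re_eq_complex_re, ← a4]
      refine integral_congr_ae (ae_of_all _ fun g => ?_)
      simp only [RCLike.re_eq_complex_re, Complex.re_mul_ofReal]
    exact tendsto_nhds_unique a1 a2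
  have him : ∫ g, (A g).im ∂μ = 0 := by
    have a1 := hV (fun g => (A g).im) (Complex.continuous_im.comp hAc)
      (hAs.comp_left Complex.zero_im)
    have a2 : Tendsto (fun i => ∫ g, (A g).im * ‖Φ i g‖ ^ 2 ∂nu) (hyperfilter ℕ : Filter ℕ)
        (𝓝 0) := by
      have a3 := (Complex.continuous_im.tendsto 0).comp h0
      rw [Complex.zero_im] at a3
      refine a3.congr fun i => ?_
      have a4 := integral_im (hI i)
      simp only [Function.comp_apply]
      rw [← RCLike.im_eq_complex_im, ← a4]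
      refine integral_congr_ae (ae_of_all _ fun g => ?_)
      simp only [RCLike.im_eq_complex_im, Complex.im_mul_ofReal]
    exact tendsto_nhds_unique a1 a2
  have b1 := integral_re hIμ
  have b2 := integral_im hIμ
  simp only [RCLike.re_eq_complex_re, RCLike.im_eq_complex_im] at b1 b2
  exact Complex.ext (by rw [← b1, hre, Complex.zero_re]) (by rw [← b2, him, Complex.zero_im])

end

end Pool.Agent.A54.QE
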