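import Pool.Agent.Lib.QE.SpecBH
import Pool.Agent.Lib.MP_a54f13_nt.Hp.Nm

/-!
Package `QE`, module `BHk`: the Hecke group.
-/

set_option autoImplicit false

namespace Pool.Agent.A54.QE

open MeasureTheory Filter Topology Set
open scoped ContDiff ComplexConjugate UpperHalfPlane MatrixGroups ENNReal
open Pool.Agent.A54.Dyn (G fl base ze io mk4 Inv HM)
open Pool.Agent.A54.Hp (nm nu HE StmtNm StmtNuL)
open Pool.Agent.A54.Av (Mat)

namespace BHkM

lemma cnt : Hk.Countable := by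
  have h : Hk ⊆ range (fun s : Mat => nm s) := by
    rintro h ⟨s, -, rfl⟩
    exact ⟨s, rfl⟩
  have hc : Countable Mat := inferInstanceAs (Countable (Fin 2 → Fin 2 → ℤ))
  exact (countable_range _).mono h

lemma det_um (j b k : ℕ) : (um j b k).det = 2 ^ (j + k) := by
  rw [um, Matrix.det_fin_two_of, pow_add]
  ring

lemma inj : Function.Injective io := by
  intro γ γ' h
  ext i j
  have h1 : io γ i j = io γ' i j := by rw [h]
  have h2 : ∀ δ : SL(2, ℤ), io δ i j = ((δ i j : ℤ) : ℝ) := fun δ => by simp [io]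
  rw [h2, h2] at h1
  exact_mod_cast h1

end BHkM

theorem stmtBHk (hN : StmtNm) : StmtBHk := by
  obtain ⟨h1, h2, h3, -, -⟩ := hN
  refine ⟨BHkM.cnt, ?_, ?_, ?_, ?_, BHkM.inj⟩
  · intro γ
    refine ⟨(γ : Mat), ?_, (h2 γ).symm⟩
    have h : (γ : Mat).det = 1 := γ.det_coe
    rw [h]
    norm_num
  · rintro d ⟨s, hs, rfl⟩ d' ⟨s', hs', rfl⟩
    refine ⟨s * s', ?_, (h1 s s' hs hs').symm⟩
    rw [Matrix.det_mul]
    exact mul_pos hs hs'
  · rintro d ⟨s, hs, rfl⟩
    refine ⟨s.adjugate, ?_, (h3 s hs).symm⟩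
    rw [Matrix.det_adjugate]
    simpa using hs
  · intro n x
    refine ⟨um x.1 x.2 (n - x.1), ?_, rfl⟩
    rw [BHkM.det_um]
    positivity

end Pool.Agent.A54.QE
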