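import Pool.Agent.Lib.QE.SpecBH
import Pool.Agent.Lib.MP_a54f13_nt.Hp.NuLeft

/-!
Package `QE`, module `BHl`: the Hecke inequality for test functions in the limit.
-/

set_option autoImplicit false

namespace Pool.Agent.A54.QE

open MeasureTheory Filter Topology Set
open scoped ContDiff ComplexConjugate UpperHalfPlane MatrixGroups ENNReal
open Pool.Agent.A54.Dyn (G fl base ze io mk4 Inv HM)
open Pool.Agent.A54.Hp (nm nu HE StmtNm StmtNuL)
open Pool.Agent.A54.Av (Mat)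

namespace BHlM

/-- translates of test functions -/
lemma tr_cont {F : G → ℝ} (hF : Continuous F) (d : G) : Continuous fun g => F (d⁻¹ * g) :=
  hF.comp (continuous_const.mul continuous_id)

lemma tr_cs {F : G → ℝ} (hc : HasCompactSupport F) (d : G) :
    HasCompactSupport fun g => F (d⁻¹ * g) :=
  hc.comp_homeomorph (Homeomorph.mulLeft d⁻¹)

/-- integrability -/
lemma int_mul (hf : IsFiniteMeasureOnCompacts nu) {F : G → ℝ} {Φ : G → ℂ} (hF : Continuous F)
    (hc : HasCompactSupport F) (hΦ : Continuous Φ) (d : G) :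
    Integrable (fun g => F g * ‖Φ (d * g)‖ ^ 2) nu := by
  have h1 : Continuous fun g => F g * ‖Φ (d * g)‖ ^ 2 :=
    hF.mul ((hΦ.comp (continuous_const.mul continuous_id)).norm.pow 2)
  have h2 : HasCompactSupport fun g => F g * ‖Φ (d * g)‖ ^ 2 := hc.mul_right
  exact h1.integrable_of_hasCompactSupport h2

/-- moving the translate to the test function -/
lemma move (hl : nu.IsMulLeftInvariant) (F : G → ℝ) (Φ : G → ℂ) (d : G) :
    ∫ g, F g * ‖Φ (d * g)‖ ^ 2 ∂nu = ∫ g, F (d⁻¹ * g) * ‖Φ g‖ ^ 2 ∂nu := by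
  have h := integral_mul_left_eq_self (μ := nu) (fun g => F (d⁻¹ * g) * ‖Φ g‖ ^ 2) d
  rw [← h]
  refine integral_congr_ae (ae_of_all _ fun g => ?_)
  simp only [inv_mul_cancel_left]

end BHlM

theorem stmtBHl (h : StmtBPw) (hL : StmtNuL) : StmtBHl := by
  intro L l Φ μ hNe hE hV n hn F hF hc h0
  obtain ⟨hl, hf, -, -, -⟩ := hL
  have key : ∀ i, ∫ g, F g * ‖Φ i g‖ ^ 2 ∂nu ≤
      12 * ((∑ x ∈ Sn n, ∫ g, F ((hd n x)⁻¹ * g) * ‖Φ i g‖ ^ 2 ∂nu) +
        ∑ x ∈ Sn (n + 1), ∫ g, F ((hd (n + 1) x)⁻¹ * g) * ‖Φ i g‖ ^ 2 ∂nu) := by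
    intro i
    have hΦ := (hE i).cont
    have hI := fun d => BHlM.int_mul hf hF hc hΦ d
    have e1 : ∀ d : G, ∫ g, F (d⁻¹ * g) * ‖Φ i g‖ ^ 2 ∂nu = ∫ g, F g * ‖Φ i (d * g)‖ ^ 2 ∂nu :=
      fun d => (BHlM.move hl F (Φ i) d).symm
    simp only [e1]
    rw [← integral_finset_sum _ fun x _ => hI _, ← integral_finset_sum _ fun x _ => hI _,
      ← integral_add (integrable_finset_sum _ fun x _ => hI _)
        (integrable_finset_sum _ fun x _ => hI _), ← integral_const_mul]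
    have i1 : Integrable (fun g => F g * ‖Φ i g‖ ^ 2) nu := by
      have := hI 1
      simpa only [one_mul] using this
    refine integral_mono i1 (((integrable_finset_sum _ fun x _ => hI _).add
        (integrable_finset_sum _ fun x _ => hI _)).const_mul 12) fun g => ?_
    have h2 := h (l i) (Φ i) (hE i) n hn g
    have h3 := mul_le_mul_of_nonneg_left h2 (h0 g)
    refine h3.trans (le_of_eq ?_)
    simp only [← Finset.mul_sum]
    ring
  have t1 := hV F hF hc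
  have t2 : Tendsto (fun i => 12 * ((∑ x ∈ Sn n, ∫ g, F ((hd n x)⁻¹ * g) * ‖Φ i g‖ ^ 2 ∂nu) +
        ∑ x ∈ Sn (n + 1), ∫ g, F ((hd (n + 1) x)⁻¹ * g) * ‖Φ i g‖ ^ 2 ∂nu)) L
      (𝓝 (12 * ((∑ x ∈ Sn n, ∫ g, F ((hd n x)⁻¹ * g) ∂μ) +
        ∑ x ∈ Sn (n + 1), ∫ g, F ((hd (n + 1) x)⁻¹ * g) ∂μ))) := by
    refine Tendsto.const_mul 12 (Tendsto.add ?_ ?_)
    · exact tendsto_finset_sum _ fun x _ => hV _ (BHlM.tr_cont hF _) (BHlM.tr_cs hc _)
    · exact tendsto_finset_sum _ fun x _ => hV _ (BHlM.tr_cont hF _) (BHlM.tr_cs hc _)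
  exact le_of_tendsto_of_tendsto' t1 t2 key

end Pool.Agent.A54.QE
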