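import Pool.Agent.Lib.QE.SpecBH

/-!
# Package `QE`, module `BHm`: the Hecke inequality for the limit measure (helper65)
-/

set_option autoImplicit false

namespace Pool.Agent.A54.QE

open MeasureTheory Filter Topology Set
open scoped ContDiff ComplexConjugate UpperHalfPlane MatrixGroups ENNReal
open Pool.Agent.A54.Dyn (G fl base ze io mk4 Inv HM)
open Pool.Agent.A54.Hp (nm nu HE StmtNm StmtNuL)
open Pool.Agent.A54.Av (Mat)

noncomputable section

namespace BHmM

/-- the sum of the translates over a finite set -/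
def ms (μ : Measure G) {ι : Type} (s : Finset ι) (d : ι → G) : Measure G :=
  ∑ x ∈ s, μ.map fun g => (d x)⁻¹ * g

theorem meas_mul (h : G) : Measurable fun g : G => h * g := (continuous_const_mul h).measurable

theorem fin_map (μ : Measure G) [IsFiniteMeasureOnCompacts μ] (h : G) :
    IsFiniteMeasureOnCompacts (μ.map fun g => h * g) := by
  refine ⟨fun K hK => ?_⟩
  rw [Measure.map_apply (meas_mul h) hK.measurableSet]
  have h1 : IsCompact ((fun g => h * g) ⁻¹' K) := (Homeomorph.mulLeft h).isCompact_preimage.mpr hK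
  exact h1.measure_lt_top

theorem fin_ms (μ : Measure G) [IsFiniteMeasureOnCompacts μ] {ι : Type} (s : Finset ι)
    (d : ι → G) : IsFiniteMeasureOnCompacts (ms μ s d) := by
  refine ⟨fun K hK => ?_⟩
  rw [ms, Measure.finset_sum_apply]
  refine ENNReal.sum_lt_top.mpr fun x _ => ?_
  haveI := fin_map μ (d x)⁻¹
  exact hK.measure_lt_top

theorem int_ms (μ : Measure G) [IsFiniteMeasureOnCompacts μ] {ι : Type} (s : Finset ι)
    (d : ι → G) (F : G → ℝ) (hF : Continuous F) (hc : HasCompactSupport F) :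
    ∫ g, F g ∂(ms μ s d) = ∑ x ∈ s, ∫ g, F ((d x)⁻¹ * g) ∂μ := by
  rw [ms, integral_finset_sum_measure]
  · refine Finset.sum_congr rfl fun x _ => ?_
    rw [integral_map (meas_mul _).aemeasurable hF.aestronglyMeasurable]
  · intro x _
    haveI := fin_map μ (d x)⁻¹
    exact hF.integrable_of_hasCompactSupport hc

theorem lint_ms (μ : Measure G) {ι : Type} (s : Finset ι) (d : ι → G) (f : G → ℝ≥0∞)
    (hf : Measurable f) : ∫⁻ g, f g ∂(ms μ s d) = ∑ x ∈ s, ∫⁻ g, f ((d x)⁻¹ * g) ∂μ := by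
  rw [ms, lintegral_finset_sum_measure]
  exact Finset.sum_congr rfl fun x _ => lintegral_map hf (meas_mul _)

end BHmM

open BHmM

theorem stmtBHm (h1 : StmtBHl) (h2 : StmtBMc) : StmtBHm := by
  intro L l Φ μ hL hμ hΦ hV n hn f hf
  haveI := hμ
  haveI i1 := fin_ms μ (Sn n) (hd n)
  haveI i2 := fin_ms μ (Sn (n + 1)) (hd (n + 1))
  have i3 : IsFiniteMeasureOnCompacts
      ((12 : ℝ≥0∞) • (ms μ (Sn n) (hd n) + ms μ (Sn (n + 1)) (hd (n + 1)))) := by
    refine ⟨fun K hK => ?_⟩
    rw [Measure.smul_apply, Measure.add_apply, smul_eq_mul]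
    exact ENNReal.mul_lt_top (by norm_num) (ENNReal.add_lt_top.mpr
      ⟨hK.measure_lt_top, hK.measure_lt_top⟩)
  have key : μ ≤ (12 : ℝ≥0∞) • (ms μ (Sn n) (hd n) + ms μ (Sn (n + 1)) (hd (n + 1))) := by
    refine h2 μ _ hμ i3 fun F hF hc h0 => ?_
    have h3 := h1 L l Φ μ hL hΦ hV n hn F hF hc h0
    rw [integral_smul_measure, integral_add_measure (hF.integrable_of_hasCompactSupport hc)
      (hF.integrable_of_hasCompactSupport hc), int_ms μ _ _ F hF hc, int_ms μ _ _ F hF hc]
    have h4 : (12 : ℝ≥0∞).toReal = 12 := by norm_num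
    rw [h4, smul_eq_mul]
    exact h3
  have h5 : ∫⁻ g, f g ∂μ ≤
      ∫⁻ g, f g ∂((12 : ℝ≥0∞) • (ms μ (Sn n) (hd n) + ms μ (Sn (n + 1)) (hd (n + 1)))) :=
    lintegral_mono' key le_rfl
  rw [lintegral_smul_measure, lintegral_add_measure, lint_ms μ _ _ f hf, lint_ms μ _ _ f hf,
    smul_eq_mul] at h5
  exact h5

end

end Pool.Agent.A54.QE
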