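import Pool.Agent.Lib.QE.SpecBH

/-!
# BMc: comparison of measures by test functions
-/

set_option autoImplicit false

namespace Pool.Agent.A54.QE

open MeasureTheory Filter Topology Set
open scoped ContDiff ComplexConjugate UpperHalfPlane MatrixGroups ENNReal
open Pool.Agent.A54.Dyn (G fl base ze io mk4 Inv HM)
open Pool.Agent.A54.Hp (nm nu HE StmtNm StmtNuL)
open Pool.Agent.A54.Av (Mat)

noncomputable section

namespace BMcM

/-- compact sets inside open sets -/
private theorem comp_open {X : Type} [TopologicalSpace X] [T2Space X] [RegularSpace X] [LocallyCompactSpace X]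
    [MeasurableSpace X] [BorelSpace X] (μ μ' : Measure X) [IsFiniteMeasureOnCompacts μ]
    [IsFiniteMeasureOnCompacts μ']
    (h : ∀ F : X → ℝ, Continuous F → HasCompactSupport F → (∀ g, 0 ≤ F g) → ∫ g, F g ∂μ ≤ ∫ g, F g ∂μ')
    {K U : Set X} (hK : IsCompact K) (hU : IsOpen U) (hKU : K ⊆ U) : μ K ≤ μ' U := by
  obtain ⟨F, hF1, hF0, hFc, hF⟩ := exists_continuous_one_zero_of_isCompact hK hU.isClosed_compl
    (disjoint_compl_right_iff_subset.mpr hKU)
  have i1 : Integrable (fun x => F x) μ := F.continuous.integrable_of_hasCompactSupport hFc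
  have i2 : Integrable (fun x => F x) μ' := F.continuous.integrable_of_hasCompactSupport hFc
  have h1 : μ K ≤ ∫⁻ x, ENNReal.ofReal (F x) ∂μ := by
    rw [← lintegral_indicator_one hK.measurableSet]
    refine lintegral_mono fun x => ?_
    by_cases hx : x ∈ K
    · rw [Set.indicator_of_mem hx, hF1 hx]
      simp
    · rw [Set.indicator_of_notMem hx]
      exact zero_le
  have h2 : ∫⁻ x, ENNReal.ofReal (F x) ∂μ' ≤ μ' U := by
    rw [← lintegral_indicator_one hU.measurableSet]
    refine lintegral_mono fun x => ?_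
    by_cases hx : x ∈ U
    · rw [Set.indicator_of_mem hx]
      exact ENNReal.ofReal_le_one.2 (hF x).2
    · rw [hF0 hx]
      simp
  have h3 : ENNReal.ofReal (∫ x, F x ∂μ) = ∫⁻ x, ENNReal.ofReal (F x) ∂μ :=
    ofReal_integral_eq_lintegral_ofReal i1 (Eventually.of_forall fun x => (hF x).1)
  have h4 : ENNReal.ofReal (∫ x, F x ∂μ') = ∫⁻ x, ENNReal.ofReal (F x) ∂μ' :=
    ofReal_integral_eq_lintegral_ofReal i2 (Eventually.of_forall fun x => (hF x).1)
  have h5 := ENNReal.ofReal_le_ofReal (h F F.continuous hFc fun x => (hF x).1)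
  rw [h3, h4] at h5
  exact h1.trans (h5.trans h2)

end BMcM

open BMcM in
theorem stmtBMc : StmtBMc := by
  intro μ μ' hμ hμ' h
  have r1 : μ.Regular := inferInstance
  have r2 : μ'.Regular := inferInstance
  refine Measure.le_iff.2 fun s hs => ?_
  rw [hs.measure_eq_iSup_isCompact (μ := μ)]
  refine iSup_le fun K => iSup_le fun hKs => iSup_le fun hK => ?_
  have h1 : μ K ≤ μ' K := by
    rw [K.measure_eq_iInf_isOpen μ']
    refine le_iInf fun U => le_iInf fun hKU => le_iInf fun hU => ?_
    exact comp_open μ μ' h hK hU hKU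
  exact h1.trans (measure_mono hKs)

end

end Pool.Agent.A54.QE
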