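import Pool.Agent.Lib.QE.SpecBL
import Pool.Agent.Lib.MP_a54f13_nt.Half2

set_option autoImplicit false

/-!
# Package `QE`, module `BMd`: the mode `0` of the limit measure
-/

namespace Pool.Agent.A54.QE

open MeasureTheory Filter Topology Set
open scoped ContDiff ComplexConjugate UpperHalfPlane MatrixGroups ENNReal
open Pool.Agent.A54.Dyn (G fl base ze io mk4 Inv HM)
open Pool.Agent.A54.Hp
open Pool.Agent.A54.Half (H0)

noncomputable section

namespace BMdM

lemma cont {f : ℍ → ℝ} {t : ℝ} (hf : IsHeckeMaass f t) : Continuous f := by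
  have h3 : Continuous (fun z : ℍ => ext f (z : ℂ)) :=
    hf.smooth.continuousOn.comp_continuous UpperHalfPlane.continuous_coe (fun z => z.im_pos)
  have h4 : (fun z : ℍ => ext f (z : ℂ)) = f := funext (Half.ext_coe f)
  rwa [h4] at h3

/-- products with test functions are integrable on the half-plane -/
lemma integ {φ : ℂ → ℝ} (hφ : TestR H0 φ) {g : ℍ → ℝ} (hg : Continuous g) :
    Integrable (fun z : ℍ => φ z * g z) := by
  have hc : Continuous (fun z : ℍ => φ z * g z) :=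
    (hφ.smooth.continuous.comp UpperHalfPlane.continuous_coe).mul hg
  have hKc := Half2.isCompact_pre hφ.cpt.isCompact hφ.sub
  have h1 : IntegrableOn (fun z : ℍ => φ z * g z) (UpperHalfPlane.coe ⁻¹' (tsupport φ) : Set ℍ) :=
    hc.continuousOn.integrableOn_compact hKc
  rw [← integrable_indicator_iff hKc.isClosed.measurableSet] at h1
  refine h1.congr (Filter.Eventually.of_forall fun z => ?_)
  by_cases hz : z ∈ (UpperHalfPlane.coe ⁻¹' (tsupport φ) : Set ℍ)
  · rw [Set.indicator_of_mem hz]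
  · rw [Set.indicator_of_notMem hz]
    have : φ (z : ℂ) = 0 := image_eq_zero_of_notMem_tsupport hz
    simp only [this, zero_mul]

lemma norm_c (b : ℝ) (n : ℤ) : ‖(-Complex.I) ^ n * (b : ℂ)‖ ^ 2 = b ^ 2 := by
  rw [norm_mul, norm_zpow, norm_neg, Complex.norm_I, one_zpow, one_mul, Complex.norm_real,
    Real.norm_eq_abs, sq_abs]

/-- integrals of functions of the base point -/
lemma fib_int {Φ : G → ℂ} {S : ℍ → ℝ} (hΦ : Measurable Φ) (hS : Measurable S)
    (hS0 : ∀ z, 0 ≤ S z)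
    (h2 : ∀ H : ℍ → ℝ≥0∞, Measurable H → ∫⁻ g, H (base g) * ‖Φ g‖ₑ ^ 2 ∂nu =
      ∫⁻ z : ℍ, H z * ENNReal.ofReal (S z)) (φ : ℍ → ℝ) (hφ : Measurable φ) :
    ∫ g, φ (base g) * ‖Φ g‖ ^ 2 ∂nu = ∫ z : ℍ, φ z * S z := by
  have key : ∀ ψ : ℍ → ℝ, Measurable ψ →
      ∫⁻ g, ENNReal.ofReal (ψ (base g) * ‖Φ g‖ ^ 2) ∂nu = ∫⁻ z, ENNReal.ofReal (ψ z * S z) := by
    intro ψ hψ
    have h := h2 (fun z => ENNReal.ofReal (ψ z)) hψ.ennreal_ofReal
    calc ∫⁻ g, ENNReal.ofReal (ψ (base g) * ‖Φ g‖ ^ 2) ∂nu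
        = ∫⁻ g, ENNReal.ofReal (ψ (base g)) * ‖Φ g‖ₑ ^ 2 ∂nu := by
          refine lintegral_congr fun g => ?_
          rw [ENNReal.ofReal_mul' (by positivity), ENNReal.ofReal_pow (norm_nonneg _),
            ofReal_norm_eq_enorm]
      _ = ∫⁻ z, ENNReal.ofReal (ψ z) * ENNReal.ofReal (S z) := h
      _ = _ := lintegral_congr fun z => by rw [ENNReal.ofReal_mul' (hS0 z)]
  have hAm : Measurable fun g : G => φ (base g) * ‖Φ g‖ ^ 2 :=
    (hφ.comp Dyn.continuous_base.measurable).mul (hΦ.norm.pow_const 2)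
  have hBm : Measurable fun z : ℍ => φ z * S z := hφ.mul hS
  have hn : ∫⁻ g, ‖φ (base g) * ‖Φ g‖ ^ 2‖ₑ ∂nu = ∫⁻ z, ‖φ z * S z‖ₑ := by
    have h := key (fun z => ‖φ z‖) hφ.norm
    calc ∫⁻ g, ‖φ (base g) * ‖Φ g‖ ^ 2‖ₑ ∂nu
        = ∫⁻ g, ENNReal.ofReal (‖φ (base g)‖ * ‖Φ g‖ ^ 2) ∂nu := by
          refine lintegral_congr fun g => ?_
          rw [← ofReal_norm_eq_enorm, norm_mul, norm_pow, norm_norm]
      _ = ∫⁻ z, ENNReal.ofReal (‖φ z‖ * S z) := h
      _ = _ := by
          refine lintegral_congr fun z => ?_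
          rw [← ofReal_norm_eq_enorm, norm_mul, Real.norm_of_nonneg (hS0 z)]
  by_cases hA : Integrable (fun g => φ (base g) * ‖Φ g‖ ^ 2) nu
  · have hB : Integrable fun z : ℍ => φ z * S z := by
      refine ⟨hBm.aestronglyMeasurable, ?_⟩
      rw [HasFiniteIntegral, ← hn]
      exact hA.2
    rw [integral_eq_lintegral_pos_part_sub_lintegral_neg_part hA,
      integral_eq_lintegral_pos_part_sub_lintegral_neg_part hB, key φ hφ]
    have h := key (fun z => -φ z) hφ.neg
    simp only [neg_mul] at h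
    rw [h]
  · rw [integral_undef hA, integral_undef]
    intro hB
    refine hA ⟨hAm.aestronglyMeasurable, ?_⟩
    rw [HasFiniteIntegral, hn]
    exact hB.2

lemma real_lim (h1 : Hp.StmtFib) (h2 : Hp.StmtMsW) (h3 : Hp.StmtTwG) {f : ℕ → ℍ → ℝ} {t : ℕ → ℝ}
    {C₀ : ℝ} {N : ℕ → ℕ} {b : ℕ → ℤ → ℝ} {μ : Measure G} (hf : HM f t) (hp : PkS f t C₀ N b)
    (hV : VL (hyperfilter ℕ) (fun i => Pb (f i) (t i) (N i) (b i)) μ) {φ : ℂ → ℝ}
    (hφ : TestR H0 φ) :
    Tendsto (fun i => ∫ z : ℍ, φ z * f i z ^ 2) (hyperfilter ℕ : Filter ℕ)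
      (𝓝 (∫ g, φ (base g) ∂μ)) := by
  have hφc : Continuous fun z : ℍ => φ (z : ℂ) :=
    hφ.smooth.continuous.comp UpperHalfPlane.continuous_coe
  have hF : Continuous fun g : G => φ ((base g : ℍ) : ℂ) := hφc.comp Dyn.continuous_base
  have hFc : HasCompactSupport fun g : G => φ ((base g : ℍ) : ℂ) :=
    HasCompactSupport.intro (Dyn.isCompact_base (Half2.isCompact_pre hφ.cpt.isCompact hφ.sub))
      fun g hg => image_eq_zero_of_notMem_tsupport hg
  have h4 := hV _ hF hFc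
  set w : ℕ → ℤ → ℝ := fun i n => ‖(-Complex.I) ^ n * ((b i n : ℝ) : ℂ)‖ ^ 2 with hw
  have h5 : ∀ i, ∫ g, φ ((base g : ℍ) : ℂ) * ‖Pb (f i) (t i) (N i) (b i) g‖ ^ 2 ∂nu =
      ∫ z : ℍ, φ (z : ℂ) * Sw (f i) (t i) (N i) (w i) z := by
    intro i
    have hPc : Continuous (Pb (f i) (t i) (N i) (b i)) := by
      unfold Pb Ph
      exact continuous_finset_sum _ fun n _ =>
        continuous_const.mul (h3 (f i) (t i) (hf.form i) n).2.2.2.2.2.2.2.2
    have hSc : Continuous (Sw (f i) (t i) (N i) (w i)) := by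
      unfold Sw
      refine continuous_finset_sum _ fun n _ => continuous_const.mul (Continuous.pow ?_ 2)
      exact ((h3 (f i) (t i) (hf.form i) n).1.continuousOn.comp_continuous
        UpperHalfPlane.continuous_coe fun z => z.im_pos).norm
    have hS0 : ∀ z, 0 ≤ Sw (f i) (t i) (N i) (w i) z := fun z =>
      Finset.sum_nonneg fun n _ => mul_nonneg (sq_nonneg _) (sq_nonneg _)
    exact fib_int hPc.measurable hSc.measurable hS0
      (h1 (f i) (t i) (hf.form i) (N i) _).2 (fun z => φ (z : ℂ)) hφc.measurable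
  obtain ⟨C, hC, hMs⟩ := h2 φ hφ
  have h6 : ∀ᶠ i in atTop, ‖(∫ z : ℍ, φ (z : ℂ) * Sw (f i) (t i) (N i) (w i) z) -
      ∫ z : ℍ, φ z * f i z ^ 2‖ ≤ C * (2 * t i ^ (-(5 / 8) : ℝ)) := by
    filter_upwards [hp.pack, hf.lim.eventually_ge_atTop 1] with i hpk ht
    have hs : ∑ n ∈ Finset.Icc (-(N i : ℤ)) (N i), w i n = 1 := by
      rw [← hp.norm i]
      exact Finset.sum_congr rfl fun n _ => norm_c _ _
    have h := hMs (f i) (t i) (hf.form i) ht (N i) (w i) (fun n => sq_nonneg _) hs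
    rw [Real.norm_eq_abs]
    refine h.trans ?_
    have ht0 : 0 < t i := by linarith
    have h7 : (N i : ℝ) / t i ≤ 2 * t i ^ (-(5 / 8) : ℝ) := by
      have h8 : t i ^ (-(5 / 8) : ℝ) = t i ^ (1 / 2 - 1 / 8 : ℝ) / t i := by
        rw [← Real.rpow_sub_one ht0.ne']
        norm_num
      rw [h8, ← mul_div_assoc]
      exact div_le_div_of_nonneg_right hpk.hi ht0.le
    rw [mul_div_assoc]
    exact mul_le_mul_of_nonneg_left h7 hC
  have h7 : Tendsto (fun i => C * (2 * t i ^ (-(5 / 8) : ℝ))) atTop (𝓝 0) := by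
    have h8 := ((tendsto_rpow_neg_atTop (by norm_num : (0 : ℝ) < 5 / 8)).comp hf.lim).const_mul
      (2 : ℝ) |>.const_mul C
    simpa using h8
  have h8 := (squeeze_zero_norm' h6 h7).mono_left Nat.hyperfilter_le_atTop
  have h9 := (h4.congr h5).sub h8
  rw [sub_zero] at h9
  exact h9.congr fun i => by ring

lemma tR {φ : ℂ → ℂ} (hφ : Test H0 φ) (L : ℂ →L[ℝ] ℝ) : TestR H0 fun z => L (φ z) where
  smooth := L.contDiff.comp hφ.smooth
  cpt := hφ.cpt.comp_left (map_zero L)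
  sub := (tsupport_comp_subset (map_zero L) φ).trans hφ.sub

end BMdM

open BMdM in
theorem stmtBMd (h1 : Hp.StmtFib) (h2 : Hp.StmtMsW) (h3 : Hp.StmtTwG) : StmtBMd := by
  intro f t C₀ N b μ hf hp hμ hV φ hφ
  have hu : TestR H0 fun z => (φ z).re := tR hφ Complex.reCLM
  have hv : TestR H0 fun z => (φ z).im := tR hφ Complex.imCLM
  have lu := real_lim h1 h2 h3 hf hp hV hu
  have lv := real_lim h1 h2 h3 hf hp hV hv
  have e1 : ∀ i, ∫ z : ℍ, φ z * ((f i z : ℂ) ^ 2) =
      ((∫ z : ℍ, (φ z).re * f i z ^ 2 : ℝ) : ℂ) +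
        ((∫ z : ℍ, (φ z).im * f i z ^ 2 : ℝ) : ℂ) * Complex.I := by
    intro i
    have hc := (cont (hf.form i)).pow 2
    have iu := integ hu hc
    have iv := integ hv hc
    have iu' : Integrable fun z : ℍ => (((φ z).re * f i z ^ 2 : ℝ) : ℂ) := iu.ofReal
    have iv' : Integrable fun z : ℍ => (((φ z).im * f i z ^ 2 : ℝ) : ℂ) * Complex.I :=
      iv.ofReal.mul_const _
    rw [← integral_complex_ofReal, ← integral_complex_ofReal, ← integral_mul_const,
      ← integral_add iu' iv']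
    refine integral_congr_ae (Filter.Eventually.of_forall fun z => ?_)
    change φ z * (f i z : ℂ) ^ 2 = (((φ z).re * f i z ^ 2 : ℝ) : ℂ) +
      (((φ z).im * f i z ^ 2 : ℝ) : ℂ) * Complex.I
    conv_lhs => rw [← Complex.re_add_im (φ z)]
    push_cast
    ring
  have e2 : ∫ g, φ (base g) ∂μ = ((∫ g, (φ (base g)).re ∂μ : ℝ) : ℂ) +
      ((∫ g, (φ (base g)).im ∂μ : ℝ) : ℂ) * Complex.I := by
    have hF : Continuous fun g : G => φ ((base g : ℍ) : ℂ) :=
      (hφ.smooth.continuous.comp UpperHalfPlane.continuous_coe).comp Dyn.continuous_base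
    have hFc : HasCompactSupport fun g : G => φ ((base g : ℍ) : ℂ) :=
      HasCompactSupport.intro (Dyn.isCompact_base (Half2.isCompact_pre hφ.cpt.isCompact hφ.sub))
        fun g hg => image_eq_zero_of_notMem_tsupport hg
    have hi := hF.integrable_of_hasCompactSupport (μ := μ) hFc
    have iu : Integrable (fun g : G => (φ (base g)).re) μ := hi.re
    have iv : Integrable (fun g : G => (φ (base g)).im) μ := hi.im
    have iu' : Integrable (fun g : G => (((φ (base g)).re : ℝ) : ℂ)) μ := iu.ofReal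
    have iv' : Integrable (fun g : G => (((φ (base g)).im : ℝ) : ℂ) * Complex.I) μ :=
      iv.ofReal.mul_const _
    rw [← integral_complex_ofReal, ← integral_complex_ofReal, ← integral_mul_const,
      ← integral_add iu' iv']
    refine integral_congr_ae (Filter.Eventually.of_forall fun g => ?_)
    exact (Complex.re_add_im _).symm
  rw [e2]
  have l1 := (Complex.continuous_ofReal.tendsto _).comp lu
  have l2 := ((Complex.continuous_ofReal.tendsto _).comp lv).mul_const Complex.I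
  exact (l1.add l2).congr fun i => (e1 i).symm

end

end Pool.Agent.A54.QE
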