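import Pool.Agent.Lib.QE.SpecBL
import Pool.Agent.Lib.MP_a54f13_nt.Dyn.Lim

/-!
Package `QE`, module `BMs`: finite mass of the limit measure.
-/

set_option autoImplicit false

namespace Pool.Agent.A54.QE

open MeasureTheory Filter Topology Set
open scoped ContDiff ComplexConjugate UpperHalfPlane MatrixGroups ENNReal
open Pool.Agent.A54.Dyn (G fl base ze io mk4 Inv HM)
open Pool.Agent.A54.Half (H0)

noncomputable section

namespace BMsM

open Pool.Agent.A54.Dyn Pool.Agent.A54.Dyn.LimM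

lemma mass_cpt {f : ℕ → ℍ → ℝ} {t : ℕ → ℝ} (hS : Dyn.StmtSgB) (hf : HM f t)
    {μ : Measure G} [IsFiniteMeasureOnCompacts μ] (hM : Md0 f μ) {C : ℝ}
    (hC : ∀ (f : ℍ → ℝ) (t : ℝ), IsHeckeMaass f t →
    ∫⁻ z in {z : ℍ | |z.re| < 1 ∧ 1 / 2 < z.im}, ENNReal.ofReal (f z ^ 2) ≤ ENNReal.ofReal C)
    {K : Set ℍ} (hK : IsCompact K) (hKf : K ⊆ ModularGroup.fd) :
    μ (base ⁻¹' K) ≤ ENNReal.ofReal (max C 0) := by
  have hK' : IsCompact (UpperHalfPlane.coe '' K) := hK.image UpperHalfPlane.continuous_coe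
  have hKU : UpperHalfPlane.coe '' K ⊆ Us := by
    rintro _ ⟨z, hz, rfl⟩
    exact fd_sub (hKf hz)
  obtain ⟨ζ, hζ, h01, hev⟩ := exists_cutoff hK' isOpen_Us hKU
  have h1 : ∀ z ∈ K, ζ (z : ℂ) = 1 := by
    intro z hz
    have : {w : ℂ | ζ w = 1} ∈ 𝓝 (z : ℂ) := (mem_nhdsSet_iff_forall.mp hev) z ⟨z, hz, rfl⟩
    have h2 : (z : ℂ) ∈ {w : ℂ | ζ w = 1} := mem_of_mem_nhds this
    exact h2
  have hζ' : Test H0 (fun z => (ζ z : ℂ)) :=
    ⟨hζ.toTest.smooth, hζ.toTest.cpt, hζ.toTest.sub.trans Us_sub⟩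
  have hint : Integrable (fun g : G => ζ (base g)) μ := by
    have := (integG (μ := μ) hζ' 0).re
    refine this.congr (Filter.Eventually.of_forall fun g => ?_)
    simp
  have hb : ∀ i, ∫ z : ℍ, ζ z * f i z ^ 2 ≤ max C 0 := by
    intro i
    have hcf : Continuous (f i) := by
      have := Complex.continuous_re.comp (cont_f hS hf i)
      simpa [Function.comp_def] using this
    have hc : Continuous (fun z : ℍ => ζ z * f i z ^ 2) :=
      (hζ.smooth.continuous.comp UpperHalfPlane.continuous_coe).mul (hcf.pow 2)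
    have h0 : 0 ≤ᵐ[volume] (fun z : ℍ => ζ z * f i z ^ 2) :=
      Filter.Eventually.of_forall fun z => mul_nonneg (h01 (z : ℂ)).1 (sq_nonneg (f i z))
    rw [integral_eq_lintegral_of_nonneg_ae h0 hc.aestronglyMeasurable]
    apply ENNReal.toReal_le_of_le_ofReal (le_max_right _ _)
    have hm : MeasurableSet {z : ℍ | |z.re| < 1 ∧ 1 / 2 < z.im} := by
      have : IsOpen {z : ℍ | |z.re| < 1 ∧ 1 / 2 < z.im} :=
        (isOpen_lt UpperHalfPlane.continuous_re.abs continuous_const).inter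
          (isOpen_lt continuous_const UpperHalfPlane.continuous_im)
      exact this.measurableSet
    calc ∫⁻ z : ℍ, ENNReal.ofReal (ζ z * f i z ^ 2)
        ≤ ∫⁻ z : ℍ, ({z : ℍ | |z.re| < 1 ∧ 1 / 2 < z.im}).indicator
            (fun z => ENNReal.ofReal (f i z ^ 2)) z := by
          apply lintegral_mono
          intro z
          by_cases hz : z ∈ {z : ℍ | |z.re| < 1 ∧ 1 / 2 < z.im}
          · rw [indicator_of_mem hz]
            apply ENNReal.ofReal_le_ofReal
            nlinarith [(h01 (z : ℂ)).1, (h01 (z : ℂ)).2, sq_nonneg (f i z)]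
          · have : ζ (z : ℂ) = 0 := hζ.eq_zero (V := Us) (fun h => hz h)
            simp only [this, zero_mul, ENNReal.ofReal_zero]
            exact zero_le
      _ = ∫⁻ z in {z : ℍ | |z.re| < 1 ∧ 1 / 2 < z.im}, ENNReal.ofReal (f i z ^ 2) :=
          lintegral_indicator hm _
      _ ≤ ENNReal.ofReal C := hC (f i) (t i) (hf.form i)
      _ ≤ _ := ENNReal.ofReal_le_ofReal (le_max_left _ _)
  have hlim := hM _ hζ'
  have e1 : ∀ i, ∫ z : ℍ, (ζ z : ℂ) * ((f i z : ℂ) ^ 2) =
      ((∫ z : ℍ, ζ z * f i z ^ 2 : ℝ) : ℂ) := by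
    intro i
    rw [← integral_complex_ofReal]
    congr 1
    ext z
    push_cast
    ring
  have e2 : ∫ g, (ζ (base g) : ℂ) ∂μ = ((∫ g, ζ (base g) ∂μ : ℝ) : ℂ) :=
    integral_complex_ofReal
  simp_rw [e1] at hlim
  rw [e2] at hlim
  have hlim' : Tendsto (fun i => ∫ z : ℍ, ζ z * f i z ^ 2) (hyperfilter ℕ : Filter ℕ)
      (𝓝 (∫ g, ζ (base g) ∂μ)) := by
    have := (Complex.continuous_re.tendsto _).comp hlim
    simpa [Function.comp_def] using this
  have hle : ∫ g, ζ (base g) ∂μ ≤ max C 0 :=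
    le_of_tendsto hlim' (Filter.Eventually.of_forall hb)
  calc μ (base ⁻¹' K) = ∫⁻ g in base ⁻¹' K, 1 ∂μ := (setLIntegral_one _).symm
    _ ≤ ∫⁻ g in base ⁻¹' K, ENNReal.ofReal (ζ (base g)) ∂μ := by
        apply setLIntegral_mono' (measurable_base hK.isClosed.measurableSet)
        intro g hg
        rw [h1 (base g) hg, ENNReal.ofReal_one]
    _ ≤ ∫⁻ g, ENNReal.ofReal (ζ (base g)) ∂μ := setLIntegral_le_lintegral _ _
    _ = ENNReal.ofReal (∫ g, ζ (base g) ∂μ) := by
        rw [ofReal_integral_eq_lintegral_ofReal hint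
          (Filter.Eventually.of_forall fun g => (h01 _).1)]
    _ ≤ _ := ENNReal.ofReal_le_ofReal hle

end BMsM

open Pool.Agent.A54.Dyn.LimM in
theorem stmtBMs (h1 : Dyn.StmtLB) (h2 : Dyn.StmtSgB) : StmtBMs := by
  intro f t μ hf hμ hM
  haveI := hμ
  obtain ⟨C, hC⟩ := h1.2.1
  have e : base ⁻¹' ModularGroup.fd = ⋃ n : ℕ, base ⁻¹' (ModularGroup.fd ∩
      Metric.closedBall UpperHalfPlane.I n) := by
    ext g
    simp only [mem_preimage, mem_iUnion, mem_inter_iff, Metric.mem_closedBall, exists_and_left]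
    constructor
    · intro h
      exact ⟨h, exists_nat_ge _⟩
    · exact fun h => h.1
  have hmono : Monotone (fun n : ℕ => base ⁻¹' (ModularGroup.fd ∩
      Metric.closedBall UpperHalfPlane.I n)) := by
    intro m n hmn
    apply preimage_mono
    apply inter_subset_inter_right
    exact Metric.closedBall_subset_closedBall (by exact_mod_cast hmn)
  rw [e, hmono.measure_iUnion]
  refine lt_of_le_of_lt (iSup_le fun n => ?_) (ENNReal.ofReal_lt_top (r := max C 0))
  exact BMsM.mass_cpt h2 hf hM hC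
    ((isCompact_closedBall UpperHalfPlane.I (n : ℝ)).inter_left isClosed_fd) inter_subset_left

end

end Pool.Agent.A54.QE
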