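import Pool.Agent.Lib.QE.SpecBL

/-!
# Package `QE`, module BPq: packets for a sequence
-/

set_option autoImplicit false

namespace Pool.Agent.A54.QE

open MeasureTheory Filter Topology Set
open scoped ContDiff ComplexConjugate UpperHalfPlane MatrixGroups ENNReal
open Pool.Agent.A54.Dyn (G fl base ze io mk4 Inv HM)
open Pool.Agent.A54.Hp
open Pool.Agent.A54.Half (H0)

noncomputable section

namespace BPqM

/-- the Hecke eigenvalues of a form -/
theorem exists_eig {f : ℍ → ℝ} {t : ℝ} (hf : IsHeckeMaass f t) :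
    ∃ l : ℕ → ℝ, ∀ p : ℕ, p.Prime → Av.IsHk f p (√p * l p) := by
  classical
  refine ⟨fun p => if h : 1 ≤ p then (hf.hecke p h).choose / √p else 0, fun p hp => ?_⟩
  have h1 : 1 ≤ p := hp.one_lt.le
  have h2 : 0 < √(p : ℝ) := Real.sqrt_pos.mpr (by exact_mod_cast hp.pos)
  have h3 : √(p : ℝ) * (if h : 1 ≤ p then (hf.hecke p h).choose / √p else 0) =
      (hf.hecke p h1).choose := by
    rw [dif_pos h1, mul_div_cancel₀ _ h2.ne']
  show Av.IsHk f p _
  rw [h3]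
  exact (hf.hecke p h1).choose_spec

/-- packets or the trivial packet -/
theorem exists_pk {C t₀ : ℝ} (h : ∀ t : ℝ, t₀ ≤ t → ∃ (N : ℕ) (b : ℤ → ℝ), 1 ≤ N ∧ Pack (1 / 8) C 1 t N b)
    (t : ℝ) : ∃ (N : ℕ) (b : ℤ → ℝ), (t₀ ≤ t → Pack (1 / 8) C 1 t N b) ∧
      ∑ n ∈ Finset.Icc (-(N : ℤ)) N, b n ^ 2 = 1 := by
  by_cases ht : t₀ ≤ t
  · obtain ⟨N, b, -, hb⟩ := h t ht
    exact ⟨N, b, fun _ => hb, hb.norm⟩
  · refine ⟨1, fun n => if n = 0 then 1 else 0, fun h0 => absurd h0 ht, ?_⟩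
    rw [Finset.sum_eq_single (0 : ℤ)]
    · simp
    · intro n _ hn
      simp [hn]
    · intro h0
      exact absurd (by simp) h0

/-- norms of the coefficients -/
theorem norm_c (n : ℤ) (x : ℝ) : ‖(-Complex.I) ^ n * (x : ℂ)‖ ^ 2 = x ^ 2 := by
  rw [norm_mul, norm_zpow, norm_neg, Complex.norm_I, one_zpow, one_mul, Complex.norm_real,
    Real.norm_eq_abs, sq_abs]

end BPqM

open BPqM

theorem stmtBPq (h1 : Hp.StmtPk) (h2 : Hp.StmtHeF) (h3 : Hp.StmtCus) : StmtBPq := by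
  intro f t hf
  obtain ⟨C, t₀, hC, -, hP⟩ := h1 (1 / 8) (by norm_num) le_rfl 1
  choose l hl using fun i => exists_eig (hf.form i)
  choose N b hb hn using fun i => exists_pk hP (t i)
  refine ⟨l, C, N, b, ⟨hC, ?_, hn⟩, fun i => ?_, fun i g => ?_⟩
  · filter_upwards [hf.lim.eventually_ge_atTop t₀] with i hi
    exact hb i hi
  · refine h2 (f i) (t i) (hf.form i) (l i) (hl i) (N i) _ ?_
    rw [Finset.sum_congr rfl fun n _ => norm_c n (b i n)]
    exact (hn i).le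
  · exact (h3 (f i) (t i) (hf.form i)).2 (N i) _ g

end

end Pool.Agent.A54.QE
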