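import Pool.Agent.Lib.QE.SpecBH
import Pool.Agent.Lib.MP_a54f13_nt.Hp.Nm

/-!
Package `QE`, module `BPs`: primitive sums.
-/

set_option autoImplicit false

namespace Pool.Agent.A54.QE

open MeasureTheory Filter Topology Set
open scoped ContDiff ComplexConjugate UpperHalfPlane MatrixGroups ENNReal
open Pool.Agent.A54.Dyn (G fl base ze io mk4 Inv HM)
open Pool.Agent.A54.Hp (nm nu HE StmtNm StmtNuL)
open Pool.Agent.A54.Av (Mat)

namespace BPsM

/-- all pairs `(j, b)`, `j ≤ n`, `b < 2^(n-j)` -/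
def An (n : ℕ) : Finset (ℕ × ℕ) :=
  (Finset.range (n + 1) ×ˢ Finset.range (2 ^ n)).filter fun x => x.2 < 2 ^ (n - x.1)

lemma mem_An {n : ℕ} {x : ℕ × ℕ} : x ∈ An n ↔ x.1 < n + 1 ∧ x.2 < 2 ^ (n - x.1) := by
  unfold An
  rw [Finset.mem_filter, Finset.mem_product, Finset.mem_range, Finset.mem_range]
  constructor
  · rintro ⟨⟨h1, _⟩, h3⟩
    exact ⟨h1, h3⟩
  · rintro ⟨h1, h3⟩
    exact ⟨⟨h1, lt_of_lt_of_le h3 (Nat.pow_le_pow_right (by norm_num) (Nat.sub_le _ _))⟩, h3⟩

lemma mem_Sn {n : ℕ} {x : ℕ × ℕ} :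
    x ∈ Sn n ↔ x ∈ An n ∧ (x.1 = 0 ∨ x.1 = n ∨ Odd x.2) := by
  unfold Sn An
  rw [Finset.mem_filter, Finset.mem_filter, and_assoc]

/-- the sum over all pairs -/
lemma sum_An {M : Type} [AddCommMonoid M] (F : ℕ → ℕ → M) (n : ℕ) :
    ∑ x ∈ An n, F x.1 x.2 = ∑ j ∈ Finset.range (n + 1), ∑ b ∈ Finset.range (2 ^ (n - j)), F j b := by
  unfold An
  rw [Finset.sum_filter, Finset.sum_product]
  apply Finset.sum_congr rfl
  intro j _
  rw [← Finset.sum_filter]
  apply Finset.sum_congr _ (fun _ _ => rfl)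
  ext b
  rw [Finset.mem_filter, Finset.mem_range, Finset.mem_range]
  constructor
  · exact fun h => h.2
  · exact fun h => ⟨lt_of_lt_of_le h (Nat.pow_le_pow_right (by norm_num) (Nat.sub_le _ _)), h⟩

/-- the pairs which are not primitive -/
lemma sum_split {M : Type} [AddCommMonoid M] (F : ℕ × ℕ → M) (m : ℕ) :
    ∑ x ∈ Sn (m + 2), F x + ∑ x ∈ An m, F (x.1 + 1, 2 * x.2) = ∑ x ∈ An (m + 2), F x := by
  classical
  have e1 : Sn (m + 2) = (An (m + 2)).filter fun x => x.1 = 0 ∨ x.1 = m + 2 ∨ Odd x.2 := by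
    ext x
    rw [mem_Sn, Finset.mem_filter]
  have e2 : ((An (m + 2)).filter fun x => ¬ (x.1 = 0 ∨ x.1 = m + 2 ∨ Odd x.2)) =
      (An m).image fun x => (x.1 + 1, 2 * x.2) := by
    ext x
    rw [Finset.mem_filter, Finset.mem_image, mem_An]
    constructor
    · rintro ⟨⟨h1, h2⟩, h3⟩
      push Not at h3
      obtain ⟨h4, h5, h6⟩ := h3
      rw [Nat.not_odd_iff_even] at h6
      obtain ⟨c, hc⟩ := h6
      refine ⟨(x.1 - 1, c), ?_, ?_⟩
      · rw [mem_An]
        constructor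
        · show x.1 - 1 < m + 1
          omega
        · show c < 2 ^ (m - (x.1 - 1))
          have h7 : m + 2 - x.1 = (m - (x.1 - 1)) + 1 := by omega
          rw [h7, pow_succ] at h2
          omega
      · apply Prod.ext
        · show x.1 - 1 + 1 = x.1
          omega
        · show 2 * c = x.2
          omega
    · rintro ⟨y, hy, rfl⟩
      rw [mem_An] at hy
      obtain ⟨h1, h2⟩ := hy
      have h7 : m + 2 - (y.1 + 1) = (m - y.1) + 1 := by omega
      refine ⟨⟨?_, ?_⟩, ?_⟩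
      · show y.1 + 1 < m + 2 + 1
        omega
      · show 2 * y.2 < 2 ^ (m + 2 - (y.1 + 1))
        rw [h7, pow_succ]
        omega
      · rintro (h | h | h)
        · exact absurd h (Nat.succ_ne_zero _)
        · have h' : y.1 + 1 = m + 2 := h
          omega
        · have h' : Odd (2 * y.2) := h
          exact (Nat.not_odd_iff_even.mpr (even_two_mul _)) h'
  have e3 : ∑ x ∈ An m, F (x.1 + 1, 2 * x.2) =
      ∑ x ∈ (An (m + 2)).filter (fun x => ¬ (x.1 = 0 ∨ x.1 = m + 2 ∨ Odd x.2)), F x := by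
    rw [e2, Finset.sum_image]
    intro x _ y _ h
    have h1 : x.1 + 1 = y.1 + 1 := congrArg Prod.fst h
    have h2 : 2 * x.2 = 2 * y.2 := congrArg Prod.snd h
    apply Prod.ext
    · omega
    · omega
  rw [e3, e1]
  exact Finset.sum_filter_add_sum_filter_not _ _ _

lemma Sn_one : Sn 1 = An 1 := by
  ext x
  rw [mem_Sn, mem_An]
  constructor
  · exact fun h => h.1
  · intro h
    refine ⟨h, ?_⟩
    have h1 := h.1
    have h2 : x.1 = 0 ∨ x.1 = 1 := by omega
    rcases h2 with h2 | h2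
    · exact Or.inl h2
    · exact Or.inr (Or.inl h2)

lemma Tn_eq (Φ : G → ℂ) (n : ℕ) (g : G) : Tn Φ n g = ∑ x ∈ An n, Φ (hd n x * g) := by
  unfold Tn
  rw [← sum_An (fun j b => Φ (nm (um j b (n - j)) * g)) n]
  rfl

lemma um_two (j b k : ℕ) : um (j + 1) (2 * b) (k + 1) = (2 : ℤ) • um j b k := by
  unfold um
  ext i l
  fin_cases i <;> fin_cases l <;> simp [pow_succ] <;> ring

lemma hd_two (hN : StmtNm) (m : ℕ) (x : ℕ × ℕ) (hx : x ∈ An m) :
    hd (m + 2) (x.1 + 1, 2 * x.2) = hd m x := by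
  rw [mem_An] at hx
  unfold hd
  have h : m + 2 - (x.1 + 1) = (m - x.1) + 1 := by omega
  show nm (um (x.1 + 1) (2 * x.2) (m + 2 - (x.1 + 1))) = nm (um x.1 x.2 (m - x.1))
  rw [h, um_two]
  exact hN.2.2.2.1 2 _ (by norm_num)

lemma geo (k : ℕ) : ∑ j ∈ Finset.range k, 2 ^ j + 1 = 2 ^ k := by
  induction k with
  | zero => simp
  | succ k ih => rw [Finset.sum_range_succ, pow_succ]; omega

lemma card_An (n : ℕ) : (An n).card + 1 = 2 ^ (n + 1) := by
  have h1 : (An n).card = ∑ j ∈ Finset.range (n + 1), 2 ^ (n - j) := by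
    rw [Finset.card_eq_sum_ones, sum_An (fun _ _ => 1) n]
    apply Finset.sum_congr rfl
    intro j _
    simp
  have h2 : ∑ j ∈ Finset.range (n + 1), 2 ^ (n - j) = ∑ j ∈ Finset.range (n + 1), 2 ^ j := by
    have := Finset.sum_range_reflect (fun j => 2 ^ j) (n + 1)
    rw [← this]
    apply Finset.sum_congr rfl
    intro j _
    have e : n + 1 - 1 - j = n - j := by omega
    rw [e]
  rw [h1, h2]
  exact geo (n + 1)

end BPsM

open BPsM

theorem stmtBPs (hN : StmtNm) : StmtBPs := by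
  refine ⟨?_, ?_, ?_⟩
  · intro Φ n g hn
    obtain ⟨m, rfl⟩ := Nat.exists_eq_add_of_le' hn
    have h := sum_split (fun x => Φ (hd (m + 2) x * g)) m
    have h2 : ∑ x ∈ An m, Φ (hd (m + 2) (x.1 + 1, 2 * x.2) * g) = Tn Φ m g := by
      rw [Tn_eq]
      apply Finset.sum_congr rfl
      intro x hx
      rw [hd_two hN m x hx]
    have h3 : m + 2 - 2 = m := by omega
    rw [h3, Tn_eq Φ (m + 2), ← h, h2]
    ring
  · intro Φ g
    rw [Tn_eq, Sn_one]
  · intro n hn
    rcases Nat.lt_or_ge n 2 with h | h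
    · have h1 : n = 1 := by omega
      subst h1
      have h2 := card_An 1
      rw [Sn_one]
      have e : (2 : ℕ) ^ (1 + 1) = 4 := by norm_num
      have e' : 3 * 2 ^ (1 - 1) = 3 := by norm_num
      omega
    · obtain ⟨m, rfl⟩ := Nat.exists_eq_add_of_le' h
      have h1 := sum_split (fun _ => (1 : ℕ)) m
      rw [← Finset.card_eq_sum_ones, ← Finset.card_eq_sum_ones, ← Finset.card_eq_sum_ones] at h1
      have h2 := card_An m
      have h3 := card_An (m + 2)
      have e1 : 2 ^ (m + 2 + 1) = 8 * 2 ^ m := by ring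
      have e2 : 2 ^ (m + 1) = 2 * 2 ^ m := by ring
      have e3 : 3 * 2 ^ (m + 2 - 1) = 6 * 2 ^ m := by
        have : m + 2 - 1 = m + 1 := by omega
        rw [this]; ring
      rw [e1] at h3
      rw [e2] at h2
      rw [e3]
      omega

end Pool.Agent.A54.QE
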