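import Pool.Agent.Lib.QE.SpecBH

/-!
Package `QE`, module `BPw`: the pointwise Hecke inequality.
-/

set_option autoImplicit false

namespace Pool.Agent.A54.QE

open MeasureTheory Filter Topology Set
open scoped ContDiff ComplexConjugate UpperHalfPlane MatrixGroups ENNReal
open Pool.Agent.A54.Dyn (G fl base ze io mk4 Inv HM)
open Pool.Agent.A54.Hp (nm nu HE StmtNm StmtNuL)
open Pool.Agent.A54.Av (Mat)

noncomputable section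

namespace BPwM

/-- the recursion sequence -/
def tt (lam : ℝ) : ℕ → ℝ
  | 0 => 1
  | 1 => lam
  | (n + 2) => lam * tt lam (n + 1) - 2 * tt lam n

/-- the primitive sequence -/
def cc (lam : ℝ) (n : ℕ) : ℝ := if n = 1 then tt lam 1 else tt lam n - tt lam (n - 2)

lemma hT {Φ : G → ℂ} {lam : ℝ} (t0 : ∀ g, Tn Φ 0 g = Φ g) (t1 : ∀ g, Tn Φ 1 g = (lam : ℂ) * Φ g)
    (tr : ∀ (n : ℕ) (g : G), 1 ≤ n → Tn Φ (n + 1) g = (lam : ℂ) * Tn Φ n g - 2 * Tn Φ (n - 1) g)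
    (g : G) : ∀ n : ℕ, Tn Φ n g = (tt lam n : ℂ) * Φ g ∧ Tn Φ (n + 1) g = (tt lam (n + 1) : ℂ) * Φ g := by
  intro n
  induction n with
  | zero =>
    refine ⟨?_, ?_⟩
    · rw [t0]; simp [tt]
    · rw [zero_add, t1]; simp [tt]
  | succ n ih =>
    refine ⟨ih.2, ?_⟩
    rw [tr (n + 1) g (by omega), Nat.add_sub_cancel, ih.1, ih.2]
    show _ = ((lam * tt lam (n + 1) - 2 * tt lam n : ℝ) : ℂ) * Φ g
    push_cast
    ring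

lemma cs (s : Finset (ℕ × ℕ)) (F : ℕ × ℕ → ℂ) (c : ℝ) (z : ℂ) (h : ∑ x ∈ s, F x = (c : ℂ) * z) :
    c ^ 2 * ‖z‖ ^ 2 ≤ s.card * ∑ x ∈ s, ‖F x‖ ^ 2 := by
  have e1 : ‖(c : ℂ) * z‖ = |c| * ‖z‖ := by
    rw [norm_mul, Complex.norm_real, Real.norm_eq_abs]
  have e2 : |c| * ‖z‖ ≤ ∑ x ∈ s, ‖F x‖ := by
    rw [← e1, ← h]
    exact norm_sum_le _ _
  have e3 : (|c| * ‖z‖) ^ 2 ≤ (∑ x ∈ s, ‖F x‖) ^ 2 :=
    pow_le_pow_left₀ (by positivity) e2 2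
  have e4 : (∑ x ∈ s, ‖F x‖) ^ 2 ≤ s.card * ∑ x ∈ s, ‖F x‖ ^ 2 := sq_sum_le_card_mul_sum_sq
  have e5 : (|c| * ‖z‖) ^ 2 = c ^ 2 * ‖z‖ ^ 2 := by
    rw [mul_pow, sq_abs]
  linarith

end BPwM

open BPwM in
theorem stmtBPw (h1 : StmtBTr) (h2 : StmtBPs) (h3 : StmtBAr) : StmtBPw := by
  intro l Φ hH n hn g
  obtain ⟨ps, ps1, pc⟩ := h2
  have hrel : ∀ g : G, Φ (nm !![2, 0; 0, 1] * g) + (Φ (nm !![1, 0; 0, 2] * g) +
      Φ (nm !![1, 1; 0, 2] * g)) = ((√2 * l 2 : ℝ) : ℂ) * Φ g := by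
    intro g
    have h := hH.hecke 2 Nat.prime_two g
    rw [Finset.sum_range_succ, Finset.sum_range_one] at h
    simpa using h
  obtain ⟨t0, t1, tr⟩ := h1 Φ ((√2 * l 2 : ℝ) : ℂ) hH.inv hrel
  set lam : ℝ := √2 * l 2 with hlam
  have hTT := hT t0 t1 tr
  have hc : ∀ m : ℕ, 1 ≤ m → ∑ x ∈ Sn m, Φ (hd m x * g) = (cc lam m : ℂ) * Φ g := by
    intro m hm
    by_cases e : m = 1
    · subst e
      rw [ps1, (hTT g 1).1]
      simp [cc]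
    · rw [ps Φ m g (by omega), (hTT g m).1, (hTT g (m - 2)).1]
      simp only [cc, e, if_false]
      push_cast
      ring
  have har := h3 lam (tt lam) (cc lam) rfl rfl (by
    intro m hm
    obtain ⟨k, rfl⟩ : ∃ k, m = k + 1 := ⟨m - 1, by omega⟩
    rfl) (by simp [cc]) (by
    intro m hm
    have e : m ≠ 1 := by omega
    simp [cc, e]) n hn
  have a1 := cs (Sn n) (fun x => Φ (hd n x * g)) (cc lam n) (Φ g) (hc n hn)
  have a2 := cs (Sn (n + 1)) (fun x => Φ (hd (n + 1) x * g)) (cc lam (n + 1)) (Φ g)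
    (hc (n + 1) (by omega))
  rw [pc n hn] at a1
  rw [pc (n + 1) (by omega), Nat.add_sub_cancel] at a2
  push_cast at a1 a2
  obtain ⟨k, rfl⟩ : ∃ k, n = k + 1 := ⟨n - 1, by omega⟩
  rw [Nat.add_sub_cancel] at a1
  set A := ∑ x ∈ Sn (k + 1), ‖Φ (hd (k + 1) x * g)‖ ^ 2 with hA
  set B := ∑ x ∈ Sn (k + 1 + 1), ‖Φ (hd (k + 1 + 1) x * g)‖ ^ 2 with hB
  have hz : 0 ≤ ‖Φ g‖ ^ 2 := by positivity
  have hp : (0 : ℝ) < 2 ^ (k + 1) := by positivity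
  have q1 : (2 : ℝ) ^ (k + 1) * ‖Φ g‖ ^ 2 ≤
      (4 * (2 * cc lam (k + 1) ^ 2 + cc lam (k + 1 + 1) ^ 2)) * ‖Φ g‖ ^ 2 :=
    mul_le_mul_of_nonneg_right har hz
  have q2 : (2 : ℝ) ^ (k + 1) * ‖Φ g‖ ^ 2 ≤ 2 ^ (k + 1) * (12 * (A + B)) := by
    have e : (2 : ℝ) ^ (k + 1) = 2 * 2 ^ k := by ring
    rw [e] at q1 a2 ⊢
    nlinarith
  exact le_of_mul_le_mul_left q2 hp

end

end Pool.Agent.A54.QE
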