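import Pool.Agent.Lib.QE.SpecBH

/-!
Package `QE`, block B: recurrence along Hecke orbits (`StmtBRec`), from the Hecke inequality and mass transport.
-/

set_option autoImplicit false

namespace Pool.Agent.A54.QE

open MeasureTheory Filter Topology Set
open scoped ContDiff ComplexConjugate UpperHalfPlane MatrixGroups ENNReal
open Pool.Agent.A54.Dyn (G fl base ze io mk4 Inv HM)
open Pool.Agent.A54.Hp (nm nu HE StmtNm StmtNuL)
open Pool.Agent.A54.Av (Mat)

noncomputable section

namespace BRecM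

/-- the points of `B` which do not return to `B` by Hecke elements outside of `Γ` -/
def Ex (B : Set G) : Set G := {g | g ∈ B ∧ ∀ d ∈ Hk, d ∉ range io → d * g ∉ B}

lemma meas_Ex (hc : Hk.Countable) (B : Set G) (hB : MeasurableSet B) : MeasurableSet (Ex B) := by
  have h1 : Ex B = B ∩ ⋂ d ∈ (Hk \ range io), {g : G | d * g ∈ B}ᶜ := by
    ext g
    simp only [Ex, mem_setOf_eq, mem_inter_iff, mem_iInter, mem_compl_iff, mem_diff]
    constructor
    · rintro ⟨h, h2⟩
      exact ⟨h, fun d hd => h2 d hd.1 hd.2⟩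
    · rintro ⟨h, h2⟩
      exact ⟨h, fun d hd hd' => h2 d ⟨hd, hd'⟩⟩
  rw [h1]
  refine hB.inter (MeasurableSet.biInter (hc.mono diff_subset) ?_)
  intro d _
  have hm : Measurable (fun g : G => d * g) := (continuous_const.mul continuous_id).measurable
  exact (hm hB).compl

lemma sum_ind (I : ℝ≥0∞) (S : ℕ → ℝ≥0∞) (h : ∀ n : ℕ, 1 ≤ n → I ≤ 12 * (S n + S (n + 1))) (M : ℕ) :
    (M : ℝ≥0∞) * I ≤ 12 * ∑ n ∈ Finset.Icc 1 (2 * M), S n := by
  induction M with
  | zero => simp
  | succ k ih =>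
    have e : ∑ n ∈ Finset.Icc 1 (2 * (k + 1)), S n =
        (∑ n ∈ Finset.Icc 1 (2 * k), S n) + (S (2 * k + 1) + S (2 * k + 1 + 1)) := by
      rw [show 2 * (k + 1) = 2 * k + 1 + 1 by ring, Finset.sum_Icc_succ_top (by omega),
        Finset.sum_Icc_succ_top (by omega), add_assoc]
    rw [e, mul_add]
    push_cast
    rw [add_mul, one_mul]
    exact add_le_add ih (h (2 * k + 1) (by omega))

lemma zero_of (I W : ℝ≥0∞) (hW : W < ⊤) (h : ∀ M : ℕ, (M : ℝ≥0∞) * I ≤ 12 * W) : I = 0 := by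
  by_contra hI
  have h12 : (12 : ℝ≥0∞) * W ≠ ⊤ := ENNReal.mul_ne_top (by norm_num) hW.ne
  obtain ⟨M, hM⟩ := ENNReal.exists_nat_mul_gt hI h12
  exact absurd (h M) (not_le.mpr hM)

end BRecM

open BRecM in
theorem stmtBRec (h1 : StmtBHk) (h2 : StmtBMt) : StmtBRec := by
  intro hW μ hi hin B hB _
  obtain ⟨hcount, -, -, -, -, -⟩ := h1
  have hE : MeasurableSet (Ex B) := meas_Ex hcount B hB
  set w : G → ℝ≥0∞ := fun g => ENNReal.ofReal (ch g) with hw
  have hwm : Measurable w := ENNReal.measurable_ofReal.comp hW.cont.measurable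
  have hwf : ∫⁻ g, w g ∂μ < ⊤ := by
    have h := hW.fin μ hi
    have h3 : mX μ univ < ⊤ := measure_lt_top _ _
    unfold mX at h3
    rwa [withDensity_apply _ MeasurableSet.univ, Measure.restrict_univ] at h3
  have hmt := h2 μ w (Ex B) hi.left hwm hW.sum hE (by
    intro g hg d hd hdg
    by_contra hne
    exact hg.2 d hd hne hdg.1)
  have hfm : Measurable ((Ex B).indicator w) := hwm.indicator hE
  have hI : ∫⁻ g, (Ex B).indicator w g ∂μ = 0 := by
    refine zero_of _ _ hwf fun M => ?_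
    refine (sum_ind _ (fun n => ∑ x ∈ Sn n, ∫⁻ g, (Ex B).indicator w ((hd n x)⁻¹ * g) ∂μ)
      (fun n hn => hin n hn _ hfm) M).trans ?_
    gcongr
    exact hmt (2 * M)
  rw [lintegral_eq_zero_iff hfm] at hI
  filter_upwards [hI] with g hg hgB
  by_contra hno
  push Not at hno
  have hgE : g ∈ Ex B := ⟨hgB, fun d hd hd' => hno d hd hd'⟩
  rw [indicator_of_mem hgE] at hg
  have hpos : 0 < w g := ENNReal.ofReal_pos.mpr (hW.pos g)
  rw [hg] at hpos
  simp at hpos

end

end Pool.Agent.A54.QE
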