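import Pool.Agent.Lib.QE.SpecBL

/-!
# Package `QE`, block B: left invariance of the limit and the symmetry `g ↦ -g` (proof of `StmtBSy`)
-/

set_option autoImplicit false

namespace Pool.Agent.A54.QE

open MeasureTheory Filter Topology Set
open scoped ContDiff ComplexConjugate UpperHalfPlane MatrixGroups ENNReal
open Pool.Agent.A54.Dyn (G fl base ze io mk4 Inv HM)
open Pool.Agent.A54.Hp
open Pool.Agent.A54.Half (H0)

noncomputable section

namespace BSyM

lemma cont_mul (h : G) : Continuous fun g : G => h * g := continuous_const.mul continuous_id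

lemma fin_map (μ : Measure G) [IsFiniteMeasureOnCompacts μ] (h : G) :
    IsFiniteMeasureOnCompacts (μ.map fun g => h * g) := by
  refine ⟨fun {K} hK => ?_⟩
  rw [Measure.map_apply (cont_mul h).measurable hK.measurableSet]
  exact ((Homeomorph.mulLeft h).isCompact_preimage.mpr hK).measure_lt_top

lemma io_neg_one_mul (g : G) : io (-1) * g = -g := by
  ext i j
  fin_cases i <;> fin_cases j <;> simp [io]

end BSyM

open BSyM in
/-- **BSy** left invariance of the limit and the symmetry `g ↦ -g`. -/
theorem stmtBSy (h : Hp.StmtNuL) : StmtBSy := by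
  intro L l Φ μ hL hμ hE hV
  obtain ⟨hinv, -, -, -, -⟩ := h
  have key : ∀ γ : SL(2, ℤ), μ.map (fun g => io γ * g) = μ := by
    intro γ
    have hf := fin_map μ (io γ)
    refine Measure.ext_of_integral_eq_on_compactlySupported fun F => ?_
    have hm : ∫ x, F x ∂(μ.map fun g => io γ * g) = ∫ x, F (io γ * x) ∂μ :=
      integral_map (cont_mul (io γ)).aemeasurable
        (show Continuous fun x => F x from F.continuous).aestronglyMeasurable
    rw [hm]
    have h1 := hV (fun g => F (io γ * g)) (F.continuous.comp (cont_mul (io γ)))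
      (F.hasCompactSupport.comp_homeomorph (Homeomorph.mulLeft (io γ)))
    have h2 := hV (fun g => F g) F.continuous F.hasCompactSupport
    refine tendsto_nhds_unique h1 (h2.congr fun i => ?_)
    rw [← integral_mul_left_eq_self (fun g => F g * ‖Φ i g‖ ^ 2) (io γ)]
    simp only [(hE i).inv]
  refine ⟨key, ?_⟩
  have h1 := key (-1)
  simp only [io_neg_one_mul] at h1
  exact h1

end

end Pool.Agent.A54.QE
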