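import Pool.Agent.Lib.QE.SpecBH

/-!
# Package `QE`, module `BTr`: the Hecke recursion for the sums over `(2^j, b; 0, 2^k)`
-/

set_option autoImplicit false

namespace Pool.Agent.A54.QE

open MeasureTheory Filter Topology Set
open scoped ContDiff ComplexConjugate UpperHalfPlane MatrixGroups ENNReal
open Pool.Agent.A54.Dyn (G fl base ze io mk4 Inv HM)
open Pool.Agent.A54.Hp (nm nu HE StmtNm StmtNuL)
open Pool.Agent.A54.Av (Mat)

noncomputable section

namespace BTrM

lemma um_det (j b k : ℕ) : 0 < (um j b k).det := by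
  rw [um, Matrix.det_fin_two_of]
  simp only [mul_zero, sub_zero]
  positivity

lemma mul2 (j b k : ℕ) : (!![2, 0; 0, 1] : Mat) * um j b k = um (j + 1) (2 * b) k := by
  ext i l
  fin_cases i <;> fin_cases l <;> simp [um, Matrix.mul_apply, Fin.sum_univ_two, pow_succ, mul_comm]

lemma mul0 (j b k : ℕ) : (!![1, 0; 0, 2] : Mat) * um j b k = um j b (k + 1) := by
  ext i l
  fin_cases i <;> fin_cases l <;> simp [um, Matrix.mul_apply, Fin.sum_univ_two, pow_succ, mul_comm]

lemma mul1 (j b k : ℕ) : (!![1, 1; 0, 2] : Mat) * um j b k = um j (2 ^ k + b) (k + 1) := by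
  ext i l
  fin_cases i <;> fin_cases l <;> simp [um, Matrix.mul_apply, Fin.sum_univ_two, pow_succ, mul_comm, add_comm]

lemma smul2 (j b k : ℕ) : um (j + 1) (2 * b) (k + 1) = (2 : ℤ) • um j b k := by
  ext i l
  fin_cases i <;> fin_cases l <;> simp [um, pow_succ, mul_comm]

/-- the unipotent matrix -/
def T1 : SL(2, ℤ) := ⟨!![1, 1; 0, 1], by simp [Matrix.det_fin_two_of]⟩

lemma mulT (j b k : ℕ) : ((T1 : SL(2, ℤ)) : Mat) * um j b k = um j (2 ^ k + b) k := by
  ext i l
  fin_cases i <;> fin_cases l <;> simp [T1, um, Matrix.mul_apply, Fin.sum_univ_two, add_comm]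

section

variable (hN : StmtNm) (Φ : G → ℂ) (lam : ℂ) (hinv : ∀ (γ : SL(2, ℤ)) (g : G), Φ (io γ * g) = Φ g)
  (hrel : ∀ g : G, Φ (nm !![2, 0; 0, 1] * g) + (Φ (nm !![1, 0; 0, 2] * g) + Φ (nm !![1, 1; 0, 2] * g)) = lam * Φ g)

include hN in
lemma one_step (A : Mat) (hA : 0 < A.det) (j b k : ℕ) (g : G) :
    Φ (nm A * (nm (um j b k) * g)) = Φ (nm (A * um j b k) * g) := by
  rw [hN.1 A (um j b k) hA (um_det j b k), mul_assoc]

include hN hrel in
lemma rel (j b k : ℕ) (g : G) :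
    Φ (nm (um (j + 1) (2 * b) k) * g) + (Φ (nm (um j b (k + 1)) * g) + Φ (nm (um j (2 ^ k + b) (k + 1)) * g)) =
      lam * Φ (nm (um j b k) * g) := by
  have h := hrel (nm (um j b k) * g)
  rw [one_step hN Φ _ (by rw [Matrix.det_fin_two_of]; norm_num) j b k g,
    one_step hN Φ _ (by rw [Matrix.det_fin_two_of]; norm_num) j b k g,
    one_step hN Φ _ (by rw [Matrix.det_fin_two_of]; norm_num) j b k g, mul2, mul0, mul1] at h
  exact h

include hN in
lemma half (j b k : ℕ) (g : G) : Φ (nm (um (j + 1) (2 * b) (k + 1)) * g) = Φ (nm (um j b k) * g) := by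
  rw [smul2, hN.2.2.2.1 2 _ (by norm_num)]

include hN hinv in
lemma per (j b k : ℕ) (g : G) : Φ (nm (um j (2 ^ k + b) k) * g) = Φ (nm (um j b k) * g) := by
  rw [← mulT, hN.1 _ _ (by rw [T1.det_coe]; norm_num) (um_det j b k), hN.2.1, mul_assoc, hinv]

include hN hinv in
lemma T0 (g : G) : Tn Φ 0 g = Φ g := by
  have h1 : um 0 0 0 = ((1 : SL(2, ℤ)) : Mat) := by
    ext i l
    fin_cases i <;> fin_cases l <;> simp [um]
  simp only [Tn, zero_add, Finset.range_one, Finset.sum_singleton, Nat.sub_zero, pow_zero]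
  rw [h1, hN.2.1, hinv]

include hN hinv hrel in
lemma step (n : ℕ) (g : G) : lam * Tn Φ (n + 1) g = Tn Φ (n + 2) g + 2 * Tn Φ n g := by
  have e1 : lam * Tn Φ (n + 1) g = (∑ j ∈ Finset.range (n + 1 + 1), ∑ b ∈ Finset.range (2 ^ (n + 1 - j)),
      Φ (nm (um (j + 1) (2 * b) (n + 1 - j)) * g)) +
      ∑ j ∈ Finset.range (n + 1 + 1), ∑ b ∈ Finset.range (2 ^ (n + 1 - j)),
        (Φ (nm (um j b (n + 1 - j + 1)) * g) + Φ (nm (um j (2 ^ (n + 1 - j) + b) (n + 1 - j + 1)) * g)) := by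
    rw [Tn, Finset.mul_sum, ← Finset.sum_add_distrib]
    refine Finset.sum_congr rfl fun j _ => ?_
    rw [Finset.mul_sum, ← Finset.sum_add_distrib]
    refine Finset.sum_congr rfl fun b _ => ?_
    exact (rel hN Φ lam hrel j b (n + 1 - j) g).symm
  have e2 : (∑ j ∈ Finset.range (n + 1 + 1), ∑ b ∈ Finset.range (2 ^ (n + 1 - j)),
      Φ (nm (um (j + 1) (2 * b) (n + 1 - j)) * g)) = 2 * Tn Φ n g + Φ (nm (um (n + 2) 0 0) * g) := by
    rw [Finset.sum_range_succ]
    congr 1
    · rw [Tn, Finset.mul_sum]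
      refine Finset.sum_congr rfl fun j hj => ?_
      have hj' : j < n + 1 := Finset.mem_range.1 hj
      obtain ⟨k, hk⟩ : ∃ k, n = j + k := ⟨n - j, by omega⟩
      have h1 : n + 1 - j = k + 1 := by omega
      have h2 : n - j = k := by omega
      rw [h1, h2, pow_succ, mul_two, Finset.sum_range_add]
      simp only [half hN Φ, per hN Φ hinv]
      ring
    · rw [Nat.sub_self, pow_zero, Finset.range_one, Finset.sum_singleton]
  have e3 : (∑ j ∈ Finset.range (n + 1 + 1), ∑ b ∈ Finset.range (2 ^ (n + 1 - j)),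
        (Φ (nm (um j b (n + 1 - j + 1)) * g) + Φ (nm (um j (2 ^ (n + 1 - j) + b) (n + 1 - j + 1)) * g))) =
      Tn Φ (n + 2) g - Φ (nm (um (n + 2) 0 0) * g) := by
    rw [Tn, Finset.sum_range_succ _ (n + 2), Nat.sub_self, pow_zero, Finset.range_one, Finset.sum_singleton,
      add_sub_cancel_right]
    refine Finset.sum_congr rfl fun j hj => ?_
    have hj' : j < n + 2 := Finset.mem_range.1 hj
    have h1 : n + 2 - j = n + 1 - j + 1 := by omega
    rw [h1, Finset.sum_add_distrib, pow_succ, mul_two, Finset.sum_range_add]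
  rw [e1, e2, e3]
  ring

end

end BTrM

open BTrM in
theorem stmtBTr (hN : StmtNm) : StmtBTr := by
  intro Φ lam hinv hrel
  refine ⟨T0 hN Φ hinv, fun g => ?_, fun n g hn => ?_⟩
  · have h := rel hN Φ lam hrel 0 0 0 g
    have h0 := T0 hN Φ hinv g
    simp only [Tn, zero_add, Finset.range_one, Finset.sum_singleton, Nat.sub_zero, pow_zero] at h0
    rw [h0] at h
    rw [← h]
    simp only [Tn, Finset.sum_range_succ, Finset.range_zero, Finset.sum_empty, Nat.sub_zero, Nat.sub_self, pow_zero, pow_one,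
      zero_add, mul_zero, add_zero, Finset.sum_range_one]
    ring
  · obtain ⟨m, rfl⟩ : ∃ m, n = m + 1 := ⟨n - 1, by omega⟩
    rw [step hN Φ lam hinv hrel m g, Nat.add_sub_cancel]
    ring

end

end Pool.Agent.A54.QE

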