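import Pool.Agent.Lib.QE.SpecBL

/-!
# `QE/BVl`: the vague limit of `|Φ_i|² ν` along the hyperfilter exists
-/

set_option autoImplicit false

namespace Pool.Agent.A54.QE

open MeasureTheory Filter Topology Set
open scoped ContDiff ComplexConjugate UpperHalfPlane MatrixGroups ENNReal CompactlySupported
open Pool.Agent.A54.Dyn (G fl base ze io mk4 Inv HM)
open Pool.Agent.A54.Hp
open Pool.Agent.A54.Half (H0)

noncomputable section

namespace BVlM

/-- a compact set is contained in some `Om R` -/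
lemma sub_Om (K : Set G) (hK : IsCompact K) : ∃ R : ℝ, 1 ≤ R ∧ K ⊆ Om R := by
  have h : ∀ i j : Fin 2, ∃ R : ℝ, ∀ g ∈ K, |g i j| ≤ R := by
    intro i j
    have hc : Continuous fun g : G => |g i j| := (Dyn.continuous_entry i j).abs
    obtain ⟨R, hR⟩ := (hK.image hc).bddAbove
    exact ⟨R, fun g hg => hR ⟨g, hg, rfl⟩⟩
  choose R hR using h
  refine ⟨max 1 (∑ i, ∑ j, |R i j|), le_max_left _ _, fun g hg i j => ?_⟩
  calc |g i j| ≤ R i j := hR i j g hg
    _ ≤ |R i j| := le_abs_self _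
    _ ≤ ∑ j, |R i j| := Finset.single_le_sum (f := fun j => |R i j|) (fun _ _ => abs_nonneg _)
        (Finset.mem_univ j)
    _ ≤ ∑ i, ∑ j, |R i j| := Finset.single_le_sum (f := fun i => ∑ j, |R i j|)
        (fun _ _ => Finset.sum_nonneg fun _ _ => abs_nonneg _) (Finset.mem_univ i)
    _ ≤ _ := le_max_right _ _

lemma integrable (hν : IsFiniteMeasureOnCompacts nu) (Φ : G → ℂ) (hΦ : Continuous Φ)
    (F : G → ℝ) (hF : Continuous F) (hs : HasCompactSupport F) : Integrable (fun g => F g * ‖Φ g‖ ^ 2) nu := by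
  have hc : Continuous fun g => F g * ‖Φ g‖ ^ 2 := hF.mul (hΦ.norm.pow 2)
  exact hc.integrable_of_hasCompactSupport hs.mul_right

/-- the functional -/
def Lam (hν : IsFiniteMeasureOnCompacts nu) (Φ : G → ℂ) (hΦ : Continuous Φ) : C_c(G, ℝ) →ₗ[ℝ] ℝ where
  toFun F := ∫ g, F g * ‖Φ g‖ ^ 2 ∂nu
  map_add' F F' := by
    rw [← integral_add (integrable hν Φ hΦ F F.continuous F.hasCompactSupport)
      (integrable hν Φ hΦ F' F'.continuous F'.hasCompactSupport)]
    refine integral_congr_ae (Eventually.of_forall fun g => ?_)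
    simp only [CompactlySupportedContinuousMap.coe_add, Pi.add_apply]
    ring
  map_smul' c F := by
    rw [RingHom.id_apply, smul_eq_mul, ← integral_const_mul]
    refine integral_congr_ae (Eventually.of_forall fun g => ?_)
    simp only [CompactlySupportedContinuousMap.coe_smul, Pi.smul_apply, smul_eq_mul]
    ring

lemma bound (h1 : StmtTot) (hν : IsFiniteMeasureOnCompacts nu) (l : ℕ → ℕ → ℝ) (Φ : ℕ → G → ℂ)
    (hΦ : ∀ i, HE (l i) (Φ i)) (F : C_c(G, ℝ)) :
    ∃ B : ℝ, ∀ i, |∫ g, F g * ‖Φ i g‖ ^ 2 ∂nu| ≤ B := by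
  obtain ⟨R, hR1, hR⟩ := sub_Om (tsupport F) F.hasCompactSupport
  obtain ⟨C, hC, hT⟩ := h1 R hR1
  obtain ⟨M, hM⟩ := F.hasCompactSupport.exists_bound_of_continuous F.continuous
  have hM0 : 0 ≤ M := (norm_nonneg _).trans (hM 1)
  refine ⟨M * C, fun i => ?_⟩
  have hmeas : MeasurableSet (tsupport F) := (isClosed_tsupport F).measurableSet
  have e1 : ∫ g, F g * ‖Φ i g‖ ^ 2 ∂nu = ∫ g in tsupport F, F g * ‖Φ i g‖ ^ 2 ∂nu := by
    rw [setIntegral_eq_integral_of_forall_compl_eq_zero]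
    intro g hg
    rw [image_eq_zero_of_notMem_tsupport hg, zero_mul]
  rw [e1]
  have hint : IntegrableOn (fun g => ‖Φ i g‖ ^ 2) (tsupport F) nu :=
    ((hΦ i).cont.norm.pow 2).continuousOn.integrableOn_compact F.hasCompactSupport
  have e2 : |∫ g in tsupport F, F g * ‖Φ i g‖ ^ 2 ∂nu| ≤ ∫ g in tsupport F, M * ‖Φ i g‖ ^ 2 ∂nu := by
    rw [← Real.norm_eq_abs]
    refine norm_integral_le_of_norm_le (hint.const_mul M) (Eventually.of_forall fun g => ?_)
    rw [norm_mul, norm_pow, norm_norm]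
    exact mul_le_mul_of_nonneg_right (hM g) (by positivity)
  refine e2.trans ?_
  rw [integral_const_mul]
  refine mul_le_mul_of_nonneg_left ?_ hM0
  have hc2 : Continuous fun g => ‖Φ i g‖ ^ 2 := (hΦ i).cont.norm.pow 2
  rw [integral_eq_lintegral_of_nonneg_ae (Eventually.of_forall fun g => by positivity)
    hc2.aestronglyMeasurable]
  refine ENNReal.toReal_le_of_le_ofReal hC ?_
  calc ∫⁻ g in tsupport F, ENNReal.ofReal (‖Φ i g‖ ^ 2) ∂nu
      = ∫⁻ g in tsupport F, ‖Φ i g‖ₑ ^ 2 ∂nu := by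
        refine lintegral_congr fun g => ?_
        rw [ENNReal.ofReal_pow (norm_nonneg _), ofReal_norm]
    _ ≤ ∫⁻ g in Om R, ‖Φ i g‖ₑ ^ 2 ∂nu := lintegral_mono_set hR
    _ ≤ ENNReal.ofReal C := hT (l i) (Φ i) (hΦ i)

end BVlM

open BVlM in
theorem stmtBVl (h1 : Hp.StmtTot) (h2 : Hp.StmtNuL) : StmtBVl := by
  intro l Φ hΦ
  have hν : IsFiniteMeasureOnCompacts nu := h2.2.1
  obtain ⟨μ, hμ, hL⟩ := Dyn.LiftM.exists_measure (hyperfilter ℕ)
    (fun i => Lam hν (Φ i) (hΦ i).cont)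
    (fun i F hF => integral_nonneg fun g => mul_nonneg (hF g) (by positivity))
    (fun F => by
      obtain ⟨B, hB⟩ := bound h1 hν l Φ hΦ F
      exact ⟨B, Eventually.of_forall hB⟩)
  refine ⟨μ, hμ, fun F hF hs => ?_⟩
  exact hL ⟨⟨F, hF⟩, hs⟩

end

end Pool.Agent.A54.QE
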