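import Pool.Agent.Lib.QE.SpecBL
import Pool.Agent.Lib.MP_a54f13_nt.Hp.Wk
import Pool.Agent.Lib.MP_a54f13_nt.Dyn.FlowLeft

/-!
# `StmtBXf`: the derivative along the flow of `|Φ|²`, for one form
-/

set_option autoImplicit false

namespace Pool.Agent.A54.QE

open MeasureTheory Filter Topology Set
open scoped ContDiff ComplexConjugate UpperHalfPlane MatrixGroups ENNReal
open Pool.Agent.A54.Dyn (G fl base ze io mk4 Inv HM)
open Pool.Agent.A54.Dyn.LiftM (Sct XC XX cc rot m0)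
open Pool.Agent.A54.Hp
open Pool.Agent.A54.Half (H0)

noncomputable section

namespace BXfM

/-! ### The flow -/

/-- The integral of a derivative along the flow is zero. -/
lemma flow_zero {ν : Measure G} [IsFiniteMeasureOnCompacts ν] [ν.IsMulRightInvariant] {C : Set G}
    (hC : IsCompact C) {P H : G → ℂ} (hP : Continuous P) (hH : Continuous H)
    (hP0 : ∀ g, g ∉ C → P g = 0) (hH0 : ∀ g, g ∉ C → H g = 0)
    (hd : ∀ g, HasDerivAt (fun s : ℝ => P (g * fl s)) (H g) 0) : ∫ g, H g ∂ν = 0 := by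
  have hd' : ∀ (g : G) (s : ℝ), HasDerivAt (fun s : ℝ => P (g * fl s)) (H (g * fl s)) s := by
    intro g s
    have h1 : HasDerivAt (fun x : ℝ => P (g * fl s * fl x)) (H (g * fl s)) (s - s) := by
      rw [sub_self]
      exact hd (g * fl s)
    have h2 := HasDerivAt.comp_sub_const s s h1
    refine h2.congr_of_eventuallyEq (Eventually.of_forall fun x => ?_)
    simp only
    rw [mul_assoc, ← Dyn.fl_add, add_sub_cancel]
  have hmf : Continuous (fun p : ℝ × G => p.2 * fl p.1) :=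
    continuous_snd.mul (Dyn.continuous_fl.comp continuous_fst)
  obtain ⟨C', hC', hCC⟩ : ∃ C' : Set G, IsCompact C' ∧
      ∀ s ∈ Icc (-1 : ℝ) 1, ∀ g : G, g ∉ C' → g * fl s ∉ C := by
    refine ⟨(fun p : ℝ × G => p.2 * fl (-p.1)) '' (Icc (-1 : ℝ) 1 ×ˢ C),
      (isCompact_Icc.prod hC).image
        (continuous_snd.mul (Dyn.continuous_fl.comp continuous_fst.neg)), fun s hs g hg h => ?_⟩
    refine hg ⟨(s, g * fl s), ⟨hs, h⟩, ?_⟩
    change g * fl s * fl (-s) = g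
    rw [mul_assoc, ← Dyn.fl_add, add_neg_cancel, Dyn.fl_zero, mul_one]
  have hF' : Continuous (fun p : ℝ × G => H (p.2 * fl p.1)) := hH.comp hmf
  obtain ⟨B, hB⟩ := ((isCompact_Icc (a := (-1 : ℝ)) (b := 1)).prod
    hC').exists_bound_of_continuousOn hF'.continuousOn
  have hcP : ∀ s : ℝ, Continuous (fun g : G => P (g * fl s)) := fun s =>
    hP.comp (continuous_id.mul continuous_const)
  have hcH : ∀ s : ℝ, Continuous (fun g : G => H (g * fl s)) := fun s =>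
    hH.comp (continuous_id.mul continuous_const)
  have h0 : (0 : ℝ) ∈ Icc (-1 : ℝ) 1 := ⟨by norm_num, by norm_num⟩
  have hder : HasDerivAt (fun s : ℝ => ∫ g, P (g * fl s) ∂ν) (∫ g, H (g * fl 0) ∂ν) 0 := by
    refine (hasDerivAt_integral_of_dominated_loc_of_deriv_le (s := Icc (-1 : ℝ) 1)
      (F := fun s g => P (g * fl s)) (F' := fun s g => H (g * fl s))
      (bound := C'.indicator fun _ => B) (Icc_mem_nhds (by norm_num) (by norm_num))
      (Eventually.of_forall fun s => (hcP s).aestronglyMeasurable) ?_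
      (hcH 0).aestronglyMeasurable ?_ ?_ ?_).2
    · exact (hcP 0).integrable_of_hasCompactSupport
        (HasCompactSupport.intro hC' fun g hg => hP0 _ (hCC 0 h0 g hg))
    · refine Eventually.of_forall fun g s hs => ?_
      by_cases hg : g ∈ C'
      · rw [indicator_of_mem hg]
        exact hB (s, g) ⟨hs, hg⟩
      · rw [indicator_of_notMem hg, hH0 _ (hCC s hs g hg), norm_zero]
    · rw [integrable_indicator_iff hC'.measurableSet]
      exact integrableOn_const hC'.measure_lt_top.ne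
    · exact Eventually.of_forall fun g s _ => hd' g s
  have hconst : (fun s : ℝ => ∫ g, P (g * fl s) ∂ν) = fun _ => ∫ g, P g ∂ν := by
    funext s
    exact integral_mul_right_eq_self P (fl s)
  rw [hconst] at hder
  have h1 := hder.unique (hasDerivAt_const (0 : ℝ) (∫ g, P g ∂ν))
  simp only [Dyn.fl_zero, mul_one] at h1
  exact h1

/-! ### Fourier coefficients in the fibre -/

lemma int_cc (j : ℤ) : ∫ x : XC, cc x ^ j ∂AddCircle.haarAddCircle = if j = 0 then 1 else 0 := by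
  rw [← Dyn.LiftM.integral_fourier j]
  refine integral_congr_ae (Eventually.of_forall fun x => ?_)
  exact (Dyn.LiftM.fourier_cc j x).symm

lemma coef {φ : ℂ → ℂ} (hφ : Test H0 φ) (k : ℤ) {K₁ : Set ℍ} (hK₁ : IsCompact K₁)
    (hK : ∀ z : ℍ, z ∉ K₁ → φ z = 0) {A C₂ : ℝ} (hA0 : 0 ≤ A) (hA : ∀ z, ‖φ z‖ ≤ A)
    (hC₂ : 0 ≤ C₂) {f : ℍ → ℝ} {t : ℝ} (hc : ∀ n, Continuous (Ff f t n))
    (hM : ∀ n : ℤ, ∫⁻ z in K₁, ‖Gf f t n (z : ℂ)‖ₑ ^ 2 ≤ ENNReal.ofReal C₂) (n m : ℤ) :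
    ‖∫ g, (φ (base g : ℂ) * ze g ^ k) * (Ff f t n g * conj (Ff f t m g)) ∂nu‖ ≤
      2 * C₂ * (if n = m - k then A else 0) := by
  set c : ℝ := if n = m - k then A else 0 with hcdef
  have hc0 : 0 ≤ c := by
    rw [hcdef]
    split_ifs
    · exact hA0
    · exact le_rfl
  set Q : G → ℂ := fun g => (φ (base g : ℂ) * ze g ^ k) * (Ff f t n g * conj (Ff f t m g)) with hQ
  have hQc : Continuous Q :=
    (Dyn.FlowLeftM.continuous_term hφ k).mul ((hc n).mul (Complex.continuous_conj.comp (hc m)))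
  have hQs : HasCompactSupport Q := HasCompactSupport.intro (Dyn.isCompact_base hK₁) fun g hg => by
    simp only [hQ, hK (base g) hg, zero_mul]
  have e1 : ∫ g, Q g ∂nu = ∫ p, Q (Sct p) ∂m0 := by
    unfold nu
    exact integral_map Dyn.LiftM.continuous_Sct.aemeasurable hQc.aestronglyMeasurable
  have hint : Integrable (fun p : XX => Q (Sct p)) m0 :=
    (hQc.comp Dyn.LiftM.continuous_Sct).integrable_of_hasCompactSupport (Dyn.LiftM.hcs_Sct hQs)
  have e2 : ∫ p, Q (Sct p) ∂m0 = ∫ z : ℍ, ∫ x : XC, Q (Sct (z, x)) ∂AddCircle.haarAddCircle := by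
    unfold m0 at hint ⊢
    exact integral_prod _ hint
  have e3 : ∀ z : ℍ, ∫ x : XC, Q (Sct (z, x)) ∂AddCircle.haarAddCircle =
      (φ (z : ℂ) * (Gf f t n (z : ℂ) * conj (Gf f t m (z : ℂ)))) *
        (if 2 * (k + n - m) = 0 then 1 else 0) := by
    intro z
    rw [← int_cc, ← integral_const_mul]
    refine integral_congr_ae (Eventually.of_forall fun x => ?_)
    simp only [hQ]
    rw [WkM.Ff_Sct, WkM.Ff_Sct, Dyn.LiftM.base_Sct, Dyn.LiftM.ze_Sct, map_mul, map_zpow₀,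
      Dyn.LiftM.cc_conj, inv_zpow']
    have h1 : (cc x ^ 2) ^ k = cc x ^ (2 * k) := by
      rw [zpow_mul]
      rfl
    have h2 : 2 * (k + n - m) = 2 * k + (2 * n + (-(2 * m))) := by ring
    change (φ (z : ℂ) * (cc x ^ 2) ^ k) * _ = _
    rw [h1, h2, zpow_add₀ (Dyn.LiftM.cc_ne x), zpow_add₀ (Dyn.LiftM.cc_ne x)]
    ring
  have e4 : ∀ z : ℍ, ‖∫ x : XC, Q (Sct (z, x)) ∂AddCircle.haarAddCircle‖ₑ ≤
      K₁.indicator (fun z : ℍ => ENNReal.ofReal c *
        (‖Gf f t n (z : ℂ)‖ₑ ^ 2 + ‖Gf f t m (z : ℂ)‖ₑ ^ 2)) z := by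
    intro z
    by_cases hz : z ∈ K₁
    · by_cases hnm : n = m - k
      · have hj : 2 * (k + n - m) = 0 := by omega
        have hcA : c = A := by rw [hcdef, if_pos hnm]
        rw [Set.indicator_of_mem hz, e3, if_pos hj, mul_one, hcA, enorm_mul, enorm_mul]
        have h1 : ‖conj (Gf f t m (z : ℂ))‖ₑ = ‖Gf f t m (z : ℂ)‖ₑ := by
          rw [← ofReal_norm, ← ofReal_norm, RCLike.norm_conj]
        rw [h1]
        have h2 : ‖φ (z : ℂ)‖ₑ ≤ ENNReal.ofReal A := by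
          rw [← ofReal_norm]
          exact ENNReal.ofReal_le_ofReal (hA z)
        refine mul_le_mul' h2 ?_
        rcases le_total ‖Gf f t n (z : ℂ)‖ₑ ‖Gf f t m (z : ℂ)‖ₑ with h3 | h3
        · calc ‖Gf f t n (z : ℂ)‖ₑ * ‖Gf f t m (z : ℂ)‖ₑ
              ≤ ‖Gf f t m (z : ℂ)‖ₑ * ‖Gf f t m (z : ℂ)‖ₑ := mul_le_mul' h3 le_rfl
            _ = ‖Gf f t m (z : ℂ)‖ₑ ^ 2 := (pow_two _).symm
            _ ≤ _ := le_add_self
        · calc ‖Gf f t n (z : ℂ)‖ₑ * ‖Gf f t m (z : ℂ)‖ₑ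
              ≤ ‖Gf f t n (z : ℂ)‖ₑ * ‖Gf f t n (z : ℂ)‖ₑ := mul_le_mul' le_rfl h3
            _ = ‖Gf f t n (z : ℂ)‖ₑ ^ 2 := (pow_two _).symm
            _ ≤ _ := le_self_add
      · have hj : 2 * (k + n - m) ≠ 0 := by omega
        rw [e3, if_neg hj, mul_zero, enorm_zero]
        exact zero_le
    · rw [Set.indicator_of_notMem hz, e3, hK z hz, zero_mul, zero_mul, enorm_zero]
  have hmG : ∀ k : ℤ, Measurable fun z : ℍ => ‖Gf f t k (z : ℂ)‖ₑ ^ 2 := by
    intro k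
    have h1 : (fun z : ℍ => ‖Gf f t k (z : ℂ)‖ₑ ^ 2) = fun z : ℍ => ‖Ff f t k (Sct (z, 0))‖ₑ ^ 2 := by
      funext z
      rw [WkM.Ff_Sct]
      have h2 : cc 0 = 1 := by
        unfold cc
        rw [AddCircle.toCircle_zero]
        rfl
      rw [h2, one_zpow, one_mul]
    rw [h1]
    exact ((hc k).comp (Dyn.LiftM.continuous_Sct.comp (by fun_prop))).measurable.enorm.pow_const 2
  have e5 : ‖∫ g, Q g ∂nu‖ₑ ≤ ENNReal.ofReal (2 * C₂ * c) := by
    rw [e1, e2]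
    calc ‖∫ z : ℍ, ∫ x : XC, Q (Sct (z, x)) ∂AddCircle.haarAddCircle‖ₑ
        ≤ ∫⁻ z : ℍ, ‖∫ x : XC, Q (Sct (z, x)) ∂AddCircle.haarAddCircle‖ₑ :=
          enorm_integral_le_lintegral_enorm _
      _ ≤ ∫⁻ z : ℍ, K₁.indicator (fun z : ℍ => ENNReal.ofReal c *
            (‖Gf f t n (z : ℂ)‖ₑ ^ 2 + ‖Gf f t m (z : ℂ)‖ₑ ^ 2)) z := lintegral_mono e4
      _ = ENNReal.ofReal c * ((∫⁻ z in K₁, ‖Gf f t n (z : ℂ)‖ₑ ^ 2) +
            ∫⁻ z in K₁, ‖Gf f t m (z : ℂ)‖ₑ ^ 2) := by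
          have hm2 : Measurable fun z : ℍ => ‖Gf f t n (z : ℂ)‖ₑ ^ 2 + ‖Gf f t m (z : ℂ)‖ₑ ^ 2 :=
            (hmG n).add (hmG m)
          rw [lintegral_indicator hK₁.measurableSet, lintegral_const_mul _ hm2,
            lintegral_add_left (hmG n)]
      _ ≤ ENNReal.ofReal c * (ENNReal.ofReal C₂ + ENNReal.ofReal C₂) :=
          mul_le_mul' le_rfl (add_le_add (hM n) (hM m))
      _ = ENNReal.ofReal (2 * C₂ * c) := by
          rw [← ENNReal.ofReal_add hC₂ hC₂, ← ENNReal.ofReal_mul hc0]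
          congr 1
          ring
  rw [← ofReal_norm] at e5
  exact (ENNReal.ofReal_le_ofReal_iff (by positivity)).1 e5

/-- the quadratic form -/
lemma quad {φ : ℂ → ℂ} (hφ : Test H0 φ) (k : ℤ) {K₁ : Set ℍ} (hK₁ : IsCompact K₁)
    (hK : ∀ z : ℍ, z ∉ K₁ → φ z = 0) {A C₂ : ℝ} (hA0 : 0 ≤ A) (hA : ∀ z, ‖φ z‖ ≤ A)
    (hC₂ : 0 ≤ C₂) {f : ℍ → ℝ} {t : ℝ} (hc : ∀ n, Continuous (Ff f t n))
    (hM : ∀ n : ℤ, ∫⁻ z in K₁, ‖Gf f t n (z : ℂ)‖ₑ ^ 2 ≤ ENNReal.ofReal C₂)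
    [IsFiniteMeasureOnCompacts nu] (N' : ℕ) (b c : ℤ → ℝ) (E : ℝ)
    (hbc : ∀ S : Finset ℤ, ∑ n ∈ S, |b n * c (n + (-k)) - b (n + (-k)) * c n| ≤ E) :
    ‖∫ g, (φ (base g : ℂ) * ze g ^ k) * (conj (Pb f t N' b g) * Pb f t N' c g -
      conj (conj (Pb f t N' b g) * Pb f t N' c g)) ∂nu‖ ≤ 2 * C₂ * A * E := by
  set S := Finset.Icc (-(N' : ℤ)) N' with hS
  have e0 : ∀ g, (φ (base g : ℂ) * ze g ^ k) * (conj (Pb f t N' b g) * Pb f t N' c g -
      conj (conj (Pb f t N' b g) * Pb f t N' c g)) = ∑ m ∈ S, ∑ n ∈ S,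
        ((-Complex.I) ^ (n - m) * ((b m * c n - b n * c m : ℝ) : ℂ)) *
          ((φ (base g : ℂ) * ze g ^ k) * (Ff f t n g * conj (Ff f t m g))) := by
    intro g
    have hI : conj (-Complex.I) = (-Complex.I)⁻¹ := by
      rw [map_neg, Complex.conj_I, inv_neg, Complex.inv_I]
    have e1 : conj (Pb f t N' b g) * Pb f t N' c g = ∑ m ∈ S, ∑ n ∈ S,
        ((-Complex.I) ^ (n - m) * ((b m * c n : ℝ) : ℂ)) * (Ff f t n g * conj (Ff f t m g)) := by
      rw [TayM.Pb_apply, TayM.Pb_apply, map_sum, Finset.sum_mul_sum]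
      refine Finset.sum_congr rfl fun m _ => Finset.sum_congr rfl fun n _ => ?_
      rw [map_mul, map_mul, map_zpow₀, hI, Complex.conj_ofReal, inv_zpow',
        sub_eq_add_neg n m, zpow_add₀ (neg_ne_zero.2 Complex.I_ne_zero)]
      push_cast
      ring
    have e2 : conj (conj (Pb f t N' b g) * Pb f t N' c g) = ∑ m ∈ S, ∑ n ∈ S,
        ((-Complex.I) ^ (n - m) * ((b n * c m : ℝ) : ℂ)) * (Ff f t n g * conj (Ff f t m g)) := by
      rw [map_mul, Complex.conj_conj, mul_comm, TayM.Pb_apply, TayM.Pb_apply, map_sum,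
        Finset.sum_mul_sum]
      refine Finset.sum_congr rfl fun m _ => Finset.sum_congr rfl fun n _ => ?_
      rw [map_mul, map_mul, map_zpow₀, hI, Complex.conj_ofReal, inv_zpow',
        sub_eq_add_neg n m, zpow_add₀ (neg_ne_zero.2 Complex.I_ne_zero)]
      push_cast
      ring
    rw [e2, e1, ← Finset.sum_sub_distrib, Finset.mul_sum]
    refine Finset.sum_congr rfl fun m _ => ?_
    rw [← Finset.sum_sub_distrib, Finset.mul_sum]
    refine Finset.sum_congr rfl fun n _ => ?_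
    push_cast
    ring
  have hi : ∀ n m : ℤ, Integrable (fun g : G => (φ (base g : ℂ) * ze g ^ k) *
      (Ff f t n g * conj (Ff f t m g))) nu := by
    intro n m
    have hQc : Continuous (fun g : G => (φ (base g : ℂ) * ze g ^ k) *
        (Ff f t n g * conj (Ff f t m g))) :=
      (Dyn.FlowLeftM.continuous_term hφ k).mul ((hc n).mul (Complex.continuous_conj.comp (hc m)))
    exact hQc.integrable_of_hasCompactSupport (HasCompactSupport.intro (Dyn.isCompact_base hK₁)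
      fun g hg => by simp only [hK (base g) hg, zero_mul])
  simp_rw [e0]
  rw [integral_finsetSum _ fun m _ => integrable_finsetSum _ fun n _ => (hi n m).const_mul _]
  calc ‖∑ m ∈ S, ∫ g, ∑ n ∈ S, ((-Complex.I) ^ (n - m) * ((b m * c n - b n * c m : ℝ) : ℂ)) *
          ((φ (base g : ℂ) * ze g ^ k) * (Ff f t n g * conj (Ff f t m g))) ∂nu‖
      ≤ ∑ m ∈ S, ‖∫ g, ∑ n ∈ S, ((-Complex.I) ^ (n - m) * ((b m * c n - b n * c m : ℝ) : ℂ)) *
          ((φ (base g : ℂ) * ze g ^ k) * (Ff f t n g * conj (Ff f t m g))) ∂nu‖ :=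
        norm_sum_le _ _
    _ ≤ ∑ m ∈ S, ∑ n ∈ S, |b m * c n - b n * c m| *
          (2 * C₂ * (if n = m - k then A else 0)) := by
        refine Finset.sum_le_sum fun m _ => ?_
        rw [integral_finsetSum _ fun n _ => (hi n m).const_mul _]
        refine (norm_sum_le _ _).trans (Finset.sum_le_sum fun n _ => ?_)
        rw [integral_const_mul, norm_mul, norm_mul, norm_zpow, norm_neg, Complex.norm_I, one_zpow,
          one_mul, Complex.norm_real, Real.norm_eq_abs]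
        exact mul_le_mul_of_nonneg_left
          (coef hφ k hK₁ hK hA0 hA hC₂ hc hM n m) (abs_nonneg _)
    _ ≤ ∑ m ∈ S, |b m * c (m + (-k)) - b (m + (-k)) * c m| * (2 * C₂ * A) := by
        refine Finset.sum_le_sum fun m _ => ?_
        have h1 : ∀ n ∈ S, |b m * c n - b n * c m| * (2 * C₂ * (if n = m - k then A else 0)) =
            if n = m - k then |b m * c (m + (-k)) - b (m + (-k)) * c m| * (2 * C₂ * A) else 0 := by
          intro n _
          by_cases h : n = m - k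
          · rw [if_pos h, if_pos h, h, ← sub_eq_add_neg]
          · rw [if_neg h, if_neg h, mul_zero, mul_zero]
        rw [Finset.sum_congr rfl h1, Finset.sum_ite_eq']
        split_ifs
        · exact le_rfl
        · positivity
    _ ≤ 2 * C₂ * A * E := by
        rw [← Finset.sum_mul, mul_comm]
        exact mul_le_mul_of_nonneg_left (hbc S) (by positivity)

end BXfM

theorem stmtBXf (h1 : Hp.StmtNuL) (h2 : Hp.StmtNuR) (h3 : Hp.StmtTwG) (h4 : Hp.StmtFlD)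
    (h5 : Hp.StmtMss) (h6 : Dyn.StmtXd) : StmtBXf := by
  intro C₀ hC₀ φ hφ k
  have i1 : IsFiniteMeasureOnCompacts nu := h1.2.1
  have i2 : nu.IsMulRightInvariant := h2.1
  have hK₁ : IsCompact ((fun z : ℍ => (z : ℂ)) ⁻¹' (tsupport φ)) :=
    Half2.isCompact_pre hφ.cpt.isCompact hφ.sub
  obtain ⟨K₁, hKd⟩ : ∃ K₁ : Set ℍ, K₁ = (fun z : ℍ => (z : ℂ)) ⁻¹' (tsupport φ) := ⟨_, rfl⟩
  rw [← hKd] at hK₁
  have hK : ∀ z : ℍ, z ∉ K₁ → φ z = 0 := by
    intro z hz
    refine image_eq_zero_of_notMem_tsupport fun h => hz ?_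
    rw [hKd]
    exact h
  obtain ⟨C₂, hC₂, hM⟩ := h5 K₁ hK₁
  obtain ⟨A, hA⟩ := hφ.cpt.exists_bound_of_continuous hφ.smooth.continuous
  have hA0 : 0 ≤ A := (norm_nonneg _).trans (hA 0)
  refine ⟨2 * C₂ * A * (C₀ * |((-k : ℤ) : ℝ)|), by positivity, ?_⟩
  intro f t hf ht K N b hP
  have hc : ∀ n, Continuous (Ff f t n) := by
    intro n
    obtain ⟨-, -, -, -, -, -, -, -, h⟩ := h3 f t hf n
    exact h
  obtain ⟨U, hU⟩ : ∃ U : G → ℂ, U = Pb f t (N + 1) b := ⟨_, rfl⟩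
  obtain ⟨W, hW⟩ : ∃ W : G → ℂ, W = Pb f t (N + 1) (TT t b) := ⟨_, rfl⟩
  have hUc : Continuous U := by rw [hU]; exact WkM.cont_Pb hc (N + 1) b
  have hWc : Continuous W := by rw [hW]; exact WkM.cont_Pb hc (N + 1) (TT t b)
  have hF := Dyn.FlowLeftM.continuous_term hφ k
  have hX := Dyn.FlowLeftM.continuous_Xf hφ k
  have hI : Continuous fun g : G => ((-(2 * (conj (U g) * W g).im) : ℝ) : ℂ) :=
    Complex.continuous_ofReal.comp ((continuous_const.mul (Complex.continuous_im.comp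
      ((Complex.continuous_conj.comp hUc).mul hWc))).neg)
  have hN : Continuous fun g : G => ((‖U g‖ ^ 2 : ℝ) : ℂ) :=
    Complex.continuous_ofReal.comp (hUc.norm.pow 2)
  have hd : ∀ g : G, HasDerivAt (fun s : ℝ => φ (base (g * fl s)) * ze (g * fl s) ^ k *
      ((‖U (g * fl s)‖ ^ 2 : ℝ) : ℂ))
      (Dyn.Xf φ k g * ((‖U g‖ ^ 2 : ℝ) : ℂ) +
        φ (base g) * ze g ^ k * ((-(2 * (conj (U g) * W g).im) : ℝ) : ℂ)) 0 := by
    intro g
    have h7 := h6 φ k g hφ.smooth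
    have h8 := WkM.sq_deriv h4 hf hP.supp g (-0)
    rw [← hU, ← hW] at h8
    have h9 := h8.comp (0 : ℝ) (hasDerivAt_neg (0 : ℝ))
    have e9 : ((fun x : ℝ => ‖U (g * fl (-x))‖ ^ 2) ∘ Neg.neg) = fun s : ℝ => ‖U (g * fl s)‖ ^ 2 := by
      funext s
      simp only [Function.comp_apply, neg_neg]
    have h10 : HasDerivAt (fun s : ℝ => ‖U (g * fl s)‖ ^ 2) (-(2 * (conj (U g) * W g).im)) 0 := by
      rw [← e9]
      have e10 : 2 * (conj (U (g * fl (- -0))) * W (g * fl (- -0))).im * -1 =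
          -(2 * (conj (U g) * W g).im) := by
        rw [neg_neg, Dyn.fl_zero, mul_one]
        ring
      rw [← e10]
      exact h9
    have h11 := h7.mul h10.ofReal_comp
    simp only [Dyn.fl_zero, mul_one] at h11
    exact h11
  have hz : ∫ g, (Dyn.Xf φ k g * ((‖U g‖ ^ 2 : ℝ) : ℂ) +
      φ (base g) * ze g ^ k * ((-(2 * (conj (U g) * W g).im) : ℝ) : ℂ)) ∂nu = 0 := by
    refine BXfM.flow_zero (Dyn.isCompact_base hK₁) (P := fun g => φ (base g) * ze g ^ k *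
      ((‖U g‖ ^ 2 : ℝ) : ℂ)) (hF.mul hN) ((hX.mul hN).add (hF.mul hI)) ?_ ?_ hd
    · intro g hg
      rw [Dyn.FlowLeftM.term_zero hK k hg, zero_mul]
    · intro g hg
      rw [Dyn.FlowLeftM.Xf_zero hK₁ hK k hg, Dyn.FlowLeftM.term_zero hK k hg, zero_mul, zero_mul,
        add_zero]
  have j1 : Integrable (fun g => Dyn.Xf φ k g * ((‖U g‖ ^ 2 : ℝ) : ℂ)) nu :=
    Dyn.FlowLeftM.integrable_of_zero (Dyn.isCompact_base hK₁) (hX.mul hN) fun g hg => by
      rw [Dyn.FlowLeftM.Xf_zero hK₁ hK k hg, zero_mul]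
  have j2 : Integrable (fun g => φ (base g) * ze g ^ k *
      ((-(2 * (conj (U g) * W g).im) : ℝ) : ℂ)) nu :=
    Dyn.FlowLeftM.integrable_of_zero (Dyn.isCompact_base hK₁) (hF.mul hI) fun g hg => by
      rw [Dyn.FlowLeftM.term_zero hK k hg, zero_mul]
  rw [integral_add j1 j2] at hz
  have e2 : ∫ g, φ (base g) * ze g ^ k * ((-(2 * (conj (U g) * W g).im) : ℝ) : ℂ) ∂nu =
      Complex.I * ∫ g, (φ (base g : ℂ) * ze g ^ k) *
        (conj (U g) * W g - conj (conj (U g) * W g)) ∂nu := by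
    rw [← integral_const_mul]
    refine integral_congr_ae (Eventually.of_forall fun g => ?_)
    change φ (base g) * ze g ^ k * ((-(2 * (conj (U g) * W g).im) : ℝ) : ℂ) =
      Complex.I * ((φ (base g : ℂ) * ze g ^ k) * (conj (U g) * W g - conj (conj (U g) * W g)))
    rw [Complex.sub_conj]
    push_cast
    linear_combination (-(2 * (φ (base g : ℂ) * ze g ^ k) * ((conj (U g) * W g).im : ℂ))) *
      Complex.I_mul_I
  have eU : ∀ g, U g = Pb f t N b g := fun g => by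
    rw [hU]
    exact WkM.Pb_ext f t N b hP.supp g
  have hq := BXfM.quad hφ k hK₁ hK hA0 hA hC₂ hc (fun n => hM f t hf n) (N + 1) b (TT t b)
    (C₀ * |((-k : ℤ) : ℝ)| * t ^ (-(1 / 2) + 3 * (1 / 8) : ℝ)) (fun S => hP.anti (-k) S)
  rw [← hU, ← hW] at hq
  have e3 : ∫ g, Dyn.Xf φ k g * ((‖Pb f t N b g‖ ^ 2 : ℝ) : ℂ) ∂nu =
      -∫ g, φ (base g) * ze g ^ k * ((-(2 * (conj (U g) * W g).im) : ℝ) : ℂ) ∂nu := by
    rw [← eq_neg_of_add_eq_zero_left hz]
    refine integral_congr_ae (Eventually.of_forall fun g => ?_)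
    simp only [eU]
  rw [e3, e2, norm_neg, norm_mul, Complex.norm_I, one_mul]
  refine hq.trans (le_of_eq ?_)
  have e4 : (-(1 / 2) + 3 * (1 / 8) : ℝ) = -(1 / 8) := by norm_num
  rw [e4]
  ring

end

end Pool.Agent.A54.QE
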