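import Pool.Agent.Lib.HS.Fin
import Pool.Agent.Lib.HS.Top
import Pool.Agent.Lib.MP_a54f13_nt.Hp.Main
import Pool.Agent.Lib.MP_a54f13_nt.Dyn.Main
import Pool.Agent.Lib.QE.BFin
import Pool.Agent.Lib.QE.BTr
import Pool.Agent.Lib.QE.BPs
import Pool.Agent.Lib.QE.BAr
import Pool.Agent.Lib.QE.BPw
import Pool.Agent.Lib.QE.BHl
import Pool.Agent.Lib.QE.BMc
import Pool.Agent.Lib.QE.BHm
import Pool.Agent.Lib.QE.BHk
import Pool.Agent.Lib.QE.BCs
import Pool.Agent.Lib.QE.BMt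
import Pool.Agent.Lib.QE.BRec
import Pool.Agent.Lib.QE.BVl
import Pool.Agent.Lib.QE.BSy
import Pool.Agent.Lib.QE.BXf
import Pool.Agent.Lib.QE.BFl
import Pool.Agent.Lib.QE.BMd
import Pool.Agent.Lib.QE.BMs
import Pool.Agent.Lib.QE.BPq

/-!
# Package `QE`: block B, everything together (helper54)
-/

set_option autoImplicit false

namespace Pool.Agent.A54.QE

open MeasureTheory Filter Topology Set
open Pool.Agent.A54.Hp

theorem pBHk : StmtBHk := stmtBHk stmtNm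

theorem pBHm : StmtBHm := stmtBHm (stmtBHl (stmtBPw (stmtBTr stmtNm) (stmtBPs stmtNm) stmtBAr) stmtNuL) stmtBMc

theorem pBRec : StmtBRec := stmtBRec pBHk (stmtBMt pBHk stmtBCs)

theorem pBXf : StmtBXf := stmtBXf stmtNuL pNuR pTwG pFlD pMss Dyn.stmtXd

theorem pBFl : StmtBFl := stmtBFl pBXf (Dyn.stmtFlow Dyn.pFej Dyn.stmtDens) stmtNuL pTwG

theorem pBLm : StmtBLm :=
  stmtBLm (stmtBVl pTot stmtNuL) (stmtBSy stmtNuL) pBFl (stmtBMd pFib pMsW pTwG) (stmtBMs Dyn.pLB Dyn.pSgB)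
    (stmtBPq pPk pHeF pCus)

/-- block B from the counting bound -/
theorem stmtB0 (hW : Wt) (hC : ∃ c : ℝ, 0 < c ∧ CoreC c (fun _ _ => True)) : StmtB :=
  stmtBFin hW pBLm (stmtBCw stmtNuL) pBHm pBRec hC

/-- **block B** -/
theorem stmtB (hW : Wt) : StmtB := by
  obtain ⟨c, hc, -, h⟩ := HS.coreH HS.stmtHS
  exact stmtB0 hW ⟨c, hc, h⟩

end Pool.Agent.A54.QE
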