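import Pool.Agent.Lib.QE.SpecBH

/-!
# `StmtBMt`: mass transport

For the package `QE` of MP_a54f13_nt. Author: helper67.
-/

set_option autoImplicit false

namespace Pool.Agent.A54.QE

open MeasureTheory Filter Topology Set
open scoped ContDiff ComplexConjugate UpperHalfPlane MatrixGroups ENNReal
open Pool.Agent.A54.Dyn (G fl base ze io mk4 Inv HM)
open Pool.Agent.A54.Hp (nm nu HE StmtNm StmtNuL)
open Pool.Agent.A54.Av (Mat)

noncomputable section

namespace BMtM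

lemma countable_sl : Countable SL(2, ℤ) := by
  have h : Countable (Matrix (Fin 2) (Fin 2) ℤ) := inferInstanceAs (Countable (Fin 2 → Fin 2 → ℤ))
  exact Function.Injective.countable (f := fun γ : SL(2, ℤ) => (γ : Matrix (Fin 2) (Fin 2) ℤ))
    Subtype.val_injective

lemma io_mul (γ γ' : SL(2, ℤ)) : io (γ * γ') = io γ * io γ' := by
  unfold io
  rw [map_mul]

lemma io_inv (γ : SL(2, ℤ)) : io γ⁻¹ = (io γ)⁻¹ := by
  unfold io
  rw [map_inv]

lemma meas_mul (d : G) : Measurable fun g : G => d * g :=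
  (continuous_const.mul continuous_id).measurable

/-- unfolding of one integral -/
lemma unfold1 (μ : Measure G) (w : G → ℝ≥0∞) (hμ : ∀ γ : SL(2, ℤ), μ.map (fun g => io γ * g) = μ)
    (hw : Measurable w) (hs : ∀ g, ∑' γ : SL(2, ℤ), w (io γ * g) = 1) (F : G → ℝ≥0∞)
    (hF : Measurable F) :
    ∫⁻ g, F g ∂μ = ∫⁻ g, (∑' γ : SL(2, ℤ), F ((io γ)⁻¹ * g)) * w g ∂μ := by
  have hc := countable_sl
  have h1 : ∀ γ : SL(2, ℤ), ∫⁻ g, F g * w (io γ * g) ∂μ =
      ∫⁻ g, F ((io γ)⁻¹ * g) * w g ∂μ := by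
    intro γ
    have hm : Measurable fun g : G => F ((io γ)⁻¹ * g) * w g :=
      (hF.comp (meas_mul _)).mul hw
    conv_rhs => rw [← hμ γ]
    rw [lintegral_map hm (meas_mul _)]
    refine lintegral_congr fun g => ?_
    rw [inv_mul_cancel_left]
  calc ∫⁻ g, F g ∂μ = ∫⁻ g, ∑' γ : SL(2, ℤ), F g * w (io γ * g) ∂μ := by
        refine lintegral_congr fun g => ?_
        rw [ENNReal.tsum_mul_left, hs, mul_one]
    _ = ∑' γ : SL(2, ℤ), ∫⁻ g, F g * w (io γ * g) ∂μ :=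
        lintegral_tsum fun γ => (hF.mul (hw.comp (meas_mul _))).aemeasurable
    _ = ∑' γ : SL(2, ℤ), ∫⁻ g, F ((io γ)⁻¹ * g) * w g ∂μ := tsum_congr h1
    _ = ∫⁻ g, ∑' γ : SL(2, ℤ), F ((io γ)⁻¹ * g) * w g ∂μ :=
        (lintegral_tsum fun γ => ((hF.comp (meas_mul _)).mul hw).aemeasurable).symm
    _ = _ := by
        refine lintegral_congr fun g => ?_
        rw [ENNReal.tsum_mul_right]

/-- the multiplicity -/
lemma mult {ι : Type} (k : ι → G) (w : G → ℝ≥0∞) (hs : ∀ g, ∑' γ : SL(2, ℤ), w (io γ * g) = 1)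
    (E : Set G) (hk : ∀ q q' : ι, (k q)⁻¹ * k q' ∈ Hk) (hinj : Function.Injective k)
    (hE : ∀ g ∈ E, ∀ d ∈ Hk, d * g ∈ E → d ∈ range io) (y : G) :
    ∑' q : ι, E.indicator w ((k q)⁻¹ * y) ≤ 1 := by
  classical
  by_cases hne : ∃ q₀, (k q₀)⁻¹ * y ∈ E
  · obtain ⟨q₀, hq₀⟩ := hne
    set A : Set ι := {q | (k q)⁻¹ * y ∈ E} with hA
    have hz : ∀ q : ι, ((k q)⁻¹ * k q₀) * ((k q₀)⁻¹ * y) = (k q)⁻¹ * y := by
      intro q
      rw [mul_assoc, mul_inv_cancel_left]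
    have hex : ∀ q : A, ∃ δ : SL(2, ℤ), io δ = (k q.1)⁻¹ * k q₀ := by
      intro q
      have h1 := hE _ hq₀ _ (hk q.1 q₀) (by rw [hz]; exact q.2)
      exact h1
    choose δ hδ using hex
    have hδi : Function.Injective δ := by
      intro q q' h
      have h1 : (k q.1)⁻¹ * k q₀ = (k q'.1)⁻¹ * k q₀ := by rw [← hδ, ← hδ, h]
      exact Subtype.ext (hinj (inv_injective (mul_right_cancel h1)))
    calc ∑' q : ι, E.indicator w ((k q)⁻¹ * y)
        = ∑' q : ι, A.indicator (fun q => w ((k q)⁻¹ * y)) q := by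
          refine tsum_congr fun q => ?_
          by_cases hq : (k q)⁻¹ * y ∈ E
          · rw [indicator_of_mem hq, indicator_of_mem (show q ∈ A from hq)]
          · rw [indicator_of_notMem hq, indicator_of_notMem (show q ∉ A from hq)]
      _ = ∑' q : A, w ((k q.1)⁻¹ * y) := (tsum_subtype A _).symm
      _ = ∑' q : A, w (io (δ q) * ((k q₀)⁻¹ * y)) := by
          refine tsum_congr fun q => ?_
          rw [hδ, hz]
      _ ≤ ∑' d : SL(2, ℤ), w (io d * ((k q₀)⁻¹ * y)) :=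
          ENNReal.tsum_comp_le_tsum_of_injective hδi fun d => w (io d * ((k q₀)⁻¹ * y))
      _ = 1 := hs _
  · push Not at hne
    have h0 : ∀ q : ι, E.indicator w ((k q)⁻¹ * y) = 0 := fun q => indicator_of_notMem (hne q) _
    simp only [h0, tsum_zero, zero_le]

end BMtM

open BMtM

/-- **BMt** mass transport. -/
theorem stmtBMt (h1 : StmtBHk) (h2 : StmtBCs) : StmtBMt := by
  intro μ w E hμ hw hs hE hret M
  obtain ⟨-, hio, hmul, hinv, hhd, hioi⟩ := h1
  set T : Finset (Σ _ : ℕ, ℕ × ℕ) := (Finset.Icc 1 M).sigma fun n => Sn n with hT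
  -- the index set
  set k : (T × SL(2, ℤ)) → G := fun q => io q.2 * hd q.1.1.1 q.1.1.2 with hk
  have hkmem : ∀ q, k q ∈ Hk := fun q => hmul _ (hio _) _ (hhd _ _)
  have hkinj : Function.Injective k := by
    rintro ⟨⟨⟨n, x⟩, hx⟩, γ⟩ ⟨⟨⟨m, y⟩, hy⟩, γ'⟩ h
    have h' : io γ * hd n x = io γ' * hd m y := h
    have hx' := Finset.mem_sigma.1 hx
    have hy' := Finset.mem_sigma.1 hy
    have h3 : hd n x = io (γ⁻¹ * γ') * hd m y := by
      rw [io_mul, io_inv, mul_assoc, ← h', inv_mul_cancel_left]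
    obtain ⟨e1, e2⟩ := h2 n m x y hx'.2 hy'.2 _ h3
    subst e1
    subst e2
    have h4 : γ = γ' := hioi (mul_right_cancel h')
    subst h4
    rfl
  have hS : ∀ y : G, ∑ p ∈ T, ∑' γ : SL(2, ℤ),
      E.indicator w ((hd p.1 p.2)⁻¹ * ((io γ)⁻¹ * y)) ≤ 1 := by
    intro y
    have h5 := mult k w hs E (fun q q' => hmul _ (hinv _ (hkmem q)) _ (hkmem q')) hkinj hret y
    refine le_trans (le_of_eq ?_) h5
    rw [ENNReal.tsum_prod (f := fun (p : T) (γ : SL(2, ℤ)) => E.indicator w ((k (p, γ))⁻¹ * y)),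
      tsum_fintype, ← Finset.sum_coe_sort T]
    refine Finset.sum_congr rfl fun p _ => tsum_congr fun γ => ?_
    rw [hk]
    simp only [mul_inv_rev, mul_assoc]
  have hmF : ∀ d : G, Measurable fun g : G => E.indicator w (d * g) := fun d =>
    (hw.indicator hE).comp (meas_mul d)
  have hc := countable_sl
  calc ∑ n ∈ Finset.Icc 1 M, ∑ x ∈ Sn n, ∫⁻ g, E.indicator w ((hd n x)⁻¹ * g) ∂μ
      = ∑ p ∈ T, ∫⁻ g, E.indicator w ((hd p.1 p.2)⁻¹ * g) ∂μ := by
        rw [hT, Finset.sum_sigma]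
    _ = ∑ p ∈ T, ∫⁻ g, (∑' γ : SL(2, ℤ),
          E.indicator w ((hd p.1 p.2)⁻¹ * ((io γ)⁻¹ * g))) * w g ∂μ :=
        Finset.sum_congr rfl fun p _ => unfold1 μ w hμ hw hs _ (hmF _)
    _ = ∫⁻ g, (∑ p ∈ T, ∑' γ : SL(2, ℤ),
          E.indicator w ((hd p.1 p.2)⁻¹ * ((io γ)⁻¹ * g))) * w g ∂μ := by
        rw [← lintegral_finsetSum]
        · refine lintegral_congr fun g => ?_
          rw [Finset.sum_mul]
        · intro p _
          refine Measurable.mul ?_ hw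
          exact Measurable.tsum fun γ => (hmF _).comp (meas_mul _)
    _ ≤ ∫⁻ g, 1 * w g ∂μ := lintegral_mono fun g => mul_le_mul' (hS g) le_rfl
    _ = ∫⁻ g, w g ∂μ := by simp only [one_mul]

end

end Pool.Agent.A54.QE
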