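import Pool.Agent.Lib.QE.SpecC

/-!
# Package `QE`, module `CAt`: the invariant set which meets each leaf at most once
-/

set_option autoImplicit false

namespace Pool.Agent.A54.QE.CAtM

open MeasureTheory Filter Topology Set
open scoped ContDiff ComplexConjugate UpperHalfPlane MatrixGroups ENNReal
open Pool.Agent.A54.Dyn (G fl base ze io mk4 Inv HM)

noncomputable section

/-- the set of base points of point masses -/
def Es (lf : G → Measure ℝ) (D : Set G) : Set G := {g | g ∈ D ∧ lf g {0} ≠ 0 ∧ lf g {0}ᶜ = 0}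

lemma meas_Es {μ : Measure G} {lf : G → Measure ℝ} {D : Set G} (hl : LSE μ lf D) :
    MeasurableSet (Es lf D) := by
  have h1 : ∀ s : Set ℝ, MeasurableSet s → Measurable fun g => lf g s := fun s hs =>
    (Measure.measurable_coe hs).comp hl.meas
  have h2 := h1 {0} (measurableSet_singleton 0)
  have h3 := h1 {0}ᶜ (measurableSet_singleton 0).compl
  refine hl.mD.inter (MeasurableSet.inter ?_ ?_)
  · exact (h2 (measurableSet_singleton 0)).compl
  · exact h3 (measurableSet_singleton 0)

lemma pr_iff {m m' : Measure ℝ} (h : Pr m m') (s : Set ℝ) : m s = 0 ↔ m' s = 0 := by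
  obtain ⟨c, hc0, -, rfl⟩ := h
  rw [Measure.smul_apply, smul_eq_mul, mul_eq_zero]
  exact ⟨fun h => h.resolve_left hc0, fun h => Or.inr h⟩

lemma map_exp (m : Measure ℝ) (s : Set ℝ) (hs : MeasurableSet s)
    (h : (fun x : ℝ => Real.exp (-1) * x) ⁻¹' s = s) :
    (m.map fun x => Real.exp (-1) * x) s = m s := by
  rw [Measure.map_apply (measurable_const_mul _) hs, h]

lemma pre0 : (fun x : ℝ => Real.exp (-1) * x) ⁻¹' {0} = {0} := by
  ext x
  simp [Real.exp_ne_zero]

end

end Pool.Agent.A54.QE.CAtM

namespace Pool.Agent.A54.QE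

open MeasureTheory Filter Topology Set
open scoped ContDiff ComplexConjugate UpperHalfPlane MatrixGroups ENNReal
open Pool.Agent.A54.Dyn (G fl base ze io mk4 Inv HM)

open CAtM in
/-- the invariant set which meets each leaf at most once -/
theorem stmtCAt (hZ : StmtCZm) : StmtCAt := by
  intro μ lf D hW hi hl hn
  refine ⟨Es lf D, ⟨meas_Es hl, ?_, ?_, ?_⟩, ?_⟩
  · intro γ g
    have hD := hl.fi.gam γ g
    constructor
    · rintro ⟨h1, h2, h3⟩
      have hg := hD.1 h1
      have hp := hl.gam g hg γ
      exact ⟨hg, fun h => h2 ((pr_iff hp _).2 h), (pr_iff hp _).1 h3⟩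
    · rintro ⟨hg, h2, h3⟩
      have hp := hl.gam g hg γ
      exact ⟨hD.2 hg, fun h => h2 ((pr_iff hp _).1 h), (pr_iff hp _).2 h3⟩
  · intro g
    have hD := hl.fi.flo g
    have e0 := map_exp (lf g) {0} (measurableSet_singleton 0) pre0
    have e1 := map_exp (lf g) {0}ᶜ (measurableSet_singleton 0).compl
      (by rw [preimage_compl, pre0])
    constructor
    · rintro ⟨h1, h2, h3⟩
      have hg := hD.1 h1
      have hp := hl.flo g hg
      refine ⟨hg, fun h => h2 ((pr_iff hp _).2 ?_), ?_⟩
      · rw [e0]; exact h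
      · rw [← e1]; exact (pr_iff hp _).1 h3
    · rintro ⟨hg, h2, h3⟩
      have hp := hl.flo g hg
      refine ⟨hD.2 hg, fun h => h2 ?_, (pr_iff hp _).2 ?_⟩
      · rw [← e0]; exact (pr_iff hp _).1 h
      · rw [e1]; exact h3
  · rintro g ⟨hg, h2, -⟩ u ⟨-, -, h3⟩
    by_contra hu
    apply h2
    have h4 : lf (g * un u) {-u} = lf g {0} := by
      have hm : Measurable fun x : ℝ => x - u := measurable_id.sub_const u
      rw [hl.tr g u, Measure.map_apply hm (measurableSet_singleton _)]
      congr 1
      ext x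
      simp only [mem_preimage, mem_singleton_iff]
      constructor
      · intro h; linarith
      · intro h; linarith
    rw [← h4]
    refine measure_mono_null ?_ h3
    intro x hx
    rw [mem_singleton_iff] at hx
    rw [mem_compl_iff, mem_singleton_iff, hx]
    intro h
    exact hu (by linarith)
  · intro h0
    apply hn
    have hD : ∀ᵐ g ∂μ, g ∈ D := by
      rw [ae_iff]
      exact hl.nD
    have hE : ∀ᵐ g ∂μ, g ∉ Es lf D := by
      rw [ae_iff]
      simpa using h0
    filter_upwards [hD, hE, hZ μ lf D hW hi hl] with g h1 h2 h3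
    by_contra h4
    exact h2 ⟨h1, h4, h3 h4⟩

end Pool.Agent.A54.QE
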