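import Pool.Agent.Lib.QE.SpecC

/-!
# Package `QE`, module `CBd`: few points have many bad times
-/

set_option autoImplicit false

namespace Pool.Agent.A54.QE.CBdM

open MeasureTheory Filter Topology Set
open scoped ContDiff ComplexConjugate UpperHalfPlane MatrixGroups ENNReal
open Pool.Agent.A54.Dyn (G fl base ze io mk4 Inv HM)

noncomputable section

lemma io_mul (γ γ' : SL(2, ℤ)) : io (γ * γ') = io γ * io γ' := by
  unfold Pool.Agent.A54.Dyn.io
  rw [map_mul]

lemma io_one : io (1 : SL(2, ℤ)) = 1 := by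
  unfold Pool.Agent.A54.Dyn.io
  rw [map_one]

lemma gi_Gs (K : Set G) : GI (Gs K) := by
  intro γ g
  constructor
  · rintro ⟨γ', h⟩
    refine ⟨γ' * γ, ?_⟩
    rw [io_mul, mul_assoc]
    exact h
  · rintro ⟨γ', h⟩
    refine ⟨γ' * γ⁻¹, ?_⟩
    rw [← mul_assoc, ← io_mul, inv_mul_cancel_right]
    exact h

lemma sub_Gs (K : Set G) : K ⊆ Gs K := by
  intro g hg
  refine ⟨1, ?_⟩
  rw [io_one, one_mul]
  exact hg

lemma flE {E : Set G} (hE : AtE E) (x : G) : ∀ j : ℕ, x * fl (-(j : ℝ)) ∈ E ↔ x ∈ E := by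
  intro j
  induction j with
  | zero => simp [Dyn.fl_zero]
  | succ j ih =>
    rw [← ih, ← hE.flo (x * fl (-((j + 1 : ℕ) : ℝ))), mul_assoc, ← Dyn.fl_add]
    have e : (-((j + 1 : ℕ) : ℝ)) + 1 = -(j : ℝ) := by
      push_cast
      ring
    rw [e]

lemma mr (t : ℝ) : Measurable fun g : G => g * fl t :=
  (continuous_id.mul continuous_const).measurable

lemma mQ (hW : Wt) {μ : Measure G} (hi : Inv μ) {Q : Set G} (hQ : MeasurableSet Q) (hg : GI Q) (t : ℝ) :
    mX μ {x | x * fl t ∈ Q} = mX μ Q := by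
  have h := hW.flo μ hi (Q.indicator fun _ => 1) (measurable_const.indicator hQ) (by
    intro γ g
    by_cases h : g ∈ Q
    · rw [indicator_of_mem h, indicator_of_mem ((hg γ g).mpr h)]
    · rw [indicator_of_notMem h, indicator_of_notMem (fun h' => h ((hg γ g).mp h'))]) t
  have e : (fun g : G => (Q.indicator (fun _ => (1 : ℝ≥0∞))) (g * fl t)) =
      ({x | x * fl t ∈ Q} : Set G).indicator fun _ => 1 := by
    funext g
    by_cases h : g * fl t ∈ Q
    · rw [indicator_of_mem h, indicator_of_mem (show g ∈ {x | x * fl t ∈ Q} from h)]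
    · rw [indicator_of_notMem h, indicator_of_notMem (show g ∉ {x | x * fl t ∈ Q} from h)]
  have hm : MeasurableSet ({x | x * fl t ∈ Q} : Set G) := mr t hQ
  have h2 : ∫⁻ g, ({x | x * fl t ∈ Q} : Set G).indicator (fun _ => (1 : ℝ≥0∞)) g ∂(mX μ) =
      ∫⁻ g, Q.indicator (fun _ => (1 : ℝ≥0∞)) g ∂(mX μ) := by
    rw [← h, e]
  rw [lintegral_indicator_const hm, lintegral_indicator_const hQ, one_mul, one_mul] at h2
  exact h2

end

end Pool.Agent.A54.QE.CBdM

namespace Pool.Agent.A54.QE

open MeasureTheory Filter Topology Set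
open scoped ContDiff ComplexConjugate UpperHalfPlane MatrixGroups ENNReal
open Pool.Agent.A54.Dyn (G fl base ze io mk4 Inv HM)

open CBdM in
open Classical in
/-- few points have many bad times -/
theorem stmtCBd (hC : StmtCCl) : StmtCBd := by
  intro hW μ hi E hE K hK hKE n
  have hGm : MeasurableSet (Gs K) := (hC K hK).measurableSet
  set Q : Set G := E \ Gs K with hQdef
  have hQ : MeasurableSet Q := hE.meas.diff hGm
  have hg : GI Q := by
    intro γ g
    show (_ ∈ E ∧ _ ∉ Gs K) ↔ (_ ∈ E ∧ _ ∉ Gs K)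
    rw [hE.gam γ g, gi_Gs K γ g]
  have hle : mX μ Q ≤ mX μ (E \ K) := measure_mono (sdiff_subset_sdiff_right (sub_Gs K))
  refine ⟨?_, ?_⟩
  · rcases Nat.eq_zero_or_pos n with hn | hn
    · subst hn
      have e : {x : G | x ∈ E ∧ 0 < 100 * (bad K 0 x).card} = ∅ := by
        ext x
        simp [bad]
      rw [e, measure_empty]
      exact bot_le
    · refine le_trans ?_ (mul_le_mul_right hle _)
      set f : G → ℝ≥0∞ := fun x => ∑ j ∈ Finset.range n,
        ({y | y * fl (-(j : ℝ)) ∈ Q} : Set G).indicator (fun _ => 100) x with hf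
      have hmj : ∀ j : ℕ, MeasurableSet ({y | y * fl (-(j : ℝ)) ∈ Q} : Set G) := fun j => mr _ hQ
      have hfm : Measurable f := Finset.measurable_sum _ fun j _ =>
        measurable_const.indicator (hmj j)
      have hint : ∫⁻ x, f x ∂(mX μ) = n * (100 * mX μ Q) := by
        rw [hf, lintegral_finsetSum _ fun j _ => measurable_const.indicator (hmj j)]
        have e : ∀ j ∈ Finset.range n, ∫⁻ x, ({y | y * fl (-(j : ℝ)) ∈ Q} : Set G).indicator
            (fun _ => (100 : ℝ≥0∞)) x ∂(mX μ) = 100 * mX μ Q := by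
          intro j _
          rw [lintegral_indicator_const (hmj j), mQ hW hi hQ hg]
        rw [Finset.sum_congr rfl e, Finset.sum_const, Finset.card_range, nsmul_eq_mul]
      have hsub : {x : G | x ∈ E ∧ n < 100 * (bad K n x).card} ⊆ {x | (n : ℝ≥0∞) ≤ f x} := by
        rintro x ⟨hxE, hx⟩
        have e : f x = ((100 * (bad K n x).card : ℕ) : ℝ≥0∞) := by
          rw [hf]
          show ∑ j ∈ Finset.range n, _ = _
          have e2 : ∀ j ∈ Finset.range n, ({y | y * fl (-(j : ℝ)) ∈ Q} : Set G).indicator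
              (fun _ => (100 : ℝ≥0∞)) x = if x * fl (-(j : ℝ)) ∉ Gs K then 100 else 0 := by
            intro j _
            by_cases h : x * fl (-(j : ℝ)) ∈ Gs K
            · rw [if_neg (not_not.mpr h), indicator_of_notMem]
              exact fun h' => h'.2 h
            · rw [if_pos h, indicator_of_mem]
              exact ⟨(flE hE x j).mpr hxE, h⟩
          rw [Finset.sum_congr rfl e2, ← Finset.sum_filter, Finset.sum_const, nsmul_eq_mul]
          unfold bad
          push_cast
          rw [mul_comm]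
        show (n : ℝ≥0∞) ≤ f x
        rw [e]
        exact_mod_cast hx.le
      have hmk := mul_meas_ge_le_lintegral (μ := mX μ) hfm (n : ℝ≥0∞)
      rw [hint] at hmk
      have hn0 : (n : ℝ≥0∞) ≠ 0 := by exact_mod_cast hn.ne'
      have hmk2 := (ENNReal.mul_le_mul_iff_right hn0 (ENNReal.natCast_ne_top n)).mp hmk
      exact le_trans (measure_mono hsub) hmk2
  · refine le_trans ?_ hle
    rw [← mQ hW hi hQ hg (-(n : ℝ))]
    refine measure_mono ?_
    rintro x ⟨hxE, hx⟩
    exact ⟨(flE hE x n).mpr hxE, hx⟩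

end Pool.Agent.A54.QE
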