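import Pool.Agent.Lib.QE.SpecC

/-!
# Package `QE`, block C, module `CBx`: small boxes cover a compact set
-/

set_option autoImplicit false


namespace Pool.Agent.A54.QE

open MeasureTheory Filter Topology Set
open scoped ContDiff ComplexConjugate UpperHalfPlane MatrixGroups ENNReal
open Pool.Agent.A54.Dyn (G fl base ze io mk4 Inv HM)
open Pool.Agent.A54.Hp (nm Om xi Tb)
open Pool.Agent.A54.Av (Mat)

noncomputable section

namespace CBxM

/-- the open box -/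
def Ho (δ : ℝ) : Set G := {h | |h 0 0 - 1| < δ ∧ |h 0 1| < δ ∧ |h 1 0| < δ}

lemma isOpen_Ho (δ : ℝ) : IsOpen (Ho δ) := by
  have h00 := Dyn.continuous_entry 0 0
  have h01 := Dyn.continuous_entry 0 1
  have h10 := Dyn.continuous_entry 1 0
  exact (isOpen_lt (h00.sub continuous_const).abs continuous_const).inter
    ((isOpen_lt h01.abs continuous_const).inter (isOpen_lt h10.abs continuous_const))

lemma one_mem_Ho {δ : ℝ} (hδ : 0 < δ) : (1 : G) ∈ Ho δ := by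
  refine ⟨?_, ?_, ?_⟩ <;> simpa using hδ

lemma Ho_subset {δ : ℝ} : Ho δ ⊆ Hw δ δ δ := fun _ h => ⟨h.1.le, h.2.1.le, h.2.2.le⟩

lemma continuous_im : Continuous fun p : G × G => p.1⁻¹ * p.2 :=
  (continuous_fst.inv).mul continuous_snd

/-- every point has a small neighbourhood -/
lemma small_nhds {δ : ℝ} (hδ : 0 < δ) (x : G) :
    ∃ U ∈ 𝓝 x, ∀ y ∈ U, ∀ z ∈ U, y⁻¹ * z ∈ Hw δ δ δ := by
  have h0 : IsOpen ((fun p : G × G => p.1⁻¹ * p.2) ⁻¹' Ho δ) := (isOpen_Ho δ).preimage continuous_im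
  have h3 : (x, x) ∈ (fun p : G × G => p.1⁻¹ * p.2) ⁻¹' Ho δ := by
    have h4 : x⁻¹ * x ∈ Ho δ := by
      rw [inv_mul_cancel]
      exact one_mem_Ho hδ
    exact h4
  have h1 := h0.mem_nhds h3
  obtain ⟨u, hu, v, hv, h2⟩ := mem_nhds_prod_iff.1 h1
  refine ⟨u ∩ v, inter_mem hu hv, fun y hy z hz => ?_⟩
  have h5 : (y, z) ∈ (fun p : G × G => p.1⁻¹ * p.2) ⁻¹' Ho δ := h2 (mk_mem_prod hy.1 hz.2)
  have h6 : y⁻¹ * z ∈ Ho δ := h5
  exact Ho_subset h6

end CBxM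

open CBxM in
theorem stmtCBx : StmtCBx := by
  intro K δ hK hδ
  choose U hU hU2 using fun x : G => small_nhds hδ x
  obtain ⟨t, -, ht⟩ := hK.elim_nhds_subcover U fun x _ => hU x
  refine ⟨t.card, fun i => U (t.equivFin.symm i), ?_, fun i x hx y hy => hU2 _ x hx y hy⟩
  intro x hx
  obtain ⟨s, hs, hxs⟩ := mem_iUnion₂.1 (ht hx)
  refine mem_iUnion.2 ⟨t.equivFin ⟨s, hs⟩, ?_⟩
  rw [Equiv.symm_apply_apply]
  exact hxs

end

end Pool.Agent.A54.QE
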