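import Pool.Agent.Lib.QE.SpecC

/-!
# Package `QE`, block C: saturations of compact sets are closed
-/

set_option autoImplicit false

namespace Pool.Agent.A54.QE

open MeasureTheory Filter Topology Set
open scoped ContDiff ComplexConjugate UpperHalfPlane MatrixGroups ENNReal
open Pool.Agent.A54.Dyn (G fl base ze io mk4 Inv HM)
open Pool.Agent.A54.Hp (nm Om xi Tb)
open Pool.Agent.A54.Av (Mat)

noncomputable section

namespace CClM

lemma entry_io (γ : SL(2, ℤ)) (i j : Fin 2) : io γ i j = ((γ i j : ℤ) : ℝ) := rfl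

lemma cont_sum : Continuous fun g : G => ∑ i, ∑ j, |g i j| :=
  continuous_finsetSum _ fun i _ => continuous_finsetSum _ fun j _ => (Dyn.continuous_entry i j).abs

lemma le_sum (g : G) (i j : Fin 2) : |g i j| ≤ ∑ i, ∑ j, |g i j| := by
  have h1 : |g i j| ≤ ∑ j, |g i j| :=
    Finset.single_le_sum (f := fun j => |g i j|) (fun _ _ => abs_nonneg _) (Finset.mem_univ j)
  have h2 : ∑ j, |g i j| ≤ ∑ i, ∑ j, |g i j| :=
    Finset.single_le_sum (f := fun i => ∑ j, |g i j|)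
      (fun _ _ => Finset.sum_nonneg fun _ _ => abs_nonneg _) (Finset.mem_univ i)
  exact h1.trans h2

lemma fin_int (M : ℤ) : {γ : SL(2, ℤ) | ∀ i j, |γ i j| ≤ M}.Finite := by
  have h1 : (Icc (fun _ _ => -M : Fin 2 → Fin 2 → ℤ) (fun _ _ => M)).Finite := Set.finite_Icc _ _
  refine (h1.preimage (f := fun γ : SL(2, ℤ) => fun i j => γ i j) ?_).subset ?_
  · intro γ _ γ' _ h
    ext i j
    exact congrFun (congrFun h i) j
  · intro γ hγ
    refine ⟨fun i j => ?_, fun i j => ?_⟩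
    · exact (abs_le.1 (hγ i j)).1
    · exact (abs_le.1 (hγ i j)).2

lemma prod_bd (A g : G) (R R' : ℝ) (hR : 0 ≤ R) (hA : ∀ i j, |A i j| ≤ R) (hg : ∀ i j, |g i j| ≤ R') :
    ∀ i j, |(A * g⁻¹) i j| ≤ 2 * R * R' := by
  have key : ∀ a b c d : ℝ, |a| ≤ R → |b| ≤ R' → |c| ≤ R → |d| ≤ R' → |a * b + c * d| ≤ 2 * R * R' := by
    intro a b c d ha hb hc hd
    have h1 : |a * b| ≤ R * R' := by
      rw [abs_mul]; exact mul_le_mul ha hb (abs_nonneg _) hR
    have h2 : |c * d| ≤ R * R' := by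
      rw [abs_mul]; exact mul_le_mul hc hd (abs_nonneg _) hR
    have h3 := abs_add_le (a * b) (c * d)
    linarith
  intro i j
  fin_cases i <;> fin_cases j
  · show |(A * g⁻¹) 0 0| ≤ _
    rw [Dyn.mul_00, Dyn.inv_00, Dyn.inv_10]
    exact key _ _ _ _ (hA _ _) (hg _ _) (hA _ _) (by rw [abs_neg]; exact hg _ _)
  · show |(A * g⁻¹) 0 1| ≤ _
    rw [Dyn.mul_01, Dyn.inv_01, Dyn.inv_11]
    exact key _ _ _ _ (hA _ _) (by rw [abs_neg]; exact hg _ _) (hA _ _) (hg _ _)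
  · show |(A * g⁻¹) 1 0| ≤ _
    rw [Dyn.mul_10, Dyn.inv_00, Dyn.inv_10]
    exact key _ _ _ _ (hA _ _) (hg _ _) (hA _ _) (by rw [abs_neg]; exact hg _ _)
  · show |(A * g⁻¹) 1 1| ≤ _
    rw [Dyn.mul_11, Dyn.inv_01, Dyn.inv_11]
    exact key _ _ _ _ (hA _ _) (by rw [abs_neg]; exact hg _ _) (hA _ _) (hg _ _)

end CClM

open CClM

theorem stmtCCl : StmtCCl := by
  intro K hK
  obtain ⟨R, hR⟩ := hK.exists_bound_of_continuousOn cont_sum.continuousOn
  have hR' : ∀ y ∈ K, ∀ i j, |y i j| ≤ |R| := by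
    intro y hy i j
    have h1 := hR y hy
    exact (le_sum y i j).trans ((le_abs_self _).trans (h1.trans (le_abs_self R)))
  have hGs : Gs K = ⋃ γ : SL(2, ℤ), {g | io γ * g ∈ K} := by
    ext g
    simp only [Gs, mem_ofPred_eq, mem_iUnion]
  rw [hGs]
  refine LocallyFinite.isClosed_iUnion ?_ ?_
  · intro x
    refine ⟨{g | ∑ i, ∑ j, |g i j| < ∑ i, ∑ j, |x i j| + 1},
      (isOpen_lt cont_sum continuous_const).mem_nhds (by simp), ?_⟩
    refine (fin_int ⌈2 * |R| * (∑ i, ∑ j, |x i j| + 1)⌉).subset ?_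
    rintro γ ⟨g, hg1, hg2⟩ i j
    have hg1' : io γ * g ∈ K := hg1
    have hg2' : ∑ i, ∑ j, |g i j| < ∑ i, ∑ j, |x i j| + 1 := hg2
    have h1 := prod_bd (io γ * g) g |R| (∑ i, ∑ j, |x i j| + 1) (abs_nonneg R) (hR' _ hg1')
      (fun i j => (le_sum g i j).trans hg2'.le) i j
    rw [mul_inv_cancel_right, entry_io] at h1
    have h2 : ((|γ i j| : ℤ) : ℝ) ≤ 2 * |R| * (∑ i, ∑ j, |x i j| + 1) := by
      rw [Int.cast_abs]; exact h1
    exact_mod_cast h2.trans (Int.le_ceil _)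
  · intro γ
    exact hK.isClosed.preimage (continuous_const.mul continuous_id)

end

end Pool.Agent.A54.QE
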