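import Pool.Agent.Lib.QE.SpecC

/-!
# Package `QE`, block C: two points of `Γ K` on almost the same leaf are close
-/

set_option autoImplicit false

namespace Pool.Agent.A54.QE

open MeasureTheory Filter Topology Set
open scoped ContDiff ComplexConjugate UpperHalfPlane MatrixGroups ENNReal
open Pool.Agent.A54.Dyn (G fl base ze io mk4 Inv HM)
open Pool.Agent.A54.Hp (nm Om xi Tb)
open Pool.Agent.A54.Av (Mat)

noncomputable section

namespace CCpM

lemma isClosed_Hw (δ β γ : ℝ) : IsClosed (Hw δ β γ) := by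
  refine IsClosed.inter ?_ (IsClosed.inter ?_ ?_)
  · exact isClosed_le ((Dyn.continuous_entry 0 0).sub continuous_const).abs continuous_const
  · exact isClosed_le (Dyn.continuous_entry 0 1).abs continuous_const
  · exact isClosed_le (Dyn.continuous_entry 1 0).abs continuous_const

/-- The entry `1 1` is bounded on the box. -/
lemma bd11 {h : G} (hh : h ∈ Hw (1 / 10) 1 (1 / 10)) : |h 1 1| ≤ 3 := by
  obtain ⟨h1, h2, h3⟩ := hh
  have hd := Dyn.det_eq h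
  have h4 : |h 0 1 * h 1 0| ≤ 1 / 10 := by
    rw [abs_mul]
    calc |h 0 1| * |h 1 0| ≤ 1 * (1 / 10) :=
          mul_le_mul h2 h3 (abs_nonneg _) zero_le_one
      _ = 1 / 10 := by norm_num
  rw [abs_le] at h1 h4 ⊢
  constructor
  · by_contra hc
    push Not at hc
    nlinarith
  · by_contra hc
    push Not at hc
    nlinarith

lemma isCompact_Hw : IsCompact (Hw (1 / 10) 1 (1 / 10)) := by
  have h1 : IsCompact (Set.univ.pi fun _ : Fin 2 => Set.univ.pi fun _ : Fin 2 => Icc (-3 : ℝ) 3) :=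
    isCompact_univ_pi fun _ => isCompact_univ_pi fun _ => isCompact_Icc
  have h2 : IsCompact ((fun g : G => (g : Matrix (Fin 2) (Fin 2) ℝ)) ⁻¹'
      (Set.univ.pi fun _ : Fin 2 => Set.univ.pi fun _ : Fin 2 => Icc (-3 : ℝ) 3)) :=
    Matrix.SpecialLinearGroup.isClosedEmbedding_val.isCompact_preimage h1
  refine h2.of_isClosed_subset (isClosed_Hw _ _ _) ?_
  intro h hh i _ j _
  have h11 := bd11 hh
  obtain ⟨h3, h4, h5⟩ := hh
  rw [abs_le] at h3 h4 h5 h11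
  fin_cases i <;> fin_cases j
  · exact ⟨by change (-3 : ℝ) ≤ h 0 0; linarith, by change h 0 0 ≤ (3 : ℝ); linarith⟩
  · exact ⟨by change (-3 : ℝ) ≤ h 0 1; linarith, by change h 0 1 ≤ (3 : ℝ); linarith⟩
  · exact ⟨by change (-3 : ℝ) ≤ h 1 0; linarith, by change h 1 0 ≤ (3 : ℝ); linarith⟩
  · exact ⟨by change (-3 : ℝ) ≤ h 1 1; linarith, by change h 1 1 ≤ (3 : ℝ); linarith⟩

lemma io_mem_Gs {K : Set G} (γ : SL(2, ℤ)) {g : G} (hg : g ∈ Gs K) : io γ * g ∈ Gs K := by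
  obtain ⟨γ', h⟩ := hg
  refine ⟨γ' * γ⁻¹, ?_⟩
  have e : io (γ' * γ⁻¹) = io γ' * (io γ)⁻¹ := by
    unfold io
    rw [map_mul, map_inv]
  rw [e, mul_assoc, inv_mul_cancel_left]
  exact h

lemma Gs_sub {E K : Set G} (hE : AtE E) (hK : K ⊆ E) : Gs K ⊆ E := by
  rintro g ⟨γ, h⟩
  exact (hE.gam γ g).1 (hK h)

lemma eq_un {h : G} (h00 : h 0 0 = 1) (h10 : h 1 0 = 0) : h = un (h 0 1) := by
  have hd := Dyn.det_eq h
  rw [h00, h10] at hd
  refine Dyn.G_ext ?_ ?_ ?_ ?_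
  · rw [h00]; rfl
  · rfl
  · rw [h10]; rfl
  · have : h 1 1 = 1 := by linarith
    rw [this]; rfl

end CCpM

open CCpM

theorem stmtCCp (hCl : StmtCCl) : StmtCCp := by
  intro E hE K hK hKE η hη
  by_contra hcon
  push Not at hcon
  have hseq : ∀ k : ℕ, ∃ p : G × G, p.1 ∈ K ∧ p.2 ∈ Hw (1 / ((k : ℝ) + 10)) 1 (1 / ((k : ℝ) + 10)) ∧
      p.1 * p.2 ∈ Gs K ∧ η < |p.2 0 1| := by
    intro k
    have hk : (0 : ℝ) < (k : ℝ) + 10 := by positivity
    obtain ⟨x, h, hx, hxh, hh, hb⟩ := hcon (1 / ((k : ℝ) + 10)) (by positivity)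
      (by apply one_div_le_one_div_of_le (by norm_num); linarith [(Nat.cast_nonneg k : (0 : ℝ) ≤ k)])
    obtain ⟨γ, hγ⟩ := hx
    refine ⟨(io γ * x, h), hγ, hh, ?_, hb⟩
    rw [mul_assoc]
    exact io_mem_Gs γ hxh
  choose p hp1 hp2 hp3 hp4 using hseq
  have hC : IsCompact (K ×ˢ Hw (1 / 10) 1 (1 / 10)) := hK.prod isCompact_Hw
  have hmem : ∀ k, p k ∈ K ×ˢ Hw (1 / 10) 1 (1 / 10) := by
    intro k
    refine ⟨hp1 k, ?_⟩
    have hk : 1 / ((k : ℝ) + 10) ≤ 1 / 10 := by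
      apply one_div_le_one_div_of_le (by norm_num)
      linarith [(Nat.cast_nonneg k : (0 : ℝ) ≤ k)]
    obtain ⟨h1, h2, h3⟩ := hp2 k
    exact ⟨h1.trans hk, h2, h3.trans hk⟩
  obtain ⟨q, hq, φ, hφ, hlim⟩ := hC.tendsto_subseq hmem
  have hδ : Tendsto (fun k : ℕ => 1 / (((φ k : ℕ) : ℝ) + 10)) atTop (𝓝 0) := by
    have h1 : Tendsto (fun k : ℕ => 1 / ((k : ℝ) + 10)) atTop (𝓝 0) := by
      refine Tendsto.div_atTop tendsto_const_nhds ?_
      exact tendsto_atTop_add_const_right _ _ tendsto_natCast_atTop_atTop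
    exact h1.comp hφ.tendsto_atTop
  have hl2 : Tendsto (fun k => (p (φ k)).2) atTop (𝓝 q.2) :=
    (continuous_snd.tendsto q).comp hlim
  have hl1 : Tendsto (fun k => (p (φ k)).1) atTop (𝓝 q.1) :=
    (continuous_fst.tendsto q).comp hlim
  have e00 : q.2 0 0 = 1 := by
    have h1 : Tendsto (fun k => |(p (φ k)).2 0 0 - 1|) atTop (𝓝 |q.2 0 0 - 1|) :=
      ((((Dyn.continuous_entry 0 0).sub continuous_const).abs).tendsto q.2).comp hl2
    have h2 : |q.2 0 0 - 1| ≤ 0 := le_of_tendsto_of_tendsto' h1 hδ fun k => (hp2 (φ k)).1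
    have h3 := abs_nonpos_iff.1 h2
    linarith
  have e10 : q.2 1 0 = 0 := by
    have h1 : Tendsto (fun k => |(p (φ k)).2 1 0|) atTop (𝓝 |q.2 1 0|) :=
      (((Dyn.continuous_entry 1 0).abs).tendsto q.2).comp hl2
    have h2 : |q.2 1 0| ≤ 0 := le_of_tendsto_of_tendsto' h1 hδ fun k => (hp2 (φ k)).2.2
    exact abs_nonpos_iff.1 h2
  have e01 : η ≤ |q.2 0 1| := by
    have h1 : Tendsto (fun k => |(p (φ k)).2 0 1|) atTop (𝓝 |q.2 0 1|) :=
      (((Dyn.continuous_entry 0 1).abs).tendsto q.2).comp hl2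
    exact ge_of_tendsto' h1 fun k => (hp4 (φ k)).le
  have hprod : q.1 * q.2 ∈ Gs K := by
    refine (hCl K hK).mem_of_tendsto (hl1.mul hl2) (Eventually.of_forall fun k => hp3 (φ k))
  have hE1 : q.1 ∈ E := hKE hq.1
  have hE2 : q.1 * un (q.2 0 1) ∈ E := by
    rw [← eq_un e00 e10]
    exact Gs_sub hE hKE hprod
  have h0 := hE.one q.1 hE1 _ hE2
  rw [h0, abs_zero] at e01
  linarith

end

end Pool.Agent.A54.QE
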