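import Pool.Agent.Lib.QE.SpecC

/-!
# QE, block C: the classes of points with the same bad times (module CCs, helper45)
-/

set_option autoImplicit false

namespace Pool.Agent.A54.QE

open MeasureTheory Filter Topology Set
open scoped ContDiff ComplexConjugate UpperHalfPlane MatrixGroups ENNReal
open Pool.Agent.A54.Dyn (G fl base ze io mk4 Inv HM)
open Pool.Agent.A54.Hp (nm Om xi Tb)
open Pool.Agent.A54.Av (Mat)

noncomputable section

namespace CCsM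

/-- bounds for the entry `1 1` -/
theorem d_bounds {δ : ℝ} (hδ : δ ≤ 1 / 10) {h : G} (hh : h ∈ Hw δ δ δ) :
    9 / 10 ≤ h 1 1 ∧ h 1 1 ≤ 113 / 100 := by
  obtain ⟨h1, h2, h3⟩ := hh
  have hd := Dyn.det_eq h
  have ha1 : 9 / 10 ≤ h 0 0 := by
    have := (abs_le.mp h1).1
    linarith
  have ha2 : h 0 0 ≤ 11 / 10 := by
    have := (abs_le.mp h1).2
    linarith
  have hbc : |h 0 1 * h 1 0| ≤ 1 / 100 := by
    rw [abs_mul]
    have h4 : |h 0 1| ≤ 1 / 10 := h2.trans hδ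
    have h5 : |h 1 0| ≤ 1 / 10 := h3.trans hδ
    calc |h 0 1| * |h 1 0| ≤ (1 / 10) * (1 / 10) := mul_le_mul h4 h5 (abs_nonneg _) (by norm_num)
      _ = 1 / 100 := by norm_num
  have hbc1 := (abs_le.mp hbc).1
  have hbc2 := (abs_le.mp hbc).2
  have h6 : h 0 0 * h 1 1 = 1 + h 0 1 * h 1 0 := by linarith
  have hd0 : 0 < h 1 1 := by
    by_contra hc
    push Not at hc
    have : h 0 0 * h 1 1 ≤ 0 := mul_nonpos_of_nonneg_of_nonpos (by linarith) hc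
    linarith
  constructor
  · by_contra hc
    push Not at hc
    have : h 0 0 * h 1 1 < (11 / 10) * (9 / 10) := by
      calc h 0 0 * h 1 1 ≤ (11 / 10) * h 1 1 := mul_le_mul_of_nonneg_right ha2 hd0.le
        _ < (11 / 10) * (9 / 10) := mul_lt_mul_of_pos_left hc (by norm_num)
    linarith
  · by_contra hc
    push Not at hc
    have : (9 / 10) * (113 / 100) < h 0 0 * h 1 1 := by
      calc (9 / 10 : ℝ) * (113 / 100) < (9 / 10) * h 1 1 := mul_lt_mul_of_pos_left hc (by norm_num)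
        _ ≤ h 0 0 * h 1 1 := mul_le_mul_of_nonneg_right ha1 hd0.le
    linarith

/-- the coordinate on the line -/
def bt (x₀ x : G) : ℝ := (x₀⁻¹ * x) 0 1 / (x₀⁻¹ * x) 1 1

/-- comparison of the entry `0 1` with the coordinate -/
theorem entry {δ : ℝ} (hδ : δ ≤ 1 / 10) {x₀ x y : G} (hx : x₀⁻¹ * x ∈ Hw δ δ δ) (hy : x₀⁻¹ * y ∈ Hw δ δ δ) :
    81 / 100 * |bt x₀ x - bt x₀ y| ≤ |(x⁻¹ * y) 0 1| ∧ |(x⁻¹ * y) 0 1| ≤ 128 / 100 * |bt x₀ x - bt x₀ y| := by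
  obtain ⟨hx1, hx2⟩ := d_bounds hδ hx
  obtain ⟨hy1, hy2⟩ := d_bounds hδ hy
  have e1 : x⁻¹ * y = (x₀⁻¹ * x)⁻¹ * (x₀⁻¹ * y) := by group
  have e2 : (x⁻¹ * y) 0 1 = ((x₀⁻¹ * x) 1 1 * (x₀⁻¹ * y) 1 1) * (bt x₀ y - bt x₀ x) := by
    have hx0 : (x₀⁻¹ * x) 1 1 ≠ 0 := by
      intro h; rw [h] at hx1; norm_num at hx1
    have hy0 : (x₀⁻¹ * y) 1 1 ≠ 0 := by
      intro h; rw [h] at hy1; norm_num at hy1
    rw [e1, Dyn.mul_01, Dyn.inv_00, Dyn.inv_01, bt, bt]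
    field_simp
    ring
  have e3 : |(x⁻¹ * y) 0 1| = ((x₀⁻¹ * x) 1 1 * (x₀⁻¹ * y) 1 1) * |bt x₀ x - bt x₀ y| := by
    rw [e2, abs_mul, abs_sub_comm (bt x₀ y), abs_of_nonneg]
    exact mul_nonneg (by linarith) (by linarith)
  rw [e3]
  have h1 : 81 / 100 ≤ (x₀⁻¹ * x) 1 1 * (x₀⁻¹ * y) 1 1 := by
    calc (81 / 100 : ℝ) = (9 / 10) * (9 / 10) := by norm_num
      _ ≤ _ := mul_le_mul hx1 hy1 (by norm_num) (by linarith)
  have h2 : (x₀⁻¹ * x) 1 1 * (x₀⁻¹ * y) 1 1 ≤ 128 / 100 := by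
    calc (x₀⁻¹ * x) 1 1 * (x₀⁻¹ * y) 1 1 ≤ (113 / 100) * (113 / 100) :=
          mul_le_mul hx2 hy2 (by linarith) (by norm_num)
      _ ≤ 128 / 100 := by norm_num
  exact ⟨mul_le_mul_of_nonneg_right h1 (abs_nonneg _), mul_le_mul_of_nonneg_right h2 (abs_nonneg _)⟩

theorem conj_00 (t : ℝ) (h : G) : (fl t * h * fl (-t)) 0 0 = h 0 0 := by
  rw [Dyn.mul_00, Dyn.mul_00, Dyn.mul_01, Dyn.fl_00, Dyn.fl_01, Dyn.fl_00, Dyn.fl_10]
  have : Real.exp (t / 2) * Real.exp (-t / 2) = 1 := by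
    rw [← Real.exp_add, show t / 2 + -t / 2 = 0 by ring, Real.exp_zero]
  linear_combination h 0 0 * this

theorem conj_01 (t : ℝ) (h : G) : (fl t * h * fl (-t)) 0 1 = Real.exp t * h 0 1 := by
  rw [Dyn.mul_01, Dyn.mul_00, Dyn.mul_01, Dyn.fl_00, Dyn.fl_01, Dyn.fl_11, Dyn.fl_01]
  have : Real.exp (t / 2) * Real.exp (-(-t) / 2) = Real.exp t := by
    rw [← Real.exp_add]; ring_nf
  linear_combination h 0 1 * this

theorem conj_10 (t : ℝ) (h : G) : (fl t * h * fl (-t)) 1 0 = Real.exp (-t) * h 1 0 := by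
  rw [Dyn.mul_10, Dyn.mul_10, Dyn.mul_11, Dyn.fl_10, Dyn.fl_11, Dyn.fl_00, Dyn.fl_10]
  have : Real.exp (-t / 2) * Real.exp (-t / 2) = Real.exp (-t) := by
    rw [← Real.exp_add]; ring_nf
  linear_combination h 1 0 * this

theorem conj_eq (t : ℝ) (x y : G) :
    (x * fl (-t))⁻¹ * (y * fl (-t)) = fl t * (x⁻¹ * y) * fl (-t) := by
  rw [Dyn.fl_neg]; group

theorem closed_Hw (δ β γ : ℝ) : IsClosed (Hw δ β γ) := by
  have h00 : Continuous fun g : G => |g 0 0 - 1| := ((Dyn.continuous_entry 0 0).sub continuous_const).abs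
  have h01 : Continuous fun g : G => |g 0 1| := (Dyn.continuous_entry 0 1).abs
  have h10 : Continuous fun g : G => |g 1 0| := (Dyn.continuous_entry 1 0).abs
  exact (isClosed_le h00 continuous_const).inter
    ((isClosed_le h01 continuous_const).inter (isClosed_le h10 continuous_const))

/-- one class -/
theorem one_class (μ : Measure G) (hμ : Inv μ) {δ : ℝ} (hδ : δ ≤ 1 / 10) (m : ℕ) (x : G) (C : Set G)
    (hC : ∀ y ∈ C, x⁻¹ * y ∈ Hw δ (64 / 100 * Real.exp (-(2 * m : ℝ))) δ)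
    (hT : Tw μ (Real.exp (-(m : ℝ))) (x * fl (-(m : ℝ))) ≤ ENNReal.ofReal (Real.exp (-(m : ℝ)))) :
    μ C ≤ ENNReal.ofReal (Real.exp (-(m : ℝ))) := by
  let W : Set G := {y | (x * fl (-(m : ℝ)))⁻¹ * y ∈ Hw (1 / 2) (Real.exp (-(m : ℝ))) (Real.exp (-(m : ℝ)))}
  have hW : MeasurableSet W := ((closed_Hw _ _ _).preimage (continuous_const_mul _)).measurableSet
  have h1 : C ⊆ (fun g => g * fl (-(m : ℝ))) ⁻¹' W := by
    intro y hy
    obtain ⟨h1, h2, h3⟩ := hC y hy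
    change (x * fl (-(m : ℝ)))⁻¹ * (y * fl (-(m : ℝ))) ∈ Hw _ _ _
    rw [conj_eq]
    have hpos := Real.exp_pos (m : ℝ)
    have hpos' := Real.exp_pos (-(m : ℝ))
    refine ⟨?_, ?_, ?_⟩
    · rw [conj_00]
      linarith
    · rw [conj_01, abs_mul, abs_of_pos hpos]
      have e : Real.exp (m : ℝ) * Real.exp (-(2 * m : ℝ)) = Real.exp (-(m : ℝ)) := by
        rw [← Real.exp_add]; ring_nf
      calc Real.exp (m : ℝ) * |(x⁻¹ * y) 0 1|
          ≤ Real.exp (m : ℝ) * (64 / 100 * Real.exp (-(2 * m : ℝ))) := mul_le_mul_of_nonneg_left h2 hpos.le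
        _ = 64 / 100 * Real.exp (-(m : ℝ)) := by rw [← e]; ring
        _ ≤ Real.exp (-(m : ℝ)) := by linarith
    · rw [conj_10, abs_mul, abs_of_pos hpos']
      calc Real.exp (-(m : ℝ)) * |(x⁻¹ * y) 1 0| ≤ Real.exp (-(m : ℝ)) * 1 :=
            mul_le_mul_of_nonneg_left (h3.trans (hδ.trans (by norm_num))) hpos'.le
        _ = Real.exp (-(m : ℝ)) := mul_one _
  calc μ C ≤ μ ((fun g => g * fl (-(m : ℝ))) ⁻¹' W) := measure_mono h1
    _ = (μ.map (fun g => g * fl (-(m : ℝ)))) W :=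
        (Measure.map_apply (continuous_mul_const _).measurable hW).symm
    _ = μ W := by rw [hμ.right]
    _ ≤ ENNReal.ofReal (Real.exp (-(m : ℝ))) := hT

end CCsM

open CCsM

theorem stmtCCs : StmtCCv → StmtCCs := by
  intro hCCv μ hμ Kh B δ hδ0 hδ hK hB m S
  set A : Set G := {x | x ∈ B ∧ (∀ j : ℕ, j < 2 * m → j ∉ S → x * fl (-(j : ℝ)) ∈ Kh) ∧
    Tw μ (Real.exp (-(m : ℝ))) (x * fl (-(m : ℝ))) ≤ ENNReal.ofReal (Real.exp (-(m : ℝ)))} with hA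
  rcases A.eq_empty_or_nonempty with h0 | ⟨x₀, hx₀⟩
  · rw [h0, measure_empty]; exact zero_le
  have hH : ∀ x ∈ A, x₀⁻¹ * x ∈ Hw δ δ δ := fun x hx => hB x₀ hx₀.1 x hx.1
  have hd : ∀ x ∈ bt x₀ '' A, ∀ y ∈ bt x₀ '' A, |x - y| ≤ (1 / 2 : ℝ) := by
    rintro _ ⟨x, hx, rfl⟩ _ ⟨y, hy, rfl⟩
    have h1 := (entry hδ (hH x hx) (hH y hy)).1
    have h2 : |(x⁻¹ * y) 0 1| ≤ δ := (hB x hx.1 y hy.1).2.1
    have h3 := abs_nonneg (bt x₀ x - bt x₀ y)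
    linarith
  have hst : ∀ j : ℕ, j < 2 * m → j ∉ S → ∀ x ∈ bt x₀ '' A, ∀ y ∈ bt x₀ '' A,
      |x - y| ≤ 1 / 2 * Real.exp (-(j : ℝ)) → |x - y| ≤ 1 / 2 * Real.exp (-((j : ℝ) + 1)) := by
    rintro j hj hjS _ ⟨x, hx, rfl⟩ _ ⟨y, hy, rfl⟩ hxy
    obtain ⟨h1, h2⟩ := entry hδ (hH x hx) (hH y hy)
    obtain ⟨h3, h4, h5⟩ := hB x hx.1 y hy.1
    have hp := Real.exp_pos (j : ℝ)
    have hp' := Real.exp_pos (-(j : ℝ))
    have e0 : Real.exp (j : ℝ) * Real.exp (-(j : ℝ)) = 1 := by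
      rw [← Real.exp_add, add_neg_cancel, Real.exp_zero]
    have e1 : x * fl (-(j : ℝ)) * (fl (j : ℝ) * (x⁻¹ * y) * fl (-(j : ℝ))) = y * fl (-(j : ℝ)) := by
      rw [Dyn.fl_neg]; group
    have h6 : Real.exp (j : ℝ) * |(x⁻¹ * y) 0 1| ≤ 64 / 100 := by
      calc Real.exp (j : ℝ) * |(x⁻¹ * y) 0 1|
          ≤ Real.exp (j : ℝ) * (128 / 100 * (1 / 2 * Real.exp (-(j : ℝ)))) :=
            mul_le_mul_of_nonneg_left (h2.trans (mul_le_mul_of_nonneg_left hxy (by norm_num))) hp.le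
        _ = 64 / 100 * (Real.exp (j : ℝ) * Real.exp (-(j : ℝ))) := by ring
        _ = 64 / 100 := by rw [e0, mul_one]
    have h7 : |(fl (j : ℝ) * (x⁻¹ * y) * fl (-(j : ℝ))) 0 1| ≤ 1 / 10 := by
      refine hK (x * fl (-(j : ℝ))) _ (hx.2.1 j hj hjS) ?_ ⟨?_, ?_, ?_⟩
      · rw [e1]; exact hy.2.1 j hj hjS
      · rw [conj_00]; exact h3
      · rw [conj_01, abs_mul, abs_of_pos hp]; linarith
      · rw [conj_10, abs_mul, abs_of_pos hp']
        calc Real.exp (-(j : ℝ)) * |(x⁻¹ * y) 1 0| ≤ 1 * |(x⁻¹ * y) 1 0| :=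
              mul_le_mul_of_nonneg_right (Real.exp_le_one_iff.mpr (by simp)) (abs_nonneg _)
          _ ≤ δ := by rw [one_mul]; exact h5
    rw [conj_01, abs_mul, abs_of_pos hp] at h7
    have h8 : |(x⁻¹ * y) 0 1| ≤ 1 / 10 * Real.exp (-(j : ℝ)) := by
      have h9 : Real.exp (-(j : ℝ)) * (Real.exp (j : ℝ) * |(x⁻¹ * y) 0 1|) ≤
          Real.exp (-(j : ℝ)) * (1 / 10) := mul_le_mul_of_nonneg_left h7 hp'.le
      have h10 : Real.exp (-(j : ℝ)) * (Real.exp (j : ℝ) * |(x⁻¹ * y) 0 1|) = |(x⁻¹ * y) 0 1| := by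
        linear_combination |(x⁻¹ * y) 0 1| * e0
      rw [h10] at h9
      linarith
    have e2 : Real.exp (-((j : ℝ) + 1)) = Real.exp (-(j : ℝ)) * Real.exp (-1) := by
      rw [← Real.exp_add]; ring_nf
    have e3 : (36 / 100 : ℝ) ≤ Real.exp (-1) := by
      rw [Real.exp_neg]
      have h11 := Real.exp_one_lt_d9
      have h12 := Real.exp_pos 1
      rw [show (36 / 100 : ℝ) = (100 / 36)⁻¹ by norm_num]
      exact inv_anti₀ h12 (by linarith)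
    rw [e2]
    have h13 : Real.exp (-(j : ℝ)) * (36 / 100) ≤ Real.exp (-(j : ℝ)) * Real.exp (-1) :=
      mul_le_mul_of_nonneg_left e3 hp'.le
    have h14 : 81 / 100 * |bt x₀ x - bt x₀ y| ≤ 1 / 10 * Real.exp (-(j : ℝ)) := h1.trans h8
    linarith
  obtain ⟨κ, hκ1, hκ2⟩ := hCCv (bt x₀ '' A) (1 / 2) (by norm_num) hd (2 * m) S hst
  have hcov : A ⊆ ⋃ k ∈ Finset.range (4 ^ S.card), {x | x ∈ A ∧ κ (bt x₀ x) = k} := by
    intro x hx
    simp only [Set.mem_iUnion, Finset.mem_range]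
    exact ⟨κ (bt x₀ x), hκ1 _ ⟨x, hx, rfl⟩, hx, rfl⟩
  have hcl : ∀ k : ℕ, μ {x | x ∈ A ∧ κ (bt x₀ x) = k} ≤ ENNReal.ofReal (Real.exp (-(m : ℝ))) := by
    intro k
    rcases ({x | x ∈ A ∧ κ (bt x₀ x) = k} : Set G).eq_empty_or_nonempty with h1 | ⟨x, hx, hxk⟩
    · rw [h1, measure_empty]; exact zero_le
    · refine one_class μ hμ hδ m x _ ?_ hx.2.2
      rintro y ⟨hy, hyk⟩
      obtain ⟨h3, h4, h5⟩ := hB x hx.1 y hy.1
      refine ⟨h3, ?_, h5⟩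
      have h6 := hκ2 _ ⟨x, hx, rfl⟩ _ ⟨y, hy, rfl⟩ (hxk.trans hyk.symm)
      have h7 := (entry hδ (hH x hx) (hH y hy)).2
      have e1 : Real.exp (-((2 * m : ℕ) : ℝ)) = Real.exp (-(2 * m : ℝ)) := by
        push_cast; rfl
      rw [e1] at h6
      linarith
  calc μ A ≤ μ (⋃ k ∈ Finset.range (4 ^ S.card), {x | x ∈ A ∧ κ (bt x₀ x) = k}) := measure_mono hcov
    _ ≤ ∑ k ∈ Finset.range (4 ^ S.card), μ {x | x ∈ A ∧ κ (bt x₀ x) = k} := measure_biUnion_finset_le _ _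
    _ ≤ ∑ k ∈ Finset.range (4 ^ S.card), ENNReal.ofReal (Real.exp (-(m : ℝ))) :=
        Finset.sum_le_sum fun k _ => hcl k
    _ = 4 ^ S.card * ENNReal.ofReal (Real.exp (-(m : ℝ))) := by
        rw [Finset.sum_const, Finset.card_range, nsmul_eq_mul]
        push_cast
        rfl

end

end Pool.Agent.A54.QE
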