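import Pool.Agent.Lib.QE.SpecC

/-!
# Package `QE`, block C: counting of finite sets (proof of `StmtCCt`)
-/

set_option autoImplicit false

namespace Pool.Agent.A54.QE

noncomputable section

/-- **CCt** counting. -/
theorem stmtCCt : StmtCCt := by
  intro n
  have key : ∀ S ∈ (Finset.range n).powerset.filter (fun S => 100 * S.card ≤ n),
      (4 : ℝ) ^ S.card ≤ (21 / 20 : ℝ) ^ n * ((1 / 25 : ℝ) ^ S.card * 1 ^ (n - S.card)) := by
    intro S hS
    have h1 : 100 * S.card ≤ n := (Finset.mem_filter.mp hS).2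
    have h2 : (100 : ℝ) ≤ (21 / 20 : ℝ) ^ 100 := by norm_num
    have h3 : (100 : ℝ) ^ S.card ≤ (21 / 20 : ℝ) ^ n := by
      calc (100 : ℝ) ^ S.card ≤ ((21 / 20 : ℝ) ^ 100) ^ S.card :=
            pow_le_pow_left₀ (by norm_num) h2 _
        _ = (21 / 20 : ℝ) ^ (100 * S.card) := (pow_mul _ _ _).symm
        _ ≤ (21 / 20 : ℝ) ^ n := pow_le_pow_right₀ (by norm_num) h1
    have h4 : (4 : ℝ) ^ S.card = 100 ^ S.card * (1 / 25 : ℝ) ^ S.card := by
      rw [← mul_pow]
      norm_num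
    rw [h4, one_pow, mul_one]
    exact mul_le_mul_of_nonneg_right h3 (by positivity)
  have h5 : ∑ S ∈ (Finset.range n).powerset, ((1 / 25 : ℝ) ^ S.card * 1 ^ (n - S.card)) =
      (1 / 25 + 1 : ℝ) ^ n := by
    have := Finset.sum_pow_mul_eq_add_pow (1 / 25 : ℝ) 1 (Finset.range n)
    simpa only [Finset.card_range] using this
  calc ∑ S ∈ (Finset.range n).powerset.filter (fun S => 100 * S.card ≤ n), (4 : ℝ) ^ S.card
      ≤ ∑ S ∈ (Finset.range n).powerset.filter (fun S => 100 * S.card ≤ n),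
        (21 / 20 : ℝ) ^ n * ((1 / 25 : ℝ) ^ S.card * 1 ^ (n - S.card)) := Finset.sum_le_sum key
    _ ≤ ∑ S ∈ (Finset.range n).powerset,
        (21 / 20 : ℝ) ^ n * ((1 / 25 : ℝ) ^ S.card * 1 ^ (n - S.card)) :=
        Finset.sum_le_sum_of_subset_of_nonneg (Finset.filter_subset _ _)
          fun S _ _ => by positivity
    _ = (21 / 20 : ℝ) ^ n * (1 / 25 + 1 : ℝ) ^ n := by rw [← Finset.mul_sum, h5]
    _ = (21 / 20 * (1 / 25 + 1) : ℝ) ^ n := (mul_pow _ _ _).symm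
    _ ≤ (11 / 10 : ℝ) ^ n := pow_le_pow_left₀ (by norm_num) (by norm_num) n

end

end Pool.Agent.A54.QE
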