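import Pool.Agent.Lib.QE.SpecC

/-!
# QE/CCv: the covering lemma on the line as a colouring (helper95)
-/

set_option autoImplicit false

namespace Pool.Agent.A54.QE

open MeasureTheory Filter Topology Set
open scoped ContDiff ComplexConjugate UpperHalfPlane MatrixGroups ENNReal
open Pool.Agent.A54.Dyn (G fl base ze io mk4 Inv HM)
open Pool.Agent.A54.Hp (nm Om xi Tb)
open Pool.Agent.A54.Av (Mat)

noncomputable section

namespace CCvM

theorem step (l x y : ℝ) (hl : 0 < l) (h : |x - y| < 3 * l) (hm : ⌊x / l⌋ % 4 = ⌊y / l⌋ % 4) :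
    |x - y| ≤ l := by
  have hx := Int.floor_le (x / l)
  have hx' := Int.lt_floor_add_one (x / l)
  have hy := Int.floor_le (y / l)
  have hy' := Int.lt_floor_add_one (y / l)
  have h1 : |x / l - y / l| < 3 := by
    rw [← sub_div, abs_div, abs_of_pos hl, div_lt_iff₀ hl]
    exact h
  rw [abs_lt] at h1
  have h2 : ((⌊x / l⌋ - ⌊y / l⌋ : ℤ) : ℝ) < 4 := by push_cast; linarith
  have h3 : (-4 : ℝ) < ((⌊x / l⌋ - ⌊y / l⌋ : ℤ) : ℝ) := by push_cast; linarith
  have h2' : ⌊x / l⌋ - ⌊y / l⌋ < 4 := by exact_mod_cast h2
  have h3' : -4 < ⌊x / l⌋ - ⌊y / l⌋ := by exact_mod_cast h3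
  have h4 : ⌊x / l⌋ = ⌊y / l⌋ := by omega
  have h5 : ((⌊x / l⌋ : ℤ) : ℝ) = ((⌊y / l⌋ : ℤ) : ℝ) := by rw [h4]
  have h6 : |x / l - y / l| ≤ 1 := by
    rw [abs_le]
    constructor <;> linarith
  rw [← sub_div, abs_div, abs_of_pos hl, div_le_iff₀ hl, one_mul] at h6
  exact h6

end CCvM

theorem stmtCCv : StmtCCv := by
  intro B L hL hB n S hS
  have key : ∀ k : ℕ, k ≤ n → ∃ κ : ℝ → ℕ, (∀ x ∈ B, κ x < 4 ^ (S.filter (fun j => j < k)).card) ∧
      ∀ x ∈ B, ∀ y ∈ B, κ x = κ y → |x - y| ≤ L * Real.exp (-(k : ℝ)) := by
    intro k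
    induction k with
    | zero =>
      intro _
      refine ⟨fun _ => 0, fun x _ => by positivity, fun x hx y hy _ => ?_⟩
      simpa using hB x hx y hy
    | succ k ih =>
      intro hk
      obtain ⟨κ, h1, h2⟩ := ih (by omega)
      by_cases hkS : k ∈ S
      · have hc : (S.filter (fun j => j < k + 1)).card = (S.filter (fun j => j < k)).card + 1 := by
          have e : S.filter (fun j => j < k + 1) = insert k (S.filter (fun j => j < k)) := by
            ext j
            simp only [Finset.mem_filter, Finset.mem_insert]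
            constructor
            · rintro ⟨hj, hjk⟩
              rcases Nat.lt_succ_iff_lt_or_eq.1 hjk with h | h
              · exact Or.inr ⟨hj, h⟩
              · exact Or.inl h
            · rintro (rfl | ⟨hj, hjk⟩)
              · exact ⟨hkS, Nat.lt_succ_self _⟩
              · exact ⟨hj, by omega⟩
          rw [e, Finset.card_insert_of_notMem]
          simp
        set l : ℝ := L * Real.exp (-((k : ℝ) + 1)) with hl
        have hl0 : 0 < l := mul_pos hL (Real.exp_pos _)
        refine ⟨fun x => 4 * κ x + (⌊x / l⌋ % 4).toNat, fun x hx => ?_, fun x hx y hy h => ?_⟩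
        · rw [hc, pow_succ]
          have := h1 x hx
          have h4 : (⌊x / l⌋ % 4).toNat < 4 := by omega
          change 4 * κ x + (⌊x / l⌋ % 4).toNat < _
          omega
        · have h' : 4 * κ x + (⌊x / l⌋ % 4).toNat = 4 * κ y + (⌊y / l⌋ % 4).toNat := h
          have hκ : κ x = κ y := by omega
          have hm : ⌊x / l⌋ % 4 = ⌊y / l⌋ % 4 := by omega
          have h3 := h2 x hx y hy hκ
          have h5 : L * Real.exp (-(k : ℝ)) = Real.exp 1 * l := by
            rw [hl, mul_left_comm, ← Real.exp_add]
            congr 2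
            ring
          have h6 : |x - y| < 3 * l := by
            rw [h5] at h3
            refine lt_of_le_of_lt h3 ?_
            exact mul_lt_mul_of_pos_right (by have := Real.exp_one_lt_d9; linarith) hl0
          have h7 := CCvM.step l x y hl0 h6 hm
          rw [hl] at h7
          push_cast
          exact h7
      · have hc : S.filter (fun j => j < k + 1) = S.filter (fun j => j < k) := by
          ext j
          simp only [Finset.mem_filter]
          constructor
          · rintro ⟨hj, hjk⟩
            refine ⟨hj, ?_⟩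
            rcases Nat.lt_succ_iff_lt_or_eq.1 hjk with h | h
            · exact h
            · exact absurd (h ▸ hj) hkS
          · rintro ⟨hj, hjk⟩
            exact ⟨hj, by omega⟩
        refine ⟨κ, fun x hx => ?_, fun x hx y hy h => ?_⟩
        · rw [hc]
          exact h1 x hx
        · have h7 := hS k (by omega) hkS x hx y hy (h2 x hx y hy h)
          push_cast
          exact h7
  obtain ⟨κ, h1, h2⟩ := key n le_rfl
  refine ⟨κ, fun x hx => lt_of_lt_of_le (h1 x hx) ?_, h2⟩
  exact Nat.pow_le_pow_right (by norm_num) (Finset.card_le_card (Finset.filter_subset _ _))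

end

end Pool.Agent.A54.QE
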