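import Pool.Agent.Lib.QE.SpecC

/-!
# `StmtCDc`: decay of the measure of `Sm`
-/

set_option autoImplicit false

namespace Pool.Agent.A54.QE

open MeasureTheory Filter Topology Set
open scoped ContDiff ComplexConjugate UpperHalfPlane MatrixGroups ENNReal
open Pool.Agent.A54.Dyn (G fl base ze io mk4 Inv HM)
open Pool.Agent.A54.Hp (nm Om xi Tb)
open Pool.Agent.A54.Av (Mat)

noncomputable section

namespace CDcM

/-- The sum of the numbers of classes. -/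
lemma sum_le (hCt : StmtCCt) (n : ℕ) :
    ∑ S ∈ (Finset.range n).powerset.filter (fun S => 100 * S.card ≤ n), (4 : ℝ≥0∞) ^ S.card ≤
      ENNReal.ofReal ((11 / 10 : ℝ) ^ n) := by
  have h1 : ∑ S ∈ (Finset.range n).powerset.filter (fun S => 100 * S.card ≤ n),
      (4 : ℝ≥0∞) ^ S.card = ENNReal.ofReal
        (∑ S ∈ (Finset.range n).powerset.filter (fun S => 100 * S.card ≤ n), (4 : ℝ) ^ S.card) := by
    rw [ENNReal.ofReal_sum_of_nonneg fun S _ => by positivity]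
    refine Finset.sum_congr rfl fun S _ => ?_
    rw [ENNReal.ofReal_pow (by norm_num), ENNReal.ofReal_ofNat]
  rw [h1]
  exact ENNReal.ofReal_le_ofReal (hCt n)

/-- The bound for one `m`. -/
lemma key (hCs : StmtCCs) (hCt : StmtCCt) (μ : Measure G) (hi : Inv μ) (K : Set G) (δ : ℝ)
    (hδ0 : 0 < δ) (hδ1 : δ ≤ 1 / 10)
    (hδ : ∀ x h : G, x ∈ Gs K → x * h ∈ Gs K → h ∈ Hw δ 1 δ → |h 0 1| ≤ 1 / 10)
    (J : ℕ) (B : Fin J → Set G) (hB : K ⊆ ⋃ i, B i)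
    (hBd : ∀ i, ∀ x ∈ B i, ∀ y ∈ B i, x⁻¹ * y ∈ Hw δ δ δ) (m : ℕ) :
    μ (Sm μ K m) ≤ ENNReal.ofReal ((J : ℝ) * (121 / 100 * Real.exp (-1)) ^ m) := by
  classical
  obtain ⟨F, hF⟩ : ∃ F : Finset (Finset ℕ), F = (Finset.range (2 * m)).powerset.filter
      (fun S => 100 * S.card ≤ 2 * m) := ⟨_, rfl⟩
  have hsub : Sm μ K m ⊆ ⋃ i : Fin J, ⋃ S ∈ F, {x | x ∈ B i ∧
      (∀ j : ℕ, j < 2 * m → j ∉ S → x * fl (-(j : ℝ)) ∈ Gs K) ∧
      Tw μ (Real.exp (-(m : ℝ))) (x * fl (-(m : ℝ))) ≤ ENNReal.ofReal (Real.exp (-(m : ℝ)))} := by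
    rintro x ⟨hxK, hxb, hxT⟩
    obtain ⟨i, hxi⟩ := mem_iUnion.1 (hB hxK)
    refine mem_iUnion.2 ⟨i, mem_iUnion₂.2 ⟨bad K (2 * m) x, ?_, hxi, ?_, hxT⟩⟩
    · rw [hF, Finset.mem_filter, Finset.mem_powerset]
      exact ⟨Finset.filter_subset _ _, hxb⟩
    · intro j hj hjS
      by_contra hcon
      apply hjS
      unfold bad
      rw [Finset.mem_filter, Finset.mem_range]
      exact ⟨hj, hcon⟩
  have hsum := sum_le hCt (2 * m)
  rw [← hF] at hsum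
  calc μ (Sm μ K m) ≤ μ (⋃ i : Fin J, ⋃ S ∈ F, {x | x ∈ B i ∧
        (∀ j : ℕ, j < 2 * m → j ∉ S → x * fl (-(j : ℝ)) ∈ Gs K) ∧
        Tw μ (Real.exp (-(m : ℝ))) (x * fl (-(m : ℝ))) ≤
          ENNReal.ofReal (Real.exp (-(m : ℝ)))}) := measure_mono hsub
    _ ≤ ∑ i : Fin J, μ (⋃ S ∈ F, {x | x ∈ B i ∧
        (∀ j : ℕ, j < 2 * m → j ∉ S → x * fl (-(j : ℝ)) ∈ Gs K) ∧
        Tw μ (Real.exp (-(m : ℝ))) (x * fl (-(m : ℝ))) ≤
          ENNReal.ofReal (Real.exp (-(m : ℝ)))}) := measure_iUnion_fintype_le _ _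
    _ ≤ ∑ i : Fin J, ∑ S ∈ F, μ {x | x ∈ B i ∧
        (∀ j : ℕ, j < 2 * m → j ∉ S → x * fl (-(j : ℝ)) ∈ Gs K) ∧
        Tw μ (Real.exp (-(m : ℝ))) (x * fl (-(m : ℝ))) ≤
          ENNReal.ofReal (Real.exp (-(m : ℝ)))} :=
        Finset.sum_le_sum fun i _ => measure_biUnion_finset_le _ _
    _ ≤ ∑ i : Fin J, ∑ S ∈ F, 4 ^ S.card * ENNReal.ofReal (Real.exp (-(m : ℝ))) :=
        Finset.sum_le_sum fun i _ => Finset.sum_le_sum fun S _ =>
          hCs μ hi (Gs K) (B i) δ hδ0 hδ1 hδ (hBd i) m S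
    _ = (J : ℝ≥0∞) * ((∑ S ∈ F, 4 ^ S.card) * ENNReal.ofReal (Real.exp (-(m : ℝ)))) := by
        rw [Finset.sum_const, Finset.card_univ, Fintype.card_fin, nsmul_eq_mul, Finset.sum_mul]
    _ ≤ (J : ℝ≥0∞) * (ENNReal.ofReal ((11 / 10 : ℝ) ^ (2 * m)) *
        ENNReal.ofReal (Real.exp (-(m : ℝ)))) := by
        gcongr
    _ = ENNReal.ofReal ((J : ℝ) * (121 / 100 * Real.exp (-1)) ^ m) := by
        rw [← ENNReal.ofReal_natCast J, ← ENNReal.ofReal_mul (by positivity),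
          ← ENNReal.ofReal_mul (by positivity)]
        congr 2
        rw [mul_pow, pow_mul, ← Real.exp_nat_mul]
        norm_num

end CDcM

theorem stmtCDc (hCp : StmtCCp) (hCs : StmtCCs) (hBx : StmtCBx) (hCt : StmtCCt) : StmtCDc := by
  intro μ hi E hE K hK hKE
  obtain ⟨δ, hδ0, hδ1, hδ⟩ := hCp E hE K hK hKE (1 / 10) (by norm_num)
  obtain ⟨J, B, hB, hBd⟩ := hBx K δ hK hδ0
  have hr0 : 0 ≤ 121 / 100 * Real.exp (-1) := by positivity
  have hr1 : 121 / 100 * Real.exp (-1) < 1 := by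
    have h1 := Real.exp_one_gt_d9
    rw [Real.exp_neg, ← div_eq_mul_inv, div_lt_one (Real.exp_pos 1)]
    linarith
  have hlim : Tendsto (fun m : ℕ => ENNReal.ofReal ((J : ℝ) * (121 / 100 * Real.exp (-1)) ^ m))
      atTop (𝓝 0) := by
    have h1 := (tendsto_pow_atTop_nhds_zero_of_lt_one hr0 hr1).const_mul (J : ℝ)
    rw [mul_zero] at h1
    have h2 := ENNReal.tendsto_ofReal h1
    rw [ENNReal.ofReal_zero] at h2
    exact h2
  exact tendsto_of_tendsto_of_tendsto_of_le_of_le tendsto_const_nhds hlim (fun m => zero_le)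
    (fun m => CDcM.key hCs hCt μ hi K δ hδ0 hδ1 hδ J B hB hBd m)

end

end Pool.Agent.A54.QE
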