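import Pool.Agent.Lib.QE.SpecC

/-!
# Package `QE`, block C: the sets of all `g` with the first column on a given line are null sets

`xi` maps such a set into a line; `O(1/w)` tubes of width `w` cover it in a box, and `Cwm` bounds the sum of the squares of
the masses by `w ^ (1 + c)`.
-/

set_option autoImplicit false

namespace Pool.Agent.A54.QE

open MeasureTheory Filter Topology Set
open scoped ContDiff ComplexConjugate UpperHalfPlane MatrixGroups ENNReal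
open Pool.Agent.A54.Dyn (G fl base ze io mk4 Inv)
open Pool.Agent.A54.Hp (nm Om xi Tb)

noncomputable section

namespace CLnM

/-- the coordinate on the line -/
def sg (g : G) : ℝ := g 0 0 * g 0 1 + g 1 0 * g 1 1

lemma continuous_sg : Continuous sg := by
  have h := Dyn.continuous_entry
  exact ((h 0 0).mul (h 0 1)).add ((h 1 0).mul (h 1 1))

lemma xi_0 (g : G) : xi g 0 = g 0 0 * g 1 1 + g 0 1 * g 1 0 := rfl
lemma xi_1 (g : G) : xi g 1 = -(g 0 0 * g 0 1) := rfl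
lemma xi_2 (g : G) : xi g 2 = g 1 0 * g 1 1 := rfl

lemma norm_pos {p q : ℝ} (hv : (p, q) ≠ 0) : 0 < p ^ 2 + q ^ 2 := by
  by_contra h
  have h1 : p ^ 2 = 0 := by nlinarith [sq_nonneg p, sq_nonneg q]
  have h2 : q ^ 2 = 0 := by nlinarith [sq_nonneg p, sq_nonneg q]
  apply hv
  rw [Prod.mk_eq_zero]
  exact ⟨pow_eq_zero_iff (two_ne_zero) |>.1 h1, pow_eq_zero_iff (two_ne_zero) |>.1 h2⟩

lemma col {p q r : ℝ} {g : G} (h : vc g = r • (p, q)) : g 0 0 = r * p ∧ g 1 0 = r * q := by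
  have h1 := congrArg Prod.fst h
  have h2 := congrArg Prod.snd h
  exact ⟨h1, h2⟩

lemma xi_eq {p q r : ℝ} {g : G} (h : vc g = r • (p, q)) :
    (p ^ 2 + q ^ 2) * xi g 0 = p ^ 2 - q ^ 2 + 2 * p * q * sg g ∧
    (p ^ 2 + q ^ 2) * xi g 1 = p * q - p ^ 2 * sg g ∧
    (p ^ 2 + q ^ 2) * xi g 2 = p * q + q ^ 2 * sg g := by
  obtain ⟨h1, h2⟩ := col h
  have hd := Dyn.det_eq g
  rw [h1, h2] at hd
  rw [xi_0, xi_1, xi_2, sg, h1, h2]
  refine ⟨?_, ?_, ?_⟩
  · linear_combination (p ^ 2 - q ^ 2) * hd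
  · linear_combination (p * q) * hd
  · linear_combination (p * q) * hd

lemma xi_sub {p q r r' : ℝ} (hv : (p, q) ≠ 0) {g g' : G} (h : vc g = r • (p, q)) (h' : vc g' = r' • (p, q))
    (i : Fin 3) : |xi g i - xi g' i| ≤ |sg g - sg g'| := by
  have hn := norm_pos hv
  obtain ⟨a0, a1, a2⟩ := xi_eq h
  obtain ⟨b0, b1, b2⟩ := xi_eq h'
  have key : ∀ e : ℝ, |e| ≤ p ^ 2 + q ^ 2 → (p ^ 2 + q ^ 2) * (xi g i - xi g' i) = (sg g - sg g') * e →
      |xi g i - xi g' i| ≤ |sg g - sg g'| := by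
    intro e he h3
    have h4 : (p ^ 2 + q ^ 2) * |xi g i - xi g' i| = |sg g - sg g'| * |e| := by
      rw [← abs_mul, ← h3, abs_mul, abs_of_pos hn]
    have h5 : |sg g - sg g'| * |e| ≤ |sg g - sg g'| * (p ^ 2 + q ^ 2) :=
      mul_le_mul_of_nonneg_left he (abs_nonneg _)
    rw [← h4] at h5
    nlinarith
  fin_cases i
  · refine key (2 * p * q) (abs_le.2 ⟨?_, ?_⟩) ?_
    · nlinarith [sq_nonneg (p + q)]
    · nlinarith [sq_nonneg (p - q)]
    · show (p ^ 2 + q ^ 2) * (xi g 0 - xi g' 0) = _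
      linear_combination a0 - b0
  · refine key (-p ^ 2) (abs_le.2 ⟨?_, ?_⟩) ?_
    · nlinarith [sq_nonneg p, sq_nonneg q]
    · nlinarith [sq_nonneg p, sq_nonneg q]
    · show (p ^ 2 + q ^ 2) * (xi g 1 - xi g' 1) = _
      linear_combination a1 - b1
  · refine key (q ^ 2) (abs_le.2 ⟨?_, ?_⟩) ?_
    · nlinarith [sq_nonneg p, sq_nonneg q]
    · nlinarith [sq_nonneg p, sq_nonneg q]
    · show (p ^ 2 + q ^ 2) * (xi g 2 - xi g' 2) = _
      linear_combination a2 - b2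

lemma sg_bound {R : ℝ} {g : G} (hg : g ∈ Om R) : |sg g| ≤ 2 * R ^ 2 := by
  have h : ∀ i j k l, |g i j * g k l| ≤ R ^ 2 := by
    intro i j k l
    rw [abs_mul, sq]
    exact mul_le_mul (hg i j) (hg k l) (abs_nonneg _) ((abs_nonneg _).trans (hg i j))
  calc |sg g| ≤ |g 0 0 * g 0 1| + |g 1 0 * g 1 1| := abs_add_le _ _
    _ ≤ 2 * R ^ 2 := by linarith [h 0 0 0 1, h 1 0 1 1]

/-- the set -/
def Sv (v : ℝ × ℝ) : Set G := {g | ∃ r : ℝ, vc g = r • v}

lemma isClosed_Sv {v : ℝ × ℝ} (hv : v ≠ 0) : IsClosed (Sv v) := by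
  obtain ⟨p, q⟩ := v
  have hn := norm_pos hv
  have e : Sv (p, q) = {g : G | g 0 0 * q - g 1 0 * p = 0} := by
    ext g
    constructor
    · rintro ⟨r, hr⟩
      obtain ⟨h1, h2⟩ := col hr
      show g 0 0 * q - g 1 0 * p = 0
      rw [h1, h2]
      ring
    · intro h
      have h' : g 0 0 * q - g 1 0 * p = 0 := h
      refine ⟨(g 0 0 * p + g 1 0 * q) / (p ^ 2 + q ^ 2), ?_⟩
      rw [vc, Prod.smul_mk, Prod.mk.injEq, smul_eq_mul, smul_eq_mul, div_mul_eq_mul_div, div_mul_eq_mul_div,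
        eq_div_iff hn.ne', eq_div_iff hn.ne']
      constructor
      · linear_combination q * h'
      · linear_combination (-p) * h'
  rw [e]
  have h := Dyn.continuous_entry
  exact isClosed_eq (((h 0 0).mul continuous_const).sub ((h 1 0).mul continuous_const)) continuous_const

lemma isClosed_Om (R : ℝ) : IsClosed (Om R) := by
  have e : Om R = ⋂ i : Fin 2, ⋂ j : Fin 2, {g : G | |g i j| ≤ R} := by
    ext g; simp [Om]
  rw [e]
  exact isClosed_iInter fun i => isClosed_iInter fun j =>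
    isClosed_le (Dyn.continuous_entry i j).abs continuous_const

/-- the pieces -/
def Pc (v : ℝ × ℝ) (R w : ℝ) (k : ℤ) : Set G := (Sv v ∩ Om R) ∩ {g | ⌊sg g / w⌋ = k}

lemma measurableSet_Pc {v : ℝ × ℝ} (hv : v ≠ 0) (R w : ℝ) (k : ℤ) : MeasurableSet (Pc v R w k) := by
  refine ((isClosed_Sv hv).measurableSet.inter (isClosed_Om R).measurableSet).inter ?_
  have h1 : Measurable fun g : G => ⌊sg g / w⌋ := Int.measurable_floor.comp
    (continuous_sg.measurable.div_const w)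
  exact h1 (measurableSet_singleton k)

lemma Pc_sub {v : ℝ × ℝ} (hv : v ≠ 0) {R w : ℝ} (hw : 0 < w) (k : ℤ) {g : G} (hg : g ∈ Pc v R w k) :
    Pc v R w k ⊆ Tb R (xi g) w := by
  intro g' hg'
  obtain ⟨p, q⟩ := v
  obtain ⟨⟨⟨r, hr⟩, hR⟩, hk⟩ := hg
  obtain ⟨⟨⟨r', hr'⟩, hR'⟩, hk'⟩ := hg'
  refine ⟨hR', fun i => (xi_sub hv hr' hr i).trans ?_⟩
  have e1 : (⌊sg g / w⌋ : ℤ) = k := hk
  have e2 : (⌊sg g' / w⌋ : ℤ) = k := hk'
  have f1 := Int.floor_le (sg g / w)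
  have f2 := Int.lt_floor_add_one (sg g / w)
  have f3 := Int.floor_le (sg g' / w)
  have f4 := Int.lt_floor_add_one (sg g' / w)
  rw [e1] at f1 f2
  rw [e2] at f3 f4
  rw [le_div_iff₀ hw] at f1 f3
  rw [div_lt_iff₀ hw] at f2 f4
  rw [abs_le]
  constructor <;> nlinarith

lemma mass_sq (μ : Measure G) {v : ℝ × ℝ} (hv : v ≠ 0) {R w : ℝ} (hw : 0 < w) (hw1 : w ≤ 1) :
    μ (Sv v ∩ Om R) ^ 2 ≤ ENNReal.ofReal ((8 * R ^ 2 + 6) / w) * ∫⁻ g in Om R, μ (Tb R (xi g) w) ∂μ := by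
  let K : ℕ := ⌈2 * R ^ 2 / w⌉₊ + 1
  let I : Finset ℤ := Finset.Ico (-(K : ℤ)) (K : ℤ)
  have hcov : Sv v ∩ Om R ⊆ ⋃ k ∈ I, Pc v R w k := by
    intro g hg
    rw [mem_iUnion₂]
    refine ⟨⌊sg g / w⌋, ?_, ⟨hg, rfl⟩⟩
    rw [Finset.mem_Ico]
    have h1 := sg_bound hg.2
    have h2 : |sg g / w| ≤ 2 * R ^ 2 / w := by
      rw [abs_div, abs_of_pos hw]
      exact div_le_div_of_nonneg_right h1 hw.le
    have h3 : 2 * R ^ 2 / w ≤ ⌈2 * R ^ 2 / w⌉₊ := Nat.le_ceil _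
    have h4 : (K : ℝ) = ⌈2 * R ^ 2 / w⌉₊ + 1 := by
      show ((⌈2 * R ^ 2 / w⌉₊ + 1 : ℕ) : ℝ) = _
      push_cast
      ring
    obtain ⟨h5, h6⟩ := abs_le.1 h2
    constructor
    · rw [Int.le_floor]
      push_cast
      linarith
    · rw [Int.floor_lt]
      push_cast
      linarith
  have hcard : ((I.card : ℕ) : ℝ) ≤ (8 * R ^ 2 + 6) / w := by
    have h1 : (I.card : ℝ) = 2 * K := by
      show (((Finset.Ico (-(K : ℤ)) (K : ℤ)).card : ℕ) : ℝ) = _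
      rw [Int.card_Ico]
      have : ((K : ℤ) - -(K : ℤ)).toNat = 2 * K := by omega
      rw [this]
      push_cast
      ring
    have h3 : (⌈2 * R ^ 2 / w⌉₊ : ℝ) < 2 * R ^ 2 / w + 1 := Nat.ceil_lt_add_one (by positivity)
    have h4 : (K : ℝ) = ⌈2 * R ^ 2 / w⌉₊ + 1 := by
      show ((⌈2 * R ^ 2 / w⌉₊ + 1 : ℕ) : ℝ) = _
      push_cast
      ring
    rw [h1, h4, le_div_iff₀ hw]
    have h5 : 2 * R ^ 2 / w * w = 2 * R ^ 2 := by field_simp
    have h6 : (⌈2 * R ^ 2 / w⌉₊ : ℝ) * w ≤ (2 * R ^ 2 / w + 1) * w :=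
      mul_le_mul_of_nonneg_right h3.le hw.le
    nlinarith [sq_nonneg R]
  have hsum : ∑ k ∈ I, μ (Pc v R w k) ^ 2 ≤ ∫⁻ g in Om R, μ (Tb R (xi g) w) ∂μ := by
    calc ∑ k ∈ I, μ (Pc v R w k) ^ 2 = ∑ k ∈ I, ∫⁻ _ in Pc v R w k, μ (Pc v R w k) ∂μ := by
          refine Finset.sum_congr rfl fun k _ => ?_
          rw [setLIntegral_const, sq]
      _ ≤ ∑ k ∈ I, ∫⁻ g in Pc v R w k, μ (Tb R (xi g) w) ∂μ := by
          refine Finset.sum_le_sum fun k _ => ?_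
          exact setLIntegral_mono' (measurableSet_Pc hv R w k)
            (fun g hg => measure_mono (Pc_sub hv hw k hg))
      _ = ∫⁻ g in ⋃ k ∈ I, Pc v R w k, μ (Tb R (xi g) w) ∂μ := by
          rw [lintegral_biUnion_finset]
          · intro a _ b _ hab
            refine Set.disjoint_left.2 fun g h1 h2 => hab ?_
            exact h1.2.symm.trans h2.2
          · exact fun k _ => measurableSet_Pc hv R w k
      _ ≤ ∫⁻ g in Om R, μ (Tb R (xi g) w) ∂μ := by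
          refine lintegral_mono_set ?_
          intro g hg
          rw [mem_iUnion₂] at hg
          obtain ⟨k, _, hk⟩ := hg
          exact hk.1.2
  have hCS : (∑ k ∈ I, μ (Pc v R w k)) ^ 2 ≤ (I.card : ℝ≥0∞) * ∑ k ∈ I, μ (Pc v R w k) ^ 2 := by
    have h := ENNReal.rpow_sum_le_const_mul_sum_rpow I (fun k => μ (Pc v R w k)) (p := 2) (by norm_num)
    have e : (2 : ℝ) - 1 = 1 := by norm_num
    rw [e, ENNReal.rpow_one] at h
    simpa only [ENNReal.rpow_two] using h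
  calc μ (Sv v ∩ Om R) ^ 2 ≤ (∑ k ∈ I, μ (Pc v R w k)) ^ 2 := by
        gcongr
        exact (measure_mono hcov).trans (measure_biUnion_finset_le _ _)
    _ ≤ (I.card : ℝ≥0∞) * ∑ k ∈ I, μ (Pc v R w k) ^ 2 := hCS
    _ ≤ ENNReal.ofReal ((8 * R ^ 2 + 6) / w) * ∫⁻ g in Om R, μ (Tb R (xi g) w) ∂μ := by
        gcongr
        rw [← ENNReal.ofReal_natCast]
        exact ENNReal.ofReal_le_ofReal hcard

lemma zero_box (μ : Measure G) {c : ℝ} (hc : 0 < c) (hC : Cwm c μ) {v : ℝ × ℝ} (hv : v ≠ 0) {R : ℝ} (hR : 1 ≤ R) :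
    μ (Sv v ∩ Om R) = 0 := by
  obtain ⟨w₁, hw₁, h⟩ := hC R hR
  have hb : ∀ w : ℝ, 0 < w → w ≤ min w₁ 1 →
      μ (Sv v ∩ Om R) ^ 2 ≤ ENNReal.ofReal ((8 * R ^ 2 + 6) * w ^ c) := by
    intro w hw hw2
    refine (mass_sq μ hv hw (hw2.trans (min_le_right _ _))).trans ?_
    refine (mul_le_mul_right (h w hw (hw2.trans (min_le_left _ _))) _).trans ?_
    rw [← ENNReal.ofReal_mul (by positivity)]
    refine ENNReal.ofReal_le_ofReal (le_of_eq ?_)
    rw [Real.rpow_add hw, Real.rpow_one]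
    field_simp
  have ht : Tendsto (fun w : ℝ => ENNReal.ofReal ((8 * R ^ 2 + 6) * w ^ c)) (𝓝[>] 0) (𝓝 0) := by
    have h1 : Tendsto (fun w : ℝ => (8 * R ^ 2 + 6) * w ^ c) (𝓝[>] 0) (𝓝 ((8 * R ^ 2 + 6) * (0 : ℝ) ^ c)) := by
      refine Tendsto.const_mul _ ?_
      exact ((Real.continuousAt_rpow_const 0 c (Or.inr hc.le)).tendsto).mono_left nhdsWithin_le_nhds
    rw [Real.zero_rpow hc.ne', mul_zero] at h1
    have h2 := ENNReal.tendsto_ofReal h1
    rwa [ENNReal.ofReal_zero] at h2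
  have hle : μ (Sv v ∩ Om R) ^ 2 ≤ 0 := by
    refine ge_of_tendsto ht ?_
    have h1 : Ioc (0 : ℝ) (min w₁ 1) ∈ 𝓝[>] (0 : ℝ) := Ioc_mem_nhdsGT (lt_min hw₁ one_pos)
    filter_upwards [h1] with w hw
    exact hb w hw.1 hw.2
  exact pow_eq_zero_iff (two_ne_zero) |>.1 (nonpos_iff_eq_zero.1 hle)

end CLnM

open CLnM in
theorem stmtCLn : StmtCLn := by
  intro μ c hc _ hC v
  by_cases hv : v = 0
  · subst hv
    have : {g : G | ∃ r : ℝ, vc g = r • (0 : ℝ × ℝ)} = ∅ := by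
      ext g
      simp only [mem_setOf_eq, mem_empty_iff_false, iff_false, not_exists]
      intro r hr
      rw [smul_zero] at hr
      have h1 : g 0 0 = 0 := congrArg Prod.fst hr
      have h2 : g 1 0 = 0 := congrArg Prod.snd hr
      have hd := Dyn.det_eq g
      rw [h1, h2] at hd
      norm_num at hd
    rw [this, measure_empty]
  · have hcov : {g : G | ∃ r : ℝ, vc g = r • v} ⊆ ⋃ n : ℕ, (Sv v ∩ Om ((n : ℝ) + 1)) := by
      intro g hg
      obtain ⟨n, hn⟩ := exists_nat_ge (∑ i : Fin 2, ∑ j : Fin 2, |g i j|)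
      refine mem_iUnion.2 ⟨n, hg, fun i j => ?_⟩
      have h1 : |g i j| ≤ ∑ j : Fin 2, |g i j| :=
        Finset.single_le_sum (f := fun j => |g i j|) (fun j _ => abs_nonneg _) (Finset.mem_univ j)
      have h2 : ∑ j : Fin 2, |g i j| ≤ ∑ i : Fin 2, ∑ j : Fin 2, |g i j| :=
        Finset.single_le_sum (f := fun i => ∑ j : Fin 2, |g i j|)
          (fun i _ => Finset.sum_nonneg fun j _ => abs_nonneg _) (Finset.mem_univ i)
      linarith
    refine measure_mono_null hcov ?_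
    rw [measure_iUnion_null_iff]
    intro n
    exact zero_box μ hc hC hv (by
      have : (0 : ℝ) ≤ n := Nat.cast_nonneg n
      linarith)

end

end Pool.Agent.A54.QE
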