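import Pool.Agent.Lib.QE.SpecC

/-!
Package `QE`, module `CMk`: heavy tubes are rare.
-/

set_option autoImplicit false

namespace Pool.Agent.A54.QE

open MeasureTheory Filter Topology Set
open scoped ContDiff ComplexConjugate UpperHalfPlane MatrixGroups ENNReal
open Pool.Agent.A54.Dyn (G fl base ze io mk4 Inv HM)
open Pool.Agent.A54.Hp (nm Om xi Tb)
open Pool.Agent.A54.Av (Mat)

namespace CMkM

lemma meas_Om (R : ℝ) : MeasurableSet (Om R) := by
  have h : Om R = ⋂ i : Fin 2, ⋂ j : Fin 2, {g : G | |g i j| ≤ R} := by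
    ext g
    simp [Om]
  rw [h]
  exact MeasurableSet.iInter fun i => MeasurableSet.iInter fun j =>
    (isClosed_le (Dyn.continuous_entry i j).abs continuous_const).measurableSet

/-- the estimate for one width -/
lemma bound (hXi : StmtCXi) (hTw : StmtCTw) (μ : Measure G) (c : ℝ) (hi : Inv μ)
    (R w₁ : ℝ) (hR : 1 ≤ R)
    (hw₁ : ∀ w : ℝ, 0 < w → w ≤ w₁ →
      ∫⁻ g in Om (4 * R), μ (Tb (4 * R) (xi g) w) ∂μ ≤ ENNReal.ofReal (w ^ (1 + c)))
    (w : ℝ) (h0 : 0 < w) (h4 : w ≤ 1 / 4) (h1 : 10 * R ^ 2 * w ≤ w₁) :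
    μ {z | z ∈ Om R ∧ ENNReal.ofReal w < Tw μ w z} ≤
      ENNReal.ofReal ((10 * R ^ 2) ^ (1 + c) * w ^ c) := by
  have hR0 : 0 < 10 * R ^ 2 := by positivity
  set B : Set G := {z | z ∈ Om R ∧ ENNReal.ofReal w < Tw μ w z} with hB
  have mB : MeasurableSet B :=
    (meas_Om R).inter (measurableSet_lt measurable_const (hTw μ hi w).1)
  have hsub : B ⊆ Om (4 * R) := by
    intro z hz i j
    exact (hz.1 i j).trans (by linarith)
  have a1 : ENNReal.ofReal w * μ B ≤ ENNReal.ofReal ((10 * R ^ 2 * w) ^ (1 + c)) := by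
    calc ENNReal.ofReal w * μ B = ∫⁻ _ in B, ENNReal.ofReal w ∂μ := by rw [setLIntegral_const]
      _ ≤ ∫⁻ z in B, μ (Tb (4 * R) (xi z) (10 * R ^ 2 * w)) ∂μ := by
          refine setLIntegral_mono' mB fun z hz => ?_
          refine hz.2.le.trans ?_
          refine measure_mono fun y hy => ?_
          have := hXi R w hR h0.le h4 z hz.1 (z⁻¹ * y) hy
          rwa [mul_inv_cancel_left] at this
      _ ≤ ∫⁻ z in Om (4 * R), μ (Tb (4 * R) (xi z) (10 * R ^ 2 * w)) ∂μ := lintegral_mono_set hsub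
      _ ≤ _ := hw₁ _ (by positivity) h1
  have e1 : (10 * R ^ 2 * w) ^ (1 + c) = w * ((10 * R ^ 2) ^ (1 + c) * w ^ c) := by
    rw [Real.mul_rpow hR0.le h0.le, Real.rpow_add h0 1 c, Real.rpow_one]
    ring
  rw [e1, ENNReal.ofReal_mul h0.le] at a1
  exact (ENNReal.mul_le_mul_iff_right (ENNReal.ofReal_pos.mpr h0).ne' ENNReal.ofReal_ne_top).mp a1

end CMkM

theorem stmtCMk (hXi : StmtCXi) (hTw : StmtCTw) : StmtCMk := by
  intro μ c hc hi hC R hR
  obtain ⟨w₁, hw, hw₁⟩ := hC (4 * R) (by linarith)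
  have t0 : Tendsto (fun m : ℕ => Real.exp (-(m : ℝ))) atTop (𝓝 0) :=
    Real.tendsto_exp_neg_atTop_nhds_zero.comp tendsto_natCast_atTop_atTop
  have t1 : Tendsto (fun m : ℕ => ENNReal.ofReal ((10 * R ^ 2) ^ (1 + c) * Real.exp (-(m : ℝ)) ^ c))
      atTop (𝓝 0) := by
    have h1 : Tendsto (fun m : ℕ => Real.exp (-(m : ℝ)) ^ c) atTop (𝓝 0) := by
      have := t0.rpow_const (p := c) (Or.inr hc.le)
      rwa [Real.zero_rpow hc.ne'] at this
    have h2 := ENNReal.tendsto_ofReal (h1.const_mul ((10 * R ^ 2) ^ (1 + c)))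
    rwa [mul_zero, ENNReal.ofReal_zero] at h2
  have ev1 : ∀ᶠ m : ℕ in atTop, Real.exp (-(m : ℝ)) ≤ 1 / 4 :=
    (t0.eventually_lt_const (by norm_num : (0 : ℝ) < 1 / 4)).mono fun m h => h.le
  have ev2 : ∀ᶠ m : ℕ in atTop, 10 * R ^ 2 * Real.exp (-(m : ℝ)) ≤ w₁ := by
    have h := t0.const_mul (10 * R ^ 2)
    rw [mul_zero] at h
    exact (h.eventually_lt_const hw).mono fun m h => h.le
  refine tendsto_of_tendsto_of_tendsto_of_le_of_le' tendsto_const_nhds t1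
    (Eventually.of_forall fun m => zero_le) ?_
  filter_upwards [ev1, ev2] with m h1 h2
  exact CMkM.bound hXi hTw μ c hi R w₁ hR hw₁ _ (Real.exp_pos _) h1 h2

end Pool.Agent.A54.QE
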