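import Pool.Agent.Lib.QE.SpecC

/-!
# Package `QE`, block C: the mass of `Sm`
-/

set_option autoImplicit false

namespace Pool.Agent.A54.QE

open MeasureTheory Filter Topology Set
open scoped ContDiff ComplexConjugate UpperHalfPlane MatrixGroups ENNReal
open Pool.Agent.A54.Dyn (G fl base ze io mk4 Inv HM)
open Pool.Agent.A54.Hp (nm Om xi Tb)
open Pool.Agent.A54.Av (Mat)

noncomputable section

namespace CMsM

lemma meas_left (h : G) : Measurable fun g : G => h * g :=
  (continuous_const.mul continuous_id).measurable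

instance instCount : Countable SL(2, ℤ) := by
  unfold Matrix.SpecialLinearGroup Matrix
  infer_instance

lemma io_mul (γ δ : SL(2, ℤ)) : io (γ * δ) = io γ * io δ := by
  unfold Dyn.io
  rw [map_mul]

lemma io_one : io 1 = 1 := by
  unfold Dyn.io
  rw [map_one]

/-- the weighted measure is at most `μ` -/
lemma mX_le (hW : Wt) (μ : Measure G) (A : Set G) : mX μ A ≤ μ A := by
  have h : mX μ ≤ μ := by
    refine Measure.le_iff.mpr fun s hs => ?_
    unfold mX
    rw [withDensity_apply _ hs]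
    calc ∫⁻ g in s, ENNReal.ofReal (ch g) ∂μ ≤ ∫⁻ _ in s, 1 ∂μ := by
          refine lintegral_mono fun g => ?_
          rw [← ENNReal.ofReal_one]
          exact ENNReal.ofReal_le_ofReal (hW.le_one g)
      _ = μ s := by rw [lintegral_one, Measure.restrict_apply_univ]
  exact Measure.le_iff'.mp h A

/-- saturations are measurable -/
lemma meas_Gs {K : Set G} (hK : MeasurableSet K) : MeasurableSet (Gs K) := by
  have h : Gs K = ⋃ γ : SL(2, ℤ), (fun g : G => io γ * g) ⁻¹' K := by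
    ext g
    simp only [Gs, mem_ofPred_eq, mem_iUnion, mem_preimage]
  rw [h]
  exact MeasurableSet.iUnion fun γ => meas_left _ hK

/-- saturations are invariant -/
lemma gi_Gs (K : Set G) : GI (Gs K) := by
  intro γ g
  constructor
  · rintro ⟨δ, hδ⟩
    refine ⟨δ * γ, ?_⟩
    rw [io_mul, mul_assoc]
    exact hδ
  · rintro ⟨δ, hδ⟩
    refine ⟨δ * γ⁻¹, ?_⟩
    have h1 : io (δ * γ⁻¹) * (io γ * g) = io δ * g := by
      rw [← mul_assoc, ← io_mul, inv_mul_cancel_right]
    rw [h1]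
    exact hδ

/-- intersections of invariant sets -/
lemma gi_inter {A B : Set G} (hA : GI A) (hB : GI B) : GI (A ∩ B) := by
  intro γ g
  rw [mem_inter_iff, mem_inter_iff, hA γ g, hB γ g]

/-- the flow preserves the measure of invariant sets -/
lemma mX_flow (hW : Wt) {μ : Measure G} (hi : Inv μ) {Q : Set G} (hQ : MeasurableSet Q) (hG : GI Q) (t : ℝ) :
    mX μ {x | x * fl t ∈ Q} = mX μ Q := by
  have h1 := hW.flo μ hi (Q.indicator 1) (measurable_one.indicator hQ) (by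
    intro γ g
    by_cases h : g ∈ Q
    · rw [indicator_of_mem h, indicator_of_mem ((hG γ g).mpr h)]
      rfl
    · rw [indicator_of_notMem h, indicator_of_notMem fun h' => h ((hG γ g).mp h')]) t
  rw [lintegral_indicator_one hQ] at h1
  have h2 : MeasurableSet {x : G | x * fl t ∈ Q} := by
    have h3 : Measurable fun x : G => x * fl t := (continuous_id.mul continuous_const).measurable
    exact h3 hQ
  rw [← h1, ← lintegral_indicator_one h2]
  rfl

/-- compact sets are in boxes -/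
lemma exists_Om {K : Set G} (hK : IsCompact K) : ∃ R : ℝ, 1 ≤ R ∧ K ⊆ Om R := by
  have h : ∀ i j : Fin 2, ∃ C : ℝ, ∀ x ∈ K, |x i j| ≤ C := by
    intro i j
    obtain ⟨C, hC⟩ := hK.exists_bound_of_continuousOn (Dyn.continuous_entry i j).continuousOn
    exact ⟨C, fun x hx => by simpa [Real.norm_eq_abs] using hC x hx⟩
  choose C hC using h
  refine ⟨1 + ∑ i, ∑ j, |C i j|, ?_, ?_⟩
  · have : 0 ≤ ∑ i, ∑ j, |C i j| := Finset.sum_nonneg fun i _ => Finset.sum_nonneg fun j _ => abs_nonneg _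
    linarith
  · intro x hx i j
    have h1 : |C i j| ≤ ∑ j, |C i j| :=
      Finset.single_le_sum (f := fun j => |C i j|) (fun j _ => abs_nonneg _) (Finset.mem_univ j)
    have h2 : ∑ j, |C i j| ≤ ∑ i, ∑ j, |C i j| :=
      Finset.single_le_sum (f := fun i => ∑ j, |C i j|)
        (fun i _ => Finset.sum_nonneg fun j _ => abs_nonneg _) (Finset.mem_univ i)
    have h3 := hC i j x hx
    have h4 := le_abs_self (C i j)
    linarith

/-- arithmetic -/
lemma arith {q a s₁ s₂ s₃ s₄ : ℝ≥0∞} (hq : q ≠ ⊤) (h : 1000 * q ≤ a + s₁ + s₂ + s₃ + s₄) (h₁ : s₁ ≤ q)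
    (h₂ : s₂ ≤ 100 * q) (h₃ : s₃ ≤ q) (h₄ : s₄ ≤ 100 * q) : 500 * q ≤ a := by
  have h5 : (500 * q) + 500 * q ≤ a + 500 * q := by
    calc (500 * q) + 500 * q = 1000 * q := by ring
      _ ≤ a + s₁ + s₂ + s₃ + s₄ := h
      _ ≤ a + q + 100 * q + q + 100 * q := by gcongr
      _ = a + 202 * q := by ring
      _ ≤ a + 500 * q := by
        gcongr
        norm_num
  have h6 : (500 * q : ℝ≥0∞) ≠ ⊤ := ENNReal.mul_ne_top (by norm_num) hq
  exact (ENNReal.add_le_add_iff_right h6).mp h5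

end CMsM

open CMsM in
theorem stmtCMs (hTw : StmtCTw) (hMk : StmtCMk) (hUn : StmtCUn) (hRg : StmtCRg) (hBd : StmtCBd) : StmtCMs := by
  intro hW μ c hc hi hcw E hE hE0
  have : IsFiniteMeasure (mX μ) := hW.fin μ hi
  have hP0 : mX μ E ≠ 0 := fun h => hE0 ((hW.null μ E hE.meas).mp h)
  have hPt : mX μ E ≠ ⊤ := measure_ne_top _ _
  obtain ⟨q, hq⟩ : ∃ q : ℝ≥0∞, q = mX μ E / 1000 := ⟨_, rfl⟩
  have hqE : 1000 * q = mX μ E := by
    rw [hq]
    exact ENNReal.mul_div_cancel (by norm_num) (by norm_num)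
  have hq0 : q ≠ 0 := by
    rintro rfl
    rw [mul_zero] at hqE
    exact hP0 hqE.symm
  have hqt : q ≠ ⊤ := by
    rintro rfl
    rw [ENNReal.mul_top (by norm_num)] at hqE
    exact hPt hqE.symm
  obtain ⟨K, hK, hKE, hKε⟩ := hRg hW μ hi E hE.meas q hq0
  obtain ⟨R, hR1, hR⟩ := exists_Om hK
  have hKm : MeasurableSet K := hK.measurableSet
  have h100 : (0 : ℝ≥0∞) < 100 * q := by
    rw [pos_iff_ne_zero]
    exact mul_ne_zero (by norm_num) hq0
  have hev := (hMk μ c hc hi hcw R hR1).eventually (gt_mem_nhds h100)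
  refine ⟨K, 500 * q, hK, hKE, mul_ne_zero (by norm_num) hq0, ?_⟩
  filter_upwards [hev] with m hm
  obtain ⟨hTm, hTi⟩ := hTw μ hi (Real.exp (-(m : ℝ)))
  set Q : Set G := {z | ENNReal.ofReal (Real.exp (-(m : ℝ))) < Tw μ (Real.exp (-(m : ℝ))) z} with hQ
  have hQm : MeasurableSet Q := measurableSet_lt measurable_const hTm
  have hQi : GI Q := by
    intro γ g
    rw [hQ, mem_ofPred_eq, mem_ofPred_eq, hTi]
  have hT : mX μ {x | x * fl (-(m : ℝ)) ∈ Gs K ∩ Q} ≤ 100 * q := by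
    rw [mX_flow hW hi ((meas_Gs hKm).inter hQm) (gi_inter (gi_Gs K) hQi)]
    refine (hUn hW μ hi K Q hKm hQm hQi).trans (le_trans (measure_mono ?_) hm.le)
    rintro z ⟨hz1, hz2⟩
    exact ⟨hR hz1, hz2⟩
  have hb := (hBd hW μ hi E hE K hK hKE (2 * m)).1
  have hb' := (hBd hW μ hi E hE K hK hKE m).2
  have hsub : E ⊆ Sm μ K m ∪ (E \ K) ∪ {x | x ∈ E ∧ 2 * m < 100 * (bad K (2 * m) x).card} ∪
      {x | x ∈ E ∧ x * fl (-(m : ℝ)) ∉ Gs K} ∪ {x | x * fl (-(m : ℝ)) ∈ Gs K ∩ Q} := by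
    intro x hx
    by_cases h1 : x ∈ K
    · by_cases h2 : 2 * m < 100 * (bad K (2 * m) x).card
      · exact Or.inl (Or.inl (Or.inr ⟨hx, h2⟩))
      · by_cases h3 : x * fl (-(m : ℝ)) ∈ Gs K
        · by_cases h4 : x * fl (-(m : ℝ)) ∈ Q
          · exact Or.inr ⟨h3, h4⟩
          · exact Or.inl (Or.inl (Or.inl (Or.inl ⟨h1, not_lt.mp h2, not_lt.mp h4⟩)))
        · exact Or.inl (Or.inr ⟨hx, h3⟩)
    · exact Or.inl (Or.inl (Or.inl (Or.inr ⟨hx, h1⟩)))
  have hsum : 1000 * q ≤ mX μ (Sm μ K m) + mX μ (E \ K) +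
      mX μ {x | x ∈ E ∧ 2 * m < 100 * (bad K (2 * m) x).card} +
      mX μ {x | x ∈ E ∧ x * fl (-(m : ℝ)) ∉ Gs K} + mX μ {x | x * fl (-(m : ℝ)) ∈ Gs K ∩ Q} := by
    rw [hqE]
    refine (measure_mono hsub).trans ?_
    refine (measure_union_le _ _).trans (add_le_add ?_ le_rfl)
    refine (measure_union_le _ _).trans (add_le_add ?_ le_rfl)
    refine (measure_union_le _ _).trans (add_le_add ?_ le_rfl)
    exact measure_union_le _ _
  have hfin := arith hqt hsum hKε (hb.trans (by gcongr)) (hb'.trans hKε) hT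
  exact hfin.trans (mX_le hW μ _)

end

end Pool.Agent.A54.QE
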