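import Pool.Agent.Lib.QE.SpecC

/-!
Package `QE`, module `CRg`: inner regularity of the finite measure `mX μ`.
-/

set_option autoImplicit false

namespace Pool.Agent.A54.QE

open MeasureTheory Filter Topology Set
open scoped ContDiff ComplexConjugate UpperHalfPlane MatrixGroups ENNReal
open Pool.Agent.A54.Dyn (G fl base ze io mk4 Inv HM)
open Pool.Agent.A54.Hp (nm Om xi Tb)
open Pool.Agent.A54.Av (Mat)

theorem stmtCRg : StmtCRg := by
  intro hW μ hi E mE ε hε
  haveI : IsFiniteMeasure (mX μ) := hW.fin μ hi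
  obtain ⟨K, hKE, hK, hlt⟩ := mE.exists_isCompact_sdiff_lt (measure_ne_top (mX μ) E) hε
  exact ⟨K, hK, hKE, hlt.le⟩

end Pool.Agent.A54.QE
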