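import Pool.Agent.Lib.QE.SpecC

/-!
# QE, block C, module CTw: measurability and invariance of the mass of tubes
-/

set_option autoImplicit false

namespace Pool.Agent.A54.QE

open MeasureTheory Filter Topology Set
open scoped ContDiff ComplexConjugate UpperHalfPlane MatrixGroups ENNReal
open Pool.Agent.A54.Dyn (G fl base ze io mk4 Inv HM)
open Pool.Agent.A54.Hp (nm Om xi Tb)
open Pool.Agent.A54.Av (Mat)

noncomputable section

namespace CTwM

lemma cont_c (i j : Fin 2) : Continuous fun p : G × G => p.1 i j :=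
  (Dyn.continuous_entry i j).comp continuous_fst

lemma cont_d (i j : Fin 2) : Continuous fun p : G × G => p.2 i j :=
  (Dyn.continuous_entry i j).comp continuous_snd

lemma closed (δ β γ : ℝ) : IsClosed {p : G × G | p.1⁻¹ * p.2 ∈ Hw δ β γ} := by
  have h : {p : G × G | p.1⁻¹ * p.2 ∈ Hw δ β γ} =
      {p : G × G | |(p.1 1 1 * p.2 0 0 + -p.1 0 1 * p.2 1 0) - 1| ≤ δ ∧
        |p.1 1 1 * p.2 0 1 + -p.1 0 1 * p.2 1 1| ≤ β ∧
        |-p.1 1 0 * p.2 0 0 + p.1 0 0 * p.2 1 0| ≤ γ} := by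
    ext p
    simp only [Hw, mem_setOf_eq, Dyn.mul_00, Dyn.mul_01, Dyn.mul_10, Dyn.inv_00, Dyn.inv_01,
      Dyn.inv_10, Dyn.inv_11]
  rw [h]
  refine IsClosed.inter ?_ (IsClosed.inter ?_ ?_)
  · exact isClosed_le ((((cont_c 1 1).mul (cont_d 0 0)).add
      ((cont_c 0 1).neg.mul (cont_d 1 0))).sub continuous_const).abs continuous_const
  · exact isClosed_le (((cont_c 1 1).mul (cont_d 0 1)).add
      ((cont_c 0 1).neg.mul (cont_d 1 1))).abs continuous_const
  · exact isClosed_le (((cont_c 1 0).neg.mul (cont_d 0 0)).add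
      ((cont_c 0 0).mul (cont_d 1 0))).abs continuous_const

lemma sfin (μ : Measure G) (h : Inv μ) : SigmaFinite μ := by
  haveI := h.fin
  haveI : IsLocallyFiniteMeasure μ := isLocallyFiniteMeasure_of_isFiniteMeasureOnCompacts
  infer_instance

lemma mleft (g : G) : Measurable fun y : G => g * y := by
  refine Continuous.measurable ?_
  exact continuous_const.mul continuous_id

end CTwM

theorem stmtCTw : StmtCTw := by
  intro μ hμ w
  haveI := CTwM.sfin μ hμ
  have hm : MeasurableSet {p : G × G | p.1⁻¹ * p.2 ∈ Hw (1 / 2) w w} :=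
    (CTwM.closed (1 / 2) w w).measurableSet
  have h1 : Measurable (Tw μ w) := measurable_measure_prodMk_left hm
  have hx : ∀ x : G, MeasurableSet {y : G | x⁻¹ * y ∈ Hw (1 / 2) w w} := fun x =>
    measurable_prodMk_left hm
  refine ⟨h1, fun γ x => ?_⟩
  have e : {y : G | (io γ * x)⁻¹ * y ∈ Hw (1 / 2) w w} =
      (fun g => io γ⁻¹ * g) ⁻¹' {y : G | x⁻¹ * y ∈ Hw (1 / 2) w w} := by
    ext y
    have hi : io γ⁻¹ = (io γ)⁻¹ := map_inv (Matrix.SpecialLinearGroup.map (Int.castRingHom ℝ)) γ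
    simp only [mem_preimage, mem_setOf_eq, mul_inv_rev, mul_assoc, hi]
  unfold Tw
  rw [e, ← Measure.map_apply (CTwM.mleft _) (hx x), hμ.left]

end

end Pool.Agent.A54.QE
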