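import Pool.Agent.Lib.QE.SpecC

/-!
# Package `QE`, block C: unfolding
-/

set_option autoImplicit false

namespace Pool.Agent.A54.QE

open MeasureTheory Filter Topology Set
open scoped ContDiff ComplexConjugate UpperHalfPlane MatrixGroups ENNReal
open Pool.Agent.A54.Dyn (G fl base ze io mk4 Inv HM)
open Pool.Agent.A54.Hp (nm Om xi Tb)
open Pool.Agent.A54.Av (Mat)

noncomputable section

namespace CUnM

lemma meas_left (h : G) : Measurable fun g : G => h * g :=
  (continuous_const.mul continuous_id).measurable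

lemma io_inv_mul (γ : SL(2, ℤ)) (g : G) : io γ⁻¹ * (io γ * g) = g := by
  have h : io γ⁻¹ * io γ = 1 := by
    unfold Dyn.io
    rw [← map_mul, inv_mul_cancel, map_one]
  rw [← mul_assoc, h, one_mul]

lemma countSL : Countable SL(2, ℤ) := by
  unfold Matrix.SpecialLinearGroup Matrix
  infer_instance

lemma piece {μ : Measure G} (hμ : Inv μ) (γ : SL(2, ℤ)) {K : Set G} (hK : MeasurableSet K)
    {F : G → ℝ≥0∞} (hF : Measurable F) :
    ∫⁻ g in {g | io γ * g ∈ K}, F g ∂μ = ∫⁻ g in K, F (io γ⁻¹ * g) ∂μ := by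
  have hF' : Measurable fun g : G => F (io γ⁻¹ * g) := hF.comp (meas_left _)
  have h := setLIntegral_map (μ := μ) hK hF' (meas_left (io γ))
  rw [hμ.left γ] at h
  rw [h]
  refine lintegral_congr fun g => ?_
  rw [io_inv_mul]

end CUnM

open CUnM in
theorem stmtCUn : StmtCUn := by
  intro hW μ hμ K Q hK hQ hQG
  have : Countable SL(2, ℤ) := countSL
  have hch : Measurable fun g : G => ENNReal.ofReal (ch g) := hW.cont.measurable.ennreal_ofReal
  have hsub : Gs K ∩ Q ⊆ ⋃ γ : SL(2, ℤ), {g | io γ * g ∈ K ∩ Q} := by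
    rintro g ⟨⟨γ, hγ⟩, hg⟩
    exact mem_iUnion.2 ⟨γ, hγ, (hQG γ g).2 hg⟩
  calc mX μ (Gs K ∩ Q) ≤ mX μ (⋃ γ : SL(2, ℤ), {g | io γ * g ∈ K ∩ Q}) := measure_mono hsub
    _ ≤ ∑' γ : SL(2, ℤ), mX μ {g | io γ * g ∈ K ∩ Q} := measure_iUnion_le _
    _ = ∑' γ : SL(2, ℤ), ∫⁻ g in K ∩ Q, ENNReal.ofReal (ch (io γ⁻¹ * g)) ∂μ := by
        refine tsum_congr fun γ => ?_
        have hm : MeasurableSet {g | io γ * g ∈ K ∩ Q} := meas_left (io γ) (hK.inter hQ)
        rw [mX, withDensity_apply _ hm, piece hμ γ (hK.inter hQ) hch]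
    _ = ∫⁻ g in K ∩ Q, ∑' γ : SL(2, ℤ), ENNReal.ofReal (ch (io γ⁻¹ * g)) ∂μ := by
        rw [lintegral_tsum]
        intro γ
        exact (hch.comp (meas_left _)).aemeasurable
    _ = ∫⁻ _ in K ∩ Q, 1 ∂μ := by
        refine lintegral_congr fun g => ?_
        rw [← hW.sum g]
        exact (Equiv.inv SL(2, ℤ)).tsum_eq fun γ : SL(2, ℤ) => ENNReal.ofReal (ch (io γ * g))
    _ = μ (K ∩ Q) := by rw [setLIntegral_one]

end

end Pool.Agent.A54.QE
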