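import Pool.Agent.Lib.QE.SpecC

/-!
# CZm: atoms of the leaf measures are point masses
-/

set_option autoImplicit false

namespace Pool.Agent.A54.QE

open MeasureTheory Filter Topology Set
open scoped ContDiff ComplexConjugate UpperHalfPlane MatrixGroups ENNReal
open Pool.Agent.A54.Dyn (G fl base ze io mk4 Inv HM)
open Pool.Agent.A54.Hp (nm Om xi Tb)
open Pool.Agent.A54.Av (Mat)

noncomputable section

namespace CZmM

/-- the relative mass of the complement of `0` -/
private def ra (m : Measure ℝ) (s : ℝ) : ℝ≥0∞ := m (Icc (-s) s \ {0}) / m (Icc (-s) s)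

private theorem ra_le_one (m : Measure ℝ) (s : ℝ) : ra m s ≤ 1 :=
  ENNReal.div_le_of_le_mul (by rw [one_mul]; exact measure_mono diff_subset)

private theorem ra_pr {m m' : Measure ℝ} (h : Pr m m') (s : ℝ) : ra m s = ra m' s := by
  obtain ⟨c, c0, ct, rfl⟩ := h
  unfold ra
  rw [Measure.smul_apply, Measure.smul_apply, smul_eq_mul, smul_eq_mul]
  exact ENNReal.mul_div_mul_left _ _ c0 ct

private theorem zero_pr {m m' : Measure ℝ} (h : Pr m m') : m {0} ≠ 0 ↔ m' {0} ≠ 0 := by
  obtain ⟨c, c0, ct, rfl⟩ := h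
  rw [Measure.smul_apply, smul_eq_mul, ne_eq, mul_eq_zero]
  constructor
  · intro h h'
    exact h (Or.inr h')
  · rintro h (h' | h')
    · exact c0 h'
    · exact h h'

private theorem pre0 {e : ℝ} (he : 0 < e) : (fun x : ℝ => e * x) ⁻¹' {0} = {0} := by
  ext x
  simp only [mem_preimage, mem_singleton_iff, mul_eq_zero]
  constructor
  · rintro (h | h)
    · exact absurd h he.ne'
    · exact h
  · exact Or.inr

private theorem preI {e : ℝ} (he : 0 < e) (s : ℝ) : (fun x : ℝ => e * x) ⁻¹' (Icc (-(s * e)) (s * e)) = Icc (-s) s := by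
  ext x
  simp only [mem_preimage, mem_Icc]
  constructor
  · rintro ⟨h1, h2⟩
    constructor
    · by_contra h
      push Not at h
      have := mul_lt_mul_of_pos_left h he
      linarith
    · by_contra h
      push Not at h
      have := mul_lt_mul_of_pos_left h he
      linarith
  · rintro ⟨h1, h2⟩
    constructor
    · have := mul_le_mul_of_nonneg_left h1 he.le
      linarith
    · have := mul_le_mul_of_nonneg_left h2 he.le
      linarith

private theorem zero_map (m : Measure ℝ) {e : ℝ} (he : 0 < e) : (m.map fun x => e * x) {0} = m {0} := by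
  rw [Measure.map_apply (measurable_const_mul e) (measurableSet_singleton 0), pre0 he]

private theorem ra_map (m : Measure ℝ) {e : ℝ} (he : 0 < e) (s : ℝ) : ra (m.map fun x => e * x) (s * e) = ra m s := by
  unfold ra
  rw [Measure.map_apply (measurable_const_mul e) (measurableSet_Icc.diff (measurableSet_singleton 0)),
    Measure.map_apply (measurable_const_mul e) measurableSet_Icc, preimage_diff, pre0 he, preI he]

/-- zoom for one measure -/
private theorem lim (m : Measure ℝ) (hm : IsFiniteMeasureOnCompacts m) (h0 : m {0} ≠ 0) {s : ℝ} (hs : 0 ≤ s) :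
    Tendsto (fun n : ℕ => ra m (s * Real.exp (-(n : ℝ)))) atTop (𝓝 0) := by
  have h1 : Tendsto (fun n : ℕ => m (Icc (-(s * Real.exp (-(n : ℝ)))) (s * Real.exp (-(n : ℝ))) \ {0})) atTop
      (𝓝 0) := by
    have h2 := tendsto_measure_iInter_atTop (μ := m)
      (s := fun n : ℕ => Icc (-(s * Real.exp (-(n : ℝ)))) (s * Real.exp (-(n : ℝ))) \ {0})
      (fun n => (measurableSet_Icc.diff (measurableSet_singleton 0)).nullMeasurableSet) ?_ ⟨0, ?_⟩
    · have h3 : (⋂ n : ℕ, Icc (-(s * Real.exp (-(n : ℝ)))) (s * Real.exp (-(n : ℝ))) \ {(0 : ℝ)}) = ∅ := by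
        rw [eq_empty_iff_forall_notMem]
        intro x hx
        rw [mem_iInter] at hx
        have hx0 : x ≠ 0 := fun h => (hx 0).2 h
        have h4 : ∀ n : ℕ, |x| ≤ s * Real.exp (-(n : ℝ)) := fun n => abs_le.2 (hx n).1
        have h5 : Tendsto (fun n : ℕ => s * Real.exp (-(n : ℝ))) atTop (𝓝 (s * 0)) :=
          (Real.tendsto_exp_neg_atTop_nhds_zero.comp tendsto_natCast_atTop_atTop).const_mul s
        rw [mul_zero] at h5
        have h6 : |x| ≤ 0 := ge_of_tendsto' h5 h4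
        exact hx0 (abs_eq_zero.1 (le_antisymm h6 (abs_nonneg x)))
      rw [h3, measure_empty] at h2
      exact h2
    · intro a b hab
      have h4 : s * Real.exp (-(b : ℝ)) ≤ s * Real.exp (-(a : ℝ)) := by
        refine mul_le_mul_of_nonneg_left (Real.exp_le_exp.2 ?_) hs
        have : (a : ℝ) ≤ b := by exact_mod_cast hab
        linarith
      exact diff_subset_diff_left (Icc_subset_Icc (neg_le_neg h4) h4)
    · exact ((measure_mono diff_subset).trans_lt (isCompact_Icc.measure_lt_top (μ := m))).ne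
  have h2 : Tendsto (fun n : ℕ => m (Icc (-(s * Real.exp (-(n : ℝ)))) (s * Real.exp (-(n : ℝ))) \ {0}) / m {0}) atTop
      (𝓝 (0 / m {0})) := ENNReal.Tendsto.div_const h1 (Or.inr h0)
  rw [ENNReal.zero_div] at h2
  refine tendsto_of_tendsto_of_tendsto_of_le_of_le tendsto_const_nhds h2 (fun n => zero_le) ?_
  intro n
  refine ENNReal.div_le_div_left (measure_mono ?_) _
  intro x hx
  rw [mem_singleton_iff] at hx
  have h3 : 0 ≤ s * Real.exp (-(n : ℝ)) := mul_nonneg hs (Real.exp_pos _).le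
  rw [hx]
  exact ⟨by linarith, h3⟩

variable {μ : Measure G} {lf : G → Measure ℝ} {D : Set G}

/-- the relative masses -/
private def FF (lf : G → Measure ℝ) (D : Set G) (s : ℝ) : G → ℝ≥0∞ :=
  {g | g ∈ D ∧ lf g {0} ≠ 0}.indicator fun g => ra (lf g) s

private theorem FF_eq {g g' : G} {s s' : ℝ} (hD : g ∈ D ↔ g' ∈ D) (h0 : g ∈ D → (lf g {0} ≠ 0 ↔ lf g' {0} ≠ 0))
    (hr : g ∈ D → ra (lf g) s = ra (lf g') s') : FF lf D s g = FF lf D s' g' := by
  unfold FF
  by_cases h : g ∈ D ∧ lf g {0} ≠ 0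
  · have h' : g' ∈ D ∧ lf g' {0} ≠ 0 := ⟨hD.1 h.1, (h0 h.1).1 h.2⟩
    rw [indicator_of_mem (show g ∈ {g | g ∈ D ∧ lf g {0} ≠ 0} from h),
      indicator_of_mem (show g' ∈ {g | g ∈ D ∧ lf g {0} ≠ 0} from h'), hr h.1]
  · have h' : ¬ (g' ∈ D ∧ lf g' {0} ≠ 0) := fun h' => h ⟨hD.2 h'.1, (h0 (hD.2 h'.1)).2 h'.2⟩
    rw [indicator_of_notMem (show g ∉ {g | g ∈ D ∧ lf g {0} ≠ 0} from h),
      indicator_of_notMem (show g' ∉ {g | g ∈ D ∧ lf g {0} ≠ 0} from h')]

private theorem FF_gam (hl : LSE μ lf D) (s : ℝ) (γ : SL(2, ℤ)) (g : G) : FF lf D s (io γ * g) = FF lf D s g := by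
  have hD := hl.fi.gam γ g
  refine FF_eq hD (fun h => zero_pr (hl.gam g (hD.1 h) γ)) (fun h => ra_pr (hl.gam g (hD.1 h) γ) s)

private theorem FF_step (hl : LSE μ lf D) (s : ℝ) (g : G) :
    FF lf D s (g * fl (-1)) = FF lf D (s * Real.exp (-1)) g := by
  have e : g * fl (-1) * fl 1 = g := by
    rw [mul_assoc, ← Dyn.fl_add, neg_add_cancel, Dyn.fl_zero, mul_one]
  have hD := hl.fi.flo (g * fl (-1))
  rw [e] at hD
  have he : (0 : ℝ) < Real.exp (-1) := Real.exp_pos _
  have key : g * fl (-1) ∈ D → Pr (lf g) ((lf (g * fl (-1))).map fun x => Real.exp (-1) * x) := by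
    intro h
    have := hl.flo _ h
    rwa [e] at this
  refine FF_eq hD.symm (fun h => ?_) (fun h => ?_)
  · have h1 := zero_pr (key h)
    rw [zero_map _ he] at h1
    exact h1.symm
  · rw [ra_pr (key h), ra_map _ he]

private theorem FF_iter (hl : LSE μ lf D) (n : ℕ) : ∀ (s : ℝ) (g : G),
    FF lf D s (g * fl (-(n : ℝ))) = FF lf D (s * Real.exp (-(n : ℝ))) g := by
  induction n with
  | zero =>
    intro s g
    simp [Dyn.fl_zero]
  | succ n ih =>
    intro s g
    have e1 : g * fl (-((n + 1 : ℕ) : ℝ)) = g * fl (-(n : ℝ)) * fl (-1) := by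
      rw [mul_assoc, ← Dyn.fl_add]
      congr 2
      push_cast
      ring
    have e2 : s * Real.exp (-((n + 1 : ℕ) : ℝ)) = s * Real.exp (-1) * Real.exp (-(n : ℝ)) := by
      rw [mul_assoc, ← Real.exp_add]
      congr 2
      push_cast
      ring
    rw [e1, e2, FF_step hl, ih]

private theorem FF_meas (hl : LSE μ lf D) (s : ℝ) : Measurable (FF lf D s) := by
  have hB : ∀ B : Set ℝ, MeasurableSet B → Measurable fun g => lf g B := fun B hB =>
    (Measure.measurable_coe hB).comp hl.meas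
  have h1 : Measurable fun g => ra (lf g) s :=
    (hB _ (measurableSet_Icc.diff (measurableSet_singleton 0))).div (hB _ measurableSet_Icc)
  have h2 : MeasurableSet {g | g ∈ D ∧ lf g {0} ≠ 0} := by
    have h3 : MeasurableSet ((fun g => lf g {0}) ⁻¹' {0}ᶜ) :=
      (measurableSet_singleton (0 : ℝ≥0∞)).compl.preimage (hB _ (measurableSet_singleton 0))
    exact hl.mD.inter h3
  exact h1.indicator h2

private theorem FF_le (s : ℝ) (g : G) : FF lf D s g ≤ 1 := by
  unfold FF
  by_cases h : g ∈ {g | g ∈ D ∧ lf g {0} ≠ 0}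
  · rw [indicator_of_mem h]
    exact ra_le_one _ _
  · rw [indicator_of_notMem h]
    exact zero_le

private theorem FF_lim (hl : LSE μ lf D) {s : ℝ} (hs : 0 ≤ s) (g : G) :
    Tendsto (fun n : ℕ => FF lf D (s * Real.exp (-(n : ℝ))) g) atTop (𝓝 0) := by
  unfold FF
  by_cases h : g ∈ {g | g ∈ D ∧ lf g {0} ≠ 0}
  · simp only [indicator_of_mem h]
    exact lim (lf g) (hl.fin g) h.2 hs
  · simp only [indicator_of_notMem h]
    exact tendsto_const_nhds

private theorem FF_zero (hW : Wt) (hi : Inv μ) (hl : LSE μ lf D) {s : ℝ} (hs : 0 ≤ s) :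
    ∀ᵐ g ∂μ, FF lf D s g = 0 := by
  have hfin := hW.fin μ hi
  have h1 : ∀ n : ℕ, ∫⁻ g, FF lf D (s * Real.exp (-(n : ℝ))) g ∂(mX μ) = ∫⁻ g, FF lf D s g ∂(mX μ) := by
    intro n
    rw [← hW.flo μ hi (FF lf D s) (FF_meas hl s) (FF_gam hl s) (-(n : ℝ))]
    simp only [FF_iter hl]
  have h2 : Tendsto (fun n : ℕ => ∫⁻ g, FF lf D (s * Real.exp (-(n : ℝ))) g ∂(mX μ)) atTop
      (𝓝 (∫⁻ _, 0 ∂(mX μ))) := by
    refine tendsto_lintegral_of_dominated_convergence (fun _ => 1) (fun n => FF_meas hl _)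
      (fun n => Eventually.of_forall fun g => FF_le _ g) ?_ (Eventually.of_forall fun g => FF_lim hl hs g)
    rw [lintegral_one]
    exact measure_ne_top _ _
  simp only [h1] at h2
  have h3 : ∫⁻ g, FF lf D s g ∂(mX μ) = 0 := by
    have := tendsto_nhds_unique h2 tendsto_const_nhds
    rw [lintegral_zero] at this
    exact this.symm
  rw [lintegral_eq_zero_iff (FF_meas hl s)] at h3
  have h4 : MeasurableSet {g | ¬ FF lf D s g = 0} :=
    (FF_meas hl s (measurableSet_singleton 0)).compl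
  exact (hW.null μ _ h4).1 h3

end CZmM

open CZmM in
theorem stmtCZm : StmtCZm := by
  intro μ lf D hW hi hl
  have h1 : ∀ᵐ g ∂μ, ∀ k : ℕ, FF lf D (k : ℝ) g = 0 :=
    ae_all_iff.2 fun k => FF_zero hW hi hl (Nat.cast_nonneg k)
  have h2 : ∀ᵐ g ∂μ, g ∈ D := hl.nD
  filter_upwards [h1, h2] with g hg hD h0
  have h3 : ∀ k : ℕ, lf g (Icc (-(k : ℝ)) k \ {0}) = 0 := by
    intro k
    have h4 := hg k
    unfold FF at h4
    rw [indicator_of_mem (show g ∈ {g | g ∈ D ∧ lf g {0} ≠ 0} from ⟨hD, h0⟩)] at h4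
    unfold ra at h4
    rw [ENNReal.div_eq_zero_iff] at h4
    rcases h4 with h4 | h4
    · exact h4
    · have := hl.fin g
      exact absurd h4 (isCompact_Icc.measure_lt_top (μ := lf g)).ne
  have h5 : ({0}ᶜ : Set ℝ) ⊆ ⋃ k : ℕ, (Icc (-(k : ℝ)) k \ {0}) := by
    intro x hx
    obtain ⟨k, hk⟩ := exists_nat_ge |x|
    exact mem_iUnion.2 ⟨k, abs_le.1 hk, hx⟩
  exact measure_mono_null h5 (measure_iUnion_null h3)

end

end Pool.Agent.A54.QE
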