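import Pool.Agent.Lib.QE.CAt
import Pool.Agent.Lib.QE.CBd
import Pool.Agent.Lib.QE.CBx
import Pool.Agent.Lib.QE.CCl
import Pool.Agent.Lib.QE.CCp
import Pool.Agent.Lib.QE.CCs
import Pool.Agent.Lib.QE.CCt
import Pool.Agent.Lib.QE.CCv
import Pool.Agent.Lib.QE.CDc
import Pool.Agent.Lib.QE.CLn
import Pool.Agent.Lib.QE.CMk
import Pool.Agent.Lib.QE.CMs
import Pool.Agent.Lib.QE.CRg
import Pool.Agent.Lib.QE.CTw
import Pool.Agent.Lib.QE.CUn
import Pool.Agent.Lib.QE.CXi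
import Pool.Agent.Lib.QE.CZm

/-!
# Block C: the leaf measures have no atoms (assembly)
-/

set_option autoImplicit false

namespace Pool.Agent.A54.QE

/-- block C, with the weights as hypothesis -/
theorem stmtC (hW : Wt) : StmtC :=
  blockC hW stmtCLn (stmtCAt stmtCZm)
    (stmtCDc (stmtCCp stmtCCl) (stmtCCs stmtCCv) stmtCBx stmtCCt)
    (stmtCMs stmtCTw (stmtCMk stmtCXi stmtCTw) stmtCUn stmtCRg (stmtCBd stmtCCl))

end Pool.Agent.A54.QE
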