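import Pool.Agent.Lib.QE.SpecC

/-!
# Package `QE`, block C: geometry of `xi`
-/

set_option autoImplicit false

namespace Pool.Agent.A54.QE

open MeasureTheory Filter Topology Set
open scoped ContDiff ComplexConjugate UpperHalfPlane MatrixGroups ENNReal
open Pool.Agent.A54.Dyn (G fl base ze io mk4 Inv)
open Pool.Agent.A54.Hp (nm Om xi Tb)

noncomputable section

namespace CXiM

lemma mul_le {R x y : ℝ} (hx : |x| ≤ R) (hy : |y| ≤ R) : |x * y| ≤ R ^ 2 := by
  rw [abs_mul, sq]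
  exact mul_le_mul hx hy (abs_nonneg _) ((abs_nonneg _).trans hx)

lemma mul_le' {A B x y : ℝ} (hx : |x| ≤ A) (hy : |y| ≤ B) : |x * y| ≤ A * B := by
  rw [abs_mul]
  exact mul_le_mul hx hy (abs_nonneg _) ((abs_nonneg _).trans hx)

end CXiM

open CXiM in
theorem stmtCXi : StmtCXi := by
  intro R w hR hw0 hw z hz h hh
  obtain ⟨h1, h2, h3⟩ := hh
  have hd := Dyn.det_eq h
  have hp : |z 0 0| ≤ R := hz 0 0
  have hq : |z 0 1| ≤ R := hz 0 1
  have hr : |z 1 0| ≤ R := hz 1 0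
  have hs : |z 1 1| ≤ R := hz 1 1
  have ha : |h 0 0| ≤ 3 / 2 := by
    rw [abs_le] at h1 ⊢
    constructor <;> linarith [h1.1, h1.2]
  have hbc : |h 0 1 * h 1 0| ≤ w * w := mul_le' h2 h3
  have hbc4 : |h 0 1 * h 1 0| ≤ w / 4 := hbc.trans (by nlinarith)
  have hdd : |h 1 1| ≤ 3 := by
    have e : h 0 0 * h 1 1 = 1 + h 0 1 * h 1 0 := by linarith
    have e1 : |h 0 0| * |h 1 1| ≤ 1 + 1 / 16 := by
      rw [← abs_mul, e]
      refine (abs_add_le _ _).trans ?_
      rw [abs_one]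
      have : w / 4 ≤ 1 / 16 := by linarith
      linarith
    have e2 : 1 / 2 ≤ |h 0 0| := by
      rw [abs_le] at h1
      rw [abs_of_nonneg (by linarith)]
      linarith
    nlinarith [abs_nonneg (h 1 1)]
  have hab : |h 0 0 * h 0 1| ≤ 3 / 2 * w := mul_le' ha h2
  have hcd : |h 1 0 * h 1 1| ≤ w * 3 := mul_le' h3 hdd
  have hR0 : 0 ≤ R := by linarith
  have bound : ∀ x y, |x| ≤ R → |y| ≤ R → |x * h 0 0 + y * h 1 0| ≤ 4 * R := by
    intro x y hx hy
    refine (abs_add_le _ _).trans ?_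
    have e1 := mul_le' hx ha
    have e2 := mul_le' hy h3
    nlinarith
  have bound' : ∀ x y, |x| ≤ R → |y| ≤ R → |x * h 0 1 + y * h 1 1| ≤ 4 * R := by
    intro x y hx hy
    refine (abs_add_le _ _).trans ?_
    have e1 := mul_le' hx h2
    have e2 := mul_le' hy hdd
    nlinarith
  have comb : ∀ A B C : ℝ, |A| ≤ 2 * R ^ 2 → |B| ≤ 4 * R ^ 2 → |C| ≤ 2 * R ^ 2 →
      |A * (h 0 0 * h 0 1) + B * (h 0 1 * h 1 0) + C * (h 1 0 * h 1 1)| ≤ 10 * R ^ 2 * w := by
    intro A B C hA hB hC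
    have e1 := mul_le' hA hab
    have e2 := mul_le' hB hbc4
    have e3 := mul_le' hC hcd
    refine (abs_add_le _ _).trans ?_
    have e4 := abs_add_le (A * (h 0 0 * h 0 1)) (B * (h 0 1 * h 1 0))
    have e5 : 0 ≤ R ^ 2 * w := by positivity
    nlinarith
  refine ⟨?_, ?_⟩
  · intro i j
    fin_cases i <;> fin_cases j
    · show |(z * h) 0 0| ≤ _
      rw [Dyn.mul_00]
      exact bound _ _ hp hq
    · show |(z * h) 0 1| ≤ _
      rw [Dyn.mul_01]
      exact bound' _ _ hp hq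
    · show |(z * h) 1 0| ≤ _
      rw [Dyn.mul_10]
      exact bound _ _ hr hs
    · show |(z * h) 1 1| ≤ _
      rw [Dyn.mul_11]
      exact bound' _ _ hr hs
  · have hpr := mul_le hp hr
    have hps := mul_le hp hs
    have hqr := mul_le hq hr
    have hqs := mul_le hq hs
    have hpp := mul_le hp hp
    have hpq := mul_le hp hq
    have hqq := mul_le hq hq
    have hrr := mul_le hr hr
    have hrs := mul_le hr hs
    have hss := mul_le hs hs
    have hRR : 0 ≤ R ^ 2 := by positivity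
    have abs2 : ∀ x : ℝ, |x| ≤ R ^ 2 → |2 * x| ≤ 2 * R ^ 2 := by
      intro x hx
      rw [abs_mul, abs_two]
      linarith
    intro i
    fin_cases i
    · show |xi (z * h) 0 - xi z 0| ≤ _
      have e : xi (z * h) 0 - xi z 0 = (2 * (z 0 0 * z 1 0)) * (h 0 0 * h 0 1) +
          (2 * (z 0 0 * z 1 1) + 2 * (z 0 1 * z 1 0)) * (h 0 1 * h 1 0) +
          (2 * (z 0 1 * z 1 1)) * (h 1 0 * h 1 1) := by
        show (z * h) 0 0 * (z * h) 1 1 + (z * h) 0 1 * (z * h) 1 0 - (z 0 0 * z 1 1 + z 0 1 * z 1 0) = _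
        rw [Dyn.mul_00, Dyn.mul_01, Dyn.mul_10, Dyn.mul_11]
        linear_combination (z 0 0 * z 1 1 + z 0 1 * z 1 0) * hd
      rw [e]
      refine comb _ _ _ (abs2 _ hpr) ((abs_add_le _ _).trans ?_) (abs2 _ hqs)
      linarith [abs2 _ hps, abs2 _ hqr]
    · show |xi (z * h) 1 - xi z 1| ≤ _
      have e : xi (z * h) 1 - xi z 1 = (-(z 0 0 * z 0 0)) * (h 0 0 * h 0 1) +
          (-(2 * (z 0 0 * z 0 1))) * (h 0 1 * h 1 0) +
          (-(z 0 1 * z 0 1)) * (h 1 0 * h 1 1) := by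
        show -((z * h) 0 0 * (z * h) 0 1) - (-(z 0 0 * z 0 1)) = _
        rw [Dyn.mul_00, Dyn.mul_01]
        linear_combination (-(z 0 0 * z 0 1)) * hd
      rw [e]
      refine comb _ _ _ ?_ ?_ ?_
      · rw [abs_neg]; linarith
      · rw [abs_neg]; linarith [abs2 _ hpq]
      · rw [abs_neg]; linarith
    · show |xi (z * h) 2 - xi z 2| ≤ _
      have e : xi (z * h) 2 - xi z 2 = (z 1 0 * z 1 0) * (h 0 0 * h 0 1) +
          (2 * (z 1 0 * z 1 1)) * (h 0 1 * h 1 0) +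
          (z 1 1 * z 1 1) * (h 1 0 * h 1 1) := by
        show (z * h) 1 0 * (z * h) 1 1 - z 1 0 * z 1 1 = _
        rw [Dyn.mul_10, Dyn.mul_11]
        linear_combination (z 1 0 * z 1 1) * hd
      rw [e]
      refine comb _ _ _ ?_ ?_ ?_
      · linarith
      · linarith [abs2 _ hrs]
      · linarith

end

end Pool.Agent.A54.QE
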