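import Pool.Agent.Lib.QE.SpecD

/-!
# Package `QE`, block D: Besicovitch covering on the line (`StmtDBes`)
-/

set_option autoImplicit false

namespace Pool.Agent.A54.QE

open MeasureTheory Filter Topology Set
open scoped ENNReal MatrixGroups

noncomputable section

theorem stmtDBes : StmtDBes := by
  obtain ⟨N, τ, hτ, hN⟩ := HasBesicovitchCovering.no_satelliteConfig (α := ℝ)
  refine ⟨N, fun m E A θ R h => ?_⟩
  choose! r hr0 hrR hr using h
  set AR : Set ℝ := {y | ∃ x ∈ A, |y - x| ≤ R} with hAR
  let q : Besicovitch.BallPackage A ℝ :=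
    { c := fun x => x
      r := fun x => r x
      rpos := fun x => hr0 x x.2
      r_bound := R
      r_le := fun x => hrR x x.2 }
  obtain ⟨s, hd, hc⟩ := Besicovitch.exist_disjoint_covering_families hτ hN q
  have hball : ∀ j : A, Metric.closedBall (q.c j) (q.r j) = Icc ((j : ℝ) - r j) (j + r j) := fun j =>
    Real.closedBall_eq_Icc
  have key : ∀ i, θ * m (⋃ j ∈ s i, Metric.closedBall (q.c j) (q.r j)) ≤ m (E ∩ AR) := by
    intro i
    have hcount : (s i).Countable := (hd i).countable_of_nonempty_interior fun j _ => by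
      rw [hball, interior_Icc]
      exact ⟨j, by constructor <;> linarith [hr0 j j.2]⟩
    calc θ * m (⋃ j ∈ s i, Metric.closedBall (q.c j) (q.r j))
        ≤ θ * ∑' j : s i, m (Metric.closedBall (q.c j) (q.r j)) := by
          gcongr
          exact measure_biUnion_le m hcount _
      _ = ∑' j : s i, θ * m (Metric.closedBall (q.c j) (q.r j)) := ENNReal.tsum_mul_left.symm
      _ ≤ ∑' j : s i, m.restrict (E ∩ AR) (Metric.closedBall (q.c j) (q.r j)) := by
          refine ENNReal.tsum_le_tsum fun j => ?_
          rw [Measure.restrict_apply measurableSet_closedBall]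
          have hj := hr j j.1.2
          rw [← hball] at hj
          refine hj.trans (measure_mono ?_)
          rintro y ⟨hyE, hyI⟩
          refine ⟨hyI, hyE, j, j.1.2, ?_⟩
          have h1 : dist y (j : ℝ) ≤ r j := hyI
          rw [Real.dist_eq] at h1
          exact h1.trans (hrR j j.1.2)
      _ = m.restrict (E ∩ AR) (⋃ j ∈ s i, Metric.closedBall (q.c j) (q.r j)) :=
          (measure_biUnion hcount (hd i) fun j _ => measurableSet_closedBall).symm
      _ ≤ m.restrict (E ∩ AR) univ := measure_mono (subset_univ _)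
      _ = m (E ∩ AR) := by rw [Measure.restrict_apply MeasurableSet.univ, univ_inter]
  have hA : A ⊆ ⋃ i : Fin N, ⋃ j ∈ s i, Metric.closedBall (q.c j) (q.r j) := by
    intro x hx
    have h1 := hc ⟨⟨x, hx⟩, rfl⟩
    simp only [mem_iUnion] at h1 ⊢
    obtain ⟨i, j, hj, h2⟩ := h1
    exact ⟨i, j, hj, Metric.ball_subset_closedBall h2⟩
  calc θ * m A ≤ θ * ∑ i : Fin N, m (⋃ j ∈ s i, Metric.closedBall (q.c j) (q.r j)) := by
        gcongr
        exact (measure_mono hA).trans (measure_iUnion_fintype_le m _)
    _ = ∑ i : Fin N, θ * m (⋃ j ∈ s i, Metric.closedBall (q.c j) (q.r j)) := Finset.mul_sum _ _ _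
    _ ≤ ∑ _i : Fin N, m (E ∩ AR) := Finset.sum_le_sum fun i _ => key i
    _ = N * m (E ∩ AR) := by
        rw [Finset.sum_const, Finset.card_univ, Fintype.card_fin, nsmul_eq_mul]

end

end Pool.Agent.A54.QE
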