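import Pool.Agent.Lib.QE.SpecD
import Mathlib.MeasureTheory.Integral.Indicator

/-!
# `StmtDCont`: continuity of the measure of moving intervals
-/

set_option autoImplicit false

namespace Pool.Agent.A54.QE

open MeasureTheory Filter Topology Set
open scoped ENNReal

noncomputable section

namespace DCont_aux

theorem open_part (m : Measure ℝ) (hm : IsFiniteMeasureOnCompacts m) (h0 : ∀ x, m {x} = 0) (a b : ℝ) :
    Continuous fun τ : ℝ => m (Ioo (a + τ) (b + τ)) := by
  rw [continuous_iff_continuousAt]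
  intro τ
  have hB : m (Icc (a + τ - 1) (b + τ + 1)) ≠ ⊤ := isCompact_Icc.measure_lt_top.ne
  refine tendsto_measure_of_ae_tendsto_indicator (𝓝 τ) measurableSet_Ioo (fun _ => measurableSet_Ioo)
    measurableSet_Icc hB ?_ ?_
  · have h1 : ∀ᶠ τ' in 𝓝 τ, τ - 1 < τ' := lt_mem_nhds (by linarith)
    have h2 : ∀ᶠ τ' in 𝓝 τ, τ' < τ + 1 := gt_mem_nhds (by linarith)
    filter_upwards [h1, h2] with τ' h3 h4 x hx
    exact ⟨by linarith [hx.1], by linarith [hx.2]⟩
  · have hae : ∀ᵐ x ∂m, x ≠ a + τ ∧ x ≠ b + τ := by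
      have e1 : ∀ᵐ x ∂m, x ≠ a + τ := by
        rw [ae_iff]
        have : {x : ℝ | ¬x ≠ a + τ} = {a + τ} := by
          ext x
          simp
        rw [this]
        exact h0 _
      have e2 : ∀ᵐ x ∂m, x ≠ b + τ := by
        rw [ae_iff]
        have : {x : ℝ | ¬x ≠ b + τ} = {b + τ} := by
          ext x
          simp
        rw [this]
        exact h0 _
      filter_upwards [e1, e2] with x h1 h2 using ⟨h1, h2⟩
    filter_upwards [hae] with x hx
    have h1 : ∀ᶠ τ' in 𝓝 τ, (a + τ' < x ↔ a + τ < x) := by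
      rcases lt_or_gt_of_ne hx.1 with h | h
      · filter_upwards [lt_mem_nhds (show x - a < τ by linarith)] with τ' h'
        exact ⟨fun h3 => by linarith, fun h3 => by linarith⟩
      · filter_upwards [gt_mem_nhds (show τ < x - a by linarith)] with τ' h'
        exact ⟨fun _ => h, fun _ => by linarith⟩
    have h2 : ∀ᶠ τ' in 𝓝 τ, (x < b + τ' ↔ x < b + τ) := by
      rcases lt_or_gt_of_ne hx.2 with h | h
      · filter_upwards [lt_mem_nhds (show x - b < τ by linarith)] with τ' h'
        exact ⟨fun _ => h, fun _ => by linarith⟩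
      · filter_upwards [gt_mem_nhds (show τ < x - b by linarith)] with τ' h'
        exact ⟨fun h3 => by linarith, fun h3 => by linarith⟩
    filter_upwards [h1, h2] with τ' h3 h4
    rw [mem_Ioo, mem_Ioo, h3, h4]

theorem icc_ioo (m : Measure ℝ) (h0 : ∀ x, m {x} = 0) (a b : ℝ) : m (Icc a b) = m (Ioo a b) := by
  apply le_antisymm
  · have h1 : Icc a b ⊆ Ioo a b ∪ ({a} ∪ {b}) := by
      intro x hx
      by_cases h2 : x = a
      · exact Or.inr (Or.inl h2)
      · by_cases h3 : x = b
        · exact Or.inr (Or.inr h3)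
        · exact Or.inl ⟨lt_of_le_of_ne hx.1 (Ne.symm h2), lt_of_le_of_ne hx.2 h3⟩
    refine (measure_mono h1).trans ((measure_union_le _ _).trans ?_)
    have h2 : m ({a} ∪ {b}) = 0 := measure_union_null (h0 a) (h0 b)
    rw [h2, add_zero]
  · exact measure_mono Ioo_subset_Icc_self

end DCont_aux

open DCont_aux

theorem stmtDCont : StmtDCont := by
  intro m hm h0 a b
  refine ⟨open_part m hm h0 a b, ?_⟩
  have h1 : (fun τ : ℝ => m (Icc (a + τ) (b + τ))) = fun τ : ℝ => m (Ioo (a + τ) (b + τ)) := by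
    funext τ
    exact icc_ioo m h0 _ _
  rw [h1]
  exact open_part m hm h0 a b

end

end Pool.Agent.A54.QE
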