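import Pool.Agent.Lib.QE.SpecD2
import Pool.Agent.Lib.QE.ASf
import Pool.Agent.Lib.QE.ACr

/-!
# Package `QE`, block D: `StmtDFin` (helper67)
-/

set_option autoImplicit false

namespace Pool.Agent.A54.QE

open MeasureTheory Filter Topology Set
open scoped ENNReal MatrixGroups
open Pool.Agent.A54.Dyn (G fl base ze io mk4 Inv HM)

noncomputable section

theorem stmtDFin : StmtDFin := by
  intro μ lf hLS hinv u
  obtain ⟨θ, hσ, hθ0, hdis⟩ := hLS.dis
  -- measurable maps
  have hmu : Measurable (fun g : G => g * un u) := (continuous_id.mul continuous_const).measurable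
  have hmx : ∀ v : ℝ × ℝ, Measurable (fun x : ℝ => sc v * un x) := fun v =>
    (continuous_const.mul ACrM.cont_un).measurable
  have hmvx : Measurable (fun p : (ℝ × ℝ) × ℝ => sc p.1 * un p.2) :=
    (continuous_mul (M := G)).measurable.comp
      ((ACrM.meas_sc.comp measurable_fst).prodMk (ACrM.cont_un.measurable.comp measurable_snd))
  have hker := (stmtASf (ℝ × ℝ) inferInstance (fun v => lf (sc v)) (hLS.meas.comp ACrM.meas_sc)
    (fun v => hLS.fin _)).2.2
  -- the null set
  obtain ⟨P, hPsub, hPm, hP0⟩ := exists_measurable_superset_of_null (ae_iff.mp hinv)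
  have hPd : ∀ᵐ v ∂θ, lf (sc v) {x | sc v * un x ∈ P} = 0 := by
    have h1 := hdis (P.indicator 1) (measurable_one.indicator hPm)
    rw [lintegral_indicator_one hPm, hP0] at h1
    have h2 : Measurable fun v : ℝ × ℝ => ∫⁻ x, P.indicator (1 : G → ℝ≥0∞) (sc v * un x) ∂(lf (sc v)) :=
      hker (fun p => P.indicator (1 : G → ℝ≥0∞) (sc p.1 * un p.2)) ((measurable_one.indicator hPm).comp hmvx)
    have h3 := (lintegral_eq_zero_iff h2).mp h1.symm
    filter_upwards [h3] with v hv
    have h4 : ∫⁻ x, P.indicator (1 : G → ℝ≥0∞) (sc v * un x) ∂(lf (sc v)) = lf (sc v) {x | sc v * un x ∈ P} := by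
      have h5 := lintegral_indicator_one (μ := lf (sc v)) (s := (fun x => sc v * un x) ⁻¹' P) ((hmx v) hPm)
      exact h5
    rw [← h4]
    exact hv
  have hleaf : ∀ᵐ v ∂θ, ∀ τ : ℝ, (lf (sc v)).map (fun x => x - τ) = lf (sc v) := by
    filter_upwards [hPd] with v hv τ
    by_cases h0 : lf (sc v) = 0
    · rw [h0, Measure.map_zero]
    · have : ∃ x, sc v * un x ∉ P := by
        by_contra hcon
        apply h0
        rw [← Measure.measure_univ_eq_zero, ← hv]
        congr 1
        ext x
        exact ⟨fun _ => by_contra fun hx => hcon ⟨x, hx⟩, fun _ => trivial⟩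
      obtain ⟨x, hx⟩ := this
      have hx' : ∀ τ : ℝ, (lf (sc v * un x)).map (fun x => x - τ) = lf (sc v * un x) := by
        by_contra hcon
        exact hx (hPsub hcon)
      have h2 := hx' τ
      rw [hLS.tr, map_sub_sub] at h2
      have h3 := congrArg (fun m : Measure ℝ => m.map (fun y => y - (-x))) h2
      simp only [map_sub_sub] at h3
      rw [show x + τ + -x = τ by ring, show x + -x = 0 by ring, map_sub_zero] at h3
      exact h3
  have key : ∀ F : G → ℝ≥0∞, Measurable F → ∫⁻ g, F (g * un u) ∂μ = ∫⁻ g, F g ∂μ := by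
    intro F hF
    have e1 := hdis (fun g => F (g * un u)) (hF.comp hmu)
    rw [e1, hdis F hF]
    apply lintegral_congr_ae
    filter_upwards [hleaf] with v hv
    have h1 := hv (-u)
    conv_rhs => rw [← h1]
    have h2 := lintegral_map (μ := lf (sc v)) (hF.comp (hmx v)) (g := fun x : ℝ => x - -u) (by fun_prop)
    simp only [Function.comp] at h2
    rw [h2]
    apply lintegral_congr
    intro x
    rw [mul_un_un, sub_neg_eq_add]
  ext A hA
  rw [Measure.map_apply hmu hA]
  have h1 := key (A.indicator 1) (measurable_one.indicator hA)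
  rw [lintegral_indicator_one hA] at h1
  rw [← h1, ← lintegral_indicator_one (hmu hA)]
  rfl

end

end Pool.Agent.A54.QE
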