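import Pool.Agent.Lib.QE.SpecD2

/-!
# Package `QE`, block D, module `DFlo`: the leaf measures at all integral times
-/

set_option autoImplicit false

namespace Pool.Agent.A54.QE

open MeasureTheory Filter Topology Set
open scoped ENNReal MatrixGroups
open Pool.Agent.A54.Dyn (G fl base ze io mk4 Inv HM)

noncomputable section

private lemma dflo_mem (D : Set G) (hD : FI D) (g : G) (n : ℕ) : g * fl n ∈ D ↔ g ∈ D := by
  induction n with
  | zero => rw [Nat.cast_zero, fl_zero, mul_one]
  | succ n ih =>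
    have h : g * fl ((n + 1 : ℕ) : ℝ) = g * fl n * fl 1 := by
      rw [mul_fl_fl]
      push_cast
      rfl
    rw [h, hD.flo, ih]

private lemma dflo_nat (μ : Measure G) (lf : G → Measure ℝ) (D : Set G) (h : LSE μ lf D) (g : G) (hg : g ∈ D) (n : ℕ) :
    Pr (lf (g * fl n)) ((lf g).map fun x => Real.exp (-n) * x) := by
  induction n with
  | zero =>
    rw [Nat.cast_zero, fl_zero, mul_one, neg_zero, Real.exp_zero, map_one_mul]
    exact Pr.refl _
  | succ n ih =>
    have h1 : g * fl ((n + 1 : ℕ) : ℝ) = g * fl n * fl 1 := by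
      rw [mul_fl_fl]
      push_cast
      rfl
    have h2 : Real.exp (-((n + 1 : ℕ) : ℝ)) = Real.exp (-1) * Real.exp (-n) := by
      rw [← Real.exp_add]
      push_cast
      ring_nf
    rw [h1, h2, ← map_mul_mul]
    exact (h.flo _ ((dflo_mem D h.fi g n).2 hg)).trans (ih.map _)

theorem stmtDFlo : StmtDFlo := by
  intro μ lf D h g hg n
  obtain ⟨m, rfl | rfl⟩ := n.eq_nat_or_neg
  · rw [Int.cast_natCast]
    exact ⟨(dflo_mem D h.fi g m).2 hg, dflo_nat μ lf D h g hg m⟩
  · rw [Int.cast_neg, Int.cast_natCast, neg_neg]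
    have e : g * fl (-(m : ℝ)) * fl m = g := by
      rw [mul_fl_fl, neg_add_cancel, fl_zero, mul_one]
    have h1 : g * fl (-(m : ℝ)) ∈ D := by
      rw [← dflo_mem D h.fi _ m, e]
      exact hg
    refine ⟨h1, ?_⟩
    have h2 := (dflo_nat μ lf D h _ h1 m).map fun x => Real.exp m * x
    rw [e, map_mul_mul, ← Real.exp_add, add_neg_cancel, Real.exp_zero, map_one_mul] at h2
    exact h2.symm

end

end Pool.Agent.A54.QE
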