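import Pool.Agent.Lib.QE.SpecD2

/-!
# Package `QE`, block D: the displacement along the flow and the leaf (helper50)
-/

set_option autoImplicit false
set_option linter.unusedSimpArgs false

namespace Pool.Agent.A54.QE

open MeasureTheory Filter Topology Set
open scoped ENNReal MatrixGroups
open Pool.Agent.A54.Dyn (G fl base ze io mk4 Inv HM)

noncomputable section

namespace DGeo_aux

lemma e1 (s : ℝ) : Real.exp (-s / 2) * Real.exp (s / 2) = 1 := by
  rw [← Real.exp_add]
  have h : -s / 2 + s / 2 = 0 := by ring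
  rw [h, Real.exp_zero]

lemma e2 (s : ℝ) : Real.exp (-s / 2) * Real.exp (-s / 2) = Real.exp (-s) := by
  rw [← Real.exp_add]
  congr 1
  ring

lemma e3 (s : ℝ) : Real.exp (s / 2) * Real.exp (s / 2) = Real.exp s := by
  rw [← Real.exp_add]
  congr 1
  ring

lemma conj (h : G) (s : ℝ) : (fl (-s) * h * fl s) 0 0 = h 0 0 ∧ (fl (-s) * h * fl s) 0 1 = Real.exp (-s) * h 0 1 ∧
    (fl (-s) * h * fl s) 1 0 = Real.exp s * h 1 0 ∧ (fl (-s) * h * fl s) 1 1 = h 1 1 := by
  have h1 := e1 s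
  have h2 := e2 s
  have h3 := e3 s
  refine ⟨?_, ?_, ?_, ?_⟩
  · simp only [G_mul00, G_mul01, G_mul10, G_mul11, fl_00, fl_01, fl_10, fl_11]
    linear_combination (h 0 0) * h1
  · simp only [G_mul00, G_mul01, G_mul10, G_mul11, fl_00, fl_01, fl_10, fl_11]
    linear_combination (h 0 1) * h2
  · simp only [G_mul00, G_mul01, G_mul10, G_mul11, fl_00, fl_01, fl_10, fl_11, neg_neg]
    linear_combination (h 1 0) * h3
  · simp only [G_mul00, G_mul01, G_mul10, G_mul11, fl_00, fl_01, fl_10, fl_11, neg_neg]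
    linear_combination (h 1 1) * h1

end DGeo_aux

theorem stmtDGeo : StmtDGeo := by
  intro x y s u
  have h0 : (x * fl s * un u)⁻¹ * (y * fl s * un u) = un (-u) * (fl (-s) * (x⁻¹ * y) * fl s) * un u := by
    rw [mul_inv_rev, mul_inv_rev, un_inv, fl_inv]
    simp only [mul_assoc]
  obtain ⟨h1, h2, h3, h4⟩ := DGeo_aux.conj (x⁻¹ * y) s
  rw [h0]
  generalize fl (-s) * (x⁻¹ * y) * fl s = k at h1 h2 h3 h4
  refine ⟨?_, ?_, ?_, ?_⟩
  · rw [G_mul00, G_mul00, G_mul01, un_00, un_01, un_00, un_10, h1, h3]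
    ring
  · rw [G_mul01, G_mul00, G_mul01, un_00, un_01, un_01, un_11, h1, h2, h3, h4]
    ring
  · rw [G_mul10, G_mul10, G_mul11, un_10, un_11, un_00, un_10, h3]
    ring
  · rw [G_mul11, G_mul10, G_mul11, un_10, un_01, h3, h4]
    simp only [un_11]
    ring

end

end Pool.Agent.A54.QE
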