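import Pool.Agent.Lib.QE.SpecD2

/-!
Package `QE`, block D: no set of positive measure without quasi-periods (`StmtDHP`).
-/

set_option autoImplicit false

namespace Pool.Agent.A54.QE

open MeasureTheory Filter Topology Set
open scoped ENNReal MatrixGroups
open Pool.Agent.A54.Dyn (G fl base ze io mk4 Inv HM)

noncomputable section

namespace DHP_aux

lemma eps_tendsto : Tendsto (fun j : ℕ => 1 / ((j : ℝ) + 8)) atTop (𝓝 0) :=
  tendsto_const_nhds.div_atTop (tendsto_natCast_atTop_atTop.atTop_add tendsto_const_nhds)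

lemma sqrt_tendsto {f : ℕ → ℝ} (h : Tendsto f atTop (𝓝 0)) :
    Tendsto (fun j => √(f j)) atTop (𝓝 0) :=
  (Real.continuous_sqrt.tendsto' 0 0 Real.sqrt_zero).comp h

lemma sum_tendsto : Tendsto (fun j : ℕ => 1 / ((j : ℝ) + 8) + √(√(1 / ((j : ℝ) + 8)))) atTop (𝓝 0) := by
  have h := eps_tendsto.add (sqrt_tendsto (sqrt_tendsto eps_tendsto))
  rwa [add_zero] at h

lemma tendsto_of_abs {a : ℕ → ℝ} {c : ℝ} {b : ℕ → ℝ} (h : ∀ j, |a j - c| ≤ b j) (hb : Tendsto b atTop (𝓝 0)) :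
    Tendsto a atTop (𝓝 c) := by
  rw [tendsto_iff_norm_sub_tendsto_zero]
  exact squeeze_zero (fun j => norm_nonneg _) (fun j => by rw [Real.norm_eq_abs]; exact h j) hb

end DHP_aux

open DHP_aux in
theorem stmtDHP : StmtDXM → StmtDXE → StmtDSel → StmtDOne → StmtDLim → StmtDHP := by
  intro hXM hXE hSel hOne hLim hW μ lf D hi hr hl hp E hE hFI hED hat hq
  by_contra hμE
  obtain ⟨K, ρ, hK, hKE, hKne, hKc, hρ, hρ1, hX3⟩ := hXE hW μ lf D hi hl E hE hFI hED hat hμE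
  have hKm : MeasurableSet K := hK.isClosed.measurableSet
  have hX3m : MeasurableSet (X3 lf E K ρ) := (hXM μ lf D hl E K hE hFI hED hKm ρ).2.2.2.1
  have he : 0 < Real.exp (-2) * ρ ^ 2 := by positivity
  have hκ : 0 < Real.exp (-2) * ρ ^ 2 / 11 := by positivity
  have hκ2 : 10 * (Real.exp (-2) * ρ ^ 2 / 11) < Real.exp (-2) * ρ ^ 2 := by linarith
  have hstep : ∀ j : ℕ, ∃ x' ∈ gs K, ∃ y' ∈ gs K, Pr (lf x') (lf y') ∧
      Real.exp (-2) * ρ ^ 2 / 11 ≤ |(x'⁻¹ * y') 0 1| ∧ |(x'⁻¹ * y') 0 1| ≤ 3 ∧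
      |(x'⁻¹ * y') 0 0 - 1| ≤ 1 / ((j : ℝ) + 8) + √(√(1 / ((j : ℝ) + 8))) ∧
      |(x'⁻¹ * y') 1 0| ≤ √(1 / ((j : ℝ) + 8)) ∧
      |(x'⁻¹ * y') 1 1 - 1| ≤ 1 / ((j : ℝ) + 8) + √(√(1 / ((j : ℝ) + 8))) := by
    intro j
    have hj : (0 : ℝ) < (j : ℝ) + 8 := by positivity
    have hε : (0 : ℝ) < 1 / ((j : ℝ) + 8) := by positivity
    have hε8 : 1 / ((j : ℝ) + 8) ≤ 1 / 8 := by
      apply one_div_le_one_div_of_le (by norm_num)
      have : (0 : ℝ) ≤ j := Nat.cast_nonneg j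
      linarith
    obtain ⟨x, hx, y, hy, h1, h2, h3⟩ := hSel μ lf D hr hl hp (X3 lf E K ρ) hX3m hX3 _ hε
    exact hOne μ lf D hl E K ρ (Real.exp (-2) * ρ ^ 2 / 11) (1 / ((j : ℝ) + 8)) hFI hED hρ hρ1 hκ hκ2 hε hε8
      x hx y hy h1 h2 h3
  choose x hx y hy h1 h2 h3 h4 h5 h6 using hstep
  obtain ⟨z, hz, q, hq0, hqp⟩ := hLim μ lf D hl K hK (hKE.trans hED) hKne hKc x y
    (Real.exp (-2) * ρ ^ 2 / 11) hκ hx hy h1 h2 h3
    (tendsto_of_abs h4 sum_tendsto)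
    (tendsto_of_abs (c := 0) (fun j => by rw [sub_zero]; exact h5 j) (sqrt_tendsto eps_tendsto))
    (tendsto_of_abs h6 sum_tendsto)
  exact hq z (hKE hz) q hq0 hqp

end

end Pool.Agent.A54.QE
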