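import Pool.Agent.Lib.QE.SpecD2
import Pool.Agent.Lib.MP_a54f13_nt.Hp.Nm

/-!
# Package `QE`, module `DHkN`: Hecke elements and invariant lines of first columns
-/

set_option autoImplicit false

namespace Pool.Agent.A54.QE

open MeasureTheory Filter Topology Set
open scoped ENNReal MatrixGroups
open Pool.Agent.A54.Dyn (G fl base ze io mk4 Inv HM)
open Pool.Agent.A54.Av (Mat)

namespace DHkN_aux

lemma cntHk : Hk.Countable := by
  have h : Hk ⊆ range (fun s : Mat => Hp.nm s) := by
    rintro h ⟨s, -, rfl⟩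
    exact ⟨s, rfl⟩
  have hc : Countable Mat := inferInstanceAs (Countable (Fin 2 → Fin 2 → ℤ))
  exact (countable_range _).mono h

lemma one_io : io 1 = 1 := by
  unfold io
  exact map_one _

lemma neg_one_io : io (-1) = -1 := by
  apply G_ext' <;> simp [io]

/-- the form vanishes on at most two lines -/
lemma lines (a b c e : ℝ) (h : ¬(c = 0 ∧ b = 0 ∧ e = a)) : ∃ v w : ℝ × ℝ, ∀ x y : ℝ,
    c * x ^ 2 + (e - a) * x * y - b * y ^ 2 = 0 →
      (∃ r : ℝ, (x, y) = r • v) ∨ ∃ r : ℝ, (x, y) = r • w := by
  by_cases hc : c = 0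
  · refine ⟨(1, 0), (b / (e - a), 1), fun x y hq => ?_⟩
    by_cases hy : y = 0
    · left
      exact ⟨x, by rw [hy]; simp⟩
    · right
      have h1 : (e - a) * x = b * y := by
        have h2 : y * ((e - a) * x - b * y) = 0 := by rw [hc] at hq; linarith
        rcases mul_eq_zero.1 h2 with h3 | h3
        · exact absurd h3 hy
        · linarith
      have hea : e - a ≠ 0 := by
        intro h3
        rw [h3, zero_mul] at h1
        have hb : b = 0 := by
          rcases mul_eq_zero.1 h1.symm with h4 | h4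
          · exact h4
          · exact absurd h4 hy
        exact h ⟨hc, hb, by linarith⟩
      refine ⟨y, ?_⟩
      have h4 : x = y * (b / (e - a)) := by
        field_simp
        linarith
      rw [Prod.smul_mk, smul_eq_mul, smul_eq_mul, mul_one, ← h4]
  · set Δ : ℝ := (e - a) ^ 2 + 4 * b * c with hΔ
    refine ⟨((-(e - a) + √Δ) / (2 * c), 1), ((-(e - a) - √Δ) / (2 * c), 1), fun x y hq => ?_⟩
    have h1 : (2 * c * x + (e - a) * y) ^ 2 = Δ * y ^ 2 := by
      rw [hΔ]
      linear_combination (4 * c) * hq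
    rcases le_or_gt 0 Δ with h2 | h2
    · have h3 : (2 * c * x + (e - a) * y) ^ 2 = (√Δ * y) ^ 2 := by
        rw [h1, mul_pow, Real.sq_sqrt h2]
      rcases sq_eq_sq_iff_eq_or_eq_neg.1 h3 with h4 | h4
      · left
        refine ⟨y, ?_⟩
        have h5 : x = y * ((-(e - a) + √Δ) / (2 * c)) := by
          field_simp
          linarith
        rw [Prod.smul_mk, smul_eq_mul, smul_eq_mul, mul_one, ← h5]
      · right
        refine ⟨y, ?_⟩
        have h5 : x = y * ((-(e - a) - √Δ) / (2 * c)) := by
          field_simp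
          linarith
        rw [Prod.smul_mk, smul_eq_mul, smul_eq_mul, mul_one, ← h5]
    · have hy : y = 0 := by
        by_contra hy
        have h3 : 0 < y ^ 2 := by positivity
        have h4 : Δ * y ^ 2 < 0 := mul_neg_of_neg_of_pos h2 h3
        have h5 : 0 ≤ (2 * c * x + (e - a) * y) ^ 2 := sq_nonneg _
        linarith
      have hx : x = 0 := by
        rw [hy] at hq
        have h3 : c * x ^ 2 = 0 := by linarith
        rcases mul_eq_zero.1 h3 with h4 | h4
        · exact absurd h4 hc
        · exact pow_eq_zero_iff (two_ne_zero) |>.1 h4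
      left
      refine ⟨0, ?_⟩
      rw [hx, hy, zero_smul]
      rfl

end DHkN_aux

open DHkN_aux in
/-- Hecke elements: countable, invariant under the modular group, at most two invariant lines -/
theorem stmtDHkN : StmtDHkN := by
  refine ⟨cntHk, ?_, ?_⟩
  · rintro γ d ⟨s, hs, rfl⟩
    have h1 : ((γ : Mat)).det = 1 := γ.det_coe
    refine ⟨(γ : Mat) * s, ?_, ?_⟩
    · rw [Matrix.det_mul, h1, one_mul]
      exact hs
    · rw [Hp.NmM.p1 (γ : Mat) s (by rw [h1]; norm_num) hs, Hp.NmM.p2]
  · intro d _ hd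
    have h0 : ¬(d 1 0 = 0 ∧ d 0 1 = 0 ∧ d 1 1 = d 0 0) := by
      rintro ⟨h1, h2, h3⟩
      have h4 := G_det d
      rw [h1, h3] at h4
      have h5 : d 0 0 * d 0 0 = 1 := by linarith
      rcases mul_self_eq_one_iff.1 h5 with h6 | h6
      · apply hd
        refine ⟨1, ?_⟩
        rw [one_io]
        apply G_ext'
        · simp [h6]
        · simp [h2]
        · simp [h1]
        · simp [h3, h6]
      · apply hd
        refine ⟨-1, ?_⟩
        rw [neg_one_io]
        apply G_ext'
        · simp [h6]
        · simp [h2]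
        · simp [h1]
        · simp [h3, h6]
    obtain ⟨v, w, hvw⟩ := lines (d 0 0) (d 0 1) (d 1 0) (d 1 1) h0
    refine ⟨v, w, fun g hg => ?_⟩
    obtain ⟨r, hr⟩ := hg
    apply hvw (g 0 0) (g 1 0)
    have h1 := congrArg Prod.fst hr
    have h2 := congrArg Prod.snd hr
    simp only [vc, Prod.smul_mk, smul_eq_mul, G_mul00, G_mul10] at h1 h2
    linear_combination (g 0 0) * h2 - (g 1 0) * h1

end Pool.Agent.A54.QE
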