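import Pool.Agent.Lib.QE.SpecD2

/-!
# Package `QE`, module `DKer`: joint measurability of integrals against the leaf measures (helper37)
-/

set_option autoImplicit false

namespace Pool.Agent.A54.QE

open MeasureTheory Filter Topology Set
open scoped ENNReal MatrixGroups
open Pool.Agent.A54.Dyn (G fl base ze io mk4 Inv HM)

noncomputable section

namespace DKer_aux

open ProbabilityTheory
open scoped Classical

variable {α : Type} [MeasurableSpace α]

/-- the set where the measure of a cell is between `k` and `k + 1` -/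
def St (K : Kernel α ℝ) (n : ℤ) (k : ℕ) : Set α :=
  {g | (k : ℝ≥0∞) ≤ K g (Ioc (n : ℝ) (n + 1)) ∧ K g (Ioc (n : ℝ) (n + 1)) < k + 1}

theorem St_meas (K : Kernel α ℝ) (n : ℤ) (k : ℕ) : MeasurableSet (St K n k) := by
  have h := K.measurable_coe (measurableSet_Ioc : MeasurableSet (Ioc (n : ℝ) (n + 1)))
  exact (measurableSet_le measurable_const h).inter (measurableSet_lt h measurable_const)

/-- the pieces -/
def pc (K : Kernel α ℝ) (p : ℤ × ℕ) : Kernel α ℝ :=
  Kernel.piecewise (St_meas K p.1 p.2) (K.restrict (measurableSet_Ioc : MeasurableSet (Ioc (p.1 : ℝ) (p.1 + 1)))) 0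

theorem pc_fin (K : Kernel α ℝ) (p : ℤ × ℕ) : IsFiniteKernel (pc K p) := by
  refine ⟨(p.2 : ℝ≥0∞) + 1, ENNReal.add_lt_top.mpr ⟨ENNReal.natCast_lt_top _, ENNReal.one_lt_top⟩, fun g => ?_⟩
  unfold pc
  rw [Kernel.piecewise_apply]
  split_ifs with h
  · rw [Kernel.restrict_apply, Measure.restrict_apply MeasurableSet.univ, univ_inter]
    exact h.2.le
  · simp

theorem pc_sum (K : Kernel α ℝ) (hK : ∀ g, IsFiniteMeasureOnCompacts (K g)) : Kernel.sum (pc K) = K := by
  refine Kernel.ext fun g => ?_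
  refine Measure.ext fun s hs => ?_
  have hfin : ∀ n : ℤ, K g (Ioc (n : ℝ) (n + 1)) < ⊤ := fun n => by
    have := hK g
    exact (measure_mono Ioc_subset_Icc_self).trans_lt isCompact_Icc.measure_lt_top
  have h1 : ∀ n : ℤ, ∑' k : ℕ, pc K (n, k) g s = K g (s ∩ Ioc (n : ℝ) (n + 1)) := by
    intro n
    set m := K g (Ioc (n : ℝ) (n + 1)) with hm
    have hm1 : m ≠ ⊤ := (hfin n).ne
    have hk : ∀ k : ℕ, g ∈ St K n k ↔ k = ⌊m.toReal⌋₊ := by
      intro k
      have e1 : ((k : ℝ≥0∞) ≤ m) ↔ (k : ℝ) ≤ m.toReal := by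
        rw [← ENNReal.toReal_le_toReal (ENNReal.natCast_ne_top k) hm1, ENNReal.toReal_natCast]
      have e2 : (m < (k : ℝ≥0∞) + 1) ↔ m.toReal < (k : ℝ) + 1 := by
        have h3 : (k : ℝ≥0∞) + 1 = ((k + 1 : ℕ) : ℝ≥0∞) := by push_cast; rfl
        rw [h3, ← ENNReal.toReal_lt_toReal hm1 (ENNReal.natCast_ne_top _), ENNReal.toReal_natCast]
        push_cast
        rfl
      change ((k : ℝ≥0∞) ≤ m ∧ m < (k : ℝ≥0∞) + 1) ↔ _
      rw [e1, e2, eq_comm, Nat.floor_eq_iff ENNReal.toReal_nonneg]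
    have h2 : ∀ k : ℕ, k ≠ ⌊m.toReal⌋₊ → pc K (n, k) g s = 0 := by
      intro k hk'
      unfold pc
      rw [Kernel.piecewise_apply, if_neg (fun h => hk' ((hk k).mp h))]
      simp
    rw [tsum_eq_single ⌊m.toReal⌋₊ h2]
    unfold pc
    rw [Kernel.piecewise_apply, if_pos ((hk _).mpr rfl), Kernel.restrict_apply, Measure.restrict_apply hs]
  rw [Kernel.sum_apply' _ _ hs, ENNReal.tsum_prod (f := fun n k => pc K (n, k) g s), tsum_congr h1]
  rw [← measure_iUnion]
  · congr 1
    rw [← inter_iUnion, iUnion_Ioc_intCast, inter_univ]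
  · intro i j hij
    have h := pairwise_disjoint_Ioc_intCast ℝ hij
    exact h.mono inter_subset_right inter_subset_right
  · exact fun n => hs.inter measurableSet_Ioc

theorem sfin (K : Kernel α ℝ) (hK : ∀ g, IsFiniteMeasureOnCompacts (K g)) : IsSFiniteKernel K := by
  rw [← pc_sum K hK]
  have : ∀ p, IsSFiniteKernel (pc K p) := fun p => by
    have := pc_fin K p
    infer_instance
  exact Kernel.isSFiniteKernel_sum

end DKer_aux

open DKer_aux ProbabilityTheory in
theorem stmtDKer : StmtDKer := by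
  intro μ lf h F hF
  let K : Kernel G ℝ := ⟨lf, h.meas⟩
  have h1 : IsSFiniteKernel K := sfin K h.fin
  exact hF.lintegral_kernel_prod_right' (κ := K)

end

end Pool.Agent.A54.QE
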