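import Pool.Agent.Lib.QE.SpecD2

/-!
# Package `QE`, block D: limit of the pairs (DLim)

Pairs of points in the saturation of a compact set with proportional leaf measures and a displacement
tending to the unipotent group give a point with a quasi-period.
-/

set_option autoImplicit false

namespace Pool.Agent.A54.QE

open MeasureTheory Filter Topology Set
open scoped ENNReal MatrixGroups
open Pool.Agent.A54.Dyn (G fl base ze io mk4 Inv HM)

noncomputable section

namespace DLim_aux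

/-- convergence in the group from convergence of the entries -/
lemma tendsto_G {h : ℕ → G} {g : G} (H : ∀ i j, Tendsto (fun n => h n i j) atTop (𝓝 (g i j))) :
    Tendsto h atTop (𝓝 g) := by
  have he := (Matrix.SpecialLinearGroup.isClosedEmbedding_val (n := Fin 2) (R := ℝ)).isEmbedding
  exact he.tendsto_nhds_iff.mpr (tendsto_pi_nhds.mpr fun i => tendsto_pi_nhds.mpr fun j => H i j)

lemma io_apply (γ : SL(2, ℤ)) (i j : Fin 2) : io γ i j = ((γ i j : ℤ) : ℝ) := rfl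

lemma io_mul (γ γ' : SL(2, ℤ)) : io (γ * γ') = io γ * io γ' := map_mul _ _ _

lemma io_inv (γ : SL(2, ℤ)) : io γ⁻¹ = (io γ)⁻¹ := map_inv _ _

/-- a convergent sequence of integral matrices has its limit in `Γ` -/
lemma lim_io {δ : ℕ → SL(2, ℤ)} {L : G} (H : Tendsto (fun n => io (δ n)) atTop (𝓝 L)) :
    ∃ d : SL(2, ℤ), io d = L := by
  have h1 : ∀ i j, Tendsto (fun n => ((δ n i j : ℤ) : ℝ)) atTop (𝓝 (L i j)) := fun i j =>
    ((Dyn.continuous_entry i j).tendsto L).comp H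
  have h2 : ∀ i j, ∃ N : ℕ, ∀ n, N ≤ n → (δ n i j : ℤ) = δ N i j := by
    intro i j
    have h3 := (Metric.tendsto_atTop.mp (h1 i j)) (1 / 2) (by norm_num)
    obtain ⟨N, hN⟩ := h3
    refine ⟨N, fun n hn => ?_⟩
    have h4 := hN n hn
    have h5 := hN N le_rfl
    rw [Real.dist_eq] at h4 h5
    have h6 : |((δ n i j : ℤ) : ℝ) - ((δ N i j : ℤ) : ℝ)| < 1 := by
      have := abs_sub_le ((δ n i j : ℤ) : ℝ) (L i j) ((δ N i j : ℤ) : ℝ)
      rw [abs_sub_comm (L i j)] at this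
      linarith
    have h7 : |(δ n i j : ℤ) - δ N i j| < 1 := by
      exact_mod_cast h6
    have := Int.abs_lt_one_iff.mp h7
    omega
  choose N hN using h2
  set M := max (max (N 0 0) (N 0 1)) (max (N 1 0) (N 1 1)) with hM
  have h3 : ∀ i j, N i j ≤ M := by
    intro i j
    fin_cases i <;> fin_cases j
    · exact (le_max_left _ _).trans (le_max_left _ _)
    · exact (le_max_right _ _).trans (le_max_left _ _)
    · exact (le_max_left _ _).trans (le_max_right _ _)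
    · exact (le_max_right _ _).trans (le_max_right _ _)
  refine ⟨δ M, ?_⟩
  have h4 : ∀ i j, io (δ M) i j = L i j := by
    intro i j
    refine tendsto_nhds_unique (f := fun n => ((δ n i j : ℤ) : ℝ)) (l := atTop) ?_ (h1 i j)
    refine tendsto_const_nhds.congr' ?_
    filter_upwards [eventually_ge_atTop (N i j)] with n hn
    rw [io_apply, hN i j n hn, hN i j M (h3 i j)]
  exact G_ext' (h4 0 0) (h4 0 1) (h4 1 0) (h4 1 1)

/-- proportionality from equality of the normalised measures of the rational intervals -/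
lemma pr_of_rt {m m' : Measure ℝ} (hm : IsFiniteMeasureOnCompacts m) (hm' : IsFiniteMeasureOnCompacts m')
    (h1 : m (Icc (-1) 1) ≠ 0) (h2 : m' (Icc (-1) 1) ≠ 0)
    (H : ∀ a b : ℚ, m (Ioo (a : ℝ) b) / m (Icc (-1) 1) = m' (Ioo (a : ℝ) b) / m' (Icc (-1) 1)) : Pr m m' := by
  have t1 : m (Icc (-1) 1) ≠ ⊤ := isCompact_Icc.measure_lt_top.ne
  have t2 : m' (Icc (-1) 1) ≠ ⊤ := isCompact_Icc.measure_lt_top.ne
  refine ⟨m (Icc (-1) 1) / m' (Icc (-1) 1), ?_, ?_, ?_⟩
  · exact ENNReal.div_ne_zero.mpr ⟨h1, t2⟩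
  · exact ENNReal.div_ne_top t1 h2
  · refine Real.measure_ext_Ioo_rat fun a b => ?_
    rw [Measure.smul_apply, smul_eq_mul]
    have h := H a b
    have e1 : m (Ioo (a : ℝ) b) = m (Ioo (a : ℝ) b) / m (Icc (-1) 1) * m (Icc (-1) 1) :=
      (ENNReal.div_mul_cancel h1 t1).symm
    rw [e1, h, div_eq_mul_inv, div_eq_mul_inv]
    ring

/-- the limit of the normalised measures -/
lemma lim_rt {lf : G → Measure ℝ} {K : Set G} (hc : ∀ i, ContinuousOn (rt lf i) K) {k k' : ℕ → G} {z z' : G}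
    (hk : ∀ n, k n ∈ K) (hk' : ∀ n, k' n ∈ K) (hz : z ∈ K) (hz' : z' ∈ K) (lk : Tendsto k atTop (𝓝 z))
    (lk' : Tendsto k' atTop (𝓝 z')) (hP : ∀ n, Pr (lf (k n)) (lf (k' n))) (i : ℚ × ℚ) :
    rt lf i z = rt lf i z' := by
  have h1 : Tendsto (fun n => rt lf i (k n)) atTop (𝓝 (rt lf i z)) :=
    (hc i z hz).tendsto.comp (tendsto_nhdsWithin_iff.mpr ⟨lk, Eventually.of_forall hk⟩)
  have h2 : Tendsto (fun n => rt lf i (k' n)) atTop (𝓝 (rt lf i z')) :=
    (hc i z' hz').tendsto.comp (tendsto_nhdsWithin_iff.mpr ⟨lk', Eventually.of_forall hk'⟩)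
  refine tendsto_nhds_unique h1 (h2.congr fun n => ?_)
  exact ((hP n).div_eq _ _).symm

end DLim_aux

open DLim_aux in
theorem stmtDLim : StmtDLim := by
  intro μ lf D hL K hK hKD hK1 hc x y κ hκ hx hy hP hb1 hb2 h00 h10 h11
  choose γ hγ using hx
  choose γ' hγ' using hy
  set k : ℕ → G := fun j => io (γ j) * x j with hk
  set k' : ℕ → G := fun j => io (γ' j) * y j with hk'
  have hcomp : IsCompact (K ×ˢ (K ×ˢ (Icc (-3 : ℝ) 3))) := hK.prod (hK.prod isCompact_Icc)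
  have hmem : ∀ j, (k j, (k' j, ((x j)⁻¹ * y j) 0 1)) ∈ K ×ˢ (K ×ˢ (Icc (-3 : ℝ) 3)) := fun j =>
    ⟨hγ j, hγ' j, (abs_le.mp (hb2 j)).1, (abs_le.mp (hb2 j)).2⟩
  obtain ⟨⟨z, z', q⟩, hzz, φ, hφ, hlim⟩ := hcomp.tendsto_subseq hmem
  obtain ⟨hz, hz', -⟩ := hzz
  simp only at hz hz'
  have l1 : Tendsto (fun n => k (φ n)) atTop (𝓝 z) := (continuous_fst.tendsto _).comp hlim
  have l2 : Tendsto (fun n => k' (φ n)) atTop (𝓝 z') :=
    ((continuous_fst.comp continuous_snd).tendsto _).comp hlim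
  have l3 : Tendsto (fun n => ((x (φ n))⁻¹ * y (φ n)) 0 1) atTop (𝓝 q) :=
    ((continuous_snd.comp continuous_snd).tendsto _).comp hlim
  have hq : κ ≤ |q| := ge_of_tendsto' l3.abs fun n => hb1 (φ n)
  have hφ' := hφ.tendsto_atTop
  have lh : Tendsto (fun n => (x (φ n))⁻¹ * y (φ n)) atTop (𝓝 (un q)) := by
    refine tendsto_G fun i j => ?_
    fin_cases i <;> fin_cases j
    · exact h00.comp hφ'
    · exact l3
    · exact h10.comp hφ'
    · exact h11.comp hφ'
  have hδ : ∀ n, io (γ (φ n) * (γ' (φ n))⁻¹) = k (φ n) * ((x (φ n))⁻¹ * y (φ n)) * (k' (φ n))⁻¹ := by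
    intro n
    simp only [hk, hk', io_mul, io_inv]
    group
  have lL : Tendsto (fun n => io (γ (φ n) * (γ' (φ n))⁻¹)) atTop (𝓝 (z * un q * z'⁻¹)) := by
    simp only [hδ]
    exact (l1.mul lh).mul l2.inv
  obtain ⟨d, hd⟩ := lim_io lL
  have hPk : ∀ n, Pr (lf (k (φ n))) (lf (k' (φ n))) := by
    intro n
    have hxD : x (φ n) ∈ D := (hL.fi.gam (γ (φ n)) _).mp (hKD (hγ (φ n)))
    have hyD : y (φ n) ∈ D := (hL.fi.gam (γ' (φ n)) _).mp (hKD (hγ' (φ n)))
    exact ((hL.gam _ hxD (γ (φ n))).trans (hP (φ n))).trans (hL.gam _ hyD (γ' (φ n))).symm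
  have hPz : Pr (lf z) (lf z') := by
    refine pr_of_rt (hL.fin z) (hL.fin z') (hK1 z hz) (hK1 z' hz') fun a b => ?_
    exact lim_rt hc (fun n => hγ (φ n)) (fun n => hγ' (φ n)) hz hz' l1 l2 hPk (a, b)
  refine ⟨z, hz, q, fun h => ?_, ?_⟩
  · rw [h, abs_zero] at hq
    linarith
  · have h1 := hL.gam z' (hKD hz') d
    rw [hd, inv_mul_cancel_right, hL.tr] at h1
    exact h1.trans hPz.symm

end

end Pool.Agent.A54.QE
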