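import Pool.Agent.Lib.QE.SpecD

/-!
# Package `QE`, module `DLus`: the theorem of Lusin for countably many functions
-/

set_option autoImplicit false

namespace Pool.Agent.A54.QE

open MeasureTheory Filter Topology Set
open scoped ENNReal MatrixGroups
open Pool.Agent.A54.Dyn (G fl base ze io mk4 Inv HM)

theorem stmtDLus : StmtDLus := by
  intro m hm f hf A hA ε hε
  classical
  have hfin : ∀ S : Set G, m S ≠ ⊤ := fun S => measure_ne_top m S
  have hε2 : ε / 2 ≠ 0 := (ENNReal.half_pos hε.ne').ne'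
  obtain ⟨K₀, hK₀A, hK₀c, hK₀⟩ := hA.exists_isCompact_sdiff_lt (hfin A) hε2
  let J := (ℚ × ℚ) × (TopologicalSpace.countableBasis ℝ≥0∞)
  have hJ : Countable J := inferInstance
  obtain ⟨e, he0, hes⟩ := ENNReal.exists_pos_sum_of_countable' hε2 J
  have hP : ∀ j : J, MeasurableSet (f j.1 ⁻¹' (j.2 : Set ℝ≥0∞)) := fun j =>
    hf j.1 (TopologicalSpace.isOpen_of_mem_countableBasis j.2.2).measurableSet
  have h1 : ∀ j : J, ∃ K C : Set G, IsClosed K ∧ IsClosed C ∧ K ⊆ f j.1 ⁻¹' (j.2 : Set ℝ≥0∞) ∧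
      Disjoint C (f j.1 ⁻¹' (j.2 : Set ℝ≥0∞)) ∧ m (A \ (K ∪ C)) ≤ e j := by
    intro j
    have hj2 : e j / 2 ≠ 0 := (ENNReal.half_pos (he0 j).ne').ne'
    obtain ⟨K, hKA, hKc, hK⟩ := (hA.inter (hP j)).exists_isClosed_sdiff_lt (hfin _) hj2
    obtain ⟨C, hCA, hCc, hC⟩ := (hA.diff (hP j)).exists_isClosed_sdiff_lt (hfin _) hj2
    refine ⟨K, C, hKc, hCc, fun x hx => (hKA hx).2, ?_, ?_⟩
    · rw [Set.disjoint_left]
      exact fun x hx => (hCA hx).2
    · calc m (A \ (K ∪ C)) ≤ m (((A ∩ f j.1 ⁻¹' (j.2 : Set ℝ≥0∞)) \ K) ∪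
            ((A \ f j.1 ⁻¹' (j.2 : Set ℝ≥0∞)) \ C)) := by
            refine measure_mono ?_
            rintro x ⟨hxA, hx⟩
            by_cases hxP : x ∈ f j.1 ⁻¹' (j.2 : Set ℝ≥0∞)
            · exact Or.inl ⟨⟨hxA, hxP⟩, fun h => hx (Or.inl h)⟩
            · exact Or.inr ⟨⟨hxA, hxP⟩, fun h => hx (Or.inr h)⟩
        _ ≤ _ := measure_union_le _ _
        _ ≤ e j / 2 + e j / 2 := add_le_add hK.le hC.le
        _ = e j := ENNReal.add_halves _
  choose K C hKc hCc hKP hCP hKC using h1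
  refine ⟨K₀ ∩ ⋂ j, (K j ∪ C j), fun x hx => hK₀A hx.1,
    hK₀c.inter_right (isClosed_iInter fun j => (hKc j).union (hCc j)), ?_, ?_⟩
  · have h2 : A \ (K₀ ∩ ⋂ j, (K j ∪ C j)) ⊆ (A \ K₀) ∪ ⋃ j, (A \ (K j ∪ C j)) := by
      rintro x ⟨hxA, hx⟩
      by_cases hx0 : x ∈ K₀
      · right
        have h3 : x ∉ ⋂ j, (K j ∪ C j) := fun h => hx ⟨hx0, h⟩
        rw [Set.mem_iInter] at h3
        push Not at h3
        obtain ⟨j, hj⟩ := h3
        exact Set.mem_iUnion.2 ⟨j, hxA, hj⟩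
      · exact Or.inl ⟨hxA, hx0⟩
    calc m (A \ (K₀ ∩ ⋂ j, (K j ∪ C j))) ≤ _ := measure_mono h2
      _ ≤ m (A \ K₀) + m (⋃ j, (A \ (K j ∪ C j))) := measure_union_le _ _
      _ ≤ m (A \ K₀) + ∑' j, m (A \ (K j ∪ C j)) := add_le_add le_rfl (measure_iUnion_le _)
      _ ≤ m (A \ K₀) + ∑' j, e j := add_le_add le_rfl (ENNReal.tsum_le_tsum hKC)
      _ < ε / 2 + ε / 2 := ENNReal.add_lt_add hK₀ hes
      _ = ε := ENNReal.add_halves _
  · intro i
    rw [continuousOn_iff_continuous_domRestrict,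
      (TopologicalSpace.isBasis_countableBasis ℝ≥0∞).continuous_iff]
    intro O hO
    let j : J := (i, ⟨O, hO⟩)
    have h3 : (K₀ ∩ ⋂ j, (K j ∪ C j)).domRestrict (f i) ⁻¹' O =
        Subtype.val ⁻¹' (C j)ᶜ := by
      ext x
      have hx := Set.mem_iInter.1 x.2.2 j
      simp only [Set.mem_preimage, Set.domRestrict_apply, Set.mem_compl_iff]
      constructor
      · intro h4 h5
        exact Set.disjoint_left.1 (hCP j) h5 h4
      · intro h4
        rcases hx with h5 | h5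
        · exact hKP j h5
        · exact absurd h5 h4
    rw [h3]
    exact (hCc j).isOpen_compl.preimage continuous_subtype_val

end Pool.Agent.A54.QE
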