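import Pool.Agent.Lib.QE.SpecD2

/-!
# Package `QE`, module `DME`: maximal ergodic inequality
-/

set_option autoImplicit false

namespace Pool.Agent.A54.QE

open MeasureTheory Filter Topology Set
open scoped ENNReal MatrixGroups
open Pool.Agent.A54.Dyn (G fl base ze io mk4 Inv HM)

noncomputable section

namespace DME_aux

private lemma meas_right (h : G) : Measurable fun g : G => g * h :=
  (continuous_id.mul continuous_const).measurable

/-- the set with bounded `S` -/
private def BN (E : Set G) (K N : ℕ) : Set G := {g | ∃ S : ℕ, S ≤ N ∧ S < K * cnt E g S}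

private lemma meas_ind {E : Set G} (hE : MeasurableSet E) (t : ℝ) :
    Measurable fun g : G => E.indicator (fun _ => (1 : ℕ)) (g * fl t) :=
  (measurable_const.indicator hE).comp (meas_right (fl t))

private lemma meas_cnt {E : Set G} (hE : MeasurableSet E) (S : ℕ) : Measurable fun g : G => cnt E g S := by
  unfold cnt
  exact Finset.measurable_sum _ fun s _ => meas_ind hE s

private lemma meas_BN {E : Set G} (hE : MeasurableSet E) (K N : ℕ) : MeasurableSet (BN E K N) := by
  have h : BN E K N = ⋃ S : ℕ, ⋃ _ : S ≤ N, {g : G | S < K * cnt E g S} := by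
    ext g
    simp only [BN, mem_ofPred_eq, mem_iUnion, exists_prop]
  rw [h]
  refine MeasurableSet.iUnion fun S => MeasurableSet.iUnion fun _ => ?_
  exact measurableSet_lt measurable_const ((meas_cnt hE S).const_mul K)

private lemma ind_inv {E : Set G} (hE : GI E) (γ : SL(2, ℤ)) (g : G) :
    E.indicator (fun _ => (1 : ℕ)) (io γ * g) = E.indicator (fun _ => (1 : ℕ)) g := by
  by_cases h : g ∈ E
  · rw [indicator_of_mem h, indicator_of_mem ((hE γ g).2 h)]
  · rw [indicator_of_notMem h, indicator_of_notMem (fun h' => h ((hE γ g).1 h'))]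

private lemma cnt_inv {E : Set G} (hE : GI E) (γ : SL(2, ℤ)) (g : G) (S : ℕ) : cnt E (io γ * g) S = cnt E g S := by
  unfold cnt
  refine Finset.sum_congr rfl fun s _ => ?_
  rw [mul_assoc, ind_inv hE]

private lemma BN_inv {E : Set G} (hE : GI E) (K N : ℕ) : GI (BN E K N) := by
  intro γ g
  simp only [BN, mem_ofPred_eq, cnt_inv hE]

/-- the integral of a shifted indicator -/
private lemma shift (hW : Wt) {μ : Measure G} (hμ : Inv μ) {B : Set G} (hB : MeasurableSet B) (hG : GI B) (t : ℝ) :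
    ∫⁻ g, ((B.indicator (fun _ => (1 : ℕ)) (g * fl t) : ℕ) : ℝ≥0∞) ∂(mX μ) = mX μ B := by
  have h1 := hW.flo μ hμ (fun g => ((B.indicator (fun _ => (1 : ℕ)) g : ℕ) : ℝ≥0∞))
    (measurable_from_top.comp (measurable_const.indicator hB)) (fun γ g => by rw [ind_inv hG]) t
  rw [h1]
  have h2 : (fun g : G => ((B.indicator (fun _ => (1 : ℕ)) g : ℕ) : ℝ≥0∞)) = B.indicator 1 := by
    funext g
    by_cases h : g ∈ B
    · rw [indicator_of_mem h, indicator_of_mem h]; simp
    · rw [indicator_of_notMem h, indicator_of_notMem h]; simp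
  rw [h2, lintegral_indicator_one hB]

private lemma sum_shift (hW : Wt) {μ : Measure G} (hμ : Inv μ) {B : Set G} (hB : MeasurableSet B) (hG : GI B) (T : ℕ) :
    ∫⁻ g, ((∑ t ∈ Finset.range T, B.indicator (fun _ => (1 : ℕ)) (g * fl t) : ℕ) : ℝ≥0∞) ∂(mX μ) = T * mX μ B := by
  have h1 : ∀ g : G, ((∑ t ∈ Finset.range T, B.indicator (fun _ => (1 : ℕ)) (g * fl t) : ℕ) : ℝ≥0∞) =
      ∑ t ∈ Finset.range T, ((B.indicator (fun _ => (1 : ℕ)) (g * fl t) : ℕ) : ℝ≥0∞) := by
    intro g
    push_cast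
    rfl
  simp_rw [h1]
  have h2 : ∀ t ∈ Finset.range T, Measurable fun g : G =>
      ((B.indicator (fun _ => (1 : ℕ)) (g * fl t) : ℕ) : ℝ≥0∞) :=
    fun t _ => measurable_from_top.comp (meas_ind hB t)
  rw [lintegral_finsetSum _ h2]
  simp_rw [shift hW hμ hB hG]
  simp

/-- the greedy covering at one point -/
private lemma cover (hS : StmtDSeq) (E : Set G) (K N T : ℕ) (g : G) :
    ∑ t ∈ Finset.range T, (BN E K N).indicator (fun _ => (1 : ℕ)) (g * fl t) ≤
      K * ∑ s ∈ Finset.range (T + N), E.indicator (fun _ => (1 : ℕ)) (g * fl s) := by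
  have h := hS K N T (fun s => E.indicator (fun _ => (1 : ℕ)) (g * fl s)) {t | g * fl t ∈ BN E K N} (by
    intro t ht
    obtain ⟨S, hSN, h⟩ := ht
    refine ⟨S, hSN, ?_⟩
    have h1 : cnt E (g * fl t) S = ∑ s ∈ Finset.range S, E.indicator (fun _ => (1 : ℕ)) (g * fl ((t + s : ℕ) : ℝ)) := by
      unfold cnt
      refine Finset.sum_congr rfl fun s _ => ?_
      rw [mul_fl_fl]
      push_cast
      rfl
    rw [h1] at h
    exact h)
  exact h

private lemma bound (hS : StmtDSeq) (hW : Wt) {μ : Measure G} (hμ : Inv μ) {E : Set G} (hE : MeasurableSet E) (hG : GI E)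
    (K N T : ℕ) : (T : ℝ≥0∞) * mX μ (BN E K N) ≤ K * (((T + N : ℕ) : ℝ≥0∞) * mX μ E) := by
  rw [← sum_shift hW hμ (meas_BN hE K N) (BN_inv hG K N) T, ← sum_shift hW hμ hE hG (T + N)]
  have hm : Measurable fun g : G =>
      ((∑ t ∈ Finset.range (T + N), E.indicator (fun _ => (1 : ℕ)) (g * fl t) : ℕ) : ℝ≥0∞) :=
    measurable_from_top.comp (Finset.measurable_sum _ fun s _ => meas_ind hE s)
  rw [← lintegral_const_mul _ hm]
  refine lintegral_mono fun g => ?_
  have h := cover hS E K N T g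
  calc _ ≤ (((K * ∑ s ∈ Finset.range (T + N), E.indicator (fun _ => (1 : ℕ)) (g * fl s) : ℕ)) : ℝ≥0∞) :=
        Nat.cast_le.2 h
    _ = _ := by push_cast; rfl

private lemma limit {a b : ℝ≥0∞} (ha : a ≠ ⊤) (hb : b ≠ ⊤) (K N : ℕ)
    (h : ∀ T : ℕ, (T : ℝ≥0∞) * a ≤ K * (((T + N : ℕ) : ℝ≥0∞) * b)) : a ≤ K * b := by
  have hKb : (K : ℝ≥0∞) * b ≠ ⊤ := ENNReal.mul_ne_top (ENNReal.natCast_ne_top K) hb
  rw [← ENNReal.toReal_le_toReal ha hKb, ENNReal.toReal_mul, ENNReal.toReal_natCast]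
  have h' : ∀ T : ℕ, (T : ℝ) * a.toReal ≤ K * (((T : ℝ) + N) * b.toReal) := by
    intro T
    have h1 := ENNReal.toReal_mono (ENNReal.mul_ne_top (ENNReal.natCast_ne_top K)
      (ENNReal.mul_ne_top (ENNReal.natCast_ne_top (T + N)) hb)) (h T)
    rw [ENNReal.toReal_mul, ENNReal.toReal_mul, ENNReal.toReal_mul, ENNReal.toReal_natCast, ENNReal.toReal_natCast,
      ENNReal.toReal_natCast] at h1
    push_cast at h1
    exact h1
  by_contra hc
  push Not at hc
  have hpos : 0 < a.toReal - K * b.toReal := by linarith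
  obtain ⟨T, hT⟩ := exists_nat_gt ((K * (N * b.toReal)) / (a.toReal - K * b.toReal))
  rw [div_lt_iff₀ hpos] at hT
  have h2 := h' T
  nlinarith [h2, hT]

end DME_aux

open DME_aux in
theorem stmtDME : StmtDSeq → StmtDME := by
  intro hS hW μ hμ E hE hG K
  have : IsFiniteMeasure (mX μ) := hW.fin μ hμ
  have h1 : {g : G | ∃ S : ℕ, S < K * cnt E g S} = ⋃ N : ℕ, BN E K N := by
    ext g
    simp only [BN, mem_ofPred_eq, mem_iUnion]
    exact ⟨fun ⟨S, h⟩ => ⟨S, S, le_rfl, h⟩, fun ⟨_, S, _, h⟩ => ⟨S, h⟩⟩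
  have hmono : Monotone fun N => BN E K N := by
    intro N N' hN g hg
    obtain ⟨S, hS, h⟩ := hg
    exact ⟨S, hS.trans hN, h⟩
  rw [h1, hmono.measure_iUnion]
  refine iSup_le fun N => ?_
  exact limit (measure_ne_top _ _) (measure_ne_top _ _) K N fun T => bound hS hW hμ hE hG K N T

end

end Pool.Agent.A54.QE
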