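import Pool.Agent.Lib.QE.DXM

/-!
# Package `QE`, block D, module `DMX`: the maximal inequality along the leaves
-/

set_option autoImplicit false

namespace Pool.Agent.A54.QE

open MeasureTheory Filter Topology Set
open scoped ENNReal MatrixGroups
open Pool.Agent.A54.Dyn (G fl base ze io mk4 Inv HM)

noncomputable section

namespace DMXM

open DXM_aux

/-- the truncated bad set -/
def BN (lf : G → Measure ℝ) (D E : Set G) (N : ℕ) : Set G := {g | g ∈ D ∧ ∃ n : ℕ, n ≤ N ∧
  lf g (Icc (-Real.exp n) (Real.exp n)) < 10 * lf g ({u | g * un u ∈ E} ∩ Icc (-Real.exp n) (Real.exp n))}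

lemma meas_BN (hKer : StmtDKer) {μ : Measure G} {lf : G → Measure ℝ} {D E : Set G} (hl : LSE μ lf D)
    (hE : MeasurableSet E) (N : ℕ) : MeasurableSet (BN lf D E N) := by
  have e : BN lf D E N = D ∩ ⋃ n : ℕ, ⋃ _ : n ≤ N, {g | lf g (Icc (-Real.exp n) (Real.exp n)) <
      10 * lf g ({u | g * un u ∈ E} ∩ Icc (-Real.exp n) (Real.exp n))} := by
    ext g; simp only [BN, mem_setOf_eq, mem_inter_iff, mem_iUnion, exists_prop]
  rw [e]
  refine hl.mD.inter (MeasurableSet.iUnion fun n => MeasurableSet.iUnion fun _ => ?_)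
  exact measurableSet_lt (meas_val hl.toLS measurableSet_Icc)
    ((meas_sec hKer hl.toLS hE measurableSet_Icc).const_mul 10)

lemma gi_BN {μ : Measure G} {lf : G → Measure ℝ} {D E : Set G} (hl : LSE μ lf D) (hE : GI E) (N : ℕ) :
    GI (BN lf D E N) := by
  intro γ g
  have hD := hl.fi.gam γ g
  have h1 : ∀ J : Set ℝ, {u | io γ * g * un u ∈ E} ∩ J = {u | g * un u ∈ E} ∩ J := by
    intro J; ext u
    simp only [mem_inter_iff, mem_setOf_eq, mul_assoc]
    rw [hE γ (g * un u)]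
  simp only [BN, mem_setOf_eq, hD, h1]
  refine and_congr_right fun hg => exists_congr fun n => and_congr_right fun _ => ?_
  rw [← not_le, ← not_le, not_iff_not]
  exact (hl.gam g hg γ).le_iff 10 _ _

/-- the bound for one window -/
lemma window (hW : Wt) (hKer : StmtDKer) (hWin : (∀ l : ℝ, 0 < l → Continuous (wd l) ∧ (∀ g, 0 ≤ wd l g) ∧
    ∀ g, ∑' γ : SL(2, ℤ), ENNReal.ofReal (wd l (io γ * g)) = 1) ∧
    ∀ l R : ℝ, 0 < l → 0 ≤ R → ∀ (g : G) (x y : ℝ), |x - y| ≤ R →
    wd l (g * un x) ≤ (l + R) / l * wd (l + R) (g * un y)) {C : ℕ}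
    (hC : ∀ (m : Measure ℝ) (B E : Set ℝ) (θ : ℝ≥0∞) (R : ℝ) (h H : ℝ → ℝ),
      MeasurableSet B → MeasurableSet E → Measurable h → Measurable H → (∀ x, 0 ≤ h x) → (∀ x, 0 ≤ H x) →
      (∀ x y, |x - y| ≤ R → h x ≤ H y) →
      (∀ x ∈ B, ∃ r : ℝ, 0 < r ∧ r ≤ R ∧ θ * m (Icc (x - r) (x + r)) ≤ m (E ∩ Icc (x - r) (x + r))) →
        θ * ∫⁻ x in B, ENNReal.ofReal (h x) ∂m ≤ C * ∫⁻ x in E, ENNReal.ofReal (H x) ∂m)
    {μ : Measure G} {lf : G → Measure ℝ} {D E : Set G} (hμ : Inv μ) (hl : LSE μ lf D)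
    (hE : MeasurableSet E) (hEg : GI E) (N : ℕ) {l : ℝ} (hl0 : 0 < l) :
    10⁻¹ * mX μ (BN lf D E N) ≤ C * (ENNReal.ofReal ((l + Real.exp N) / l) * mX μ E) := by
  set R : ℝ := Real.exp N with hR
  have hR0 : 0 < R := Real.exp_pos _
  have hlR : 0 < l + R := by linarith
  obtain ⟨θ, hθ, -, hdis⟩ := hl.dis
  have key : ∀ (A : Set G), MeasurableSet A → GI A → ∀ k : ℝ, 0 < k →
      mX μ A = ∫⁻ v, ∫⁻ x in {x | sc v * un x ∈ A}, ENNReal.ofReal (wd k (sc v * un x)) ∂(lf (sc v)) ∂θ := by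
    intro A hA hAg k hk
    obtain ⟨hc, -, hs⟩ := hWin.1 k hk
    have m1 : Measurable (A.indicator (fun _ => (1 : ℝ≥0∞))) := measurable_const.indicator hA
    have hw := hW.unf μ hμ (fun g => ENNReal.ofReal (wd k g)) hc.measurable.ennreal_ofReal hs
      (A.indicator fun _ => 1) m1 (fun γ g => by
        by_cases hg : g ∈ A
        · rw [indicator_of_mem hg, indicator_of_mem ((hAg γ g).mpr hg)]
        · rw [indicator_of_notMem hg, indicator_of_notMem (fun h => hg ((hAg γ g).mp h))])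
    rw [lintegral_indicator_const hA, one_mul] at hw
    rw [← hw, hdis (fun g => A.indicator (fun _ => (1 : ℝ≥0∞)) g * ENNReal.ofReal (wd k g)) (m1.mul hc.measurable.ennreal_ofReal)]
    refine lintegral_congr fun v => ?_
    have hm : MeasurableSet {x | sc v * un x ∈ A} := (continuous_const.mul cont_un).measurable hA
    rw [← lintegral_indicator hm]
    refine lintegral_congr fun x => ?_
    by_cases hx : sc v * un x ∈ A
    · rw [indicator_of_mem hx, indicator_of_mem (show x ∈ {x | sc v * un x ∈ A} from hx), one_mul]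
    · rw [indicator_of_notMem hx, indicator_of_notMem (show x ∉ {x | sc v * un x ∈ A} from hx), zero_mul]
  rw [key _ (meas_BN hKer hl hE N) (gi_BN hl hEg N) l hl0, key E hE hEg (l + R) hlR]
  rw [← lintegral_const_mul' _ _ ENNReal.ofReal_ne_top, ← lintegral_const_mul' _ _ (by finiteness),
    ← lintegral_const_mul' _ _ (ENNReal.natCast_ne_top C)]
  refine lintegral_mono fun v => ?_
  have hm1 : MeasurableSet {x | sc v * un x ∈ BN lf D E N} :=
    (continuous_const.mul cont_un).measurable (meas_BN hKer hl hE N)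
  have hm2 : MeasurableSet {x | sc v * un x ∈ E} := (continuous_const.mul cont_un).measurable hE
  have hf : ∀ k : ℝ, 0 < k → Measurable fun x : ℝ => wd k (sc v * un x) := fun k hk =>
    ((hWin.1 k hk).1.comp (continuous_const.mul cont_un)).measurable
  have hq : 0 ≤ (l + R) / l := by positivity
  have h1 := hC (lf (sc v)) {x | sc v * un x ∈ BN lf D E N} {x | sc v * un x ∈ E} 10⁻¹ R
    (fun x => wd l (sc v * un x)) (fun y => (l + R) / l * wd (l + R) (sc v * un y)) hm1 hm2 (hf l hl0)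
    ((hf (l + R) hlR).const_mul _) (fun x => (hWin.1 l hl0).2.1 _)
    (fun y => mul_nonneg hq ((hWin.1 (l + R) hlR).2.1 _))
    (fun x y hxy => hWin.2 l R hl0 hR0.le (sc v) x y hxy) ?_
  · refine h1.trans (le_of_eq ?_)
    congr 1
    rw [← lintegral_const_mul' _ _ ENNReal.ofReal_ne_top]
    refine lintegral_congr fun y => ?_
    rw [ENNReal.ofReal_mul hq]
  · rintro x ⟨-, n, hn, hlt⟩
    refine ⟨Real.exp n, Real.exp_pos _, Real.exp_le_exp.mpr (by exact_mod_cast hn), ?_⟩
    rw [hl.tr] at hlt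
    have hms : Measurable fun y : ℝ => y - x := measurable_id.sub_const x
    have hmE : MeasurableSet {u | sc v * un x * un u ∈ E} := (continuous_const.mul cont_un).measurable hE
    rw [Measure.map_apply hms measurableSet_Icc, Measure.map_apply hms (hmE.inter measurableSet_Icc)] at hlt
    have e1 : (fun y : ℝ => y - x) ⁻¹' Icc (-Real.exp n) (Real.exp n) = Icc (x - Real.exp n) (x + Real.exp n) := by
      ext y; simp only [mem_preimage, mem_Icc]; constructor <;> rintro ⟨h1, h2⟩ <;> constructor <;> linarith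
    have e2 : (fun y : ℝ => y - x) ⁻¹' ({u | sc v * un x * un u ∈ E} ∩ Icc (-Real.exp n) (Real.exp n)) =
        {y | sc v * un y ∈ E} ∩ Icc (x - Real.exp n) (x + Real.exp n) := by
      rw [preimage_inter, e1]
      congr 1
      ext y
      simp only [mem_preimage, mem_setOf_eq]
      rw [mul_un_un, add_sub_cancel]
    rw [e1, e2] at hlt
    rw [← ENNReal.div_eq_inv_mul]
    exact ENNReal.div_le_of_le_mul' hlt.le

end DMXM

open DMXM

theorem stmtDMX (hMxL : StmtDMxL) (hKer : StmtDKer) (hWin : StmtDWin) : StmtDMX := by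
  intro hW
  obtain ⟨C, hC⟩ := hMxL
  have hWin' := hWin hW
  refine ⟨10 * C, fun μ lf D hμ hl E hE hEg => ?_⟩
  have hfin : IsFiniteMeasure (mX μ) := hW.fin μ hμ
  have hb : ∀ N : ℕ, mX μ (BN lf D E N) ≤ (10 * C : ℕ) * mX μ E := by
    intro N
    have h1 : ∀ j : ℕ, 10⁻¹ * mX μ (BN lf D E N) ≤
        C * (ENNReal.ofReal (1 + Real.exp N * (1 / ((j : ℝ) + 1))) * mX μ E) := by
      intro j
      have hj : (0 : ℝ) < (j : ℝ) + 1 := by positivity
      have := window hW hKer hWin' hC hμ hl hE hEg N hj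
      have e : ((j : ℝ) + 1 + Real.exp N) / ((j : ℝ) + 1) = 1 + Real.exp N * (1 / ((j : ℝ) + 1)) := by
        field_simp
      rwa [e] at this
    have h2 : Tendsto (fun j : ℕ => (C : ℝ≥0∞) * (ENNReal.ofReal (1 + Real.exp N * (1 / ((j : ℝ) + 1))) * mX μ E))
        atTop (𝓝 (C * (ENNReal.ofReal (1 + Real.exp N * 0) * mX μ E))) := by
      refine ENNReal.Tendsto.const_mul (ENNReal.Tendsto.mul_const ?_ (Or.inr (measure_ne_top _ _)))
        (Or.inr (ENNReal.natCast_ne_top C))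
      refine ENNReal.tendsto_ofReal (tendsto_const_nhds.add (tendsto_one_div_add_atTop_nhds_zero_nat.const_mul _))
    have h3 := ge_of_tendsto' h2 h1
    rw [mul_zero, add_zero, ENNReal.ofReal_one, one_mul, ← ENNReal.div_eq_inv_mul,
      ENNReal.div_le_iff (by norm_num) (by norm_num)] at h3
    refine h3.trans (le_of_eq ?_)
    push_cast
    ring
  have hsub : {g | ∃ n : ℕ, lf g (Icc (-Real.exp n) (Real.exp n)) <
      10 * lf g ({u | g * un u ∈ E} ∩ Icc (-Real.exp n) (Real.exp n))} ⊆ Dᶜ ∪ ⋃ N, BN lf D E N := by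
    rintro g ⟨n, hn⟩
    by_cases hg : g ∈ D
    · exact Or.inr (mem_iUnion.mpr ⟨n, hg, n, le_rfl, hn⟩)
    · exact Or.inl hg
  have hmono : Monotone (BN lf D E) := by
    rintro a b hab g ⟨hg, n, hn, h⟩
    exact ⟨hg, n, hn.trans hab, h⟩
  have hD : mX μ Dᶜ = 0 := (hW.null μ Dᶜ hl.mD.compl).mpr hl.nD
  calc mX μ _ ≤ mX μ (Dᶜ ∪ ⋃ N, BN lf D E N) := measure_mono hsub
    _ ≤ mX μ Dᶜ + mX μ (⋃ N, BN lf D E N) := measure_union_le _ _
    _ = ⨆ N, mX μ (BN lf D E N) := by rw [hD, zero_add, hmono.measure_iUnion]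
    _ ≤ _ := iSup_le hb

end
end Pool.Agent.A54.QE
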