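import Pool.Agent.Lib.QE.SpecD2

/-!
# Package `QE`, block D: measurability of the set with a quasi-period in a compact range
-/

set_option autoImplicit false

namespace Pool.Agent.A54.QE

open MeasureTheory Filter Topology Set
open scoped ENNReal MatrixGroups
open Pool.Agent.A54.Dyn (G fl base ze io mk4 Inv HM)

noncomputable section

namespace DMea_aux

/-- A common zero of countably many continuous functions on a compact set, by countably many conditions. -/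
lemma key {T Q : Set ℝ} (hT : IsCompact T) (hQ : Q ⊆ T) (hd : T ⊆ closure Q) (Δ : ℕ → ℝ → ℝ)
    (hc : ∀ i, Continuous (Δ i)) (h0 : ∀ i τ, 0 ≤ Δ i τ) :
    (∃ τ ∈ T, ∀ i, Δ i τ = 0) ↔ ∀ n : ℕ, ∃ τ ∈ Q, ∀ i < n, Δ i τ < 1 / ((n : ℝ) + 1) := by
  constructor
  · rintro ⟨τ, hτ, hz⟩ n
    have ho : IsOpen (⋂ i ∈ Finset.range n, {t : ℝ | Δ i t < 1 / ((n : ℝ) + 1)}) :=
      isOpen_biInter_finset fun i _ => isOpen_lt (hc i) continuous_const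
    have hm : τ ∈ ⋂ i ∈ Finset.range n, {t : ℝ | Δ i t < 1 / ((n : ℝ) + 1)} := by
      rw [mem_iInter₂]
      intro i _
      rw [mem_ofPred_eq, hz i]
      positivity
    obtain ⟨t, ht1, ht2⟩ := mem_closure_iff.1 (hd hτ) _ ho hm
    rw [mem_iInter₂] at ht1
    exact ⟨t, ht2, fun i hi => ht1 i (Finset.mem_range.2 hi)⟩
  · intro h
    choose t ht1 ht2 using h
    obtain ⟨a, ha, φ, hφ, hlim⟩ := hT.tendsto_subseq fun n => hQ (ht1 n)
    refine ⟨a, ha, fun i => ?_⟩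
    have h1 : Tendsto (fun n => Δ i (t (φ n))) atTop (𝓝 (Δ i a)) :=
      ((hc i).tendsto a).comp hlim
    have h2 : Tendsto (fun n => Δ i (t (φ n))) atTop (𝓝 0) := by
      have h3 : Tendsto (fun n : ℕ => 1 / ((n : ℝ) + 1)) atTop (𝓝 0) :=
        tendsto_one_div_add_atTop_nhds_zero_nat
      refine tendsto_of_tendsto_of_tendsto_of_le_of_le' tendsto_const_nhds h3
        (Eventually.of_forall fun n => h0 _ _) ?_
      filter_upwards [eventually_gt_atTop i] with n hn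
      have h4 : n ≤ φ n := hφ.le_apply
      refine (ht2 (φ n) i (lt_of_lt_of_le hn h4)).le.trans ?_
      apply one_div_le_one_div_of_le (by positivity)
      have h5 : (n : ℝ) ≤ φ n := by exact_mod_cast h4
      linarith
    exact tendsto_nhds_unique h1 h2

lemma comp_T (α β : ℝ) : IsCompact {τ : ℝ | α ≤ |τ| ∧ |τ| ≤ β} := by
  have h1 : IsClosed {τ : ℝ | α ≤ |τ| ∧ |τ| ≤ β} :=
    (isClosed_le continuous_const continuous_abs).inter
      (isClosed_le continuous_abs continuous_const)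
  refine (isCompact_Icc (a := -β) (b := β)).of_isClosed_subset h1 ?_
  rintro τ ⟨-, h2⟩
  exact abs_le.1 h2

lemma dense_T {α β : ℝ} (hα : 0 < α) (hαβ : α < β) : {τ : ℝ | α ≤ |τ| ∧ |τ| ≤ β} ⊆
    closure {τ : ℝ | (α ≤ |τ| ∧ |τ| ≤ β) ∧ ∃ q : ℚ, (q : ℝ) = τ} := by
  have hpos : ∀ τ : ℝ, α ≤ τ → τ ≤ β → ∀ ε : ℝ, 0 < ε → ∃ q : ℚ, α ≤ (q : ℝ) ∧ (q : ℝ) ≤ β ∧
      |τ - q| < ε := by
    intro τ h1 h2 ε hε
    obtain ⟨q, hq1, hq2⟩ := exists_rat_btwn (show max α (τ - ε) < min β (τ + ε) from by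
      rw [max_lt_iff, lt_min_iff, lt_min_iff]
      exact ⟨⟨hαβ, by linarith⟩, by linarith, by linarith⟩)
    rw [max_lt_iff] at hq1
    rw [lt_min_iff] at hq2
    refine ⟨q, hq1.1.le, hq2.1.le, ?_⟩
    rw [abs_lt]
    constructor <;> linarith [hq1.2, hq2.2]
  rintro τ ⟨h1, h2⟩
  rw [Metric.mem_closure_iff]
  intro ε hε
  rcases le_total 0 τ with h | h
  · rw [abs_of_nonneg h] at h1 h2
    obtain ⟨q, hq1, hq2, hq3⟩ := hpos τ h1 h2 ε hε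
    have hq0 : (0 : ℝ) ≤ q := hα.le.trans hq1
    refine ⟨q, ⟨?_, q, rfl⟩, ?_⟩
    · rw [abs_of_nonneg hq0]
      exact ⟨hq1, hq2⟩
    · rw [Real.dist_eq]
      exact hq3
  · rw [abs_of_nonpos h] at h1 h2
    obtain ⟨q, hq1, hq2, hq3⟩ := hpos (-τ) h1 h2 ε hε
    have hq0 : (0 : ℝ) ≤ q := hα.le.trans hq1
    refine ⟨-q, ⟨?_, -q, by push_cast; rfl⟩, ?_⟩
    · rw [abs_neg, abs_of_nonneg hq0]
      exact ⟨hq1, hq2⟩
    · rw [Real.dist_eq, ← abs_neg]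
      have h3 : -(τ - -(q : ℝ)) = -τ - q := by ring
      rw [h3]
      exact hq3

/-- the defect of the condition number `i` -/
def dlt (m : Measure ℝ) (i : ℚ × ℚ × ℚ × ℚ) (τ : ℝ) : ℝ :=
  |(m (Ioo ((i.1 : ℝ) + τ) ((i.2.1 : ℝ) + τ))).toReal *
      (m (Ioo (i.2.2.1 : ℝ) (i.2.2.2 : ℝ))).toReal -
    (m (Ioo (i.1 : ℝ) (i.2.1 : ℝ))).toReal *
      (m (Ioo ((i.2.2.1 : ℝ) + τ) ((i.2.2.2 : ℝ) + τ))).toReal|

lemma dlt_cont (hCont : StmtDCont) {m : Measure ℝ} (hm : IsFiniteMeasureOnCompacts m)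
    (hna : ∀ x, m {x} = 0) (i : ℚ × ℚ × ℚ × ℚ) : Continuous (dlt m i) := by
  have h1 : ∀ a b : ℝ, Continuous fun τ : ℝ => (m (Ioo (a + τ) (b + τ))).toReal := by
    intro a b
    refine ENNReal.continuousOn_toReal.comp_continuous (hCont m hm hna a b).1 fun τ => ?_
    exact measure_Ioo_lt_top.ne
  unfold dlt
  exact (((h1 _ _).mul continuous_const).sub (continuous_const.mul (h1 _ _))).abs

lemma qp_iff (hQc : StmtDQc) {m : Measure ℝ} (hm : IsFiniteMeasureOnCompacts m) (hm0 : m ≠ 0)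
    (τ : ℝ) : QP m τ ↔ ∀ i, dlt m i τ = 0 := by
  have hf : ∀ a b : ℝ, m (Ioo a b) ≠ ⊤ := fun a b => measure_Ioo_lt_top.ne
  have h1 : ∀ i : ℚ × ℚ × ℚ × ℚ, dlt m i τ = 0 ↔
      m (Ioo ((i.1 : ℝ) + τ) ((i.2.1 : ℝ) + τ)) * m (Ioo (i.2.2.1 : ℝ) (i.2.2.2 : ℝ)) =
        m (Ioo (i.1 : ℝ) (i.2.1 : ℝ)) *
          m (Ioo ((i.2.2.1 : ℝ) + τ) ((i.2.2.2 : ℝ) + τ)) := by
    intro i
    unfold dlt
    rw [abs_eq_zero, sub_eq_zero, ← ENNReal.toReal_mul, ← ENNReal.toReal_mul,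
      ENNReal.toReal_eq_toReal_iff' (ENNReal.mul_ne_top (hf _ _) (hf _ _))
        (ENNReal.mul_ne_top (hf _ _) (hf _ _))]
  rw [hQc m hm hm0 τ]
  constructor
  · intro h i
    exact (h1 i).2 (h i.1 i.2.1 i.2.2.1 i.2.2.2)
  · intro h a b a' b'
    exact (h1 (a, b, a', b')).1 (h (a, b, a', b'))

lemma dlt_meas {lf : G → Measure ℝ} (hlf : Measurable lf) (i : ℚ × ℚ × ℚ × ℚ) (τ : ℝ) :
    Measurable fun g => dlt (lf g) i τ := by
  have h1 : ∀ a b : ℝ, Measurable fun g => (lf g (Ioo a b)).toReal := fun a b =>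
    ((Measure.measurable_coe measurableSet_Ioo).comp hlf).ennreal_toReal
  unfold dlt
  have h2 := (((h1 ((i.1 : ℝ) + τ) ((i.2.1 : ℝ) + τ)).mul (h1 (i.2.2.1 : ℝ) (i.2.2.2 : ℝ))).sub
    ((h1 (i.1 : ℝ) (i.2.1 : ℝ)).mul (h1 ((i.2.2.1 : ℝ) + τ) ((i.2.2.2 : ℝ) + τ))))
  exact continuous_abs.measurable.comp h2

end DMea_aux

open DMea_aux in
theorem stmtDMea (_hKer : StmtDKer) (hCont : StmtDCont) (hQc : StmtDQc) : StmtDMea := by
  intro μ lf D hL hDn α β hα hαβ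
  obtain ⟨e, he⟩ := exists_surjective_nat (ℚ × ℚ × ℚ × ℚ)
  have h1 : {g | g ∈ Dn lf D ∧ ∃ τ : ℝ, α ≤ |τ| ∧ |τ| ≤ β ∧ QP (lf g) τ} =
      Dn lf D ∩ ⋂ n : ℕ, ⋃ q : ℚ, ⋃ _ : α ≤ |(q : ℝ)| ∧ |(q : ℝ)| ≤ β,
        ⋂ i ∈ Finset.range n, {g | dlt (lf g) (e i) q < 1 / ((n : ℝ) + 1)} := by
    ext g
    rw [mem_ofPred_eq, mem_inter_iff]
    refine and_congr_right fun hg => ?_
    have hfg : IsFiniteMeasureOnCompacts (lf g) := hL.fin g
    have hne : lf g ≠ 0 := hL.ne g hg.1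
    have h2 : (∃ τ : ℝ, α ≤ |τ| ∧ |τ| ≤ β ∧ QP (lf g) τ) ↔
        ∃ τ ∈ {τ : ℝ | α ≤ |τ| ∧ |τ| ≤ β}, ∀ i, dlt (lf g) (e i) τ = 0 := by
      constructor
      · rintro ⟨τ, ha, hb, hq⟩
        exact ⟨τ, ⟨ha, hb⟩, fun i => (qp_iff hQc hfg hne τ).1 hq (e i)⟩
      · rintro ⟨τ, ⟨ha, hb⟩, hq⟩
        refine ⟨τ, ha, hb, (qp_iff hQc hfg hne τ).2 fun i => ?_⟩
        obtain ⟨k, rfl⟩ := he i
        exact hq k
    rw [h2, key (comp_T α β) (fun τ hτ => hτ.1) (dense_T hα hαβ) (fun i => dlt (lf g) (e i))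
      (fun i => dlt_cont hCont hfg hg.2 (e i)) (fun i τ => abs_nonneg _)]
    simp only [mem_iInter, mem_iUnion, mem_ofPred_eq, Finset.mem_range, exists_prop]
    constructor
    · intro h n
      obtain ⟨τ, ⟨hτ, q, rfl⟩, hi⟩ := h n
      exact ⟨q, hτ, hi⟩
    · intro h n
      obtain ⟨q, hq, hi⟩ := h n
      exact ⟨q, ⟨hq, q, rfl⟩, hi⟩
  rw [h1]
  refine hDn.inter (MeasurableSet.iInter fun n => MeasurableSet.iUnion fun q =>
    MeasurableSet.iUnion fun _ => Finset.measurableSet_biInter _ fun i _ => ?_)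
  exact measurableSet_lt (dlt_meas hL.meas (e i) q) measurable_const

end

end Pool.Agent.A54.QE
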