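import Pool.Agent.Lib.QE.SpecD

/-!
# Package `QE`, block D, module DMul: the multiplier of a small translation tends to one
-/

set_option autoImplicit false

namespace Pool.Agent.A54.QE

open MeasureTheory Filter Topology Set
open scoped ENNReal

namespace DMul_aux

theorem map_Icc (m : Measure ℝ) (σ a b : ℝ) :
    (m.map fun x => x - σ) (Icc a b) = m (Icc (a + σ) (b + σ)) := by
  have hmeas : Measurable fun x : ℝ => x - σ := measurable_id.sub_const σ
  rw [Measure.map_apply hmeas measurableSet_Icc]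
  congr 1
  ext x
  simp only [mem_preimage, mem_Icc]
  constructor
  · rintro ⟨h1, h2⟩
    exact ⟨by linarith, by linarith⟩
  · rintro ⟨h1, h2⟩
    exact ⟨by linarith, by linarith⟩

theorem pos (m : Measure ℝ) (hm0 : m ≠ 0) (k : ℝ → ℝ≥0∞)
    (hk : ∀ σ, (m.map fun x => x - σ) = k σ • m) (a b : ℝ) (hab : a < b) : m (Icc a b) ≠ 0 := by
  intro h0
  apply hm0
  have h1 : ∀ σ, m (Icc (a + σ) (b + σ)) = 0 := by
    intro σ
    rw [← map_Icc, hk, Measure.smul_apply, h0, smul_zero]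
  rw [← Measure.measure_univ_eq_zero]
  have hba : 0 < b - a := by linarith
  have h2 : (univ : Set ℝ) ⊆ ⋃ n : ℤ, Icc (a + n * (b - a)) (b + n * (b - a)) := by
    intro x _
    rw [mem_iUnion]
    refine ⟨⌊(x - a) / (b - a)⌋, ?_, ?_⟩
    · have h3 := Int.floor_le ((x - a) / (b - a))
      rw [le_div_iff₀ hba] at h3
      linarith
    · have h3 := (Int.lt_floor_add_one ((x - a) / (b - a))).le
      rw [div_le_iff₀ hba] at h3
      linarith
  refine le_antisymm ((measure_mono h2).trans ?_) zero_le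
  rw [measure_iUnion_null fun n : ℤ => h1 (n * (b - a))]

end DMul_aux

open DMul_aux in
theorem stmtDMul : StmtDCont → StmtDMul := by
  intro hCont m hm hm0 hat hqp
  choose k hk0 hkt hk using hqp
  refine ⟨fun a b hab => pos m hm0 k hk a b hab, fun τ => ?_⟩
  have hfin : ∀ x y : ℝ, m (Icc x y) ≠ ⊤ := fun x y => isCompact_Icc.measure_lt_top.ne
  have hkey : ∀ σ r : ℝ, m (Icc (-r + σ) (r + σ)) = k σ * m (Icc (-r) r) := by
    intro σ r
    rw [← map_Icc, hk, Measure.smul_apply, smul_eq_mul]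
  have hone : m (Icc (-1 : ℝ) 1) ≠ 0 := pos m hm0 k hk _ _ (by norm_num)
  have e : (fun n : ℕ => m (Icc (Real.exp (-n) * (-1 + τ)) (Real.exp (-n) * (1 + τ))) /
      m (Icc (-Real.exp (-n)) (Real.exp (-n)))) =
      fun n : ℕ => m (Icc (-1 + Real.exp (-n) * τ) (1 + Real.exp (-n) * τ)) /
        m (Icc (-1 : ℝ) 1) := by
    funext n
    have hr : 0 < Real.exp (-(n : ℝ)) := Real.exp_pos _
    have e1 : Real.exp (-(n : ℝ)) * (-1 + τ) = -Real.exp (-n) + Real.exp (-n) * τ := by ring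
    have e2 : Real.exp (-(n : ℝ)) * (1 + τ) = Real.exp (-n) + Real.exp (-n) * τ := by ring
    rw [e1, e2, hkey, hkey]
    have hp : m (Icc (-Real.exp (-(n : ℝ))) (Real.exp (-n))) ≠ 0 :=
      pos m hm0 k hk _ _ (by linarith)
    rw [mul_div_assoc, mul_div_assoc, ENNReal.div_self hp (hfin _ _),
      ENNReal.div_self hone (hfin _ _)]
  rw [e]
  have h1 : Tendsto (fun n : ℕ => Real.exp (-(n : ℝ)) * τ) atTop (𝓝 0) := by
    have h2 : Tendsto (fun n : ℕ => Real.exp (-(n : ℝ))) atTop (𝓝 0) :=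
      Real.tendsto_exp_neg_atTop_nhds_zero.comp tendsto_natCast_atTop_atTop
    simpa using h2.mul_const τ
  have h2 := ((hCont m hm hat (-1) 1).2.tendsto 0).comp h1
  have h3 := ENNReal.Tendsto.div_const h2 (Or.inr hone) (b := m (Icc (-1 : ℝ) 1))
  have h4 : m (Icc (-1 + 0 : ℝ) (1 + 0)) / m (Icc (-1 : ℝ) 1) = 1 := by
    rw [add_zero, add_zero]
    exact ENNReal.div_self hone (hfin _ _)
  rw [h4] at h3
  exact h3

end Pool.Agent.A54.QE
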