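import Pool.Agent.Lib.QE.SpecD

/-!
# Package `QE`, module `DMxL`: weighted maximal inequality on the line
-/

set_option autoImplicit false

namespace Pool.Agent.A54.QE

open MeasureTheory Filter Topology Set
open scoped ENNReal

theorem stmtDMxL : StmtDBes → StmtDMxL := by
  rintro ⟨C, hC⟩
  refine ⟨C, ?_⟩
  intro m B E θ R h H hB hE hh hH hh0 hH0 hhH hr
  rw [lintegral_eq_lintegral_meas_lt (m.restrict B) (Eventually.of_forall hh0) hh.aemeasurable,
    lintegral_eq_lintegral_meas_lt (m.restrict E) (Eventually.of_forall hH0) hH.aemeasurable,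
    ← lintegral_const_mul' _ _ (ENNReal.natCast_ne_top C)]
  refine (lintegral_const_mul_le θ _).trans ?_
  refine lintegral_mono fun t => ?_
  have h1 : (m.restrict B) {a | t < h a} = m (B ∩ {a | t < h a}) := by
    rw [Measure.restrict_apply (measurableSet_lt measurable_const hh), Set.inter_comm]
  have h2 : (m.restrict E) {a | t < H a} = m (E ∩ {a | t < H a}) := by
    rw [Measure.restrict_apply (measurableSet_lt measurable_const hH), Set.inter_comm]
  change θ * (m.restrict B) {a | t < h a} ≤ C * (m.restrict E) {a | t < H a}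
  rw [h1, h2]
  refine (hC m E (B ∩ {a | t < h a}) θ R fun x hx => hr x hx.1).trans ?_
  refine mul_le_mul' le_rfl (measure_mono (Set.inter_subset_inter_right _ ?_))
  rintro y ⟨x, hx, hxy⟩
  have h3 : |x - y| ≤ R := by rw [abs_sub_comm]; exact hxy
  exact lt_of_lt_of_le hx.2 (hhH x y h3)

end Pool.Agent.A54.QE
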