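import Pool.Agent.Lib.QE.SpecD2
import Pool.Agent.Lib.QE.ACr

/-!
# Package `QE`, block D: `StmtDNull` (helper94)
-/

set_option autoImplicit false

namespace Pool.Agent.A54.QE

open MeasureTheory Filter Topology Set
open scoped ENNReal MatrixGroups
open Pool.Agent.A54.Dyn (G fl base ze io mk4 Inv HM)

noncomputable section

theorem stmtDNull : StmtDKer → StmtDNull := by
  intro hKer μ lf hLS N hN hμN
  obtain ⟨θ, hσ, hθ0, hdis⟩ := hLS.dis
  have hmx : ∀ g : G, Measurable (fun x : ℝ => g * un x) := fun g =>
    (continuous_const.mul ACrM.cont_un).measurable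
  have hmg : Measurable (fun p : G × ℝ => p.1 * un p.2) :=
    (continuous_fst.mul (ACrM.cont_un.comp continuous_snd)).measurable
  have hval : ∀ (A : Set G), MeasurableSet A → ∀ g : G,
      ∫⁻ u, A.indicator (1 : G → ℝ≥0∞) (g * un u) ∂(lf g) = lf g {u | g * un u ∈ A} := by
    intro A hA g
    have h5 := lintegral_indicator_one (μ := lf g) (s := (fun x => g * un x) ⁻¹' A) ((hmx g) hA)
    exact h5
  have hmf : ∀ (A : Set G), MeasurableSet A → Measurable fun g : G => lf g {u | g * un u ∈ A} := by
    intro A hA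
    have h := hKer μ lf hLS (fun g u => A.indicator (1 : G → ℝ≥0∞) (g * un u))
      ((measurable_one.indicator hA).comp hmg)
    have e : (fun g : G => ∫⁻ u, A.indicator (1 : G → ℝ≥0∞) (g * un u) ∂(lf g)) =
        fun g : G => lf g {u | g * un u ∈ A} := funext fun g => hval A hA g
    rw [← e]
    exact h
  have hinv : ∀ (g : G) (x : ℝ), lf (g * un x) {u | g * un x * un u ∈ N} = lf g {u | g * un u ∈ N} := by
    intro g x
    have hset : MeasurableSet {u : ℝ | g * un x * un u ∈ N} := (hmx (g * un x)) hN
    have hsub : Measurable fun y : ℝ => y - x := measurable_id.sub_const x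
    rw [hLS.tr, Measure.map_apply hsub hset]
    congr 1
    ext u
    show g * un x * un (u - x) ∈ N ↔ g * un u ∈ N
    rw [mul_un_un, show x + (u - x) = u by ring]
  have hdis0 : ∀ (A : Set G), MeasurableSet A →
      μ A = ∫⁻ v, lf (sc v) {x | sc v * un x ∈ A} ∂θ := by
    intro A hA
    have h1 := hdis (A.indicator 1) (measurable_one.indicator hA)
    rw [lintegral_indicator_one hA] at h1
    rw [h1]
    apply lintegral_congr
    intro v
    exact hval A hA (sc v)
  -- the leaves meet `N` in null sets, for almost every leaf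
  have hN0 : ∀ᵐ v ∂θ, lf (sc v) {x | sc v * un x ∈ N} = 0 := by
    have h1 := hdis0 N hN
    rw [hμN] at h1
    have h3 := (lintegral_eq_zero_iff ((hmf N hN).comp ACrM.meas_sc)).mp h1.symm
    filter_upwards [h3] with v hv
    exact hv
  have hP : MeasurableSet {g : G | lf g {u | g * un u ∈ N} ≠ 0} :=
    (hmf N hN) (measurableSet_singleton (0 : ℝ≥0∞)).compl
  have hfin : μ {g : G | lf g {u | g * un u ∈ N} ≠ 0} = 0 := by
    rw [hdis0 _ hP]
    have h4 : (fun v => lf (sc v) {x | sc v * un x ∈ {g : G | lf g {u | g * un u ∈ N} ≠ 0}}) =ᵐ[θ]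
        fun _ => (0 : ℝ≥0∞) := by
      filter_upwards [hN0] with v hv
      have h5 : {x : ℝ | lf (sc v * un x) {u | sc v * un x * un u ∈ N} ≠ 0} = ∅ := by
        apply eq_empty_of_forall_notMem
        intro x hx
        exact hx ((hinv (sc v) x).trans hv)
      show lf (sc v) {x : ℝ | lf (sc v * un x) {u | sc v * un x * un u ∈ N} ≠ 0} = 0
      rw [h5, measure_empty]
    rw [lintegral_congr_ae h4, lintegral_zero]
  rw [ae_iff]
  exact hfin

end

end Pool.Agent.A54.QE
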