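import Pool.Agent.Lib.QE.SpecD2

/-!
# Package `QE`, module `DOne`: one step of the shear (helper65)
-/

set_option autoImplicit false

namespace Pool.Agent.A54.QE

open MeasureTheory Filter Topology Set
open scoped ENNReal MatrixGroups
open Pool.Agent.A54.Dyn (G fl base ze io mk4 Inv HM)

noncomputable section

namespace DOne_aux

private lemma exp_lower : (1 : ℝ) / 8 ≤ Real.exp (-2) := by
  have h1 : Real.exp 1 < 2.7182818286 := Real.exp_one_lt_d9
  have h2 : Real.exp 2 = Real.exp 1 * Real.exp 1 := by rw [← Real.exp_add]; norm_num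
  have h0 : 0 < Real.exp 1 := Real.exp_pos 1
  have h3 : Real.exp 2 ≤ 8 := by
    rw [h2]
    nlinarith
  rw [Real.exp_neg, one_div]
  exact inv_anti₀ (Real.exp_pos 2) h3

private lemma rat_near (z ρ : ℝ) (hz : |z| ≤ 1) (hρ : 0 < ρ) (hρ1 : ρ ≤ 1) :
    ∃ q : ℚ, |(q : ℝ)| ≤ 1 ∧ |z - q| ≤ ρ := by
  obtain ⟨h1, h2⟩ := abs_le.1 hz
  rcases le_or_gt 0 z with h | h
  · obtain ⟨q, hq1, hq2⟩ := exists_rat_btwn (show z - ρ < z by linarith)
    refine ⟨q, abs_le.2 ⟨by linarith, by linarith⟩, abs_le.2 ⟨by linarith, by linarith⟩⟩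
  · obtain ⟨q, hq1, hq2⟩ := exists_rat_btwn (show z < z + ρ by linarith)
    refine ⟨q, abs_le.2 ⟨by linarith, by linarith⟩, abs_le.2 ⟨by linarith, by linarith⟩⟩

private lemma map_Icc (m : Measure ℝ) (k a b : ℝ) :
    (m.map fun x => Real.exp (-k) * x) (Icc a b) = m (Icc (Real.exp k * a) (Real.exp k * b)) := by
  rw [Measure.map_apply (by fun_prop) measurableSet_Icc]
  congr 1
  ext x
  have hk : Real.exp (-k) * Real.exp k = 1 := by rw [← Real.exp_add]; simp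
  have hp : 0 < Real.exp k := Real.exp_pos k
  have hn : 0 < Real.exp (-k) := Real.exp_pos _
  simp only [mem_preimage, mem_Icc]
  constructor
  · rintro ⟨h1, h2⟩
    constructor
    · have := mul_le_mul_of_nonneg_left h1 hp.le
      have h3 : Real.exp k * (Real.exp (-k) * x) = x := by
        rw [← mul_assoc, mul_comm (Real.exp k), hk, one_mul]
      linarith
    · have := mul_le_mul_of_nonneg_left h2 hp.le
      have h3 : Real.exp k * (Real.exp (-k) * x) = x := by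
        rw [← mul_assoc, mul_comm (Real.exp k), hk, one_mul]
      linarith
  · rintro ⟨h1, h2⟩
    constructor
    · have := mul_le_mul_of_nonneg_left h1 hn.le
      have h3 : Real.exp (-k) * (Real.exp k * a) = a := by rw [← mul_assoc, hk, one_mul]
      linarith
    · have := mul_le_mul_of_nonneg_left h2 hn.le
      have h3 : Real.exp (-k) * (Real.exp k * b) = b := by rw [← mul_assoc, hk, one_mul]
      linarith

private lemma ind_zero (A : Set G) (g : G) (h : (Aᶜ).indicator (fun _ => (1 : ℕ)) g = 0) : g ∈ A := by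
  by_contra hn
  rw [indicator_of_mem (show g ∈ Aᶜ from hn)] at h
  exact one_ne_zero h

end DOne_aux

open DOne_aux in
theorem stmtDOne : StmtDTime → StmtDPick → StmtDGeo → StmtDFlo → StmtDOne := by
  intro hTime hPick hGeo hFlo μ lf D hl E K ρ κ ε hE hED hρ hρ1 hκ hκ1 hε hε8 x hx y hy hxy hc hpr
  have hn00 : |(x⁻¹ * y) 0 0 - 1| ≤ ε := by simpa using hxy 0 0
  have hn01 : |(x⁻¹ * y) 0 1| ≤ ε := by simpa using hxy 0 1
  have hn10 : |(x⁻¹ * y) 1 0| ≤ ε := by simpa using hxy 1 0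
  have hn11 : |(x⁻¹ * y) 1 1 - 1| ≤ ε := by simpa using hxy 1 1
  have he1 : |(x⁻¹ * y) 0 0 - (x⁻¹ * y) 1 1| ≤ 1 := by
    obtain ⟨a1, a2⟩ := abs_le.1 hn00
    obtain ⟨b1, b2⟩ := abs_le.1 hn11
    exact abs_le.2 ⟨by linarith, by linarith⟩
  obtain ⟨s, k, hX, hY, hZ, hck, hek, hor, hcs⟩ := hTime ((x⁻¹ * y) 1 0) ((x⁻¹ * y) 0 0 - (x⁻¹ * y) 1 1)
    (fun s => ((X1 lf E K)ᶜ).indicator (fun _ => 1) (x * fl s))
    (fun s => ((X1 lf E K)ᶜ).indicator (fun _ => 1) (y * fl s))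
    (fun s => ((X2 lf E ρ)ᶜ).indicator (fun _ => 1) (x * fl s)) hc
    (hn10.trans (hε8.trans exp_lower)) he1 (fun S => (hx.2 S).1) (fun S => (hy.2 S).1) (fun S => (hx.2 S).2)
  have hx1 : x * fl s ∈ X1 lf E K := ind_zero _ _ hX
  have hy1 : y * fl s ∈ X1 lf E K := ind_zero _ _ hY
  have hx2 : x * fl ((s + k : ℕ) : ℝ) ∈ X2 lf E ρ := ind_zero _ _ hZ
  have hx2' : x * fl s * fl k ∈ X2 lf E ρ := by
    rw [mul_fl_fl, ← Nat.cast_add]
    exact hx2
  have hxD : x ∈ D := hED hx.1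
  have hyD : y ∈ D := hED hy.1
  have hx1D : x * fl s ∈ D := hED hx1.1
  -- proportionality
  have hfx : Pr (lf (x * fl s)) ((lf x).map fun t => Real.exp (-(s : ℝ)) * t) := by
    have := (hFlo μ lf D hl x hxD s).2
    simpa using this
  have hfy : Pr (lf (y * fl s)) ((lf y).map fun t => Real.exp (-(s : ℝ)) * t) := by
    have := (hFlo μ lf D hl y hyD s).2
    simpa using this
  have hf2 : Pr (lf (x * fl s * fl k)) ((lf (x * fl s)).map fun t => Real.exp (-(k : ℝ)) * t) := by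
    have := (hFlo μ lf D hl (x * fl s) hx1D k).2
    simpa using this
  have hyx : Pr (lf (y * fl s)) (lf (x * fl s)) := (hfy.trans (hpr.map _)).trans hfx.symm
  set m := lf (x * fl s) with hm
  set r := Real.exp k with hr
  have hr0 : 0 < r := Real.exp_pos _
  have hIcc : Icc (-r) r = Icc (r * (-1)) (r * 1) := by rw [mul_neg, mul_one]
  have hm0 : m (Icc (-r) r) ≠ 0 := by
    intro h0
    apply hx2'.2.1
    rw [hf2.zero_iff, map_Icc, ← hr, ← hIcc]
    exact h0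
  have hmt : m (Icc (-r) r) ≠ ⊤ := by
    haveI := hl.fin (x * fl s)
    exact (isCompact_Icc.measure_lt_top).ne
  have hz : ∀ z : ℝ, |z| ≤ 1 → 10 * m (Icc (r * (z - ρ)) (r * (z + ρ))) ≤ m (Icc (-r) r) := by
    intro z hz
    obtain ⟨q, hq1, hq2⟩ := rat_near z ρ hz hρ hρ1
    have h1 := hx2'.2.2 q hq1
    rw [hf2.le_iff, map_Icc, map_Icc, ← hr, ← hIcc] at h1
    refine le_trans (mul_le_mul_right (measure_mono ?_) 10) h1
    obtain ⟨h2, h3⟩ := abs_le.1 hq2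
    exact Icc_subset_Icc (mul_le_mul_of_nonneg_left (by linarith) hr0.le)
      (mul_le_mul_of_nonneg_left (by linarith) hr0.le)
  have hP1 : 10 * m ({u | x * fl s * un u ∈ E \ gs K} ∩ Icc (-r) r) ≤ m (Icc (-r) r) := hx1.2 k
  have hP2 : 10 * m ({u | y * fl s * un u ∈ E \ gs K} ∩ Icc (-r) r) ≤ m (Icc (-r) r) := by
    rw [← hyx.le_iff]
    exact hy1.2 k
  have hexp : Real.exp (2 * k + s) = Real.exp s * r ^ 2 := by
    rw [hr, ← Real.exp_nat_mul, ← Real.exp_add]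
    push_cast
    ring_nf
  rw [hexp] at hck hor
  set c := (x⁻¹ * y) 1 0 with hcd
  set e := (x⁻¹ * y) 0 0 - (x⁻¹ * y) 1 1 with hed
  have hs0 : 0 < Real.exp (s : ℝ) := Real.exp_pos _
  have hor' : Real.exp (-2) ≤ |e * r| ∨ Real.exp (-2) ≤ |Real.exp s * c * r ^ 2| := by
    rw [abs_mul, abs_mul, abs_mul, abs_of_pos hr0, abs_of_pos hs0, abs_of_nonneg (sq_nonneg r)]
    rcases hor with h | h
    · left
      rw [mul_comm]
      exact h
    · right
      calc Real.exp (-2) ≤ Real.exp s * r ^ 2 * |c| := h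
        _ = Real.exp s * |c| * r ^ 2 := by ring
  obtain ⟨u, hur, hu1, hu2, hq⟩ := hPick m {u | x * fl s * un u ∈ E \ gs K} {u | y * fl s * un u ∈ E \ gs K} r ρ κ
    (Real.exp (-(s : ℝ)) * (x⁻¹ * y) 0 1) e (Real.exp s * c) hr0 hρ hρ1 hκ hκ1 hor' hm0 hmt hP1 hP2 hz
  have hx'E : x * fl s * un u ∈ E := (hE.uni _ _).2 hx1.1
  have hy'E : y * fl s * un u ∈ E := (hE.uni _ _).2 hy1.1
  have hx'K : x * fl s * un u ∈ gs K := by
    by_contra hn
    exact hu1 ⟨hx'E, hn⟩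
  have hy'K : y * fl s * un u ∈ gs K := by
    by_contra hn
    exact hu2 ⟨hy'E, hn⟩
  have hpr' : Pr (lf (x * fl s * un u)) (lf (y * fl s * un u)) := by
    rw [hl.tr, hl.tr]
    exact hyx.symm.map _
  obtain ⟨g00, g01, g10, g11⟩ := hGeo x y s u
  -- the bounds
  set A := Real.exp s * |c| with hA
  have hA0 : 0 ≤ A := mul_nonneg hs0.le (abs_nonneg _)
  have hAε : A ≤ √ε := hcs.trans (Real.sqrt_le_sqrt hn10)
  have hA1 : r ^ 2 * A ≤ 1 := by
    calc r ^ 2 * A = Real.exp s * r ^ 2 * |c| := by rw [hA]; ring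
      _ ≤ 1 := hck
  have hrA : r * A ≤ √(√ε) := by
    apply Real.le_sqrt_of_sq_le
    calc (r * A) ^ 2 = (r ^ 2 * A) * A := by ring
      _ ≤ 1 * A := mul_le_mul_of_nonneg_right hA1 hA0
      _ = A := one_mul _
      _ ≤ √ε := hAε
  have hcu : |u * (Real.exp s * c)| ≤ √(√ε) := by
    rw [abs_mul, abs_mul, abs_of_pos hs0]
    exact (mul_le_mul_of_nonneg_right hur hA0).trans hrA
  refine ⟨_, hx'K, _, hy'K, hpr', ?_, ?_, ?_, ?_, ?_⟩
  · rw [g01]
    exact hq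
  · rw [g01]
    have h1 : |Real.exp (-(s : ℝ)) * (x⁻¹ * y) 0 1| ≤ 1 := by
      rw [abs_mul, abs_of_pos (Real.exp_pos _)]
      have h2 : Real.exp (-(s : ℝ)) ≤ 1 := Real.exp_le_one_iff.2 (by simp)
      calc Real.exp (-(s : ℝ)) * |(x⁻¹ * y) 0 1| ≤ 1 * |(x⁻¹ * y) 0 1| :=
            mul_le_mul_of_nonneg_right h2 (abs_nonneg _)
        _ ≤ 1 := by linarith
    have h2 : |e * u| ≤ 1 := by
      rw [abs_mul]
      calc |e| * |u| ≤ |e| * r := mul_le_mul_of_nonneg_left hur (abs_nonneg _)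
        _ = r * |e| := mul_comm _ _
        _ ≤ 1 := hek
    have h3 : |Real.exp s * c * u ^ 2| ≤ 1 := by
      rw [abs_mul, abs_mul, abs_of_pos hs0, abs_of_nonneg (sq_nonneg u)]
      have h4 : u ^ 2 ≤ r ^ 2 := by
        rw [← sq_abs u]
        exact pow_le_pow_left₀ (abs_nonneg _) hur 2
      calc Real.exp s * |c| * u ^ 2 ≤ Real.exp s * |c| * r ^ 2 := mul_le_mul_of_nonneg_left h4 hA0
        _ = r ^ 2 * A := by rw [hA]; ring
        _ ≤ 1 := hA1
    calc |Real.exp (-(s : ℝ)) * (x⁻¹ * y) 0 1 + e * u - Real.exp s * c * u ^ 2|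
        ≤ |Real.exp (-(s : ℝ)) * (x⁻¹ * y) 0 1 + e * u| + |Real.exp s * c * u ^ 2| := abs_sub _ _
      _ ≤ |Real.exp (-(s : ℝ)) * (x⁻¹ * y) 0 1| + |e * u| + |Real.exp s * c * u ^ 2| := by
          linarith [abs_add_le (Real.exp (-(s : ℝ)) * (x⁻¹ * y) 0 1) (e * u)]
      _ ≤ 3 := by linarith
  · rw [g00]
    calc |(x⁻¹ * y) 0 0 - u * (Real.exp s * c) - 1| = |((x⁻¹ * y) 0 0 - 1) - u * (Real.exp s * c)| := by
          congr 1; ring
      _ ≤ |(x⁻¹ * y) 0 0 - 1| + |u * (Real.exp s * c)| := abs_sub _ _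
      _ ≤ ε + √(√ε) := add_le_add hn00 hcu
  · rw [g10, abs_mul, abs_of_pos hs0]
    exact hAε
  · rw [g11]
    calc |(x⁻¹ * y) 1 1 + u * (Real.exp s * c) - 1| = |((x⁻¹ * y) 1 1 - 1) + u * (Real.exp s * c)| := by
          congr 1; ring
      _ ≤ |(x⁻¹ * y) 1 1 - 1| + |u * (Real.exp s * c)| := abs_add_le _ _
      _ ≤ ε + √(√ε) := add_le_add hn11 hcu

end

end Pool.Agent.A54.QE
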