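import Pool.Agent.Lib.QE.SpecD

/-!
# Package `QE`, module `DPick`: choice of the point on the leaf (helper97)
-/

set_option autoImplicit false

namespace Pool.Agent.A54.QE

open MeasureTheory Filter Topology Set
open scoped ENNReal MatrixGroups

noncomputable section

theorem stmtDPick : StmtDPoly → StmtDPick := by
  intro hPoly m P₁ P₂ r ρ κ b e c hr hρ hρ1 hκ hκ1 hAC hm0 hmt h1 h2 h3
  by_contra hcon
  push Not at hcon
  obtain ⟨z₁, z₂, hz₁, hz₂, hz⟩ := hPoly ρ κ b (e * r) (c * r ^ 2) hρ hρ1 hκ hκ1 hAC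
  have key : ∀ z z' : ℝ, |z - z'| ≤ ρ → r * z ∈ Icc (r * (z' - ρ)) (r * (z' + ρ)) := by
    intro z z' h
    obtain ⟨h4, h5⟩ := abs_le.1 h
    exact ⟨mul_le_mul_of_nonneg_left (by linarith) hr.le, mul_le_mul_of_nonneg_left (by linarith) hr.le⟩
  have hcov : Icc (-r) r ⊆ (P₁ ∩ Icc (-r) r) ∪ (P₂ ∩ Icc (-r) r) ∪
      Icc (r * (z₁ - ρ)) (r * (z₁ + ρ)) ∪ Icc (r * (z₂ - ρ)) (r * (z₂ + ρ)) := by
    intro u hu
    by_cases hu1 : u ∈ P₁
    · exact Or.inl (Or.inl (Or.inl ⟨hu1, hu⟩))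
    by_cases hu2 : u ∈ P₂
    · exact Or.inl (Or.inl (Or.inr ⟨hu2, hu⟩))
    have h4 := hcon u (abs_le.2 ⟨hu.1, hu.2⟩) hu1 hu2
    have h5 : r * (u / r) = u := by field_simp
    have h6 : |u / r| ≤ 1 := by
      rw [abs_div, abs_of_pos hr, div_le_one hr]
      exact abs_le.2 ⟨hu.1, hu.2⟩
    have h7 : |b + e * r * (u / r) - c * r ^ 2 * (u / r) ^ 2| < κ := by
      have h8 : b + e * r * (u / r) - c * r ^ 2 * (u / r) ^ 2 =
          b + e * (r * (u / r)) - c * (r * (u / r)) ^ 2 := by ring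
      rw [h8, h5]
      exact h4
    rcases hz (u / r) h6 h7 with h9 | h9
    · have h10 := key _ _ h9
      rw [h5] at h10
      exact Or.inl (Or.inr h10)
    · have h10 := key _ _ h9
      rw [h5] at h10
      exact Or.inr h10
  have h4 : m (Icc (-r) r) ≤ m (P₁ ∩ Icc (-r) r) + m (P₂ ∩ Icc (-r) r) +
      m (Icc (r * (z₁ - ρ)) (r * (z₁ + ρ))) + m (Icc (r * (z₂ - ρ)) (r * (z₂ + ρ))) :=
    (measure_mono hcov).trans ((measure_union_le _ _).trans (add_le_add ((measure_union_le _ _).trans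
      (add_le_add (measure_union_le _ _) le_rfl)) le_rfl))
  have h5 : 10 * m (Icc (-r) r) ≤ 4 * m (Icc (-r) r) := by
    calc 10 * m (Icc (-r) r) ≤ 10 * (m (P₁ ∩ Icc (-r) r) + m (P₂ ∩ Icc (-r) r) +
          m (Icc (r * (z₁ - ρ)) (r * (z₁ + ρ))) + m (Icc (r * (z₂ - ρ)) (r * (z₂ + ρ)))) :=
          mul_le_mul_right h4 10
      _ = 10 * m (P₁ ∩ Icc (-r) r) + 10 * m (P₂ ∩ Icc (-r) r) +
          10 * m (Icc (r * (z₁ - ρ)) (r * (z₁ + ρ))) + 10 * m (Icc (r * (z₂ - ρ)) (r * (z₂ + ρ))) := by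
          rw [mul_add, mul_add, mul_add]
      _ ≤ m (Icc (-r) r) + m (Icc (-r) r) + m (Icc (-r) r) + m (Icc (-r) r) :=
          add_le_add (add_le_add (add_le_add h1 h2) (h3 z₁ hz₁)) (h3 z₂ hz₂)
      _ = 4 * m (Icc (-r) r) := by ring
  have h6 : (10 : ℝ≥0∞) ≤ 4 := (ENNReal.mul_le_mul_iff_left hm0 hmt).1 h5
  have h7 : (10 : ℕ) ≤ 4 := by exact_mod_cast h6
  omega

end

end Pool.Agent.A54.QE
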