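import Pool.Agent.Lib.QE.SpecD

/-!
# Block D, module `DPoly`: a quadratic polynomial is small only near two points
-/

set_option autoImplicit false

namespace Pool.Agent.A54.QE

open MeasureTheory Filter Topology Set

noncomputable section

namespace DPoly_aux

/-- two points of the sublevel set at distance more than `ρ` -/
lemma pair {ρ κ b A C x y : ℝ} (hρ : 0 < ρ) (hx : |b + A * x - C * x ^ 2| < κ)
    (hy : |b + A * y - C * y ^ 2| < κ) (hxy : ρ < |x - y|) : |A - C * (x + y)| * ρ < 2 * κ := by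
  have h1 : |(x - y) * (A - C * (x + y))| < 2 * κ := by
    have h2 : (x - y) * (A - C * (x + y)) = (b + A * x - C * x ^ 2) - (b + A * y - C * y ^ 2) := by
      ring
    rw [h2]
    calc |(b + A * x - C * x ^ 2) - (b + A * y - C * y ^ 2)| ≤
        |b + A * x - C * x ^ 2| + |b + A * y - C * y ^ 2| := abs_sub _ _
      _ < κ + κ := add_lt_add hx hy
      _ = 2 * κ := by ring
  rw [abs_mul] at h1
  have h3 : ρ * |A - C * (x + y)| ≤ |x - y| * |A - C * (x + y)| :=
    mul_le_mul_of_nonneg_right hxy.le (abs_nonneg _)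
  linarith

end DPoly_aux

open DPoly_aux in
theorem stmtDPoly : StmtDPoly := by
  intro ρ κ b A C hρ hρ1 hκ hk hAC
  by_contra hcon
  push Not at hcon
  obtain ⟨z1, hz1, hs1, -, -⟩ : ∃ z : ℝ, |z| ≤ 1 ∧ |b + A * z - C * z ^ 2| < κ ∧
      ρ < |z - 0| ∧ ρ < |z - 0| := by
    obtain ⟨z, h1, h2, h3, h4⟩ := hcon 0 0 (by simp) (by simp)
    exact ⟨z, h1, h2, h3, h4⟩
  obtain ⟨z2, hz2, hs2, h21, -⟩ := hcon z1 z1 hz1 hz1
  obtain ⟨z3, hz3, hs3, h31, h32⟩ := hcon z1 z2 hz1 hz2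
  have e1 := pair hρ hs2 hs1 h21
  have e2 := pair hρ hs3 hs1 h31
  -- `|C| |z2 - z3| ρ < 4 κ`
  have e3 : |C * (z3 - z2)| * ρ < 4 * κ := by
    have h : C * (z3 - z2) = (A - C * (z2 + z1)) - (A - C * (z3 + z1)) := by ring
    rw [h]
    have := abs_sub (A - C * (z2 + z1)) (A - C * (z3 + z1))
    nlinarith
  have e4 : |C| * ρ * ρ < 4 * κ := by
    rw [abs_mul] at e3
    have : |C| * ρ ≤ |C| * |z3 - z2| := mul_le_mul_of_nonneg_left h32.le (abs_nonneg _)
    nlinarith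
  have e5 : |A| ≤ |A - C * (z2 + z1)| + 2 * |C| := by
    have h : A = (A - C * (z2 + z1)) + C * (z2 + z1) := by ring
    calc |A| = |(A - C * (z2 + z1)) + C * (z2 + z1)| := by rw [← h]
      _ ≤ |A - C * (z2 + z1)| + |C * (z2 + z1)| := abs_add_le _ _
      _ ≤ _ := by
        rw [abs_mul]
        have : |z2 + z1| ≤ 2 := (abs_add_le _ _).trans (by linarith)
        nlinarith [abs_nonneg C]
  have e6 : |A| * ρ * ρ < 10 * κ := by
    have h1 : |A| * ρ * ρ ≤ (|A - C * (z2 + z1)| + 2 * |C|) * ρ * ρ := by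
      have : 0 ≤ ρ * ρ := by positivity
      nlinarith
    have h2 : |A - C * (z2 + z1)| * ρ * ρ ≤ 2 * κ := by
      have : |A - C * (z2 + z1)| * ρ * ρ ≤ 2 * κ * 1 :=
        mul_le_mul e1.le hρ1 hρ.le (by positivity)
      linarith
    nlinarith
  have e7 : 0 < ρ ^ 2 := by positivity
  rcases hAC with h | h
  · have : Real.exp (-2) * ρ ^ 2 ≤ |A| * ρ ^ 2 := mul_le_mul_of_nonneg_right h e7.le
    nlinarith
  · have : Real.exp (-2) * ρ ^ 2 ≤ |C| * ρ ^ 2 := mul_le_mul_of_nonneg_right h e7.le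
    nlinarith

end

end Pool.Agent.A54.QE
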