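import Pool.Agent.Lib.QE.SpecD2

/-!
# Package `QE`, block D, module `DQ0`: arbitrarily small quasi-periods
-/

set_option autoImplicit false

namespace Pool.Agent.A54.QE

open MeasureTheory Filter Topology Set
open scoped ENNReal MatrixGroups
open Pool.Agent.A54.Dyn (G fl base ze io mk4 Inv HM)

noncomputable section

namespace DQ0_aux

/-- the set of `Mea` -/
def TT (lf : G → Measure ℝ) (D : Set G) (α β : ℝ) : Set G :=
  {g | g ∈ Dn lf D ∧ ∃ τ : ℝ, α ≤ |τ| ∧ |τ| ≤ β ∧ QP (lf g) τ}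

/-- index pairs -/
def Ix : Type := {p : ℚ × ℚ // 0 < p.1 ∧ p.1 < p.2}

instance : Countable Ix := by unfold Ix; infer_instance

open Classical in
/-- the smallest quasi-period, up to a factor -/
def F0 (lf : G → Measure ℝ) (D : Set G) (g : G) : ℝ≥0∞ :=
  ⨅ p : Ix, if g ∈ TT lf D (p.1.1 : ℝ) (p.1.2 : ℝ) then ENNReal.ofReal (p.1.2 : ℝ) else ⊤

open Classical in
/-- the function of the proof -/
def FF (lf : G → Measure ℝ) (D : Set G) (g : G) : ℝ≥0∞ := if g ∈ Dn lf D then F0 lf D g else 0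

lemma F0_lt {lf : G → Measure ℝ} {D : Set G} {g : G} {ε : ℝ} (h : F0 lf D g < ENNReal.ofReal ε) :
    ∃ τ : ℝ, τ ≠ 0 ∧ |τ| ≤ ε ∧ QP (lf g) τ := by
  classical
  unfold F0 at h
  obtain ⟨p, hp⟩ := iInf_lt_iff.1 h
  by_cases hg : g ∈ TT lf D (p.1.1 : ℝ) (p.1.2 : ℝ)
  · rw [if_pos hg] at hp
    obtain ⟨-, τ, h1, h2, h3⟩ := hg
    have hlt : (p.1.2 : ℝ) < ε := by
      by_contra hc
      exact absurd hp (not_lt.2 (ENNReal.ofReal_le_ofReal (not_lt.1 hc)))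
    have hp0 : (0 : ℝ) < (p.1.1 : ℝ) := by exact_mod_cast p.2.1
    refine ⟨τ, ?_, h2.trans hlt.le, h3⟩
    rintro rfl
    rw [abs_zero] at h1
    linarith
  · rw [if_neg hg] at hp
    exact absurd hp (by simp)

lemma F0_le {lf : G → Measure ℝ} {D : Set G} {g : G} (hg : g ∈ Dn lf D) {τ : ℝ} (h0 : τ ≠ 0) (h : QP (lf g) τ) :
    F0 lf D g ≤ ENNReal.ofReal (2 * |τ|) := by
  classical
  have ha : 0 < |τ| := abs_pos.2 h0
  obtain ⟨α, hα0, hα⟩ := exists_rat_btwn ha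
  obtain ⟨β, hβ1, hβ2⟩ := exists_rat_btwn (show |τ| < 2 * |τ| by linarith)
  have h1 : (0 : ℚ) < α := by exact_mod_cast hα0
  have h2 : α < β := by
    have : (α : ℝ) < β := hα.trans hβ1
    exact_mod_cast this
  let p : Ix := ⟨(α, β), h1, h2⟩
  refine (iInf_le _ p).trans ?_
  have hT : g ∈ TT lf D (p.1.1 : ℝ) (p.1.2 : ℝ) := ⟨hg, τ, hα.le, hβ1.le, h⟩
  rw [if_pos hT]
  exact ENNReal.ofReal_le_ofReal hβ2.le

lemma FF_meas {lf : G → Measure ℝ} {D : Set G} (hD : MeasurableSet (Dn lf D))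
    (hT : ∀ α β : ℝ, 0 < α → α < β → MeasurableSet (TT lf D α β)) : Measurable (FF lf D) := by
  classical
  refine Measurable.ite hD ?_ measurable_const
  refine Measurable.iInf fun p => ?_
  have h1 : (0 : ℝ) < (p.1.1 : ℝ) := by exact_mod_cast p.2.1
  have h2 : (p.1.1 : ℝ) < (p.1.2 : ℝ) := by exact_mod_cast p.2.2
  exact Measurable.ite (hT _ _ h1 h2) measurable_const measurable_const

lemma TT_gam {lf : G → Measure ℝ} {D : Set G} (hF : FI (Dn lf D))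
    (hg : ∀ g ∈ D, ∀ γ : SL(2, ℤ), Pr (lf (io γ * g)) (lf g)) (α β : ℝ) (γ : SL(2, ℤ)) (g : G) :
    io γ * g ∈ TT lf D α β ↔ g ∈ TT lf D α β := by
  constructor
  · rintro ⟨h1, τ, h2, h3, h4⟩
    have h5 : g ∈ Dn lf D := (hF.gam γ g).1 h1
    exact ⟨h5, τ, h2, h3, (QP.congr (hg g h5.1 γ)).1 h4⟩
  · rintro ⟨h1, τ, h2, h3, h4⟩
    exact ⟨(hF.gam γ g).2 h1, τ, h2, h3, (QP.congr (hg g h1.1 γ)).2 h4⟩

lemma FF_gam {lf : G → Measure ℝ} {D : Set G} (hF : FI (Dn lf D))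
    (hg : ∀ g ∈ D, ∀ γ : SL(2, ℤ), Pr (lf (io γ * g)) (lf g)) (γ : SL(2, ℤ)) (g : G) :
    FF lf D (io γ * g) = FF lf D g := by
  classical
  have h0 : F0 lf D (io γ * g) = F0 lf D g := by
    unfold F0
    refine iInf_congr fun p => ?_
    simp only [TT_gam hF hg]
  unfold FF
  rw [h0]
  simp only [hF.gam γ g]

end DQ0_aux

theorem stmtDQ0 : StmtDDns → StmtDMea → StmtDHP → StmtDZoom → StmtDFlo → StmtDQ0 := by
  intro hDns hMea hHP hZoom hFlo hW μ lf D hI hR hL hN hP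
  classical
  obtain ⟨hDm, hDF, hDn⟩ := hDns μ lf D hL hN
  have hTm : ∀ α β : ℝ, 0 < α → α < β → MeasurableSet (DQ0_aux.TT lf D α β) := fun α β h1 h2 =>
    hMea μ lf D hL hDm α β h1 h2
  -- the set without quasi-periods
  set E : Set G := {g | g ∈ Dn lf D ∧ ∀ q : ℝ, q ≠ 0 → ¬ QP (lf g) q} with hE
  have hEeq : E = Dn lf D \ ⋃ n : ℕ, DQ0_aux.TT lf D (1 / ((n : ℝ) + 1)) ((n : ℝ) + 2) := by
    ext g
    constructor
    · rintro ⟨h1, h2⟩
      refine ⟨h1, fun h3 => ?_⟩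
      obtain ⟨n, hn⟩ := mem_iUnion.1 h3
      obtain ⟨-, τ, h4, h5, h6⟩ := hn
      refine h2 τ ?_ h6
      rintro rfl
      rw [abs_zero] at h4
      have : (0 : ℝ) < 1 / ((n : ℝ) + 1) := by positivity
      linarith
    · rintro ⟨h1, h2⟩
      refine ⟨h1, fun q hq hQ => h2 ?_⟩
      have ha : 0 < |q| := abs_pos.2 hq
      obtain ⟨n, hn⟩ := exists_nat_gt (max (1 / |q|) |q|)
      have hn1 : 1 / |q| < n := lt_of_le_of_lt (le_max_left _ _) hn
      have hn2 : |q| < n := lt_of_le_of_lt (le_max_right _ _) hn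
      refine mem_iUnion.2 ⟨n, h1, q, ?_, by linarith, hQ⟩
      rw [div_lt_iff₀ ha] at hn1
      rw [div_le_iff₀ (by positivity)]
      nlinarith
  have hEm : MeasurableSet E := by
    rw [hEeq]
    refine hDm.diff (MeasurableSet.iUnion fun n => hTm _ _ (by positivity) ?_)
    have h0 : (0 : ℝ) ≤ (n : ℝ) := Nat.cast_nonneg n
    have h1 : 1 / ((n : ℝ) + 1) ≤ 1 := by
      rw [div_le_one (by positivity)]
      linarith
    linarith
  have hEF : FI E := by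
    refine ⟨fun γ g => ?_, fun g u => ?_, fun g => ?_⟩
    · constructor
      · rintro ⟨h1, h2⟩
        have h3 : g ∈ Dn lf D := (hDF.gam γ g).1 h1
        exact ⟨h3, fun q hq hQ => h2 q hq ((QP.congr (hL.gam g h3.1 γ)).2 hQ)⟩
      · rintro ⟨h1, h2⟩
        exact ⟨(hDF.gam γ g).2 h1, fun q hq hQ => h2 q hq ((QP.congr (hL.gam g h1.1 γ)).1 hQ)⟩
    · constructor
      · rintro ⟨h1, h2⟩
        refine ⟨(hDF.uni g u).1 h1, fun q hq hQ => h2 q hq ?_⟩
        rw [hL.tr g u]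
        exact (QP.shift u q).2 hQ
      · rintro ⟨h1, h2⟩
        refine ⟨(hDF.uni g u).2 h1, fun q hq hQ => h2 q hq ?_⟩
        rw [hL.tr g u] at hQ
        exact (QP.shift u q).1 hQ
    · have he : Real.exp (-1) ≠ 0 := (Real.exp_pos _).ne'
      constructor
      · rintro ⟨h1, h2⟩
        have h3 : g ∈ Dn lf D := (hDF.flo g).1 h1
        refine ⟨h3, fun q hq hQ => h2 (Real.exp (-1) * q) (mul_ne_zero he hq) ?_⟩
        rw [QP.congr (hL.flo g h3.1), QP.scale he, mul_div_cancel_left₀ _ he]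
        exact hQ
      · rintro ⟨h1, h2⟩
        refine ⟨(hDF.flo g).2 h1, fun q hq hQ => h2 (q / Real.exp (-1)) (div_ne_zero hq he) ?_⟩
        rw [QP.congr (hL.flo g h1.1), QP.scale he] at hQ
        exact hQ
  have hE0 : μ E = 0 := hHP hW μ lf D hI hR hL hP E hEm hEF (fun g hg => hg.1.1) (fun g hg => hg.1.2)
    fun g hg => hg.2
  have hae : ∀ᵐ g ∂μ, g ∈ Dn lf D ∧ g ∉ E := by
    have h1 : ∀ᵐ g ∂μ, g ∈ Dn lf D := by
      rw [ae_iff]
      exact hDn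
    have h2 : ∀ᵐ g ∂μ, g ∉ E := measure_eq_zero_iff_ae_notMem.1 hE0
    filter_upwards [h1, h2] with g h3 h4 using ⟨h3, h4⟩
  have hlim : ∀ᵐ g ∂μ, Tendsto (fun n : ℕ => DQ0_aux.FF lf D (g * fl (1 * n))) atTop (𝓝 0) := by
    filter_upwards [hae] with g hg
    obtain ⟨h1, h2⟩ := hg
    have h3 : ∃ q : ℝ, q ≠ 0 ∧ QP (lf g) q := by
      by_contra hc
      push Not at hc
      exact h2 ⟨h1, hc⟩
    obtain ⟨q, hq, hQ⟩ := h3
    have hle : ∀ n : ℕ, DQ0_aux.FF lf D (g * fl (1 * n)) ≤ ENNReal.ofReal (2 * |Real.exp (-(n : ℝ)) * q|) := by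
      intro n
      unfold DQ0_aux.FF
      split_ifs with hm
      · refine DQ0_aux.F0_le hm (mul_ne_zero (Real.exp_pos _).ne' hq) ?_
        have h4 := (hFlo μ lf D hL g h1.1 (n : ℤ)).2
        have h5 : ((n : ℤ) : ℝ) = (1 : ℝ) * (n : ℝ) := by push_cast; ring
        rw [h5] at h4
        rw [QP.congr h4, QP.scale (Real.exp_pos _).ne', one_mul, mul_div_cancel_left₀ _ (Real.exp_pos _).ne']
        exact hQ
      · exact bot_le
    refine tendsto_of_tendsto_of_tendsto_of_le_of_le tendsto_const_nhds ?_ (fun n => bot_le) hle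
    have h6 : Tendsto (fun n : ℕ => 2 * |Real.exp (-(n : ℝ)) * q|) atTop (𝓝 0) := by
      have h7 : Tendsto (fun n : ℕ => Real.exp (-(n : ℝ))) atTop (𝓝 0) :=
        Real.tendsto_exp_neg_atTop_nhds_zero.comp tendsto_natCast_atTop_atTop
      have h8 := ((h7.mul_const q).abs).const_mul 2
      simpa using h8
    have h9 := ENNReal.tendsto_ofReal h6
    rwa [ENNReal.ofReal_zero] at h9
  have hz := hZoom hW μ hI (DQ0_aux.FF lf D) (DQ0_aux.FF_meas hDm hTm) (DQ0_aux.FF_gam hDF hL.gam) 1 hlim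
  filter_upwards [hz, hae] with g hg0 hg1 ε hε
  refine DQ0_aux.F0_lt (D := D) ?_
  unfold DQ0_aux.FF at hg0
  rw [if_pos hg1.1] at hg0
  rw [hg0]
  exact ENNReal.ofReal_pos.2 hε

end

end Pool.Agent.A54.QE
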