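import Pool.Agent.Lib.QE.SpecD

/-!
# Package `QE`, block D, `Qc`: quasi-periods by countably many conditions
-/

set_option autoImplicit false

namespace Pool.Agent.A54.QE

open MeasureTheory Filter Topology Set
open scoped ENNReal

noncomputable section

namespace DQc_aux

theorem meas_sub (τ : ℝ) : Measurable fun x : ℝ => x - τ := measurable_id.sub_const τ

theorem map_Ioo (m : Measure ℝ) (τ a b : ℝ) :
    (m.map fun x => x - τ) (Ioo a b) = m (Ioo (a + τ) (b + τ)) := by
  rw [Measure.map_apply (meas_sub τ) measurableSet_Ioo]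
  congr 1
  ext x
  constructor
  · rintro ⟨h1, h2⟩
    exact ⟨by linarith, by linarith⟩
  · rintro ⟨h1, h2⟩
    exact ⟨by linarith, by linarith⟩

theorem Ioo_lt_top (m : Measure ℝ) [IsFiniteMeasureOnCompacts m] (a b : ℝ) : m (Ioo a b) < ⊤ :=
  (measure_mono Ioo_subset_Icc_self).trans_lt isCompact_Icc.measure_lt_top

end DQc_aux

open DQc_aux

/-- **Qc** -/
theorem stmtDQc : StmtDQc := by
  intro m hm hm0 τ
  constructor
  · rintro ⟨k, -, -, hk⟩ a b a' b'
    have h : ∀ x y : ℝ, m (Ioo (x + τ) (y + τ)) = k * m (Ioo x y) := by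
      intro x y
      rw [← map_Ioo, hk, Measure.smul_apply, smul_eq_mul]
    rw [h, h]
    ring
  · intro h
    obtain ⟨a', b', hJ⟩ : ∃ a' b' : ℚ, m (Ioo (a' : ℝ) b') ≠ 0 := by
      by_contra hcon
      push Not at hcon
      exact hm0 (Real.measure_ext_Ioo_rat fun a b => by rw [hcon a b]; rfl)
    have hJt : m (Ioo (a' : ℝ) b') ≠ ⊤ := (Ioo_lt_top m _ _).ne
    have hkt : m (Ioo ((a' : ℝ) + τ) (b' + τ)) / m (Ioo (a' : ℝ) b') ≠ ⊤ :=
      ENNReal.div_ne_top (Ioo_lt_top m _ _).ne hJ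
    set k := m (Ioo ((a' : ℝ) + τ) (b' + τ)) / m (Ioo (a' : ℝ) b') with hk
    have : IsFiniteMeasureOnCompacts (k • m) := IsFiniteMeasureOnCompacts.smul m hkt
    have he : k • m = m.map fun x => x - τ := by
      refine Real.measure_ext_Ioo_rat fun a b => ?_
      rw [map_Ioo, Measure.smul_apply, smul_eq_mul, hk, ENNReal.div_eq_inv_mul, mul_assoc,
        mul_comm (m (Ioo ((a' : ℝ) + τ) (b' + τ))), ← h a b a' b', mul_comm, mul_assoc,
        ENNReal.mul_inv_cancel hJ hJt, mul_one]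
    refine ⟨k, ?_, hkt, he.symm⟩
    intro hk0
    rw [hk0, zero_smul] at he
    apply hm0
    have h1 : (m.map fun x => x - τ) univ = 0 := by rw [← he]; rfl
    rw [Measure.map_apply (meas_sub τ) MeasurableSet.univ, preimage_univ] at h1
    exact Measure.measure_univ_eq_zero.mp h1

end

end Pool.Agent.A54.QE
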