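import Pool.Agent.Lib.QE.SpecD

/-!
# Package `QE`, block D, module DQg: the quasi-periods form a closed subgroup
-/

set_option autoImplicit false

namespace Pool.Agent.A54.QE

open MeasureTheory Filter Topology Set
open scoped ENNReal

namespace DQg_aux

theorem meas_sub (τ : ℝ) : Measurable fun x : ℝ => x - τ := measurable_id.sub_const τ

theorem qp_zero (m : Measure ℝ) : QP m 0 := by
  refine ⟨1, one_ne_zero, ENNReal.one_ne_top, ?_⟩
  have h : (fun x : ℝ => x - 0) = id := by
    funext x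
    simp
  rw [h, Measure.map_id, one_smul]

theorem qp_add (m : Measure ℝ) (τ τ' : ℝ) (h : QP m τ) (h' : QP m τ') : QP m (τ + τ') := by
  obtain ⟨c, hc0, hct, hc⟩ := h
  obtain ⟨c', hc0', hct', hc'⟩ := h'
  refine ⟨c * c', mul_ne_zero hc0 hc0', ENNReal.mul_ne_top hct hct', ?_⟩
  have e : (fun x : ℝ => x - (τ + τ')) = (fun x => x - τ') ∘ fun x => x - τ := by
    funext x
    simp only [Function.comp_apply]
    ring
  rw [e, ← Measure.map_map (meas_sub τ') (meas_sub τ), hc, Measure.map_smul, hc', smul_smul]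

theorem qp_neg (m : Measure ℝ) (τ : ℝ) (h : QP m τ) : QP m (-τ) := by
  obtain ⟨c, hc0, hct, hc⟩ := h
  refine ⟨c⁻¹, ENNReal.inv_ne_zero.2 hct, ENNReal.inv_ne_top.2 hc0, ?_⟩
  have h1 := congrArg (fun μ : Measure ℝ => μ.map fun x => x - (-τ)) hc
  rw [Measure.map_map (meas_sub (-τ)) (meas_sub τ), Measure.map_smul] at h1
  have e : ((fun x : ℝ => x - (-τ)) ∘ fun x => x - τ) = id := by
    funext x
    simp
  rw [e, Measure.map_id] at h1
  calc m.map (fun x => x - (-τ)) = (c⁻¹ * c) • m.map (fun x => x - (-τ)) := by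
        rw [ENNReal.inv_mul_cancel hc0 hct, one_smul]
    _ = c⁻¹ • (c • m.map (fun x => x - (-τ))) := by rw [smul_smul]
    _ = c⁻¹ • m := by rw [← h1]

/-- The subgroup of the quasi-periods. -/
def sub (m : Measure ℝ) : AddSubgroup ℝ where
  carrier := {τ | QP m τ}
  zero_mem' := qp_zero m
  add_mem' {a b} ha hb := qp_add m a b ha hb
  neg_mem' {a} ha := qp_neg m a ha

end DQg_aux

open DQg_aux in
theorem stmtDQg : StmtDCont → StmtDQc → StmtDQg := by
  intro hCont hQc m hm hm0 hat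
  have hcl : IsClosed {τ | QP m τ} := by
    have e : {τ | QP m τ} = ⋂ (a : ℚ) (b : ℚ) (a' : ℚ) (b' : ℚ),
        {τ : ℝ | m (Ioo (a + τ) (b + τ)) * m (Ioo (a' : ℝ) b') =
          m (Ioo (a : ℝ) b) * m (Ioo (a' + τ) (b' + τ))} := by
      ext τ
      simp only [mem_ofPred_eq, mem_iInter]
      exact hQc m hm hm0 τ
    rw [e]
    refine isClosed_iInter fun a => isClosed_iInter fun b => isClosed_iInter fun a' =>
      isClosed_iInter fun b' => ?_
    have hfin : ∀ x y : ℝ, m (Ioo x y) ≠ ⊤ := fun x y =>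
      (lt_of_le_of_lt (measure_mono Ioo_subset_Icc_self) isCompact_Icc.measure_lt_top).ne
    refine isClosed_eq ?_ ?_
    · exact (ENNReal.continuous_mul_const (hfin _ _)).comp (hCont m hm hat a b).1
    · exact (ENNReal.continuous_const_mul (hfin _ _)).comp (hCont m hm hat a' b').1
  refine ⟨qp_add m, qp_neg m, hcl, fun h τ => ?_⟩
  have hd : Dense ((sub m : AddSubgroup ℝ) : Set ℝ) := by
    apply AddSubgroup.dense_of_not_isolated_zero
    intro ε hε
    obtain ⟨σ, hσ0, hσ1, hσ2⟩ := h (ε / 2) (by linarith)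
    refine ⟨|σ|, ?_, abs_pos.2 hσ0, by linarith⟩
    rcases abs_choice σ with h1 | h1
    · rw [h1]
      exact hσ2
    · rw [h1]
      exact qp_neg m σ hσ2
  have h1 : closure ((sub m : AddSubgroup ℝ) : Set ℝ) = {τ | QP m τ} := hcl.closure_eq
  have h2 : τ ∈ closure ((sub m : AddSubgroup ℝ) : Set ℝ) := hd τ
  rw [h1] at h2
  exact h2

end Pool.Agent.A54.QE
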