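import Pool.Agent.Lib.QE.SpecD2

/-!
# Package `QE`, block D: choice of the pair of points
-/

set_option autoImplicit false

namespace Pool.Agent.A54.QE

open MeasureTheory Filter Topology Set
open scoped ENNReal MatrixGroups
open Pool.Agent.A54.Dyn (G fl base ze io mk4 Inv HM)

noncomputable section

namespace DSel_aux

theorem io_mul (a b : SL(2, ℤ)) : io (a * b) = io a * io b := by
  unfold io
  rw [map_mul]

theorem io_one : io 1 = 1 := by
  unfold io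
  rw [map_one]

theorem io_inv_mul (a : SL(2, ℤ)) : io a⁻¹ * io a = 1 := by
  rw [← io_mul, inv_mul_cancel, io_one]

theorem countSL : Countable SL(2, ℤ) :=
  Function.Injective.countable (f := fun γ : SL(2, ℤ) => fun i j : Fin 2 => γ i j) (by
    intro a b h
    ext i j
    exact congrFun (congrFun h i) j)

theorem cont_entry (i j : Fin 2) : Continuous fun g : G => g i j :=
  (continuous_apply j).comp ((continuous_apply i).comp continuous_subtype_val)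

theorem nbhd_aux (ε : ℝ) (hε : 0 < ε) (i j : Fin 2) :
    ∀ᶠ g : G in 𝓝 1, |g i j - (1 : Matrix (Fin 2) (Fin 2) ℝ) i j| < ε := by
  have h1 : Continuous fun g : G => |g i j - (1 : Matrix (Fin 2) (Fin 2) ℝ) i j| :=
    ((cont_entry i j).sub continuous_const).abs
  have h2 : |(1 : G) i j - (1 : Matrix (Fin 2) (Fin 2) ℝ) i j| < ε := by
    have h3 : (1 : G) i j = (1 : Matrix (Fin 2) (Fin 2) ℝ) i j := rfl
    rw [h3, sub_self, abs_zero]
    exact hε
  exact h1.continuousAt.eventually (gt_mem_nhds h2)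

theorem nb1 (ε : ℝ) (hε : 0 < ε) : Hp.Nb ε ∈ 𝓝 (1 : G) := by
  filter_upwards [nbhd_aux ε hε 0 0, nbhd_aux ε hε 0 1, nbhd_aux ε hε 1 0, nbhd_aux ε hε 1 1]
    with g h00 h01 h10 h11
  intro i j
  fin_cases i <;> fin_cases j
  · exact h00.le
  · exact h01.le
  · exact h10.le
  · exact h11.le

theorem nb2 : Continuous fun p : G × G => p.1⁻¹ * p.2 := continuous_fst.inv.mul continuous_snd

theorem nb3 : Tendsto (fun p : G × G => p.1⁻¹ * p.2) (𝓝 ((1 : G), (1 : G))) (𝓝 1) := by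
  have h2 := nb2.tendsto ((1 : G), (1 : G))
  have h3 : (1 : G)⁻¹ * 1 = 1 := by rw [inv_one, one_mul]
  rw [h3] at h2
  exact h2

theorem nbhd (N : Set G) (h1 : N ∈ 𝓝 (1 : G)) :
    ∃ V : Set G, IsOpen V ∧ (1 : G) ∈ V ∧ ∀ a ∈ V, ∀ b ∈ V, a⁻¹ * b ∈ N := by
  have h2 : ∀ᶠ p : G × G in 𝓝 ((1 : G), (1 : G)), p.1⁻¹ * p.2 ∈ N := nb3.eventually h1
  rw [nhds_prod_eq, eventually_prod_iff] at h2
  obtain ⟨pa, hA, pb, hB, hAB⟩ := h2
  have h3 := hA.and hB
  obtain ⟨V, hV, hVo, hV1⟩ := eventually_nhds_iff.mp h3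
  exact ⟨V, hVo, hV1, fun a ha b hb => hAB (hV a ha).1 (hV b hb).2⟩

theorem cell (μ : Measure G) (X : Set G) (hX : μ X ≠ 0) (N : Set G) (hN : N ∈ 𝓝 (1 : G)) :
    ∃ W : Set G, IsOpen W ∧ μ (X ∩ W) ≠ 0 ∧ ∀ a ∈ W, ∀ b ∈ W, a⁻¹ * b ∈ N := by
  obtain ⟨V, hVo, hV1, hV⟩ := nbhd N hN
  have hWo : ∀ x : G, IsOpen {y : G | x⁻¹ * y ∈ V} := fun x =>
    hVo.preimage (continuous_const.mul continuous_id)
  have hWx : ∀ x : G, {y : G | x⁻¹ * y ∈ V} ∈ 𝓝 x := by
    intro x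
    refine (hWo x).mem_nhds ?_
    show x⁻¹ * x ∈ V
    simpa using hV1
  obtain ⟨s, hs, hsu⟩ := TopologicalSpace.countable_cover_nhds hWx
  by_contra hcon
  push Not at hcon
  apply hX
  have h1 : X ⊆ ⋃ x ∈ s, (X ∩ {y : G | x⁻¹ * y ∈ V}) := by
    intro y hy
    have h2 : y ∈ ⋃ x ∈ s, {y : G | x⁻¹ * y ∈ V} := by rw [hsu]; exact mem_univ y
    simp only [mem_iUnion] at h2 ⊢
    obtain ⟨x, hx, hxy⟩ := h2
    exact ⟨x, hx, hy, hxy⟩
  refine measure_mono_null h1 ((measure_biUnion_null_iff hs).mpr fun x _ => ?_)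
  by_contra h3
  obtain ⟨a, ha, b, hb, hab⟩ := hcon _ (hWo x) h3
  apply hab
  have h4 : a⁻¹ * b = (x⁻¹ * a)⁻¹ * (x⁻¹ * b) := by group
  rw [h4]
  exact hV _ ha _ hb

theorem gs_GI (K : Set G) : GI (gs K) := by
  intro γ g
  constructor
  · rintro ⟨γ', h⟩
    refine ⟨γ' * γ, ?_⟩
    rw [io_mul, mul_assoc]
    exact h
  · rintro ⟨γ', h⟩
    refine ⟨γ' * γ⁻¹, ?_⟩
    rw [io_mul, mul_assoc, ← mul_assoc (io γ⁻¹), io_inv_mul, one_mul]
    exact h

theorem gs_meas (K : Set G) (hK : MeasurableSet K) : MeasurableSet (gs K) := by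
  have : Countable SL(2, ℤ) := countSL
  have h1 : gs K = ⋃ γ : SL(2, ℤ), (fun g : G => io γ * g) ⁻¹' K := by
    ext g
    simp only [mem_iUnion, mem_preimage]
    rfl
  rw [h1]
  refine MeasurableSet.iUnion fun γ => ?_
  have h2 : Continuous fun g : G => io γ * g := continuous_const.mul continuous_id
  exact h2.measurable hK

theorem sub_gs (K : Set G) : K ⊆ gs K := by
  intro g hg
  refine ⟨1, ?_⟩
  rw [io_one, one_mul]
  exact hg

theorem vc_prop (x y : G) (h : (x⁻¹ * y) 1 0 = 0) : vc y = ((x⁻¹ * y) 0 0) • vc x := by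
  have h1 : y = x * (x⁻¹ * y) := by group
  have h2 : vc y = vc (x * (x⁻¹ * y)) := by rw [← h1]
  rw [h2]
  unfold vc
  rw [G_mul00 x, G_mul10 x, h]
  ext
  · simp [mul_comm]
  · simp [mul_comm]

end DSel_aux

open DSel_aux in
theorem stmtDSel : StmtDHkN → StmtDSel := by
  rintro ⟨hcount, hleft, hline⟩ μ lf D hRec hL hPl X hXm hX ε hε
  obtain ⟨W, hWo, hW, hWW⟩ := cell μ X hX _ (nb1 ε hε)
  have hec := hL.hec
  choose N hN using hec
  -- the null sets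
  have : Countable Hk := hcount.to_subtype
  obtain ⟨N0, hN0⟩ : ∃ N0 : Set G, N0 = ⋃ d : Hk, N d.1 d.2 := ⟨_, rfl⟩
  obtain ⟨N1, hN1⟩ : ∃ N1 : Set G, N1 = ⋃ d ∈ {d : G | d ∈ Hk ∧ d ∉ range io},
      {g : G | ∃ r : ℝ, vc (d * g) = r • vc g} := ⟨_, rfl⟩
  have h0 : μ N0 = 0 := by
    rw [hN0]
    exact measure_iUnion_null fun d => (hN d.1 d.2).2.1
  have h1 : μ N1 = 0 := by
    rw [hN1]
    refine (measure_biUnion_null_iff (hcount.mono fun d hd => hd.1)).mpr fun d hd => ?_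
    obtain ⟨v, w, hvw⟩ := hline d hd.1 hd.2
    refine measure_mono_null (t := {g : G | ∃ r : ℝ, vc g = r • v} ∪ {g : G | ∃ r : ℝ, vc g = r • w}) ?_
      (measure_union_null (hPl v) (hPl w))
    intro g hg
    exact hvw g hg
  have h01 : μ (toMeasurable μ (N0 ∪ N1)) = 0 := by
    rw [measure_toMeasurable]
    exact measure_union_null h0 h1
  obtain ⟨Z, hZ⟩ : ∃ Z : Set G, Z = toMeasurable μ (N0 ∪ N1) := ⟨_, rfl⟩
  rw [← hZ] at h01
  have hZm : MeasurableSet Z := by rw [hZ]; exact measurableSet_toMeasurable _ _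
  have hZ0 : N0 ⊆ Z := by
    rw [hZ]; exact subset_union_left.trans (subset_toMeasurable _ _)
  have hZ1 : N1 ⊆ Z := by
    rw [hZ]; exact subset_union_right.trans (subset_toMeasurable _ _)
  obtain ⟨X', hX'⟩ : ∃ X' : Set G, X' = (X ∩ W) \ Z := ⟨_, rfl⟩
  have hX'm : MeasurableSet X' := by
    rw [hX']; exact (hXm.inter hWo.measurableSet).diff hZm
  have hX'0 : μ X' ≠ 0 := by
    rw [hX', measure_sdiff_null h01]; exact hW
  have hr := hRec (gs X') (gs_meas X' hX'm) (gs_GI X')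
  rw [ae_iff] at hr
  obtain ⟨x, hx, hxr⟩ : ∃ x ∈ X', x ∈ gs X' → ∃ d ∈ Hk, d ∉ range io ∧ d * x ∈ gs X' := by
    by_contra hcon
    push Not at hcon
    apply hX'0
    refine measure_mono_null ?_ hr
    intro x hx hxx
    obtain ⟨h2, h3⟩ := hcon x hx
    obtain ⟨d, hd, hd', hdx⟩ := hxx h2
    exact h3 d hd hd' hdx
  obtain ⟨d, hd, hd', γ, hy⟩ := hxr (sub_gs X' hx)
  rw [← mul_assoc] at hy
  have hdk : io γ * d ∈ Hk := hleft γ d hd
  have hdr : io γ * d ∉ range io := by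
    rintro ⟨γ', h⟩
    apply hd'
    refine ⟨γ⁻¹ * γ', ?_⟩
    rw [io_mul, h, ← mul_assoc, io_inv_mul, one_mul]
  rw [hX'] at hx hy
  refine ⟨x, hx.1.1, io γ * d * x, hy.1.1, hWW _ hx.1.2 _ hy.1.2, ?_, ?_⟩
  · intro h
    apply hx.2
    apply hZ1
    rw [hN1]
    simp only [mem_iUnion]
    exact ⟨io γ * d, ⟨hdk, hdr⟩, _, vc_prop x _ h⟩
  · apply (hN (io γ * d) hdk).2.2
    · intro h
      apply hx.2
      apply hZ0
      rw [hN0]
      simp only [mem_iUnion]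
      exact ⟨⟨_, hdk⟩, h⟩
    · intro h
      apply hy.2
      apply hZ0
      rw [hN0]
      simp only [mem_iUnion]
      exact ⟨⟨_, hdk⟩, h⟩

end

end Pool.Agent.A54.QE
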