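import Pool.Agent.Lib.QE.SpecD

/-!
# Package `QE`, module `DSeq`: greedy covering of a time interval
-/

set_option autoImplicit false

namespace Pool.Agent.A54.QE

open MeasureTheory Filter Topology Set

namespace DSeq_aux

private lemma ind_le (B : Set ℕ) (t : ℕ) : B.indicator (fun _ => (1 : ℕ)) t ≤ 1 := by
  by_cases h : t ∈ B
  · rw [Set.indicator_of_mem h]
  · rw [Set.indicator_of_notMem h]; exact Nat.zero_le 1

private lemma main (K N T : ℕ) (e : ℕ → ℕ) (B : Set ℕ)
    (hB : ∀ t ∈ B, ∃ S : ℕ, S ≤ N ∧ S < K * ∑ s ∈ Finset.range S, e (t + s)) :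
    ∀ d t₀ : ℕ, T ≤ t₀ + d →
      ∑ t ∈ Finset.Ico t₀ T, B.indicator (fun _ => (1 : ℕ)) t ≤ K * ∑ s ∈ Finset.Ico t₀ (T + N), e s := by
  intro d
  induction d using Nat.strong_induction_on with
  | _ d ih =>
    intro t₀ hd
    by_cases hT : T ≤ t₀
    · rw [Finset.Ico_eq_empty_of_le hT, Finset.sum_empty]
      exact Nat.zero_le _
    · push Not at hT
      by_cases ht : t₀ ∈ B
      · obtain ⟨S, hSN, hS⟩ := hB t₀ ht
        have hS1 : 1 ≤ S := by
          by_contra h
          have h0 : S = 0 := by omega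
          rw [h0] at hS
          simp at hS
        have h1 : ∑ t ∈ Finset.Ico (t₀ + S) T, B.indicator (fun _ => (1 : ℕ)) t ≤
            K * ∑ s ∈ Finset.Ico (t₀ + S) (T + N), e s :=
          ih (d - 1) (by omega) (t₀ + S) (by omega)
        have h2 : ∑ t ∈ Finset.Ico t₀ T, B.indicator (fun _ => (1 : ℕ)) t ≤
            ∑ t ∈ Finset.Ico t₀ (t₀ + S), B.indicator (fun _ => (1 : ℕ)) t +
              ∑ t ∈ Finset.Ico (t₀ + S) T, B.indicator (fun _ => (1 : ℕ)) t := by
          rw [← Finset.sum_union]
          · refine Finset.sum_le_sum_of_subset fun t => ?_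
            simp only [Finset.mem_union, Finset.mem_Ico]
            omega
          · rw [Finset.disjoint_left]
            intro t
            simp only [Finset.mem_Ico]
            omega
        have h3 : ∑ t ∈ Finset.Ico t₀ (t₀ + S), B.indicator (fun _ => (1 : ℕ)) t ≤ S := by
          calc _ ≤ ∑ _t ∈ Finset.Ico t₀ (t₀ + S), 1 := Finset.sum_le_sum fun t _ => ind_le B t
            _ = S := by simp
        have h4 : ∑ s ∈ Finset.range S, e (t₀ + s) = ∑ s ∈ Finset.Ico t₀ (t₀ + S), e s := by
          rw [Finset.sum_Ico_eq_sum_range]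
          simp
        have h5 : ∑ s ∈ Finset.Ico t₀ (t₀ + S), e s + ∑ s ∈ Finset.Ico (t₀ + S) (T + N), e s =
            ∑ s ∈ Finset.Ico t₀ (T + N), e s :=
          Finset.sum_Ico_consecutive _ (by omega) (by omega)
        rw [h4] at hS
        rw [← h5, Nat.mul_add]
        omega
      · have h1 := ih (d - 1) (by omega) (t₀ + 1) (by omega)
        rw [← Finset.insert_Ico_add_one_left_eq_Ico hT, Finset.sum_insert (by simp),
          Set.indicator_of_notMem ht, Nat.zero_add]
        refine h1.trans (Nat.mul_le_mul_left K ?_)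
        refine Finset.sum_le_sum_of_subset fun t => ?_
        simp only [Finset.mem_Ico]
        omega

end DSeq_aux

theorem stmtDSeq : StmtDSeq := by
  intro K N T e B hB
  have h := DSeq_aux.main K N T e B hB T 0 (by omega)
  rw [← Finset.range_eq_Ico, ← Finset.range_eq_Ico] at h
  exact h

end Pool.Agent.A54.QE
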