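import Pool.Agent.Lib.QE.SpecD

/-!
# Package `QE`, block D, module DTime: choice of the time and of the scale
-/

set_option autoImplicit false

namespace Pool.Agent.A54.QE

open MeasureTheory Filter Topology Set

namespace DTime_aux

theorem sum_le (Z τ : ℕ → ℕ) (E : Finset ℕ) (N : ℕ) (hinj : Set.InjOn τ E)
    (hlt : ∀ s ∈ E, τ s < N) : ∑ s ∈ E, Z (τ s) ≤ ∑ t ∈ Finset.range N, Z t := by
  rw [← Finset.sum_image (f := Z) hinj]
  apply Finset.sum_le_sum_of_subset
  intro t ht
  obtain ⟨s, hs, rfl⟩ := Finset.mem_image.1 ht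
  exact Finset.mem_range.2 (hlt s hs)

theorem mono_step (τ : ℕ → ℕ) (S p : ℕ) (h : ∀ s, s + 2 < S → τ s < τ (s + 2)) :
    ∀ i j, i < j → p + 2 * j < S → τ (p + 2 * i) < τ (p + 2 * j) := by
  intro i j hij
  induction j with
  | zero => omega
  | succ j ih =>
    intro hj
    have h1 : τ (p + 2 * j) < τ (p + 2 * (j + 1)) := by
      have := h (p + 2 * j) (by omega)
      have e : p + 2 * j + 2 = p + 2 * (j + 1) := by ring
      rwa [e] at this
    rcases Nat.lt_succ_iff_lt_or_eq.1 hij with h2 | h2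
    · exact (ih h2 (by omega)).trans h1
    · subst h2
      exact h1

theorem inj_par (τ : ℕ → ℕ) (S p : ℕ) (h : ∀ s, s + 2 < S → τ s < τ (s + 2)) :
    Set.InjOn τ ((Finset.range S).filter fun s => s % 2 = p : Finset ℕ) := by
  intro x hx y hy hxy
  rw [Finset.mem_coe, Finset.mem_filter, Finset.mem_range] at hx hy
  have ex : x = p + 2 * (x / 2) := by omega
  have ey : y = p + 2 * (y / 2) := by omega
  rcases lt_trichotomy (x / 2) (y / 2) with h1 | h1 | h1
  · have := mono_step τ S p h (x / 2) (y / 2) h1 (by omega)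
    rw [← ex, ← ey] at this
    omega
  · omega
  · have := mono_step τ S p h (y / 2) (x / 2) h1 (by omega)
    rw [← ex, ← ey] at this
    omega

theorem sum_two (Z τ : ℕ → ℕ) (S N : ℕ) (h : ∀ s, s + 2 < S → τ s < τ (s + 2))
    (hlt : ∀ s, s < S → τ s < N) :
    ∑ s ∈ Finset.range S, Z (τ s) ≤ 2 * ∑ t ∈ Finset.range N, Z t := by
  have h0 := sum_le Z τ ((Finset.range S).filter fun s => s % 2 = 0) N
    (inj_par τ S 0 h) (fun s hs => hlt s (Finset.mem_range.1 (Finset.mem_filter.1 hs).1))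
  have h1 := sum_le Z τ ((Finset.range S).filter fun s => s % 2 = 1) N
    (inj_par τ S 1 h) (fun s hs => hlt s (Finset.mem_range.1 (Finset.mem_filter.1 hs).1))
  have h2 : ∑ s ∈ Finset.range S, Z (τ s) =
      ∑ s ∈ (Finset.range S).filter (fun s => s % 2 = 0), Z (τ s) +
        ∑ s ∈ (Finset.range S).filter (fun s => s % 2 = 1), Z (τ s) := by
    rw [← Finset.sum_filter_add_sum_filter_not (Finset.range S) (fun s => s % 2 = 0)]
    congr 1
    apply Finset.sum_congr _ (fun _ _ => rfl)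
    apply Finset.filter_congr
    intro s _
    omega
  omega

end DTime_aux

open DTime_aux in
theorem stmtDTime : StmtDTime := by
  intro c e X Y Z hc hc2 he hX hY hZ
  have hc0 : 0 < |c| := abs_pos.2 hc
  obtain ⟨Λ, hΛ⟩ : ∃ Λ : ℝ, |c| = Real.exp (-Λ) := ⟨-Real.log |c|, by rw [neg_neg, Real.exp_log hc0]⟩
  have hΛ2 : 2 ≤ Λ := by
    rw [hΛ, Real.exp_le_exp] at hc2
    linarith
  obtain ⟨S, hS⟩ : ∃ S : ℕ, S = ⌊Λ / 2⌋₊ := ⟨_, rfl⟩
  have hS1 : 1 ≤ S := by
    rw [hS]
    apply Nat.le_floor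
    push_cast
    linarith
  have hS2 : (S : ℝ) ≤ Λ / 2 := by
    rw [hS]
    exact Nat.floor_le (by linarith)
  have hS3 : Λ / 2 < S + 1 := by
    rw [hS]
    exact Nat.lt_floor_add_one _
  have he0 : 0 ≤ |e| := abs_nonneg e
  -- the choice of `k`
  have hex : ∀ s : ℕ, ∃ k : ℕ, s < S → ((2 * (k : ℝ) + s ≤ Λ ∧ Real.exp k * |e| ≤ 1) ∧
      ¬ (2 * ((k + 1 : ℕ) : ℝ) + s ≤ Λ ∧ Real.exp ((k + 1 : ℕ) : ℝ) * |e| ≤ 1)) := by
    intro s
    by_cases hs : s < S
    · have hne : ∃ k : ℕ, ¬ (2 * ((k + 1 : ℕ) : ℝ) + s ≤ Λ ∧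
          Real.exp ((k + 1 : ℕ) : ℝ) * |e| ≤ 1) := by
        obtain ⟨k, hk⟩ := exists_nat_gt Λ
        refine ⟨k, fun h => ?_⟩
        have h1 := h.1
        push_cast at h1
        have : (0 : ℝ) ≤ s := Nat.cast_nonneg s
        have : (0 : ℝ) ≤ k := Nat.cast_nonneg k
        linarith
      classical
      refine ⟨Nat.find hne, fun _ => ⟨?_, Nat.find_spec hne⟩⟩
      rcases Nat.eq_zero_or_pos (Nat.find hne) with h0 | h0
      · rw [h0]
        have : (s : ℝ) ≤ S := by exact_mod_cast hs.le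
        refine ⟨?_, ?_⟩
        · push_cast
          linarith
        · rw [Nat.cast_zero, Real.exp_zero, one_mul]
          exact he
      · have h1 := Nat.find_min hne (Nat.sub_lt h0 one_pos)
        have h2 : Nat.find hne - 1 + 1 = Nat.find hne := by omega
        rw [not_not, h2] at h1
        exact h1
    · exact ⟨0, fun h => absurd h hs⟩
  choose κ hκ using hex
  -- the times
  have hstep : ∀ s, s + 2 < S → s + κ s < s + 2 + κ (s + 2) := by
    intro s hs
    obtain ⟨⟨h1, h2⟩, -⟩ := hκ s (by omega)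
    obtain ⟨-, h3⟩ := hκ (s + 2) hs
    by_contra hcon
    apply h3
    have hk : κ (s + 2) + 2 ≤ κ s := by omega
    have hk' : (κ (s + 2) : ℝ) + 2 ≤ κ s := by exact_mod_cast hk
    refine ⟨?_, ?_⟩
    · push_cast
      linarith
    · refine le_trans ?_ h2
      apply mul_le_mul_of_nonneg_right _ he0
      rw [Real.exp_le_exp]
      push_cast
      linarith
  have hbd : ∀ s, s < S → s + κ s < 2 * S + 2 := by
    intro s hs
    obtain ⟨⟨h1, -⟩, -⟩ := hκ s hs
    have h2 : (s : ℝ) ≤ S := by exact_mod_cast hs.le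
    have h3 : ((s + κ s : ℕ) : ℝ) < ((2 * S + 2 : ℕ) : ℝ) := by
      push_cast
      have : (0 : ℝ) ≤ S := Nat.cast_nonneg S
      linarith
    exact_mod_cast h3
  have hsum := sum_two Z (fun s => s + κ s) S (2 * S + 2) hstep hbd
  have hgood : ∃ s, s < S ∧ X s = 0 ∧ Y s = 0 ∧ Z (s + κ s) = 0 := by
    by_contra hcon
    push Not at hcon
    have h1 : ∑ s ∈ Finset.range S, 1 ≤ ∑ s ∈ Finset.range S, (X s + Y s + Z (s + κ s)) := by
      apply Finset.sum_le_sum
      intro s hs
      have h2 := hcon s (Finset.mem_range.1 hs)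
      by_contra h3
      have hx : X s = 0 := by omega
      have hy : Y s = 0 := by omega
      have hz : Z (s + κ s) = 0 := by omega
      exact h2 hx hy hz
    rw [Finset.sum_const, Finset.card_range, smul_eq_mul, mul_one, Finset.sum_add_distrib,
      Finset.sum_add_distrib] at h1
    have h2 := hX S
    have h3 := hY S
    have h4 := hZ (2 * S + 2)
    omega
  obtain ⟨s, hs, hx, hy, hz⟩ := hgood
  obtain ⟨⟨h1, h2⟩, h3⟩ := hκ s hs
  have hsS : (s : ℝ) ≤ S := by exact_mod_cast hs.le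
  have hexp : ∀ x : ℝ, Real.exp x * |c| = Real.exp (x - Λ) := by
    intro x
    rw [hΛ, ← Real.exp_add]
    ring_nf
  refine ⟨s, κ s, hx, hy, hz, ?_, h2, ?_, ?_⟩
  · rw [hexp]
    apply Real.exp_le_one_iff.2
    linarith
  · by_cases h4 : 2 * ((κ s + 1 : ℕ) : ℝ) + s ≤ Λ
    · left
      have h5 : 1 < Real.exp ((κ s + 1 : ℕ) : ℝ) * |e| := by
        by_contra h6
        exact h3 ⟨h4, not_lt.1 h6⟩
      push_cast at h5
      rw [Real.exp_add] at h5
      have h6 : Real.exp (-2) ≤ Real.exp (-1) := Real.exp_le_exp.2 (by norm_num)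
      have h7 : Real.exp (-1) * Real.exp 1 = 1 := by
        rw [← Real.exp_add]
        norm_num
      have h8 : 0 < Real.exp 1 := Real.exp_pos 1
      have h9 : Real.exp (-1) * Real.exp 1 < (Real.exp (κ s) * |e|) * Real.exp 1 := by
        rw [h7]
        calc 1 < Real.exp (κ s) * Real.exp 1 * |e| := h5
          _ = (Real.exp (κ s) * |e|) * Real.exp 1 := by ring
      exact h6.trans (lt_of_mul_lt_mul_right h9 h8.le).le
    · right
      rw [hexp]
      apply Real.exp_le_exp.2
      push_cast at h4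
      linarith
  · apply Real.le_sqrt_of_sq_le
    have h4 : Real.exp (2 * s) * |c| ≤ 1 := by
      rw [hexp]
      apply Real.exp_le_one_iff.2
      linarith
    calc (Real.exp s * |c|) ^ 2 = (Real.exp (2 * s) * |c|) * |c| := by
          rw [two_mul, Real.exp_add]
          ring
      _ ≤ 1 * |c| := mul_le_mul_of_nonneg_right h4 hc0.le
      _ = |c| := one_mul _

end Pool.Agent.A54.QE
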