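import Pool.Agent.Lib.QE.SpecD

/-!
# `StmtDUnif`: uniform smallness of short intervals

For the package `QE` of MP_a54f13_nt. Author: helper67.
-/

set_option autoImplicit false

namespace Pool.Agent.A54.QE

open MeasureTheory Filter Topology Set
open scoped ENNReal

namespace DUnif_aux

lemma ex_min (t : Finset ℝ) (r : ℝ → ℝ) (h : ∀ x ∈ t, 0 < r x) :
    ∃ ρ : ℝ, 0 < ρ ∧ ρ ≤ 1 ∧ ∀ x ∈ t, ρ ≤ r x := by
  classical
  induction t using Finset.induction_on with
  | empty => exact ⟨1, one_pos, le_rfl, fun x hx => absurd hx (Finset.notMem_empty x)⟩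
  | insert a s _ ih =>
    obtain ⟨ρ, h0, h1, h2⟩ := ih fun x hx => h x (Finset.mem_insert_of_mem hx)
    refine ⟨min ρ (r a), lt_min h0 (h a (Finset.mem_insert_self a s)), (min_le_left _ _).trans h1,
      fun x hx => ?_⟩
    rcases Finset.mem_insert.1 hx with rfl | hx
    · exact min_le_right _ _
    · exact (min_le_left _ _).trans (h2 x hx)

end DUnif_aux

open DUnif_aux

/-- **Unif**: uniform smallness of short intervals. -/
theorem stmtDUnif : StmtDUnif := by
  intro m hm hat δ hδ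
  have hlf : IsLocallyFiniteMeasure m := isLocallyFiniteMeasure_of_isFiniteMeasureOnCompacts
  have hex : ∀ x : ℝ, ∃ r : ℝ, 0 < r ∧ m (Metric.ball x (2 * r)) ≤ δ := by
    intro x
    have h1 : m {x} < δ := by rw [hat x]; exact hδ
    obtain ⟨U, hU, hUo, hUm⟩ := Set.exists_isOpen_lt_of_lt {x} δ h1
    obtain ⟨ε, hε, hb⟩ := Metric.isOpen_iff.1 hUo x (hU rfl)
    refine ⟨ε / 2, by positivity, ?_⟩
    rw [show 2 * (ε / 2) = ε by ring]
    exact (measure_mono hb).trans hUm.le
  choose r hr hrm using hex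
  obtain ⟨t, -, ht⟩ := (isCompact_Icc (a := (-1 : ℝ)) (b := 1)).elim_nhds_subcover
    (fun x => Metric.ball x (r x)) fun x _ => Metric.ball_mem_nhds x (hr x)
  obtain ⟨ρ, h0, h1, h2⟩ := ex_min t r fun x _ => hr x
  refine ⟨ρ, h0, h1, fun z hz => ?_⟩
  obtain ⟨x, hx, hzx⟩ := mem_iUnion₂.1 (ht (abs_le.1 hz))
  refine (measure_mono ?_).trans (hrm x)
  intro y hy
  rw [Metric.mem_ball, Real.dist_eq] at hzx ⊢
  have h3 := h2 x hx
  rw [abs_lt] at hzx ⊢
  have h4 := hy.1
  have h5 := hy.2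
  constructor <;> linarith [hzx.1, hzx.2]

end Pool.Agent.A54.QE
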