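import Pool.Agent.Lib.QE.SpecD2

/-!
# Package `QE`, block D, module `DWin`: window averages of the weight
-/

set_option autoImplicit false

namespace Pool.Agent.A54.QE

open MeasureTheory Filter Topology Set
open scoped ENNReal MatrixGroups
open Pool.Agent.A54.Dyn (G fl base ze io mk4 Inv HM)

noncomputable section

namespace DWin_aux

lemma cont_un : Continuous un := by
  apply continuous_induced_rng.mpr
  apply continuous_matrix
  intro i j
  fin_cases i <;> fin_cases j
  · exact continuous_const
  · exact continuous_id
  · exact continuous_const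
  · exact continuous_const

lemma cont_unc (W : Wt) : Continuous (Function.uncurry fun (g : G) (u : ℝ) => ch (g * un u)) :=
  W.cont.comp (continuous_fst.mul (cont_un.comp continuous_snd))

lemma cont_leaf (W : Wt) (g : G) : Continuous fun u : ℝ => ch (g * un u) :=
  W.cont.comp (continuous_const.mul cont_un)

lemma wd_lint (W : Wt) (l : ℝ) (hl : 0 < l) (g : G) :
    ENNReal.ofReal (wd l g) =
      ENNReal.ofReal (2 * l)⁻¹ * ∫⁻ u in Ioc (-l) l, ENNReal.ofReal (ch (g * un u)) := by
  have hle : -l ≤ l := by linarith
  unfold wd
  rw [ENNReal.ofReal_mul (by positivity), intervalIntegral.integral_of_le hle,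
    ofReal_integral_eq_lintegral_ofReal]
  · exact ((cont_leaf W g).intervalIntegrable (-l) l).1
  · exact Eventually.of_forall fun u => (W.pos _).le

lemma wd_shift (l x : ℝ) (g : G) :
    wd l (g * un x) = (2 * l)⁻¹ * ∫ v in (x - l)..(x + l), ch (g * un v) := by
  unfold wd
  have h : ∀ u : ℝ, ch (g * un x * un u) = (fun v => ch (g * un v)) (x + u) := fun u => by
    rw [mul_un_un]
  rw [intervalIntegral.integral_congr (fun u _ => h u),
    intervalIntegral.integral_comp_add_left (fun v => ch (g * un v)) x, sub_eq_add_neg]

end DWin_aux

open DWin_aux in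
theorem stmtDWin : StmtDWin := by
  intro W
  refine ⟨fun l hl => ⟨?_, ?_, ?_⟩, ?_⟩
  · unfold wd
    exact continuous_const.mul
      (intervalIntegral.continuous_parametric_intervalIntegral_of_continuous' (cont_unc W) (-l) l)
  · intro g
    unfold wd
    refine mul_nonneg (by positivity) ?_
    exact intervalIntegral.integral_nonneg (by linarith) fun u _ => (W.pos _).le
  · intro g
    have h1 : ∀ γ : SL(2, ℤ), ENNReal.ofReal (wd l (io γ * g)) =
        ENNReal.ofReal (2 * l)⁻¹ *
          ∫⁻ u in Ioc (-l) l, ENNReal.ofReal (ch (io γ * (g * un u))) := by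
      intro γ
      rw [wd_lint W l hl]
      simp only [mul_assoc]
    have : Countable SL(2, ℤ) := by
      unfold Matrix.SpecialLinearGroup Matrix
      infer_instance
    simp only [h1]
    rw [ENNReal.tsum_mul_left, ← lintegral_tsum]
    · simp only [W.sum]
      rw [lintegral_const, one_mul, Measure.restrict_apply_univ, Real.volume_Ioc,
        ← ENNReal.ofReal_mul (by positivity), ← ENNReal.ofReal_one]
      congr 1
      field_simp
      ring
    · intro γ
      refine Measurable.aemeasurable ?_
      refine ENNReal.measurable_ofReal.comp ?_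
      exact (W.cont.comp (continuous_const.mul (continuous_const.mul cont_un))).measurable
  · intro l R hl hR g x y hxy
    rw [wd_shift, wd_shift]
    have hxy' := abs_le.1 hxy
    have h1 : ∫ v in (x - l)..(x + l), ch (g * un v) ≤
        ∫ v in (y - (l + R))..(y + (l + R)), ch (g * un v) := by
      refine intervalIntegral.integral_mono_interval (by linarith [hxy'.1]) (by linarith)
        (by linarith [hxy'.2]) ?_ ((cont_leaf W g).intervalIntegrable _ _)
      exact Eventually.of_forall fun u => (W.pos _).le
    have h2 : (2 * l)⁻¹ = (l + R) / l * (2 * (l + R))⁻¹ := by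
      have : l + R ≠ 0 := by linarith
      field_simp
    rw [← mul_assoc, ← h2]
    exact mul_le_mul_of_nonneg_left h1 (by positivity)

end

end Pool.Agent.A54.QE
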