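import Pool.Agent.Lib.QE.SpecD2

/-!
# Module `DXE`: choice of the compact set and of `ρ`
-/

set_option autoImplicit false

namespace Pool.Agent.A54.QE

open MeasureTheory Filter Topology Set
open scoped ENNReal MatrixGroups
open Pool.Agent.A54.Dyn (G fl base ze io mk4 Inv HM)

noncomputable section

namespace DXE_aux

lemma io_one : io 1 = (1 : G) := by
  unfold io
  exact map_one (Matrix.SpecialLinearGroup.map (Int.castRingHom ℝ))

lemma sub_gs (K : Set G) : K ⊆ gs K := fun g hg => ⟨1, by rw [io_one, one_mul]; exact hg⟩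

lemma flo_mem {E : Set G} (hE : FI E) {g : G} (hg : g ∈ E) (s : ℕ) : g * fl s ∈ E := by
  induction s with
  | zero => rw [Nat.cast_zero, fl_zero, mul_one]; exact hg
  | succ s ih =>
    rw [Nat.cast_succ, ← mul_fl_fl]
    exact (hE.flo _).2 ih

lemma cnt_le {E X : Set G} (hE : FI E) {g : G} (hg : g ∈ E) (S : ℕ) :
    cnt Xᶜ g S ≤ cnt (E \ X) g S := by
  unfold cnt
  refine Finset.sum_le_sum fun s _ => ?_
  have h1 := flo_mem hE hg s
  by_cases h2 : g * fl s ∈ X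
  · rw [indicator_of_notMem (fun h : g * fl s ∈ Xᶜ => h h2)]
    exact Nat.zero_le _
  · rw [indicator_of_mem (show g * fl s ∈ E \ X from ⟨h1, h2⟩)]
    exact indicator_le (fun _ _ => le_rfl) _

lemma GI_sdiff {A B : Set G} (hA : GI A) (hB : GI B) : GI (A \ B) := fun γ g => by
  rw [Set.mem_sdiff, Set.mem_sdiff, hA γ g, hB γ g]

/-- a finite positive number split into hundredths -/
lemma split {m a : ℝ≥0∞} (h0 : m ≠ 0) (ht : m ≠ ⊤) (ha : a = m / 100) :
    m = 100 * a ∧ a ≠ 0 ∧ a ≠ ⊤ := by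
  subst ha
  refine ⟨?_, ?_, ?_⟩
  · exact (ENNReal.mul_div_cancel (by norm_num) (by norm_num)).symm
  · exact ENNReal.div_ne_zero.2 ⟨h0, by norm_num⟩
  · exact ENNReal.div_ne_top ht (by norm_num)

/-- the sets `X2` with small `ρ` -/
lemma x2_small (hU : StmtDUnif) {μ : Measure G} {lf : G → Measure ℝ} {D : Set G} (hL : LSE μ lf D)
    {E : Set G} (hat : ∀ g ∈ E, ∀ x, lf g {x} = 0) {g : G} (hg : g ∈ E)
    (hpos : lf g (Icc (-1) 1) ≠ 0) : ∃ j : ℕ, g ∈ X2 lf E (1 / ((j : ℝ) + 1)) := by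
  have hfin := hL.fin g
  have hδ : 0 < lf g (Icc (-1) 1) / 10 :=
    (ENNReal.div_ne_zero.2 ⟨hpos, by norm_num⟩).bot_lt
  obtain ⟨ρ, hρ, hρ1, h⟩ := hU (lf g) hfin (hat g hg) _ hδ
  obtain ⟨j, hj⟩ := exists_nat_one_div_lt (show (0 : ℝ) < ρ / 2 by positivity)
  refine ⟨j, hg, hpos, fun z hz => ?_⟩
  have h1 := h z hz
  have h2 : lf g (Icc ((z : ℝ) - 2 * (1 / ((j : ℝ) + 1))) ((z : ℝ) + 2 * (1 / ((j : ℝ) + 1)))) ≤
      lf g (Icc ((z : ℝ) - ρ) ((z : ℝ) + ρ)) := by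
    refine measure_mono (Icc_subset_Icc ?_ ?_)
    · linarith
    · linarith
  calc 10 * lf g (Icc ((z : ℝ) - 2 * (1 / ((j : ℝ) + 1))) ((z : ℝ) + 2 * (1 / ((j : ℝ) + 1)))) ≤
      10 * (lf g (Icc (-1) 1) / 10) := by
        exact mul_le_mul_right (h2.trans h1) 10
    _ = lf g (Icc (-1) 1) := ENNReal.mul_div_cancel (by norm_num) (by norm_num)

/-- the sets `X2` increase if `ρ` decreases -/
lemma x2_mono {lf : G → Measure ℝ} {E : Set G} {ρ ρ' : ℝ} (h : ρ' ≤ ρ) :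
    X2 lf E ρ ⊆ X2 lf E ρ' := by
  rintro g ⟨h1, h2, h3⟩
  refine ⟨h1, h2, fun z hz => le_trans ?_ (h3 z hz)⟩
  refine mul_le_mul_right (measure_mono (Icc_subset_Icc ?_ ?_)) 10
  · linarith
  · linarith

end DXE_aux

open DXE_aux

theorem stmtDXE : StmtDLus → StmtDUnif → StmtDMX → StmtDME → StmtDXM → StmtDXE := by
  intro hLus hU hMX hME hXM hW μ lf D hinv hL E hEm hFI hED hat hE0
  obtain ⟨C, hC⟩ := hMX hW
  have hfin : IsFiniteMeasure (mX μ) := hW.fin μ hinv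
  obtain ⟨ν, hν⟩ : ∃ ν : Measure G, ν = mX μ := ⟨_, rfl⟩
  rw [← hν] at hfin
  have hm0 : ν E ≠ 0 := by
    rw [hν]
    exact fun h => hE0 ((hW.null μ E hEm).1 h)
  have hmt : ν E ≠ ⊤ := measure_ne_top ν E
  obtain ⟨a, ha⟩ : ∃ a : ℝ≥0∞, a = ν E / 100 := ⟨_, rfl⟩
  obtain ⟨hma, ha0, hat'⟩ := split hm0 hmt ha
  -- the compact set
  have hmeas1 : Measurable fun g => lf g (Icc (-1) 1) :=
    (Measure.measurable_coe measurableSet_Icc).comp hL.meas
  obtain ⟨A, hA⟩ : ∃ A : Set G, A = {g | g ∈ E ∧ lf g (Icc (-1) 1) ≠ 0} := ⟨_, rfl⟩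
  have hAm : MeasurableSet A := by
    rw [hA]
    exact hEm.inter (hmeas1 (measurableSet_singleton 0).compl)
  have hsup : ∀ᵐ g ∂μ, lf g (Icc (-1) 1) ≠ 0 := by
    filter_upwards [hL.sup] with g hg
    have h1 := hg 1 one_pos
    exact (h1.trans_le (measure_mono Ioo_subset_Icc_self)).ne'
  have hEA : ν (E \ A) = 0 := by
    rw [hν, hW.null μ _ (hEm.diff hAm)]
    refine measure_mono_null ?_ (ae_iff.1 hsup)
    rintro g ⟨h1, h2⟩
    rw [hA] at h2
    intro h3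
    exact h2 ⟨h1, h3⟩
  have hε : 0 < a / (C + 1) :=
    (ENNReal.div_ne_zero.2 ⟨ha0, ENNReal.add_ne_top.2 ⟨ENNReal.natCast_ne_top C, ENNReal.one_ne_top⟩⟩).bot_lt
  obtain ⟨K, hKA, hK, hKε, hKc⟩ := hLus ν hfin (rt lf) (fun i => by
    unfold rt
    exact ((Measure.measurable_coe measurableSet_Ioo).comp hL.meas).div hmeas1) A hAm _ hε
  have hKE : K ⊆ E := fun g hg => by
    have := hKA hg
    rw [hA] at this
    exact this.1
  have hKm : MeasurableSet K := hK.isClosed.measurableSet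
  -- the set `X1`
  obtain ⟨⟨hgm, hgi⟩, ⟨h1m, h1i⟩, -⟩ := hXM μ lf D hL E K hEm hFI hED hKm 1
  have hEK : ν (E \ gs K) ≤ a / (C + 1) := by
    calc ν (E \ gs K) ≤ ν ((E \ A) ∪ (A \ K)) := by
          refine measure_mono ?_
          rintro g ⟨h1, h2⟩
          by_cases h3 : g ∈ A
          · exact Or.inr ⟨h3, fun h => h2 (sub_gs K h)⟩
          · exact Or.inl ⟨h1, h3⟩
      _ ≤ ν (E \ A) + ν (A \ K) := measure_union_le _ _
      _ = ν (A \ K) := by rw [hEA, zero_add]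
      _ ≤ _ := hKε.le
  have hX1 : ν (E \ X1 lf E K) ≤ a := by
    have h1 := hC μ lf D hinv hL (E \ gs K) (hEm.diff hgm) (GI_sdiff hFI.gam hgi)
    rw [← hν] at h1
    calc ν (E \ X1 lf E K) ≤ C * ν (E \ gs K) := by
          refine le_trans (measure_mono ?_) h1
          rintro g ⟨h2, h3⟩
          by_contra h4
          refine h3 ⟨h2, fun n => ?_⟩
          by_contra h5
          exact h4 ⟨n, not_le.1 h5⟩
      _ ≤ (C + 1) * (a / (C + 1)) := by
          exact mul_le_mul' le_self_add hEK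
      _ = a := ENNReal.mul_div_cancel
          (by simp) (ENNReal.add_ne_top.2 ⟨ENNReal.natCast_ne_top C, ENNReal.one_ne_top⟩)
  -- the set `X2`
  have hX2 : ∃ j : ℕ, ν (E \ X2 lf E (1 / ((j : ℝ) + 1))) ≤ a := by
    have hm2 : ∀ j : ℕ, MeasurableSet (X2 lf E (1 / ((j : ℝ) + 1))) := fun j =>
      (hXM μ lf D hL E K hEm hFI hED hKm _).2.2.1.1
    have hlim := tendsto_measure_iInter_atTop (μ := ν)
      (s := fun j : ℕ => E \ X2 lf E (1 / ((j : ℝ) + 1)))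
      (fun j => (hEm.diff (hm2 j)).nullMeasurableSet) (fun i j hij => by
        refine Set.sdiff_subset_sdiff_right (x2_mono ?_)
        have h1 : (i : ℝ) ≤ j := by exact_mod_cast hij
        exact one_div_le_one_div_of_le (by positivity) (by linarith))
      ⟨0, measure_ne_top ν _⟩
    have h0 : ν (⋂ j : ℕ, E \ X2 lf E (1 / ((j : ℝ) + 1))) = 0 := by
      rw [hν, hW.null μ _ (MeasurableSet.iInter fun j => hEm.diff (hm2 j))]
      refine measure_mono_null ?_ (ae_iff.1 hsup)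
      intro g hg h3
      rw [mem_iInter] at hg
      obtain ⟨j, hj⟩ := x2_small hU hL hat (hg 0).1 h3
      exact (hg j).2 hj
    rw [h0] at hlim
    exact ((hlim.eventually (gt_mem_nhds ha0.bot_lt)).exists).imp fun j hj => hj.le
  obtain ⟨j, hj⟩ := hX2
  obtain ⟨ρ, hρ⟩ : ∃ ρ : ℝ, ρ = 1 / ((j : ℝ) + 1) := ⟨_, rfl⟩
  rw [← hρ] at hj
  have hρ0 : 0 < ρ := by rw [hρ]; positivity
  have hρ1 : ρ ≤ 1 := by
    rw [hρ]
    exact (div_le_one (by positivity)).2 (by linarith [Nat.cast_nonneg (α := ℝ) j])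
  obtain ⟨-, -, ⟨h2m, h2i⟩, ⟨h3m, h3i⟩⟩ := hXM μ lf D hL E K hEm hFI hED hKm ρ
  refine ⟨K, ρ, hK, hKE, fun g hg => ?_, hKc, hρ0, hρ1, fun h0 => ?_⟩
  · have := hKA hg
    rw [hA] at this
    exact this.2
  -- the set `X3`
  have e1 := hME hW μ hinv (E \ X1 lf E K) (hEm.diff h1m) (GI_sdiff hFI.gam h1i) 20
  have e2 := hME hW μ hinv (E \ X2 lf E ρ) (hEm.diff h2m) (GI_sdiff hFI.gam h2i) 20
  rw [← hν] at e1 e2
  have h03 : ν (X3 lf E K ρ) = 0 := by
    rw [hν, hW.null μ _ h3m]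
    exact h0
  have hcov : E ⊆ X3 lf E K ρ ∪ ({g | ∃ S : ℕ, S < 20 * cnt (E \ X1 lf E K) g S} ∪
      {g | ∃ S : ℕ, S < 20 * cnt (E \ X2 lf E ρ) g S}) := by
    intro g hg
    by_contra hcon
    rw [mem_union, mem_union, not_or, not_or] at hcon
    obtain ⟨h1, h2, h3⟩ := hcon
    refine h1 ⟨hg, fun S => ⟨?_, ?_⟩⟩
    · by_contra h4
      exact h2 ⟨S, (not_le.1 h4).trans_le (Nat.mul_le_mul_left 20 (cnt_le hFI hg S))⟩
    · by_contra h4
      exact h3 ⟨S, (not_le.1 h4).trans_le (Nat.mul_le_mul_left 20 (cnt_le hFI hg S))⟩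
  have hfinal : 100 * a ≤ 40 * a := by
    calc 100 * a = ν E := hma.symm
      _ ≤ ν (X3 lf E K ρ) + (ν {g | ∃ S : ℕ, S < 20 * cnt (E \ X1 lf E K) g S} +
          ν {g | ∃ S : ℕ, S < 20 * cnt (E \ X2 lf E ρ) g S}) :=
          (measure_mono hcov).trans ((measure_union_le _ _).trans
            (add_le_add le_rfl (measure_union_le _ _)))
      _ ≤ 0 + (20 * a + 20 * a) := by
          refine add_le_add h03.le (add_le_add (e1.trans ?_) (e2.trans ?_))
          · exact mul_le_mul_right hX1 _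
          · exact mul_le_mul_right hj _
      _ = 40 * a := by ring
  have h1 := (ENNReal.mul_le_mul_iff_left ha0 hat').1 hfinal
  norm_num at h1

end

end Pool.Agent.A54.QE
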