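import Pool.Agent.Lib.QE.SpecD2

/-!
# Package `QE`, block D, module `DXM`: measurability and invariance of the sets `X1`, `X2`, `X3`
-/

set_option autoImplicit false

namespace Pool.Agent.A54.QE

open MeasureTheory Filter Topology Set
open scoped ENNReal MatrixGroups
open Pool.Agent.A54.Dyn (G fl base ze io mk4 Inv HM)

noncomputable section

namespace DXM_aux

lemma countSL : Countable SL(2, ℤ) := by
  unfold Matrix.SpecialLinearGroup Matrix
  infer_instance

lemma io_mul (γ γ' : SL(2, ℤ)) : io (γ * γ') = io γ * io γ' := by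
  unfold Pool.Agent.A54.Dyn.io
  rw [map_mul]

lemma cont_un : Continuous un := by
  apply continuous_induced_rng.mpr
  apply continuous_matrix
  intro i j
  fin_cases i <;> fin_cases j
  · exact continuous_const
  · exact continuous_id
  · exact continuous_const
  · exact continuous_const

lemma meas_left (h : G) : Measurable fun g : G => h * g :=
  (continuous_const.mul continuous_id).measurable

lemma meas_right (h : G) : Measurable fun g : G => g * h :=
  (continuous_id.mul continuous_const).measurable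

lemma meas_act : Measurable fun p : G × ℝ => p.1 * un p.2 :=
  (continuous_fst.mul (cont_un.comp continuous_snd)).measurable

lemma mem_gs_iff {K : Set G} (γ : SL(2, ℤ)) (g : G) : io γ * g ∈ gs K ↔ g ∈ gs K := by
  constructor
  · rintro ⟨γ', h⟩
    refine ⟨γ' * γ, ?_⟩
    rw [io_mul, mul_assoc]
    exact h
  · rintro ⟨γ', h⟩
    refine ⟨γ' * γ⁻¹, ?_⟩
    rw [← mul_assoc, ← io_mul, inv_mul_cancel_right]
    exact h

lemma meas_gs {K : Set G} (hK : MeasurableSet K) : MeasurableSet (gs K) := by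
  have : Countable SL(2, ℤ) := countSL
  have h : gs K = ⋃ γ : SL(2, ℤ), (fun g : G => io γ * g) ⁻¹' K := by
    ext g
    rw [mem_iUnion]
    rfl
  rw [h]
  exact MeasurableSet.iUnion fun γ => meas_left (io γ) hK

/-- the measure of a section of a measurable set -/
lemma meas_sec (hKer : StmtDKer) {μ : Measure G} {lf : G → Measure ℝ} (hL : LS μ lf)
    {A : Set G} (hA : MeasurableSet A) {J : Set ℝ} (hJ : MeasurableSet J) :
    Measurable fun g => lf g ({u | g * un u ∈ A} ∩ J) := by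
  have hS : MeasurableSet {p : G × ℝ | p.1 * un p.2 ∈ A ∧ p.2 ∈ J} :=
    (meas_act hA).inter (measurable_snd hJ)
  have hF : Measurable (Function.uncurry fun (g : G) (u : ℝ) =>
      ({p : G × ℝ | p.1 * un p.2 ∈ A ∧ p.2 ∈ J} : Set (G × ℝ)).indicator (fun _ => (1 : ℝ≥0∞)) (g, u)) :=
    measurable_const.indicator hS
  have h := hKer μ lf hL _ hF
  have e : (fun g => lf g ({u | g * un u ∈ A} ∩ J)) = fun g => ∫⁻ u,
      ({p : G × ℝ | p.1 * un p.2 ∈ A ∧ p.2 ∈ J} : Set (G × ℝ)).indicator (fun _ => (1 : ℝ≥0∞)) (g, u)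
        ∂(lf g) := by
    funext g
    have hm : MeasurableSet ({u | g * un u ∈ A} ∩ J) :=
      ((continuous_const.mul cont_un).measurable hA).inter hJ
    rw [← lintegral_indicator_one hm]
    refine lintegral_congr fun u => ?_
    by_cases hu : g * un u ∈ A ∧ u ∈ J
    · rw [indicator_of_mem (show u ∈ {u | g * un u ∈ A} ∩ J from hu),
        indicator_of_mem (show (g, u) ∈ {p : G × ℝ | p.1 * un p.2 ∈ A ∧ p.2 ∈ J} from hu)]
      rfl
    · rw [indicator_of_notMem (show u ∉ {u | g * un u ∈ A} ∩ J from hu),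
        indicator_of_notMem (show (g, u) ∉ {p : G × ℝ | p.1 * un p.2 ∈ A ∧ p.2 ∈ J} from hu)]
  rw [e]
  exact h

lemma meas_val {μ : Measure G} {lf : G → Measure ℝ} (hL : LS μ lf) {J : Set ℝ}
    (hJ : MeasurableSet J) : Measurable fun g => lf g J :=
  (Measure.measurable_coe hJ).comp hL.meas

lemma meas_cnt {A : Set G} (hA : MeasurableSet A) (S : ℕ) : Measurable fun g => cnt A g S := by
  unfold cnt
  refine Finset.measurable_sum _ fun s _ => ?_
  exact (measurable_const.indicator hA).comp (meas_right _)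

lemma cnt_inv {A : Set G} (hA : GI A) (γ : SL(2, ℤ)) (g : G) (S : ℕ) :
    cnt A (io γ * g) S = cnt A g S := by
  unfold cnt
  refine Finset.sum_congr rfl fun s _ => ?_
  rw [mul_assoc]
  by_cases h : g * fl s ∈ A
  · rw [indicator_of_mem h, indicator_of_mem ((hA γ _).2 h)]
  · rw [indicator_of_notMem h, indicator_of_notMem fun h' => h ((hA γ _).1 h')]

lemma gi_compl {A : Set G} (hA : GI A) : GI Aᶜ := fun γ g => not_congr (hA γ g)

/-- points where rare times are few -/
lemma x3_part {A : Set G} (hA : MeasurableSet A) (S : ℕ) : MeasurableSet {g : G | 20 * cnt Aᶜ g S ≤ S} :=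
  measurableSet_le (measurable_const.mul (meas_cnt hA.compl S)) measurable_const

end DXM_aux

open DXM_aux in
theorem stmtDXM : StmtDKer → StmtDXM := by
  intro hKer μ lf D hL E K mE fE hED mK ρ
  have hLS : LS μ lf := hL.toLS
  have mgs := meas_gs mK
  have mX1 : MeasurableSet (X1 lf E K) := by
    have h : X1 lf E K = E ∩ ⋂ n : ℕ, {g | 10 * lf g ({u | g * un u ∈ E \ gs K} ∩
        Icc (-Real.exp n) (Real.exp n)) ≤ lf g (Icc (-Real.exp n) (Real.exp n))} := by
      ext g
      rw [mem_inter_iff, mem_iInter]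
      rfl
    rw [h]
    refine mE.inter (MeasurableSet.iInter fun n => measurableSet_le
      (measurable_const.mul (meas_sec hKer hLS (mE.diff mgs) measurableSet_Icc)) (meas_val hLS measurableSet_Icc))
  have gX1 : GI (X1 lf E K) := by
    intro γ g
    have key : g ∈ E → ((∀ n : ℕ, 10 * lf (io γ * g) ({u | io γ * g * un u ∈ E \ gs K} ∩
        Icc (-Real.exp n) (Real.exp n)) ≤ lf (io γ * g) (Icc (-Real.exp n) (Real.exp n))) ↔
        ∀ n : ℕ, 10 * lf g ({u | g * un u ∈ E \ gs K} ∩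
        Icc (-Real.exp n) (Real.exp n)) ≤ lf g (Icc (-Real.exp n) (Real.exp n))) := by
      intro hg
      have hp := hL.gam g (hED hg) γ
      have hs : ({u | io γ * g * un u ∈ E \ gs K} : Set ℝ) = {u | g * un u ∈ E \ gs K} := by
        ext u
        rw [mem_setOf_eq, mem_setOf_eq, mul_assoc]
        exact and_congr (fE.gam γ _) (not_congr (mem_gs_iff γ _))
      refine forall_congr' fun n => ?_
      rw [hs]
      exact hp.le_iff _ _ _
    constructor
    · rintro ⟨h1, h2⟩
      have hg := (fE.gam γ g).1 h1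
      exact ⟨hg, (key hg).1 h2⟩
    · rintro ⟨h1, h2⟩
      exact ⟨(fE.gam γ g).2 h1, (key h1).2 h2⟩
  have mX2 : MeasurableSet (X2 lf E ρ) := by
    have h : X2 lf E ρ = E ∩ ({g | lf g (Icc (-1) 1) = 0}ᶜ ∩ ⋂ z : ℚ, ⋂ _ : |(z : ℝ)| ≤ 1,
        {g | 10 * lf g (Icc ((z : ℝ) - 2 * ρ) ((z : ℝ) + 2 * ρ)) ≤ lf g (Icc (-1) 1)}) := by
      ext g
      rw [mem_inter_iff, mem_inter_iff, mem_iInter]
      simp only [mem_iInter]
      rfl
    rw [h]
    refine mE.inter (MeasurableSet.inter ?_ ?_)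
    · exact (measurableSet_eq_fun (meas_val hLS measurableSet_Icc) measurable_const).compl
    · exact MeasurableSet.iInter fun z => MeasurableSet.iInter fun _ => measurableSet_le
        (measurable_const.mul (meas_val hLS measurableSet_Icc)) (meas_val hLS measurableSet_Icc)
  have gX2 : GI (X2 lf E ρ) := by
    intro γ g
    have key : g ∈ E → ((lf (io γ * g) (Icc (-1) 1) ≠ 0 ∧ ∀ z : ℚ, |(z : ℝ)| ≤ 1 →
        10 * lf (io γ * g) (Icc ((z : ℝ) - 2 * ρ) ((z : ℝ) + 2 * ρ)) ≤ lf (io γ * g) (Icc (-1) 1)) ↔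
        (lf g (Icc (-1) 1) ≠ 0 ∧ ∀ z : ℚ, |(z : ℝ)| ≤ 1 →
        10 * lf g (Icc ((z : ℝ) - 2 * ρ) ((z : ℝ) + 2 * ρ)) ≤ lf g (Icc (-1) 1))) := by
      intro hg
      have hp := hL.gam g (hED hg) γ
      refine and_congr (not_congr (hp.zero_iff _)) (forall_congr' fun z => ?_)
      exact imp_congr_right fun _ => hp.le_iff _ _ _
    constructor
    · rintro ⟨h1, h2⟩
      have hg := (fE.gam γ g).1 h1
      exact ⟨hg, (key hg).1 h2⟩
    · rintro ⟨h1, h2⟩
      exact ⟨(fE.gam γ g).2 h1, (key h1).2 h2⟩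
  refine ⟨⟨mgs, fun γ g => mem_gs_iff γ g⟩, ⟨mX1, gX1⟩, ⟨mX2, gX2⟩, ?_, ?_⟩
  · have h : X3 lf E K ρ = E ∩ ⋂ S : ℕ, ({g | 20 * cnt (X1 lf E K)ᶜ g S ≤ S} ∩
        {g | 20 * cnt (X2 lf E ρ)ᶜ g S ≤ S}) := by
      ext g
      rw [mem_inter_iff, mem_iInter]
      rfl
    rw [h]
    exact mE.inter (MeasurableSet.iInter fun S => (x3_part mX1 S).inter (x3_part mX2 S))
  · intro γ g
    refine and_congr (fE.gam γ g) (forall_congr' fun S => ?_)
    rw [cnt_inv (gi_compl gX1), cnt_inv (gi_compl gX2)]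

end

end Pool.Agent.A54.QE
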