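import Pool.Agent.Lib.QE.SpecD2

/-!
# Package `QE`, module `DZoom`: the zoom lemma (helper93)
-/

set_option autoImplicit false

namespace Pool.Agent.A54.QE

open MeasureTheory Filter Topology Set
open scoped ENNReal MatrixGroups
open Pool.Agent.A54.Dyn (G fl base ze io mk4 Inv HM)

noncomputable section

theorem stmtDZoom : StmtDZoom := by
  intro hW μ hμ F hF hinv σ hlim
  haveI := hW.fin μ hμ
  have hac : mX μ ≪ μ := withDensity_absolutelyContinuous _ _
  have hF' : Measurable fun g : G => min (F g) 1 := hF.min measurable_const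
  have hinv' : ∀ (γ : SL(2, ℤ)) (g : G), min (F (io γ * g)) 1 = min (F g) 1 := by
    intro γ g
    rw [hinv]
  have h1 : ∀ n : ℕ, ∫⁻ g, min (F (g * fl (σ * n))) 1 ∂(mX μ) = ∫⁻ g, min (F g) 1 ∂(mX μ) := fun n =>
    hW.flo μ hμ (fun g => min (F g) 1) hF' hinv' _
  have h2 : Tendsto (fun n : ℕ => ∫⁻ g, min (F (g * fl (σ * n))) 1 ∂(mX μ)) atTop (𝓝 (∫⁻ _g : G, 0 ∂(mX μ))) := by
    refine tendsto_lintegral_of_dominated_convergence (fun _ => 1) (fun n => ?_)
      (fun n => ae_of_all _ fun g => min_le_right _ _) ?_ ?_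
    · exact hF'.comp (continuous_mul_right (fl (σ * n))).measurable
    · rw [lintegral_const, one_mul]
      exact measure_ne_top _ _
    · filter_upwards [hac.ae_le hlim] with g hg
      have h3 := hg.min (tendsto_const_nhds (x := (1 : ℝ≥0∞)))
      have h10 : min (0 : ℝ≥0∞) 1 = 0 := min_eq_left (show (0 : ℝ≥0∞) ≤ 1 from bot_le)
      rwa [h10] at h3
  rw [lintegral_zero] at h2
  have h4 : ∫⁻ g, min (F g) 1 ∂(mX μ) = 0 := by
    have h5 : Tendsto (fun n : ℕ => ∫⁻ g, min (F (g * fl (σ * n))) 1 ∂(mX μ)) atTop (𝓝 (∫⁻ g, min (F g) 1 ∂(mX μ))) := by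
      simp only [h1]
      exact tendsto_const_nhds
    exact tendsto_nhds_unique h5 h2
  have h6 : mX μ {g | F g ≠ 0} = 0 := by
    have h7 := (lintegral_eq_zero_iff hF').1 h4
    have h8 : ∀ᵐ g ∂(mX μ), F g = 0 := by
      filter_upwards [h7] with g hg
      have h9 : min (F g) 1 = 0 := hg
      rcases min_choice (F g) 1 with h | h
      · rw [← h]
        exact h9
      · rw [h] at h9
        exact absurd h9 one_ne_zero
    exact h8
  have hm : MeasurableSet {g | F g ≠ 0} := (measurableSet_eq_fun hF measurable_const).compl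
  exact (hW.null μ _ hm).1 h6

end

end Pool.Agent.A54.QE
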