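import Pool.Agent.Lib.QE.DAsm
import Pool.Agent.Lib.QE.DBes
import Pool.Agent.Lib.QE.DMxL
import Pool.Agent.Lib.QE.DSeq
import Pool.Agent.Lib.QE.DLus
import Pool.Agent.Lib.QE.DPoly
import Pool.Agent.Lib.QE.DTime
import Pool.Agent.Lib.QE.DUnif
import Pool.Agent.Lib.QE.DPick
import Pool.Agent.Lib.QE.DCont
import Pool.Agent.Lib.QE.DQc
import Pool.Agent.Lib.QE.DQg
import Pool.Agent.Lib.QE.DMul
import Pool.Agent.Lib.QE.DKer
import Pool.Agent.Lib.QE.DNull
import Pool.Agent.Lib.QE.DDns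
import Pool.Agent.Lib.QE.DFlo
import Pool.Agent.Lib.QE.DWin
import Pool.Agent.Lib.QE.DMX
import Pool.Agent.Lib.QE.DME
import Pool.Agent.Lib.QE.DZoom
import Pool.Agent.Lib.QE.DXM
import Pool.Agent.Lib.QE.DXE
import Pool.Agent.Lib.QE.DHkN
import Pool.Agent.Lib.QE.DSel
import Pool.Agent.Lib.QE.DGeo
import Pool.Agent.Lib.QE.DOne
import Pool.Agent.Lib.QE.DLim
import Pool.Agent.Lib.QE.DHP
import Pool.Agent.Lib.QE.DMea
import Pool.Agent.Lib.QE.DQ0
import Pool.Agent.Lib.QE.DTI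
import Pool.Agent.Lib.QE.DFin

/-!
# Package `QE`, block D: the theorem
-/

set_option autoImplicit false

namespace Pool.Agent.A54.QE

/-- block D: the limit measure is invariant under `U` -/
theorem stmtD (hW : Wt) : StmtD := by
  have hXE : StmtDXE := stmtDXE stmtDLus stmtDUnif (stmtDMX (stmtDMxL stmtDBes) stmtDKer stmtDWin) (stmtDME stmtDSeq)
    (stmtDXM stmtDKer)
  have hHP : StmtDHP := stmtDHP (stmtDXM stmtDKer) hXE (stmtDSel stmtDHkN)
    (stmtDOne stmtDTime (stmtDPick stmtDPoly) stmtDGeo stmtDFlo) stmtDLim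
  have hD : StmtDDns := stmtDDns stmtDKer (stmtDNull stmtDKer)
  have hQ0 : StmtDQ0 := stmtDQ0 hD (stmtDMea stmtDKer stmtDCont stmtDQc) hHP stmtDZoom stmtDFlo
  exact stmtD_of hW (stmtDTI stmtDKer hD stmtDFlo stmtDCont stmtDQc (stmtDQg stmtDCont stmtDQc) (stmtDMul stmtDCont)
    stmtDZoom hQ0) stmtDFin

end Pool.Agent.A54.QE
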