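import Pool.Agent.Lib.QE.SpecD2

/-!
# Package `QE`, block D: assembly from the statements
-/

set_option autoImplicit false

namespace Pool.Agent.A54.QE

open MeasureTheory Filter Topology Set
open Pool.Agent.A54.Dyn (G Inv)

/-- block D from its last two statements -/
theorem stmtD_of (hW : Wt) (hT : StmtDTI) (hF : StmtDFin) : StmtD := fun μ lf D hi hr hl hn hp =>
  hF μ lf hl.toLS (hT hW μ lf D hi hr hl hn hp)

end Pool.Agent.A54.QE
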