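import Pool.Agent.Lib.QE.SpecD2

/-!
# Package `QE`, block D: the set `Dn`
-/

set_option autoImplicit false

namespace Pool.Agent.A54.QE

open MeasureTheory Filter Topology Set
open scoped ENNReal MatrixGroups
open Pool.Agent.A54.Dyn (G fl base ze io mk4 Inv HM)

noncomputable section

namespace DDns_aux

lemma cont_un : Continuous fun p : G × ℝ => p.1 * un p.2 := by
  have h : Continuous un := by
    apply continuous_induced_rng.mpr
    apply continuous_matrix
    intro i j
    fin_cases i <;> fin_cases j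
    · exact continuous_const
    · exact continuous_id
    · exact continuous_const
    · exact continuous_const
  exact continuous_fst.mul (h.comp continuous_snd)

lemma meas_un : Measurable fun p : G × ℝ => p.1 * un p.2 := cont_un.measurable

lemma meas_leaf (g : G) : Measurable fun u : ℝ => g * un u :=
  (cont_un.comp (continuous_const.prodMk continuous_id)).measurable

variable {μ : Measure G} {lf : G → Measure ℝ} {D : Set G}

lemma un_at (h : LS μ lf) (g : G) (u x : ℝ) : lf (g * un u) {x} = lf g {x + u} := by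
  rw [h.tr, Measure.map_apply (by fun_prop) (measurableSet_singleton _)]
  congr 1
  ext y
  simp only [mem_preimage, mem_singleton_iff]
  constructor
  · intro h
    linarith
  · rintro rfl
    ring

lemma fl_at (m : Measure ℝ) (x : ℝ) :
    (m.map fun y => Real.exp (-1) * y) {x} = m {Real.exp 1 * x} := by
  rw [Measure.map_apply (by fun_prop) (measurableSet_singleton _)]
  congr 1
  have he : Real.exp 1 * Real.exp (-1) = 1 := by rw [← Real.exp_add]; simp
  ext y
  simp only [mem_preimage, mem_singleton_iff]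
  constructor
  · rintro rfl
    rw [← mul_assoc, he, one_mul]
  · rintro rfl
    rw [← mul_assoc, mul_comm (Real.exp (-1)), he, one_mul]

/-- the bad set -/
def N0 (lf : G → Measure ℝ) (D : Set G) : Set G := {g | g ∈ D ∧ lf g {0} ≠ 0}

lemma meas_N0 (h : LSE μ lf D) : MeasurableSet (N0 lf D) := by
  have h1 : Measurable fun g => lf g {0} :=
    (Measure.measurable_coe (measurableSet_singleton 0)).comp h.meas
  exact h.mD.inter (h1 (measurableSet_singleton 0)).compl

lemma dn_iff (h : LSE μ lf D) (g : G) (hg : g ∈ D) :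
    (∀ x, lf g {x} = 0) ↔ lf g {u | g * un u ∈ N0 lf D} = 0 := by
  have e : ∀ u, lf (g * un u) {0} = lf g {u} := by
    intro u
    rw [un_at h.toLS, zero_add]
  constructor
  · intro h1
    have h2 : {u | g * un u ∈ N0 lf D} = ∅ := by
      rw [eq_empty_iff_forall_notMem]
      rintro u ⟨-, hu⟩
      exact hu (by rw [e, h1])
    rw [h2, measure_empty]
  · intro h1 x
    by_contra hx
    have h2 : ({x} : Set ℝ) ⊆ {u | g * un u ∈ N0 lf D} := by
      rintro u rfl
      exact ⟨(h.fi.uni g u).2 hg, by rw [e]; exact hx⟩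
    exact hx (measure_mono_null h2 h1)

end DDns_aux

open DDns_aux in
theorem stmtDDns : StmtDKer → StmtDNull → StmtDDns := by
  intro hKer hNull μ lf D h hat
  have hN := meas_N0 h
  have hN0 : μ (N0 lf D) = 0 := by
    refine measure_mono_null ?_ hat
    rintro g ⟨-, hg⟩
    exact hg
  have hm : Measurable fun g => lf g {u | g * un u ∈ N0 lf D} := by
    have h1 := hKer μ lf h.toLS (fun g u => (N0 lf D).indicator (fun _ => 1) (g * un u))
      ((measurable_const.indicator hN).comp meas_un)
    have h3 : (fun g => ∫⁻ u, (N0 lf D).indicator (fun _ => (1 : ℝ≥0∞)) (g * un u) ∂(lf g)) =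
        fun g => lf g {u | g * un u ∈ N0 lf D} := by
      funext g
      have h2 : (fun u : ℝ => (N0 lf D).indicator (fun _ => (1 : ℝ≥0∞)) (g * un u)) =
          {u | g * un u ∈ N0 lf D}.indicator fun _ => 1 := rfl
      have h4 : MeasurableSet {u | g * un u ∈ N0 lf D} := meas_leaf g hN
      rw [h2, lintegral_indicator h4, setLIntegral_one]
    rw [h3] at h1
    exact h1
  have heq : Dn lf D = D ∩ {g | lf g {u | g * un u ∈ N0 lf D} = 0} := by
    ext g
    constructor
    · rintro ⟨h1, h2⟩
      exact ⟨h1, (dn_iff h g h1).1 h2⟩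
    · rintro ⟨h1, h2⟩
      exact ⟨h1, (dn_iff h g h1).2 h2⟩
  refine ⟨?_, ⟨?_, ?_, ?_⟩, ?_⟩
  · rw [heq]
    exact h.mD.inter (hm (measurableSet_singleton 0))
  · intro γ g
    constructor
    · rintro ⟨h1, h2⟩
      have h3 := (h.fi.gam γ g).1 h1
      exact ⟨h3, fun x => ((h.gam g h3 γ).zero_iff {x}).1 (h2 x)⟩
    · rintro ⟨h1, h2⟩
      exact ⟨(h.fi.gam γ g).2 h1, fun x => ((h.gam g h1 γ).zero_iff {x}).2 (h2 x)⟩
  · intro g u
    constructor
    · rintro ⟨h1, h2⟩
      refine ⟨(h.fi.uni g u).1 h1, fun x => ?_⟩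
      have h3 := h2 (x - u)
      rwa [un_at h.toLS, sub_add_cancel] at h3
    · rintro ⟨h1, h2⟩
      refine ⟨(h.fi.uni g u).2 h1, fun x => ?_⟩
      rw [un_at h.toLS]
      exact h2 _
  · intro g
    constructor
    · rintro ⟨h1, h2⟩
      have h3 := (h.fi.flo g).1 h1
      refine ⟨h3, fun x => ?_⟩
      have h4 := ((h.flo g h3).zero_iff {Real.exp (-1) * x}).1 (h2 _)
      rw [fl_at, ← mul_assoc, ← Real.exp_add] at h4
      simpa using h4
    · rintro ⟨h1, h2⟩
      refine ⟨(h.fi.flo g).2 h1, fun x => ?_⟩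
      rw [(h.flo g h1).zero_iff {x}, fl_at]
      exact h2 _
  · have h1 := hNull μ lf h.toLS (N0 lf D) hN hN0
    have h2 : (Dn lf D)ᶜ ⊆ Dᶜ ∪ {g | ¬ lf g {u | g * un u ∈ N0 lf D} = 0} := by
      intro g hg
      by_contra h3
      rw [mem_union, not_or] at h3
      refine hg ?_
      rw [heq]
      exact ⟨not_not.1 h3.1, not_not.1 h3.2⟩
    refine measure_mono_null h2 ?_
    rw [measure_union_null_iff]
    exact ⟨h.nD, h1⟩

end

end Pool.Agent.A54.QE
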