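import Pool.Agent.Lib.QE.SpecD

/-!
# Package `QE`, block D: group lemmas, calculus of `Pr` and `QP`
-/

set_option autoImplicit false

namespace Pool.Agent.A54.QE

open MeasureTheory Filter Topology Set
open scoped ENNReal MatrixGroups
open Pool.Agent.A54.Dyn (G fl base ze io mk4 Inv HM)

noncomputable section

lemma G_ext' {g h : G} (h00 : g 0 0 = h 0 0) (h01 : g 0 1 = h 0 1) (h10 : g 1 0 = h 1 0) (h11 : g 1 1 = h 1 1) : g = h := by
  ext i j
  fin_cases i <;> fin_cases j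
  · exact h00
  · exact h01
  · exact h10
  · exact h11

lemma G_det (g : G) : g 0 0 * g 1 1 - g 0 1 * g 1 0 = 1 := by
  have := g.det_coe
  rwa [Matrix.det_fin_two] at this

lemma G_mul00 (g h : G) : (g * h) 0 0 = g 0 0 * h 0 0 + g 0 1 * h 1 0 := by
  simp [Matrix.mul_apply, Fin.sum_univ_two]
lemma G_mul01 (g h : G) : (g * h) 0 1 = g 0 0 * h 0 1 + g 0 1 * h 1 1 := by
  simp [Matrix.mul_apply, Fin.sum_univ_two]
lemma G_mul10 (g h : G) : (g * h) 1 0 = g 1 0 * h 0 0 + g 1 1 * h 1 0 := by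
  simp [Matrix.mul_apply, Fin.sum_univ_two]
lemma G_mul11 (g h : G) : (g * h) 1 1 = g 1 0 * h 0 1 + g 1 1 * h 1 1 := by
  simp [Matrix.mul_apply, Fin.sum_univ_two]

lemma G_inv00 (g : G) : g⁻¹ 0 0 = g 1 1 := by simp [Matrix.SpecialLinearGroup.coe_inv, Matrix.adjugate_fin_two]
lemma G_inv01 (g : G) : g⁻¹ 0 1 = -g 0 1 := by simp [Matrix.SpecialLinearGroup.coe_inv, Matrix.adjugate_fin_two]
lemma G_inv10 (g : G) : g⁻¹ 1 0 = -g 1 0 := by simp [Matrix.SpecialLinearGroup.coe_inv, Matrix.adjugate_fin_two]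
lemma G_inv11 (g : G) : g⁻¹ 1 1 = g 0 0 := by simp [Matrix.SpecialLinearGroup.coe_inv, Matrix.adjugate_fin_two]

lemma un_00 (u : ℝ) : un u 0 0 = 1 := rfl
lemma un_01 (u : ℝ) : un u 0 1 = u := rfl
lemma un_10 (u : ℝ) : un u 1 0 = 0 := rfl
lemma un_11 (u : ℝ) : un u 1 1 = 1 := rfl
lemma fl_00 (t : ℝ) : fl t 0 0 = Real.exp (t / 2) := rfl
lemma fl_01 (t : ℝ) : fl t 0 1 = 0 := rfl
lemma fl_10 (t : ℝ) : fl t 1 0 = 0 := rfl
lemma fl_11 (t : ℝ) : fl t 1 1 = Real.exp (-t / 2) := rfl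

lemma un_mul_un (u v : ℝ) : un u * un v = un (u + v) := by
  apply G_ext' <;> simp [G_mul00, G_mul01, G_mul10, G_mul11, un_00, un_01, un_10, un_11] <;> ring

lemma un_zero : un 0 = 1 := by
  apply G_ext' <;> simp [un_00, un_01, un_10, un_11]

lemma un_inv (u : ℝ) : (un u)⁻¹ = un (-u) := by
  rw [inv_eq_iff_mul_eq_one, un_mul_un]; simp [un_zero]

lemma fl_mul_fl (s t : ℝ) : fl s * fl t = fl (s + t) := by
  apply G_ext' <;> simp [G_mul00, G_mul01, G_mul10, G_mul11, fl_00, fl_01, fl_10, fl_11, ← Real.exp_add] <;> ring_nf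

lemma fl_zero : fl 0 = 1 := by
  apply G_ext' <;> simp [fl_00, fl_01, fl_10, fl_11]

lemma fl_inv (t : ℝ) : (fl t)⁻¹ = fl (-t) := by
  rw [inv_eq_iff_mul_eq_one, fl_mul_fl]; simp [fl_zero]

lemma un_mul_fl (u t : ℝ) : un u * fl t = fl t * un (Real.exp (-t) * u) := by
  have h : Real.exp (t / 2) * Real.exp (-t) = Real.exp (-t / 2) := by rw [← Real.exp_add]; ring_nf
  apply G_ext' <;> simp only [G_mul00, G_mul01, G_mul10, G_mul11, fl_00, fl_01, fl_10, fl_11, un_00, un_01, un_10, un_11]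
  · ring
  · linear_combination (-u) * h
  · ring
  · ring

lemma fl_mul_un (u t : ℝ) : fl t * un u = un (Real.exp t * u) * fl t := by
  rw [un_mul_fl, ← mul_assoc (Real.exp (-t)), ← Real.exp_add]; simp

lemma mul_un_un (g : G) (u v : ℝ) : g * un u * un v = g * un (u + v) := by rw [mul_assoc, un_mul_un]
lemma mul_fl_fl (g : G) (s t : ℝ) : g * fl s * fl t = g * fl (s + t) := by rw [mul_assoc, fl_mul_fl]
lemma mul_un_fl (g : G) (u t : ℝ) : g * un u * fl t = g * fl t * un (Real.exp (-t) * u) := by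
  rw [mul_assoc, un_mul_fl, ← mul_assoc]

lemma vc_un (g : G) (u : ℝ) : vc (g * un u) = vc g := by
  simp [vc, G_mul00, G_mul10, un_00, un_10]

/-! ### proportional measures -/

lemma Pr.refl (m : Measure ℝ) : Pr m m := ⟨1, one_ne_zero, ENNReal.one_ne_top, by simp⟩

lemma Pr.symm {m m' : Measure ℝ} (h : Pr m m') : Pr m' m := by
  obtain ⟨c, h0, ht, rfl⟩ := h
  refine ⟨c⁻¹, ENNReal.inv_ne_zero.mpr ht, ENNReal.inv_ne_top.mpr h0, ?_⟩
  rw [smul_smul, ENNReal.inv_mul_cancel h0 ht, one_smul]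

lemma Pr.trans {m m' m'' : Measure ℝ} (h : Pr m m') (h' : Pr m' m'') : Pr m m'' := by
  obtain ⟨c, h0, ht, rfl⟩ := h
  obtain ⟨c', h0', ht', rfl⟩ := h'
  exact ⟨c * c', mul_ne_zero h0 h0', ENNReal.mul_ne_top ht ht', by rw [smul_smul]⟩

lemma Pr.map {m m' : Measure ℝ} (h : Pr m m') (f : ℝ → ℝ) : Pr (m.map f) (m'.map f) := by
  obtain ⟨c, h0, ht, rfl⟩ := h
  exact ⟨c, h0, ht, by rw [Measure.map_smul]⟩

lemma Pr.zero_iff {m m' : Measure ℝ} (h : Pr m m') (A : Set ℝ) : m A = 0 ↔ m' A = 0 := by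
  obtain ⟨c, h0, ht, rfl⟩ := h
  simp [h0]

lemma Pr.ne_zero {m m' : Measure ℝ} (h : Pr m m') (hm : m ≠ 0) : m' ≠ 0 := by
  rintro rfl
  obtain ⟨c, h0, ht, rfl⟩ := h
  simp at hm

/-- comparison of two values is invariant under proportionality -/
lemma Pr.le_iff {m m' : Measure ℝ} (h : Pr m m') (k : ℝ≥0∞) (A B : Set ℝ) : k * m A ≤ m B ↔ k * m' A ≤ m' B := by
  obtain ⟨c, h0, ht, rfl⟩ := h
  simp only [Measure.smul_apply, smul_eq_mul]
  rw [mul_left_comm, ENNReal.mul_le_mul_iff_right h0 ht]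

lemma Pr.div_eq {m m' : Measure ℝ} (h : Pr m m') (A B : Set ℝ) : m A / m B = m' A / m' B := by
  obtain ⟨c, h0, ht, rfl⟩ := h
  simp only [Measure.smul_apply, smul_eq_mul]
  rw [ENNReal.mul_div_mul_left _ _ h0 ht]

/-! ### quasi-periods -/

lemma map_sub_sub (m : Measure ℝ) (a b : ℝ) : (m.map fun x => x - a).map (fun x => x - b) = m.map fun x => x - (a + b) := by
  rw [Measure.map_map (by fun_prop) (by fun_prop)]
  congr 1; ext x; simp only [Function.comp]; ring

lemma map_mul_sub (m : Measure ℝ) (c b : ℝ) (hc : c ≠ 0) :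
    (m.map fun x => c * x).map (fun x => x - b) = (m.map fun x => x - b / c).map fun x => c * x := by
  rw [Measure.map_map (by fun_prop) (by fun_prop), Measure.map_map (by fun_prop) (by fun_prop)]
  congr 1; ext x; simp only [Function.comp]; field_simp

lemma map_mul_mul (m : Measure ℝ) (c b : ℝ) : (m.map fun x => c * x).map (fun x => b * x) = m.map fun x => b * c * x := by
  rw [Measure.map_map (by fun_prop) (by fun_prop)]
  congr 1; ext x; simp only [Function.comp]; ring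

lemma map_sub_zero (m : Measure ℝ) : (m.map fun x => x - 0) = m := by simp
lemma map_one_mul (m : Measure ℝ) : (m.map fun x => 1 * x) = m := by simp

lemma QP.congr {m m' : Measure ℝ} (h : Pr m m') {τ : ℝ} : QP m τ ↔ QP m' τ :=
  ⟨fun k => ((h.symm.map _).trans k).trans h, fun k => ((h.map _).trans k).trans h.symm⟩

lemma QP.zero (m : Measure ℝ) : QP m 0 := by rw [QP, map_sub_zero]; exact Pr.refl m

/-- quasi-periods of a shifted measure -/
lemma QP.shift {m : Measure ℝ} (a τ : ℝ) : QP (m.map fun x => x - a) τ ↔ QP m τ := by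
  constructor
  · intro h
    have h1 := Pr.map h (fun x => x - (-a))
    rw [map_sub_sub, map_sub_sub, map_sub_sub] at h1
    rw [show a + -a = 0 by ring, show a + (τ + -a) = τ by ring, map_sub_zero] at h1
    exact h1
  · intro h
    have h1 := Pr.map h (fun x => x - a)
    rw [map_sub_sub] at h1
    rw [QP, map_sub_sub, add_comm]
    exact h1

/-- quasi-periods of a scaled measure -/
lemma QP.scale {m : Measure ℝ} {c : ℝ} (hc : c ≠ 0) (τ : ℝ) : QP (m.map fun x => c * x) τ ↔ QP m (τ / c) := by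
  constructor
  · intro h
    have h1 := Pr.map h (fun x => c⁻¹ * x)
    rw [map_mul_sub m c τ hc, map_mul_mul, map_mul_mul, inv_mul_cancel₀ hc, map_one_mul, map_one_mul] at h1
    exact h1
  · intro h
    have h1 := Pr.map h (fun x => c * x)
    rw [QP, map_mul_sub m c τ hc]
    exact h1

end

end Pool.Agent.A54.QE
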