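import Pool.Agent.Lib.QE.SpecD2

/-!
# Package `QE`, block D, module `DTI`: translation invariance of the leaf measures (helper22)
-/

set_option autoImplicit false

namespace Pool.Agent.A54.QE

open MeasureTheory Filter Topology Set
open scoped ENNReal MatrixGroups
open Pool.Agent.A54.Dyn (G fl base ze io mk4 Inv HM)

noncomputable section

namespace DTI_aux

/-- all translations are quasi-periods -/
def A0 (lf : G → Measure ℝ) (D : Set G) : Set G := {g | g ∈ Dn lf D ∧ ∀ τ : ℝ, QP (lf g) τ}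

/-- quotient of two intervals -/
def xx (lf : G → Measure ℝ) (τ : ℝ) (g : G) : ℝ≥0∞ := lf g (Icc (-1 + τ) (1 + τ)) / lf g (Icc (-1) 1)

theorem meas_lf {μ : Measure G} {lf : G → Measure ℝ} (h : LS μ lf) {S : Set ℝ} (hS : MeasurableSet S) :
    Measurable fun g => lf g S := (Measure.measurable_coe hS).comp h.meas

theorem fin_lf {μ : Measure G} {lf : G → Measure ℝ} (h : LS μ lf) (g : G) (a b : ℝ) :
    lf g (Icc a b) ≠ ⊤ := by
  have := h.fin g
  exact (isCompact_Icc.measure_lt_top).ne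

theorem all_of_rat (hQc : StmtDQc) (hQg : StmtDQg) (m : Measure ℝ) (hf : IsFiniteMeasureOnCompacts m)
    (h0 : m ≠ 0) (ha : ∀ x, m {x} = 0)
    (h : ∀ τ a b a' b' : ℚ, m (Ioo (a + τ) (b + τ)) * m (Ioo (a' : ℝ) b') =
      m (Ioo (a : ℝ) b) * m (Ioo (a' + τ) (b' + τ))) : ∀ τ : ℝ, QP m τ := by
  have h1 : ∀ τ : ℚ, QP m τ := fun τ => (hQc m hf h0 τ).2 fun a b a' b' => h τ a b a' b'
  have hc : IsClosed {τ | QP m τ} := (hQg m hf h0 ha).2.2.1
  intro τ
  have h2 : closure (range ((↑) : ℚ → ℝ)) ⊆ {τ | QP m τ} :=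
    closure_minimal (by rintro _ ⟨q, rfl⟩; exact h1 q) hc
  exact h2 (Rat.denseRange_cast τ)

theorem A0_eq (hQc : StmtDQc) (hQg : StmtDQg) {μ : Measure G} {lf : G → Measure ℝ} {D : Set G}
    (h : LSE μ lf D) : A0 lf D = Dn lf D ∩ ⋂ (τ : ℚ), ⋂ (a : ℚ), ⋂ (b : ℚ), ⋂ (a' : ℚ), ⋂ (b' : ℚ),
      {g | lf g (Ioo (a + τ) (b + τ)) * lf g (Ioo (a' : ℝ) b') =
        lf g (Ioo (a : ℝ) b) * lf g (Ioo (a' + τ) (b' + τ))} := by
  ext g
  simp only [A0, mem_inter_iff, mem_iInter, Set.mem_ofPred_eq]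
  constructor
  · rintro ⟨h1, h2⟩
    refine ⟨h1, fun τ a b a' b' => ?_⟩
    exact (hQc (lf g) (h.fin g) (h.ne g h1.1) τ).1 (h2 τ) a b a' b'
  · rintro ⟨h1, h2⟩
    exact ⟨h1, all_of_rat hQc hQg (lf g) (h.fin g) (h.ne g h1.1) h1.2 h2⟩

theorem flo_iff {B : Set G} (hB : FI B) (g : G) (n : ℕ) : g * fl (-1 * (n : ℝ)) ∈ B ↔ g ∈ B := by
  induction n with
  | zero => rw [Nat.cast_zero, mul_zero, fl_zero, mul_one]
  | succ k ih =>
    rw [← ih, ← hB.flo (g * fl (-1 * ((k + 1 : ℕ) : ℝ))), mul_fl_fl]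
    have h1 : -1 * ((k + 1 : ℕ) : ℝ) + 1 = -1 * (k : ℝ) := by
      push_cast
      ring
    rw [h1]

theorem map_Icc (m : Measure ℝ) {c : ℝ} (hc : 0 < c) (a b : ℝ) :
    (m.map fun x => c * x) (Icc a b) = m (Icc (c⁻¹ * a) (c⁻¹ * b)) := by
  rw [Measure.map_apply (by fun_prop) measurableSet_Icc]
  congr 1
  ext x
  simp only [mem_preimage, mem_Icc]
  rw [inv_mul_le_iff₀ hc, le_inv_mul_iff₀ hc]

theorem map_sub_Icc (m : Measure ℝ) (τ a b : ℝ) :
    (m.map fun x => x - τ) (Icc a b) = m (Icc (a + τ) (b + τ)) := by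
  rw [Measure.map_apply (by fun_prop) measurableSet_Icc]
  congr 1
  ext x
  simp only [mem_preimage, mem_Icc]
  constructor
  · rintro ⟨h1, h2⟩
    exact ⟨by linarith, by linarith⟩
  · rintro ⟨h1, h2⟩
    exact ⟨by linarith, by linarith⟩

theorem map_sub_Ioo (m : Measure ℝ) (τ a b : ℝ) :
    (m.map fun x => x - τ) (Ioo a b) = m (Ioo (a + τ) (b + τ)) := by
  rw [Measure.map_apply (by fun_prop) measurableSet_Ioo]
  congr 1
  ext x
  simp only [mem_preimage, mem_Ioo]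
  constructor
  · rintro ⟨h1, h2⟩
    exact ⟨by linarith, by linarith⟩
  · rintro ⟨h1, h2⟩
    exact ⟨by linarith, by linarith⟩

/-- the set `A0` is invariant -/
theorem A0_gi {μ : Measure G} {lf : G → Measure ℝ} {D : Set G} (h : LSE μ lf D) (hN : FI (Dn lf D)) :
    GI (A0 lf D) := by
  intro γ g
  constructor
  · rintro ⟨h1, h2⟩
    have h3 := (hN.gam γ g).1 h1
    exact ⟨h3, fun τ => (QP.congr (h.gam g h3.1 γ)).1 (h2 τ)⟩
  · rintro ⟨h1, h2⟩
    exact ⟨(hN.gam γ g).2 h1, fun τ => (QP.congr (h.gam g h1.1 γ)).2 (h2 τ)⟩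

end DTI_aux

open DTI_aux

theorem stmtDTI : StmtDKer → StmtDDns → StmtDFlo → StmtDCont → StmtDQc → StmtDQg → StmtDMul →
    StmtDZoom → StmtDQ0 → StmtDTI := by
  intro _ hDns hFlo hCont hQc hQg hMul hZoom hQ0 hW μ lf D hI hR hL hNA hPl
  obtain ⟨hNm, hNF, hNn⟩ := hDns μ lf D hL hNA
  have hLS : LS μ lf := hL.toLS
  -- almost every point is in `A0`
  have hA : ∀ᵐ g ∂μ, g ∈ A0 lf D := by
    have h1 : ∀ᵐ g ∂μ, g ∈ Dn lf D := hNn
    filter_upwards [h1, hQ0 hW μ lf D hI hR hL hNA hPl] with g hg h2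
    exact ⟨hg, (hQg (lf g) (hL.fin g) (hL.ne g hg.1) hg.2).2.2.2 h2⟩
  have hAm : MeasurableSet (A0 lf D) := by
    rw [A0_eq hQc hQg hL]
    refine hNm.inter ?_
    refine MeasurableSet.iInter fun τ => MeasurableSet.iInter fun a => MeasurableSet.iInter fun b =>
      MeasurableSet.iInter fun a' => MeasurableSet.iInter fun b' => ?_
    exact measurableSet_eq_fun ((meas_lf hLS measurableSet_Ioo).mul (meas_lf hLS measurableSet_Ioo))
      ((meas_lf hLS measurableSet_Ioo).mul (meas_lf hLS measurableSet_Ioo))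
  have hAG : GI (A0 lf D) := A0_gi hL hNF
  -- the quotient is `1`
  have hx : ∀ τ : ℚ, ∀ᵐ g ∂μ, g ∈ A0 lf D → xx lf τ g = 1 := by
    intro τ
    let f : G → ℝ≥0∞ := fun g => (xx lf τ g - 1) + (1 - xx lf τ g)
    have hxm : Measurable (xx lf τ) :=
      (meas_lf hLS measurableSet_Icc).div (meas_lf hLS measurableSet_Icc)
    have hfm : Measurable f := (hxm.sub measurable_const).add (measurable_const.sub hxm)
    let F : G → ℝ≥0∞ := (A0 lf D).indicator f
    have hFm : Measurable F := hfm.indicator hAm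
    have hFG : ∀ (γ : SL(2, ℤ)) (g : G), F (io γ * g) = F g := by
      intro γ g
      by_cases hg : g ∈ A0 lf D
      · have h1 : xx lf τ (io γ * g) = xx lf τ g := (hL.gam g hg.1.1 γ).div_eq _ _
        show (A0 lf D).indicator f (io γ * g) = (A0 lf D).indicator f g
        rw [indicator_of_mem ((hAG γ g).2 hg), indicator_of_mem hg]
        show (xx lf τ (io γ * g) - 1) + (1 - xx lf τ (io γ * g)) = (xx lf τ g - 1) + (1 - xx lf τ g)
        rw [h1]
      · show (A0 lf D).indicator f (io γ * g) = (A0 lf D).indicator f g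
        rw [indicator_of_notMem (fun h => hg ((hAG γ g).1 h)), indicator_of_notMem hg]
    have hz := hZoom hW μ hI F hFm hFG (-1) (by
      filter_upwards [hA] with g hg
      have h1 := (hMul (lf g) (hL.fin g) (hL.ne g hg.1.1) hg.1.2 hg.2).2 τ
      have h2 : ∀ n : ℕ, xx lf τ (g * fl (-1 * (n : ℝ))) =
          lf g (Icc (Real.exp (-n) * (-1 + τ)) (Real.exp (-n) * (1 + τ))) /
            lf g (Icc (-Real.exp (-n)) (Real.exp (-n))) := by
        intro n
        have h3 := (hFlo μ lf D hL g hg.1.1 (-(n : ℤ))).2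
        have h4 : ((-(n : ℤ) : ℤ) : ℝ) = -1 * (n : ℝ) := by
          push_cast
          ring
        rw [h4] at h3
        have h5 : xx lf τ (g * fl (-1 * (n : ℝ))) = _ := h3.div_eq (Icc (-1 + (τ : ℝ)) (1 + τ)) (Icc (-1) 1)
        rw [h5, map_Icc _ (Real.exp_pos _), map_Icc _ (Real.exp_pos _), ← Real.exp_neg]
        have h6 : -(-(-1 * (n : ℝ))) = -(n : ℝ) := by ring
        rw [h6, mul_neg_one, mul_one]
      have h7 : Tendsto (fun n : ℕ => xx lf τ (g * fl (-1 * (n : ℝ)))) atTop (𝓝 1) := by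
        refine h1.congr fun n => (h2 n).symm
      have h8 : Tendsto (fun n : ℕ => f (g * fl (-1 * (n : ℝ)))) atTop (𝓝 0) := by
        have h9 := (ENNReal.Tendsto.sub h7 (tendsto_const_nhds (x := (1 : ℝ≥0∞)))
          (Or.inl ENNReal.one_ne_top)).add (ENNReal.Tendsto.sub (tendsto_const_nhds (x := (1 : ℝ≥0∞))) h7
          (Or.inl ENNReal.one_ne_top))
        rw [tsub_self, add_zero] at h9
        exact h9
      refine tendsto_of_tendsto_of_tendsto_of_le_of_le tendsto_const_nhds h8 (fun n => bot_le) fun n => ?_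
      exact indicator_le_self _ _ _)
    filter_upwards [hz] with g hg hgA
    have h1 : (A0 lf D).indicator f g = 0 := hg
    rw [indicator_of_mem hgA] at h1
    have h2 : (xx lf τ g - 1) + (1 - xx lf τ g) = 0 := h1
    rw [add_eq_zero] at h2
    exact le_antisymm (tsub_eq_zero_iff_le.1 h2.1) (tsub_eq_zero_iff_le.1 h2.2)
  have hx' : ∀ᵐ g ∂μ, ∀ τ : ℚ, g ∈ A0 lf D → xx lf τ g = 1 := ae_all_iff.2 hx
  filter_upwards [hA, hx'] with g hg hgx
  have hfin := hL.fin g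
  have hI0 : lf g (Icc (-1) 1) ≠ 0 :=
    (hMul (lf g) (hL.fin g) (hL.ne g hg.1.1) hg.1.2 hg.2).1 (-1) 1 (by norm_num)
  have hI1 : lf g (Icc (-1) 1) ≠ ⊤ := fin_lf hLS g _ _
  -- rational translations
  have hr : ∀ τ : ℚ, (lf g).map (fun x => x - (τ : ℝ)) = lf g := by
    intro τ
    obtain ⟨k, hk0, hk1, hk⟩ := hg.2 τ
    have h1 := hgx τ hg
    have h2 : lf g (Icc (-1 + (τ : ℝ)) (1 + τ)) = lf g (Icc (-1) 1) := by
      have h3 : lf g (Icc (-1 + (τ : ℝ)) (1 + τ)) / lf g (Icc (-1) 1) = 1 := h1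
      rw [ENNReal.div_eq_one_iff hI0 hI1] at h3
      exact h3
    have h4 : ((lf g).map fun x => x - (τ : ℝ)) (Icc (-1) 1) = (k • lf g) (Icc (-1) 1) := by rw [hk]
    rw [map_sub_Icc, Measure.smul_apply, smul_eq_mul, h2] at h4
    have h5 : k = 1 := by
      have h6 : 1 * lf g (Icc (-1) 1) = k * lf g (Icc (-1) 1) := by rw [one_mul]; exact h4
      exact ((ENNReal.mul_left_inj hI0 hI1).1 h6).symm
    rw [hk, h5, one_smul]
  intro τ
  symm
  refine Real.measure_ext_Ioo_rat fun a b => ?_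
  rw [map_sub_Ioo]
  have hc := (hCont (lf g) hfin hg.1.2 a b).1
  have h1 : (fun τ : ℝ => lf g (Ioo ((a : ℝ) + τ) (b + τ))) = fun _ => lf g (Ioo (a : ℝ) b) := by
    refine Rat.denseRange_cast.equalizer hc continuous_const ?_
    funext q
    show lf g (Ioo ((a : ℝ) + (q : ℝ)) (b + q)) = lf g (Ioo (a : ℝ) b)
    rw [← map_sub_Ioo, hr q]
  exact (congrFun h1 τ).symm

end

end Pool.Agent.A54.QE
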