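import Pool.Agent.Lib.MP_a54f13_nt.Hp.Defs

/-!
# Package `QE`: the case `n = 2` of MP_a54f13_nt (quantum unique ergodicity), interface of the blocks

helper83 (joint project with helper88; notes 4810 and following). `G = SL(2, ℝ)`, `Γ = SL(2, ℤ)` embedded by `io`, `A = {fl t}`,
`U = {un u}`, both acting on the right; `un u * fl t = fl t * un (e^(-t) u)`. The leaf of `g` is `{g * un u}`; it is determined by
the first column `vc g`.

Blocks: (W, A) weights, leaf measures, equivariance, Hecke equality of leaf measures; (B) the limit measure: `Inv`, `Rec`, `Cwm`, modes;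
(C) no atoms; (D) the shear, maximal inequalities: `μ` is invariant under `U`; (E) `μ` invariant under `A` and `U` is the Haar
measure; the final theorem.
-/

set_option autoImplicit false

namespace Pool.Agent.A54.QE

open MeasureTheory Filter Topology Set
open scoped ContDiff ComplexConjugate UpperHalfPlane MatrixGroups ENNReal
open Pool.Agent.A54.Dyn (G fl base ze io mk4 Inv HM)
open Pool.Agent.A54.Hp (nm Om xi Tb)
open Pool.Agent.A54.Av (Mat)
open Pool.Agent.A54.Half (H0)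

noncomputable section

/-! ### The group -/

/-- the unipotent group `U` (the same as `Hp.un`) -/
def un (u : ℝ) : G := mk4 1 u 0 1 (by norm_num)

/-- the first column: it determines the leaf -/
def vc (g : G) : ℝ × ℝ := (g 0 0, g 1 0)

/-- the coordinate on the leaf: `g = sc (vc g) * un (uc g)` -/
def uc (g : G) : ℝ := (g 0 1 * g 0 0 + g 1 1 * g 1 0) / (g 0 0 ^ 2 + g 1 0 ^ 2)

/-- a point on the leaf `v ≠ 0` -/
def sc (v : ℝ × ℝ) : G :=
  if h : v.1 ^ 2 + v.2 ^ 2 ≠ 0 then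
    mk4 v.1 (-(v.2 / (v.1 ^ 2 + v.2 ^ 2))) v.2 (v.1 / (v.1 ^ 2 + v.2 ^ 2)) (by field_simp; ring)
  else 1

/-- `Γ`-invariant sets -/
def GI (B : Set G) : Prop := ∀ (γ : SL(2, ℤ)) (g : G), io γ * g ∈ B ↔ g ∈ B

/-- sets invariant under `Γ`, `U` and `fl ℤ` -/
structure FI (B : Set G) : Prop where
  gam : GI B
  uni : ∀ (g : G) (u : ℝ), g * un u ∈ B ↔ g ∈ B
  flo : ∀ g : G, g * fl 1 ∈ B ↔ g ∈ B

/-- Hecke elements: normalised integral matrices of positive determinant (a countable subgroup containing `Γ`) -/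
def Hk : Set G := {h | ∃ s : Mat, 0 < s.det ∧ h = nm s}

/-! ### Weights (instead of a fundamental domain) -/

/-- sum of the squares of the entries -/
def nsq (g : G) : ℝ := g 0 0 ^ 2 + g 0 1 ^ 2 + g 1 0 ^ 2 + g 1 1 ^ 2

/-- `‖g‖^(-8)` -/
def qq (g : G) : ℝ := (nsq g ^ 4)⁻¹

/-- the weight: `∑_γ ch (io γ * g) = 1` -/
def ch (g : G) : ℝ := qq g / ∑' γ : SL(2, ℤ), qq (io γ * g)

/-- the finite measure `ch μ`; on `Γ`-invariant sets it is the measure of the quotient `Γ \ G` -/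
def mX (μ : Measure G) : Measure G := μ.withDensity fun g => ENNReal.ofReal (ch g)

/-! ### Leaf measures -/

/-- proportional measures -/
def Pr (m m' : Measure ℝ) : Prop := ∃ c : ℝ≥0∞, c ≠ 0 ∧ c ≠ ⊤ ∧ m = c • m'

/-- a system of leaf measures for `μ`: `lf g` is the measure on the leaf `x ↦ g * un x`, up to a scalar depending on the leaf only -/
structure LS (μ : Measure G) (lf : G → Measure ℝ) : Prop where
  meas : Measurable lf
  fin : ∀ g, IsFiniteMeasureOnCompacts (lf g)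
  tr : ∀ (g : G) (u : ℝ), lf (g * un u) = (lf g).map fun x => x - u
  dis : ∃ θ : Measure (ℝ × ℝ), SigmaFinite θ ∧ θ {0} = 0 ∧ ∀ F : G → ℝ≥0∞, Measurable F →
    ∫⁻ g, F g ∂μ = ∫⁻ v, ∫⁻ x, F (sc v * un x) ∂(lf (sc v)) ∂θ

/-- leaf measures with equivariance on a conull set `D` and the Hecke equality (for `μ` with `Inv μ`) -/
structure LSE (μ : Measure G) (lf : G → Measure ℝ) (D : Set G) : Prop extends LS μ lf where
  mD : MeasurableSet D
  nD : μ Dᶜ = 0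
  fi : FI D
  ne : ∀ g ∈ D, lf g ≠ 0
  gam : ∀ g ∈ D, ∀ γ : SL(2, ℤ), Pr (lf (io γ * g)) (lf g)
  flo : ∀ g ∈ D, Pr (lf (g * fl 1)) ((lf g).map fun x => Real.exp (-1) * x)
  sup : ∀ᵐ g ∂μ, ∀ r : ℝ, 0 < r → 0 < lf g (Ioo (-r) r)
  hec : ∀ d ∈ Hk, ∃ N : Set G, MeasurableSet N ∧ μ N = 0 ∧
    ∀ g, g ∉ N → d * g ∉ N → Pr (lf (d * g)) (lf g)

/-! ### Properties of the limit measure -/

/-- recurrence along Hecke orbits -/
def Rec (μ : Measure G) : Prop := ∀ B : Set G, MeasurableSet B → GI B →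
  ∀ᵐ g ∂μ, g ∈ B → ∃ d ∈ Hk, d ∉ range io ∧ d * g ∈ B

/-- the counting bound for `μ` -/
def Cwm (c : ℝ) (μ : Measure G) : Prop := ∀ R : ℝ, 1 ≤ R → ∃ w₁ : ℝ, 0 < w₁ ∧ ∀ w : ℝ, 0 < w → w ≤ w₁ →
  ∫⁻ g in Om R, μ (Tb R (xi g) w) ∂μ ≤ ENNReal.ofReal (w ^ (1 + c))

/-- no atoms on the leaves (at the base point, for almost all base points) -/
def NoAt (μ : Measure G) (lf : G → Measure ℝ) : Prop := ∀ᵐ g ∂μ, lf g {0} = 0

/-- the sets of all `g` with the first column on a given line are null sets -/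
def PlN (μ : Measure G) : Prop := ∀ v : ℝ × ℝ, μ {g | ∃ r : ℝ, vc g = r • v} = 0

/-- the mode `0`: `base_* μ` is the weak limit of `f_i² dvol` along the hyperfilter -/
def Md0 (f : ℕ → ℍ → ℝ) (μ : Measure G) : Prop := ∀ φ : ℂ → ℂ, Test H0 φ →
  Tendsto (fun i => ∫ z : ℍ, φ z * ((f i z : ℂ) ^ 2)) (hyperfilter ℕ : Filter ℕ)
    (𝓝 (∫ g, φ (base g) ∂μ))

/-! ### The statements of the blocks -/

/-- **block W** (helper83): the weights -/
structure Wt : Prop where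
  cont : Continuous ch
  pos : ∀ g, 0 < ch g
  le_one : ∀ g, ch g ≤ 1
  sum : ∀ g, ∑' γ : SL(2, ℤ), ENNReal.ofReal (ch (io γ * g)) = 1
  un : ∀ (g : G) (u : ℝ), ch (g * un u) ≤ (1 + |u|) ^ 16 * ch g
  /-- any other weight gives the same measure of `Γ`-invariant functions -/
  unf : ∀ μ : Measure G, Inv μ → ∀ w : G → ℝ≥0∞, Measurable w → (∀ g, ∑' γ : SL(2, ℤ), w (io γ * g) = 1) →
    ∀ F : G → ℝ≥0∞, Measurable F → (∀ (γ : SL(2, ℤ)) (g : G), F (io γ * g) = F g) →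
      ∫⁻ g, F g * w g ∂μ = ∫⁻ g, F g ∂(mX μ)
  fin : ∀ μ : Measure G, Inv μ → IsFiniteMeasure (mX μ)
  flo : ∀ μ : Measure G, Inv μ → ∀ F : G → ℝ≥0∞, Measurable F →
    (∀ (γ : SL(2, ℤ)) (g : G), F (io γ * g) = F g) → ∀ t : ℝ, ∫⁻ g, F (g * fl t) ∂(mX μ) = ∫⁻ g, F g ∂(mX μ)
  null : ∀ (μ : Measure G) (B : Set G), MeasurableSet B → (mX μ B = 0 ↔ μ B = 0)

/-- **block A** (helper83): leaf measures -/
def StmtA : Prop := ∀ μ : Measure G, Inv μ → ∃ (lf : G → Measure ℝ) (D : Set G), LSE μ lf D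

/-- **block B** (helper39, helper54): the limit measure -/
def StmtB : Prop := ∀ (f : ℕ → ℍ → ℝ) (t : ℕ → ℝ), HM f t → ∃ (μ : Measure G) (c : ℝ), 0 < c ∧ Inv μ ∧ Rec μ ∧
  Cwm c μ ∧ Md0 f μ

/-- **block C** (helper46, helper3): no atoms -/
def StmtC : Prop := ∀ (μ : Measure G) (c : ℝ) (lf : G → Measure ℝ) (D : Set G), 0 < c → Inv μ → Cwm c μ → LSE μ lf D →
  NoAt μ lf ∧ PlN μ

/-- **block D** (helper88): invariance under `U` -/
def StmtD : Prop := ∀ (μ : Measure G) (lf : G → Measure ℝ) (D : Set G), Inv μ → Rec μ → LSE μ lf D → NoAt μ lf → PlN μ →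
  ∀ u : ℝ, μ.map (fun g => g * un u) = μ

/-- **block E** (helper12, helper57), first part: a measure invariant under `A` and `U` -/
def StmtE : Prop := ∀ (f : ℕ → ℍ → ℝ) (t : ℕ → ℝ), HM f t → ∀ μ : Measure G, Inv μ → Md0 f μ →
  (∀ u : ℝ, μ.map (fun g => g * un u) = μ) → ∀ φ : ℂ → ℂ, Test H0 φ →
    ∫ g, φ (base g) ∂μ = ∫ z : ℍ, φ z

/-- quantum unique ergodicity along the hyperfilter -/
theorem que_hyper (hA : StmtA) (hB : StmtB) (hC : StmtC) (hD : StmtD) (hE : StmtE) (f : ℕ → ℍ → ℝ) (t : ℕ → ℝ)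
    (hf : HM f t) (φ : ℂ → ℂ) (hφ : Test H0 φ) :
    Tendsto (fun i => ∫ z : ℍ, φ z * ((f i z : ℂ) ^ 2)) (hyperfilter ℕ : Filter ℕ) (𝓝 (∫ z : ℍ, φ z)) := by
  obtain ⟨μ, c, hc, hi, hr, hcw, hm⟩ := hB f t hf
  obtain ⟨lf, D, hl⟩ := hA μ hi
  obtain ⟨hn, hp⟩ := hC μ c lf D hc hi hcw hl
  have hu := hD μ lf D hi hr hl hn hp
  rw [← hE f t hf μ hi hm hu φ hφ]
  exact hm φ hφ

end

end Pool.Agent.A54.QE
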