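import Pool.Agent.Lib.QE.SpecE

/-!
# Package `QE`, block E, module `EAs`: assembly of the first part
-/

set_option autoImplicit false

namespace Pool.Agent.A54.QE

open MeasureTheory Filter Topology Set
open scoped ContDiff ComplexConjugate UpperHalfPlane MatrixGroups ENNReal
open Pool.Agent.A54.Dyn (G fl base ze io mk4 Inv HM)
open Pool.Agent.A54.Half (H0)

noncomputable section

namespace EAsM

lemma toTest {V : Set ℂ} {φ : ℂ → ℝ} (h : TestR V φ) : Test V (fun z => (φ z : ℂ)) where
  smooth := Complex.ofRealCLM.contDiff.comp h.smooth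
  cpt := h.cpt.comp_left Complex.ofReal_zero
  sub := (tsupport_comp_subset (g := fun x : ℝ => (x : ℂ)) Complex.ofReal_zero φ).trans h.sub

lemma key {μ : Measure G} {c : ℝ} (hc : 0 ≤ c)
    (hS : ∀ S : Set ℍ, MeasurableSet S → μ (base ⁻¹' S) = ENNReal.ofReal c * volume S)
    {φ : ℂ → ℂ} (hφ : Continuous φ) : ∫ g, φ (base g) ∂μ = (c : ℂ) * ∫ z : ℍ, φ z := by
  have hmap : μ.map base = ENNReal.ofReal c • (volume : Measure ℍ) := by
    ext S hS'
    rw [Measure.map_apply Dyn.measurable_base hS', hS S hS', Measure.smul_apply, smul_eq_mul]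
  have h1 : ∫ g, φ (base g) ∂μ = ∫ z : ℍ, φ z ∂(μ.map base) := by
    rw [integral_map Dyn.measurable_base.aemeasurable]
    exact (hφ.comp UpperHalfPlane.continuous_coe).aestronglyMeasurable
  rw [h1, hmap, integral_smul_measure, ENNReal.toReal_ofReal hc, Complex.real_smul]

end EAsM

theorem stmtEAs (hH : StmtEHa) (hO : StmtEOn) : StmtE := by
  intro f t hf μ hi hm hu φ hφ
  obtain ⟨c, hc, hS⟩ := hH μ hi hu
  have hc1 : c = 1 := by
    refine hO f t hf c hc fun φ hφ => ?_
    have hT := EAsM.toTest hφ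
    have h := hm (fun z => (φ z : ℂ)) hT
    rw [EAsM.key hc hS hT.smooth.continuous] at h
    have e1 : ∀ i, (∫ z : ℍ, (φ z : ℂ) * ((f i z : ℂ) ^ 2)) =
        ((∫ z : ℍ, φ z * f i z ^ 2 : ℝ) : ℂ) := fun i => by
      rw [← integral_complex_ofReal]
      refine integral_congr_ae (Eventually.of_forall fun z => ?_)
      push_cast
      rfl
    have e2 : (c : ℂ) * (∫ z : ℍ, (φ z : ℂ)) = ((c * ∫ z : ℍ, φ z : ℝ) : ℂ) := by
      rw [integral_complex_ofReal]
      push_cast
      rfl
    simp only [e1, e2] at h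
    exact tendsto_ofReal_iff.1 h
  rw [EAsM.key hc hS hφ.smooth.continuous, hc1]
  simp

end

end Pool.Agent.A54.QE
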