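import Pool.Agent.Lib.QE.SpecE

/-!
# Package `QE`, module `EBs`: averages of a measure invariant under `A` and `U`
-/

set_option autoImplicit false

namespace Pool.Agent.A54.QE.EBsM

open MeasureTheory Filter Topology Set
open scoped ContDiff ComplexConjugate UpperHalfPlane MatrixGroups ENNReal
open Pool.Agent.A54.Dyn (G fl base ze io mk4 Inv HM)

noncomputable section

/-- the standard element with base point `z` -/
def bz (z : ℍ) : G := QE.un z.re * fl (Real.log z.im)

lemma base_bz (z : ℍ) : base (bz z) = z := by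
  have hy := z.im_pos
  have he : Real.exp (Real.log z.im / 2) = z.im * Real.exp (-Real.log z.im / 2) := by
    have h1 : Real.log z.im / 2 = Real.log z.im + -Real.log z.im / 2 := by ring
    rw [h1, Real.exp_add, Real.exp_log hy]
  have hne : (Real.exp (-Real.log z.im / 2) : ℂ) ≠ 0 := by
    exact_mod_cast (Real.exp_pos _).ne'
  have h00 : (bz z) 0 0 = z.im * Real.exp (-Real.log z.im / 2) := by
    unfold bz
    rw [Dyn.mul_00, Dyn.fl_00, Dyn.fl_10, he]
    change 1 * _ + z.re * 0 = _
    ring
  have h01 : (bz z) 0 1 = z.re * Real.exp (-Real.log z.im / 2) := by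
    unfold bz
    rw [Dyn.mul_01, Dyn.fl_01, Dyn.fl_11]
    change 1 * 0 + z.re * _ = _
    ring
  have h10 : (bz z) 1 0 = 0 := by
    unfold bz
    rw [Dyn.mul_10, Dyn.fl_00, Dyn.fl_10]
    change 0 * _ + 1 * 0 = (0 : ℝ)
    ring
  have h11 : (bz z) 1 1 = Real.exp (-Real.log z.im / 2) := by
    unfold bz
    rw [Dyn.mul_11, Dyn.fl_01, Dyn.fl_11]
    change 0 * 0 + 1 * _ = _
    ring
  apply UpperHalfPlane.ext
  rw [Dyn.base_coe, h00, h01, h10, h11]
  generalize Real.exp (-Real.log z.im / 2) = e at hne ⊢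
  rw [Complex.ofReal_zero, zero_mul, zero_add, div_eq_iff hne]
  push_cast
  apply Complex.ext
  · simp [Complex.add_re, Complex.mul_re]
  · simp [Complex.add_im, Complex.mul_im]

lemma inv_bz {μ : Measure G} (hμ : BI μ) (z : ℍ) (H : G → ℝ≥0∞) (hH : Measurable H) :
    ∫⁻ g, H (g * bz z) ∂μ = ∫⁻ g, H g ∂μ := by
  have hm : ∀ h : G, Measurable fun g : G => g * h := fun h =>
    (continuous_id.mul continuous_const).measurable
  have h1 : ∫⁻ g, H (g * bz z) ∂μ = ∫⁻ g, (fun g => H (g * fl (Real.log z.im))) (g * QE.un z.re) ∂μ := by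
    refine lintegral_congr fun g => ?_
    change H (g * (QE.un z.re * fl (Real.log z.im))) = H ((g * QE.un z.re) * fl (Real.log z.im))
    rw [mul_assoc]
  rw [h1, ← lintegral_map (f := fun g => H (g * fl (Real.log z.im))) (hH.comp (hm _)) (hm _), hμ.un,
    ← lintegral_map hH (hm _), hμ.fl]

lemma part1 {μ : Measure G} (hμ : BI μ) (F : ℍ → ℝ≥0∞) (hF : Measurable F) (x : G) :
    ∫⁻ g, F (base (g * x)) ∂μ = ∫⁻ g, F (base g) ∂μ := by
  have h1 : ∀ g : G, base (g * x) = base (g * bz (base x)) := by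
    intro g
    rw [Dyn.base_mul, Dyn.base_mul, base_bz]
  simp_rw [h1]
  exact inv_bz hμ (base x) (fun g => F (base g)) (hF.comp Dyn.measurable_base)

lemma part2 (hK : StmtEKr) (hN : Hp.StmtNuL) {μ : Measure G} (hμ : BI μ) (F : ℍ → ℝ≥0∞)
    (hF : Measurable F) (r : ℝ) :
    ∫⁻ g, (∫⁻ w : ℍ, kr r w (base g) * F w) ∂μ = cr r * ∫⁻ g, F (base g) ∂μ := by
  obtain ⟨hK1, hK2, hK3, -⟩ := hK
  obtain ⟨hN1, hN2, hN3, -, hN5⟩ := hN
  have := hN1
  have := hN3
  have := hμ.fin
  have : SigmaFinite μ := inferInstance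
  have hk : ∀ v : ℍ, Measurable fun w : ℍ => kr r w v := fun v =>
    ((hK2 r).comp (continuous_id.prodMk continuous_const)).measurable
  have hm2 : Measurable (Function.uncurry fun (x g : G) => kr r (base x) UpperHalfPlane.I * F (base (g * x))) := by
    refine Measurable.mul ?_ ?_
    · exact (hk UpperHalfPlane.I).comp (Dyn.measurable_base.comp measurable_fst)
    · exact hF.comp (Dyn.continuous_base.comp (continuous_snd.mul continuous_fst)).measurable
  have hA : ∫⁻ x, ∫⁻ g, kr r (base x) UpperHalfPlane.I * F (base (g * x)) ∂μ ∂Hp.nu =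
      cr r * ∫⁻ g, F (base g) ∂μ := by
    have h1 : ∀ x : G, ∫⁻ g, kr r (base x) UpperHalfPlane.I * F (base (g * x)) ∂μ =
        kr r (base x) UpperHalfPlane.I * ∫⁻ g, F (base g) ∂μ := by
      intro x
      rw [lintegral_const_mul, part1 hμ F hF x]
      exact hF.comp (Dyn.continuous_base.comp (continuous_id.mul continuous_const)).measurable
    simp_rw [h1]
    have h2 : Measurable fun x : G => kr r (base x) UpperHalfPlane.I :=
      (hk _).comp Dyn.measurable_base
    rw [lintegral_mul_const _ h2, hN5 (fun w => kr r w UpperHalfPlane.I) (hk _)]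
    rfl
  have hB : ∀ g : G, ∫⁻ x, kr r (base x) UpperHalfPlane.I * F (base (g * x)) ∂Hp.nu =
      ∫⁻ w : ℍ, kr r w (base g) * F w := by
    intro g
    have h1 : ∀ x : G, kr r (base x) UpperHalfPlane.I * F (base (g * x)) =
        (fun y : G => kr r (base y) (base g) * F (base y)) (g * x) := by
      intro x
      change _ = kr r (base (g * x)) (base g) * F (base (g * x))
      congr 1
      rw [Dyn.base_mul]
      exact (hK3 r g (base x) UpperHalfPlane.I).symm
    simp_rw [h1]
    rw [lintegral_mul_left_eq_self (fun y : G => kr r (base y) (base g) * F (base y)) g,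
      hN5 (fun w => kr r w (base g) * F w) ((hk _).mul hF)]
  rw [← hA, lintegral_lintegral_swap hm2.aemeasurable]
  exact lintegral_congr fun g => (hB g).symm

end

end Pool.Agent.A54.QE.EBsM

namespace Pool.Agent.A54.QE

open MeasureTheory
open scoped UpperHalfPlane

/-- averages of a measure invariant under `A` and `U` -/
theorem stmtEBs (hK : StmtEKr) (hN : Hp.StmtNuL) : StmtEBs := fun _ hμ F hF =>
  ⟨fun x => EBsM.part1 hμ F hF x, fun r _ => EBsM.part2 hK hN hμ F hF r⟩

end Pool.Agent.A54.QE
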