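import Pool.Agent.Lib.QE.SpecE

/-!
# Package `QE`, block E: constancy by truncation
-/

set_option autoImplicit false

namespace Pool.Agent.A54.QE.ECsM

open MeasureTheory Filter Topology Set
open scoped ContDiff ComplexConjugate UpperHalfPlane MatrixGroups ENNReal

noncomputable section

lemma vol_pos {V : Set ℍ} (hV : IsOpen V) (hne : V.Nonempty) : 0 < volume V := by
  rw [UpperHalfPlane.volume_eq_lintegral, setLIntegral_pos_iff (by fun_prop)]
  have h1 : UpperHalfPlane.coe '' V ⊆ (Function.support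
      (fun z : ℂ => (((1 / ‖z.im‖₊) ^ 2 : NNReal) : ℝ≥0∞)) ∩ UpperHalfPlane.coe '' V) := by
    rintro _ ⟨z, hz, rfl⟩
    refine ⟨?_, z, hz, rfl⟩
    rw [Function.mem_support]
    have : (UpperHalfPlane.coe z).im ≠ 0 := z.im_ne_zero
    simp only [ne_eq, ENNReal.coe_eq_zero]
    have h2 : (0 : NNReal) < ‖(UpperHalfPlane.coe z).im‖₊ := by
      rw [nnnorm_pos]
      exact this
    positivity
  refine lt_of_lt_of_le ?_ (measure_mono h1)
  exact (UpperHalfPlane.isOpenEmbedding_coe.isOpenMap V hV).measure_pos volume (hne.image _)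

theorem main (hK : StmtEKr) (hU : StmtEUf) (hT : StmtETr) (hV : Av.StmtVol) (ρ : ℍ → ℝ)
    (hρc : Continuous ρ) (hρ0 : ∀ z, 0 ≤ ρ z) (hMV : MV ρ)
    (hinv : ∀ (γ : SL(2, ℤ)) (z : ℍ), ρ (γ • z) = ρ z) (z₁ z₂ : ℍ) : ¬ ρ z₁ < ρ z₂ := by
  intro hlt
  obtain ⟨hKs, hKc, _, hK4⟩ := hK
  obtain ⟨c, hc1, hc2⟩ := exists_between hlt
  have hc0 : 0 < c := (hρ0 z₁).trans_lt hc1
  set u : ℍ → ℝ≥0∞ := fun z => ENNReal.ofReal (min (ρ z) c) with hudef
  have hu : Measurable u := (hρc.min continuous_const).measurable.ennreal_ofReal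
  have huinv : ∀ (γ : SL(2, ℤ)) (z : ℍ), u (γ • z) = u z := fun γ z => by
    simp only [hudef, hinv]
  have huc : ∀ z, u z ≤ ENNReal.ofReal c := fun z => ENNReal.ofReal_le_ofReal (min_le_right _ _)
  have huρ : ∀ z, u z ≤ ENNReal.ofReal (ρ z) := fun z =>
    ENNReal.ofReal_le_ofReal (min_le_left _ _)
  -- upper bound
  have hT1 : ∀ r : ℝ, 0 < r → ∀ w : ℍ, ∫⁻ z : ℍ, kr r z w * u z ≤ cr r * u w := by
    intro r hr w
    rcases le_total (ρ w) c with h | h
    · have e : u w = ENNReal.ofReal (ρ w) := by simp only [hudef, min_eq_left h]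
      rw [e, ← hMV r hr w]
      exact lintegral_mono fun z => mul_le_mul_right (huρ z) _
    · have e : u w = ENNReal.ofReal c := by simp only [hudef, min_eq_right h]
      rw [e, ← (hK4 r hr).2.2 w, ← lintegral_mul_const' _ _ ENNReal.ofReal_ne_top]
      exact lintegral_mono fun z => mul_le_mul_right (huc z) _
  have hufin : ∫⁻ w in ModularGroup.fdo, u w ≠ ⊤ := by
    have h1 : ∫⁻ w in ModularGroup.fdo, u w ≤ ∫⁻ w in ModularGroup.fdo, ENNReal.ofReal c :=
      lintegral_mono huc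
    refine ne_top_of_le_ne_top ?_ h1
    rw [setLIntegral_const, hV]
    exact ENNReal.mul_ne_top ENNReal.ofReal_ne_top ENNReal.ofReal_ne_top
  have hae : ∀ n : ℕ, ∀ᵐ w ∂(volume.restrict ModularGroup.fdo),
      ∫⁻ z : ℍ, kr ((n : ℝ) + 1) z w * u z = cr ((n : ℝ) + 1) * u w := by
    intro n
    have hr : (0 : ℝ) < (n : ℝ) + 1 := by positivity
    have h1 := hT _ hr u hu huinv
    have h2 : ∫⁻ w in ModularGroup.fdo, cr ((n : ℝ) + 1) * u w =
        cr ((n : ℝ) + 1) * ∫⁻ w in ModularGroup.fdo, u w := lintegral_const_mul _ hu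
    refine ae_eq_of_ae_le_of_lintegral_le (Eventually.of_forall (hT1 _ hr)) ?_
      (hu.const_mul _).aemeasurable ?_
    · rw [h1]
      exact ENNReal.mul_ne_top (hK4 _ hr).2.1.ne hufin
    · rw [h1, h2]
  rw [← ae_all_iff] at hae
  -- the open set
  have hVo : IsOpen {z : ℍ | c < ρ z} := isOpen_lt continuous_const hρc
  have hVp := vol_pos hVo ⟨z₂, hc2⟩
  have hVf : volume ({z : ℍ | c < ρ z} ∩ ModularGroup.fdo) ≠ 0 := by
    intro h0
    have := hU.2 {z : ℍ | c < ρ z} hVo.measurableSet (fun γ z => by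
      change c < ρ (γ • z) ↔ c < ρ z
      rw [hinv]) h0
    exact hVp.ne' this
  obtain ⟨w, hwV, hw⟩ : ∃ w : ℍ, c < ρ w ∧ ∀ n : ℕ,
      ∫⁻ z : ℍ, kr ((n : ℝ) + 1) z w * u z = cr ((n : ℝ) + 1) * u w := by
    by_contra hcon
    push Not at hcon
    apply hVf
    rw [← Measure.restrict_apply hVo.measurableSet]
    refine measure_mono_null (fun w hw => ?_) (ae_iff.1 hae)
    obtain ⟨n, hn⟩ := hcon w hw
    exact fun h => hn (h n)
  obtain ⟨n, hn⟩ := exists_nat_gt (dist z₁ w)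
  set r : ℝ := (n : ℝ) + 1 with hrdef
  have hr : 0 < r := by positivity
  have huw : u w = ENNReal.ofReal c := by simp only [hudef, min_eq_right hwV.le]
  have h3 : ∫⁻ z : ℍ, kr r z w * ENNReal.ofReal c = cr r * ENNReal.ofReal c := by
    rw [lintegral_mul_const' _ _ ENNReal.ofReal_ne_top, (hK4 r hr).2.2 w]
  have h4 : ∫⁻ z : ℍ, kr r z w * u z = cr r * ENNReal.ofReal c := by
    rw [← huw]
    exact hw n
  have h5 : (fun z : ℍ => kr r z w * u z) =ᵐ[volume] fun z => kr r z w * ENNReal.ofReal c := by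
    have hkm : Measurable fun z : ℍ => kr r z w :=
      ((hKc r).comp (continuous_id.prodMk continuous_const)).measurable
    refine ae_eq_of_ae_le_of_lintegral_le
      (Eventually.of_forall fun z => mul_le_mul_right (huc z) _) ?_
      (hkm.mul_const _).aemeasurable (by rw [h3, h4])
    rw [h4]
    exact ENNReal.mul_ne_top (hK4 _ hr).2.1.ne ENNReal.ofReal_ne_top
  have hOo : IsOpen {z : ℍ | ρ z < c ∧ dist z w < r} :=
    (isOpen_lt hρc continuous_const).inter
      (isOpen_lt (continuous_id.dist continuous_const) continuous_const)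
  have hOp := vol_pos hOo ⟨z₁, hc1, by rw [hrdef]; linarith⟩
  obtain ⟨z, hz, hze⟩ : ∃ z : ℍ, (ρ z < c ∧ dist z w < r) ∧
      kr r z w * u z = kr r z w * ENNReal.ofReal c := by
    by_contra hcon
    push Not at hcon
    apply hOp.ne'
    exact measure_mono_null (fun z hz => hcon z hz) (ae_iff.1 h5)
  have hk0 : kr r z w ≠ 0 := by
    unfold kr
    rw [ne_eq, ENNReal.ofReal_eq_zero, not_le]
    linarith [hz.2]
  have hkt : kr r z w ≠ ⊤ := ENNReal.ofReal_ne_top
  have h6 : u z = ENNReal.ofReal c := (ENNReal.mul_right_inj hk0 hkt).1 hze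
  have h7 : u z = ENNReal.ofReal (ρ z) := by simp only [hudef, min_eq_left hz.1.le]
  rw [h7] at h6
  have h8 := (ENNReal.ofReal_eq_ofReal_iff (hρ0 z) hc0.le).1 h6
  linarith [hz.1]

theorem _root_.Pool.Agent.A54.QE.stmtECs (hK : StmtEKr) (hU : StmtEUf) (hT : StmtETr)
    (hV : Av.StmtVol) : StmtECs := by
  intro ρ hρc hρ0 hMV hinv z w
  exact le_antisymm (not_lt.1 (main hK hU hT hV ρ hρc hρ0 hMV hinv w z))
    (not_lt.1 (main hK hU hT hV ρ hρc hρ0 hMV hinv z w))

end

end Pool.Agent.A54.QE.ECsM
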