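import Pool.Agent.Lib.QE.SpecE

/-!
# Package `QE`, module `EDn`: the base projection of a measure invariant under `A` and `U` has a
continuous density with the mean value property.
-/

set_option autoImplicit false

namespace Pool.Agent.A54.QE

open MeasureTheory Filter Topology Set
open scoped ContDiff ComplexConjugate UpperHalfPlane MatrixGroups ENNReal
open Pool.Agent.A54.Dyn (G fl base ze io mk4 Inv HM)
open Pool.Agent.A54.Half (H0)

noncomputable section

namespace EDnM

/-- the hyperbolic volume is positive on nonempty open sets -/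
lemma openPos : (volume : Measure ℍ).IsOpenPosMeasure := by
  have h1 : (volume.comap UpperHalfPlane.coe).IsOpenPosMeasure := by
    refine ⟨fun U hU hne => ?_⟩
    rw [UpperHalfPlane.measurableEmbedding_coe.comap_apply]
    exact (UpperHalfPlane.isOpenEmbedding_coe.isOpenMap U hU).measure_ne_zero volume (hne.image _)
  have h2 : (volume.comap UpperHalfPlane.coe) ≪ (volume : Measure ℍ) := by
    rw [UpperHalfPlane.volume_def]
    refine withDensity_absolutelyContinuous' ?_ ?_
    · refine Measurable.aemeasurable ?_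
      refine measurable_coe_nnreal_ennreal.comp (Continuous.measurable ?_)
      refine .pow (.div₀ continuous_const ?_ ?_) _
      · exact UpperHalfPlane.continuous_im.subtype_mk _
      · exact fun x ↦ NNReal.ne_iff.mp x.im_ne_zero
    · refine ae_of_all _ fun z => ?_
      rw [ENNReal.coe_ne_zero]
      refine pow_ne_zero _ (div_ne_zero one_ne_zero ?_)
      exact NNReal.ne_iff.mp z.im_ne_zero
  exact h2.isOpenPosMeasure

/-- integral of the kernel -/
def nm (m : Measure ℍ) (r : ℝ) (w : ℍ) : ℝ≥0∞ := ∫⁻ z, kr r z w ∂m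

/-- the density -/
def rh (m : Measure ℍ) (r : ℝ) (w : ℍ) : ℝ := (nm m r w).toReal / (cr r).toReal

lemma kr_meas (hK : StmtEKr) (r : ℝ) : Measurable fun p : ℍ × ℍ => kr r p.1 p.2 :=
  (hK.2.1 r).measurable

lemma kr_meas1 (hK : StmtEKr) (r : ℝ) (w : ℍ) : Measurable fun z : ℍ => kr r z w := by
  have h1 : Measurable fun z : ℍ => (z, w) := measurable_id.prodMk measurable_const
  have h2 := (kr_meas hK r).comp h1
  exact h2

/-- the kernel is bounded by `r` and vanishes for `dist z w ≥ r` -/
lemma kr_le (r s : ℝ) (z w w₀ : ℍ) (h : dist w w₀ ≤ s) :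
    kr r z w ≤ (Metric.closedBall w₀ (r + s)).indicator (fun _ => ENNReal.ofReal r) z := by
  by_cases hz : z ∈ Metric.closedBall w₀ (r + s)
  · rw [indicator_of_mem hz]
    exact ENNReal.ofReal_le_ofReal (by linarith [dist_nonneg (x := z) (y := w)])
  · rw [indicator_of_notMem hz]
    rw [Metric.mem_closedBall, not_le] at hz
    have h1 := dist_triangle z w w₀
    unfold kr
    rw [ENNReal.ofReal_of_nonpos (by linarith)]

lemma bd_lt (m : Measure ℍ) [IsFiniteMeasureOnCompacts m] (r s : ℝ) (w₀ : ℍ) :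
    ∫⁻ z, (Metric.closedBall w₀ (r + s)).indicator (fun _ => ENNReal.ofReal r) z ∂m < ⊤ := by
  rw [lintegral_indicator Metric.isClosed_closedBall.measurableSet, lintegral_const,
    Measure.restrict_apply_univ]
  exact ENNReal.mul_lt_top ENNReal.ofReal_lt_top
    (isCompact_closedBall w₀ (r + s)).measure_lt_top

lemma nm_lt (m : Measure ℍ) [IsFiniteMeasureOnCompacts m] (r : ℝ) (w : ℍ) : nm m r w < ⊤ :=
  (lintegral_mono fun z => kr_le r 0 z w w (by simp)).trans_lt (bd_lt m r 0 w)

lemma nm_cont (hK : StmtEKr) (m : Measure ℍ) [IsFiniteMeasureOnCompacts m] (r : ℝ) :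
    Continuous (nm m r) := by
  refine continuous_iff_continuousAt.2 fun w₀ => ?_
  change Tendsto (fun w => ∫⁻ z, kr r z w ∂m) (𝓝 w₀) (𝓝 (∫⁻ z, kr r z w₀ ∂m))
  refine tendsto_lintegral_filter_of_dominated_convergence
    (fun z => (Metric.closedBall w₀ (r + 1)).indicator (fun _ => ENNReal.ofReal r) z)
    (Eventually.of_forall fun w => kr_meas1 hK r w) ?_ (bd_lt m r 1 w₀).ne ?_
  · have h1 : ∀ᶠ w in 𝓝 w₀, dist w w₀ ≤ 1 :=
      (Metric.closedBall_mem_nhds w₀ one_pos)
    filter_upwards [h1] with w hw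
    exact ae_of_all _ fun z => kr_le r 1 z w w₀ hw
  · refine ae_of_all _ fun z => ?_
    have h1 : Continuous fun w : ℍ => (z, w) := continuous_const.prodMk continuous_id
    have h2 := (hK.2.1 r).comp h1
    exact h2.tendsto w₀

lemma rh_cont (hK : StmtEKr) (m : Measure ℍ) [IsFiniteMeasureOnCompacts m] (r : ℝ) :
    Continuous (rh m r) := by
  refine Continuous.div_const ?_ _
  refine continuous_iff_continuousAt.2 fun w => ?_
  exact (ENNReal.tendsto_toReal (nm_lt m r w).ne).comp ((nm_cont hK m r).tendsto w)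

lemma rh_nonneg (m : Measure ℍ) (r : ℝ) (w : ℍ) : 0 ≤ rh m r w :=
  div_nonneg ENNReal.toReal_nonneg ENNReal.toReal_nonneg

lemma cr_rh (hK : StmtEKr) (m : Measure ℍ) [IsFiniteMeasureOnCompacts m] (r : ℝ) (hr : 0 < r)
    (w : ℍ) : cr r * ENNReal.ofReal (rh m r w) = nm m r w := by
  obtain ⟨h0, h1, -⟩ := hK.2.2.2 r hr
  have h2 : 0 < (cr r).toReal := ENNReal.toReal_pos h0.ne' h1.ne
  unfold rh
  rw [ENNReal.ofReal_div_of_pos h2, ENNReal.ofReal_toReal (nm_lt m r w).ne,
    ENNReal.ofReal_toReal h1.ne, ENNReal.mul_div_cancel h0.ne' h1.ne]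

lemma rh_meas (hK : StmtEKr) (m : Measure ℍ) [IsFiniteMeasureOnCompacts m] (r : ℝ) :
    Measurable fun w => ENNReal.ofReal (rh m r w) :=
  (rh_cont hK m r).measurable.ennreal_ofReal

/-- the projected measure -/
lemma fin_map (μ : Measure G) (h : BI μ) : IsFiniteMeasureOnCompacts (μ.map base) := by
  have := h.fin
  refine ⟨fun K hKc => ?_⟩
  rw [Measure.map_apply Dyn.measurable_base hKc.measurableSet]
  exact (Dyn.isCompact_base hKc).measure_lt_top

lemma dens (hK : StmtEKr) (hB : StmtEBs) (μ : Measure G) (h : BI μ) (r : ℝ) (hr : 0 < r) :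
    μ.map base = (volume : Measure ℍ).withDensity fun w => ENNReal.ofReal (rh (μ.map base) r w) := by
  have hf := fin_map μ h
  obtain ⟨h0, h1, -⟩ := hK.2.2.2 r hr
  set m := μ.map base with hm
  refine Measure.ext fun S hS => ?_
  rw [withDensity_apply _ hS]
  have hF : Measurable (S.indicator (1 : ℍ → ℝ≥0∞)) := measurable_one.indicator hS
  have h2 := (hB μ h (S.indicator 1) hF).2 r hr
  have hk2 : Measurable fun p : ℍ × ℍ => kr r p.2 p.1 * S.indicator (1 : ℍ → ℝ≥0∞) p.2 :=
    ((kr_meas hK r).comp measurable_swap).mul (hF.comp measurable_snd)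
  have h3 : ∫⁻ g, (∫⁻ w : ℍ, kr r w (base g) * S.indicator (1 : ℍ → ℝ≥0∞) w) ∂μ
      = ∫⁻ z, (∫⁻ w : ℍ, kr r w z * S.indicator (1 : ℍ → ℝ≥0∞) w) ∂m := by
    rw [hm, lintegral_map hk2.lintegral_prod_right' Dyn.measurable_base]
  have h4 : ∫⁻ g, S.indicator (1 : ℍ → ℝ≥0∞) (base g) ∂μ = m S := by
    rw [← lintegral_map hF Dyn.measurable_base, ← hm, lintegral_indicator_one hS]
  have h5 : ∫⁻ z, (∫⁻ w : ℍ, kr r w z * S.indicator (1 : ℍ → ℝ≥0∞) w) ∂m
      = cr r * ∫⁻ w in S, ENNReal.ofReal (rh m r w) := by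
    rw [lintegral_lintegral_swap hk2.aemeasurable, ← lintegral_const_mul _ (rh_meas hK m r),
      ← lintegral_indicator hS]
    refine lintegral_congr fun w => ?_
    by_cases hw : w ∈ S
    · simp only [indicator_of_mem hw, Pi.one_apply, mul_one]
      rw [cr_rh hK m r hr w]
      exact lintegral_congr fun z => hK.1 r w z
    · simp only [indicator_of_notMem hw, mul_zero, lintegral_zero]
  rw [h3, h4, h5] at h2
  exact ((ENNReal.mul_right_inj h0.ne' h1.ne).1 h2).symm

end EDnM

open EDnM in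
/-- **EDn** the density -/
theorem stmtEDn (hK : StmtEKr) (hB : StmtEBs) : StmtEDn := by
  intro μ h
  have hf := fin_map μ h
  have hop := openPos
  set m := μ.map base with hm
  have hall : ∀ r : ℝ, 0 < r → ∀ w, ENNReal.ofReal (rh m r w) = ENNReal.ofReal (rh m 1 w) := by
    intro r hr
    have h1 : (fun w => ENNReal.ofReal (rh m r w)) =ᵐ[volume]
        (fun w => ENNReal.ofReal (rh m 1 w)) := by
      rw [← withDensity_eq_iff_of_sigmaFinite (rh_meas hK m r).aemeasurable
        (rh_meas hK m 1).aemeasurable]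
      rw [← dens hK hB μ h r hr, ← dens hK hB μ h 1 one_pos]
    have h2 : (fun w => ENNReal.ofReal (rh m r w)) = (fun w => ENNReal.ofReal (rh m 1 w)) :=
      (Continuous.ae_eq_iff_eq volume (ENNReal.continuous_ofReal.comp (rh_cont hK m r))
        (ENNReal.continuous_ofReal.comp (rh_cont hK m 1))).1 h1
    exact fun w => congrFun h2 w
  refine ⟨rh m 1, rh_cont hK m 1, rh_nonneg m 1, fun r hr w => ?_, fun S hS => ?_⟩
  · rw [← hall r hr w, cr_rh hK m r hr w]
    have h3 : nm m r w = ∫⁻ z, kr r z w ∂((volume : Measure ℍ).withDensity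
        fun w => ENNReal.ofReal (rh m 1 w)) := by
      rw [← dens hK hB μ h 1 one_pos]; rfl
    rw [h3, lintegral_withDensity_eq_lintegral_mul _ (rh_meas hK m 1) (kr_meas1 hK r w)]
    refine lintegral_congr fun z => ?_
    rw [Pi.mul_apply, mul_comm]
  · rw [← Measure.map_apply Dyn.measurable_base hS, ← withDensity_apply _ hS,
      ← dens hK hB μ h 1 one_pos]

end

end Pool.Agent.A54.QE
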