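import Pool.Agent.Lib.QE.SpecE

/-!
# Package `QE`, module `ETr`: the averaging operator preserves the integral over the modular surface
-/

set_option autoImplicit false

namespace Pool.Agent.A54.QE

open MeasureTheory Filter Topology Set
open scoped ContDiff ComplexConjugate UpperHalfPlane MatrixGroups ENNReal
open Pool.Agent.A54.Dyn (G fl base ze io mk4 Inv HM)
open Pool.Agent.A54.Half (H0)

noncomputable section

namespace ETrM

lemma io_smul (γ : SL(2, ℤ)) (z : ℍ) : io γ • z = γ • z := rfl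

lemma meas_smul (γ : SL(2, ℤ)) : Measurable fun z : ℍ => γ • z := by
  have h : Continuous fun z : ℍ => io γ • z := continuous_const_smul (io γ)
  exact h.measurable

lemma cancel (a b : ℝ≥0∞) (h : 2 * a = 2 * b) : a = b := by
  have h7 : (2 : ℝ≥0∞) ≠ 0 := two_ne_zero
  have h8 : (2 : ℝ≥0∞) ≠ ⊤ := ENNReal.ofNat_ne_top
  exact (ENNReal.mul_right_inj h7 h8).1 h

/-- the computation with an abstract measure and an abstract action -/
lemma core {Γ : Type} [Group Γ] [Countable Γ] {X : Type} [MeasurableSpace X] [MulAction Γ X]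
    (hm : ∀ γ : Γ, Measurable fun z : X => γ • z) (μ : Measure X) [SFinite μ] (D : Set X)
    (k : X → X → ℝ≥0∞) (c : ℝ≥0∞) (hk : Measurable fun p : X × X => k p.1 p.2)
    (hinv : ∀ (γ : Γ) (z w : X), k (γ • z) (γ • w) = k z w)
    (hunf : ∀ F : X → ℝ≥0∞, Measurable F → ∑' γ : Γ, ∫⁻ z in D, F (γ • z) ∂μ = 2 * ∫⁻ z, F z ∂μ)
    (hc : ∀ z, ∫⁻ w, k z w ∂μ = c) (u : X → ℝ≥0∞) (hu : Measurable u)
    (hui : ∀ (γ : Γ) (z : X), u (γ • z) = u z) :
    ∫⁻ w in D, (∫⁻ z, k z w * u z ∂μ) ∂μ = c * ∫⁻ w in D, u w ∂μ := by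
  have hk1 : ∀ w : X, Measurable fun z => k z w := fun w =>
    hk.comp (measurable_id.prodMk measurable_const)
  have hk2 : ∀ z : X, Measurable fun w => k z w := fun z =>
    hk.comp (measurable_const.prodMk measurable_id)
  have hkg : ∀ γ : Γ, Measurable fun p : X × X => k (γ • p.1) p.2 := fun γ =>
    hk.comp (((hm γ).comp measurable_fst).prodMk measurable_snd)
  have hkh : ∀ γ : Γ, Measurable fun p : X × X => k (γ • p.2) p.1 * u p.2 := fun γ =>
    ((hkg γ).comp measurable_swap).mul (hu.comp measurable_snd)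
  have h1 : ∀ w : X, 2 * ∫⁻ z, k z w * u z ∂μ = ∑' γ : Γ, ∫⁻ z in D, k (γ • z) w * u z ∂μ := by
    intro w
    rw [← hunf (fun z => k z w * u z) ((hk1 w).mul hu)]
    refine tsum_congr fun γ => lintegral_congr fun z => ?_
    rw [hui]
  have h2 : ∀ z : X, ∑' γ : Γ, ∫⁻ w in D, k (γ • z) w ∂μ = 2 * c := by
    intro z
    have h3 : ∀ (γ : Γ) (w : X), k (γ • z) w = k z (γ⁻¹ • w) := by
      intro γ w
      have h4 := hinv γ⁻¹ (γ • z) w
      rw [inv_smul_smul] at h4
      exact h4.symm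
    have h5 : ∑' γ : Γ, ∫⁻ w in D, k (γ • z) w ∂μ = ∑' γ : Γ, ∫⁻ w in D, k z (γ • w) ∂μ := by
      rw [← (Equiv.inv Γ).tsum_eq fun γ : Γ => ∫⁻ w in D, k z (γ • w) ∂μ]
      refine tsum_congr fun γ => lintegral_congr fun w => ?_
      rw [h3]
      rfl
    rw [h5, hunf (fun w => k z w) (hk2 z), hc]
  apply cancel
  calc 2 * ∫⁻ w in D, (∫⁻ z, k z w * u z ∂μ) ∂μ
      = ∫⁻ w in D, 2 * (∫⁻ z, k z w * u z ∂μ) ∂μ := by
        rw [lintegral_const_mul' _ _ ENNReal.ofNat_ne_top]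
    _ = ∫⁻ w in D, ∑' γ : Γ, ∫⁻ z in D, k (γ • z) w * u z ∂μ ∂μ := lintegral_congr fun w => h1 w
    _ = ∑' γ : Γ, ∫⁻ w in D, ∫⁻ z in D, k (γ • z) w * u z ∂μ ∂μ := by
        rw [lintegral_tsum]
        intro γ
        exact (Measurable.lintegral_prod_right' (ν := μ.restrict D) (hkh γ)).aemeasurable
    _ = ∑' γ : Γ, ∫⁻ z in D, u z * ∫⁻ w in D, k (γ • z) w ∂μ ∂μ := by
        refine tsum_congr fun γ => ?_
        rw [lintegral_lintegral_swap (hkh γ).aemeasurable]
        refine lintegral_congr fun z => ?_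
        rw [← lintegral_const_mul _ (hk2 (γ • z))]
        exact lintegral_congr fun w => mul_comm _ _
    _ = ∫⁻ z in D, ∑' γ : Γ, u z * ∫⁻ w in D, k (γ • z) w ∂μ ∂μ := by
        rw [lintegral_tsum]
        intro γ
        exact (hu.mul (Measurable.lintegral_prod_right' (ν := μ.restrict D) (hkg γ))).aemeasurable
    _ = ∫⁻ z in D, u z * (2 * c) ∂μ := by
        refine lintegral_congr fun z => ?_
        rw [ENNReal.tsum_mul_left, h2]
    _ = 2 * (c * ∫⁻ w in D, u w ∂μ) := by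
        rw [lintegral_mul_const _ hu]
        ring

end ETrM

theorem stmtETr (hK : StmtEKr) (hU : StmtEUf) : StmtETr := by
  have hC : Countable (SL(2, ℤ)) := by
    have : Countable (Matrix (Fin 2) (Fin 2) ℤ) := by
      unfold Matrix
      infer_instance
    exact Subtype.countable
  intro r hr u hu hui
  refine ETrM.core (Γ := SL(2, ℤ)) ETrM.meas_smul volume ModularGroup.fdo (kr r) (cr r)
    (hK.2.1 r).measurable (fun γ z w => ?_) hU.1 (fun z => ?_) u hu hui
  · exact hK.2.2.1 r (io γ) z w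
  · rw [← (hK.2.2.2 r hr).2.2 z]
    exact lintegral_congr fun w => hK.1 r z w

end

end Pool.Agent.A54.QE
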