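import Pool.Agent.Lib.QE.EMain
import Pool.Agent.Lib.QE.ETr

/-!
# Package `QE`, block E: `StmtE`
-/

set_option autoImplicit false

namespace Pool.Agent.A54.QE

/-- block E -/
theorem stmtE : StmtE :=
  stmtE_of (stmtETr stmtEKr (stmtEUf Hp.stmtNuL (Hp.stmtUnf Hp.stmtNuL)))

end Pool.Agent.A54.QE
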