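import Pool.Agent.Lib.QE.SpecE
import Pool.Agent.Lib.MP_a54f13_nt.Hp.NuLeft

/-!
# Package `QE`, module `EHa`: the base measure is a multiple of the volume

Author: helper22.
-/

set_option autoImplicit false

namespace Pool.Agent.A54.QE

open MeasureTheory Filter Topology Set
open scoped ContDiff ComplexConjugate UpperHalfPlane MatrixGroups ENNReal
open Pool.Agent.A54.Dyn (G fl base ze io mk4 Inv HM)
open Pool.Agent.A54.Half (H0)

noncomputable section

namespace EHaM

/-- the volume of the half-plane is positive on open sets -/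
theorem opos : (volume : Measure ℍ).IsOpenPosMeasure := by
  refine ⟨fun U hU hne hz => ?_⟩
  rw [UpperHalfPlane.volume_eq_lintegral] at hz
  have hO : IsOpen (UpperHalfPlane.coe '' U) := UpperHalfPlane.isOpenEmbedding_coe.isOpenMap U hU
  have hm : Measurable fun z : ℂ => (((1 / ‖z.im‖₊) ^ 2 : NNReal) : ℝ≥0∞) := by fun_prop
  rw [lintegral_eq_zero_iff hm] at hz
  have h1 : ∀ᵐ z : ℂ, z ∈ UpperHalfPlane.coe '' U → (((1 / ‖z.im‖₊) ^ 2 : NNReal) : ℝ≥0∞) = 0 :=
    (ae_restrict_iff' hO.measurableSet).1 hz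
  have h2 : volume (UpperHalfPlane.coe '' U) = 0 := by
    refine measure_mono_null ?_ (ae_iff.1 h1)
    rintro _ ⟨z, hzU, rfl⟩ h3
    have h4 := h3 ⟨z, hzU, rfl⟩
    rw [ENNReal.coe_eq_zero] at h4
    have h5 : (z : ℂ).im ≠ 0 := z.im_ne_zero
    have h6 : (1 / ‖(z : ℂ).im‖₊) = 0 := by
      exact pow_eq_zero_iff (two_ne_zero) |>.1 h4
    rw [div_eq_zero_iff] at h6
    rcases h6 with h6 | h6
    · exact one_ne_zero h6
    · exact h5 (nnnorm_eq_zero.1 h6)
  exact (hO.measure_ne_zero volume (hne.image _)) h2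

end EHaM

open EHaM

theorem stmtEHa (hD : StmtEDn) (hC : StmtECs) : StmtEHa := by
  intro μ hμ hU
  obtain ⟨ρ, hρc, hρ0, hmv, hρ⟩ := hD μ ⟨hμ.fin, hμ.right, hU⟩
  have := opos
  have hm : Measurable fun z : ℍ => ENNReal.ofReal (ρ z) := hρc.measurable.ennreal_ofReal
  -- invariance
  have hinv : ∀ (γ : SL(2, ℤ)) (z : ℍ), ρ (γ • z) = ρ z := by
    intro γ
    have hmp : MeasurePreserving (fun z : ℍ => io γ • z) (volume : Measure ℍ) volume :=
      Pool.Agent.A54.Hp.NuLM.mp (io γ)
    have hγ : Continuous fun z : ℍ => io γ • z := continuous_const_smul (io γ)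
    have h1 : ∀ S : Set ℍ, MeasurableSet S →
        μ (base ⁻¹' ((fun z : ℍ => io γ • z) ⁻¹' S)) = μ (base ⁻¹' S) := by
      intro S hS
      have h2 : Measurable fun g : G => io γ * g :=
        (continuous_const.mul continuous_id).measurable
      have h3 : μ.map (fun g => io γ * g) (base ⁻¹' S) = μ (base ⁻¹' S) := by rw [hμ.left γ]
      rw [Measure.map_apply h2 (Dyn.measurable_base hS)] at h3
      rw [← h3]
      congr 1
      ext g
      simp only [mem_preimage, Dyn.base_mul]
    have h4 : (fun z : ℍ => ENNReal.ofReal (ρ (io γ • z))) =ᵐ[volume]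
        fun z : ℍ => ENNReal.ofReal (ρ z) := by
      refine ae_eq_of_forall_setLIntegral_eq_of_sigmaFinite (hm.comp hγ.measurable) hm ?_
      intro S hS _
      have hg : Continuous fun z : ℍ => (io γ)⁻¹ • z := continuous_const_smul (io γ)⁻¹
      let S' : Set ℍ := (fun z : ℍ => (io γ)⁻¹ • z) ⁻¹' S
      have hS' : MeasurableSet S' := hg.measurable hS
      have h5 : (fun z : ℍ => io γ • z) ⁻¹' S' = S := by
        ext z
        show (io γ)⁻¹ • io γ • z ∈ S ↔ z ∈ S
        rw [inv_smul_smul]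
      have h6 := hmp.setLIntegral_comp_preimage hS' hm
      rw [h5] at h6
      rw [h6, ← hρ S' hS', ← h1 S' hS', h5, hρ S hS]
    have h7 : (fun z : ℍ => ENNReal.ofReal (ρ (io γ • z))) = fun z : ℍ => ENNReal.ofReal (ρ z) :=
      (Continuous.ae_eq_iff_eq volume (ENNReal.continuous_ofReal.comp (hρc.comp hγ))
        (ENNReal.continuous_ofReal.comp hρc)).1 h4
    intro z
    have h8 := congrFun h7 z
    have h9 := (ENNReal.ofReal_eq_ofReal_iff (hρ0 _) (hρ0 _)).1 h8
    exact h9
  have hc := hC ρ hρc hρ0 hmv hinv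
  refine ⟨ρ UpperHalfPlane.I, hρ0 _, fun S hS => ?_⟩
  rw [hρ S hS, lintegral_congr fun z => by rw [hc z UpperHalfPlane.I], lintegral_const,
    Measure.restrict_apply_univ]

end

end Pool.Agent.A54.QE
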