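import Pool.Agent.Lib.QE.SpecE
import Pool.Agent.Lib.MP_a54f13_nt.Hp.NuLeft

/-!
# Package `QE`, module `EKr`: the hat kernel on the half-plane
-/

set_option autoImplicit false

namespace Pool.Agent.A54.QE

open MeasureTheory Filter Topology Set
open scoped ContDiff ComplexConjugate UpperHalfPlane MatrixGroups ENNReal
open Pool.Agent.A54.Dyn (G fl base ze io mk4 Inv HM)
open Pool.Agent.A54.Half (H0)

noncomputable section

namespace EKrM

private lemma vol_pos (s : Set ℍ) (hs : IsOpen s) (hne : s.Nonempty) : 0 < (volume : Measure ℍ) s := by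
  rw [UpperHalfPlane.volume_eq_lintegral]
  have hopen : IsOpen (UpperHalfPlane.coe '' s) := UpperHalfPlane.isOpenEmbedding_coe.isOpenMap s hs
  have hm : Measurable fun z : ℂ => (((1 / ‖z.im‖₊) ^ 2 : NNReal) : ℝ≥0∞) := by
    have h1 : Measurable fun z : ℂ => ‖z.im‖₊ := Complex.measurable_im.nnnorm
    exact ((measurable_const.div h1).pow_const 2).coe_nnreal_ennreal
  rw [setLIntegral_pos_iff hm]
  have h2 : Function.support (fun z : ℂ => (((1 / ‖z.im‖₊) ^ 2 : NNReal) : ℝ≥0∞)) ∩ UpperHalfPlane.coe '' s =
      UpperHalfPlane.coe '' s := by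
    refine Set.inter_eq_self_of_subset_right ?_
    rintro _ ⟨w, -, rfl⟩
    have h3 : w.im ≠ 0 := w.im_pos.ne'
    simp [Function.mem_support, h3]
  rw [h2]
  exact hopen.measure_pos volume (hne.image _)

private lemma kr_cont (r : ℝ) : Continuous fun p : ℍ × ℍ => kr r p.1 p.2 :=
  ENNReal.continuous_ofReal.comp (continuous_const.sub (continuous_fst.dist continuous_snd))

private lemma kr_inv (r : ℝ) (g : G) (z w : ℍ) : kr r (g • z) (g • w) = kr r z w := by
  unfold kr
  rw [dist_smul]

private lemma kr_meas (r : ℝ) (z : ℍ) : Measurable fun w : ℍ => kr r w z :=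
  ((kr_cont r).comp (continuous_id.prodMk continuous_const)).measurable

end EKrM

open EKrM

theorem stmtEKr : StmtEKr := by
  refine ⟨fun r z w => ?_, kr_cont, kr_inv, fun r hr => ⟨?_, ?_, fun z => ?_⟩⟩
  · unfold kr
    rw [dist_comm]
  · unfold cr
    rw [lintegral_pos_iff_support (kr_meas r UpperHalfPlane.I)]
    refine lt_of_lt_of_le (vol_pos (Metric.ball UpperHalfPlane.I r) Metric.isOpen_ball ⟨_, Metric.mem_ball_self hr⟩)
      (measure_mono fun w hw => ?_)
    have h1 : dist w UpperHalfPlane.I < r := hw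
    rw [Function.mem_support]
    unfold kr
    exact (ENNReal.ofReal_pos.2 (by linarith)).ne'
  · have h1 : cr r ≤ ∫⁻ _ in Metric.closedBall UpperHalfPlane.I r, ENNReal.ofReal r ∂(volume : Measure ℍ) := by
      unfold cr
      rw [← lintegral_indicator Metric.isClosed_closedBall.measurableSet]
      refine lintegral_mono fun w => ?_
      by_cases hw : w ∈ Metric.closedBall UpperHalfPlane.I r
      · rw [Set.indicator_of_mem hw]
        unfold kr
        exact ENNReal.ofReal_le_ofReal (by linarith [dist_nonneg (x := w) (y := UpperHalfPlane.I)])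
      · rw [Set.indicator_of_notMem hw]
        unfold kr
        rw [Metric.mem_closedBall, not_le] at hw
        rw [ENNReal.ofReal_of_nonpos (by linarith)]
    refine lt_of_le_of_lt h1 ?_
    rw [setLIntegral_const]
    exact ENNReal.mul_lt_top ENNReal.ofReal_lt_top (isCompact_closedBall _ _).measure_lt_top
  · have h1 : z.toSL2R • UpperHalfPlane.I = z := UpperHalfPlane.toSL2R_smul_I z
    have h2 := (Hp.NuLM.mp z.toSL2R).lintegral_comp (kr_meas r z)
    rw [← h2]
    unfold cr
    refine lintegral_congr fun w => ?_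
    have h3 := kr_inv r z.toSL2R w UpperHalfPlane.I
    rw [h1] at h3
    exact h3

end

end Pool.Agent.A54.QE
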