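import Pool.Agent.Lib.QE.SpecE
import Pool.Agent.Lib.MP_a54f13_nt.Av.Fd2
import Pool.Agent.Lib.MP_a54f13_nt.Ef.SpecS

/-!
# Module `EOn`: no escape of mass, along the hyperfilter
-/

set_option autoImplicit false

namespace Pool.Agent.A54.QE

open MeasureTheory Filter Topology Set
open scoped ContDiff ComplexConjugate UpperHalfPlane MatrixGroups ENNReal
open Pool.Agent.A54.Dyn (G fl base ze io mk4 Inv HM)
open Pool.Agent.A54.Half (H0)

noncomputable section

namespace EOnM

open Pool.Agent.A54.X (measurableSet_fdo fdo_inter_sub isOpen_O O_sub O)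
open Pool.Agent.A54.Av (StmtVol)
open Pool.Agent.A54.Av.Fd2M (int_fdo testH int_one integral_one cut_le)

/-- small mass in the cusp -/
lemma cusp (hC : Ef.StmtCus) {κ : ℝ} (hκ : 0 < κ) : ∃ Y : ℝ, ∀ (f : ℍ → ℝ) (t : ℝ),
    IsHeckeMaass f t → ∫ z in ModularGroup.fdo ∩ {z : ℍ | Y < z.im}, f z ^ 2 ≤ κ := by
  obtain ⟨C, hC0, h⟩ := hC
  have h1 : Tendsto (fun Y : ℝ => C * Y ^ (-(1 / 4 : ℝ))) atTop (𝓝 0) := by
    have h2 := (tendsto_rpow_neg_atTop (by norm_num : (0 : ℝ) < 1 / 4)).const_mul C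
    simpa using h2
  obtain ⟨Y, hY1, hY⟩ := ((h1.eventually (gt_mem_nhds hκ)).and (eventually_ge_atTop 1)).exists
  exact ⟨Y, fun f t hf => (h f t hf Y hY).trans hY1.le⟩

/-- the constant is one, for every filter -/
lemma c_one (hVol : StmtVol) {l : Filter ℕ} [l.NeBot] {f : ℕ → ℍ → ℝ} {t : ℕ → ℝ}
    (hf : ∀ i, IsHeckeMaass (f i) (t i)) {c : ℝ} (hc : 0 ≤ c) (h : ∀ φ : ℂ → ℝ, TestR H0 φ →
      Tendsto (fun i => ∫ z : ℍ, φ z * f i z ^ 2) l (𝓝 (c * ∫ z : ℍ, φ z)))
    (hY : ∀ κ : ℝ, 0 < κ → ∃ Y : ℝ, ∀ᶠ i in l,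
      ∫ z in ModularGroup.fdo ∩ {z : ℍ | Y < z.im}, f i z ^ 2 ≤ κ) : c = 1 := by
  have hpi := Real.pi_pos
  have hsq : ∀ i, IntegrableOn (fun z => f i z ^ 2) ModularGroup.fdo :=
    fun i => Av.FdM.sq_int (hf i)
  have hcont : ∀ i, Continuous (f i) := fun i => Av.FdM.form_cont (hf i)
  have hle : ∀ κ : ℝ, 0 < κ → c * (Real.pi / 3 - κ) ≤ Real.pi / 3 := by
    intro κ hκ
    obtain ⟨K, hK, hKO, hKi⟩ := X.exists_compact (fun _ => (1 : ℝ)) (int_one hVol) hκ
    obtain ⟨χ, hχ, hχ1, hχK⟩ := exists_cutoff hK isOpen_O hKO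
    have h1 := X.cut_error hK hχ1 (fun z hz => hχK.self_of_nhdsSet z hz) hχ.smooth.continuous
      (int_one hVol) (fun _ => zero_le_one)
    have hi : Integrable fun z : ℍ => χ z := by
      have := Pl.U2M.integrable_test (testH hχ) (G := fun _ => (1 : ℝ)) continuous_const
      simpa using this
    have h2 : ∫ z in ModularGroup.fdo, (1 - χ z) * 1 = Real.pi / 3 - ∫ z : ℍ, χ z := by
      simp only [mul_one]
      rw [integral_sub (int_one hVol) hi.integrableOn, integral_one hVol]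
      have h3 := int_fdo hχ (fun _ => 1)
      simp only [mul_one] at h3
      rw [h3]
    rw [h2] at h1
    have h4 : Real.pi / 3 - κ ≤ ∫ z : ℍ, χ z := by linarith
    have h5 : c * ∫ z : ℍ, χ z ≤ Real.pi / 3 := by
      refine le_of_tendsto (h χ (testH hχ)) (Eventually.of_forall fun i => ?_)
      rw [int_fdo hχ (fun z => f i z ^ 2), ← (hf i).normalised]
      have hi2 := Pl.U2M.integrable_test (testH hχ) ((hcont i).pow 2)
      refine setIntegral_mono_on hi2.integrableOn (hsq i) measurableSet_fdo fun z _ => ?_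
      exact mul_le_of_le_one_left (sq_nonneg _) (hχ1 z).2
    exact (mul_le_mul_of_nonneg_left h4 hc).trans h5
  have hge : ∀ κ : ℝ, 0 < κ → Real.pi / 3 - κ ≤ c * (Real.pi / 3 + κ) := by
    intro κ hκ
    obtain ⟨Y, hY⟩ := hY κ hκ
    obtain ⟨χ, ζ, hχ, hχ1, hζ, hζ1, hζT, hint⟩ := Pl.U2M.cutoffs Y hκ
    have hi1 : Integrable fun z : ℍ => ζ z := by
      have := Pl.U2M.integrable_test hζ (G := fun _ => (1 : ℝ)) continuous_const
      simpa using this
    have hi2 : Integrable fun z : ℍ => χ z := by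
      have := Pl.U2M.integrable_test (testH hχ) (G := fun _ => (1 : ℝ)) continuous_const
      simpa using this
    have hi3 : Integrable fun z : ℍ => ζ z * (1 - χ z) :=
      Pl.U2M.integrable_test hζ (G := fun z => 1 - χ z)
        (continuous_const.sub (hχ.smooth.continuous.comp UpperHalfPlane.continuous_coe))
    have h1 : ∫ z : ℍ, ζ z ≤ Real.pi / 3 + κ := by
      calc ∫ z : ℍ, ζ z ≤ ∫ z : ℍ, (χ z + ζ z * (1 - χ z)) := by
            refine integral_mono hi1 (hi2.add hi3) fun z => ?_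
            show ζ z ≤ χ z + ζ z * (1 - χ z)
            have h2 := hχ1 z
            have h3 := hζ1 z
            nlinarith [mul_nonneg h2.1 (sub_nonneg.2 h3.2)]
        _ = (∫ z : ℍ, χ z) + ∫ z : ℍ, ζ z * (1 - χ z) := integral_add hi2 hi3
        _ ≤ Real.pi / 3 + κ := add_le_add (cut_le hVol hχ hχ1) hint
    have h2 : Real.pi / 3 - κ ≤ c * ∫ z : ℍ, ζ z := by
      refine ge_of_tendsto (h ζ hζ) ?_
      filter_upwards [hY] with i hi
      have hmY : MeasurableSet {z : ℍ | Y < z.im} :=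
        measurableSet_lt measurable_const UpperHalfPlane.continuous_im.measurable
      have h3 := integral_inter_add_sdiff (μ := volume) (s := ModularGroup.fdo) hmY (hsq i)
      rw [(hf i).normalised] at h3
      have hi4 : Integrable fun z : ℍ => ζ z * f i z ^ 2 :=
        Pl.U2M.integrable_test hζ ((hcont i).pow 2)
      have h4 : ∫ z in ModularGroup.fdo \ {z : ℍ | Y < z.im}, f i z ^ 2 ≤
          ∫ z : ℍ, ζ z * f i z ^ 2 := by
        calc ∫ z in ModularGroup.fdo \ {z : ℍ | Y < z.im}, f i z ^ 2 =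
            ∫ z in ModularGroup.fdo \ {z : ℍ | Y < z.im}, ζ z * f i z ^ 2 := by
              refine setIntegral_congr_fun (measurableSet_fdo.diff hmY) fun z hz => ?_
              show f i z ^ 2 = ζ z * f i z ^ 2
              have h5 : z.im ≤ Y := not_lt.mp hz.2
              rw [hζT z (fdo_inter_sub Y ⟨hz.1, h5⟩), one_mul]
          _ ≤ _ := setIntegral_le_integral hi4
              (Eventually.of_forall fun z => mul_nonneg (hζ1 z).1 (sq_nonneg _))
      linarith
    exact h2.trans (mul_le_mul_of_nonneg_left h1 hc)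
  apply le_antisymm
  · by_contra hlt
    have hlt' : 1 < c := not_le.mp hlt
    have h1 := hle ((c - 1) * Real.pi / (6 * c)) (by
      have h2 : 0 < c - 1 := by linarith
      have h3 : 0 < c := by linarith
      positivity)
    have h3 : 0 < c := by linarith
    have h4 : c * (Real.pi / 3 - (c - 1) * Real.pi / (6 * c)) =
        Real.pi / 3 + (c - 1) * Real.pi / 6 := by
      field_simp
      ring
    rw [h4] at h1
    have h5 : 0 < (c - 1) * Real.pi / 6 := by
      have h2 : 0 < c - 1 := by linarith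
      positivity
    linarith
  · by_contra hlt
    have hlt' : c < 1 := not_le.mp hlt
    have h2 : 0 < 1 - c := by linarith
    have h1 := hge ((1 - c) * Real.pi / 12) (by positivity)
    nlinarith [mul_pos h2 hpi]

end EOnM

theorem stmtEOn (hV : Av.StmtVol) (hC : Ef.StmtCus) : StmtEOn := by
  intro f t hf c hc h
  refine EOnM.c_one hV (l := (hyperfilter ℕ : Filter ℕ)) hf.form hc h fun κ hκ => ?_
  obtain ⟨Y, hY⟩ := EOnM.cusp hC hκ
  exact ⟨Y, Eventually.of_forall fun i => hY (f i) (t i) (hf.form i)⟩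

end

end Pool.Agent.A54.QE
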