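import Pool.Agent.Lib.QE.SpecE
import Pool.Agent.Lib.MP_a54f13_nt.Av.Fd

/-!
# Package `QE`, module `EQu`: the case `n = 2` for all sequences from the hyperfilter statement
-/

set_option autoImplicit false

namespace Pool.Agent.A54.QE

open MeasureTheory Filter Topology Set
open scoped ContDiff ComplexConjugate UpperHalfPlane MatrixGroups ENNReal
open Pool.Agent.A54.Dyn (G fl base ze io mk4 Inv HM)
open Pool.Agent.A54.Half (H0)

noncomputable section

namespace EQuM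

/-- a subsequence of a sequence of Hecke–Maass forms -/
private lemma hm_comp {f : ℕ → ℍ → ℝ} {t : ℕ → ℝ} (hf : HM f t) {σ : ℕ → ℕ} (hσ : StrictMono σ) :
    HM (fun i => f (σ i)) (fun i => t (σ i)) where
  form := fun i => hf.form (σ i)
  lim := hf.lim.comp hσ.tendsto_atTop

/-- the real form of the hyperfilter statement -/
private lemma real_form
    (H : ∀ (f : ℕ → ℍ → ℝ) (t : ℕ → ℝ), HM f t → ∀ φ : ℂ → ℂ, Test H0 φ →
      Tendsto (fun i => ∫ z : ℍ, φ z * ((f i z : ℂ) ^ 2)) (hyperfilter ℕ : Filter ℕ)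
        (𝓝 (∫ z : ℍ, φ z)))
    {f : ℕ → ℍ → ℝ} {t : ℕ → ℝ} (hf : HM f t) {φ : ℂ → ℝ} (hφ : TestR H0 φ) :
    Tendsto (fun i => ∫ z : ℍ, φ z * f i z ^ 2) (hyperfilter ℕ : Filter ℕ) (𝓝 (∫ z : ℍ, φ z)) := by
  have h1 := H f t hf (fun z => (φ z : ℂ)) hφ.toTest
  have h2 := (Complex.continuous_re.tendsto _).comp h1
  have e1 : (∫ z : ℍ, (φ z : ℂ)).re = ∫ z : ℍ, φ z := by
    rw [integral_complex_ofReal (f := fun z : ℍ => φ z)]
    exact Complex.ofReal_re _
  have e2 : ∀ i, (∫ z : ℍ, (φ z : ℂ) * ((f i z : ℂ) ^ 2)).re = ∫ z : ℍ, φ z * f i z ^ 2 := by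
    intro i
    have e : ∫ z : ℍ, (φ z : ℂ) * ((f i z : ℂ) ^ 2) = ∫ z : ℍ, ((φ z * f i z ^ 2 : ℝ) : ℂ) := by
      refine integral_congr_ae (Eventually.of_forall fun z => ?_)
      simp only [Complex.ofReal_mul, Complex.ofReal_pow]
    rw [e, integral_complex_ofReal (f := fun z : ℍ => φ z * f i z ^ 2)]
    exact Complex.ofReal_re _
  rw [e1] at h2
  exact h2.congr fun i => e2 i

end EQuM

open EQuM in
theorem stmtEQu (hU : Pl.StmtU2) : StmtEQu := by
  intro H f t hf ψ hψ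
  have hc : ∀ i, Continuous (f i) := fun i => Av.FdM.form_cont (hf.form i)
  have key : ∀ φ : ℂ → ℝ, TestR H0 φ → Tendsto (fun i => ∫ z : ℍ, φ z * f i z ^ 2) atTop
      (𝓝 (1 * ∫ z : ℍ, φ z)) := by
    intro φ hφ
    rw [one_mul]
    by_contra hn
    rw [Metric.tendsto_atTop'] at hn
    push Not at hn
    obtain ⟨ε, hε, hn⟩ := hn
    have hfr : ∃ᶠ i in atTop, ε ≤ dist (∫ z : ℍ, φ z * f i z ^ 2) (∫ z : ℍ, φ z) := by
      rw [Filter.frequently_atTop']
      exact hn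
    obtain ⟨σ, hσ, hσ2⟩ := Filter.extraction_of_frequently_atTop hfr
    have h1 := real_form H (hm_comp hf hσ) hφ
    have h2 := (Metric.tendsto_nhds.mp h1) ε hε
    obtain ⟨i, hi⟩ := h2.exists
    exact absurd hi (not_lt.mpr (hσ2 i))
  have h := hU (fun i z => f i z ^ 2) 1 (fun i => (hc i).pow 2) (fun i z => sq_nonneg _) key ψ hψ
  rw [one_mul] at h
  exact h

end

end Pool.Agent.A54.QE
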