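import Pool.Agent.Lib.QE.SpecE
import Pool.Agent.Lib.MP_a54f13_nt.Hp.Unf

/-!
# Package `QE`, module `EUf`: unfolding on the half-plane (helper93)
-/

set_option autoImplicit false

namespace Pool.Agent.A54.QE

open MeasureTheory Filter Topology Set
open scoped ContDiff ComplexConjugate UpperHalfPlane MatrixGroups ENNReal
open Pool.Agent.A54.Dyn (G fl base ze io mk4 Inv HM)

noncomputable section

namespace EUfM

lemma meas_smul (γ : SL(2, ℤ)) : Measurable fun z : ℍ => γ • z := by
  have h : Continuous fun z : ℍ => io γ • z := continuous_const_smul (io γ)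
  exact h.measurable

lemma part1 (hN : Hp.StmtNuL) (hU : Hp.StmtUnf) (F : ℍ → ℝ≥0∞) (hF : Measurable F) :
    ∑' γ : SL(2, ℤ), ∫⁻ z in ModularGroup.fdo, F (γ • z) = 2 * ∫⁻ z : ℍ, F z := by
  have h1 := hU.1 (fun g => F (base g)) (hF.comp Dyn.measurable_base)
  rw [hN.2.2.2.2 F hF] at h1
  rw [← h1]
  refine tsum_congr fun γ => ?_
  have h2 := (Hp.UnfM.mpb hN).setLIntegral_comp_preimage (s := ModularGroup.fdo) X.measurableSet_fdo
    (f := fun z => F (γ • z)) (hF.comp (meas_smul γ))
  rw [← h2]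
  refine setLIntegral_congr_fun Hp.UnfM.measurableSet_FF fun g _ => ?_
  show F (γ • base g) = F (base (io γ * g))
  rw [Hp.UnfM.base_io_mul]

end EUfM

theorem stmtEUf (hN : Hp.StmtNuL) (hU : Hp.StmtUnf) : StmtEUf := by
  refine ⟨EUfM.part1 hN hU, fun V hV hinv h0 => ?_⟩
  have h1 := EUfM.part1 hN hU (V.indicator fun _ => 1) (measurable_const.indicator hV)
  have h2 : ∀ γ : SL(2, ℤ), ∫⁻ z in ModularGroup.fdo, V.indicator (fun _ => (1 : ℝ≥0∞)) (γ • z) = 0 := by
    intro γ
    have h3 : ∀ z : ℍ, V.indicator (fun _ => (1 : ℝ≥0∞)) (γ • z) = V.indicator (fun _ => (1 : ℝ≥0∞)) z := by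
      intro z
      by_cases hz : z ∈ V
      · rw [indicator_of_mem hz, indicator_of_mem ((hinv γ z).2 hz)]
      · rw [indicator_of_notMem hz, indicator_of_notMem (fun h => hz ((hinv γ z).1 h))]
    rw [lintegral_congr h3, lintegral_indicator hV, setLIntegral_const, one_mul, Measure.restrict_apply hV]
    exact h0
  rw [tsum_congr h2, tsum_zero, lintegral_indicator hV, setLIntegral_const, one_mul] at h1
  have h4 := (mul_eq_zero.1 h1.symm).resolve_left (by norm_num)
  exact h4

end

end Pool.Agent.A54.QE
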