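import Pool.Agent.Lib.QE.EKr
import Pool.Agent.Lib.QE.EBs
import Pool.Agent.Lib.QE.EDn
import Pool.Agent.Lib.QE.EUf
import Pool.Agent.Lib.QE.ECs
import Pool.Agent.Lib.QE.EHa
import Pool.Agent.Lib.QE.EOn
import Pool.Agent.Lib.QE.EAs
import Pool.Agent.Lib.QE.EQu
import Pool.Agent.Lib.MP_a54f13_nt.Hp.NuLeft
import Pool.Agent.Lib.MP_a54f13_nt.Hp.Unf
import Pool.Agent.Lib.MP_a54f13_nt.Av.Vol
import Pool.Agent.Lib.MP_a54f13_nt.Ef.Main
import Pool.Agent.Lib.MP_a54f13_nt.Pl.U2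

/-!
# Package `QE`, block E: assembly

`stmtE_of` (block E), `que` (the case `n = 2` for all sequences, from the five blocks).
-/

set_option autoImplicit false

namespace Pool.Agent.A54.QE

open MeasureTheory Filter Topology Set
open scoped ContDiff ComplexConjugate UpperHalfPlane MatrixGroups ENNReal
open Pool.Agent.A54.Dyn (HM)

noncomputable section

/-- block E, from the invariance of the integral under the averaging operator -/
theorem stmtE_of (hT : StmtETr) : StmtE :=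
  stmtEAs
    (stmtEHa (stmtEDn stmtEKr (stmtEBs stmtEKr Hp.stmtNuL))
      (stmtECs stmtEKr (stmtEUf Hp.stmtNuL (Hp.stmtUnf Hp.stmtNuL)) hT Av.stmtVol))
    (stmtEOn Av.stmtVol Ef.pCus)

/-- the case `n = 2` for all sequences of Hecke–Maass forms, from the five blocks -/
theorem que (hA : StmtA) (hB : StmtB) (hC : StmtC) (hD : StmtD) (hE : StmtE) (f : ℕ → ℍ → ℝ) (t : ℕ → ℝ) (hf : HM f t)
    (ψ : ℍ → ℝ) (hψ : TestX ψ) :
    Tendsto (fun i => ∫ z in ModularGroup.fdo, ψ z * f i z ^ 2) atTop (𝓝 (∫ z in ModularGroup.fdo, ψ z)) :=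
  stmtEQu Pl.stmtU2 (fun f t hf φ hφ => que_hyper hA hB hC hD hE f t hf φ hφ) f t hf ψ hψ

end

end Pool.Agent.A54.QE
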