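import Pool.Agent.Lib.HS.R.All
import Pool.Agent.Lib.HS.Fin
import Pool.Agent.Lib.QE.AAs
import Pool.Agent.Lib.QE.ACr
import Pool.Agent.Lib.QE.ADe
import Pool.Agent.Lib.QE.AEq
import Pool.Agent.Lib.QE.AEx
import Pool.Agent.Lib.QE.AFin
import Pool.Agent.Lib.QE.AG1
import Pool.Agent.Lib.QE.AG2
import Pool.Agent.Lib.QE.AGm
import Pool.Agent.Lib.QE.AH1
import Pool.Agent.Lib.QE.AH2
import Pool.Agent.Lib.QE.AH3
import Pool.Agent.Lib.QE.AHd
import Pool.Agent.Lib.QE.AHe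
import Pool.Agent.Lib.QE.AHo
import Pool.Agent.Lib.QE.AMp
import Pool.Agent.Lib.QE.APr
import Pool.Agent.Lib.QE.ASf
import Pool.Agent.Lib.QE.ASu
import Pool.Agent.Lib.QE.AUn
import Pool.Agent.Lib.QE.BAr
import Pool.Agent.Lib.QE.BCs
import Pool.Agent.Lib.QE.BCw
import Pool.Agent.Lib.QE.BFl
import Pool.Agent.Lib.QE.BHk
import Pool.Agent.Lib.QE.BHl
import Pool.Agent.Lib.QE.BHm
import Pool.Agent.Lib.QE.BMain
import Pool.Agent.Lib.QE.BMc
import Pool.Agent.Lib.QE.BMd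
import Pool.Agent.Lib.QE.BMs
import Pool.Agent.Lib.QE.BMt
import Pool.Agent.Lib.QE.BPq
import Pool.Agent.Lib.QE.BPs
import Pool.Agent.Lib.QE.BPw
import Pool.Agent.Lib.QE.BRec
import Pool.Agent.Lib.QE.BSy
import Pool.Agent.Lib.QE.BTr
import Pool.Agent.Lib.QE.BVl
import Pool.Agent.Lib.QE.BXf
import Pool.Agent.Lib.QE.CAt
import Pool.Agent.Lib.QE.CBd
import Pool.Agent.Lib.QE.CBx
import Pool.Agent.Lib.QE.CCl
import Pool.Agent.Lib.QE.CCp
import Pool.Agent.Lib.QE.CCs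
import Pool.Agent.Lib.QE.CCt
import Pool.Agent.Lib.QE.CCv
import Pool.Agent.Lib.QE.CDc
import Pool.Agent.Lib.QE.CLn
import Pool.Agent.Lib.QE.CMk
import Pool.Agent.Lib.QE.CMs
import Pool.Agent.Lib.QE.CRg
import Pool.Agent.Lib.QE.CTw
import Pool.Agent.Lib.QE.CUn
import Pool.Agent.Lib.QE.CXi
import Pool.Agent.Lib.QE.CZm
import Pool.Agent.Lib.QE.DAsm
import Pool.Agent.Lib.QE.DBes
import Pool.Agent.Lib.QE.DCont
import Pool.Agent.Lib.QE.DDns
import Pool.Agent.Lib.QE.DFin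
import Pool.Agent.Lib.QE.DFlo
import Pool.Agent.Lib.QE.DGeo
import Pool.Agent.Lib.QE.DHP
import Pool.Agent.Lib.QE.DHkN
import Pool.Agent.Lib.QE.DKer
import Pool.Agent.Lib.QE.DLim
import Pool.Agent.Lib.QE.DLus
import Pool.Agent.Lib.QE.DME
import Pool.Agent.Lib.QE.DMX
import Pool.Agent.Lib.QE.DMea
import Pool.Agent.Lib.QE.DMul
import Pool.Agent.Lib.QE.DMxL
import Pool.Agent.Lib.QE.DNull
import Pool.Agent.Lib.QE.DOne
import Pool.Agent.Lib.QE.DPick
import Pool.Agent.Lib.QE.DPoly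
import Pool.Agent.Lib.QE.DQ0
import Pool.Agent.Lib.QE.DQc
import Pool.Agent.Lib.QE.DQg
import Pool.Agent.Lib.QE.DSel
import Pool.Agent.Lib.QE.DSeq
import Pool.Agent.Lib.QE.DTI
import Pool.Agent.Lib.QE.DTime
import Pool.Agent.Lib.QE.DUnif
import Pool.Agent.Lib.QE.DWin
import Pool.Agent.Lib.QE.DXE
import Pool.Agent.Lib.QE.DXM
import Pool.Agent.Lib.QE.DZoom
import Pool.Agent.Lib.QE.EBs
import Pool.Agent.Lib.QE.ECs
import Pool.Agent.Lib.QE.EDn
import Pool.Agent.Lib.QE.EHa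
import Pool.Agent.Lib.QE.EKr
import Pool.Agent.Lib.QE.EMain
import Pool.Agent.Lib.QE.EOn
import Pool.Agent.Lib.QE.EQu
import Pool.Agent.Lib.QE.ETr
import Pool.Agent.Lib.QE.EUf
import Pool.Agent.Lib.QE.WDi
import Pool.Agent.Lib.QE.WFi
import Pool.Agent.Lib.QE.WFn
import Pool.Agent.Lib.QE.WSm
import Pool.Agent.Lib.QE.WUn

/-!
# Package `QE`: all blocks together: the case `n = 2` for all sequences
-/

set_option autoImplicit false

namespace Pool.Agent.A54.QE.Z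

open MeasureTheory Filter Topology Set
open scoped ContDiff ComplexConjugate UpperHalfPlane MatrixGroups ENNReal

theorem pWDi : StmtWDi := stmtWDi
theorem pWSm : StmtWSm := stmtWSm pWDi
theorem pWUn : StmtWUn := stmtWUn
theorem pWFi : StmtWFi := stmtWFi pWSm
theorem pWt : Wt := stmtWFn pWSm pWUn pWFi
theorem pA : StmtA := stmtA
theorem pB : StmtB := stmtB pWt
theorem pCLn : StmtCLn := stmtCLn
theorem pCZm : StmtCZm := stmtCZm
theorem pCAt : StmtCAt := stmtCAt pCZm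
theorem pCCl : StmtCCl := stmtCCl
theorem pCCp : StmtCCp := stmtCCp pCCl
theorem pCCv : StmtCCv := stmtCCv
theorem pCCs : StmtCCs := stmtCCs pCCv
theorem pCBx : StmtCBx := stmtCBx
theorem pCCt : StmtCCt := stmtCCt
theorem pCDc : StmtCDc := stmtCDc pCCp pCCs pCBx pCCt
theorem pCTw : StmtCTw := stmtCTw
theorem pCXi : StmtCXi := stmtCXi
theorem pCMk : StmtCMk := stmtCMk pCXi pCTw
theorem pCUn : StmtCUn := stmtCUn
theorem pCRg : StmtCRg := stmtCRg
theorem pCBd : StmtCBd := stmtCBd pCCl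
theorem pCMs : StmtCMs := stmtCMs pCTw pCMk pCUn pCRg pCBd
theorem pC : StmtC := blockC pWt pCLn pCAt pCDc pCMs
theorem pDKer : StmtDKer := stmtDKer
theorem pDNull : StmtDNull := stmtDNull pDKer
theorem pDDns : StmtDDns := stmtDDns pDKer pDNull
theorem pDFlo : StmtDFlo := stmtDFlo
theorem pDCont : StmtDCont := stmtDCont
theorem pDQc : StmtDQc := stmtDQc
theorem pDQg : StmtDQg := stmtDQg pDCont pDQc
theorem pDMul : StmtDMul := stmtDMul pDCont
theorem pDZoom : StmtDZoom := stmtDZoom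
theorem pDMea : StmtDMea := stmtDMea pDKer pDCont pDQc
theorem pDXM : StmtDXM := stmtDXM pDKer
theorem pDLus : StmtDLus := stmtDLus
theorem pDUnif : StmtDUnif := stmtDUnif
theorem pDBes : StmtDBes := stmtDBes
theorem pDMxL : StmtDMxL := stmtDMxL pDBes
theorem pDWin : StmtDWin := stmtDWin
theorem pDMX : StmtDMX := stmtDMX pDMxL pDKer pDWin
theorem pDSeq : StmtDSeq := stmtDSeq
theorem pDME : StmtDME := stmtDME pDSeq
theorem pDXE : StmtDXE := stmtDXE pDLus pDUnif pDMX pDME pDXM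
theorem pDHkN : StmtDHkN := stmtDHkN
theorem pDSel : StmtDSel := stmtDSel pDHkN
theorem pDTime : StmtDTime := stmtDTime
theorem pDPoly : StmtDPoly := stmtDPoly
theorem pDPick : StmtDPick := stmtDPick pDPoly
theorem pDGeo : StmtDGeo := stmtDGeo
theorem pDOne : StmtDOne := stmtDOne pDTime pDPick pDGeo pDFlo
theorem pDLim : StmtDLim := stmtDLim
theorem pDHP : StmtDHP := stmtDHP pDXM pDXE pDSel pDOne pDLim
theorem pDQ0 : StmtDQ0 := stmtDQ0 pDDns pDMea pDHP pDZoom pDFlo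
theorem pDTI : StmtDTI := stmtDTI pDKer pDDns pDFlo pDCont pDQc pDQg pDMul pDZoom pDQ0
theorem pDFin : StmtDFin := stmtDFin
theorem pD : StmtD := stmtD_of pWt pDTI pDFin
theorem pEKr : StmtEKr := stmtEKr
theorem pEUf : StmtEUf := stmtEUf Hp.stmtNuL Hp.pUnf
theorem pETr : StmtETr := stmtETr pEKr pEUf
theorem pE : StmtE := stmtE_of pETr
theorem pEQu : StmtEQu := stmtEQu Pl.stmtU2

end Pool.Agent.A54.QE.Z

namespace Pool.Agent.A54.QE

open MeasureTheory Filter Topology Set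
open scoped ContDiff ComplexConjugate UpperHalfPlane MatrixGroups ENNReal

/-- **the case `n = 2`** (quantum unique ergodicity) for all sequences of Hecke–Maass forms -/
theorem queAll (f : ℕ → ℍ → ℝ) (t : ℕ → ℝ) (hf : ∀ i, IsHeckeMaass (f i) (t i))
    (ht : Tendsto t atTop atTop) (ψ : ℍ → ℝ) (hψ : TestX ψ) :
    Tendsto (fun i => ∫ z in ModularGroup.fdo, ψ z * f i z ^ 2) atTop
      (𝓝 (∫ z in ModularGroup.fdo, ψ z)) :=
  que Z.pA Z.pB Z.pC Z.pD Z.pE f t ⟨hf, ht⟩ ψ hψ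

end Pool.Agent.A54.QE
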