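import Pool.Agent.Lib.QE.SpecW

/-!
# Package `QE`, block A: leaf measures (helper83)

Statements with complete proofs in the docstrings. `StmtXyz` is proved in `Pool/Agent/Lib/QE/Xyz.lean`, theorem `stmtXyz`.
-/

set_option autoImplicit false

namespace Pool.Agent.A54.QE

open MeasureTheory Filter Topology Set
open scoped ContDiff ComplexConjugate UpperHalfPlane MatrixGroups ENNReal
open Pool.Agent.A54.Dyn (G fl base ze io mk4 Inv)
open Pool.Agent.A54.Hp (nm Om xi Tb)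
open Pool.Agent.A54.Av (Mat)

noncomputable section

/-! ### Coordinates -/

/-- the coordinates `(vc, uc)` -/
structure Crd : Prop where
  vne : ∀ g : G, vc g ≠ 0
  eq : ∀ g : G, sc (vc g) * un (uc g) = g
  vsc : ∀ v : ℝ × ℝ, v ≠ 0 → vc (sc v) = v
  usc : ∀ v : ℝ × ℝ, v ≠ 0 → uc (sc v) = 0
  vun : ∀ (g : G) (u : ℝ), vc (g * un u) = vc g
  uun : ∀ (g : G) (u : ℝ), uc (g * un u) = uc g + u
  mvc : Measurable vc
  muc : Measurable uc
  msc : Measurable sc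
  cun : Continuous un
  add : ∀ u u' : ℝ, un (u + u') = un u * un u'
  zero : un 0 = 1
  unfl : ∀ u t : ℝ, un u * fl t = fl t * un (Real.exp (-t) * u)
  vfl : ∀ (g : G) (t : ℝ), vc (g * fl t) = Real.exp (t / 2) • vc g
  /-- the action of `h` on the first column -/
  vmul : ∀ h g : G, vc (h * g) = (h 0 0 * (vc g).1 + h 0 1 * (vc g).2, h 1 0 * (vc g).1 + h 1 1 * (vc g).2)
  meas : Measurable fun p : (ℝ × ℝ) × ℝ => sc p.1 * un p.2
  leaf : ∀ g g' : G, vc g = vc g' → g' = g * un (uc g' - uc g)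

/-- (ACr) COORDINATES.

PROOF. Entries (`Dyn.mul_00`, ..., `Dyn.G_ext`, `Dyn.det_eq`). With `v = (a, c) ≠ 0`, `r = a² + c²`: `sc v = (a, -c/r; c, a/r)`; `sc v * un u` has the second column `(-c/r + u a, a/r + u c)`,
and `uc` of it is `u`. The second column `(b, d)` of `g` with `ad - bc = 1` equals `(-c/r, a/r) + uc g • (a, c)`, `uc g = (a b + c d)/r`. `leaf`: `eq` for `g` and `g'`. Measurability: `vc`, `uc` are (quotients of) continuous functions;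
`sc` is continuous on the open set `v ≠ 0` and constant `1` on `{0}` (`Measurable.piecewise`/`ContinuousOn.measurable_piecewise`; a map to `G` is continuous if its entries are, `Dyn.continuous_fl` is a model). -/
def StmtACr : Prop := Crd

/-! ### Disintegration -/

/-- (ASf) THE FAMILIES OF LEAF MEASURES ARE S-FINITE KERNELS.

PROOF. `κ a` restricted to `[j, j+1)` (`j ∈ ℤ`) and to `a ∈ {k ≤ κ a [j, j+1) < k + 1}` (`k ∈ ℕ`, a measurable set) is a finite kernel, and `κ` is the countable sum of these kernels (`κ a [j, j+1) < ∞`). The rest: `Measurable.lintegral_kernel_prod_right'`,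
`Kernel.measurable_kernel_prodMk_left`. -/
def StmtASf : Prop := ∀ (α : Type) (_ : MeasurableSpace α) (κ : α → Measure ℝ), Measurable κ →
  (∀ a, IsFiniteMeasureOnCompacts (κ a)) → (∃ K : ProbabilityTheory.Kernel α ℝ, ProbabilityTheory.IsSFiniteKernel K ∧ ∀ a, K a = κ a) ∧
  (∀ E : Set (α × ℝ), MeasurableSet E → Measurable fun a => κ a {x | (a, x) ∈ E}) ∧
  ∀ F : α × ℝ → ℝ≥0∞, Measurable F → Measurable fun a => ∫⁻ x, F (a, x) ∂(κ a)

/-- (AEx) EXISTENCE OF LEAF MEASURES (uses `ACr`, `ASf`).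

PROOF. `Ψ = (vc, uc) : G → (ℝ × ℝ) × ℝ`, `π = (μ.withDensity (ofReal w)).map Ψ`, a finite measure; `θ = π.fst`, `κ = π.condKernel` (`Measure.disintegrate`: `θ ⊗ₘ κ = π`). `f(v, x) = ofReal (w (sc v * un x))⁻¹`,
`m v = (κ v).withDensity (f (v, ·))`: a measurable family (`Kernel.withDensity`), finite on compact sets because `x ↦ w (sc v * un x)` is continuous and positive. `lf g = (m (vc g)).map (x ↦ x - uc g)`: measurable
(`Measure.measurable_of_measurable_coe`, `lf g S = m (vc g) {x | x - uc g ∈ S}`, `Kernel.measurable_kernel_prodMk_left`), `tr` by `vun`, `uun`, `Measure.map_map`. `θ {0} = 0` since `vc g ≠ 0`. Formula: for `F` measurable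
`∫ F dμ = ∫ F(g) (w g)⁻¹ d(w μ) = ∫ F(sc v un x) (w (sc v un x))⁻¹ dπ(v, x)` (`eq`) `= ∫∫ F(sc v un x) dm_v(x) dθ(v)` and `lf (sc v) = m v` for `v ≠ 0`. -/
def StmtAEx : Prop := ∀ μ : Measure G, IsFiniteMeasureOnCompacts μ →
  (∃ w : G → ℝ, Continuous w ∧ (∀ g, 0 < w g) ∧ ∫⁻ g, ENNReal.ofReal (w g) ∂μ < ⊤) →
    ∃ lf : G → Measure ℝ, LS μ lf

/-- (AUn) UNIQUENESS (uses `ACr`, `ASf`).

PROOF. `w > 0` measurable with `∫ w dμ < ∞` (`exists_pos_lintegral_lt_of_sigmaFinite`), `π = (w μ).map (vc, uc)` finite. By `dis`, `a(v) = ∫ w(sc v un x) d(lf (sc v))(x)` satisfies `∫ a dθ = ∫ w dμ < ∞`, so `a < ∞` a.e.; for measurable `S`, `T`: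
`π (S × T) = ∫_S ∫_T w(sc v un x) d(lf (sc v)) dθ(v)` (`vc (sc v * un x) = v`, `uc (sc v * un x) = x` for `v ≠ 0`), so `π.fst = a θ` and `π = π.fst ⊗ₘ κ` for the Markov kernel `κ v = a(v)⁻¹ • (lf (sc v)).withDensity (w (sc v * un ·))` on `0 < a < ∞`
(and a fixed probability measure elsewhere). By `ProbabilityTheory.eq_condKernel_of_measure_eq_compProd` `κ v = π.condKernel v` for `π.fst`-a.e. `v`. The same for `lf'`: so for `π.fst`-a.e. `v` the measures `lf (sc v)` and `lf' (sc v)` with densities `w(sc v un ·)`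
are proportional, hence (multiply by the density `w⁻¹`) `Pr (lf (sc v)) (lf' (sc v))`. A `π.fst`-null set `Z` has `μ (vc ⁻¹' Z) = 0` (`w > 0`). `g = sc (vc g) * un (uc g)` and `tr`: `Pr (lf g) (lf' g)`. -/
def StmtAUn : Prop := ∀ (μ : Measure G) (lf lf' : G → Measure ℝ), SigmaFinite μ → LS μ lf → LS μ lf' →
  ∀ᵐ g ∂μ, Pr (lf g) (lf' g)

/-- (AMp) IMAGES (uses `ACr`, `ASf`).

PROOF. Left: `lf'(g) = lf (h⁻¹ g)`: `meas`, `fin`, `tr` clear. `dis`: `θ' = θ.map (v ↦ h v)` (`vmul`; a linear isomorphism of `ℝ²`, `vc (h * sc v) = h v`). `∫ F d(h_* μ) = ∫∫ F(h sc v un x) d(lf (sc v))(x) dθ(v)`; for `v ≠ 0`, `c = uc (h * sc v)`: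
`h * sc v = sc (h v) * un c` (`eq`), `h⁻¹ * sc (h v) = sc v * un (-c)`, so `lf' (sc (h v)) = lf (sc v * un (-c)) = (lf (sc v)).map (x ↦ x + c)` and `∫ F(sc (h v) un (c + x)) d(lf (sc v))(x) = ∫ F(sc (h v) un y) d(lf' (sc (h v)))(y)`.
Right: `lf'(g) = (lf (g fl(-t))).map (x ↦ e^(-t) x)`; `tr`: `g un u fl(-t) = g fl(-t) un (e^t u)`, `e^(-t) (x - e^t u) = e^(-t) x - u`. `dis`: `θ' = θ.map (v ↦ e^(t/2) v)`; `sc v un x fl t = sc v fl t un (e^(-t) x)`, `sc v * fl t = sc (e^(t/2) v) * un c'`, as before. -/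
def StmtAMp : Prop := ∀ (μ : Measure G) (lf : G → Measure ℝ), LS μ lf →
  (∀ h : G, LS (μ.map fun g => h * g) fun g => lf (h⁻¹ * g)) ∧
  ∀ t : ℝ, LS (μ.map fun g => g * fl t) fun g => (lf (g * fl (-t))).map fun x => Real.exp (-t) * x

/-- (ADe) DENSITIES CONSTANT ON THE LEAVES (uses `ACr`, `ASf`).

PROOF. The same `lf`; `θ' = θ.withDensity (v ↦ F (sc v))` is sigma-finite (`F < ∞`: `SigmaFinite.withDensity_of_ne_top` or similar), `θ' {0} = 0`, `∫ H d(F M) = ∫ H F dM = ∫∫ H(sc v un x) F(sc v un x) ... dθ` and `F (sc v un x) = F (sc v)` (`vc`, `sc` measurable: `StmtACr`). -/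
def StmtADe : Prop := ∀ (M : Measure G) (lf : G → Measure ℝ), LS M lf → ∀ F : G → ℝ≥0∞, Measurable F →
  (∀ (g : G) (u : ℝ), F (g * un u) = F g) → (∀ g, F g ≠ ⊤) → LS (M.withDensity F) lf

/-- (ASu) SUPPORT (uses `ACr`, `ASf`).

PROOF. For `v`, the set `{x | ∃ r > 0, lf (sc v) (Ioo (x - r) (x + r)) = 0}` is the complement of the support, a null set (`lf (sc v)`-null; union of countably many rational intervals which are null). `lf (sc v * un x) (Ioo (-r) r) = lf (sc v) (Ioo (x - r) (x + r))` (`tr`).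
So by `dis` the set `{g | ∃ r > 0, lf g (Ioo (-r) r) = 0}` (measurable: rational `r`) has measure `∫∫ ... = 0`. -/
def StmtASu : Prop := ∀ (μ : Measure G) (lf : G → Measure ℝ), LS μ lf →
  ∀ᵐ g ∂μ, ∀ r : ℝ, 0 < r → 0 < lf g (Ioo (-r) r)

/-- (APr) MEASURABILITY OF PROPORTIONALITY.

PROOF. For measures `m`, `m'` on `ℝ` finite on compact sets: `Pr m m'` iff `(m = 0 ∧ m' = 0) ∨ (m ≠ 0 ∧ m' ≠ 0 ∧ ∀ rational intervals `I, J = Ioo a b`: m I * m' J = m J * m' I)`: if the second alternative holds take `J` with `m' J ≠ 0`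
(then `m J ≠ 0`: otherwise `m I * m' J = 0` for all `I`, `m = 0`), `m I = (m J / m' J) m' I` for all `I`, and measures finite on compacts which agree on the pi-system of rational open intervals are equal (`Real.measure_ext_Ioo_rat`).
`m = 0` iff `m (Ioo (-n) n) = 0` for all `n`. So the set is a countable Boolean combination of sets defined by the measurable functions `g ↦ κ g I`. -/
def StmtAPr : Prop := ∀ κ κ' : G → Measure ℝ, Measurable κ → Measurable κ' →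
  (∀ g, IsFiniteMeasureOnCompacts (κ g)) → (∀ g, IsFiniteMeasureOnCompacts (κ' g)) → MeasurableSet {g | Pr (κ g) (κ' g)}

/-! ### Hopf's argument -/

/-- sums over a subgroup -/
def Pk (H : Subgroup SL(2, ℤ)) (k : G → ℝ) (g : G) : ℝ := ∑' γ : H, k (io (γ : SL(2, ℤ)) * g)

/-- (AH1) COUNTING.

PROOF. `K * K⁻¹` is compact, its entries are bounded by some `M`, and the set `S` of `γ : SL(2, ℤ)` with entries bounded by `M` is finite. If `io γ₀ * g ∈ K` and `io γ * g ∈ K` then `io (γ γ₀⁻¹) ∈ K K⁻¹`, `γ ∈ S γ₀`. -/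
def StmtAH1 : Prop := ∀ K : Set G, IsCompact K → ∃ N : ℕ, ∀ g : G, {γ : SL(2, ℤ) | io γ * g ∈ K}.encard ≤ N

/-- (AH2) SUMS OF FUNCTIONS WITH COMPACT SUPPORT (uses `AH1`).

PROOF. The sum is finite (`AH1` for the support), invariant (`Equiv.mulRight`), measurable (countable sum: `Measurable.tsum` or limit; or continuous, locally finite). Uniform continuity along the leaves: `K' = K * un '' [-1, 1]` compact, `k(x * un s) - k(x) = 0` unless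
`x ∈ K'` for `|s| ≤ 1` (`x un s ∈ K` gives `x ∈ K un(-s)`), and `sup_x |k(x un s) - k(x)| → 0` as `s → 0` (the continuous function `(x, s) ↦ k(x un s) - k(x)` on the compact set `K' × [-1, 1]` vanishes for `s = 0`; `IsCompact` tube lemma or uniform continuity). Multiply by the bound `N` of `AH1` for `K'`. -/
def StmtAH2 : Prop := ∀ (H : Subgroup SL(2, ℤ)) (k : G → ℝ), Continuous k → HasCompactSupport k →
  Measurable (Pk H k) ∧ (∀ g, Summable fun γ : H => k (io (γ : SL(2, ℤ)) * g)) ∧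
  (∀ γ ∈ H, ∀ g, Pk H k (io γ * g) = Pk H k g) ∧
  ∀ ε : ℝ, 0 < ε → ∃ η : ℝ, 0 < η ∧ ∀ (g : G) (s : ℝ), |s| ≤ η → |Pk H k (g * un s) - Pk H k g| ≤ ε

/-- hypotheses of Hopf's argument: `M` is invariant under `H` (left) and under the flow (right), `w` is a positive weight with finite integral, `F` is bounded and invariant -/
structure HpH (H : Subgroup SL(2, ℤ)) (M : Measure G) (w : G → ℝ≥0∞) (F : G → ℝ) : Prop where
  fin : IsFiniteMeasureOnCompacts M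
  left : ∀ γ ∈ H, M.map (fun g => io γ * g) = M
  right : ∀ t : ℝ, M.map (fun g => g * fl t) = M
  mw : Measurable w
  wpos : ∀ g, 0 < w g
  wsum : ∀ g, ∑' γ : H, w (io (γ : SL(2, ℤ)) * g) = 1
  wint : ∫⁻ g, w g ∂M < ⊤
  mF : Measurable F
  bd : ∀ g, 0 ≤ F g ∧ F g ≤ 1
  Fl : ∀ γ ∈ H, ∀ᵐ g ∂M, F (io γ * g) = F g
  Fr : ∀ᵐ g ∂M, F (g * fl 1) = F g

/-- (AH3) APPROXIMATION (uses `AH2`).

PROOF. `F w` (with `w` as a real function, `w ≤ 1`) is in `L¹(M)`; choose `k` continuous with compact support and `∫ |k - w F| dM ≤ ε` (`Integrable.exists_hasCompactSupport_integral_sub_le`; `M` is regular). For a.e. `g`: `F(g) = ∑_γ w(io γ g) F(io γ g)`, so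
`|Pk H k g - F g| ≤ ∑_γ |k - w F|(io γ g)`. For a.e. `g`: `F(g fl n) = F g` and this estimate holds at `g fl n` (`M` is invariant under `fl n`), so `∫ |Pk H k (g fl n) - F g| w(g) dM ≤ ∑_γ ∫ |k - wF|(io γ g fl n) w(g) dM = ∑_γ ∫ |k - wF|(g) w(io γ⁻¹ g fl(-n)) dM
= ∫ |k - wF| dM ≤ ε` (`left`, `right`, `wsum` at `g fl(-n)`). Given `δ`, by `AH2` choose `n` with `|Pk H k (x un s') - Pk H k x| ≤ δ` for `|s'| ≤ e^(-n) L`: `g un s fl n = g fl n un (e^(-n) s)`. Truncate: `f = max 0 (min 1 (Pk H k (· fl n)))` (`0 ≤ F ≤ 1`). -/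
def StmtAH3 : Prop := ∀ (H : Subgroup SL(2, ℤ)) (M : Measure G) (w : G → ℝ≥0∞) (F : G → ℝ), HpH H M w F →
  ∀ ε δ L : ℝ, 0 < ε → 0 < δ → ∃ f : G → ℝ, Measurable f ∧ (∀ g, 0 ≤ f g ∧ f g ≤ 1) ∧
    ∫⁻ g, ENNReal.ofReal |f g - F g| * w g ∂M ≤ ENNReal.ofReal ε ∧
    ∀ (g : G) (s : ℝ), |s| ≤ L → |f (g * un s) - f g| ≤ δ

/-- (AHo) HOPF (uses `AH3`).

PROOF. `f_j` from `AH3` with `ε = δ = 2^(-j)`, `L = j`. `∑_j ∫ |f_j - F| w dM < ∞`, so `∑_j |f_j - F| w < ∞` a.e. and (`w > 0`) `f_j → F` a.e. `F' = limsup f_j` (values in `[0, 1]`) is measurable, equal to `F` a.e., and `F' (g * un u) = F' g` because `f_j (g un u) - f_j g → 0`. -/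
def StmtAHo : Prop := ∀ (H : Subgroup SL(2, ℤ)) (M : Measure G) (w : G → ℝ≥0∞) (F : G → ℝ), HpH H M w F →
  ∃ F' : G → ℝ, Measurable F' ∧ (∀ g, 0 ≤ F' g ∧ F' g ≤ 1) ∧ (∀ (g : G) (u : ℝ), F' (g * un u) = F' g) ∧ F' =ᵐ[M] F

/-! ### Hecke elements -/

/-- (AG1) CONJUGATION OF CONGRUENCE SUBGROUPS.

PROOF. `d = nm s`, `n = det s > 0` (natural number). For `γ = 1 + n A ∈ Γ(n)`: `s γ s⁻¹ = 1 + s A adj(s)` is integral with determinant `1`; `d io γ d⁻¹` has the same entries. For `γ = 1 + n² A ∈ Γ(n²)`: `s⁻¹ γ s = 1 + n adj(s) A s ∈ Γ(n)`. -/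
def StmtAG1 : Prop := ∀ d ∈ Hk, ∃ n : ℕ, 1 ≤ n ∧
  (∀ γ ∈ CongruenceSubgroup.Gamma n, ∃ γ' : SL(2, ℤ), d * io γ * d⁻¹ = io γ') ∧
  ∀ γ ∈ CongruenceSubgroup.Gamma (n ^ 2), ∃ γ' ∈ CongruenceSubgroup.Gamma n, d * io γ' * d⁻¹ = io γ

/-- (AG2) COMPARISON OF THE SUMS (uses `WDi`, `WSm`).

PROOF. `Γ(n)` has finite index (`CongruenceSubgroup.instFiniteIndexGamma`): `Γ = ⋃_i r_i Γ(n)`, finitely many `r_i`, and `qq (io (r_i γ) g) ≤ nsq (io r_i)^4 qq (io γ g)` (`WDi`). -/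
def StmtAG2 : Prop := ∀ n : ℕ, 1 ≤ n → ∃ C : ℝ, 0 < C ∧ ∀ g : G,
  ∑' γ : SL(2, ℤ), qq (io γ * g) ≤ C * ∑' γ : CongruenceSubgroup.Gamma n, qq (io (γ : SL(2, ℤ)) * g)

/-- (AGm) WEIGHTS FOR `Γ(n)` (uses `WDi`, `WSm`, `WFi`, `AG1`, `AG2`).

PROOF. `H = Γ(n)`, `w g = qq g / ∑_(γ ∈ H) qq (io γ g)` (as `ofReal`). `∫ w dμ ≤ C ∫ ch dμ < ∞` (`AG2`, `WFi`). `∫ w d(μ.map (d⁻¹ ·)) = ∫ w(d⁻¹ g) dμ`, and `w(d⁻¹ g) = qq(d⁻¹ g) / ∑_(γ ∈ H) qq(io γ d⁻¹ g) ≤ nsq(d)^8 qq g / ∑_(γ ∈ H) qq(d io γ d⁻¹ g)` (`qq(d⁻¹ g) ≤ nsq(d⁻¹)^4 qq g`,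
`qq(d x) ≤ nsq(d)^4 qq x`), the last sum is over a set of elements of `io Γ` containing `io Γ(n²)` (`AG1`; the map `γ ↦ γ'` is injective), so it is `≥ C'⁻¹ ∑_Γ qq(io γ g)` (`AG2` for `n²`): `w(d⁻¹ g) ≤ C'' ch g`. -/
def StmtAGm : Prop := ∀ d ∈ Hk, ∃ (H : Subgroup SL(2, ℤ)) (w : G → ℝ≥0∞),
  (∀ γ ∈ H, ∃ γ' : SL(2, ℤ), d * io γ * d⁻¹ = io γ') ∧ Measurable w ∧ (∀ g, 0 < w g) ∧
  (∀ g, ∑' γ : H, w (io (γ : SL(2, ℤ)) * g) = 1) ∧
  ∀ μ : Measure G, Inv μ → ∫⁻ g, w g ∂μ < ⊤ ∧ ∫⁻ g, w g ∂(μ.map fun g => d⁻¹ * g) < ⊤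

/-- (AHd) THE DENSITY `dμ / d(μ + μ^d)` (uses `AGm`, `AHo`).

PROOF. `ν = μ.map (d⁻¹ * ·)`, `M = μ + ν`: finite on compact sets, invariant under `H` (`ν.map (io γ ·) = μ.map (io γ d⁻¹ ·) = μ.map (d⁻¹ io γ' ·) = ν`) and under the flow; `M` is sigma-finite, `μ ≪ M`. `F = (μ.rnDeriv M).toReal`, `≤ 1` a.e. (`Measure.rnDeriv_le_one_of_le` or similar; truncate it),
invariant: for a homeomorphism `T` preserving `μ` and `M`, `F ∘ T` is also a density of `μ` with respect to `M` (`∫_E F∘T dM = ∫_(T E) F dM = μ (T E) = μ E`), uniqueness a.e. (`ae_eq_of_forall_setLIntegral_eq_of_sigmaFinite`). `AHo` gives `F'`; `μ = F' M` and `ν = (1 - F') M` (`M = μ + ν`, sigma-finite). -/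
def StmtAHd : Prop := ∀ μ : Measure G, Inv μ → ∀ d ∈ Hk, ∃ F' : G → ℝ, Measurable F' ∧ (∀ g, 0 ≤ F' g ∧ F' g ≤ 1) ∧
  (∀ (g : G) (u : ℝ), F' (g * un u) = F' g) ∧
  μ = (μ + μ.map fun g => d⁻¹ * g).withDensity (fun g => ENNReal.ofReal (F' g)) ∧
  (μ.map fun g => d⁻¹ * g) = (μ + μ.map fun g => d⁻¹ * g).withDensity (fun g => ENNReal.ofReal (1 - F' g))

/-- (AHe) HECKE EQUALITY OF LEAF MEASURES (uses `WSm`, `WFi`, `AEx`, `AUn`, `AMp`, `ADe`, `APr`, `AHd`).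

PROOF. `M = μ + ν`, `ν = μ.map (d⁻¹ *·)`. `M` has leaf measures `lM` (`AEx` with `w = min (ch g) (ch (d g))`: `∫ w dμ ≤ ∫ ch dμ < ∞`, `∫ w dν ≤ ∫ ch(d g) dν = ∫ ch dμ`). By `AHd` and `ADe` `LS μ lM`, `LS ν lM`. `AUn` for `μ`: `Pr (lf g) (lM g)` outside a measurable `μ`-null set `N₁`; `AMp` (left, `h = d⁻¹`): `LS ν (g ↦ lf (d g))`,
`AUn` for `ν`: `Pr (lf (d g)) (lM g)` outside a measurable `ν`-null set `N₂`. `N = N₁ ∪ {g | d⁻¹ g ∈ N₂}`, `μ {g | d⁻¹ g ∈ N₂} = ν N₂ = 0`. If `g ∉ N` and `d g ∉ N` then `g ∉ N₁`, `g = d⁻¹ (d g) ∉ N₂`. (`ν` is sigma-finite: finite on compact sets.) -/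
def StmtAHe : Prop := ∀ (μ : Measure G) (lf : G → Measure ℝ), Inv μ → LS μ lf → ∀ d ∈ Hk,
  ∃ N : Set G, MeasurableSet N ∧ μ N = 0 ∧ ∀ g, g ∉ N → d * g ∉ N → Pr (lf (d * g)) (lf g)

/-- (AEq) EQUIVARIANCE ON AN INVARIANT CONULL SET (uses `ACr`, `AUn`, `AMp`, `APr`).

PROOF. `P g :↔ lf g ≠ 0 ∧ (∀ γ, Pr (lf (io γ g)) (lf g)) ∧ Pr (lf (g fl 1)) ((lf g).map (e^(-1) ·))`. `{g | P g}` is measurable (`APr`, countable intersection), conull: `AMp` with `h = io γ⁻¹` and `t = -1`, `μ.map = μ`, `AUn`: `Pr (lf (io γ g)) (lf g)` and `Pr ((lf (g fl 1)).map (e ·)) (lf g)` a.e. (apply the map `e^(-1) ·`);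
`lf g ≠ 0` a.e. by `dis` (or `ASu`'s argument: `μ {g | lf g = 0} = ∫∫ 1 d0 = 0` because `lf (sc v un x) = 0` iff `lf (sc v) = 0`). `P (g un u) ↔ P g`: `tr`, `io γ (g un u) = (io γ g) un u`, `g un u fl 1 = g fl 1 un (e^(-1) u)`. `D = ⋂_(γ, n ∈ ℤ) {g | P (io γ g fl n)}`. -/
def StmtAEq : Prop := ∀ (μ : Measure G) (lf : G → Measure ℝ), Inv μ → LS μ lf → ∃ D : Set G, MeasurableSet D ∧
  μ Dᶜ = 0 ∧ FI D ∧ (∀ g ∈ D, lf g ≠ 0) ∧ (∀ g ∈ D, ∀ γ : SL(2, ℤ), Pr (lf (io γ * g)) (lf g)) ∧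
  ∀ g ∈ D, Pr (lf (g * fl 1)) ((lf g).map fun x => Real.exp (-1) * x)

/-- (AAs) ASSEMBLY of block A (uses `WSm`, `WFi`, `AEx`, `ASu`, `AHe`, `AEq`): `AEx` with `w = ch`. -/
def StmtAAs : Prop := StmtA

end

end Pool.Agent.A54.QE
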