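import Pool.Agent.Lib.QE.Defs
import Pool.Agent.Lib.MP_a54f13_nt.Hp.SpecM

/-!
# Package `QE`, block B, second half (helper54): the Hecke inequality and recurrence

For a function `Φ` on `G` with `HE l Φ` and every `n ≥ 1`
`|Φ(g)|² ≤ 12 ∑ |Φ(d g)|²`, `d` in the spheres of radius `n` and `n + 1` of the tree of the prime `2` (`StmtBPw`); the same for the
vague limit `μ` of `|Φ_i|² ν` (`StmtBHm`); so every `Γ`-invariant set is recurrent (`StmtBRec`): the sets which do not return have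
translates with multiplicity one, and the mass of all of them is infinite.

CONVENTIONS. Module `X` is the file `Pool/Agent/Lib/QE/<Name>.lean`, `<Name>` as in `Stmt<Name>` (`BTr`, `BPs`, ...), importing
`Pool.Agent.Lib.QE.SpecBH` (and library files), private names in `namespace Pool.Agent.A54.QE.<Name>M`, final theorem
`Pool.Agent.A54.QE.stmt<Name>`; the used statements are hypotheses of the final theorem (in the order of the docstring). Library: `Hp/Nm.lean`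
(`Hp.NmM.p1`, ..., `stmtNm`: `nm (s s') = nm s nm s'`, `nm γ = io γ`, `nm (adj s) = (nm s)⁻¹`, `nm (n • s) = nm s`), `Hp/NuLeft.lean`.
-/

set_option autoImplicit false

namespace Pool.Agent.A54.QE

open MeasureTheory Filter Topology Set
open scoped ContDiff ComplexConjugate UpperHalfPlane MatrixGroups ENNReal
open Pool.Agent.A54.Dyn (G fl base ze io mk4 Inv HM)
open Pool.Agent.A54.Hp (nm nu HE StmtNm StmtNuL)
open Pool.Agent.A54.Av (Mat)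

noncomputable section

/-- the matrix `(2^j, b; 0, 2^k)` -/
def um (j b k : ℕ) : Mat := !![(2 : ℤ) ^ j, (b : ℤ); 0, (2 : ℤ) ^ k]

/-- the sum over all matrices `(2^j, b; 0, 2^(n-j))`, `0 ≤ b < 2^(n-j)` -/
def Tn (Φ : G → ℂ) (n : ℕ) (g : G) : ℂ :=
  ∑ j ∈ Finset.range (n + 1), ∑ b ∈ Finset.range (2 ^ (n - j)), Φ (nm (um j b (n - j)) * g)

/-- the sphere of radius `n` in the tree: the pairs `(j, b)` with `(2^j, b; 0, 2^(n-j))` primitive, `0 ≤ b < 2^(n-j)` -/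
def Sn (n : ℕ) : Finset (ℕ × ℕ) :=
  (Finset.range (n + 1) ×ˢ Finset.range (2 ^ n)).filter fun x =>
    x.2 < 2 ^ (n - x.1) ∧ (x.1 = 0 ∨ x.1 = n ∨ Odd x.2)

/-- the element of the Hecke group for a point of the sphere -/
def hd (n : ℕ) (x : ℕ × ℕ) : G := nm (um x.1 x.2 (n - x.1))

/-- the Hecke inequality `μ ≤ 12 ∑ μ_d`, `d` in two consecutive spheres, `μ_d(B) = μ(d B)` -/
def Hin (μ : Measure G) : Prop := ∀ n : ℕ, 1 ≤ n → ∀ f : G → ℝ≥0∞, Measurable f →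
  ∫⁻ g, f g ∂μ ≤ 12 * ((∑ x ∈ Sn n, ∫⁻ g, f ((hd n x)⁻¹ * g) ∂μ) +
    ∑ x ∈ Sn (n + 1), ∫⁻ g, f ((hd (n + 1) x)⁻¹ * g) ∂μ)

/-- `μ` is the vague limit of `|Φ_i|² ν` along the filter `L` -/
def VL (L : Filter ℕ) (Φ : ℕ → G → ℂ) (μ : Measure G) : Prop := ∀ F : G → ℝ, Continuous F → HasCompactSupport F →
  Tendsto (fun i => ∫ g, F g * ‖Φ i g‖ ^ 2 ∂nu) L (𝓝 (∫ g, F g ∂μ))

/-! ### The inequality for one function -/

/-- **BTr** recursion (uses `Hp.StmtNm`). Proof. Let `A = (2,0;0,1)`, `A_c = (1,c;0,2)`. The relation at `nm s * g`, `s = um j b k`, `k = n - j`: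
`lam Φ(nm s g) = Φ(nm (A s) g) + Φ(nm (A_0 s) g) + Φ(nm (A_1 s) g)`. `A_c s = um j (b + c 2^k) (k+1)`; `b + c 2^k` (`b < 2^k`, `c < 2`) runs over
`range (2^(k+1))`, and `k + 1 = (n+1) - j`: these terms are `Tn (n+1)` without the term `j = n + 1`. `A s = (2^(j+1), 2b; 0, 2^k)`: for `j = n` (`k = 0`, `b = 0`) it is
`um (n+1) 0 0`, the missing term; for `j < n` it is `2 • um j b (k-1)`, `nm (2 • s') = nm s'`, and `um j (b' + c 2^(k-1)) (k-1) = (1,c;0,1) um j b' (k-1)`, so by the invariance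
the sum over `b < 2^k` is twice the sum over `b' < 2^(k-1)`: together `2 Tn (n-1)` (`k - 1 = (n-1) - j`). `Tn 0`: `um 0 0 0 = 1`. The case `n = 0` of the same computation:
`lam Φ = Tn 1`. -/
def StmtBTr : Prop := ∀ (Φ : G → ℂ) (lam : ℂ), (∀ (γ : SL(2, ℤ)) (g : G), Φ (io γ * g) = Φ g) →
  (∀ g : G, Φ (nm !![2, 0; 0, 1] * g) + (Φ (nm !![1, 0; 0, 2] * g) + Φ (nm !![1, 1; 0, 2] * g)) = lam * Φ g) →
  (∀ g, Tn Φ 0 g = Φ g) ∧ (∀ g, Tn Φ 1 g = lam * Φ g) ∧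
    ∀ (n : ℕ) (g : G), 1 ≤ n → Tn Φ (n + 1) g = lam * Tn Φ n g - 2 * Tn Φ (n - 1) g

/-- **BPs** primitive sums (uses `Hp.StmtNm`). Proof. For `n ≥ 2` the pairs `(j, b)` with `j ≤ n`, `b < 2^(n-j)` which are not in `Sn n` are those with `1 ≤ j ≤ n - 1` and `b = 2 b'`, and then
`um j (2 b') (n-j) = 2 • um (j-1) b' ((n-2)-(j-1))`; `(j-1, b')` runs over all pairs of `Tn (n-2)`. For `n = 1` all pairs are in `Sn 1`. The number: put `1` for `Φ` in a combinatorial version of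
the same bijection, `∑_{j ≤ n} 2^(n-j) = 2^(n+1) - 1`, `2^(n+1) - 2^(n-1) = 3 · 2^(n-1)` (`n = 1`: `3`). -/
def StmtBPs : Prop := (∀ (Φ : G → ℂ) (n : ℕ) (g : G), 2 ≤ n →
    ∑ x ∈ Sn n, Φ (hd n x * g) = Tn Φ n g - Tn Φ (n - 2) g) ∧
  (∀ (Φ : G → ℂ) (g : G), ∑ x ∈ Sn 1, Φ (hd 1 x * g) = Tn Φ 1 g) ∧
  ∀ n : ℕ, 1 ≤ n → (Sn n).card = 3 * 2 ^ (n - 1)

/-- **BAr** arithmetic. Proof. `c 2 = lam² - 3` and `c (n+1) = lam c n - 2 c (n-1)` for `n ≥ 2` (for `n = 2`: `c 3 = t 3 - t 1 = lam t 2 - 2 t 1 - t 1`, `t 2 = lam² - 2`,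
`lam c 2 - 2 c 1 = lam (t 2 - 1) - 2 lam`; equal). (a) `lam² ≤ 8`: `Q n = c (n+1)² - lam c n c (n+1) + 2 c n²` satisfies `Q (n+1) = 2 Q n` (`n ≥ 1`), `Q 1 = 9 - lam²`, so
`Q n = 2^(n-1) (9 - lam²) ≥ 2^(n-1)`; `(lam c n c (n+1))² ≤ 8 c n² c (n+1)² ≤ (2 c n² + c (n+1)²)²`, so `Q n ≤ 2 (2 c n² + c (n+1)²)`. (b) `lam² > 8`: `|c (n+1)| ≥ √2 |c n|` by induction
(`n = 1`: `lam² - 3 ≥ √2 |lam|`; step: `|c (n+1)| ≥ |lam| |c n| - 2 |c (n-1)| ≥ (2√2 - √2) |c n|`), so `c n² ≥ 2^(n-1) lam² ≥ 2^n`. -/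
def StmtBAr : Prop := ∀ (lam : ℝ) (t c : ℕ → ℝ), t 0 = 1 → t 1 = lam → (∀ n, 1 ≤ n → t (n + 1) = lam * t n - 2 * t (n - 1)) →
  c 1 = t 1 → (∀ n, 2 ≤ n → c n = t n - t (n - 2)) → ∀ n, 1 ≤ n → (2 : ℝ) ^ n ≤ 4 * (2 * c n ^ 2 + c (n + 1) ^ 2)

/-- **BPw** the pointwise inequality (uses `BTr`, `BPs`, `BAr`). Proof. `lam = √2 l(2)` (real), `HE.hecke` for `p = 2`. By `BTr` `Tn Φ n g = t_n Φ(g)` with real `t_n` as in `BAr` (the same recursion), so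
`∑_{Sn n} Φ(hd n x g) = c_n Φ(g)`; Cauchy–Schwarz with `card = 3 · 2^(n-1)`: `2 c_n² |Φ(g)|² ≤ 3 · 2^n A_n`, `c_(n+1)² |Φ(g)|² ≤ 3 · 2^n A_(n+1)`, `A_n = ∑_{Sn n} |Φ(hd n x g)|²`. Add, `BAr`. -/
def StmtBPw : Prop := ∀ (l : ℕ → ℝ) (Φ : G → ℂ), HE l Φ → ∀ n : ℕ, 1 ≤ n → ∀ g : G,
  ‖Φ g‖ ^ 2 ≤ 12 * ((∑ x ∈ Sn n, ‖Φ (hd n x * g)‖ ^ 2) + ∑ x ∈ Sn (n + 1), ‖Φ (hd (n + 1) x * g)‖ ^ 2)

/-! ### The limit -/

/-- **BHl** test functions (uses `BPw`, `Hp.StmtNuL`). Proof. Multiply `BPw` by `F(g) ≥ 0` and integrate; `∫ F(g) |Φ_i(d g)|² dν = ∫ F(d⁻¹ g) |Φ_i(g)|² dν` (left invariance), `g ↦ F(d⁻¹ g)` is continuous with compact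
support; pass to the limit (`VL`, `le_of_tendsto_of_tendsto'`). Continuous functions with compact support are integrable (`Φ_i` continuous, `ν` finite on compact sets). -/
def StmtBHl : Prop := ∀ (L : Filter ℕ) (l : ℕ → ℕ → ℝ) (Φ : ℕ → G → ℂ) (μ : Measure G), L.NeBot → (∀ i, HE (l i) (Φ i)) →
  VL L Φ μ → ∀ n : ℕ, 1 ≤ n → ∀ F : G → ℝ, Continuous F → HasCompactSupport F → (∀ g, 0 ≤ F g) →
    ∫ g, F g ∂μ ≤ 12 * ((∑ x ∈ Sn n, ∫ g, F ((hd n x)⁻¹ * g) ∂μ) + ∑ x ∈ Sn (n + 1), ∫ g, F ((hd (n + 1) x)⁻¹ * g) ∂μ)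

/-- **BMc** comparison of measures. Proof. `μ`, `μ'` are regular and σ-finite (`G` is locally compact, metrizable or second countable). `K` compact, `U ⊇ K` open: `F` continuous with compact support, `1_K ≤ F ≤ 1_U`
(`exists_continuous_one_of_compact_subset_open` or Urysohn): `μ K ≤ ∫ F dμ ≤ ∫ F dμ' ≤ μ' U`, so `μ K ≤ μ' K` (outer regularity), and `μ ≤ μ'` on measurable sets (inner regularity), so for `∫⁻` of measurable functions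
(`lintegral_mono'`, `Measure.le_iff`). -/
def StmtBMc : Prop := ∀ μ μ' : Measure G, IsFiniteMeasureOnCompacts μ → IsFiniteMeasureOnCompacts μ' →
  (∀ F : G → ℝ, Continuous F → HasCompactSupport F → (∀ g, 0 ≤ F g) → ∫ g, F g ∂μ ≤ ∫ g, F g ∂μ') → μ ≤ μ'

/-- **BHm** the Hecke inequality for the limit (uses `BHl`, `BMc`). Proof. `μ' = 12 • (∑ μ.map ((hd n x)⁻¹ * ·) + ∑ ...)`; it is finite on compact sets (images under homeomorphisms), `∫ F dμ'` is the right side of `BHl`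
(`integral_smul_measure`, `integral_finset_sum_measure`, `integral_map`), `∫⁻ f dμ'` is the right side of `Hin` (`lintegral_map`). -/
def StmtBHm : Prop := ∀ (L : Filter ℕ) (l : ℕ → ℕ → ℝ) (Φ : ℕ → G → ℂ) (μ : Measure G), L.NeBot → IsFiniteMeasureOnCompacts μ →
  (∀ i, HE (l i) (Φ i)) → VL L Φ μ → Hin μ

/-! ### Recurrence -/

/-- **BHk** the Hecke group (uses `Hp.StmtNm`). Proof. `Mat` is countable. `io γ = nm γ`, products `nm s * nm s' = nm (s s')`, inverses `(nm s)⁻¹ = nm (adj s)`, `det (adj s) = det s`; `det (um j b k) = 2^(j+k) > 0`. `io` is injective (entries). -/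
def StmtBHk : Prop := Hk.Countable ∧ (∀ γ : SL(2, ℤ), io γ ∈ Hk) ∧ (∀ d ∈ Hk, ∀ d' ∈ Hk, d * d' ∈ Hk) ∧ (∀ d ∈ Hk, d⁻¹ ∈ Hk) ∧
  (∀ (n : ℕ) (x : ℕ × ℕ), hd n x ∈ Hk) ∧ Function.Injective io

/-- **BCs** the cosets `Γ hd n x` are different. Proof. Let `s = um x.1 x.2 (n - x.1)`, `s'` the same for `(m, y)`, `det s = 2^n`, `det s' = 2^m` (`x.1 ≤ n`, `y.1 ≤ m`), `t = δ s'` (integral). The entries of
`nm s = io δ * nm s'` say `s_ij √(2^m) = t_ij √(2^n)`, so `s_ij² 2^m = t_ij² 2^n`. If `n > m` then all `s_ij` are even; but one of `s_00 = 2^j`, `s_01 = b`, `s_11 = 2^(n-j)` is odd for `x ∈ Sn n` (`j = 0`, or `j = n`, or `b` odd).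
If `n < m`: all `t_ij` are even, so `s' = δ⁻¹ t` has even entries, the same contradiction. So `n = m` and `s_ij = t_ij`, `s = δ s'`: from the first column `δ_10 2^(y.1) = 0`, `δ_00 2^(y.1) = 2^(x.1)`, from the determinant
`δ_00 δ_11 = 1`, so `δ_00 = δ_11 = 1` (positive), `x.1 = y.1`, and `x.2 = y.2 + δ_01 2^(n - y.1)` with `0 ≤ x.2, y.2 < 2^(n - x.1)`: `x.2 = y.2`. -/
def StmtBCs : Prop := ∀ (n m : ℕ) (x y : ℕ × ℕ), x ∈ Sn n → y ∈ Sn m → ∀ δ : SL(2, ℤ), hd n x = io δ * hd m y → n = m ∧ x = y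

/-- **BMt** mass transport (uses `BHk`, `BCs`). `E` does not return by elements of `Hk` outside of `Γ`; the weighted masses of all translates by the spheres have sum at most the total mass. Proof. Let `W = ∫⁻ w dμ`,
`a(n,x) = ∫⁻ (1_E w)((hd n x)⁻¹ y) dμ(y)`. Insert `1 = ∑'_γ w(io γ y)`, exchange (`lintegral_tsum`), and use the invariance of `μ` under `io γ`: `a(n,x) = ∑'_γ ∫⁻ (1_E w)((hd n x)⁻¹ (io γ)⁻¹ y) w(y) dμ(y)`. So
`∑_{(n,x)} a(n,x) = ∫⁻ w(y) S(y) dμ(y)`, `S(y) = ∑_{(n,x)} ∑'_γ (1_E w)((io γ hd n x)⁻¹ y)`. Claim: `S(y) ≤ 1`. If some `z₀ = (io γ₀ hd n₀ x₀)⁻¹ y ∈ E` then for every other index `(n,x,γ)` with `z = (io γ hd n x)⁻¹ y ∈ E`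
the element `k = (io γ hd n x)⁻¹ (io γ₀ hd n₀ x₀) ∈ Hk` has `k z₀ = z ∈ E`, so `k = io δ` for some `δ`; `(n,x,γ) ↦ δ` is injective on these indices: from `δ = δ'`: `io γ hd n x = io γ' hd n' x'`, so `(n,x) = (n',x')` (`BCs`) and `γ = γ'`.
So `S(y) ≤ ∑'_δ w(io δ z₀) = 1` (`ENNReal.tsum_comp_le_tsum_of_injective`). -/
def StmtBMt : Prop := ∀ (μ : Measure G) (w : G → ℝ≥0∞) (E : Set G), (∀ γ : SL(2, ℤ), μ.map (fun g => io γ * g) = μ) →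
  Measurable w → (∀ g, ∑' γ : SL(2, ℤ), w (io γ * g) = 1) → MeasurableSet E →
  (∀ g ∈ E, ∀ d ∈ Hk, d * g ∈ E → d ∈ range io) → ∀ M : ℕ,
    ∑ n ∈ Finset.Icc 1 M, ∑ x ∈ Sn n, ∫⁻ g, E.indicator w ((hd n x)⁻¹ * g) ∂μ ≤ ∫⁻ g, w g ∂μ

/-- **BRec** recurrence (uses `BHk`, `BMt`, `Wt`). Proof. `E = {g ∈ B | for all d ∈ Hk, d ∉ range io: d g ∉ B}` is measurable (`Hk` countable, `B` measurable), and `g ∈ E`, `d g ∈ E ⊆ B` imply `d ∈ range io`. Let `w = ofReal ch` (`Wt.sum`, `Wt.cont`),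
`W = ∫⁻ w dμ < ∞` (`Wt.fin`: `mX μ univ`). `Hin` for `f = 1_E w` and `n = 1, 3, ..., 2M - 1`, added: `M ∫_E w dμ ≤ 12 ∑_{1 ≤ n ≤ 2M} ∑_{Sn n} ... ≤ 12 W` (`BMt`). So `∫_E w dμ = 0`, `w > 0` (`Wt.pos`), `μ E = 0`. -/
def StmtBRec : Prop := Wt → ∀ μ : Measure G, Inv μ → Hin μ → Rec μ

end

end Pool.Agent.A54.QE
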