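import Pool.Agent.Lib.QE.SpecBH
import Pool.Agent.Lib.MP_a54f13_nt.Hp.SpecC
import Pool.Agent.Lib.MP_a54f13_nt.Dyn.Spec1

/-!
# Package `QE`, block B, first half (helper39): the limit measure

`f_i` a sequence of Hecke–Maass forms, `Φ_i = Pb f_i t_i N_i b_i` packets (`Hp.Pack`); `μ` = the vague limit of `|Φ_i|² ν` along the
hyperfilter (`VL`). `μ` is invariant under `Γ` (left) and the flow (right), of finite mass modulo `Γ`, and `base_* μ` is the weak limit of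
`f_i² dvol`.

CONVENTIONS. Module `X` is the file `Pool/Agent/Lib/QE/<Name>.lean`, `<Name>` as in `Stmt<Name>`, importing `Pool.Agent.Lib.QE.SpecBL`
(and library files), private names in `namespace Pool.Agent.A54.QE.<Name>M`, final theorem `Pool.Agent.A54.QE.stmt<Name>`; the used
statements are hypotheses of the final theorem, in the order of the docstring (the `Hp` statements are proved: `Hp.pTwG` etc.).
-/

set_option autoImplicit false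

namespace Pool.Agent.A54.QE

open MeasureTheory Filter Topology Set
open scoped ContDiff ComplexConjugate UpperHalfPlane MatrixGroups ENNReal
open Pool.Agent.A54.Dyn (G fl base ze io mk4 Inv HM)
open Pool.Agent.A54.Hp
open Pool.Agent.A54.Half (H0)

noncomputable section

/-- packets for a sequence of forms (`d = 1/8`; the packets may be arbitrary for finitely many `i`) -/
structure PkS (f : ℕ → ℍ → ℝ) (t : ℕ → ℝ) (C₀ : ℝ) (N : ℕ → ℕ) (b : ℕ → ℤ → ℝ) : Prop where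
  nonneg : 0 ≤ C₀
  pack : ∀ᶠ i in atTop, Pack (1 / 8) C₀ 1 (t i) (N i) (b i)
  norm : ∀ i, ∑ n ∈ Finset.Icc (-(N i : ℤ)) (N i), b i n ^ 2 = 1

/-- **BVl** the limit exists (uses `Hp.StmtTot`, `Hp.StmtNuL`). Proof. `Λ_i(F) = ∫ F |Φ_i|² dν` is a positive linear functional on `C_c(G, ℝ)`
(continuous integrand with compact support, `ν` finite on compacts). If `tsupport F` is compact it lies in some `Om R`
(entries are continuous, hence bounded on compacts) and `|Λ_i(F)| ≤ sup |F| · ms Φ_i (Om R) ≤ C` (`Tot`). Apply `Dyn.LiftM.exists_measure` to the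
hyperfilter (`Dyn/Lift.lean`, line 45; see its use in `LiftM.construct`). A function `F` with compact support as in `VL` is an element of `C_c(G, ℝ)`. -/
def StmtBVl : Prop := ∀ (l : ℕ → ℕ → ℝ) (Φ : ℕ → G → ℂ), (∀ i, HE (l i) (Φ i)) →
  ∃ μ : Measure G, IsFiniteMeasureOnCompacts μ ∧ VL (hyperfilter ℕ) Φ μ

/-- **BSy** left invariance and the symmetry `g ↦ -g` (uses `Hp.StmtNuL`). Proof. For continuous `F` with compact support
`∫ F(γ g) |Φ_i(g)|² dν = ∫ F(γ g) |Φ_i(γ g)|² dν = ∫ F |Φ_i|² dν` (`HE.inv`, left invariance of `ν`); in the limit `∫ F(γ g) dμ = ∫ F dμ`, also for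
`F` composed with the homeomorphism `g ↦ γ g`. Two measures finite on compacts (`G` locally compact, second countable) with the same integrals of
`C_c` functions are equal (`Measure.ext_of_integral_eq_on_compactlySupported` or as in `Dyn.LiftM.symm_measure`). `-g = io(-1) * g`. -/
def StmtBSy : Prop := ∀ (L : Filter ℕ) (l : ℕ → ℕ → ℝ) (Φ : ℕ → G → ℂ) (μ : Measure G), L.NeBot →
  IsFiniteMeasureOnCompacts μ → (∀ i, HE (l i) (Φ i)) → VL L Φ μ →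
    (∀ γ : SL(2, ℤ), μ.map (fun g => io γ * g) = μ) ∧ μ.map (fun g => -g) = μ

/-- **BXf** the derivative along the flow of `|Φ|²`, for one form (uses `Hp.StmtNuL`, `Hp.StmtNuR`, `Hp.StmtTwG`, `Hp.StmtFlD`, `Hp.StmtMss`, `Dyn.StmtXd`).
Proof. `Φ = Pb f t N b`, `F(g) = φ(base g) ze(g)^k`, a `C¹` function with compact support along the flow; `J(s) = ∫ F(g fl s) |Φ(g fl s)|² dν` is constant
(right invariance), its derivative at `0` is `∫ (Xf φ k) |Φ|² + ∫ F · Z|Φ|²` (`StmtXd`; dominated convergence for `|s| ≤ 1` as in `Hp.WkM.int_deriv`), so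
`∫ (Xf φ k) |Φ|² dν = - ∫ F Z|Φ|² dν`, `Z|Φ|² = -2 Im(conj Φ · Ψ)`, `Φ = Pb f t (N+1) b`, `Ψ = Pb f t (N+1) (TT t b)` (`Hp.WkM.sq_deriv` with the opposite
sign of `x`, or `TayM.Pb_deriv`; `Hp.WkM.Pb_ext`). As in `Hp.WkM.quad`: `conj Φ Ψ - conj (conj Φ Ψ) = ∑_{m,n} i^m (-i)^n (b_m b¹_n - b_n b¹_m) F_n conj F_m`, `b¹ = TT t b`,
`|m|, |n| ≤ N + 1`, and `∫ F · F_n conj F_m dν = ∫_ℍ φ(z) G_n conj G_m ∫_x cc(x)^{2(k+n-m)} = 0` unless `n = m - k` (`nu = m0.map Sct`, Fubini,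
`Dyn.LiftM.integral_fourier`, `fourier_cc`; `Hp.WkM.Ff_Sct`), and then at most `sup |φ| ∫_K |G_n| |G_m| ≤ sup|φ| · C_K` (`Mss`, Cauchy–Schwarz; `K` compact, contains the
support). So the whole is at most `C ∑_m |b_m b¹_{m-k} - b_{m-k} b¹_m| ≤ C C₀ |k| t^{-1/2+3/8}` (`Pack.anti` with `j = -k`). -/
def StmtBXf : Prop := ∀ (C₀ : ℝ), 0 ≤ C₀ → ∀ (φ : ℂ → ℂ), Test H0 φ → ∀ k : ℤ, ∃ C : ℝ, 0 ≤ C ∧
  ∀ (f : ℍ → ℝ) (t : ℝ), IsHeckeMaass f t → 1 ≤ t → ∀ (K N : ℕ) (b : ℤ → ℝ), Pack (1 / 8) C₀ K t N b →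
    ‖∫ g, Dyn.Xf φ k g * ((‖Pb f t N b g‖ ^ 2 : ℝ) : ℂ) ∂nu‖ ≤ C * t ^ (-(1 / 8) : ℝ)

/-- **BFl** flow invariance (uses `BXf`, `Dyn.StmtFlow`). Proof. By `StmtFlow` it is enough that `∫ Xf φ k dμ = 0`. `Xf φ k` is continuous with compact support
(`base ⁻¹' K` is compact: `Dyn.isCompact_base`; outside `base ⁻¹' (tsupport φ)` all terms vanish), so by `VL` for its real and imaginary part it is the limit of
`∫ Xf φ k |Φ_i|² dν`, which tends to `0` along the hyperfilter (`≤ atTop`, `Nat.hyperfilter_le_atTop`) by `BXf` and `t_i → ∞`. -/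
def StmtBFl : Prop := ∀ (f : ℕ → ℍ → ℝ) (t : ℕ → ℝ) (C₀ : ℝ) (N : ℕ → ℕ) (b : ℕ → ℤ → ℝ) (μ : Measure G), HM f t →
  PkS f t C₀ N b → IsFiniteMeasureOnCompacts μ → μ.map (fun g => -g) = μ →
  VL (hyperfilter ℕ) (fun i => Pb (f i) (t i) (N i) (b i)) μ → ∀ s : ℝ, μ.map (fun g => g * fl s) = μ

/-- **BMd** the mode `0` (uses `Hp.StmtFib`, `Hp.StmtMsW`, `Hp.StmtTwG`). Proof. It is enough to treat real test functions (real and imaginary part of `φ`; both sides are linear).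
`∫ φ(base g) |Φ_i|² dν = ∫_ℍ φ Sw f_i t_i N_i (b_i²)` (`Fib` (2) for `φ⁺` and `φ⁻`, `‖(-i)^n b_n‖² = b_n²`; all integrals finite), and by `MsW`
`|∫ φ Sw - ∫ φ f_i²| ≤ C N_i/t_i ≤ 2 C t_i^{-1/2-1/8} → 0` (`Pack.hi`). `φ(base g)` is continuous with compact support, so `VL` gives the limit. -/
def StmtBMd : Prop := ∀ (f : ℕ → ℍ → ℝ) (t : ℕ → ℝ) (C₀ : ℝ) (N : ℕ → ℕ) (b : ℕ → ℤ → ℝ) (μ : Measure G), HM f t →
  PkS f t C₀ N b → IsFiniteMeasureOnCompacts μ → VL (hyperfilter ℕ) (fun i => Pb (f i) (t i) (N i) (b i)) μ → Md0 f μ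

/-- **BMs** finite mass (uses `Dyn.StmtLB`, `Dyn.StmtSgB`; both proved: `Dyn.pLB`, `Dyn.pSgB` in `Dyn/Main.lean`). Proof. Copy `Dyn.LimM.mass_cpt` and `Dyn.LimM.mass_fd`
(`Dyn/Lim.lean`): they use the hypothesis `Md f t μ` only for `n = 0`, where it is `Md0` (`sg f t 0 z = f z`, `ze^0 = 1`). -/
def StmtBMs : Prop := ∀ (f : ℕ → ℍ → ℝ) (t : ℕ → ℝ) (μ : Measure G), HM f t → IsFiniteMeasureOnCompacts μ → Md0 f μ →
  μ (base ⁻¹' ModularGroup.fd) < ⊤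

/-- **BPq** packets exist for a sequence (uses `Hp.StmtPk`, `Hp.StmtHeF`, `Hp.StmtCus`). Proof. `Pk` with `d = 1/8`, `K = 1` gives `C`, `t₀`. If `t_i ≥ t₀` take its packet; otherwise
`N_i = 1`, `b_i = 1` at `0` and `0` elsewhere. Eigenvalues: `HS.exists_eig` (`HS/Top.lean`; copy the five lines if you do not want the import): `l i` with
`Av.IsHk (f i) p (√p * l i p)`. `HeF` with `c_n = (-i)^n b_n`, `‖c_n‖² = b_n²`, sum `= 1`. `Cus` (2). -/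
def StmtBPq : Prop := ∀ (f : ℕ → ℍ → ℝ) (t : ℕ → ℝ), HM f t → ∃ (l : ℕ → ℕ → ℝ) (C₀ : ℝ) (N : ℕ → ℕ) (b : ℕ → ℤ → ℝ),
  PkS f t C₀ N b ∧ (∀ i, HE (l i) (Pb (f i) (t i) (N i) (b i))) ∧
    ∀ (i : ℕ) (g : G), ∫ x in (0 : ℝ)..1, Pb (f i) (t i) (N i) (b i) (mk4 1 x 0 1 (by norm_num) * g) = 0

/-- **BLm** the limit measure (uses `BVl`, `BSy`, `BFl`, `BMd`, `BMs`, `BPq`). Assembly. -/
def StmtBLm : Prop := ∀ (f : ℕ → ℍ → ℝ) (t : ℕ → ℝ), HM f t → ∃ (μ : Measure G) (l : ℕ → ℕ → ℝ) (Φ : ℕ → G → ℂ),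
  (∀ i, HE (l i) (Φ i)) ∧ (∀ (i : ℕ) (g : G), ∫ x in (0 : ℝ)..1, Φ i (mk4 1 x 0 1 (by norm_num) * g) = 0) ∧
    VL (hyperfilter ℕ) Φ μ ∧ Inv μ ∧ Md0 f μ

/-- **BFin** block B (uses `BLm`, `BHm`, `BRec` (with `Wt`), `BCw` and `HS.coreH HS.stmtHS`). Assembly by helper39 / helper54. -/
def StmtBFin : Prop := StmtB

/-- assembly of `BLm` -/
theorem stmtBLm (h1 : StmtBVl) (h2 : StmtBSy) (h3 : StmtBFl) (h4 : StmtBMd) (h5 : StmtBMs) (h6 : StmtBPq) :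
    StmtBLm := by
  intro f t hf
  obtain ⟨l, C₀, N, b, hp, he, hc⟩ := h6 f t hf
  obtain ⟨μ, hμ, hV⟩ := h1 l _ he
  obtain ⟨hl, hn⟩ := h2 _ l _ μ inferInstance hμ he hV
  have hm := h4 f t C₀ N b μ hf hp hμ hV
  exact ⟨μ, l, _, he, hc, hV, ⟨hμ, h3 f t C₀ N b μ hf hp hμ hn hV, hl, h5 f t μ hf hμ hm⟩, hm⟩

end

end Pool.Agent.A54.QE
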