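import Pool.Agent.Lib.QE.Defs

/-!
# Package `QE`, block C: the leaf measures have no atoms (`StmtC`)

Architects: helper3, helper46. Input: `Inv μ`, `Cwm c μ` (`0 < c`), leaf measures `LSE μ lf D`, weights `Wt`. Output: `NoAt μ lf`, `PlN μ`.

Files: `Pool/Agent/Lib/QE/C<Name>.lean` importing `Pool.Agent.Lib.QE.SpecC`, private names in `namespace Pool.Agent.A54.QE.C<Name>M`, final
theorem `Pool.Agent.A54.QE.stmtC<Name> : StmtC<Name>`; the statements named after `uses` are hypotheses of the theorem, in this order.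

IDEA. (1) If a leaf measure has an atom then, by zooming, it is a point mass. So there is a set `E` of positive measure, invariant under `Γ` and
`fl ℤ`, which meets every leaf `{g * un u}` at most once. (2) Let `K ⊆ E` be compact with small `mX (E \ K)`. If `x` and `x h` are in `Γ K` and `h`
is close to `1` in the entries `00`, `10`, then `|h 0 1|` is small (compactness). The flow `x ↦ x fl (-1)` multiplies `h 0 1` by `e`. So the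
points of a small box with the same set of bad times (`x fl (-j) ∉ Γ K`) in `[0, n)` are in few boxes with `|h 0 1| ≤ e^(-n)`. (3) For `n = 2m`
such a box, moved by `fl (-m)`, is in a tube of width `w = e^(-m)`; by `Cwm` the tube has mass `≤ w` for most points. The number of boxes
is at most `C (1.1)^n`. So almost all of `E` has measure `≤ C (1.21 / e)^m → 0`.

Entries. For `h = x⁻¹ * y`: `fl t * h * fl (-t)` has the entries `h 0 0`, `e^t h 0 1`, `e^(-t) h 1 0`, `h 1 1`, and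
`(x * fl (-t))⁻¹ * (y * fl (-t)) = fl t * (x⁻¹ * y) * fl (-t)`. Lemmas: `Dyn.mul_00`, …, `Dyn.inv_00`, …, `Dyn.fl_00`, …, `Dyn.det_eq`, `Dyn.G_ext`,
`Dyn.continuous_entry`, `Dyn.fl_add`, `Dyn.fl_neg`.
-/

set_option autoImplicit false

namespace Pool.Agent.A54.QE

open MeasureTheory Filter Topology Set
open scoped ContDiff ComplexConjugate UpperHalfPlane MatrixGroups ENNReal
open Pool.Agent.A54.Dyn (G fl base ze io mk4 Inv HM)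
open Pool.Agent.A54.Hp (nm Om xi Tb)
open Pool.Agent.A54.Av (Mat)

noncomputable section

/-! ### Definitions -/

/-- boxes near the identity -/
def Hw (δ β γ : ℝ) : Set G := {h | |h 0 0 - 1| ≤ δ ∧ |h 0 1| ≤ β ∧ |h 1 0| ≤ γ}

/-- the mass of the tube of width `w` around `x` -/
def Tw (μ : Measure G) (w : ℝ) (x : G) : ℝ≥0∞ := μ {y | x⁻¹ * y ∈ Hw (1 / 2) w w}

/-- the saturation `Γ K` -/
def Gs (K : Set G) : Set G := {g | ∃ γ : SL(2, ℤ), io γ * g ∈ K}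

/-- sets invariant under `Γ`, `fl ℤ`, which meet every leaf at most once -/
structure AtE (E : Set G) : Prop where
  meas : MeasurableSet E
  gam : GI E
  flo : ∀ g : G, g * fl 1 ∈ E ↔ g ∈ E
  one : ∀ g ∈ E, ∀ u : ℝ, g * un u ∈ E → u = 0

open Classical in
/-- the bad times of `x` before `n` -/
def bad (K : Set G) (n : ℕ) (x : G) : Finset ℕ :=
  (Finset.range n).filter fun j => x * fl (-(j : ℝ)) ∉ Gs K

/-- the set to be estimated: points of `K` with few bad times before `2 m` for which the tube at time `m` has small mass -/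
def Sm (μ : Measure G) (K : Set G) (m : ℕ) : Set G :=
  {x | x ∈ K ∧ 100 * (bad K (2 * m) x).card ≤ 2 * m ∧
    Tw μ (Real.exp (-(m : ℝ))) (x * fl (-(m : ℝ))) ≤ ENNReal.ofReal (Real.exp (-(m : ℝ)))}

/-! ### Tubes -/

/-- **CXi** geometry of `xi`. Proof. `h = (a, b; c, d)`, `|a - 1| ≤ 1/2`, `|b|, |c| ≤ w ≤ 1/4`, `d = (1 + b c)/a`, `|d| ≤ (17/16)/(1/2) ≤ 3`, `|a| ≤ 3/2`. The entries of `z h` are at most
`R (3/2 + 1/4)` and `R (1/4 + 3)`, so `z h ∈ Om (4 R)`. With `z = (p, q; r, s)` and `a d + b c = 1 + 2 b c`: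
`xi₀ (z h) - xi₀ z = 2 p r a b + 2 (p s + q r) b c + 2 q s c d`, `xi₁ (z h) - xi₁ z = -(p² a b + 2 p q b c + q² c d)`,
`xi₂ (z h) - xi₂ z = r² a b + 2 r s b c + s² c d` (ring, with `det h = 1`). Each is at most `10 R² w`: `|a b| ≤ 3w/2`, `|b c| ≤ w/4`, `|c d| ≤ 3 w`. -/
def StmtCXi : Prop := ∀ (R w : ℝ), 1 ≤ R → 0 ≤ w → w ≤ 1 / 4 → ∀ z ∈ Om R, ∀ h ∈ Hw (1 / 2) w w,
  z * h ∈ Tb (4 * R) (xi z) (10 * R ^ 2 * w)

/-- **CTw** measurability and invariance. Proof. `{(x, y) | x⁻¹ * y ∈ Hw (1/2) w w}` is closed in `G × G` and `μ` is σ-finite (finite on compact sets, `G` σ-compact): `measurable_measure_prodMk_left`.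
`(io γ * x)⁻¹ * y = x⁻¹ * (io γ⁻¹ * y)`, and `y ↦ io γ⁻¹ * y` preserves `μ` (`Inv.left`); the same for the flow: `Tw` of translates of `μ`. -/
def StmtCTw : Prop := ∀ (μ : Measure G), Inv μ → ∀ w : ℝ, Measurable (Tw μ w) ∧
  ∀ (γ : SL(2, ℤ)) (x : G), Tw μ w (io γ * x) = Tw μ w x

/-- **CMk** heavy tubes are rare (uses `CXi`, `CTw`). Proof. Let `w ≤ 1/4` and `10 R² w ≤ w₁ (4R)`. For `z ∈ Om R`: `Tw μ w z ≤ μ (Tb (4 * R) (xi z) (10 R² w))` by `CXi` (`y = z * (z⁻¹ * y)`). Let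
`B = {z ∈ Om R : ofReal w < Tw μ w z}` (measurable by `CTw`). `ofReal w * μ B ≤ ∫⁻_B Tw ≤ ∫⁻_{Om (4R)} μ (Tb (4R) (xi z) (10 R² w)) dμ ≤ ofReal ((10 R² w)^(1+c))`, so
`μ B ≤ ofReal ((10 R²)^(1+c) w^c) → 0`. -/
def StmtCMk : Prop := ∀ (μ : Measure G) (c : ℝ), 0 < c → Inv μ → Cwm c μ → ∀ R : ℝ, 1 ≤ R →
  Tendsto (fun m : ℕ => μ {z | z ∈ Om R ∧ ENNReal.ofReal (Real.exp (-(m : ℝ))) < Tw μ (Real.exp (-(m : ℝ))) z})
    atTop (𝓝 0)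

/-- **CLn** lines of first columns are null sets. Proof. `v = 0`: the set is empty (`det = 1`). `v ≠ 0`: it is enough to show `μ L = 0` for `L = {g ∈ Om R : ∃ r, vc g = r • v}`, `R ∈ ℕ`, `R ≥ 1`. For `g ∈ L`
(`vc g = r • v`) put `P = r g₁₁`, `Q = r g₀₁`: `v₁ P - v₂ Q = 1` and `xi g = (v₁ P + v₂ Q, -v₁ Q, v₂ P)`. So `xi g` is an affine function of one real parameter `τ(g)`: if `v₁ ≠ 0` take `τ = -v₁ Q = xi₁`, `v₁ P = 1 + v₂ Q`,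
`xi₀ = 1 - 2 (v₂/v₁) xi₁`, `xi₂ = (v₂/v₁) (1 - (v₂/v₁) xi₁)`; if `v₁ = 0` then `v₂ Q = -1`, `xi₁ = 0`, `xi₀ = -1`, `τ = xi₂`. In both cases there is `κ ≥ 1` with `|xi g i - xi g' i| ≤ κ |τ(g) - τ(g')|` for `g, g' ∈ L` and
`|τ| ≤ R²`. Let `w > 0` be small, `N = ⌈2 R² κ / w⌉ + 1`, `A_j = {g ∈ L : τ(g) ∈ [-R² + j w/κ, -R² + (j+1) w/κ)}`, `j < N` (measurable, disjoint, union `L`). For `g ∈ A_j`: `A_j ⊆ Tb R (xi g) w`. So
`∑_j μ(A_j)² ≤ ∑_j ∫⁻_{A_j} μ (Tb R (xi g) w) dμ ≤ ∫⁻_{Om R} μ (Tb R (xi g) w) dμ ≤ w^(1+c)`, and by Cauchy–Schwarz `μ(L)² = (∑_j μ(A_j))² ≤ N w^(1+c) ≤ C w^c → 0`. -/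
def StmtCLn : Prop := ∀ (μ : Measure G) (c : ℝ), 0 < c → Inv μ → Cwm c μ → PlN μ

/-! ### Atoms -/

/-- **CZm** zoom. Proof. `k ∈ ℕ`, `k ≥ 1`, `I = Icc (-k) k`. `F g = lf g (I \ {0}) / lf g I` if `g ∈ D` and `lf g {0} ≠ 0`, else `0`. `F` is measurable (`Measure.measurable_coe` with `LS.meas`), `F ≤ 1`, and
`Γ`-invariant (`LSE.gam`, `FI D`: proportional measures). For `g ∈ D`: apply `LSE.flo` to `g fl (-1) ∈ D`: `Pr (lf g) ((lf (g fl (-1))).map (e^(-1) ·))`, so `lf (g fl (-1)) B = c⁻¹ lf g (e^(-1) B)`; induction: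
`F (g fl (-n)) = lf g (I_n \ {0}) / lf g I_n`, `I_n = Icc (-k e^(-n)) (k e^(-n))` if `lf g {0} ≠ 0`, and `lf (g fl (-n)) {0} ≠ 0` iff `lf g {0} ≠ 0`. This tends to `0`: the numerator tends to `0` (`tendsto_measure_iInter`,
finite measures), the denominator is at least `lf g {0}`. `Wt.flo` with `t = -n` and dominated convergence (bound `1`, `mX μ` finite): `∫⁻ F dmX = ∫⁻ F (g fl (-n)) dmX → 0`. So `F = 0` `mX μ`-a.e., `μ`-a.e. (`Wt.null`). All `k`. -/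
def StmtCZm : Prop := ∀ (μ : Measure G) (lf : G → Measure ℝ) (D : Set G), Wt → Inv μ → LSE μ lf D →
  ∀ᵐ g ∂μ, lf g {0} ≠ 0 → lf g {0}ᶜ = 0

/-- **CAt** the set `E` (uses `CZm`). Proof. `E = {g ∈ D | lf g {0} ≠ 0 ∧ lf g {0}ᶜ = 0}`, measurable. `gam`: `LSE.gam`, `FI D` (both directions: apply `gam` at `g` only, `D` is invariant). `flo`: `LSE.flo`, the map
`x ↦ e^(-1) x` maps `{0}` and `{0}ᶜ` to themselves. `one`: if `g, g un u ∈ E`, `u ≠ 0`: `lf (g un u) {-u} = lf g {0} ≠ 0` by `LS.tr`, but `{-u} ⊆ {0}ᶜ`. `μ E ≠ 0`: otherwise `lf g {0} = 0` a.e. (`nD`, `CZm`). -/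
def StmtCAt : Prop := ∀ (μ : Measure G) (lf : G → Measure ℝ) (D : Set G), Wt → Inv μ → LSE μ lf D → ¬ NoAt μ lf →
  ∃ E : Set G, AtE E ∧ μ E ≠ 0

/-! ### Compactness -/

/-- **CCl** saturations of compact sets are closed. Proof. `x_k ∈ Gs K`, `x_k → x`: `y_k = io γ_k * x_k ∈ K`, `io γ_k = y_k * x_k⁻¹` has bounded entries (entries are bounded on compact sets; `x_k` converges), so there are finitely many
integral matrices `γ_k`: one `γ` occurs infinitely often, and `io γ * x ∈ K` (closed). (`G` is first countable: `IsSeqClosed.isClosed`.) -/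
def StmtCCl : Prop := ∀ K : Set G, IsCompact K → IsClosed (Gs K)

/-- **CCp** (uses `CCl`) two points of `Γ K` on almost the same leaf are close. Proof. Otherwise for `δ_k = 1/(k+4)` there are `x_k ∈ Gs K`, `h_k ∈ Hw δ_k 1 δ_k` with `x_k h_k ∈ Gs K`, `|h_k 0 1| > η`. Multiply on the left by `io γ`: `x_k ∈ K`.
Subsequence: `x_k → x ∈ K`, `h_k 0 1 → b`, `η ≤ |b|`; `h_k 0 0 → 1`, `h_k 1 0 → 0`, `h_k 1 1 = (1 + b_k c_k)/a_k → 1`, so `h_k → un b` (convergence of the entries: `Matrix.SpecialLinearGroup.isClosedEmbedding_val` as in `Dyn/Base.lean`),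
`x_k h_k → x * un b ∈ Gs K ⊆ E` (`CCl`; `Gs K ⊆ E` since `K ⊆ E`, `AtE.gam`). `x ∈ E`, so `b = 0`, contradiction. -/
def StmtCCp : Prop := ∀ E : Set G, AtE E → ∀ K : Set G, IsCompact K → K ⊆ E → ∀ η : ℝ, 0 < η →
  ∃ δ : ℝ, 0 < δ ∧ δ ≤ 1 / 10 ∧ ∀ x h : G, x ∈ Gs K → x * h ∈ Gs K → h ∈ Hw δ 1 δ → |h 0 1| ≤ η

/-- **CBx** small boxes. Proof. `(y, z) ↦ y⁻¹ * z` is continuous, `Hw δ δ δ` contains the open neighbourhood `{|h 0 0 - 1| < δ, |h 0 1| < δ, |h 1 0| < δ}` of `1`: every `x` has an open neighbourhood `U_x` with `y⁻¹ * z ∈ Hw δ δ δ` for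
`y, z ∈ U_x`; finitely many cover `K` (`IsCompact.elim_nhds_subcover`), enumerate. -/
def StmtCBx : Prop := ∀ (K : Set G) (δ : ℝ), IsCompact K → 0 < δ → ∃ (J : ℕ) (B : Fin J → Set G), K ⊆ ⋃ i, B i ∧
  ∀ i, ∀ x ∈ B i, ∀ y ∈ B i, x⁻¹ * y ∈ Hw δ δ δ

/-! ### Covering and counting -/

/-- **CCv** the covering lemma on the line, as a colouring. Proof. Induction on `n`, with `4 ^ (S.filter (· < n)).card` colours (at the end `≤ 4 ^ S.card`). `n = 0`: one colour. Step: if `n ∉ S` the same colouring works. If `n ∈ S`: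
`ℓ = L e^(-(n+1))`, new colour `4 * κ x + (⌊x / ℓ⌋ mod 4)` (`Int.emod`, `toNat`). If the new colours of `x, y ∈ B` agree then `κ x = κ y`, so `|x - y| ≤ e ℓ < 3 ℓ`, so `|⌊x/ℓ⌋ - ⌊y/ℓ⌋| < 4`, and they are equal modulo `4`: equal, hence `|x - y| ≤ ℓ`. -/
def StmtCCv : Prop := ∀ (B : Set ℝ) (L : ℝ), 0 < L → (∀ x ∈ B, ∀ y ∈ B, |x - y| ≤ L) → ∀ (n : ℕ) (S : Finset ℕ),
  (∀ j : ℕ, j < n → j ∉ S → ∀ x ∈ B, ∀ y ∈ B, |x - y| ≤ L * Real.exp (-(j : ℝ)) → |x - y| ≤ L * Real.exp (-((j : ℝ) + 1))) →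
  ∃ κ : ℝ → ℕ, (∀ x ∈ B, κ x < 4 ^ S.card) ∧ ∀ x ∈ B, ∀ y ∈ B, κ x = κ y → |x - y| ≤ L * Real.exp (-(n : ℝ))

/-- **CCs** the classes (uses `CCv`). Proof. Let `A` be the set. If it is empty, nothing to do; else fix `x₀ ∈ A`. For `x ∈ A` let `h = x₀⁻¹ * x = (a, b; c, d) ∈ Hw δ δ δ`, `β(x) = b / d`. `δ ≤ 1/10`: `a ∈ [0.9, 1.1]`, `|b c| ≤ 0.01`,
`d = (1 + b c)/a ∈ [0.9, 1.13]`. For `x, y ∈ A`: `(x⁻¹ * y) 0 1 = d(x) d(y) (β(y) - β(x))` (`x⁻¹ y = (x₀⁻¹ x)⁻¹ (x₀⁻¹ y)`), so `0.81 |β(y) - β(x)| ≤ |(x⁻¹ y) 0 1| ≤ 1.28 |β(y) - β(x)|`. Apply `CCv` to `β '' A`,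
`L = 1/2`, `n = 2 m`: diameter `≤ δ/0.81 ≤ 1/2`. Time `j < 2m`, `j ∉ S`, `|β(x) - β(y)| ≤ L e^(-j)`: `x fl (-j) ∈ Kh`, `y fl (-j) = (x fl (-j)) h_j ∈ Kh` with `h_j = fl j * (x⁻¹ y) * fl (-j)`, entries `(a, e^j b; e^(-j) c, d)`, `|e^j b| ≤ 0.64 ≤ 1`,
`h_j ∈ Hw δ 1 δ`, so `|e^j b| ≤ 1/10`, `|β(x) - β(y)| ≤ (1/10) e^(-j)/0.81 ≤ (1/2) e^(-j-1)`. For each colour `k < 4 ^ S.card` let `C_k` be the set of `x ∈ A` of colour `k`; if `x, y ∈ C_k`: `|(x⁻¹ y) 0 1| ≤ 0.64 e^(-2m)`, `|(x⁻¹ y) 1 0| ≤ δ`, so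
`(x fl (-m))⁻¹ * (y fl (-m)) ∈ Hw (1/2) (e^(-m)) (e^(-m))`. So `C_k ⊆ {y | y fl (-m) ∈ {y' | (x fl (-m))⁻¹ y' ∈ Hw …}}`, which has measure `Tw μ (e^(-m)) (x fl (-m)) ≤ e^(-m)` (`Inv.right`; the set is closed). Sum over `k`. -/
def StmtCCs : Prop := ∀ (μ : Measure G), Inv μ → ∀ (Kh B : Set G) (δ : ℝ), 0 < δ → δ ≤ 1 / 10 →
  (∀ x h : G, x ∈ Kh → x * h ∈ Kh → h ∈ Hw δ 1 δ → |h 0 1| ≤ 1 / 10) → (∀ x ∈ B, ∀ y ∈ B, x⁻¹ * y ∈ Hw δ δ δ) →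
  ∀ (m : ℕ) (S : Finset ℕ), μ {x | x ∈ B ∧ (∀ j : ℕ, j < 2 * m → j ∉ S → x * fl (-(j : ℝ)) ∈ Kh) ∧
    Tw μ (Real.exp (-(m : ℝ))) (x * fl (-(m : ℝ))) ≤ ENNReal.ofReal (Real.exp (-(m : ℝ)))} ≤
      4 ^ S.card * ENNReal.ofReal (Real.exp (-(m : ℝ)))

/-- **CCt** counting. Proof. `100 |S| ≤ n`: `4^|S| = (4/100)^|S| 100^|S|` and `100 ≤ (21/20)^100` (norm_num), so `100^|S| ≤ (21/20)^(100 |S|) ≤ (21/20)^n`. `∑_{S ⊆ range n} (4/100)^|S| = (1 + 4/100)^n`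
(`Finset.sum_pow_mul_eq_add_pow` or `Finset.prod_add`). `(21/20) (26/25) = 1.092 ≤ 11/10`. -/
def StmtCCt : Prop := ∀ n : ℕ, ∑ S ∈ (Finset.range n).powerset.filter (fun S => 100 * S.card ≤ n), (4 : ℝ) ^ S.card ≤
  (11 / 10 : ℝ) ^ n

/-- **CDc** decay (uses `CCp`, `CCs`, `CBx`, `CCt`). Proof. `δ` from `CCp` with `η = 1/10`, boxes `B i`, `i < J`, from `CBx` for this `δ`. `Sm μ K m` is the union over `i` and over the `S ⊆ range (2m)` with `100 |S| ≤ 2m` (take `S = bad K (2m) x`) of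
subsets of the sets of `CCs` with `Kh = Gs K`. So `μ (Sm μ K m) ≤ J * ∑_S 4^|S| e^(-m) ≤ J (11/10)^(2m) e^(-m) = J (1.21/e)^m → 0` (`Real.exp_one_gt_d9`). Sums in `ℝ≥0∞`: `ENNReal.ofReal`. -/
def StmtCDc : Prop := ∀ (μ : Measure G), Inv μ → ∀ E : Set G, AtE E → ∀ K : Set G, IsCompact K → K ⊆ E →
  Tendsto (fun m : ℕ => μ (Sm μ K m)) atTop (𝓝 0)

/-! ### The mass of `Sm` -/

/-- **CUn** unfolding. Proof. `Gs K ∩ Q = ⋃_γ {g | io γ * g ∈ K ∩ Q}` (`GI Q`), so `mX μ (Gs K ∩ Q) ≤ ∑_γ ∫⁻ 1_{K ∩ Q}(io γ * g) ch g dμ = ∑_γ ∫⁻ 1_{K ∩ Q}(g) ch (io γ⁻¹ * g) dμ` (`Inv.left`) `= ∫⁻_{K ∩ Q} ∑_γ ch (io γ⁻¹ * g) dμ = μ (K ∩ Q)`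
(`lintegral_tsum`, `Wt.sum`, `Equiv.inv`). -/
def StmtCUn : Prop := Wt → ∀ (μ : Measure G), Inv μ → ∀ K Q : Set G, MeasurableSet K → MeasurableSet Q → GI Q →
  mX μ (Gs K ∩ Q) ≤ μ (K ∩ Q)

/-- **CRg** a compact set. Proof. `mX μ` is a finite measure (`Wt.fin`) on a Polish space (`G` is closed in the space of matrices: locally compact, second countable, metrizable), hence inner regular: `MeasurableSet.exists_isCompact_diff_lt`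
or `MeasurableSet.exists_lt_isCompact_of_ne_top`. -/
def StmtCRg : Prop := Wt → ∀ (μ : Measure G), Inv μ → ∀ E : Set G, MeasurableSet E → ∀ ε : ℝ≥0∞, ε ≠ 0 →
  ∃ K : Set G, IsCompact K ∧ K ⊆ E ∧ mX μ (E \ K) ≤ ε

/-- **CBd** few points have many bad times. (uses `CCl`) Proof. `Q = E \ Gs K` is measurable (`CCl`), `GI`, `mX μ Q ≤ mX μ (E \ K)` (`K ⊆ Gs K`, take `γ = 1`). For each `j`: `x ∈ E`, `x fl (-j) ∉ Gs K` iff `x fl (-j) ∈ Q` for `x ∈ E` (`AtE.flo`, induction on `j`), and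
`mX μ {x | x fl (-j) ∈ Q} = mX μ Q` (`Wt.flo` for the indicator of `Q`, `t = -j`). `#bad = ∑_{j < n} 1[x fl (-j) ∉ Gs K]`, so `∫⁻_E #bad dmX ≤ n mX μ Q`, and Markov: `mX μ {x ∈ E : n < 100 #bad} ≤ 100 mX μ Q` for `n ≥ 1`; for `n = 0` the set is empty.
Second part: `t = -m`. -/
def StmtCBd : Prop := Wt → ∀ (μ : Measure G), Inv μ → ∀ E : Set G, AtE E → ∀ K : Set G, IsCompact K → K ⊆ E → ∀ n : ℕ,
  mX μ {x | x ∈ E ∧ n < 100 * (bad K n x).card} ≤ 100 * mX μ (E \ K) ∧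
  mX μ {x | x ∈ E ∧ x * fl (-(n : ℝ)) ∉ Gs K} ≤ mX μ (E \ K)

/-- **CMs** the mass of `Sm` (uses `CTw`, `CMk`, `CUn`, `CRg`, `CBd`). Proof. `P = mX μ E`, `0 < P < ∞` (`Wt.null`, `Wt.fin`). `K` from `CRg` with `ε = P/1000`. `E ⊆ Sm μ K m ∪ (E \ K) ∪ {x ∈ E : 2m < 100 #bad} ∪ {x ∈ E : x fl (-m) ∉ Gs K} ∪ T_m`,
`T_m = {x | x fl (-m) ∈ Gs K ∩ Q_m}`, `Q_m = {z : ofReal (e^(-m)) < Tw μ (e^(-m)) z}`, measurable and `GI` by `CTw`. By `CBd` (with `n = 2m` and `n = m`) the first three sets have `mX μ`-measure at most `P (1 + 100 + 1)/1000`. `mX μ T_m = mX μ (Gs K ∩ Q_m)` (`Wt.flo`; measurable: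
`Gs K` is a countable union) `≤ μ (K ∩ Q_m)` (`CUn`) `→ 0` by `CMk` (`K ⊆ Om R` for some `R ≥ 1`: entries are bounded on `K`). So for large `m`: `P ≤ mX μ (Sm μ K m) + P/2`, and `mX μ A ≤ μ A` (`ch ≤ 1`, `Wt.le_one`, `withDensity` is at most `μ`: for measurable `A`;
for general `A` use `toMeasurable` or `Measure.le_iff'`). Output `p = P/2`. -/
def StmtCMs : Prop := Wt → ∀ (μ : Measure G) (c : ℝ), 0 < c → Inv μ → Cwm c μ → ∀ E : Set G, AtE E → μ E ≠ 0 →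
  ∃ (K : Set G) (p : ℝ≥0∞), IsCompact K ∧ K ⊆ E ∧ p ≠ 0 ∧ ∀ᶠ m : ℕ in atTop, p ≤ μ (Sm μ K m)

/-- **CFin**: block C -/
theorem blockC (hW : Wt) (hLn : StmtCLn) (hAt : StmtCAt) (hDc : StmtCDc) (hMs : StmtCMs) : StmtC := by
  intro μ c lf D hc hi hcw hl
  refine ⟨?_, hLn μ c hc hi hcw⟩
  by_contra hn
  obtain ⟨E, hE, hE0⟩ := hAt μ lf D hW hi hl hn
  obtain ⟨K, p, hK, hKE, hp, hev⟩ := hMs hW μ c hc hi hcw E hE hE0
  have h0 := hDc μ hi E hE K hK hKE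
  exact hp (le_antisymm (ge_of_tendsto h0 hev) zero_le)

end

end Pool.Agent.A54.QE
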