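import Pool.Agent.Lib.QE.Defs

/-!
# Package `QE`, block D (helper88): maximal inequalities, the shear, invariance under `U`

Complete proofs are in the docstrings. Conventions of `QE/Defs`: leaf of `g`: `{g * un u}`, `lf (g * un u) = (lf g).map (· - u)`,
`g * un u * fl t = g * fl t * un (e^(-t) u)`, so `lf (g * fl n)` is proportional to `(lf g).map (e^(-n) ·)` on `D`.
Module of `StmtDXxx`: `QE/DXxx.lean`, theorem `stmtDXxx : StmtDXxx`; every proved statement may be used. Every `theorem` in the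
graph below is independent of the others except where its docstring says so.

Graph: `Bes → MxL`; `Ker → Null → Dn`; `Win, MxL, Ker → MX`; `Seq → ME`; `Lus, Unif, MX, ME, Dn → X`; `Poly → Pick`; `Sel`; `Geo`;
`Time`; `Lim`; `X, Sel, Time, Geo, Pick, Lim → HP`; `Cont → QP, Mul, Meas`; `Zoom, HP, Meas → Q0`; `QP, Mul, Zoom, Q0 → TI`; `TI → StmtD`.
-/

set_option autoImplicit false

namespace Pool.Agent.A54.QE

open MeasureTheory Filter Topology Set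
open scoped ENNReal MatrixGroups
open Pool.Agent.A54.Dyn (G fl base ze io mk4 Inv HM)

noncomputable section

/-! ### Definitions -/

/-- `Γ`-saturation -/
def gs (K : Set G) : Set G := {g | ∃ γ : SL(2, ℤ), io γ * g ∈ K}

/-- number of the times `s < S` with `g * fl s ∈ E` -/
def cnt (E : Set G) (g : G) (S : ℕ) : ℕ := ∑ s ∈ Finset.range S, E.indicator (fun _ => 1) (g * fl s)

/-- window average of the weight -/
def wd (l : ℝ) (g : G) : ℝ := (2 * l)⁻¹ * ∫ u in (-l)..l, ch (g * un u)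

/-- `τ` is a quasi-period of `m` -/
def QP (m : Measure ℝ) (τ : ℝ) : Prop := Pr (m.map fun x => x - τ) m

/-- the good set: no atoms on the leaf -/
def Dn (lf : G → Measure ℝ) (D : Set G) : Set G := {g | g ∈ D ∧ ∀ x, lf g {x} = 0}

/-- normalised measures of rational intervals -/
def rt (lf : G → Measure ℝ) (i : ℚ × ℚ) (g : G) : ℝ≥0∞ := lf g (Ioo (i.1 : ℝ) (i.2 : ℝ)) / lf g (Icc (-1) 1)

/-- the points at which the leaf set `{u : g * un u ∈ E \ Γ K}` is small at all scales `e^n` -/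
def X1 (lf : G → Measure ℝ) (E K : Set G) : Set G := {g | g ∈ E ∧ ∀ n : ℕ,
  10 * lf g ({u | g * un u ∈ E \ gs K} ∩ Icc (-Real.exp n) (Real.exp n)) ≤ lf g (Icc (-Real.exp n) (Real.exp n))}

/-- the points at which short intervals have small measure -/
def X2 (lf : G → Measure ℝ) (E : Set G) (ρ : ℝ) : Set G := {g | g ∈ E ∧ lf g (Icc (-1) 1) ≠ 0 ∧ ∀ z : ℚ, |(z : ℝ)| ≤ 1 →
  10 * lf g (Icc ((z : ℝ) - 2 * ρ) ((z : ℝ) + 2 * ρ)) ≤ lf g (Icc (-1) 1)}

/-- the points for which bad times are rare -/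
def X3 (lf : G → Measure ℝ) (E K : Set G) (ρ : ℝ) : Set G := {g | g ∈ E ∧ ∀ S : ℕ,
  20 * cnt (X1 lf E K)ᶜ g S ≤ S ∧ 20 * cnt (X2 lf E ρ)ᶜ g S ≤ S}

/-! ### Pure analysis -/

/-- **Bes** (Besicovitch covering on the line; 50 lines). Proof: take `N, τ` from `HasBesicovitchCovering.no_satelliteConfig`
(`α = ℝ`) and apply `Besicovitch.exist_disjoint_covering_families` to the package with centers `x ∈ A` (subtype) and radii `r x`
(bounded by `R`). Each family is countable (`Set.PairwiseDisjoint.countable_of_nonempty_interior`). With `I_j` the closed balls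
`= Icc (x - r) (x + r)`: `θ m(A) ≤ ∑_i ∑_j θ m(I_j) ≤ ∑_i ∑_j m(E ∩ I_j) ≤ ∑_i m(E ∩ A^R)`, since the `I_j` of one family are
disjoint, measurable and contained in `A^R := {y | ∃ x ∈ A, |y - x| ≤ R}` (use `m.restrict (E ∩ A^R)` applied to the `I_j`; no
measurability of `E` or `A` is needed). `C = N`. -/
def StmtDBes : Prop := ∃ C : ℕ, ∀ (m : Measure ℝ) (E A : Set ℝ) (θ : ℝ≥0∞) (R : ℝ),
  (∀ x ∈ A, ∃ r : ℝ, 0 < r ∧ r ≤ R ∧ θ * m (Icc (x - r) (x + r)) ≤ m (E ∩ Icc (x - r) (x + r))) →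
    θ * m A ≤ C * m (E ∩ {y | ∃ x ∈ A, |y - x| ≤ R})

/-- **MxL** (weighted maximal inequality on the line; 50 lines; from `Bes`, same `C`). Proof: if `B` is empty trivial. For `t > 0`
apply `Bes` to `A = B ∩ {h > t}`: `A^R ⊆ {H > t}` by the hypothesis on `h, H`, so `θ m(B ∩ {h > t}) ≤ C m(E ∩ {H > t})`. Integrate
over `t > 0` with `lintegral_eq_lintegral_meas_lt` for the measures `m.restrict B`, `m.restrict E` (no finiteness is needed there). -/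
def StmtDMxL : Prop := ∃ C : ℕ, ∀ (m : Measure ℝ) (B E : Set ℝ) (θ : ℝ≥0∞) (R : ℝ) (h H : ℝ → ℝ),
  MeasurableSet B → MeasurableSet E → Measurable h → Measurable H → (∀ x, 0 ≤ h x) → (∀ x, 0 ≤ H x) →
  (∀ x y, |x - y| ≤ R → h x ≤ H y) →
  (∀ x ∈ B, ∃ r : ℝ, 0 < r ∧ r ≤ R ∧ θ * m (Icc (x - r) (x + r)) ≤ m (E ∩ Icc (x - r) (x + r))) →
    θ * ∫⁻ x in B, ENNReal.ofReal (h x) ∂m ≤ C * ∫⁻ x in E, ENNReal.ofReal (H x) ∂m

/-- **Seq** (greedy covering of a time interval; 40 lines). Proof: show by strong induction on `T - t₀` for all `t₀`: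
`#{t ∈ [t₀, T) : t ∈ B} ≤ K ∑_{s ∈ [t₀, T + N)} e s`. If `t₀ ≥ T`: trivial. If `t₀ ∉ B` pass to `t₀ + 1`. If `t₀ ∈ B` take `S`
(`1 ≤ S ≤ N` automatically): the times in `[t₀, t₀ + S)` are at most `S ≤ K ∑_{s ∈ [t₀, t₀ + S)} e s`, and pass to `t₀ + S`
(`Finset.Ico` and `Finset.sum_Ico_consecutive`). -/
def StmtDSeq : Prop := ∀ (K N T : ℕ) (e : ℕ → ℕ) (B : Set ℕ),
  (∀ t ∈ B, ∃ S : ℕ, S ≤ N ∧ S < K * ∑ s ∈ Finset.range S, e (t + s)) →
    ∑ t ∈ Finset.range T, B.indicator (fun _ => 1) t ≤ K * ∑ s ∈ Finset.range (T + N), e s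

/-- **Lus** (Lusin for countably many functions; 60 lines). Proof: enumerate the pairs `(i, O)`, `O` in a countable basis of the
topology of `ℝ≥0∞`. For the pair number `n` the set `P = f i ⁻¹' O` is measurable; inner regularity of the finite measure `m` on
`G` (`MeasurableSet.exists_isClosed_diff_lt` or `exists_isCompact_diff_lt`; `G` is a closed subset of `ℝ⁴`, so second countable, locally
compact, metrizable) gives closed `K_n ⊆ A ∩ P`, `C_n ⊆ A \ P` with `m(A \ (K_n ∪ C_n)) ≤ ε 2^(-n-3)`, and a compact `K₀ ⊆ A` with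
`m(A \ K₀) ≤ ε/4`. Put `K = K₀ ∩ ⋂ (K_n ∪ C_n)`: compact, `m(A \ K) < ε`; in `K` the set `f i ⁻¹' O` is `K \ C_n`, so relatively open:
`ContinuousOn` by `continuousOn_iff'` / basis. -/
def StmtDLus : Prop := ∀ (m : Measure G), IsFiniteMeasure m → ∀ f : ℚ × ℚ → G → ℝ≥0∞, (∀ i, Measurable (f i)) →
  ∀ A : Set G, MeasurableSet A → ∀ ε : ℝ≥0∞, 0 < ε →
    ∃ K : Set G, K ⊆ A ∧ IsCompact K ∧ m (A \ K) < ε ∧ ∀ i, ContinuousOn (f i) K

/-- **Poly** (a quadratic polynomial with a coefficient which is not small is small only near two points; 40 lines). Proof: let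
`S = {z : |z| ≤ 1, |P z| < κ}`. If `S` is empty take `0, 0`. Otherwise `z₁ ∈ S`; if `S` is within `ρ` of `z₁` take `z₂ = z₁`, else
`z₂ ∈ S` with `|z₂ - z₁| > ρ`. If some `z₃ ∈ S` were farther than `ρ` from both: `P z_i - P z_j = (z_i - z_j) (A - C (z_i + z_j))`, so
`|A - C (z_i + z_j)| < 2κ/ρ` for the three pairs; subtract: `|C| |z₂ - z₃| < 4κ/ρ`, `|C| < 4κ/ρ²`, `|A| < 2κ/ρ + 2|C| ≤ 10κ/ρ²`:
contradiction to both alternatives. -/
def StmtDPoly : Prop := ∀ ρ κ b A C : ℝ, 0 < ρ → ρ ≤ 1 → 0 < κ → 10 * κ < Real.exp (-2) * ρ ^ 2 →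
  (Real.exp (-2) ≤ |A| ∨ Real.exp (-2) ≤ |C|) →
    ∃ z₁ z₂ : ℝ, |z₁| ≤ 1 ∧ |z₂| ≤ 1 ∧ ∀ z : ℝ, |z| ≤ 1 → |b + A * z - C * z ^ 2| < κ → |z - z₁| ≤ ρ ∨ |z - z₂| ≤ ρ

/-- **Time** (choice of the time and of the scale; 100 lines). Proof: `Λ = log (1/|c|) ≥ 2`, `M = log (1/|e|) ≥ 0` (if `e = 0` drop it),
`L(s) = min((Λ - s)/2, M)`, `S = ⌊Λ/2⌋ ≥ 1`, for `s < S`: `L(s) ≥ 0`; `k(s) = ⌊L(s)⌋₊`. Then `2k + s - Λ ≤ 0`, `k ≤ M`,
`exp(s)|c| ≤ √|c|` as `s ≤ Λ/2`; since `L(s) < k + 1`, either `2k + s - Λ > -2` or `k - M > -1`. Put `τ(s) = s + k(s) = ⌊s + L(s)⌋`.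
`s + 2 + L(s+2) ≥ s + L(s) + 1` (both terms of the minimum drop by at most `1`), so `τ` is strictly increasing on even and on odd `s`; and
`τ(s) ≤ (Λ + s)/2 < (2(S+1) + S)/2`, so `τ(s) < 2S + 2`. Hence `#{s < S : Z (τ s) ≠ 0} ≤ 2 #{t < 2S+2 : Z t ≠ 0} ≤ 2 (2S+2)/20`, and
the number of `s < S` with `X s ≠ 0`, `Y s ≠ 0` or `Z (τ s) ≠ 0` is at most `(S + S + 4S + 4)/20 < S`. -/
def StmtDTime : Prop := ∀ (c e : ℝ) (X Y Z : ℕ → ℕ), c ≠ 0 → |c| ≤ Real.exp (-2) → |e| ≤ 1 →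
  (∀ S : ℕ, 20 * ∑ s ∈ Finset.range S, X s ≤ S) → (∀ S : ℕ, 20 * ∑ s ∈ Finset.range S, Y s ≤ S) →
  (∀ S : ℕ, 20 * ∑ s ∈ Finset.range S, Z s ≤ S) →
    ∃ s k : ℕ, X s = 0 ∧ Y s = 0 ∧ Z (s + k) = 0 ∧ Real.exp (2 * k + s) * |c| ≤ 1 ∧ Real.exp k * |e| ≤ 1 ∧
      (Real.exp (-2) ≤ Real.exp k * |e| ∨ Real.exp (-2) ≤ Real.exp (2 * k + s) * |c|) ∧ Real.exp s * |c| ≤ √|c|

/-- **Unif** (uniform smallness of short intervals; 40 lines). Proof: if not, for every `n` there is `|z_n| ≤ 1` with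
`m (Icc (z_n - 1/n) (z_n + 1/n)) > δ`; a subsequence converges to `z` (`|z| ≤ 1`), so `m (Icc (z - r) (z + r)) ≥ δ` for every `r > 0`, and
`m {z} = lim m (Icc (z - r) (z + r)) ≥ δ` (continuity from above, finite on compacts). Contradiction. -/
def StmtDUnif : Prop := ∀ m : Measure ℝ, IsFiniteMeasureOnCompacts m → (∀ x, m {x} = 0) → ∀ δ : ℝ≥0∞, 0 < δ →
  ∃ ρ : ℝ, 0 < ρ ∧ ρ ≤ 1 ∧ ∀ z : ℝ, |z| ≤ 1 → m (Icc (z - ρ) (z + ρ)) ≤ δ

/-- **Pick** (choice of the point on the leaf; 50 lines; from `Poly`). Proof: with `z = u/r`, `A = e r`, `C = c r²`, `Poly` gives `z₁, z₂`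
with `{|u| ≤ r, |q(u)| < κ} ⊆ ⋃_i Icc (r (z_i - ρ)) (r (z_i + ρ))`. The four sets `P₁ ∩ I, P₂ ∩ I` and these two intervals have
measure `≤ m(I)/10` each, so they do not cover `I = Icc (-r) r` (`0 < m(I) < ∞`). -/
def StmtDPick : Prop := ∀ (m : Measure ℝ) (P₁ P₂ : Set ℝ) (r ρ κ b e c : ℝ), 0 < r → 0 < ρ → ρ ≤ 1 → 0 < κ →
  10 * κ < Real.exp (-2) * ρ ^ 2 → (Real.exp (-2) ≤ |e * r| ∨ Real.exp (-2) ≤ |c * r ^ 2|) →
  m (Icc (-r) r) ≠ 0 → m (Icc (-r) r) ≠ ⊤ → 10 * m (P₁ ∩ Icc (-r) r) ≤ m (Icc (-r) r) →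
  10 * m (P₂ ∩ Icc (-r) r) ≤ m (Icc (-r) r) →
  (∀ z : ℝ, |z| ≤ 1 → 10 * m (Icc (r * (z - ρ)) (r * (z + ρ))) ≤ m (Icc (-r) r)) →
    ∃ u : ℝ, |u| ≤ r ∧ u ∉ P₁ ∧ u ∉ P₂ ∧ κ ≤ |b + e * u - c * u ^ 2|

/-- **Cont** (continuity of the measure of moving intervals; 50 lines). Proof: no atoms: for `F(a) = m (Ioc 0 a)` (`a ≥ 0`) and
`-m (Ioc a 0)` one has a continuous function; or directly by sequences: `m (Ioo (a + τ_n) (b + τ_n)) → m (Ioo (a + τ) (b + τ))` by dominated convergence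
of the indicators at all points different from `a + τ`, `b + τ` (which have measure zero), with the dominating indicator of a compact interval. -/
def StmtDCont : Prop := ∀ m : Measure ℝ, IsFiniteMeasureOnCompacts m → (∀ x, m {x} = 0) → ∀ a b : ℝ,
  (Continuous fun τ : ℝ => m (Ioo (a + τ) (b + τ))) ∧ Continuous fun τ : ℝ => m (Icc (a + τ) (b + τ))

/-- **Qc** (quasi-periods by countably many conditions; 50 lines). Proof: `→`: with `m.map (· - τ) = k • m` both sides are `k m(J) m(J')`.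
`←`: `m ≠ 0` gives a rational interval `J'` with `0 < m(J') < ∞` and `k := m(J' + τ)/m(J') < ∞`; then `m(J + τ) = k m(J)` for all rational `J`, so
`m.map (· - τ) = k • m` by `Real.measure_ext_Ioo_rat` (after `map_apply`, preimage of `Ioo a b` is `Ioo (a + τ) (b + τ)`); `k ≠ 0` since otherwise `m = 0`. -/
def StmtDQc : Prop := ∀ m : Measure ℝ, IsFiniteMeasureOnCompacts m → m ≠ 0 → ∀ τ : ℝ, QP m τ ↔
  ∀ a b a' b' : ℚ, m (Ioo (a + τ) (b + τ)) * m (Ioo (a' : ℝ) b') = m (Ioo (a : ℝ) b) * m (Ioo (a' + τ) (b' + τ))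

/-- **Qg** (quasi-periods form a closed subgroup; 80 lines; from `Cont`, `Qc`). `0`, sums and negatives: compose the maps
(`Measure.map_map`, `Measure.map_smul`). Closed: by `Qc` and `Cont` each of the countably many conditions is closed in `τ` (products of finite continuous
`ℝ≥0∞` functions: `ENNReal.Tendsto.mul`, all values `< ∞`). Last claim: a closed subgroup of `ℝ` with arbitrarily small non-zero elements is
everything (`AddSubgroup.dense_of_not_isolated_zero` and closedness). -/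
def StmtDQg : Prop := ∀ m : Measure ℝ, IsFiniteMeasureOnCompacts m → m ≠ 0 → (∀ x, m {x} = 0) →
  (∀ τ τ', QP m τ → QP m τ' → QP m (τ + τ')) ∧ (∀ τ, QP m τ → QP m (-τ)) ∧ IsClosed {τ | QP m τ} ∧
  ((∀ ε : ℝ, 0 < ε → ∃ τ : ℝ, τ ≠ 0 ∧ |τ| ≤ ε ∧ QP m τ) → ∀ τ, QP m τ)

/-- **Mul** (the multiplier of a small translation tends to `1`; 60 lines; from `Cont`). Here every `τ` is a quasi-period:
`m.map (· - τ) = k(τ) • m`. First `m (Icc a b) ≠ 0` for `a < b` (otherwise all translates are null and `m = 0`). For every `r > 0`: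
`m (Icc (-r + σ) (r + σ)) = k(σ) m (Icc (-r) r)`; use it with `r = e^(-n)`, `σ = e^(-n) τ` and with `r = 1`, the same `σ`:
the quotient in the statement is `k(σ) = m (Icc (-1 + σ) (1 + σ)) / m (Icc (-1) 1) → 1` by `Cont` as `σ → 0`. -/
def StmtDMul : Prop := ∀ m : Measure ℝ, IsFiniteMeasureOnCompacts m → m ≠ 0 → (∀ x, m {x} = 0) → (∀ τ, QP m τ) →
  (∀ a b : ℝ, a < b → m (Icc a b) ≠ 0) ∧ ∀ τ : ℝ,
    Tendsto (fun n : ℕ => m (Icc (Real.exp (-n) * (-1 + τ)) (Real.exp (-n) * (1 + τ))) /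
      m (Icc (-Real.exp (-n)) (Real.exp (-n)))) atTop (𝓝 1)

end

end Pool.Agent.A54.QE
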