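import Pool.Agent.Lib.QE.SpecD
import Pool.Agent.Lib.QE.DGrp

/-!
# Package `QE`, block D (helper88), second part: statements on the group

Complete proofs are in the docstrings. `DGrp` contains the group lemmas (`un_mul_un`, `fl_mul_fl`, `un_mul_fl`, ...) and the
calculus of `Pr` and `QP`.
-/

set_option autoImplicit false

namespace Pool.Agent.A54.QE

open MeasureTheory Filter Topology Set
open scoped ENNReal MatrixGroups
open Pool.Agent.A54.Dyn (G fl base ze io mk4 Inv HM)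

noncomputable section

/-- **Ker** (joint measurability; 60 lines; only `LS.meas` and `LS.fin` are used). Proof: for `n : ℤ`, `k : ℕ` the kernel
`κ_{n,k} g = (lf g).restrict (Ioc n (n+1))` if `k ≤ lf g (Ioc n (n+1)) < k + 1` and `0` otherwise is a finite kernel (bound `k + 1`), the
sum over `k` is `(lf g).restrict (Ioc n (n+1))` (`lf` is finite on compacts) and the sum over `n` is `lf g`. So `lf` is an s-finite kernel
(`Kernel.IsSFiniteKernel`, `Kernel.sum`) and `Measurable.lintegral_kernel_prod_right'` applies. -/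
def StmtDKer : Prop := ∀ (μ : Measure G) (lf : G → Measure ℝ), LS μ lf → ∀ F : G → ℝ → ℝ≥0∞,
  Measurable (Function.uncurry F) → Measurable fun g => ∫⁻ u, F g u ∂(lf g)

/-- **Null** (null sets meet almost every leaf in a null set; 60 lines; from `Ker`). Proof: by `LS.dis` for the indicator of `N`, for
`θ`-a.e. `v`: `lf (sc v) {x | sc v * un x ∈ N} = 0`. The set `P = {g | lf g {u | g * un u ∈ N} ≠ 0}` is measurable (`Ker`) and invariant
under `U` (`LS.tr`: for `g = sc v * un x` the value is `lf (sc v) {y | sc v * un y ∈ N}`). So by `LS.dis` for the indicator of `P`: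
`μ P = ∫ θ(dv) lf (sc v) {x | sc v * un x ∈ P}`, and the integrand is `0` for `θ`-a.e. `v`, as `sc v ∉ P`. -/
def StmtDNull : Prop := ∀ (μ : Measure G) (lf : G → Measure ℝ), LS μ lf → ∀ N : Set G, MeasurableSet N → μ N = 0 →
  ∀ᵐ g ∂μ, lf g {u | g * un u ∈ N} = 0

/-- **Dns** (the set `Dn`; 80 lines; from `Ker`, `Null`). Proof: `N₀ = {g ∈ D | lf g {0} ≠ 0}` is measurable and null. For `g ∈ D`:
`(∀ x, lf g {x} = 0) ↔ lf g {u | g * un u ∈ N₀} = 0`: `→`: `lf (g * un u) {0} = lf g {u}` (`LS.tr`), so the set is empty; `←`: if `lf g {x} ≠ 0`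
then `g * un x ∈ N₀`, so the set contains `x` and has positive measure. So `Dn` is measurable (`Ker`) and conull (`Null`). `FI`: `gam` by
`LSE.gam`, `uni` by `LS.tr`, `flo` by `LSE.flo` (the image of an atom is an atom; `D` itself is `FI`). -/
def StmtDDns : Prop := ∀ (μ : Measure G) (lf : G → Measure ℝ) (D : Set G), LSE μ lf D → NoAt μ lf →
  MeasurableSet (Dn lf D) ∧ FI (Dn lf D) ∧ μ (Dn lf D)ᶜ = 0

/-- **Flo** (all integral times; 60 lines). Proof: for `n : ℕ` by induction from `LSE.flo` (`fl (n + 1) = fl n * fl 1`, composition of the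
maps); for negative `n` apply the positive case to `g * fl n` (it is in `D` by `FI.flo`) and invert: `Measure.map` by `x ↦ e^(-n) x`. -/
def StmtDFlo : Prop := ∀ (μ : Measure G) (lf : G → Measure ℝ) (D : Set G), LSE μ lf D → ∀ g ∈ D, ∀ n : ℤ,
  g * fl n ∈ D ∧ Pr (lf (g * fl n)) ((lf g).map fun x => Real.exp (-n) * x)

/-- **Win** (window averages of the weight; 80 lines). Proof: `ch` is continuous and `0 < ch ≤ 1` (`Wt`); continuity of the
parametric integral by `intervalIntegral.continuous_parametric_intervalIntegral_of_continuous'`. Sum: convert the interval integral to a `lintegral`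
(`ofReal_integral_eq_lintegral_ofReal`), exchange the countable sum (`lintegral_tsum`) and use `Wt.sum` at `g * un u`. Last claim:
`wd l (g * un x) = (2l)⁻¹ ∫_{x-l}^{x+l} ch (g * un v) dv` (substitution), `[x - l, x + l] ⊆ [y - l - R, y + l + R]`, `ch ≥ 0`, and
`(2l)⁻¹ = ((l + R)/l) (2 (l + R))⁻¹`. -/
def StmtDWin : Prop := Wt → (∀ l : ℝ, 0 < l → Continuous (wd l) ∧ (∀ g, 0 ≤ wd l g) ∧
    ∀ g, ∑' γ : SL(2, ℤ), ENNReal.ofReal (wd l (io γ * g)) = 1) ∧
  ∀ l R : ℝ, 0 < l → 0 ≤ R → ∀ (g : G) (x y : ℝ), |x - y| ≤ R →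
    wd l (g * un x) ≤ (l + R) / l * wd (l + R) (g * un y)

/-- **MX** (maximal inequality along the leaves; 120 lines; from `MxL`, `Ker`, `Win`). Proof: it suffices to bound `B_N`, the set with
`n ≤ N` and `g ∈ D` (`measure` of increasing unions; `mX μ Dᶜ = 0`). `B_N` is measurable (`Ker`) and Γ-invariant (`LSE.gam`, `GI E`, `GI D`). For `l > 0`:
`mX μ B_N = ∫ 1_{B_N} wd l dμ` (`Wt.unf` with the weight `wd l`, `Win`) `= ∫ θ(dv) ∫ 1 {sc v * un x ∈ B_N} wd l (sc v * un x) d(lf (sc v))(x)` (`LS.dis`).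
For fixed `v` apply `MxL` with `m = lf (sc v)`, `B = {x | sc v * un x ∈ B_N}`, `E = {x | sc v * un x ∈ E}`, `θ = 1/10`, `R = e^N`,
`h x = wd l (sc v * un x)`, `H y = ((l + R)/l) wd (l + R) (sc v * un y)`; the hypothesis at `x ∈ B` with `r = e^n` is the definition of `B_N` by
`LS.tr`. Result: `mX μ B_N / 10 ≤ C ((l + R)/l) ∫ 1_E wd (l + R) dμ = C ((l + R)/l) mX μ E`, and `l → ∞`. The constant is `10 C`. -/
def StmtDMX : Prop := Wt → ∃ C : ℕ, ∀ (μ : Measure G) (lf : G → Measure ℝ) (D : Set G), Inv μ → LSE μ lf D →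
  ∀ E : Set G, MeasurableSet E → GI E →
    mX μ {g | ∃ n : ℕ, lf g (Icc (-Real.exp n) (Real.exp n)) <
      10 * lf g ({u | g * un u ∈ E} ∩ Icc (-Real.exp n) (Real.exp n))} ≤ C * mX μ E

/-- **ME** (maximal ergodic inequality; 80 lines; from `Seq`). Proof: it suffices to bound `B_N = {∃ S ≤ N, S < K cnt E g S}` (increasing union).
`B_N` is measurable and Γ-invariant. For every `T`: `Seq` with `e s = 1_E (g * fl s)`, `B = {t | g * fl t ∈ B_N}` gives
`∑_{t < T} 1_{B_N}(g * fl t) ≤ K ∑_{s < T + N} 1_E(g * fl s)`; integrate over `mX μ` and use `Wt.flo`: `T mX(B_N) ≤ K (T + N) mX(E)`; divide by `T`,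
`T → ∞` (`mX μ` is finite). -/
def StmtDME : Prop := Wt → ∀ μ : Measure G, Inv μ → ∀ E : Set G, MeasurableSet E → GI E → ∀ K : ℕ,
  mX μ {g | ∃ S : ℕ, S < K * cnt E g S} ≤ K * mX μ E

/-- **Zoom** (the zoom lemma; 40 lines). Proof: `F' = min F 1`. For every `n`: `∫ F' dmX = ∫ F' (g * fl (σ n)) dmX` (`Wt.flo`), and this tends to `0` by
dominated convergence (`mX μ` finite, `mX μ ≪ μ` by `Wt.null` or `withDensity_absolutelyContinuous`). So `F' = 0` `mX μ`-a.e., so `μ`-a.e. (`Wt.null`). -/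
def StmtDZoom : Prop := Wt → ∀ μ : Measure G, Inv μ → ∀ F : G → ℝ≥0∞, Measurable F →
  (∀ (γ : SL(2, ℤ)) (g : G), F (io γ * g) = F g) → ∀ σ : ℝ,
    (∀ᵐ g ∂μ, Tendsto (fun n : ℕ => F (g * fl (σ * n))) atTop (𝓝 0)) → ∀ᵐ g ∂μ, F g = 0

/-- **XM** (measurability and Γ-invariance; 100 lines; from `Ker`). Proof: `gs K` is a countable union of measurable sets and `GI`.
`X1`: `g ↦ lf g ({u | g * un u ∈ E \ gs K} ∩ Icc ..)` is measurable by `Ker`; countable intersections. `cnt A g S` is a finite sum of indicators. `GI`: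
`lf (io γ * g)` is proportional to `lf g` on `D`, the sets `{u | g * un u ∈ E \ gs K}` are the same for `g` and `io γ * g`. -/
def StmtDXM : Prop := ∀ (μ : Measure G) (lf : G → Measure ℝ) (D : Set G), LSE μ lf D → ∀ E K : Set G, MeasurableSet E →
  FI E → E ⊆ D → MeasurableSet K → ∀ ρ : ℝ,
    (MeasurableSet (gs K) ∧ GI (gs K)) ∧ (MeasurableSet (X1 lf E K) ∧ GI (X1 lf E K)) ∧
    (MeasurableSet (X2 lf E ρ) ∧ GI (X2 lf E ρ)) ∧ (MeasurableSet (X3 lf E K ρ) ∧ GI (X3 lf E K ρ))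

/-- **XE** (choice of the compact set and of `ρ`; 120 lines; from `Lus`, `Unif`, `MX`, `ME`, `XM`). Proof: `m₀ = mX μ E`, `0 < m₀ < ∞`. Let `C` be the
constant of `MX` and `ε = m₀ / (100 (C + 1))`. `Lus` for `mX μ`, the functions `rt lf i` and the set
`{g ∈ E | lf g (Icc (-1) 1) ≠ 0}` (it has full measure in `E` by `LSE.sup`) gives a compact `K` with `mX μ (E \ K) < ε`. `E \ gs K ⊆ E \ K` is
Γ-invariant, so by `MX` `mX μ (E \ X1) ≤ C ε` (for `g ∈ E` with `g ∉ X1` the condition of `MX` for the set `E \ gs K` holds). The sets `E \ X2 lf E (1/j)` decrease to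
a null set: for a.e. `g ∈ E` `δ = lf g (Icc (-1) 1)/10 > 0` and `Unif` gives `ρ₀`; if `2/j ≤ ρ₀` then `g ∈ X2 lf E (1/j)`. So some `ρ = 1/j` has
`mX μ (E \ X2) ≤ m₀/100`. For `g ∈ E \ X3` some `S` has `S < 20 cnt (E \ X1) g S` or `S < 20 cnt (E \ X2) g S` (all `g * fl s ∈ E`), so by `ME`
`mX μ (E \ X3) ≤ 20 C ε + m₀/5 < m₀`. -/
def StmtDXE : Prop := Wt → ∀ (μ : Measure G) (lf : G → Measure ℝ) (D : Set G), Inv μ → LSE μ lf D →
  ∀ E : Set G, MeasurableSet E → FI E → E ⊆ D → (∀ g ∈ E, ∀ x, lf g {x} = 0) → μ E ≠ 0 →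
    ∃ (K : Set G) (ρ : ℝ), IsCompact K ∧ K ⊆ E ∧ (∀ g ∈ K, lf g (Icc (-1) 1) ≠ 0) ∧ (∀ i, ContinuousOn (rt lf i) K) ∧
      0 < ρ ∧ ρ ≤ 1 ∧ μ (X3 lf E K ρ) ≠ 0

/-- **HkN** (Hecke elements; 80 lines). `Hk` is countable and invariant under left multiplication by `Γ`; a Hecke element with two different
real eigenvectors lines is allowed, but only two lines can be invariant: for `d ∈ Hk`, `d ∉ range io`, the set of first columns `v = vc g` with
`vc (d * g)` proportional to `v` is contained in two lines. Proof: `io γ * nm s = nm (γ s)` (entries, `det` is the same); countable: `Mat` is countable. If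
`d = (a, b; c, e)` (real, `det d = 1`) and `(x, y) = vc g ≠ 0`: `vc (d * g) = (a x + b y, c x + e y)` is proportional to `(x, y)` iff
`c x² + (e - a) x y - b y² = 0`. The form is not identically `0`: otherwise `d = ± 1 ∈ range io`. A non-zero quadratic form in two variables
vanishes on at most two lines through `0`. -/
def StmtDHkN : Prop := Hk.Countable ∧ (∀ (γ : SL(2, ℤ)), ∀ d ∈ Hk, io γ * d ∈ Hk) ∧
  ∀ d : G, d ∈ Hk → d ∉ range io → ∃ v w : ℝ × ℝ, ∀ g : G, (∃ r : ℝ, vc (d * g) = r • vc g) →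
    (∃ r : ℝ, vc g = r • v) ∨ ∃ r : ℝ, vc g = r • w

/-- **Sel** (choice of the pair; 120 lines; from `HkN`). Proof: let `V` be an open neighbourhood of `1` with `V⁻¹ V ⊆ Nb ε`; countably many `g_i V` cover `G`
(second countable), so some `W = g_i V` has `μ (X ∩ W) ≠ 0`. Let `N` be a measurable null set containing: the sets `N_d` of `LSE.hec` for all `d ∈ Hk` and the sets
`{g | ∃ r, vc (d * g) = r • vc g}` for all `d ∈ Hk \ range io` (null by `HkN` and `PlN`). `X' = (X ∩ W) \ N`, `B = gs X'` (measurable, `GI`), `μ X' ≠ 0`.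
`Rec`: some `x ∈ X'` has `d ∈ Hk \ range io` with `d * x ∈ B`; so `y = io γ * d * x ∈ X'` for some `γ`. `d' = io γ * d ∈ Hk \ range io`. `x, d' x ∉ N_{d'}`, so
`Pr (lf y) (lf x)`. `x⁻¹ y ∈ W⁻¹ W = V⁻¹ V`. If `(x⁻¹ y) 1 0 = 0` then `vc y = vc (x * h) = h 0 0 • vc x`, contradiction to `x ∉ N`. -/
def StmtDSel : Prop := ∀ (μ : Measure G) (lf : G → Measure ℝ) (D : Set G), Rec μ → LSE μ lf D → PlN μ →
  ∀ X : Set G, MeasurableSet X → μ X ≠ 0 → ∀ ε : ℝ, 0 < ε →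
    ∃ x ∈ X, ∃ y ∈ X, x⁻¹ * y ∈ Hp.Nb ε ∧ (x⁻¹ * y) 1 0 ≠ 0 ∧ Pr (lf y) (lf x)

/-- **Geo** (the displacement along the flow and the leaf; 40 lines): with `h = x⁻¹ * y` the displacement of `x * fl s * un u`,
`y * fl s * un u` is `un (-u) * fl (-s) * h * fl s * un u`; multiply out. -/
def StmtDGeo : Prop := ∀ (x y : G) (s u : ℝ),
  ((x * fl s * un u)⁻¹ * (y * fl s * un u)) 0 0 = (x⁻¹ * y) 0 0 - u * (Real.exp s * (x⁻¹ * y) 1 0) ∧
  ((x * fl s * un u)⁻¹ * (y * fl s * un u)) 0 1 = Real.exp (-s) * (x⁻¹ * y) 0 1 + ((x⁻¹ * y) 0 0 - (x⁻¹ * y) 1 1) * u -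
    Real.exp s * (x⁻¹ * y) 1 0 * u ^ 2 ∧
  ((x * fl s * un u)⁻¹ * (y * fl s * un u)) 1 0 = Real.exp s * (x⁻¹ * y) 1 0 ∧
  ((x * fl s * un u)⁻¹ * (y * fl s * un u)) 1 1 = (x⁻¹ * y) 1 1 + u * (Real.exp s * (x⁻¹ * y) 1 0)

/-- **One** (one step of the shear; 120 lines; from `Time`, `Pick`, `Geo`, `Flo`). Proof: `h = x⁻¹ y`, `c = h 1 0`, `e = h 0 0 - h 1 1`, `|c| ≤ ε ≤ 1/8 ≤ e^(-2)`,
`|e| ≤ 2ε ≤ 1`. `Time` with the indicators of the complements of `X1` at `x fl s`, `y fl s` and of `X2` at `x fl s` (the three bounds are the definition of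
`X3`) gives `s, k` with `x fl s, y fl s ∈ X1`, `x fl (s + k) ∈ X2`. `r = e^k`, `m = lf (x * fl s)`. By `Flo` `lf (x * fl (s+k))` is proportional to the
image of `m` under `e^(-k) ·`, so `X2` says `m (Icc (-r) r) ≠ 0` and `10 m (Icc (r (z - 2ρ)) (r (z + 2ρ))) ≤ m (Icc (-r) r)` for rational `|z| ≤ 1`; for real `|z| ≤ 1` take a
rational `z'`, `|z'| ≤ 1`, `|z - z'| ≤ ρ`. `lf (y * fl s)` is proportional to `m` (`Flo` and `Pr (lf y) (lf x)`). `Pick` with `P₁ = {u | x fl s un u ∈ E \ gs K}`, `P₂` the same for `y`,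
`b = e^(-s) h 0 1`, `e`, `c' = e^s c` gives `u`, `|u| ≤ r`; `x' = x fl s un u ∈ E` (`FI`), so `x' ∈ gs K`, the same for `y'`. `Pr (lf x') (lf y')` by `LS.tr`. By `Geo`:
`|h' 0 1| = |q(u)| ∈ [κ, ε + 1 + 1]`; `|h' 1 0| = e^s |c| ≤ √|c| ≤ √ε`; `|h' 0 0 - 1| ≤ ε + r e^s |c| ≤ ε + √(r² e^s |c|) √(e^s |c|) ≤ ε + √√ε`, the same for `h' 1 1`. -/
def StmtDOne : Prop := ∀ (μ : Measure G) (lf : G → Measure ℝ) (D : Set G), LSE μ lf D → ∀ (E K : Set G) (ρ κ ε : ℝ),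
  FI E → E ⊆ D → 0 < ρ → ρ ≤ 1 → 0 < κ → 10 * κ < Real.exp (-2) * ρ ^ 2 → 0 < ε → ε ≤ 1 / 8 →
  ∀ x ∈ X3 lf E K ρ, ∀ y ∈ X3 lf E K ρ, x⁻¹ * y ∈ Hp.Nb ε → (x⁻¹ * y) 1 0 ≠ 0 → Pr (lf y) (lf x) →
    ∃ x' ∈ gs K, ∃ y' ∈ gs K, Pr (lf x') (lf y') ∧ κ ≤ |(x'⁻¹ * y') 0 1| ∧ |(x'⁻¹ * y') 0 1| ≤ 3 ∧
      |(x'⁻¹ * y') 0 0 - 1| ≤ ε + √(√ε) ∧ |(x'⁻¹ * y') 1 0| ≤ √ε ∧ |(x'⁻¹ * y') 1 1 - 1| ≤ ε + √(√ε)

/-- **Lim** (limit of the pairs; 150 lines). Proof: write `io γ_j * x_j = k_j ∈ K`; `io γ_j * y_j = k_j h_j` with `h_j = x_j⁻¹ y_j`, and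
`io γ'_j * y_j = k'_j ∈ K`. So `k_j h_j = io δ_j * k'_j` with `δ_j = γ_j γ'_j⁻¹`, `io δ_j = k_j h_j k'_j⁻¹` is bounded (`K` compact, `h_j` bounded), so `δ_j` is in a finite set
(integral matrices with bounded entries). Pass to a subsequence: `δ_j = δ`, `k_j → z ∈ K`, `k'_j → z' ∈ K`, `(h_j) 0 1 → q`, `|q| ≥ κ`, so `h_j → un q` and
`z * un q = io δ * z'`. On `D` `lf k_j ~ lf x_j ~ lf y_j ~ lf k'_j` (`LSE.gam`), so `rt lf i k_j = rt lf i k'_j` for all `i` (`lf k (Icc (-1) 1)` is `≠ 0` and finite on `K`), in the limit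
`rt lf i z = rt lf i z'`. So `lf z (Ioo a b) = k * lf z' (Ioo a b)` for all rational `a, b`, `k = lf z (Icc (-1) 1) / lf z' (Icc (-1) 1)`, and
`Pr (lf z) (lf z')` (`Real.measure_ext_Ioo_rat`). Finally `lf z' ~ lf (io δ * z') = lf (z * un q) = (lf z).map (· - q)`. -/
def StmtDLim : Prop := ∀ (μ : Measure G) (lf : G → Measure ℝ) (D : Set G), LSE μ lf D → ∀ K : Set G, IsCompact K → K ⊆ D →
  (∀ g ∈ K, lf g (Icc (-1) 1) ≠ 0) → (∀ i, ContinuousOn (rt lf i) K) → ∀ (x y : ℕ → G) (κ : ℝ), 0 < κ →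
  (∀ j, x j ∈ gs K) → (∀ j, y j ∈ gs K) → (∀ j, Pr (lf (x j)) (lf (y j))) →
  (∀ j, κ ≤ |((x j)⁻¹ * y j) 0 1|) → (∀ j, |((x j)⁻¹ * y j) 0 1| ≤ 3) →
  Tendsto (fun j => ((x j)⁻¹ * y j) 0 0) atTop (𝓝 1) → Tendsto (fun j => ((x j)⁻¹ * y j) 1 0) atTop (𝓝 0) →
  Tendsto (fun j => ((x j)⁻¹ * y j) 1 1) atTop (𝓝 1) → ∃ z ∈ K, ∃ q : ℝ, q ≠ 0 ∧ QP (lf z) q

/-- **HP** (no set without quasi-periods; 60 lines; from `XM`, `XE`, `Sel`, `One`, `Lim`). Proof: suppose `μ E ≠ 0`; take `K, ρ` from `XE`,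
`κ = e^(-2) ρ² / 11`. For `j : ℕ`, `ε = 1/(j + 8)`: `Sel` for `X3 lf E K ρ` gives `x, y`, `One` gives `x_j, y_j`. `Lim` gives `z ∈ K ⊆ E` with a non-zero quasi-period. -/
def StmtDHP : Prop := Wt → ∀ (μ : Measure G) (lf : G → Measure ℝ) (D : Set G), Inv μ → Rec μ → LSE μ lf D → PlN μ →
  ∀ E : Set G, MeasurableSet E → FI E → E ⊆ D → (∀ g ∈ E, ∀ x, lf g {x} = 0) →
  (∀ g ∈ E, ∀ q : ℝ, q ≠ 0 → ¬ QP (lf g) q) → μ E = 0

/-- **Mea** (measurability of the set with a quasi-period in a compact range; 100 lines; from `Ker`, `Cont`, `Qc`). Proof: `T = {τ : α ≤ |τ| ≤ β}` is compact and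
`T ∩ ℚ` is dense in `T` (`α < β`). Enumerate the conditions of `Qc` as `i : ℕ` and let `D_i(g, τ) = |lhs.toReal - rhs.toReal|`: for fixed rational `τ` measurable in `g`, for
`g ∈ Dn` continuous in `τ` (`Cont`). For `g ∈ Dn` (note `lf g ≠ 0`): `(∃ τ ∈ T, QP) ↔ ∀ n, ∃ τ ∈ T ∩ ℚ, ∀ i < n, D_i(g, τ) < 1/(n+1)`. `→`: continuity at the solution.
`←`: a subsequence of the `τ_n` converges to `τ ∈ T`, and `D_i(g, τ) = 0` for all `i` by continuity. The right side is a countable condition. -/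
def StmtDMea : Prop := ∀ (μ : Measure G) (lf : G → Measure ℝ) (D : Set G), LSE μ lf D → MeasurableSet (Dn lf D) →
  ∀ α β : ℝ, 0 < α → α < β → MeasurableSet {g | g ∈ Dn lf D ∧ ∃ τ : ℝ, α ≤ |τ| ∧ |τ| ≤ β ∧ QP (lf g) τ}

/-- **Q0** (arbitrarily small quasi-periods; 120 lines; from `Dns`, `Mea`, `HP`, `Zoom`, `Flo`). Proof: `E = {g ∈ Dn | no τ ≠ 0 with QP (lf g) τ}`: measurable, since
its complement in `Dn` is the union over `n` of the sets of `Mea` with `α = 1/n`, `β = n + 1`; `FI` (`DGrp`: `QP` under proportionality, shifts, scaling). So `μ E = 0` by `HP`. Let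
`F g = ⨅ {|τ| : τ ≠ 0, QP (lf g) τ}` (in `ℝ≥0∞`; put `F = 0` off `Dn`). `F < t` iff the set of `Mea` with some rational `0 < α < β < t` contains `g`: measurable; Γ-invariant;
`F (g * fl n) = e^(-n) F g` (`Flo`: `QP (lf (g * fl n)) τ ↔ QP (lf g) (e^n τ)`), and `F g < ∞` a.e., so `F (g * fl n) → 0`. `Zoom` (`σ = 1`): `F = 0` a.e. -/
def StmtDQ0 : Prop := Wt → ∀ (μ : Measure G) (lf : G → Measure ℝ) (D : Set G), Inv μ → Rec μ → LSE μ lf D → NoAt μ lf → PlN μ →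
  ∀ᵐ g ∂μ, ∀ ε : ℝ, 0 < ε → ∃ τ : ℝ, τ ≠ 0 ∧ |τ| ≤ ε ∧ QP (lf g) τ

/-- **TI** (translation invariance of the leaf measures; 150 lines; from `Ker`, `Dns`, `Flo`, `Cont`, `Qc`, `Qg`, `Mul`, `Zoom`, `Q0`). Proof: by `Q0` and `Qg` a.e. `g` is in
`A₀ = {g ∈ Dn | all rational τ satisfy the conditions of Qc}` (measurable, Γ-invariant, invariant under `fl 1` up to closedness: on `A₀` all real `τ` are quasi-periods by `Qg`).
Fix a rational `τ`; `x(g) = lf g (Icc (-1 + τ) (1 + τ)) / lf g (Icc (-1) 1)`, `F = (x - 1) + (1 - x)` (truncated subtraction) on `A₀`, `0` off `A₀`: measurable, Γ-invariant. `Flo` with `-n`: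
`lf (g * fl (-n))` is proportional to the image of `lf g` under `e^n ·`, so `x (g * fl (-n))` is the quotient of `Mul`, which tends to `1`. `Zoom` (`σ = -1`): `F = 0` a.e., `x(g) = 1`. For a.e. `g` this
holds for all rational `τ`; with `(lf g).map (· - τ) = k • lf g` we get `k = 1`. For real `τ`: `lf g (Ioo (a + τ) (b + τ))` is continuous in `τ` (`Cont`) and equals `lf g (Ioo a b)` for rational `τ`, so for all; `Real.measure_ext_Ioo_rat`. -/
def StmtDTI : Prop := Wt → ∀ (μ : Measure G) (lf : G → Measure ℝ) (D : Set G), Inv μ → Rec μ → LSE μ lf D → NoAt μ lf → PlN μ →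
  ∀ᵐ g ∂μ, ∀ τ : ℝ, (lf g).map (fun x => x - τ) = lf g

/-- **Fin** (end of block D; 60 lines). Proof: it suffices that `∫⁻ F (g * un u) dμ = ∫⁻ F dμ` for measurable `F ≥ 0` (`Measure.ext` with indicators, `lintegral_map`). By `LS.dis` both sides are
`∫ θ(dv) ∫ F (sc v * un x * un u) d(lf (sc v))(x)` and without `un u`; `un x * un u = un (x + u)`. Let `P` be a measurable `μ`-null set containing all `g` with a `τ` such that `lf g` is not `τ`-invariant. `LS.dis`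
for the indicator of `P`: for `θ`-a.e. `v` `lf (sc v) {x | sc v * un x ∈ P} = 0`. If `lf (sc v) ≠ 0`, there is `x` with `sc v * un x ∉ P`, so `lf (sc v * un x) = (lf (sc v)).map (· - x)` is invariant
under all translations and so is `lf (sc v)`; if `lf (sc v) = 0` trivial. So the inner integrals agree. -/
def StmtDFin : Prop := ∀ (μ : Measure G) (lf : G → Measure ℝ), LS μ lf →
  (∀ᵐ g ∂μ, ∀ τ : ℝ, (lf g).map (fun x => x - τ) = lf g) → ∀ u : ℝ, μ.map (fun g => g * un u) = μ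

end

end Pool.Agent.A54.QE
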