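import Pool.Agent.Lib.QE.Defs
import Pool.Agent.Lib.MP_a54f13_nt.Hp.SpecU
import Pool.Agent.Lib.MP_a54f13_nt.Pl.Spec
import Pool.Agent.Lib.MP_a54f13_nt.Av.SpecN

/-!
# Package `QE`, block E: a measure invariant under `A` and `U` is the Haar measure; the final theorem

Architect: helper12 (idea for the end, module `ECs`: helper54). Every module: file `Pool/Agent/Lib/QE/<Name>.lean` (names `EKr`, `EBs`, …), importing
`Pool.Agent.Lib.QE.SpecE` (and Mathlib; other modules of the library only where it is said), private names in `namespace Pool.Agent.A54.QE.<Name>M`,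
final theorem `Pool.Agent.A54.QE.stmt<Name>`; the other statements used are hypotheses of the theorem, in the order of the task.

Useful lemmas: `Dyn/Base.lean` (`base_mul : base (g * h) = g • base h`, `G_ext`, entries of products, `isCompact_base`, `measurable_base`), `UpperHalfPlane.toSL2R`,
`UpperHalfPlane.toSL2R_smul_I : z.toSL2R • I = z`, `UpperHalfPlane.coe_toSL2R`, `Hp/NuLeft.lean` (`mp : MeasurePreserving (fun z : ℍ => h • z)`), `Hp/Unf.lean` (`UnfM`).
-/

set_option autoImplicit false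

namespace Pool.Agent.A54.QE

open MeasureTheory Filter Topology Set
open scoped ContDiff ComplexConjugate UpperHalfPlane MatrixGroups ENNReal
open Pool.Agent.A54.Dyn (G fl base ze io mk4 Inv HM)
open Pool.Agent.A54.Half (H0)

noncomputable section

/-- the hat kernel on the half-plane -/
def kr (r : ℝ) (z w : ℍ) : ℝ≥0∞ := ENNReal.ofReal (r - dist z w)

/-- its integral -/
def cr (r : ℝ) : ℝ≥0∞ := ∫⁻ w : ℍ, kr r w UpperHalfPlane.I

/-- **EKr** the kernel. Proof. (1) `dist_comm`. (2) continuity of `dist`. (3) `SL(2, ℝ)` acts by isometries (`dist_smul`, instance `IsIsometricSMul`).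
(4) `0 < cr r`: `kr r w I > 0` for `w` in the open ball of radius `r`, a nonempty open set has positive volume (`MeasureTheory.lintegral_pos_iff_support` or
`≥ ∫⁻ ball (r/2)` of the constant `r/2`); `cr r ≤ r * volume (closedBall I r) < ⊤` (compact: `ℍ` is a proper space; volume is finite on compact sets);
(5) `z = z.toSL2R • I`, (3), and the invariance of the volume: `∫⁻ w, kr r w (g • I) = ∫⁻ w, kr r (g • w) (g • I)`. -/
def StmtEKr : Prop := (∀ (r : ℝ) (z w : ℍ), kr r z w = kr r w z) ∧ (∀ r : ℝ, Continuous fun p : ℍ × ℍ => kr r p.1 p.2) ∧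
  (∀ (r : ℝ) (g : G) (z w : ℍ), kr r (g • z) (g • w) = kr r z w) ∧
  ∀ r : ℝ, 0 < r → 0 < cr r ∧ cr r < ⊤ ∧ ∀ z : ℍ, ∫⁻ w : ℍ, kr r w z = cr r

/-- measures invariant under `A` and `U` on the right -/
structure BI (μ : Measure G) : Prop where
  fin : IsFiniteMeasureOnCompacts μ
  fl : ∀ t : ℝ, μ.map (fun g => g * fl t) = μ
  un : ∀ u : ℝ, μ.map (fun g => g * un u) = μ

/-- **EBs** (uses `EKr`, `Hp.StmtNuL`). Proof. (1) Let `x : G`, `z = base x`, `b = z.toSL2R = un (re z) * fl (log (im z))` (entries `√y, x/√y; 0, 1/√y`; `G_ext`, `√y = exp (log y / 2)`). As `μ` is invariant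
under right multiplication with `b` (two steps), `∫⁻ F (base (g * b)) = ∫⁻ F (base g)` (`lintegral_map`), and `base (g * x) = g • base x = g • z = base (g * b)`.
(2) Integrate (1) over `x` with the weight `kr r (base x) I` for the Haar measure `Hp.nu`: the right side gives `cr r * ∫⁻ F (base g)` (last part of `StmtNuL`). On the left side exchange the integrals
(`lintegral_lintegral_swap`; `μ`, `nu` are σ-finite: finite on compact sets of a σ-compact space) and for fixed `g` replace `x` by `g⁻¹ * x` (left invariance of `nu`): `kr r (base (g⁻¹ * x)) I = kr r (g⁻¹ • base x) (g⁻¹ • base g) = kr r (base x) (base g)`,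
so the inner integral is `∫⁻ x, kr r (base x) (base g) * F (base x) ∂nu = ∫⁻ w, kr r w (base g) * F w`. -/
def StmtEBs : Prop := ∀ μ : Measure G, BI μ → ∀ F : ℍ → ℝ≥0∞, Measurable F →
  (∀ x : G, ∫⁻ g, F (base (g * x)) ∂μ = ∫⁻ g, F (base g) ∂μ) ∧
  ∀ r : ℝ, 0 < r → ∫⁻ g, (∫⁻ w : ℍ, kr r w (base g) * F w) ∂μ = cr r * ∫⁻ g, F (base g) ∂μ

/-- mean value property for all hat kernels -/
def MV (ρ : ℍ → ℝ) : Prop := ∀ r : ℝ, 0 < r → ∀ w : ℍ, ∫⁻ z : ℍ, kr r z w * ENNReal.ofReal (ρ z) = cr r * ENNReal.ofReal (ρ w)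

/-- **EDn** the density (uses `EKr`, `EBs` (2)). Proof. Let `m = μ.map base`, finite on compact sets (`Dyn.isCompact_base`), so σ-finite. For `r > 0` let `ρ_r(w) = (∫⁻ z, kr r z w ∂m).toReal / (cr r).toReal`; the integral is `≤ r m(closedBall w r) < ⊤`.
(1) `ρ_r` is continuous: dominated convergence (`tendsto_lintegral_filter_of_dominated_convergence`; for `dist w w₀ ≤ 1` the bound is `r` times the indicator of `closedBall w₀ (r+1)`), `kr` is continuous; or directly
`|kr r z w - kr r z w₀| ≤ dist w w₀` on `closedBall w₀ (r+1)`.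
(2) `m = volume.withDensity (ofReal ∘ ρ_r)`: for measurable `F ≥ 0`, by `EBs` (2) and Tonelli, `cr r * ∫⁻ F ∂m = ∫⁻ z, ∫⁻ w, kr r w z * F w ∂m = ∫⁻ w, F w * (∫⁻ z, kr r w z ∂m) = cr r * ∫⁻ w, F w * ofReal (ρ_r w)`, cancel `cr r` (not `0`, not `⊤`).
(3) By (2) `ρ_r = ρ_1` almost everywhere (`withDensity_eq_iff_of_sigmaFinite`), by continuity everywhere (`Continuous.ae_eq_iff_eq`; the volume of `ℍ` is positive on open sets). Let `ρ = ρ_1`.
(4) `cr r * ofReal (ρ w) = ∫⁻ z, kr r z w ∂m = ∫⁻ z, kr r z w * ofReal (ρ z)` (`lintegral_withDensity_eq_lintegral_mul`). -/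
def StmtEDn : Prop := ∀ μ : Measure G, BI μ → ∃ ρ : ℍ → ℝ, Continuous ρ ∧ (∀ z, 0 ≤ ρ z) ∧ MV ρ ∧
  ∀ S : Set ℍ, MeasurableSet S → μ (base ⁻¹' S) = ∫⁻ z in S, ENNReal.ofReal (ρ z)

/-- **EUf** unfolding on the half-plane (uses `Hp.StmtNuL`, `Hp.StmtUnf`). Proof. (1) `StmtUnf` (1) for `F ∘ base`: `Hp.FF = base ⁻¹' fdo`, `base (io γ * g) = γ • base g`, and the last part of `StmtNuL` for `F` and for the product with the indicator of `fdo`.
(2) A null set in `fdo` which is the intersection of `fdo` with an invariant set `V` gives a null set `V`: (1) for the indicator of `V`. -/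
def StmtEUf : Prop := (∀ F : ℍ → ℝ≥0∞, Measurable F → ∑' γ : SL(2, ℤ), ∫⁻ z in ModularGroup.fdo, F (γ • z) = 2 * ∫⁻ z : ℍ, F z) ∧
  ∀ V : Set ℍ, MeasurableSet V → (∀ (γ : SL(2, ℤ)) (z : ℍ), γ • z ∈ V ↔ z ∈ V) → volume (V ∩ ModularGroup.fdo) = 0 → volume V = 0

/-- **ETr** the averaging operator preserves the integral over the modular surface (uses `EKr`, `EUf` (1)). Proof. (`T` = left side.) By `EUf` (1) for `z ↦ kr r z w * u z` and the invariance of `u`: `2 ∫⁻ z, kr r z w * u z = ∑' γ, ∫⁻ z in fdo, kr r (γ • z) w * u z`.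
Integrate over `w ∈ fdo`, exchange (`lintegral_tsum`, `lintegral_lintegral_swap`, everything is measurable): `2 T = ∫⁻ z in fdo, u z * ∑' γ, ∫⁻ w in fdo, kr r (γ • z) w`. Here `kr r (γ • z) w = kr r z (γ⁻¹ • w)` (`EKr` (3) for `io γ⁻¹`), reindex `γ ↦ γ⁻¹` (`Equiv.inv`),
`EUf` (1) for `w ↦ kr r z w`: `∑' γ, ∫⁻ w in fdo, kr r z (γ • w) = 2 ∫⁻ w, kr r z w = 2 cr r` (`EKr` (1), (4)). Cancel `2`. -/
def StmtETr : Prop := ∀ r : ℝ, 0 < r → ∀ u : ℍ → ℝ≥0∞, Measurable u → (∀ (γ : SL(2, ℤ)) (z : ℍ), u (γ • z) = u z) →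
  ∫⁻ w in ModularGroup.fdo, (∫⁻ z : ℍ, kr r z w * u z) = cr r * ∫⁻ w in ModularGroup.fdo, u w

/-- **ECs** constancy, by truncation (uses `EKr`, `EUf` (2), `ETr`, `Av.StmtVol`). Proof. Suppose `ρ z₁ < ρ z₂`; choose `c` with `ρ z₁ < c < ρ z₂` (so `c > 0`), `u = ofReal (min (ρ z) c)`, measurable, invariant, `u ≤ ofReal c`, so `∫⁻_{fdo} u < ⊤` (`Av.StmtVol`: `volume fdo = ofReal (π/3)`).
For every `n : ℕ`, `n ≥ 1`, `r = n`: `T_r u(w) = ∫⁻ z, kr r z w * u z ≤ cr r * u w` for all `w` (`≤ ∫⁻ kr r z w * ofReal (ρ z) = cr r * ofReal (ρ w)` by `MV`, and `≤ ofReal c * cr r` by `EKr` (1), (4); `ofReal (min a b) = min (ofReal a) (ofReal b)`), and the integrals over `fdo` of both sides are equal and finite (`ETr`,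
`lintegral_const_mul`), so `T_r u = cr r * u` almost everywhere on `fdo` (`ae_eq_of_ae_le_of_lintegral_le`), for all `n ≥ 1` at once (`ae_all_iff`).
`V = {ρ > c}` is open, not empty, invariant, so `volume V ≠ 0` and `volume (V ∩ fdo) ≠ 0` (`EUf` (2)): there is `w ∈ V ∩ fdo` where all these equalities hold. Choose `n > dist z₁ w`, `r = n`: `u w = ofReal c`, so `∫⁻ z, kr r z w * u z = cr r * ofReal c = ∫⁻ z, kr r z w * ofReal c`, both finite, and the first integrand
is at most the second one: they are equal almost everywhere (`ae_eq_of_ae_le_of_lintegral_le`). But near `z₁` (an open set, of positive volume) `kr r z w` is `> 0` and finite and `u z < ofReal c`: contradiction. -/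
def StmtECs : Prop := ∀ ρ : ℍ → ℝ, Continuous ρ → (∀ z, 0 ≤ ρ z) → MV ρ → (∀ (γ : SL(2, ℤ)) (z : ℍ), ρ (γ • z) = ρ z) → ∀ z w : ℍ, ρ z = ρ w

/-- **EHa** Haar measure (uses `EDn`, `ECs`). Proof. `BI μ` by `Inv.fin`, `Inv.right` and the hypothesis. `EDn` gives `ρ`. Invariance: `Inv.left` gives `μ (base ⁻¹' (γ • S)) = μ (base ⁻¹' S)`, i.e. `∫⁻_S ρ(γ • z) = ∫⁻_S ρ(z)` for all measurable `S` (the volume is invariant: `Hp/NuLeft.lean`, `mp`, or
`measurePreserving_smul`), so `ρ (γ • z) = ρ z` almost everywhere (`ae_eq_of_forall_setLIntegral_eq_of_sigmaFinite` or `withDensity_eq_iff_of_sigmaFinite`), everywhere by continuity. `ECs`: `ρ = c`. -/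
def StmtEHa : Prop := ∀ μ : Measure G, Inv μ → (∀ u : ℝ, μ.map (fun g => g * un u) = μ) → ∃ c : ℝ, 0 ≤ c ∧
  ∀ S : Set ℍ, MeasurableSet S → μ (base ⁻¹' S) = ENNReal.ofReal c * volume S

/-- **EOn** no escape of mass (uses `Av.StmtVol`, `Ef.StmtCus`; import `Pool.Agent.Lib.MP_a54f13_nt.Av.Fd2`, `Ef.SpecS`). Proof. This is `Av.Fd2M.c_one` with the filter `hyperfilter ℕ` instead of `atTop`: copy its proof (`le_of_tendsto`, `ge_of_tendsto` hold for every filter `≠ ⊥`; everything that is used holds for all `i`).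
The hypothesis `hY` of `c_one` is `Ef.SeqM.cusp` (copy it: `C Y^(-1/4) ≤ κ` for large `Y`). -/
def StmtEOn : Prop := ∀ (f : ℕ → ℍ → ℝ) (t : ℕ → ℝ), HM f t → ∀ c : ℝ, 0 ≤ c →
  (∀ φ : ℂ → ℝ, TestR H0 φ → Tendsto (fun i => ∫ z : ℍ, φ z * f i z ^ 2) (hyperfilter ℕ : Filter ℕ) (𝓝 (c * ∫ z : ℍ, φ z))) → c = 1

/-- **EAs** assembly of the first part: `StmtE` (uses `EHa`, `EOn`). Proof. `EHa`: `μ.map base = ofReal c • volume`, so `∫ g, φ (base g) ∂μ = c * ∫ z, φ z` for every `φ` which is continuous on `H0` (`integral_map`, `integral_smul_measure`). For real `φ ∈ TestR H0` apply `Md0` to the complex function (`Test H0`), take real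
parts: the hypothesis of `EOn`. So `c = 1`. -/
def StmtEAs : Prop := StmtE

/-- **EQu** from the hyperfilter to sequences, first part: the case `n = 2` for all sequences (uses `Pl.StmtU2`). Proof. By `Pl.StmtU2` with `F i = f i ^ 2`, `c = 1` it is enough that `∫ z, φ z * f i z ^ 2 → ∫ z, φ z` along `atTop` for `φ ∈ TestR H0`. Otherwise there are `ε > 0` and a strictly increasing `σ` with
`|∫ φ f_(σ i)² - ∫ φ| ≥ ε` for all `i` (`Filter.extraction_of_frequently_atTop`); `(f ∘ σ, t ∘ σ)` is again `HM`, and the hypothesis for it and the complex function `φ` contradicts this (`hyperfilter ℕ` is not `⊥`). -/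
def StmtEQu : Prop := (∀ (f : ℕ → ℍ → ℝ) (t : ℕ → ℝ), HM f t → ∀ φ : ℂ → ℂ, Test H0 φ →
    Tendsto (fun i => ∫ z : ℍ, φ z * ((f i z : ℂ) ^ 2)) (hyperfilter ℕ : Filter ℕ) (𝓝 (∫ z : ℍ, φ z))) →
  ∀ (f : ℕ → ℍ → ℝ) (t : ℕ → ℝ), HM f t → ∀ ψ : ℍ → ℝ, TestX ψ →
    Tendsto (fun i => ∫ z in ModularGroup.fdo, ψ z * f i z ^ 2) atTop (𝓝 (∫ z in ModularGroup.fdo, ψ z))

end

end Pool.Agent.A54.QE
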