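import Pool.Agent.Lib.QE.Defs

/-!
# Package `QE`, block W: the weights (helper83)

Statements with complete proofs in the docstrings. `StmtXyz` is proved in `Pool/Agent/Lib/QE/Xyz.lean`, theorem `stmtXyz`.
-/

set_option autoImplicit false

namespace Pool.Agent.A54.QE

open MeasureTheory Filter Topology Set
open scoped ContDiff ComplexConjugate UpperHalfPlane MatrixGroups ENNReal
open Pool.Agent.A54.Dyn (G fl base ze io mk4 Inv)

noncomputable section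

/-- (WDi) DISTORTION.

PROOF. `a² + b² + c² + d² - 2 (ad - bc) = (a - d)² + (b + c)² ≥ 0`. `nsq` is the square of the Hilbert–Schmidt norm: submultiplicative by
Cauchy–Schwarz for each entry of the product. `nsq g⁻¹ = nsq g` (`inv_00`, ...). `nsq (g * un u) = |c₁|² + |c₂ + u c₁|²
≤ |c₁|² + |c₂|² + 2 |u| |c₁| |c₂| + u² |c₁|² ≤ (1 + |u|)² (|c₁|² + |c₂|²)` for the columns `c₁`, `c₂`. Continuity: `Dyn.continuous_entry`. -/
def StmtWDi : Prop := (∀ g : G, 2 ≤ nsq g) ∧ (∀ g h : G, nsq (g * h) ≤ nsq g * nsq h) ∧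
  (∀ g : G, nsq g⁻¹ = nsq g) ∧ (∀ (g : G) (u : ℝ), nsq (g * un u) ≤ (1 + |u|) ^ 2 * nsq g) ∧ Continuous nsq ∧
  Continuous qq ∧ (∀ g : G, 0 < qq g) ∧ (∀ g h : G, qq (h * g) ≤ nsq h ^ 4 * qq g) ∧
  (∀ (g : G) (u : ℝ), qq (g * un u) ≤ (1 + |u|) ^ 8 * qq g)

/-- (WSm) SUMMABILITY AND THE WEIGHT (uses `WDi`).

PROOF. `nsq (io γ) ≥ 2` and `1 + x² ≤ 1 + nsq ≤ (3/2) nsq` for each entry `x` of `γ`, so
`qq (io γ) ≤ (3/2)^4 ∏_(entries) (1 + x²)⁻¹`, summable over `ℤ⁴` (product of four summable series), and `γ ↦` entries is injective. `qq (io γ * g) ≤ nsq g ^ 4 * qq (io γ)`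
(`nsq (io γ) ≤ nsq (io γ * g) * nsq g⁻¹`). So for every `R` the series `∑_γ qq (io γ * g)` converges uniformly on the open set `{nsq g < R}`: the sum is continuous (`continuousOn_tsum`), positive, and
`ch` is continuous and positive; `ch ≤ 1`: the term `γ = 1`. The denominator is `Γ`-invariant (`Equiv.tsum_eq` for `γ ↦ γ γ₀`), so `∑_γ ch (io γ * g) = 1` (in `ℝ`, then `ENNReal.ofReal_tsum_of_nonneg`).
`ch (g * un u) ≤ (1+|u|)^8 qq g / ((1+|u|)^(-8) ∑ qq (io γ * g))`, the lower bound of the denominator from `WDi` for `g * un u` and `-u`. -/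
def StmtWSm : Prop := (∀ g : G, Summable fun γ : SL(2, ℤ) => qq (io γ * g)) ∧ Continuous ch ∧ (∀ g, 0 < ch g) ∧
  (∀ g, ch g ≤ 1) ∧ (∀ g, ∑' γ : SL(2, ℤ), ENNReal.ofReal (ch (io γ * g)) = 1) ∧
  ∀ (g : G) (u : ℝ), ch (g * un u) ≤ (1 + |u|) ^ 16 * ch g

/-- (WUn) UNFOLDING.

PROOF. `w`, `w'` two weights. `∫ F w = ∫ F(g) w(g) ∑_γ w'(io γ g) dμ = ∑_γ ∫ F(g) w(g) w'(io γ g) dμ = ∑_γ ∫ F(io γ⁻¹ g) w(io γ⁻¹ g) w'(g) dμ` (`Inv.left`; `lintegral_map` for the measurable map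
`g ↦ io γ * g`) `= ∫ F(g) w'(g) ∑_γ w(io γ⁻¹ g) dμ = ∫ F w'` (`Equiv.inv` for the sum; `lintegral_tsum`). -/
def StmtWUn : Prop := ∀ μ : Measure G, Inv μ → ∀ w w' : G → ℝ≥0∞, Measurable w → Measurable w' →
  (∀ g, ∑' γ : SL(2, ℤ), w (io γ * g) = 1) → (∀ g, ∑' γ : SL(2, ℤ), w' (io γ * g) = 1) →
    ∀ F : G → ℝ≥0∞, Measurable F → (∀ (γ : SL(2, ℤ)) (g : G), F (io γ * g) = F g) →
      ∫⁻ g, F g * w g ∂μ = ∫⁻ g, F g * w' g ∂μ

/-- (WFi) FINITENESS (uses `WSm`).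

PROOF. `B = base ⁻¹' fd`; for every `g` there is `γ` with `io γ * g ∈ B` (`ModularGroup.exists_smul_mem_fd`, `Dyn.base_mul`, `io γ • z = γ • z`), so `1 ≤ ∑_γ 1_B (io γ g)` and
`mX μ univ = ∫ ch dμ ≤ ∫ ch(g) ∑_γ 1_B(io γ g) dμ = ∑_γ ∫ ch(io γ⁻¹ g) 1_B(g) dμ = ∫ 1_B(g) ∑_γ ch(io γ⁻¹ g) dμ = μ B < ∞` (`Inv.mass`). -/
def StmtWFi : Prop := ∀ μ : Measure G, Inv μ → IsFiniteMeasure (mX μ)

/-- (WFn) all properties of the weights (uses `WDi`, `WSm`, `WUn`, `WFi`).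

PROOF. `unf`: `WUn` with `w' = ofReal ch`, `lintegral_withDensity_eq_lintegral_mul`. `flo`: `∫ F(g fl t) ch(g) dμ = ∫ F(g) ch(g fl(-t)) dμ` (`Inv.right`), then `unf` for the weight `ofReal (ch (g * fl (-t)))`.
`null`: `ch > 0` (`withDensity_apply_eq_zero`). -/
def StmtWFn : Prop := Wt

end

end Pool.Agent.A54.QE
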